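import Pool.Agent.Lib.MP_8cf263_co.Row

/-!
# Discrete Aleksandrov projection problem: the 2-adic argument

If the sums of two points of `A` and the sums of two points of `B` have the same multiplicities outside
the kernel of a homomorphism to an elementary abelian 2-group, then `A` and `B` have the same numbers of
points in every coset of the kernel, and `A = B` if `A` and `B` agree in the kernel.
-/

set_option autoImplicit false
set_option linter.unusedSectionVars false

namespace Pool.Agent.Lib.MP_8cf263_co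

open Finset

section ring

variable {G : Type} [Fintype G] [DecidableEq G] [AddCommGroup G]

/-- difference of squares for convolutions -/
theorem conv_diff {R : Type} [CommRing R] (a b : G → R) (σ : G)
    (h : ∑ τ, a τ * a (σ - τ) = ∑ τ, b τ * b (σ - τ)) :
    ∑ τ, (a (σ - τ) + b (σ - τ)) * (b τ - a τ) = 0 := by
  have h1 : ∑ τ, b (σ - τ) * a τ = ∑ τ, b τ * a (σ - τ) := by
    refine Fintype.sum_equiv (Equiv.subLeft σ) _ _ fun τ => ?_
    simp only [Equiv.subLeft_apply, sub_sub_cancel]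
  have h2 : ∑ τ, (a (σ - τ) + b (σ - τ)) * (b τ - a τ) =
      (∑ τ, b τ * a (σ - τ) - ∑ τ, b (σ - τ) * a τ) +
        (∑ τ, b τ * b (σ - τ) - ∑ τ, a τ * a (σ - τ)) := by
    rw [← Finset.sum_sub_distrib, ← Finset.sum_sub_distrib, ← Finset.sum_add_distrib]
    exact Finset.sum_congr rfl fun τ _ => by ring
  rw [h2, h1, h]
  ring

/-- convolution with a function of odd sum on an elementary abelian 2-group is injective -/
theorem det_conv (hG : ∀ g : G, g + g = 0) (w : G → ℤ) (hw : Odd (∑ τ, w τ)) :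
    (Matrix.of fun σ τ => w (σ - τ)).det ≠ 0 := by
  set N : Matrix G G ℤ := Matrix.of fun σ τ => w (σ - τ) with hN
  have hz : ∀ x : ZMod 2, x + x = 0 := CharTwo.add_self_eq_zero
  have hsq : ∀ x : ZMod 2, x * x = x := by decide
  have hneg : ∀ g : G, -g = g := fun g => neg_eq_of_add_eq_zero_left (hG g)
  have h1 : ((Int.castRingHom (ZMod 2)).mapMatrix N) * ((Int.castRingHom (ZMod 2)).mapMatrix N) =
      1 := by
    ext σ τ
    rw [Matrix.mul_apply, Matrix.one_apply]
    have h2 : ∀ σ τ, (Int.castRingHom (ZMod 2)).mapMatrix N σ τ = ((w (σ - τ) : ℤ) : ZMod 2) := by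
      intro σ τ
      simp [hN]
    simp only [h2]
    by_cases hst : σ = τ
    · subst hst
      rw [if_pos rfl]
      have h3 : ∀ ρ, ((w (σ - ρ) : ℤ) : ZMod 2) * ((w (ρ - σ) : ℤ) : ZMod 2) =
          ((w (σ - ρ) : ℤ) : ZMod 2) := by
        intro ρ
        have h4 : ρ - σ = σ - ρ := by
          rw [← hneg (σ - ρ)]
          abel
        rw [h4, hsq]
      rw [Finset.sum_congr rfl fun ρ _ => h3 ρ]
      have h4 : ∑ ρ, ((w (σ - ρ) : ℤ) : ZMod 2) = ∑ ρ, ((w ρ : ℤ) : ZMod 2) :=
        Fintype.sum_equiv (Equiv.subLeft σ) _ _ fun ρ => rfl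
      rw [h4, ← Int.cast_sum]
      obtain ⟨k, hk⟩ := hw
      rw [hk]
      push_cast
      rw [two_mul, hz, zero_add]
    · rw [if_neg hst]
      have hst' : σ + τ ≠ 0 := by
        intro h
        apply hst
        have h5 := eq_neg_of_add_eq_zero_left h
        rwa [hneg] at h5
      refine Finset.sum_involution (fun ρ _ => σ + τ - ρ) (fun ρ _ => ?_) (fun ρ _ _ => ?_)
        (fun ρ _ => mem_univ _) (fun ρ _ => by abel)
      · have h5 : σ - (σ + τ - ρ) = ρ - τ := by abel
        have h6 : σ + τ - ρ - τ = σ - ρ := by abel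
        rw [h5, h6, mul_comm ((w (ρ - τ) : ℤ) : ZMod 2), hz]
      · intro h5
        apply hst'
        have h6 : σ + τ = (σ + τ - ρ) + ρ := by abel
        rw [h6, h5, hG]
  intro h0
  have h2 := congrArg Matrix.det h1
  rw [Matrix.det_mul, Matrix.det_one, ← RingHom.map_det, h0, map_zero, mul_zero] at h2
  exact zero_ne_one h2

/-- a matrix with odd diagonal and even entries outside the diagonal -/
theorem det_odd {m : Type} [Fintype m] [DecidableEq m] (N : Matrix m m ℤ)
    (h : ∀ i j, Odd (N i j) ↔ i = j) : N.det ≠ 0 := by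
  have h1 : (Int.castRingHom (ZMod 2)).mapMatrix N = 1 := by
    ext i j
    rw [Matrix.one_apply, RingHom.mapMatrix_apply, Matrix.map_apply, eq_intCast]
    split_ifs with hij
    · obtain ⟨k, hk⟩ := (h i j).2 hij
      rw [hk]
      push_cast
      have : (2 : ZMod 2) = 0 := rfl
      rw [this, zero_mul, zero_add]
    · have h2 : Even (N i j) := by
        rw [← Int.not_odd_iff_even]
        exact fun h3 => hij ((h i j).1 h3)
      obtain ⟨k, hk⟩ := h2
      rw [hk]
      push_cast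
      exact CharTwo.add_self_eq_zero _
  intro h0
  have h2 : Int.castRingHom (ZMod 2) N.det = 1 := by
    rw [RingHom.map_det, h1, Matrix.det_one]
  rw [h0, map_zero] at h2
  exact zero_ne_one h2

end ring

variable {n : ℕ} {G : Type} [Fintype G] [DecidableEq G] [AddCommGroup G]

/-- number of points in a class -/
def cn (κ : (Fin n → ℤ) →+ G) (A : Finset (Fin n → ℤ)) (τ : G) : ℕ :=
  (A.filter (fun x => κ x = τ)).card

/-- the points in a class -/
noncomputable def cl (κ : (Fin n → ℤ) →+ G) (A : Finset (Fin n → ℤ)) (τ : G) :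
    AddMonoidAlgebra ℤ (Fin n → ℤ) :=
  ∑ x ∈ A, if κ x = τ then AddMonoidAlgebra.single x 1 else 0

/-- the augmentation -/
noncomputable def aug : AddMonoidAlgebra ℤ (Fin n → ℤ) →+* ℤ :=
  (AddMonoidAlgebra.lift ℤ ℤ (Fin n → ℤ) 1).toRingHom

theorem aug_single (x : Fin n → ℤ) (r : ℤ) : aug (AddMonoidAlgebra.single x r) = r := by
  simp [aug]

theorem aug_cl (κ : (Fin n → ℤ) →+ G) (A : Finset (Fin n → ℤ)) (τ : G) :
    aug (cl κ A τ) = cn κ A τ := by
  unfold cl cn
  rw [map_sum, Finset.card_filter, Nat.cast_sum]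
  refine Finset.sum_congr rfl fun x _ => ?_
  split_ifs with h
  · rw [aug_single]
    rfl
  · rw [map_zero]
    rfl

theorem sum_rp (A : Finset (Fin n → ℤ)) (s : Fin n → ℤ) :
    ∑ x ∈ A, ∑ y ∈ A, (if x + y = s then (1 : ℤ) else 0) = rp A s := by
  unfold rp
  rw [Finset.card_filter, Nat.cast_sum]
  refine Finset.sum_congr rfl fun x _ => ?_
  have h1 : ∀ y, (x + y = s) ↔ (y = s - x) := fun y => by
    constructor
    · intro h
      rw [← h]
      abel
    · intro h
      rw [h]
      abel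
  simp only [h1]
  rw [Finset.sum_ite_eq']
  split_ifs <;> rfl

/-- the convolution of the classes -/
theorem conv_cl (κ : (Fin n → ℤ) →+ G) (A : Finset (Fin n → ℤ)) (σ : G) :
    ∑ τ, cl κ A τ * cl κ A (σ - τ) =
      ∑ x ∈ A, ∑ y ∈ A, if κ (x + y) = σ then AddMonoidAlgebra.single (x + y) (1 : ℤ) else 0 := by
  have h1 : ∀ τ, cl κ A τ * cl κ A (σ - τ) = ∑ x ∈ A, ∑ y ∈ A,
      if κ x = τ then (if κ (x + y) = σ then AddMonoidAlgebra.single (x + y) (1 : ℤ) else 0)
        else 0 := by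
    intro τ
    unfold cl
    rw [Finset.sum_mul_sum]
    refine Finset.sum_congr rfl fun x _ => Finset.sum_congr rfl fun y _ => ?_
    by_cases h2 : κ x = τ
    · rw [if_pos h2, if_pos h2]
      have h3 : κ y = σ - τ ↔ κ (x + y) = σ := by
        rw [map_add, h2]
        constructor
        · intro h
          rw [h]
          abel
        · intro h
          rw [← h]
          abel
      by_cases h4 : κ (x + y) = σ
      · rw [if_pos h4, if_pos (h3.2 h4), AddMonoidAlgebra.single_mul_single, one_mul]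
      · rw [if_neg h4, if_neg (fun h => h4 (h3.1 h)), mul_zero]
    · rw [if_neg h2, if_neg h2, zero_mul]
  rw [Finset.sum_congr rfl fun τ _ => h1 τ, Finset.sum_comm]
  refine Finset.sum_congr rfl fun x _ => ?_
  rw [Finset.sum_comm]
  refine Finset.sum_congr rfl fun y _ => ?_
  rw [Finset.sum_ite_eq, if_pos (mem_univ _)]

/-- coefficients -/
noncomputable def cf (s : Fin n → ℤ) : AddMonoidAlgebra ℤ (Fin n → ℤ) →+ ℤ :=
  (Finsupp.applyAddHom s).comp (AddMonoidAlgebra.coeffAddEquiv).toAddMonoidHom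

theorem cf_single (s x : Fin n → ℤ) (r : ℤ) :
    cf s (AddMonoidAlgebra.single x r) = if x = s then r else 0 := by
  show (AddMonoidAlgebra.single x r).coeff s = _
  rw [AddMonoidAlgebra.coeff_single, Finsupp.single_apply]

theorem cf_ext {f g : AddMonoidAlgebra ℤ (Fin n → ℤ)} (h : ∀ s, cf s f = cf s g) : f = g := by
  apply AddMonoidAlgebra.ext
  exact Finsupp.ext h

/-- **The convolution identity.** -/
theorem conv_eq (κ : (Fin n → ℤ) →+ G) {A B : Finset (Fin n → ℤ)} {σ : G}
    (h : ∀ s, κ s = σ → rp A s = rp B s) :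
    ∑ τ, cl κ A τ * cl κ A (σ - τ) = ∑ τ, cl κ B τ * cl κ B (σ - τ) := by
  have h1 : ∀ (C : Finset (Fin n → ℤ)) (s : Fin n → ℤ),
      cf s (∑ x ∈ C, ∑ y ∈ C, if κ (x + y) = σ then AddMonoidAlgebra.single (x + y) (1 : ℤ)
        else 0) = if κ s = σ then (rp C s : ℤ) else 0 := by
    intro C s
    rw [map_sum, ← sum_rp]
    by_cases hs : κ s = σ
    · rw [if_pos hs]
      refine Finset.sum_congr rfl fun x _ => ?_
      rw [map_sum]
      refine Finset.sum_congr rfl fun y _ => ?_
      by_cases h2 : κ (x + y) = σ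
      · rw [if_pos h2, cf_single]
      · rw [if_neg h2, map_zero, if_neg]
        rintro rfl
        exact h2 hs
    · rw [if_neg hs]
      refine Finset.sum_eq_zero fun x _ => ?_
      rw [map_sum]
      refine Finset.sum_eq_zero fun y _ => ?_
      by_cases h2 : κ (x + y) = σ
      · rw [if_pos h2, cf_single, if_neg]
        rintro rfl
        exact hs h2
      · rw [if_neg h2, map_zero]
  rw [conv_cl, conv_cl]
  refine cf_ext fun s => ?_
  rw [h1, h1]
  by_cases h2 : κ s = σ
  · rw [if_pos h2, if_pos h2, h s h2]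
  · rw [if_neg h2, if_neg h2]

theorem cf_cl (κ : (Fin n → ℤ) →+ G) (A : Finset (Fin n → ℤ)) (x : Fin n → ℤ) :
    cf x (cl κ A (κ x)) = if x ∈ A then 1 else 0 := by
  unfold cl
  rw [map_sum]
  have h1 : ∀ y ∈ A, cf x (if κ y = κ x then AddMonoidAlgebra.single y (1 : ℤ) else 0) =
      if y = x then 1 else 0 := by
    intro y _
    by_cases h2 : κ y = κ x
    · rw [if_pos h2, cf_single]
    · rw [if_neg h2, map_zero, if_neg]
      rintro rfl
      exact h2 rfl
  rw [Finset.sum_congr rfl h1, Finset.sum_ite_eq']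

/-- parity of the number of points of a class -/
theorem odd_cn (κ : (Fin n → ℤ) →+ G) (hG : ∀ g : G, g + g = 0) {A : Finset (Fin n → ℤ)}
    (hs : ∀ x ∈ A, -x ∈ A) (h0 : (0 : Fin n → ℤ) ∈ A) (τ : G) :
    Odd (cn κ A τ : ℤ) ↔ τ = 0 := by
  have hneg : ∀ g : G, -g = g := fun g => neg_eq_of_add_eq_zero_left (hG g)
  have hfix : ∀ x : Fin n → ℤ, -x = x → x = 0 := by
    intro x hx
    funext i
    have h1 := congrFun hx i
    rw [Pi.neg_apply] at h1
    rw [Pi.zero_apply]
    omega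
  rw [Int.odd_coe_nat]
  constructor
  · intro ho
    by_contra hτ
    apply (Nat.not_even_iff_odd.2 ho)
    refine even_card_of_inv (fun x => -x) ?_ (fun x _ => neg_neg x) ?_
    · intro x hx
      rw [mem_filter] at hx ⊢
      refine ⟨hs x hx.1, ?_⟩
      rw [map_neg, hx.2, hneg]
    · intro x hx h1
      rw [mem_filter] at hx
      apply hτ
      rw [← hx.2, hfix x h1, map_zero]
  · rintro rfl
    have h1 : Even ((A.filter (fun x => κ x = 0)).erase 0).card := by
      refine even_card_of_inv (fun x => -x) ?_ (fun x _ => neg_neg x) ?_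
      · intro x hx
        rw [mem_erase, mem_filter] at hx ⊢
        refine ⟨neg_ne_zero.2 hx.1, hs x hx.2.1, ?_⟩
        rw [map_neg, hx.2.2, hneg]
      · intro x hx h2
        rw [mem_erase] at hx
        exact hx.1 (hfix x h2)
    have h2 : (0 : Fin n → ℤ) ∈ A.filter (fun x => κ x = 0) := by
      rw [mem_filter, map_zero]
      exact ⟨h0, rfl⟩
    rw [card_erase_of_mem h2] at h1
    have h3 : 0 < (A.filter (fun x => κ x = 0)).card := card_pos.2 ⟨0, h2⟩
    unfold cn
    rw [Nat.even_iff] at h1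
    rw [Nat.odd_iff]
    omega

theorem sum_cn (κ : (Fin n → ℤ) →+ G) (A : Finset (Fin n → ℤ)) :
    ∑ τ, (cn κ A τ : ℤ) = A.card := by
  unfold cn
  rw [← Nat.cast_sum, ← Finset.card_eq_sum_card_fiberwise (fun x _ => mem_univ (κ x))]

/-- **Class counts.** -/
theorem cn_eq (κ : (Fin n → ℤ) →+ G) (hG : ∀ g : G, g + g = 0) {A B : Finset (Fin n → ℤ)}
    (hA : ∀ x ∈ A, -x ∈ A) (hB : ∀ x ∈ B, -x ∈ B) (hA0 : (0 : Fin n → ℤ) ∈ A)
    (hB0 : (0 : Fin n → ℤ) ∈ B) (hcard : A.card = B.card)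
    (h : ∀ s, κ s ≠ 0 → rp A s = rp B s) (τ : G) : cn κ A τ = cn κ B τ := by
  have hA' := odd_cn κ hG hA hA0
  have hB' := odd_cn κ hG hB hB0
  -- squares agree
  have hsq : ∀ σ, σ ≠ 0 → ∑ τ, (cn κ A τ : ℤ) * cn κ A (σ - τ) =
      ∑ τ, (cn κ B τ : ℤ) * cn κ B (σ - τ) := by
    intro σ hσ
    have h1 := congrArg aug (conv_eq κ (A := A) (B := B) (σ := σ) (fun s hs => h s (by
      rw [hs]
      exact hσ)))
    simp only [map_sum, map_mul, aug_cl] at h1
    exact h1
  have htot : ∀ C : Finset (Fin n → ℤ), ∑ σ, ∑ τ, (cn κ C τ : ℤ) * cn κ C (σ - τ) =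
      (C.card : ℤ) * C.card := by
    intro C
    rw [Finset.sum_comm, ← sum_cn κ C, Finset.sum_mul]
    refine Finset.sum_congr rfl fun τ _ => ?_
    rw [← Finset.mul_sum]
    congr 1
    exact Fintype.sum_equiv (Equiv.subRight τ) _ _ fun σ => rfl
  have hsq' : ∀ σ, ∑ τ, (cn κ A τ : ℤ) * cn κ A (σ - τ) =
      ∑ τ, (cn κ B τ : ℤ) * cn κ B (σ - τ) := by
    intro σ
    by_cases hσ : σ = 0
    · subst hσ
      have h1 := htot A
      have h2 := htot B
      rw [← Finset.add_sum_erase _ _ (mem_univ (0 : G))] at h1 h2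
      rw [Finset.sum_congr rfl fun σ hσ => hsq σ (ne_of_mem_erase hσ), hcard, ← h2] at h1
      exact add_right_cancel h1
    · exact hsq σ hσ
  -- halves of the sums
  have hev : ∀ τ, ∃ w : ℤ, (cn κ A τ : ℤ) + cn κ B τ = 2 * w := by
    intro τ
    have h1 := hA' τ
    have h2 := hB' τ
    have h3 : Even ((cn κ A τ : ℤ) + cn κ B τ) := by
      rw [Int.even_add]
      rw [← Int.not_odd_iff_even, ← Int.not_odd_iff_even, h1, h2]
    obtain ⟨w, hw⟩ := h3
    exact ⟨w, by rw [hw]; ring⟩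
  choose w hw using hev
  have hodd : Odd (∑ τ, w τ) := by
    have h1 : 2 * ∑ τ, w τ = 2 * (A.card : ℤ) := by
      rw [Finset.mul_sum, ← Finset.sum_congr rfl fun τ _ => hw τ, Finset.sum_add_distrib, sum_cn,
        sum_cn, ← hcard]
      ring
    have h2 : ∑ τ, w τ = (A.card : ℤ) := by omega
    rw [h2, ← sum_cn κ A, ← Finset.add_sum_erase _ _ (mem_univ (0 : G))]
    refine Odd.add_even ((hA' 0).2 rfl) ?_
    refine Finset.even_sum _ fun τ hτ => ?_
    rw [← Int.not_odd_iff_even, hA']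
    exact ne_of_mem_erase hτ
  have hdet := det_conv hG w hodd
  have h2 := Matrix.eq_zero_of_mulVec_eq_zero hdet
    (v := fun τ => (cn κ B τ : ℤ) - cn κ A τ) (by
      funext σ
      rw [Matrix.mulVec, dotProduct, Pi.zero_apply]
      have h3 := conv_diff (fun τ => (cn κ A τ : ℤ)) (fun τ => (cn κ B τ : ℤ)) σ (hsq' σ)
      simp only [hw] at h3
      have h4 : 2 * ∑ τ, w (σ - τ) * ((cn κ B τ : ℤ) - cn κ A τ) = 0 := by
        rw [Finset.mul_sum, ← h3]
        exact Finset.sum_congr rfl fun τ _ => by ring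
      simp only [Matrix.of_apply]
      omega)
  have h3 : (cn κ B τ : ℤ) - cn κ A τ = 0 := congrFun h2 τ
  omega

/-- **Uniqueness.** -/
theorem adic (κ : (Fin n → ℤ) →+ G) (hG : ∀ g : G, g + g = 0) {A B : Finset (Fin n → ℤ)}
    (hA : ∀ x ∈ A, -x ∈ A) (hB : ∀ x ∈ B, -x ∈ B) (hA0 : (0 : Fin n → ℤ) ∈ A)
    (hB0 : (0 : Fin n → ℤ) ∈ B) (hcard : A.card = B.card)
    (h : ∀ s, κ s ≠ 0 → rp A s = rp B s) (hker : ∀ x, κ x = 0 → (x ∈ A ↔ x ∈ B)) : A = B := by
  classical
  have hcn := cn_eq κ hG hA hB hA0 hB0 hcard h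
  have hF0 : cl κ A 0 = cl κ B 0 := by
    unfold cl
    rw [← Finset.sum_filter, ← Finset.sum_filter]
    congr 1
    ext x
    rw [mem_filter, mem_filter]
    constructor
    · rintro ⟨h1, h2⟩
      exact ⟨(hker x h2).1 h1, h2⟩
    · rintro ⟨h1, h2⟩
      exact ⟨(hker x h2).2 h1, h2⟩
  -- the linear system
  let Mx : Matrix {τ : G // τ ≠ 0} {τ : G // τ ≠ 0} (AddMonoidAlgebra ℤ (Fin n → ℤ)) :=
    Matrix.of fun σ τ => cl κ A (σ.1 - τ.1) + cl κ B (σ.1 - τ.1)
  have hMx : ∀ σ τ, Mx σ τ = cl κ A (σ.1 - τ.1) + cl κ B (σ.1 - τ.1) := fun _ _ => rfl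
  have hdet : Mx.det ≠ 0 := by
    intro h0
    have h1 : aug Mx.det = 0 := by rw [h0, map_zero]
    rw [RingHom.map_det] at h1
    have h2 : aug.mapMatrix Mx = (2 : ℤ) • Matrix.of fun (σ τ : {τ : G // τ ≠ 0}) =>
        (cn κ A (σ.1 - τ.1) : ℤ) := by
      ext σ τ
      rw [RingHom.mapMatrix_apply, Matrix.map_apply, Matrix.smul_apply, hMx, Matrix.of_apply,
        map_add, aug_cl, aug_cl, ← hcn, smul_eq_mul, two_mul]
    rw [h2, Matrix.det_smul] at h1
    have h3 := det_odd (Matrix.of fun (σ τ : {τ : G // τ ≠ 0}) => (cn κ A (σ.1 - τ.1) : ℤ)) (by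
      intro σ τ
      rw [Matrix.of_apply, odd_cn κ hG hA hA0, sub_eq_zero, Subtype.ext_iff])
    rcases mul_eq_zero.1 h1 with h4 | h4
    · exact (pow_ne_zero _ two_ne_zero) h4
    · exact h3 h4
  have hsol := Matrix.eq_zero_of_mulVec_eq_zero hdet
    (v := fun τ : {τ : G // τ ≠ 0} => cl κ B τ.1 - cl κ A τ.1) (by
      funext σ
      rw [Matrix.mulVec, dotProduct, Pi.zero_apply]
      have h3 := conv_diff (fun τ => cl κ A τ) (fun τ => cl κ B τ) σ.1
        (conv_eq κ (fun s hs => h s (by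
          rw [hs]
          exact σ.2)))
      rw [← Finset.add_sum_erase _ _ (mem_univ (0 : G))] at h3
      simp only [hF0, sub_self, mul_zero, zero_add] at h3
      rw [← h3]
      simp only [hMx]
      exact (Finset.sum_subtype (univ.erase (0 : G)) (fun x => by simp)
        (fun τ => (cl κ A (σ.1 - τ) + cl κ B (σ.1 - τ)) * (cl κ B τ - cl κ A τ))).symm)
  have hall : ∀ τ, cl κ A τ = cl κ B τ := by
    intro τ
    by_cases hτ : τ = 0
    · rw [hτ]
      exact hF0
    · have h1 : cl κ B τ - cl κ A τ = 0 := congrFun hsol ⟨τ, hτ⟩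
      exact (sub_eq_zero.1 h1).symm
  ext x
  have h1 := cf_cl κ A x
  have h2 := cf_cl κ B x
  rw [hall, h2] at h1
  by_cases h3 : x ∈ A
  · rw [if_pos h3] at h1
    by_cases h4 : x ∈ B
    · exact ⟨fun _ => h4, fun _ => h3⟩
    · rw [if_neg h4] at h1
      exact absurd h1 (by norm_num)
  · rw [if_neg h3] at h1
    by_cases h4 : x ∈ B
    · rw [if_pos h4] at h1
      exact absurd h1 (by norm_num)
    · exact ⟨fun h => absurd h h3, fun h => absurd h h4⟩

end Pool.Agent.Lib.MP_8cf263_co
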