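import Pool.Agent.Lib.MP_8cf263_co.Rational

/-!
# Discrete Aleksandrov projection problem: dilates of polytopes with rational facet directions, II
-/

set_option autoImplicit false

namespace Pool.Agent.Lib.MP_8cf263_co

open Finset Filter Topology

variable {n : ℕ}

theorem ev_pow (C : ℕ) (ρ : ℝ) (hρ : 1 ≤ ρ) :
    ∀ᶠ N : ℝ in atTop, C * ⌈2 * N * ρ⌉₊ ≤ ⌊√N⌋₊ ^ 4 := by
  filter_upwards [eventually_ge_atTop 4, eventually_ge_atTop (48 * C * ρ)] with N h4 hC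
  have hN : 0 ≤ N := by linarith
  have h1 : (⌈2 * N * ρ⌉₊ : ℝ) ≤ 3 * N * ρ := by
    have h2 := (Nat.ceil_lt_add_one (a := 2 * N * ρ) (by positivity)).le
    have h3 : 1 ≤ N * ρ := by nlinarith
    linarith
  have h2 : √N / 2 ≤ (⌊√N⌋₊ : ℝ) := by
    have h3 := Nat.lt_floor_add_one (√N)
    have h5 : 2 ≤ √N := by
      rw [Real.le_sqrt (by norm_num) hN]
      linarith
    linarith
  have h3 : N ^ 2 / 16 ≤ (⌊√N⌋₊ : ℝ) ^ 4 := by
    have h5 : (√N / 2) ^ 4 ≤ (⌊√N⌋₊ : ℝ) ^ 4 := pow_le_pow_left₀ (by positivity) h2 4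
    have h6 : (√N / 2) ^ 4 = N ^ 2 / 16 := by
      have h7 : √N ^ 2 = N := Real.sq_sqrt hN
      calc (√N / 2) ^ 4 = (√N ^ 2) ^ 2 / 16 := by ring
        _ = N ^ 2 / 16 := by rw [h7]
    linarith
  have h5 : (C : ℝ) * (⌈2 * N * ρ⌉₊ : ℝ) ≤ (⌊√N⌋₊ : ℝ) ^ 4 := by
    have h6 : (C : ℝ) * (⌈2 * N * ρ⌉₊ : ℝ) ≤ C * (3 * N * ρ) :=
      mul_le_mul_of_nonneg_left h1 (Nat.cast_nonneg C)
    have h7 : (C : ℝ) * (3 * N * ρ) ≤ N ^ 2 / 16 := by
      have h8 := mul_le_mul_of_nonneg_right hC hN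
      nlinarith
    linarith
  exact_mod_cast h5

/-- **Dilates of a polytope with rational facet directions.** -/
theorem rational_polytopes (hn : 2 ≤ n) {m : ℕ} (h : Fin m → Fin n → ℤ) (b : Fin m → ℝ)
    (hb : ∀ j, 0 < b j)
    (hfac : ∀ j, ∃ g : Fin n → ℝ, em (h j) ⬝ᵥ g = b j ∧ ∀ i, i ≠ j → |em (h i) ⬝ᵥ g| < b i)
    (hbd : ∃ ρ : ℝ, ∀ y : Fin n → ℝ, (∀ j, |em (h j) ⬝ᵥ y| ≤ b j) → ∀ i, |y i| ≤ ρ) :
    ∀ᶠ N : ℝ in atTop, ∀ (c : Fin n → ℤ) (K L : Finset (Fin n → ℤ)),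
      (∀ x, x ∈ K ↔ ∀ j, |em (h j) ⬝ᵥ em (vs c x)| ≤ 2 * N * b j) → LC L →
      (∃ c' : Fin n → ℤ, ∀ x, x ∈ L ↔ c' - x ∈ L) →
      (∀ u : Fin n → ℤ, u ≠ 0 → (K.image (pj u)).card = (L.image (pj u)).card) →
      ∃ v : Fin n → ℤ, L = K.image (fun x => x + v) := by
  classical
  obtain ⟨ρ0, hρ0⟩ := hbd
  set ρ : ℝ := max ρ0 1 with hρ
  have hρ1 : 1 ≤ ρ := le_max_right _ _
  have hρb : ∀ y : Fin n → ℝ, (∀ j, |em (h j) ⬝ᵥ y| ≤ b j) → ∀ i, |y i| ≤ ρ :=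
    fun y hy i => (hρ0 y hy i).trans (le_max_left _ _)
  choose g hg hgi using hfac
  have hev : ∀ᶠ N : ℝ in atTop, ∀ j, ∀ c : Fin n → ℤ, ∃ ν : ℝ, 0 < ν ∧ ν ≤ 2 * N * b j ∧
      (∀ x : Fin n → ℤ, em (h j) ⬝ᵥ em (vs c x) ≤ 2 * N * b j → em (h j) ⬝ᵥ em (vs c x) ≤ ν) ∧
      ∃ z e : Fin n → ℤ, e ≠ 0 ∧ ∀ t : ℕ, (t : ℝ) ≤ √N →
        em (h j) ⬝ᵥ em (vs c (z + (t : ℤ) • e)) = ν ∧
        ∀ i, |em (h i) ⬝ᵥ em (vs c (z + (t : ℤ) • e))| ≤ 2 * N * b i := by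
    rw [Filter.eventually_all]
    exact fun j => top_face hn h b hb j (g j) (hg j) (hgi j)
  filter_upwards [hev, ev_pow (CL n 4) ρ hρ1, eventually_ge_atTop 1] with N hN hC hN1
  intro c K L hKdef hL hc' hpr
  obtain ⟨c', hc'⟩ := hc'
  have hN0 : 0 < N := by linarith
  -- symmetry
  have hneg : ∀ x : Fin n → ℤ, em (vs c (c - x)) = - em (vs c x) := by
    intro x
    rw [em_vs, em_vs, em_sub]
    module
  have hs : ∀ x, x ∈ K ↔ c - x ∈ K := by
    intro x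
    rw [hKdef, hKdef]
    refine forall_congr' fun j => ?_
    rw [hneg, dotProduct_neg, abs_neg]
  -- convexity
  have hK : LC K := by
    intro x hx
    rw [hKdef]
    intro j
    have h1 : convexHull ℝ (em '' (K : Set (Fin n → ℤ))) ⊆
        {y | |em (h j) ⬝ᵥ ((2 : ℝ) • y - em c)| ≤ 2 * N * b j} := by
      apply convexHull_min
      · rintro _ ⟨y, hy, rfl⟩
        have h2 := (hKdef y).1 hy j
        rwa [em_vs] at h2
      · intro y hy z hz a a' ha ha' haa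
        have hy' : |em (h j) ⬝ᵥ ((2 : ℝ) • y - em c)| ≤ 2 * N * b j := hy
        have hz' : |em (h j) ⬝ᵥ ((2 : ℝ) • z - em c)| ≤ 2 * N * b j := hz
        show |em (h j) ⬝ᵥ ((2 : ℝ) • (a • y + a' • z) - em c)| ≤ 2 * N * b j
        have h2 : (2 : ℝ) • (a • y + a' • z) - em c =
            a • ((2 : ℝ) • y - em c) + a' • ((2 : ℝ) • z - em c) := by
          funext i
          simp only [Pi.add_apply, Pi.sub_apply, Pi.smul_apply, smul_eq_mul]
          linear_combination (em c i) * haa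
        rw [h2, dotProduct_add, dotProduct_smul, dotProduct_smul, smul_eq_mul, smul_eq_mul]
        refine (abs_add_le _ _).trans ?_
        rw [abs_mul, abs_mul, abs_of_nonneg ha, abs_of_nonneg ha']
        have h3 := mul_le_mul_of_nonneg_left hy' ha
        have h4 := mul_le_mul_of_nonneg_left hz' ha'
        have h5 : a * (2 * N * b j) + a' * (2 * N * b j) = 2 * N * b j := by
          rw [← add_mul, haa, one_mul]
        linarith
    have h2 := h1 hx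
    have h3 : |em (h j) ⬝ᵥ ((2 : ℝ) • em x - em c)| ≤ 2 * N * b j := h2
    rw [em_vs]
    exact h3
  refine reduce hn hK hL hs hc' hpr fun L' hTw => ?_
  -- the size of `K`
  have hRvs : ∀ x ∈ K, ∀ i, |vs c x i| ≤ ((⌈2 * N * ρ⌉₊ : ℕ) : ℤ) := by
    intro x hx i
    have h1 := hρb ((2 * N)⁻¹ • em (vs c x)) (fun j => by
      rw [dotProduct_smul, smul_eq_mul, abs_mul, abs_of_pos (by positivity : (0 : ℝ) < (2 * N)⁻¹),
        inv_mul_le_iff₀ (by positivity)]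
      exact (hKdef x).1 hx j) i
    rw [Pi.smul_apply, smul_eq_mul, abs_mul, abs_of_pos (by positivity : (0 : ℝ) < (2 * N)⁻¹),
      inv_mul_le_iff₀ (by positivity)] at h1
    have h2 : (|((vs c x i : ℤ) : ℝ)|) ≤ ((⌈2 * N * ρ⌉₊ : ℕ) : ℝ) := h1.trans (Nat.le_ceil _)
    exact_mod_cast h2
  have hR1 : 1 ≤ ⌈2 * N * ρ⌉₊ := Nat.one_le_ceil_iff.2 (by positivity)
  obtain ⟨J, hJ1, hJT, hgood⟩ := exists_J (n := n) (k := 4) (by omega) (by norm_num) hR1 hC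
  refine face_main hTw hRvs hJ1 hgood ?_
  intro w hw
  have hw' : ∃ j, 2 * N * b j < |em (h j) ⬝ᵥ em (vs c w)| := by
    by_contra hcon
    push Not at hcon
    exact hw ((hKdef w).2 hcon)
  obtain ⟨j, hj⟩ := hw'
  obtain ⟨ν, hν0, hν1, hν2, z, e, he, hze⟩ := hN j c
  -- the points of the face
  have hinj : Function.Injective (fun t : ℕ => z + (t : ℤ) • e) := by
    intro s t hst
    obtain ⟨i, hi⟩ := Function.ne_iff.1 he
    have h1 := congrFun hst i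
    simp only [Pi.add_apply, Pi.smul_apply, smul_eq_mul] at h1
    have h2 : (s : ℤ) * e i = t * e i := by linarith
    have h3 := mul_right_cancel₀ hi h2
    exact_mod_cast h3
  have hcard : ((range (⌊√N⌋₊ + 1)).image (fun t : ℕ => z + (t : ℤ) • e)).card = ⌊√N⌋₊ + 1 := by
    rw [card_image_of_injective _ hinj, card_range]
  have hpt : ∀ x ∈ (range (⌊√N⌋₊ + 1)).image (fun t : ℕ => z + (t : ℤ) • e),
      x ∈ K ∧ em (h j) ⬝ᵥ em (vs c x) = ν := by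
    intro x hx
    obtain ⟨t, ht, rfl⟩ := mem_image.1 hx
    rw [mem_range] at ht
    have h1 : (t : ℝ) ≤ √N := by
      have h2 : t ≤ ⌊√N⌋₊ := by omega
      exact (Nat.le_floor_iff (Real.sqrt_nonneg N)).1 h2
    obtain ⟨h2, h3⟩ := hze t h1
    exact ⟨(hKdef _).2 h3, h2⟩
  have hup : ∀ x ∈ K, em (h j) ⬝ᵥ em (vs c x) ≤ ν := fun x hx =>
    hν2 x ((le_abs_self _).trans ((hKdef x).1 hx j))
  have hlo : ∀ x ∈ K, -(em (h j) ⬝ᵥ em (vs c x)) ≤ ν := by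
    intro x hx
    have h1 := hup _ ((hs x).1 hx)
    rwa [hneg, dotProduct_neg] at h1
  rcases lt_abs.1 hj with hj1 | hj1
  · refine ⟨ν⁻¹ • em (h j), ?_, ?_, _, ?_, lt_of_lt_of_le hJT
      ((Nat.le_succ _).trans hcard.ge)⟩
    · intro x hx
      rw [smul_dotProduct, smul_eq_mul, inv_mul_le_iff₀ hν0, mul_one]
      exact hup x hx
    · rw [smul_dotProduct, smul_eq_mul, lt_inv_mul_iff₀ hν0, mul_one]
      linarith
    · intro x hx
      refine ⟨(hpt x hx).1, ?_⟩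
      rw [smul_dotProduct, smul_eq_mul, (hpt x hx).2, inv_mul_cancel₀ hν0.ne']
  · have hinj2 : Function.Injective (fun x : Fin n → ℤ => c - x) := fun x y hxy =>
      sub_right_injective hxy
    refine ⟨(-ν⁻¹) • em (h j), ?_, ?_,
      ((range (⌊√N⌋₊ + 1)).image (fun t : ℕ => z + (t : ℤ) • e)).image (fun x => c - x), ?_,
      lt_of_lt_of_le hJT ((Nat.le_succ _).trans (by
        rw [card_image_of_injective _ hinj2]
        exact hcard.ge))⟩
    · intro x hx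
      rw [smul_dotProduct, smul_eq_mul, neg_mul, ← mul_neg, inv_mul_le_iff₀ hν0, mul_one]
      exact hlo x hx
    · rw [smul_dotProduct, smul_eq_mul, neg_mul, ← mul_neg, lt_inv_mul_iff₀ hν0, mul_one]
      linarith
    · intro x hx
      obtain ⟨y, hy, rfl⟩ := mem_image.1 hx
      refine ⟨(hs y).1 (hpt y hy).1, ?_⟩
      rw [smul_dotProduct, smul_eq_mul, hneg, dotProduct_neg, (hpt y hy).2, neg_mul_neg,
        inv_mul_cancel₀ hν0.ne']

end Pool.Agent.Lib.MP_8cf263_co
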