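import Mathlib

/-!
# Discrete Aleksandrov projection problem: sets of even cardinality
-/

set_option autoImplicit false

namespace Pool.Agent.Lib.MP_8cf263_co

open Finset

variable {n : ℕ}

/-- the embedding of the lattice -/
def em (y : Fin n → ℤ) : Fin n → ℝ := fun i => (y i : ℝ)

/-- convex lattice sets -/
def LC (K : Finset (Fin n → ℤ)) : Prop :=
  ∀ x : Fin n → ℤ, em x ∈ convexHull ℝ (em '' (K : Set (Fin n → ℤ))) → x ∈ K

/-- primitive vectors -/
def Pr (u : Fin n → ℤ) : Prop := ∀ d : ℤ, (∀ i, d ∣ u i) → IsUnit d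

/-- twice the vector from the centre `c / 2` to `x` -/
def vs (c x : Fin n → ℤ) : Fin n → ℤ := fun i => 2 * x i - c i

/-- the projection along `u` -/
def pj (u x : Fin n → ℤ) : Fin n → ℤ := (∑ i, u i * u i) • x - (∑ i, u i * x i) • u

/-- the points followed by a point of the set in direction `u` -/
def fol (K : Finset (Fin n → ℤ)) (u : Fin n → ℤ) : Finset (Fin n → ℤ) := K.filter (fun x => x + u ∈ K)

theorem LC.comb {K : Finset (Fin n → ℤ)} (hK : LC K) {x y z : Fin n → ℤ} (hx : x ∈ K) (hy : y ∈ K)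
    {a b k : ℤ} (ha : 0 ≤ a) (hb : 0 ≤ b) (hk : 0 < k) (hab : a + b = k)
    (h : ∀ i, k * z i = a * x i + b * y i) : z ∈ K := by
  apply hK
  have hkr : (0 : ℝ) < k := by exact_mod_cast hk
  have har : (0 : ℝ) ≤ a := by exact_mod_cast ha
  have hbr : (0 : ℝ) ≤ b := by exact_mod_cast hb
  have habr : (a : ℝ) + b = k := by exact_mod_cast hab
  have hz : em z = ((a : ℝ) / k) • em x + ((b : ℝ) / k) • em y := by
    funext i
    have h1 : (k : ℝ) * z i = a * x i + b * y i := by exact_mod_cast h i
    show (z i : ℝ) = (a : ℝ) / k * x i + (b : ℝ) / k * y i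
    field_simp
    linarith
  rw [hz]
  have hx' : em x ∈ convexHull ℝ (em '' (K : Set (Fin n → ℤ))) :=
    subset_convexHull ℝ _ ⟨x, hx, rfl⟩
  have hy' : em y ∈ convexHull ℝ (em '' (K : Set (Fin n → ℤ))) :=
    subset_convexHull ℝ _ ⟨y, hy, rfl⟩
  refine (convex_convexHull ℝ _) hx' hy' (by positivity) (by positivity) ?_
  rw [← add_div, habr, div_self hkr.ne']

theorem LC.step {K : Finset (Fin n → ℤ)} (hK : LC K) {x u : Fin n → ℤ} (hx : x ∈ K) {t : ℤ}
    (ht : 0 < t) (hy : x + t • u ∈ K) : x + u ∈ K := by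
  refine hK.comb hx hy (a := t - 1) (b := 1) (k := t) (by omega) (by omega) ht (by omega) ?_
  intro i
  simp only [Pi.add_apply, Pi.smul_apply, smul_eq_mul]
  ring

theorem Pr.ne_zero {u : Fin n → ℤ} (hu : Pr u) : u ≠ 0 := by
  rintro rfl
  have h := hu 0 (fun i => dvd_refl _)
  exact not_isUnit_zero h

theorem Pr.dvd {u : Fin n → ℤ} (hu : Pr u) {U s : ℤ} (h : ∀ i, U ∣ s * u i) : U ∣ s := by
  have h1 : U ∣ (univ : Finset (Fin n)).gcd (fun i => s * u i) := Finset.dvd_gcd fun i _ => h i
  rw [Finset.gcd_mul_left] at h1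
  have h2 : IsUnit ((univ : Finset (Fin n)).gcd u) := hu _ fun i => Finset.gcd_dvd (mem_univ i)
  have h3 := (h2.dvd_mul_right).1 h1
  rwa [dvd_normalize_iff] at h3

theorem sq_pos {u : Fin n → ℤ} (hu : u ≠ 0) : 0 < ∑ i, u i * u i := by
  obtain ⟨j, hj⟩ := Function.ne_iff.1 hu
  have hj' : u j ≠ 0 := hj
  exact Finset.sum_pos' (fun i _ => mul_self_nonneg _) ⟨j, mem_univ j, mul_self_pos.2 hj'⟩

theorem pj_eq {u : Fin n → ℤ} (hu : Pr u) {x y : Fin n → ℤ} :
    pj u x = pj u y ↔ ∃ t : ℤ, x = y + t • u := by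
  have hU := sq_pos hu.ne_zero
  constructor
  · intro h
    have h1 : ∀ i, (∑ i, u i * u i) * (x i - y i) = (∑ i, u i * (x i - y i)) * u i := by
      intro i
      have h2 := congrFun h i
      simp only [pj, Pi.sub_apply, Pi.smul_apply, smul_eq_mul] at h2
      have h3 : ∑ i, u i * (x i - y i) = ∑ i, u i * x i - ∑ i, u i * y i := by
        rw [← Finset.sum_sub_distrib]
        exact Finset.sum_congr rfl fun i _ => by ring
      rw [h3]
      linarith
    obtain ⟨t, ht⟩ : (∑ i, u i * u i) ∣ (∑ i, u i * (x i - y i)) :=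
      hu.dvd fun i => ⟨x i - y i, (h1 i).symm⟩
    refine ⟨t, funext fun i => ?_⟩
    have h2 := h1 i
    rw [ht, mul_assoc] at h2
    have h3 := mul_left_cancel₀ hU.ne' h2
    simp only [Pi.add_apply, Pi.smul_apply, smul_eq_mul]
    linarith
  · rintro ⟨t, rfl⟩
    funext i
    have h3 : ∑ i, u i * (y i + t * u i) = ∑ i, u i * y i + t * ∑ i, u i * u i := by
      rw [Finset.mul_sum, ← Finset.sum_add_distrib]
      exact Finset.sum_congr rfl fun i _ => by ring
    simp only [pj, Pi.sub_apply, Pi.smul_apply, smul_eq_mul, Pi.add_apply]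
    rw [h3]
    ring

/-- the number of lines parallel to a primitive vector -/
theorem card_pj {K : Finset (Fin n → ℤ)} (hK : LC K) {u : Fin n → ℤ} (hu : Pr u) :
    (K.image (pj u)).card + (fol K u).card = K.card := by
  classical
  have h1 : K.image (pj u) = (K.filter (fun x => ¬ x + u ∈ K)).image (pj u) := by
    apply Finset.Subset.antisymm
    · intro p hp
      rw [mem_image] at hp
      obtain ⟨x, hx, rfl⟩ := hp
      have hex : ∃ t : ℕ, x + ((t : ℤ) + 1) • u ∉ K := by
        by_contra hcon
        push Not at hcon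
        obtain ⟨j, hj⟩ := Function.ne_iff.1 hu.ne_zero
        have hj' : u j ≠ 0 := hj
        have hinj : Function.Injective (fun t : ℕ => x + ((t : ℤ) + 1) • u) := by
          intro s t hst
          have h2 := congrFun hst j
          simp only [Pi.add_apply, Pi.smul_apply, smul_eq_mul] at h2
          have h3 : ((s : ℤ) + 1) * u j = ((t : ℤ) + 1) * u j := by linarith
          have h4 := mul_right_cancel₀ hj' h3
          omega
        have h2 := Set.infinite_range_of_injective hinj
        apply h2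
        exact (K.finite_toSet).subset (by rintro _ ⟨t, rfl⟩; exact hcon t)
      obtain ⟨t, ht⟩ : ∃ t : ℕ, x + (t : ℤ) • u ∈ K ∧ x + ((t : ℤ) + 1) • u ∉ K := by
        refine ⟨Nat.find hex, ?_, Nat.find_spec hex⟩
        rcases Nat.eq_zero_or_pos (Nat.find hex) with h2 | h2
        · rw [h2]
          simpa using hx
        · have h3 := Nat.find_min hex (m := Nat.find hex - 1) (by omega)
          rw [not_not] at h3
          have h4 : (((Nat.find hex - 1 : ℕ) : ℤ) + 1) = (Nat.find hex : ℤ) := by omega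
          rwa [h4] at h3
      rw [mem_image]
      refine ⟨x + (t : ℤ) • u, ?_, (pj_eq hu).2 ⟨t, rfl⟩⟩
      rw [mem_filter]
      refine ⟨ht.1, ?_⟩
      have h2 : x + (t : ℤ) • u + u = x + ((t : ℤ) + 1) • u := by
        rw [add_smul, one_smul, add_assoc]
      rw [h2]
      exact ht.2
    · exact image_subset_image (filter_subset _ _)
  have h2 : ((K.filter (fun x => ¬ x + u ∈ K)).image (pj u)).card =
      (K.filter (fun x => ¬ x + u ∈ K)).card := by
    apply card_image_of_injOn
    intro x hx y hy hxy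
    rw [mem_coe, mem_filter] at hx hy
    obtain ⟨t, ht⟩ := (pj_eq hu).1 hxy
    rcases lt_trichotomy t 0 with h3 | h3 | h3
    · exfalso
      apply hx.2
      refine hK.step hx.1 (t := -t) (by omega) ?_
      have h4 : x + (-t) • u = y := by
        rw [ht, neg_smul]
        abel
      rw [h4]
      exact hy.1
    · rw [ht, h3, zero_smul, add_zero]
    · exfalso
      apply hy.2
      exact hK.step hy.1 h3 (ht ▸ hx.1)
  rw [h1, h2, add_comm]
  exact card_filter_add_card_filter_not _

/-- cardinalities agree -/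
theorem card_eq {K L : Finset (Fin n → ℤ)} (hn : 2 ≤ n) (hK : LC K) (hL : LC L)
    (h : ∀ u : Fin n → ℤ, u ≠ 0 → (K.image (pj u)).card = (L.image (pj u)).card) :
    K.card = L.card := by
  classical
  let i0 : Fin n := ⟨0, by omega⟩
  let i1 : Fin n := ⟨1, by omega⟩
  have hne : i0 ≠ i1 := by
    intro h
    have := congrArg Fin.val h
    simp [i0, i1] at this
  obtain ⟨B, hB⟩ : ∃ B : ℤ, ∀ x ∈ K ∪ L, |x i1| ≤ B := by
    refine ⟨∑ x ∈ K ∪ L, |x i1|, fun x hx => ?_⟩
    exact Finset.single_le_sum (f := fun x : Fin n → ℤ => |x i1|) (fun _ _ => abs_nonneg _) hx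
  let u : Fin n → ℤ := fun i => if i = i0 then 1 else if i = i1 then 2 * |B| + 1 else 0
  have hu0 : u i0 = 1 := if_pos rfl
  have hu1 : u i1 = 2 * |B| + 1 := by
    show (if i1 = i0 then (1 : ℤ) else if i1 = i1 then 2 * |B| + 1 else 0) = _
    rw [if_neg hne.symm, if_pos rfl]
  have hu : Pr u := by
    intro d hd
    have h1 := hd i0
    rw [hu0] at h1
    exact isUnit_of_dvd_one h1
  have key : ∀ M : Finset (Fin n → ℤ), M ⊆ K ∪ L → (fol M u).card = 0 := by
    intro M hM
    rw [card_eq_zero, fol, filter_eq_empty_iff]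
    intro x hx hxu
    have h1 := abs_le.1 (hB x (hM hx))
    have h2 := abs_le.1 (hB _ (hM hxu))
    rw [Pi.add_apply, hu1] at h2
    have h3 := le_abs_self B
    have h4 := abs_nonneg B
    omega
  have h1 := card_pj hK hu
  have h2 := card_pj hL hu
  rw [key K subset_union_left] at h1
  rw [key L subset_union_right] at h2
  have h3 := h u hu.ne_zero
  omega

/-- parity of an involution without fixed points -/
theorem even_card_of_inv {α : Type*} [DecidableEq α] {S : Finset α} (g : α → α)
    (hg : ∀ a ∈ S, g a ∈ S) (hgg : ∀ a ∈ S, g (g a) = a) (hne : ∀ a ∈ S, g a ≠ a) :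
    Even S.card := by
  have h1 : ∑ _x ∈ S, (1 : ZMod 2) = 0 := by
    refine Finset.sum_involution (fun a _ => g a) (fun a _ => ?_) (fun a ha _ => hne a ha)
      (fun a ha => hg a ha) (fun a ha => hgg a ha)
    decide
  rw [Finset.sum_const, nsmul_eq_mul, mul_one] at h1
  exact (ZMod.natCast_eq_zero_iff_even).1 h1

/-- the parity of the number of followed points -/
theorem odd_fol {K : Finset (Fin n → ℤ)} {c : Fin n → ℤ} (hc : ∀ x, x ∈ K ↔ c - x ∈ K)
    (u : Fin n → ℤ) : Odd (fol K u).card ↔ ∃ x ∈ fol K u, c - u - x = x := by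
  classical
  have hmap : ∀ x ∈ fol K u, c - u - x ∈ fol K u := by
    intro x hx
    rw [fol, mem_filter] at hx ⊢
    constructor
    · have h1 := (hc (x + u)).1 hx.2
      have h2 : c - (x + u) = c - u - x := by abel
      rwa [h2] at h1
    · have h1 := (hc x).1 hx.1
      have h2 : c - u - x + u = c - x := by abel
      rwa [h2]
  have hinv : ∀ x ∈ fol K u, c - u - (c - u - x) = x := fun x _ => by abel
  constructor
  · intro hodd
    by_contra hcon
    push Not at hcon
    have h1 := even_card_of_inv (fun x => c - u - x) hmap hinv hcon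
    exact (Nat.not_even_iff_odd.2 hodd) h1
  · rintro ⟨x0, hx0, hfix⟩
    have huniq : ∀ x ∈ fol K u, c - u - x = x → x = x0 := by
      intro x _ hx
      funext i
      have h1 := congrFun hx i
      have h2 := congrFun hfix i
      simp only [Pi.sub_apply] at h1 h2
      omega
    have h1 : Even ((fol K u).erase x0).card := by
      refine even_card_of_inv (fun x => c - u - x) ?_ ?_ ?_
      · intro x hx
        rw [mem_erase] at hx ⊢
        refine ⟨?_, hmap x hx.2⟩
        intro h2
        apply hx.1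
        have h3 := hinv x hx.2
        rw [h2, hfix] at h3
        exact h3.symm
      · intro x hx
        exact hinv x (mem_of_mem_erase hx)
      · intro x hx h2
        rw [mem_erase] at hx
        exact hx.1 (huniq x hx.2 h2)
    rw [card_erase_of_mem hx0] at h1
    have h2 : 0 < (fol K u).card := card_pos.2 ⟨x0, hx0⟩
    rw [Nat.even_iff] at h1
    rw [Nat.odd_iff]
    omega

/-- membership of `x` and the parity in direction `2 x - c` -/
theorem odd_fol_iff {K : Finset (Fin n → ℤ)} {c : Fin n → ℤ} (hc : ∀ x, x ∈ K ↔ c - x ∈ K)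
    {u x : Fin n → ℤ} (hu : u = vs c x) : Odd (fol K u).card ↔ x ∈ K := by
  rw [odd_fol hc]
  constructor
  · rintro ⟨y, hy, hfix⟩
    have h1 : y = c - x := by
      funext i
      have h2 := congrFun hfix i
      rw [hu] at h2
      simp only [Pi.sub_apply, vs] at h2 ⊢
      omega
    rw [fol, mem_filter] at hy
    rw [hc x, ← h1]
    exact hy.1
  · intro hx
    refine ⟨c - x, ?_, ?_⟩
    · rw [fol, mem_filter]
      refine ⟨(hc x).1 hx, ?_⟩
      have h1 : c - x + u = x := by
        rw [hu]
        funext i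
        simp only [Pi.add_apply, Pi.sub_apply, vs]
        ring
      rw [h1]
      exact hx
    · rw [hu]
      funext i
      simp only [Pi.sub_apply, vs]
      ring

/-- even sets are not centred at lattice points -/
theorem not_two_smul {K : Finset (Fin n → ℤ)} (hK : LC K) {c : Fin n → ℤ}
    (hc : ∀ x, x ∈ K ↔ c - x ∈ K) (he : Even K.card) (hne : K.Nonempty) (z : Fin n → ℤ) :
    c ≠ z + z := by
  rintro rfl
  obtain ⟨x, hx⟩ := hne
  have hz : z ∈ K := by
    refine hK.comb hx ((hc x).1 hx) (a := 1) (b := 1) (k := 2) (by norm_num) (by norm_num)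
      (by norm_num) (by norm_num) ?_
    intro i
    simp only [Pi.sub_apply, Pi.add_apply]
    ring
  have h1 : fol K 0 = K := by
    rw [fol, filter_eq_self]
    intro y hy
    rwa [add_zero]
  have h2 : Odd (fol K 0).card := by
    rw [odd_fol hc]
    refine ⟨z, by rwa [h1], ?_⟩
    rw [sub_zero]
    abel
  rw [h1] at h2
  exact (Nat.not_even_iff_odd.2 h2) he

/-- a visible point -/
theorem exists_visible {K : Finset (Fin n → ℤ)} (hK : LC K) {c : Fin n → ℤ}
    (hc : ∀ x, x ∈ K ↔ c - x ∈ K) (he : Even K.card) (hne : K.Nonempty) :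
    ∃ y ∈ K, Pr (vs c y) := by
  classical
  obtain ⟨x, hx⟩ := hne
  have hcz := not_two_smul hK hc he ⟨x, hx⟩
  let X : Fin n → ℤ := vs c x
  let g : ℤ := (univ : Finset (Fin n)).gcd X
  have hgX : ∀ i, g ∣ X i := fun i => Finset.gcd_dvd (mem_univ i)
  have hX0 : X ≠ 0 := by
    intro h
    apply hcz x
    funext i
    have h1 : 2 * x i - c i = 0 := congrFun h i
    rw [Pi.add_apply]
    omega
  have hg0 : g ≠ 0 := by
    intro h
    apply hX0
    funext i
    have h1 := hgX i
    rw [h, zero_dvd_iff] at h1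
    exact h1
  have hgnn : 0 ≤ g := by
    have h1 : normalize g = g := Finset.normalize_gcd
    rw [← Int.abs_eq_normalize] at h1
    rw [← h1]
    exact abs_nonneg g
  have hgodd : ¬ (2 : ℤ) ∣ g := by
    intro h
    have h1 : ∀ i, (2 : ℤ) ∣ c i := by
      intro i
      have h2 := h.trans (hgX i)
      have h3 : X i = 2 * x i - c i := rfl
      rw [h3] at h2
      omega
    choose z hz using h1
    apply hcz z
    funext i
    rw [Pi.add_apply, hz i]
    ring
  choose w hw using hgX
  have hwP : Pr w := by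
    intro d hd
    have h1 : g * d ∣ g := by
      have h2 : g * d ∣ (univ : Finset (Fin n)).gcd X := by
        apply Finset.dvd_gcd
        intro i _
        rw [hw i]
        exact mul_dvd_mul_left g (hd i)
      exact h2
    have h2 : g * d ∣ g * 1 := by rwa [mul_one]
    exact isUnit_of_dvd_one ((mul_dvd_mul_iff_left hg0).1 h2)
  have hpar : ∀ i, (2 : ℤ) ∣ c i + w i := by
    intro i
    have h1 : 2 * x i - c i = g * w i := hw i
    obtain ⟨k, hk⟩ : ∃ k, g = 2 * k + 1 := by
      have := Int.emod_two_eq_zero_or_one g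
      refine ⟨g / 2, ?_⟩
      omega
    rw [hk] at h1
    refine ⟨x i - k * w i, ?_⟩
    linarith
  choose y hy using hpar
  refine ⟨y, ?_, ?_⟩
  · refine hK.comb hx ((hc x).1 hx) (a := g + 1) (b := g - 1) (k := 2 * g) (by omega) (by omega)
      (by omega) (by ring) ?_
    intro i
    have h1 : 2 * x i - c i = g * w i := hw i
    have h2 := hy i
    simp only [Pi.sub_apply]
    have h3 : c i = 2 * x i - g * w i := by linarith
    have h4 : 2 * y i = 2 * x i - g * w i + w i := by linarith
    have h5 : 2 * g * y i = g * (2 * y i) := by ring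
    rw [h5, h4, h3]
    ring
  · have h1 : vs c y = w := by
      funext i
      have h2 := hy i
      simp only [vs]
      linarith
    rw [h1]
    exact hwP

/-- **Visible points.** -/
theorem visible {K L : Finset (Fin n → ℤ)} (hn : 2 ≤ n) (hK : LC K) (hL : LC L) {c c' : Fin n → ℤ}
    (hc : ∀ x, x ∈ K ↔ c - x ∈ K) (hc' : ∀ x, x ∈ L ↔ c' - x ∈ L) (he : Even K.card)
    (h : ∀ u : Fin n → ℤ, u ≠ 0 → (K.image (pj u)).card = (L.image (pj u)).card) :
    K.card = L.card ∧ ∃ v : Fin n → ℤ, ∀ x, Pr (vs c x) → (x ∈ K ↔ x + v ∈ L) := by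
  classical
  have hcard := card_eq hn hK hL h
  refine ⟨hcard, ?_⟩
  have hfol : ∀ u, Pr u → (fol K u).card = (fol L u).card := by
    intro u hu
    have h1 := card_pj hK hu
    have h2 := card_pj hL hu
    have h3 := h u hu.ne_zero
    omega
  rcases K.eq_empty_or_nonempty with hemp | hne
  · refine ⟨0, fun x _ => ?_⟩
    have h1 : L = ∅ := by
      rw [← card_eq_zero, ← hcard, hemp, card_empty]
    rw [hemp, h1]
    simp
  · obtain ⟨y, hyK, hy⟩ := exists_visible hK hc he hne
    have h1 : Odd (fol L (vs c y)).card := by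
      rw [← hfol _ hy]
      exact (odd_fol_iff hc rfl).2 hyK
    rw [odd_fol hc'] at h1
    obtain ⟨z, _, hz⟩ := h1
    refine ⟨z - c + y, fun x hx => ?_⟩
    rw [← odd_fol_iff hc (u := vs c x) rfl, hfol _ hx,
      odd_fol_iff hc' (u := vs c x) (x := x + (z - c + y)) ?_]
    funext i
    have h2 := congrFun hz i
    simp only [Pi.sub_apply, Pi.add_apply, vs] at h2 ⊢
    linarith

/-- **Uniqueness for hulls of visible points.** -/
theorem unique {K L : Finset (Fin n → ℤ)} (hL : LC L) {c : Fin n → ℤ} {v : Fin n → ℤ}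
    (hcard : K.card = L.card) (hv : ∀ x, Pr (vs c x) → (x ∈ K ↔ x + v ∈ L))
    (hvis : ∀ x ∈ K, em x ∈ convexHull ℝ (em '' {y : Fin n → ℤ | y ∈ K ∧ Pr (vs c y)})) :
    L = K.image (fun x => x + v) := by
  classical
  have hadd : ∀ x : Fin n → ℤ, em (x + v) = em x + em v := by
    intro x
    funext i
    simp [em]
  have h1 : ∀ x ∈ K, x + v ∈ L := by
    intro x hx
    apply hL
    rw [hadd]
    have h2 : convexHull ℝ (em '' {y : Fin n → ℤ | y ∈ K ∧ Pr (vs c y)}) ⊆
        (fun p => p + em v) ⁻¹' (convexHull ℝ (em '' (L : Set (Fin n → ℤ)))) := by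
      apply convexHull_min
      · rintro _ ⟨y, hy, rfl⟩
        show em y + em v ∈ convexHull ℝ (em '' (L : Set (Fin n → ℤ)))
        rw [← hadd]
        exact subset_convexHull ℝ _ ⟨y + v, (hv y hy.2).1 hy.1, rfl⟩
      · exact (convex_convexHull ℝ _).translate_preimage_left _
    exact h2 (hvis x hx)
  symm
  apply eq_of_subset_of_card_le
  · intro p hp
    rw [mem_image] at hp
    obtain ⟨x, hx, rfl⟩ := hp
    exact h1 x hx
  · rw [card_image_of_injective _ (add_left_injective v), hcard]

end Pool.Agent.Lib.MP_8cf263_co
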