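import Mathlib
import Pool.Agent.Lib.MP_8cf263_co.Even

section

/-!
# Integers avoiding one residue class for every prime divisor of `m`

`Good J m`: among any `J` consecutive integers there is one which avoids a given residue class
`a p (mod p)` for every prime `p ∣ m`.  We show `Good J m` if `C_k m ≤ J ^ k`, for every `k`.
-/

set_option autoImplicit false

namespace Pool.Agent.Lib.MP_8cf263_co

open Finset

/-- among `J` consecutive integers there is one avoiding the classes `a p (mod p)`, `p ∣ m` -/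
def Good (J m : ℕ) : Prop :=
  ∀ (a : ℕ → ℤ) (s : ℤ), ∃ t : ℤ, s ≤ t ∧ t < s + J ∧
    ∀ p : ℕ, p.Prime → p ∣ m → ¬ (p : ℤ) ∣ t - a p

/-- the integers of `[s, s + J)` avoiding the classes `a p`, `p ∈ P` -/
noncomputable def unc (P : Finset ℕ) (a : ℕ → ℤ) (s e : ℤ) : Finset ℤ :=
  (Ico s e).filter (fun t => ∀ p ∈ P, ¬ (p : ℤ) ∣ t - a p)

/-- density -/
noncomputable def den (P : Finset ℕ) : ℝ := ∏ p ∈ P, (1 - 1 / (p : ℝ))

theorem den_nonneg {P : Finset ℕ} (hP : ∀ p ∈ P, p.Prime) : 0 ≤ den P := by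
  refine Finset.prod_nonneg fun p hp => ?_
  have h1 : (1 : ℝ) ≤ p := by exact_mod_cast (hP p hp).one_lt.le
  rw [sub_nonneg, div_le_one (by linarith)]
  exact h1

theorem den_le_one {P : Finset ℕ} (hP : ∀ p ∈ P, p.Prime) : den P ≤ 1 := by
  refine Finset.prod_le_one (fun p hp => ?_) (fun p _ => ?_)
  · have h1 : (1 : ℝ) ≤ p := by exact_mod_cast (hP p hp).one_lt.le
    rw [sub_nonneg, div_le_one (by linarith)]
    exact h1
  · have : (0 : ℝ) ≤ 1 / (p : ℝ) := by positivity
    linarith

/-- the points of a residue class -/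
theorem card_class {P : Finset ℕ} {q : ℕ} (hq : q.Prime) (hqP : ∀ p ∈ P, p.Prime ∧ p ≠ q)
    (a : ℕ → ℤ) (s e : ℤ) (hse : s ≤ e) : ∃ (b : ℕ → ℤ) (s' e' : ℤ), s' ≤ e' ∧
      |((e' - s' : ℤ) : ℝ) - ((e - s : ℤ) : ℝ) / q| ≤ 1 ∧
      ((unc P a s e).filter (fun t => (q : ℤ) ∣ t - a q)).card = (unc P b s' e').card := by
  have hq0 : (0 : ℤ) < q := by exact_mod_cast hq.pos
  have hqr : (0 : ℝ) < q := by exact_mod_cast hq.pos
  -- new residues
  have hb : ∀ p : ℕ, ∃ b : ℤ, p ∈ P → (p : ℤ) ∣ q * b - (a p - a q) := by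
    intro p
    by_cases hp : p ∈ P
    · have hcop : IsCoprime (q : ℤ) (p : ℤ) := by
        rw [Nat.isCoprime_iff_coprime]
        exact (Nat.coprime_primes hq (hqP p hp).1).2 (fun h => (hqP p hp).2 h.symm)
      obtain ⟨u, v, huv⟩ := hcop
      refine ⟨u * (a p - a q), fun _ => ⟨- v * (a p - a q), ?_⟩⟩
      linear_combination (a p - a q) * huv
    · exact ⟨0, fun h => absurd h hp⟩
  choose b hb using hb
  -- the new interval: `q j + a q ∈ [s, e)` iff `⌈(s - a q) / q⌉ ≤ j < ⌈(e - a q) / q⌉`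
  set s' : ℤ := -((-(s - a q)) / q) with hs'
  set e' : ℤ := -((-(e - a q)) / q) with he'
  have key : ∀ (x j : ℤ), -((-(x - a q)) / q) ≤ j ↔ x ≤ a q + q * j := by
    intro x j
    constructor
    · intro h
      have h1 : -j ≤ (-(x - a q)) / q := by linarith
      rw [Int.le_ediv_iff_mul_le hq0] at h1
      linarith
    · intro h
      have h1 : -j ≤ (-(x - a q)) / q := by
        rw [Int.le_ediv_iff_mul_le hq0]
        linarith
      linarith
  have hse' : s' ≤ e' := by
    rw [hs', he']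
    have h1 : (-(e - a q)) / q ≤ (-(s - a q)) / q := Int.ediv_le_ediv hq0 (by linarith)
    linarith
  have hceil : ∀ x : ℤ, ((x : ℝ) - a q) / q ≤ ((-((-(x - a q)) / q) : ℤ) : ℝ) ∧
      ((-((-(x - a q)) / q) : ℤ) : ℝ) < ((x : ℝ) - a q) / q + 1 := by
    intro x
    have h1 := (key x _).1 le_rfl
    have h2 : ¬ (x ≤ a q + q * (-((-(x - a q)) / q) - 1)) := by
      intro h
      have := (key x _).2 h
      linarith
    set y : ℤ := -((-(x - a q)) / q) with hy
    have h1' : (x : ℝ) ≤ a q + q * y := by exact_mod_cast h1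
    have h2' : (a q : ℝ) + q * (y - 1) < x := by
      have h3 : a q + q * (y - 1) < x := not_le.1 h2
      exact_mod_cast h3
    constructor
    · rw [div_le_iff₀ hqr]
      linarith
    · have h4 : (y : ℝ) - 1 < ((x : ℝ) - a q) / q := by
        rw [lt_div_iff₀ hqr]
        linarith
      linarith
  refine ⟨b, s', e', hse', ?_, ?_⟩
  · have h1 := hceil s
    have h2 := hceil e
    rw [← hs'] at h1
    rw [← he'] at h2
    have h3 : ((e - s : ℤ) : ℝ) / q = ((e : ℝ) - a q) / q - ((s : ℝ) - a q) / q := by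
      push_cast
      ring
    rw [h3, Int.cast_sub, abs_le]
    constructor <;> linarith [h1.1, h1.2, h2.1, h2.2]
  · symm
    refine Finset.card_bij (fun j _ => a q + q * j) ?_ ?_ ?_
    · intro j hj
      rw [unc, mem_filter, mem_Ico] at hj
      rw [mem_filter, unc, mem_filter, mem_Ico]
      refine ⟨⟨⟨(key s j).1 hj.1.1, ?_⟩, ?_⟩, ⟨j, by ring⟩⟩
      · by_contra hc
        have h1 : e ≤ a q + q * j := not_lt.1 hc
        have h2 := (key e j).2 h1
        rw [← he'] at h2
        exact absurd hj.1.2 (not_lt.2 h2)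
      · intro p hp hdvd
        apply hj.2 p hp
        have h1 := hb p hp
        have h2 : (p : ℤ) ∣ q * (j - b p) := by
          have h3 : q * (j - b p) = (a q + q * j - a p) - (q * b p - (a p - a q)) := by ring
          rw [h3]
          exact dvd_sub hdvd h1
        have hcop : IsCoprime (p : ℤ) (q : ℤ) := by
          rw [Nat.isCoprime_iff_coprime]
          exact (Nat.coprime_primes (hqP p hp).1 hq).2 (hqP p hp).2
        exact hcop.dvd_of_dvd_mul_left h2
    · intro j _ k _ hjk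
      have h1 : (q : ℤ) * j = q * k := by linarith
      exact mul_left_cancel₀ hq0.ne' h1
    · intro t ht
      rw [mem_filter, unc, mem_filter, mem_Ico] at ht
      obtain ⟨⟨⟨h1, h2⟩, h3⟩, j, hj⟩ := ht
      have htj : t = a q + q * j := by linarith
      refine ⟨j, ?_, htj.symm⟩
      rw [unc, mem_filter, mem_Ico]
      refine ⟨⟨(key s j).2 (by rw [← htj]; exact h1), ?_⟩, ?_⟩
      · by_contra hc
        have h4 : e' ≤ j := not_lt.1 hc
        have h5 := (key e j).1 h4
        rw [← htj] at h5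
        exact absurd h2 (not_lt.2 h5)
      · intro p hp hdvd
        apply h3 p hp
        have h4 := hb p hp
        have h5 : t - a p = q * (j - b p) + (q * b p - (a p - a q)) := by
          rw [htj]
          ring
        rw [h5]
        exact dvd_add (Dvd.dvd.mul_left hdvd _) h4

/-- inclusion - exclusion with error `2 ^ |P| - 1` -/
theorem sieve (P : Finset ℕ) (hP : ∀ p ∈ P, p.Prime) : ∀ (a : ℕ → ℤ) (s e : ℤ), s ≤ e →
    |((unc P a s e).card : ℝ) - ((e - s : ℤ) : ℝ) * den P| ≤ 2 ^ P.card - 1 := by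
  induction P using Finset.induction_on with
  | empty =>
    intro a s e hse
    have h1 : (unc ∅ a s e).card = (e - s).toNat := by
      rw [unc, filter_true_of_mem (by simp), Int.card_Ico]
    have h2 : (((e - s).toNat : ℕ) : ℝ) = ((e - s : ℤ) : ℝ) := by
      have h3 : (((e - s).toNat : ℕ) : ℤ) = e - s := Int.toNat_of_nonneg (by linarith)
      exact_mod_cast h3
    rw [h1, h2, den]
    simp
  | insert q P hqP ih =>
    intro a s e hse
    have hq : q.Prime := hP q (mem_insert_self _ _)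
    have hP' : ∀ p ∈ P, p.Prime := fun p hp => hP p (mem_insert_of_mem hp)
    have hqr : (0 : ℝ) < q := by exact_mod_cast hq.pos
    obtain ⟨b, s', e', hse', hlen, hcl⟩ := card_class hq
      (fun p hp => ⟨hP' p hp, fun h => hqP (h ▸ hp)⟩) a s e hse
    have hsplit : ((unc P a s e).filter (fun t => (q : ℤ) ∣ t - a q)).card +
        (unc (insert q P) a s e).card = (unc P a s e).card := by
      rw [← card_filter_add_card_filter_not (s := unc P a s e) (fun t => (q : ℤ) ∣ t - a q)]
      congr 1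
      congr 1
      ext t
      simp only [unc, mem_filter, mem_insert, forall_eq_or_imp]
      tauto
    have h1 := ih hP' a s e hse
    have h2 := ih hP' b s' e' hse'
    rw [← hcl] at h2
    have h3 : ((unc (insert q P) a s e).card : ℝ) = ((unc P a s e).card : ℝ) -
        (((unc P a s e).filter (fun t => (q : ℤ) ∣ t - a q)).card : ℝ) := by
      have h4 : (((unc P a s e).filter (fun t => (q : ℤ) ∣ t - a q)).card : ℝ) +
        ((unc (insert q P) a s e).card : ℝ) = ((unc P a s e).card : ℝ) := by exact_mod_cast hsplit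
      linarith
    have h5 : den (insert q P) = (1 - 1 / (q : ℝ)) * den P := by
      rw [den, prod_insert hqP, den]
    have hd0 := den_nonneg hP'
    have hd1 := den_le_one hP'
    rw [card_insert_of_notMem hqP, h3, h5, pow_succ]
    set A : ℝ := ((unc P a s e).card : ℝ)
    set A' : ℝ := (((unc P a s e).filter (fun t => (q : ℤ) ∣ t - a q)).card : ℝ)
    set l : ℝ := ((e - s : ℤ) : ℝ)
    set l' : ℝ := ((e' - s' : ℤ) : ℝ)
    have h6 : A - A' - l * ((1 - 1 / (q : ℝ)) * den P)
        = (A - l * den P) - (A' - l' * den P) - (l' - l / q) * den P := by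
      field_simp
      ring
    rw [h6]
    have h7 : |(l' - l / q) * den P| ≤ 1 := by
      rw [abs_mul, abs_of_nonneg hd0]
      exact mul_le_one₀ hlen hd0 hd1
    have h8 := abs_sub (A - l * den P - (A' - l' * den P)) ((l' - l / q) * den P)
    have h9 := abs_sub (A - l * den P) (A' - l' * den P)
    linarith

/-- lower bound for the density -/
theorem den_ge (P : Finset ℕ) (hP : ∀ p ∈ P, p.Prime) : 1 / ((P.card : ℝ) + 1) ≤ den P := by
  induction P using Finset.induction_on_max with
  | empty => simp [den]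
  | insert q P hlt ih =>
    have hqP : q ∉ P := fun h => lt_irrefl _ (hlt q h)
    have hP' : ∀ p ∈ P, p.Prime := fun p hp => hP p (mem_insert_of_mem hp)
    have hq : q.Prime := hP q (mem_insert_self _ _)
    have hcard : P.card + 2 ≤ q := by
      have h1 : P ⊆ Ico 2 q := by
        intro p hp
        rw [mem_Ico]
        exact ⟨(hP' p hp).two_le, hlt p hp⟩
      have h2 := card_le_card h1
      rw [Nat.card_Ico] at h2
      have := hq.two_le
      omega
    have h5 : den (insert q P) = (1 - 1 / (q : ℝ)) * den P := by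
      rw [den, prod_insert hqP, den]
    rw [h5, card_insert_of_notMem hqP]
    have hc : ((P.card : ℝ) + 2) ≤ q := by exact_mod_cast hcard
    have hc0 : (0 : ℝ) ≤ P.card := Nat.cast_nonneg _
    have h6 : 1 - 1 / ((P.card : ℝ) + 2) ≤ 1 - 1 / (q : ℝ) := by
      have := one_div_le_one_div_of_le (by linarith : (0 : ℝ) < (P.card : ℝ) + 2) hc
      linarith
    have h7 := ih hP'
    have h8 : (1 - 1 / ((P.card : ℝ) + 2)) * (1 / ((P.card : ℝ) + 1)) ≤
        (1 - 1 / (q : ℝ)) * den P := by
      refine mul_le_mul h6 h7 (by positivity) ?_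
      have : (0 : ℝ) ≤ 1 - 1 / ((P.card : ℝ) + 2) := by
        rw [sub_nonneg, div_le_one (by linarith)]
        linarith
      linarith
    refine le_trans (le_of_eq ?_) h8
    push_cast
    field_simp
    ring

theorem good_of_card {J m : ℕ} (hJ : (m.primeFactors.card + 1) * 2 ^ m.primeFactors.card ≤ J)
    (hm : m ≠ 0) : Good J m := by
  intro a s
  have h1 := sieve m.primeFactors (fun p hp => Nat.prime_of_mem_primeFactors hp) a s (s + J)
    (by have := Int.natCast_nonneg J; linarith)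
  have h2 := den_ge m.primeFactors (fun p hp => Nat.prime_of_mem_primeFactors hp)
  have hJr : ((m.primeFactors.card : ℝ) + 1) * 2 ^ m.primeFactors.card ≤ J := by exact_mod_cast hJ
  have hc0 : (0 : ℝ) < (m.primeFactors.card : ℝ) + 1 := by positivity
  have h3 : (2 : ℝ) ^ m.primeFactors.card ≤ J * den m.primeFactors := by
    calc (2 : ℝ) ^ m.primeFactors.card
        = (((m.primeFactors.card : ℝ) + 1) * 2 ^ m.primeFactors.card) *
          (1 / ((m.primeFactors.card : ℝ) + 1)) := by field_simp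
      _ ≤ J * den m.primeFactors := mul_le_mul hJr h2 (by positivity) (by positivity)
  have h4 : ((s + J - s : ℤ) : ℝ) = J := by push_cast; ring
  rw [h4] at h1
  have h5 := (abs_le.1 h1).1
  have h6 : (0 : ℝ) < ((unc m.primeFactors a s (s + J)).card : ℝ) := by linarith
  have h7 : 0 < (unc m.primeFactors a s (s + J)).card := by exact_mod_cast h6
  obtain ⟨t, ht⟩ := card_pos.1 h7
  rw [unc, mem_filter, mem_Ico] at ht
  exact ⟨t, ht.1.1, ht.1.2, fun p hp hpm => ht.2 p (Nat.mem_primeFactors.2 ⟨hp, hpm, hm⟩)⟩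

theorem Good.mono {J J' m : ℕ} (h : Good J m) (hJ : J ≤ J') : Good J' m := by
  intro a s
  obtain ⟨t, h1, h2, h3⟩ := h a s
  refine ⟨t, h1, ?_, h3⟩
  have : (J : ℤ) ≤ J' := by exact_mod_cast hJ
  linarith

/-- the constant -/
def Cg (k : ℕ) : ℕ := (4 ^ k) ^ (4 ^ k)

theorem pow_card_le (k m : ℕ) (hm : m ≠ 0) : (4 ^ k) ^ m.primeFactors.card ≤ Cg k * m := by
  have h1 : (4 ^ k) ^ m.primeFactors.card = ∏ _p ∈ m.primeFactors, 4 ^ k := by
    rw [prod_const]
  have h2 : ∏ _p ∈ m.primeFactors, 4 ^ k ≤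
      (∏ _p ∈ m.primeFactors.filter (fun p => p < 4 ^ k), 4 ^ k) *
        ∏ p ∈ m.primeFactors, p := by
    rw [← prod_filter_mul_prod_filter_not m.primeFactors (fun p => p < 4 ^ k)]
    refine Nat.mul_le_mul_left _ ?_
    calc ∏ _p ∈ m.primeFactors.filter (fun p => ¬ p < 4 ^ k), 4 ^ k
        ≤ ∏ p ∈ m.primeFactors.filter (fun p => ¬ p < 4 ^ k), p := by
          refine Finset.prod_le_prod' fun p hp => ?_
          rw [mem_filter] at hp
          exact not_lt.1 hp.2
      _ ≤ ∏ p ∈ m.primeFactors, p := by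
          refine Finset.prod_le_prod_of_subset_of_one_le' (filter_subset _ _) fun p hp _ => ?_
          exact (Nat.prime_of_mem_primeFactors hp).one_lt.le
  have h3 : ∏ p ∈ m.primeFactors, p ≤ m := Nat.le_of_dvd (Nat.pos_of_ne_zero hm)
    (Nat.prod_primeFactors_dvd m)
  have h4 : (∏ _p ∈ m.primeFactors.filter (fun p => p < 4 ^ k), 4 ^ k) ≤ Cg k := by
    rw [prod_const, Cg]
    refine Nat.pow_le_pow_right (by positivity) ?_
    have h5 : m.primeFactors.filter (fun p => p < 4 ^ k) ⊆ range (4 ^ k) := by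
      intro p hp
      rw [mem_filter] at hp
      exact mem_range.2 hp.2
    have h6 := card_le_card h5
    rwa [card_range] at h6
  rw [h1]
  exact h2.trans (Nat.mul_le_mul h4 h3)

theorem good_of_pow {k J m : ℕ} (hk : k ≠ 0) (hm : m ≠ 0) (h : Cg k * m ≤ J ^ k) : Good J m := by
  refine good_of_card ?_ hm
  have h1 : ((m.primeFactors.card + 1) * 2 ^ m.primeFactors.card) ^ k ≤ J ^ k := by
    refine le_trans ?_ h
    refine le_trans ?_ (pow_card_le k m hm)
    have h2 : (m.primeFactors.card + 1) * 2 ^ m.primeFactors.card ≤ 4 ^ m.primeFactors.card := by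
      have h3 : m.primeFactors.card + 1 ≤ 2 ^ m.primeFactors.card := Nat.lt_two_pow_self
      calc (m.primeFactors.card + 1) * 2 ^ m.primeFactors.card
          ≤ 2 ^ m.primeFactors.card * 2 ^ m.primeFactors.card := Nat.mul_le_mul_right _ h3
        _ = 4 ^ m.primeFactors.card := by
          rw [← mul_pow]; norm_num
    calc ((m.primeFactors.card + 1) * 2 ^ m.primeFactors.card) ^ k
        ≤ (4 ^ m.primeFactors.card) ^ k := Nat.pow_le_pow_left h2 k
      _ = (4 ^ k) ^ m.primeFactors.card := by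
        rw [← pow_mul, ← pow_mul, mul_comm]
  exact (Nat.pow_le_pow_iff_left hk).1 h1

end Pool.Agent.Lib.MP_8cf263_co
end

section

/-!
# Discrete Aleksandrov projection problem: twins, visible vectors on lines
-/

set_option autoImplicit false

namespace Pool.Agent.Lib.MP_8cf263_co

open Finset

variable {n : ℕ}

/-- vectors with vanishing minors are multiples of a primitive vector -/
theorem par_of_minors {d e : Fin n → ℤ} (he : Pr e) (h : ∀ i j, d i * e j = d j * e i) :
    ∃ t : ℤ, d = t • e := by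
  obtain ⟨i, hi⟩ := Function.ne_iff.1 he.ne_zero
  have hi' : e i ≠ 0 := hi
  obtain ⟨t, ht⟩ : e i ∣ d i := he.dvd fun j => ⟨d j, by rw [h i j, mul_comm]⟩
  refine ⟨t, funext fun j => ?_⟩
  have h1 := h i j
  rw [ht] at h1
  have h2 : e i * (t * e j) = e i * d j := by linear_combination h1
  have h3 := mul_left_cancel₀ hi' h2
  rw [Pi.smul_apply, smul_eq_mul, h3]

/-- visible vectors on a line -/
theorem exists_prim {b e : Fin n → ℤ} (he : Pr e) {i j : Fin n}
    {J : ℕ} (hJ : Good J (b i * e j - b j * e i).natAbs) (s : ℤ) :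
    ∃ t : ℤ, s ≤ t ∧ t < s + J ∧ Pr (b + t • e) := by
  classical
  have hch : ∀ p : ℕ, ∃ a : ℤ, (∃ a' : ℤ, ∀ k, (p : ℤ) ∣ b k + a' * e k) →
      ∀ k, (p : ℤ) ∣ b k + a * e k := by
    intro p
    by_cases hp : ∃ a' : ℤ, ∀ k, (p : ℤ) ∣ b k + a' * e k
    · obtain ⟨a', ha'⟩ := hp
      exact ⟨a', fun _ => ha'⟩
    · exact ⟨0, fun h => absurd h hp⟩
  choose a ha using hch
  obtain ⟨t, h1, h2, h3⟩ := hJ a s
  refine ⟨t, h1, h2, fun d hd => ?_⟩
  by_contra hu
  have hna : d.natAbs ≠ 1 := fun h => hu (Int.isUnit_iff_natAbs_eq.2 h)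
  obtain ⟨p, hp, hpd⟩ := Nat.exists_prime_and_dvd hna
  have hpd' : ∀ k, (p : ℤ) ∣ b k + t * e k := by
    intro k
    have h4 := hd k
    simp only [Pi.add_apply, Pi.smul_apply, smul_eq_mul] at h4
    exact (Int.natCast_dvd.2 hpd).trans h4
  have hpm : (p : ℤ) ∣ b i * e j - b j * e i := by
    have h4 : b i * e j - b j * e i = (b i + t * e i) * e j - (b j + t * e j) * e i := by ring
    rw [h4]
    exact dvd_sub (Dvd.dvd.mul_right (hpd' i) _) (Dvd.dvd.mul_right (hpd' j) _)
  have hpm' : p ∣ (b i * e j - b j * e i).natAbs := Int.natCast_dvd.1 hpm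
  apply h3 p hp hpm'
  have h5 := ha p ⟨t, hpd'⟩
  refine he.dvd fun k => ?_
  have h6 : (t - a p) * e k = (b k + t * e k) - (b k + a p * e k) := by ring
  rw [h6]
  exact dvd_sub (hpd' k) (h5 k)

/-- combination of two sums -/
theorem LC.comb4 {K : Finset (Fin n → ℤ)} (hK : LC K) {x x' y y' z : Fin n → ℤ} (hx : x ∈ K)
    (hx' : x' ∈ K) (hy : y ∈ K) (hy' : y' ∈ K) {a b k : ℤ} (ha : 0 ≤ a) (hb : 0 ≤ b) (hk : 0 < k)
    (hab : a + b = k) (h : ∀ i, 2 * k * z i = a * (x i + x' i) + b * (y i + y' i)) : z ∈ K := by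
  apply hK
  have hkr : (0 : ℝ) < k := by exact_mod_cast hk
  have har : (0 : ℝ) ≤ a := by exact_mod_cast ha
  have hbr : (0 : ℝ) ≤ b := by exact_mod_cast hb
  have habr : (a : ℝ) + b = k := by exact_mod_cast hab
  have hmem : ∀ w ∈ K, em w ∈ convexHull ℝ (em '' (K : Set (Fin n → ℤ))) := fun w hw =>
    subset_convexHull ℝ _ ⟨w, hw, rfl⟩
  have hmid : ∀ w ∈ K, ∀ w' ∈ K, (1 / 2 : ℝ) • em w + (1 / 2 : ℝ) • em w' ∈
      convexHull ℝ (em '' (K : Set (Fin n → ℤ))) := fun w hw w' hw' =>
    (convex_convexHull ℝ _) (hmem w hw) (hmem w' hw') (by norm_num) (by norm_num) (by norm_num)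
  have hz : em z = ((a : ℝ) / k) • ((1 / 2 : ℝ) • em x + (1 / 2 : ℝ) • em x') +
      ((b : ℝ) / k) • ((1 / 2 : ℝ) • em y + (1 / 2 : ℝ) • em y') := by
    funext i
    have h1 : 2 * (k : ℝ) * z i = a * (x i + x' i) + b * (y i + y' i) := by exact_mod_cast h i
    show (z i : ℝ) = (a : ℝ) / k * (1 / 2 * x i + 1 / 2 * x' i) +
      (b : ℝ) / k * (1 / 2 * y i + 1 / 2 * y' i)
    field_simp
    linarith
  rw [hz]
  refine (convex_convexHull ℝ _) (hmid x hx x' hx') (hmid y hy y' hy') (by positivity)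
    (by positivity) ?_
  rw [← add_div, habr, div_self hkr.ne']

/-- two convex lattice sets with common centre `c / 2` and the same numbers of differences -/
structure Tw (K L : Finset (Fin n → ℤ)) (c : Fin n → ℤ) : Prop where
  hK : LC K
  hL : LC L
  sK : ∀ x, x ∈ K ↔ c - x ∈ K
  sL : ∀ x, x ∈ L ↔ c - x ∈ L
  card : K.card = L.card
  cnt : ∀ u, Pr u → (fol K u).card = (fol L u).card

theorem Tw.symm {K L : Finset (Fin n → ℤ)} {c : Fin n → ℤ} (h : Tw K L c) : Tw L K c :=
  ⟨h.hL, h.hK, h.sL, h.sK, h.card.symm, fun u hu => (h.cnt u hu).symm⟩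

theorem Tw.proj {K L : Finset (Fin n → ℤ)} {c : Fin n → ℤ} (h : Tw K L c) {u : Fin n → ℤ}
    (hu : Pr u) : (K.image (pj u)).card = (L.image (pj u)).card := by
  have h1 := card_pj h.hK hu
  have h2 := card_pj h.hL hu
  have h3 := h.cnt u hu
  have h4 := h.card
  omega

/-- visible sums -/
theorem Tw.vis {K L : Finset (Fin n → ℤ)} {c : Fin n → ℤ} (h : Tw K L c) {u : Fin n → ℤ}
    (hu : Pr u) {x y : Fin n → ℤ} (hx : x ∈ K) (hy : y ∈ K) (hxy : x + y - c = u) :
    ∃ x' ∈ L, ∃ y' ∈ L, x' + y' - c = u := by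
  have h1 : c - y ∈ fol K u := by
    rw [fol, mem_filter]
    refine ⟨(h.sK y).1 hy, ?_⟩
    have h2 : c - y + u = x := by
      rw [← hxy]
      abel
    rwa [h2]
  have h2 : 0 < (fol L u).card := by
    rw [← h.cnt u hu]
    exact card_pos.2 ⟨_, h1⟩
  obtain ⟨z, hz⟩ := card_pos.1 h2
  rw [fol, mem_filter] at hz
  refine ⟨z + u, hz.2, c - z, (h.sL z).1 hz.1, ?_⟩
  abel

/-- a run in `K` gives a (shorter) run in `L` -/
theorem Tw.run {K L : Finset (Fin n → ℤ)} {c : Fin n → ℤ} (h : Tw K L c) {x e : Fin n → ℤ}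
    {J : ℕ} {α β : ℤ} (hrun : ∀ t : ℤ, α ≤ t → t ≤ β → x + t • e ∈ K)
    (hvis : ∀ s : ℤ, ∃ τ : ℤ, s ≤ τ ∧ τ < s + J ∧ Pr (x + x - c + τ • e)) :
    ∀ t : ℤ, 2 * α + J - 1 ≤ 2 * t → 2 * t ≤ 2 * β - J + 1 → x + t • e ∈ L := by
  intro t ht1 ht2
  have hsum : ∀ τ : ℤ, 2 * α ≤ τ → τ ≤ 2 * β → Pr (x + x - c + τ • e) →
      ∃ y ∈ L, ∃ y' ∈ L, y + y' = x + x + τ • e := by
    intro τ h1 h2 hp
    have h3 : x + (τ / 2) • e ∈ K := hrun _ (by omega) (by omega)
    have h4 : x + (τ - τ / 2) • e ∈ K := hrun _ (by omega) (by omega)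
    obtain ⟨y, hy, y', hy', h5⟩ := h.vis hp h3 h4 (by
      rw [sub_smul]
      abel)
    refine ⟨y, hy, y', hy', ?_⟩
    have h6 : y + y' = (y + y' - c) + c := by abel
    rw [h6, h5]
    abel
  obtain ⟨τ0, h01, h02, h03⟩ := hvis (2 * α)
  obtain ⟨τ1, h11, h12, h13⟩ := hvis (2 * β - J + 1)
  obtain ⟨y, hy, y', hy', hyy⟩ := hsum τ0 h01 (by omega) h03
  obtain ⟨z, hz, z', hz', hzz⟩ := hsum τ1 (by omega) (by omega) h13
  have e1 : ∀ i, y i + y' i = 2 * x i + τ0 * e i := by
    intro i
    have := congrFun hyy i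
    simp only [Pi.add_apply, Pi.smul_apply, smul_eq_mul] at this
    linarith
  have e2 : ∀ i, z i + z' i = 2 * x i + τ1 * e i := by
    intro i
    have := congrFun hzz i
    simp only [Pi.add_apply, Pi.smul_apply, smul_eq_mul] at this
    linarith
  have hle0 : τ0 ≤ 2 * t := by omega
  have hle1 : 2 * t ≤ τ1 := by omega
  rcases eq_or_lt_of_le (hle0.trans hle1) with heq | hlt
  · have h2t : τ0 = 2 * t := by omega
    refine h.hL.comb hy hy' (a := 1) (b := 1) (k := 2) (by norm_num) (by norm_num) (by norm_num)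
      (by norm_num) ?_
    intro i
    have := e1 i
    simp only [Pi.add_apply, Pi.smul_apply, smul_eq_mul]
    rw [h2t] at this
    linarith
  · refine h.hL.comb4 hy hy' hz hz' (a := τ1 - 2 * t) (b := 2 * t - τ0) (k := τ1 - τ0)
      (by omega) (by omega) (by omega) (by ring) ?_
    intro i
    rw [e1 i, e2 i]
    simp only [Pi.add_apply, Pi.smul_apply, smul_eq_mul]
    ring

theorem em_add (x y : Fin n → ℤ) : em (x + y) = em x + em y := by
  funext i
  simp [em]

theorem mem_shift {L : Finset (Fin n → ℤ)} {v x : Fin n → ℤ} :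
    x ∈ L.image (fun y => y - v) ↔ x + v ∈ L := by
  classical
  rw [mem_image]
  constructor
  · rintro ⟨y, hy, rfl⟩
    rwa [sub_add_cancel]
  · intro h
    exact ⟨x + v, h, by abel⟩

/-- existence of the translation vector -/
theorem centre {K L : Finset (Fin n → ℤ)} (hK : LC K) {c c' : Fin n → ℤ}
    (hc : ∀ x, x ∈ K ↔ c - x ∈ K) (hc' : ∀ x, x ∈ L ↔ c' - x ∈ L) (hcard : K.card = L.card)
    (hcnt : ∀ u, Pr u → (fol K u).card = (fol L u).card) (hne : K.Nonempty) :
    ∃ v, c' = c + v + v := by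
  classical
  have hodd : ∀ (M : Finset (Fin n → ℤ)) (d : Fin n → ℤ), (∀ x, x ∈ M ↔ d - x ∈ M) →
      Odd M.card → ∃ z, d = z + z := by
    intro M d hd ho
    by_contra hcon
    push Not at hcon
    have h1 : Even M.card := by
      refine even_card_of_inv (fun x => d - x) (fun x hx => (hd x).1 hx) (fun x _ => by abel)
        (fun x _ hx => hcon x ?_)
      have h2 : d = d - x + x := by abel
      have h3 : d - x = x := hx
      rw [h3] at h2
      exact h2
    exact (Nat.not_even_iff_odd.2 ho) h1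
  rcases Nat.even_or_odd K.card with he | ho
  · obtain ⟨y, hyK, hy⟩ := exists_visible hK hc he hne
    have h1 : Odd (fol L (vs c y)).card := by
      rw [← hcnt _ hy]
      exact (odd_fol_iff hc rfl).2 hyK
    rw [odd_fol hc'] at h1
    obtain ⟨z, _, hz⟩ := h1
    refine ⟨y + z - c, funext fun i => ?_⟩
    have h2 := congrFun hz i
    simp only [Pi.sub_apply, Pi.add_apply, vs] at h2 ⊢
    linarith
  · obtain ⟨z, hz⟩ := hodd K c hc ho
    obtain ⟨z', hz'⟩ := hodd L c' hc' (hcard ▸ ho)
    refine ⟨z' - z, ?_⟩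
    rw [hz, hz']
    abel

/-- reduction to a common centre -/
theorem reduce {K L : Finset (Fin n → ℤ)} (hn : 2 ≤ n) (hK : LC K) (hL : LC L)
    {c c' : Fin n → ℤ} (hc : ∀ x, x ∈ K ↔ c - x ∈ K) (hc' : ∀ x, x ∈ L ↔ c' - x ∈ L)
    (h : ∀ u : Fin n → ℤ, u ≠ 0 → (K.image (pj u)).card = (L.image (pj u)).card)
    (P : ∀ L' : Finset (Fin n → ℤ), Tw K L' c → L' = K) :
    ∃ v : Fin n → ℤ, L = K.image (fun x => x + v) := by
  classical
  have hcard := card_eq hn hK hL h
  have hcnt : ∀ u, Pr u → (fol K u).card = (fol L u).card := by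
    intro u hu
    have h1 := card_pj hK hu
    have h2 := card_pj hL hu
    have h3 := h u hu.ne_zero
    omega
  rcases K.eq_empty_or_nonempty with hemp | hne
  · refine ⟨0, ?_⟩
    have h1 : L = ∅ := by
      rw [← card_eq_zero, ← hcard, hemp, card_empty]
    rw [hemp, h1]
    simp
  obtain ⟨v, hv⟩ := centre hK hc hc' hcard hcnt hne
  have hinj : Function.Injective (fun y : Fin n → ℤ => y - v) := sub_left_injective
  have hTw : Tw K (L.image (fun y => y - v)) c := by
    refine ⟨hK, ?_, hc, ?_, ?_, ?_⟩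
    · intro x hx
      rw [mem_shift]
      apply hL
      rw [em_add]
      have h2 : convexHull ℝ (em '' ((L.image (fun y => y - v) : Finset (Fin n → ℤ)) :
          Set (Fin n → ℤ))) ⊆
          (fun p => p + em v) ⁻¹' (convexHull ℝ (em '' (L : Set (Fin n → ℤ)))) := by
        apply convexHull_min
        · rintro _ ⟨y, hy, rfl⟩
          rw [mem_coe, mem_shift] at hy
          show em y + em v ∈ convexHull ℝ (em '' (L : Set (Fin n → ℤ)))
          rw [← em_add]
          exact subset_convexHull ℝ _ ⟨y + v, hy, rfl⟩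
        · exact (convex_convexHull ℝ _).translate_preimage_left _
      exact h2 hx
    · intro x
      rw [mem_shift, mem_shift, hc' (x + v)]
      have h1 : c' - (x + v) = c - x + v := by
        rw [hv]
        abel
      rw [h1]
    · rw [card_image_of_injective _ hinj, hcard]
    · intro u hu
      rw [hcnt u hu]
      have h1 : fol (L.image (fun y => y - v)) u = (fol L u).image (fun y => y - v) := by
        ext x
        rw [fol, mem_filter, mem_shift, mem_shift, mem_shift, fol, mem_filter]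
        have h2 : x + u + v = x + v + u := by abel
        rw [h2]
      rw [h1, card_image_of_injective _ hinj]
  have h1 := P _ hTw
  refine ⟨v, ?_⟩
  ext x
  rw [← h1, mem_image]
  constructor
  · intro hx
    refine ⟨x - v, ?_, by abel⟩
    rw [mem_shift, sub_add_cancel]
    exact hx
  · rintro ⟨y, hy, rfl⟩
    exact mem_shift.1 hy

end Pool.Agent.Lib.MP_8cf263_co
end

section

/-!
# Discrete Aleksandrov projection problem: sets cut out by large faces
-/

set_option autoImplicit false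

namespace Pool.Agent.Lib.MP_8cf263_co

open Finset

variable {n : ℕ}

/-- primitive direction of a vector -/
theorem prim_dir {d : Fin n → ℤ} (hd : d ≠ 0) :
    ∃ e : Fin n → ℤ, Pr e ∧ ∃ g : ℤ, 0 < g ∧ d = g • e ∧ ∀ m : ℤ, (∀ i, m ∣ d i) → m ∣ g := by
  classical
  set g : ℤ := (univ : Finset (Fin n)).gcd d with hg
  have hgd : ∀ i, g ∣ d i := fun i => Finset.gcd_dvd (mem_univ i)
  have hg0 : g ≠ 0 := by
    intro h
    apply hd
    funext i
    have h1 := hgd i
    rw [h, zero_dvd_iff] at h1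
    exact h1
  have hgnn : 0 ≤ g := by
    have h1 : normalize g = g := Finset.normalize_gcd
    rw [← Int.abs_eq_normalize] at h1
    rw [← h1]
    exact abs_nonneg g
  choose w hw using hgd
  refine ⟨w, ?_, g, lt_of_le_of_ne hgnn (Ne.symm hg0), ?_, ?_⟩
  · intro k hk
    have h2 : g * k ∣ (univ : Finset (Fin n)).gcd d := by
      apply Finset.dvd_gcd
      intro i _
      rw [hw i]
      exact mul_dvd_mul_left g (hk i)
    have h3 : g * k ∣ g * 1 := by rwa [mul_one]
    exact isUnit_of_dvd_one ((mul_dvd_mul_iff_left hg0).1 h3)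
  · funext i
    rw [Pi.smul_apply, smul_eq_mul]
    exact hw i
  · intro m hm
    exact Finset.dvd_gcd fun i _ => hm i

/-- pigeonhole: many points contain a long segment -/
theorem long_line {F : Finset (Fin n → ℤ)} {l : ℕ} (hl : 1 ≤ l) (hF : l ^ n < F.card) :
    ∃ x ∈ F, ∃ e : Fin n → ℤ, Pr e ∧ ∃ g : ℤ, (l : ℤ) ≤ g ∧ x + g • e ∈ F := by
  classical
  have : NeZero l := ⟨by omega⟩
  have hcard : (univ : Finset (Fin n → ZMod l)).card < F.card := by
    rw [card_univ, Fintype.card_fun, ZMod.card, Fintype.card_fin]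
    exact hF
  obtain ⟨x, hx, y, hy, hne, hxy⟩ := Finset.exists_ne_map_eq_of_card_lt_of_maps_to hcard
    (f := fun x : Fin n → ℤ => fun i => ((x i : ℤ) : ZMod l)) (fun _ _ => mem_univ _)
  have hd : y - x ≠ 0 := sub_ne_zero.2 (Ne.symm hne)
  obtain ⟨e, he, g, hg0, hge, hdvd⟩ := prim_dir hd
  refine ⟨x, hx, e, he, g, ?_, ?_⟩
  · have h1 : (l : ℤ) ∣ g := by
      apply hdvd
      intro i
      have h2 := congrFun hxy i
      rw [Pi.sub_apply]
      exact (ZMod.intCast_eq_intCast_iff_dvd_sub (x i) (y i) l).1 h2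
    exact Int.le_of_dvd hg0 h1
  · rw [← hge]
    have h1 : x + (y - x) = y := by abel
    rwa [h1]

/-- points of a segment -/
theorem LC.seg {K : Finset (Fin n → ℤ)} (hK : LC K) {x e : Fin n → ℤ} {g : ℤ} (hx : x ∈ K)
    (hy : x + g • e ∈ K) {t : ℤ} (h0 : 0 ≤ t) (h1 : t ≤ g) : x + t • e ∈ K := by
  rcases eq_or_lt_of_le (h0.trans h1) with hg | hg
  · have : t = 0 := by omega
    rw [this, zero_smul, add_zero]
    exact hx
  · refine hK.comb hx hy (a := g - t) (b := t) (k := g) (by omega) h0 hg (by omega) ?_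
    intro i
    simp only [Pi.add_apply, Pi.smul_apply, smul_eq_mul]
    ring

/-- **The ray argument.** A point of `L` outside `K` can be chosen close to `K`. -/
theorem Tw.near {K L : Finset (Fin n → ℤ)} {c : Fin n → ℤ} (h : Tw K L c) {R : ℤ}
    (hR : ∀ x ∈ K, ∀ i, |vs c x i| ≤ R) {w : Fin n → ℤ} (hw : w ∈ L) (hwK : w ∉ K) :
    ∃ w' ∈ L, w' ∉ K ∧ ∀ i, |vs c w' i| ≤ 3 * R := by
  classical
  -- it suffices to find the first point of the progression
  suffices hsuf : ∃ y ∈ K, y ∈ L ∧ ∃ W : Fin n → ℤ, (∀ i, |W i| ≤ R) ∧ ∃ m : ℕ, w = y + (m : ℤ) • W by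
    obtain ⟨y, hyK, hyL, W, hW, m, hm⟩ := hsuf
    have hex : ∃ j : ℕ, y + (j : ℤ) • W ∉ K := ⟨m, by rw [← hm]; exact hwK⟩
    have hj := Nat.find_spec hex
    have hjm : Nat.find hex ≤ m := Nat.find_min' hex (by rw [← hm]; exact hwK)
    have hj0 : Nat.find hex ≠ 0 := by
      intro h0
      rw [h0] at hj
      apply hj
      simpa using hyK
    have hprev : y + ((Nat.find hex - 1 : ℕ) : ℤ) • W ∈ K := by
      by_contra hc
      exact Nat.find_min hex (m := Nat.find hex - 1) (by omega) hc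
    refine ⟨y + ((Nat.find hex : ℕ) : ℤ) • W, ?_, hj, ?_⟩
    · refine h.hL.seg hyL (g := (m : ℤ)) (by rw [← hm]; exact hw) (by positivity) ?_
      exact_mod_cast hjm
    · intro i
      have h1 := hR _ hprev i
      have h2 := hW i
      have h3 : vs c (y + ((Nat.find hex : ℕ) : ℤ) • W) i =
          vs c (y + ((Nat.find hex - 1 : ℕ) : ℤ) • W) i + 2 * W i := by
        simp only [vs, Pi.add_apply, Pi.smul_apply, smul_eq_mul]
        have h4 : ((Nat.find hex - 1 : ℕ) : ℤ) = (Nat.find hex : ℤ) - 1 := by omega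
        rw [h4]
        ring
      rw [h3]
      have h5 := abs_add_le (vs c (y + ((Nat.find hex - 1 : ℕ) : ℤ) • W) i) (2 * W i)
      rw [abs_mul, abs_two] at h5
      linarith
  by_cases hcz : ∃ z, c = z + z
  · -- the centre is a lattice point
    obtain ⟨z, hz⟩ := hcz
    have hzL : z ∈ L := by
      refine h.hL.comb hw ((h.sL w).1 hw) (a := 1) (b := 1) (k := 2) (by norm_num) (by norm_num)
        (by norm_num) (by norm_num) ?_
      intro i
      have h1 := congrFun hz i
      simp only [Pi.sub_apply, Pi.add_apply] at h1 ⊢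
      linarith
    have hKne : K.Nonempty := by
      rw [← card_pos, h.card]
      exact card_pos.2 ⟨w, hw⟩
    have hzK : z ∈ K := by
      obtain ⟨x, hx⟩ := hKne
      refine h.hK.comb hx ((h.sK x).1 hx) (a := 1) (b := 1) (k := 2) (by norm_num) (by norm_num)
        (by norm_num) (by norm_num) ?_
      intro i
      have h1 := congrFun hz i
      simp only [Pi.sub_apply, Pi.add_apply] at h1 ⊢
      linarith
    have hd : w - z ≠ 0 := by
      intro h0
      rw [sub_eq_zero] at h0
      exact hwK (h0 ▸ hzK)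
    obtain ⟨W, hWp, g, hg0, hge, -⟩ := prim_dir hd
    have hwz : w = z + g • W := by
      rw [← hge]
      abel
    refine ⟨z, hzK, hzL, W, ?_, g.toNat, ?_⟩
    · have h1 : z + (1 : ℤ) • W ∈ L := h.hL.seg hzL (by rw [← hwz]; exact hw) (by norm_num) hg0
      rw [one_smul] at h1
      obtain ⟨x, hx, y, hy, hxy⟩ := h.symm.vis hWp h1 hzL (by rw [hz]; abel)
      intro i
      have h2 := congrFun hxy i
      simp only [Pi.sub_apply, Pi.add_apply] at h2
      have h3 : 2 * W i = vs c x i + vs c y i := by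
        simp only [vs]
        linarith
      have h4 := abs_add_le (vs c x i) (vs c y i)
      rw [← h3, abs_mul, abs_two] at h4
      have h5 := hR x hx i
      have h6 := hR y hy i
      linarith
    · rw [Int.toNat_of_nonneg hg0.le]
      exact hwz
  · -- the centre is not a lattice point
    have hd : vs c w ≠ 0 := by
      intro h0
      apply hcz
      refine ⟨w, funext fun i => ?_⟩
      have h1 := congrFun h0 i
      simp only [vs, Pi.zero_apply] at h1
      rw [Pi.add_apply]
      linarith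
    obtain ⟨W, hWp, g, hg0, hge, -⟩ := prim_dir hd
    have hgodd : ¬ (2 : ℤ) ∣ g := by
      intro h2
      apply hcz
      have h1 : ∀ i, (2 : ℤ) ∣ c i := by
        intro i
        have h3 := congrFun hge i
        simp only [vs, Pi.smul_apply, smul_eq_mul] at h3
        have h4 : (2 : ℤ) ∣ g * W i := Dvd.dvd.mul_right h2 _
        rw [← h3] at h4
        omega
      choose z hz using h1
      refine ⟨z, funext fun i => ?_⟩
      rw [Pi.add_apply, hz i]
      ring
    obtain ⟨m, hm⟩ : ∃ m : ℤ, g = 2 * m + 1 := ⟨g / 2, by omega⟩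
    have hm0 : 0 ≤ m := by omega
    -- the first point
    set y : Fin n → ℤ := w - m • W with hy
    have hvy : vs c y = W := by
      funext i
      have h3 := congrFun hge i
      simp only [vs, Pi.smul_apply, smul_eq_mul] at h3
      simp only [vs, hy, Pi.sub_apply, Pi.smul_apply, smul_eq_mul]
      rw [hm] at h3
      linarith
    have hyL : y ∈ L := by
      refine h.hL.comb hw ((h.sL w).1 hw) (a := g + 1) (b := g - 1) (k := 2 * g) (by omega)
        (by omega) (by omega) (by ring) ?_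
      intro i
      have h3 := congrFun hge i
      simp only [vs, Pi.smul_apply, smul_eq_mul] at h3
      simp only [hy, Pi.sub_apply, Pi.smul_apply, smul_eq_mul]
      have h4 : c i = 2 * w i - g * W i := by linarith
      rw [h4, hm]
      ring
    have hyK : y ∈ K := by
      have h1 : Odd (fol L W).card := (odd_fol_iff h.sL hvy.symm).2 hyL
      rw [← h.cnt W hWp] at h1
      exact (odd_fol_iff h.sK hvy.symm).1 h1
    refine ⟨y, hyK, hyL, W, ?_, m.toNat, ?_⟩
    · intro i
      rw [← hvy]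
      exact hR y hyK i
    · rw [Int.toNat_of_nonneg hm0, hy]
      abel

theorem em_smul_int (g : ℤ) (x : Fin n → ℤ) : em (g • x) = (g : ℝ) • em x := by
  funext i
  simp [em]

theorem em_sub (x y : Fin n → ℤ) : em (x - y) = em x - em y := by
  funext i
  simp [em]

theorem em_vs (c x : Fin n → ℤ) : em (vs c x) = (2 : ℝ) • em x - em c := by
  funext i
  simp [em, vs]

/-- **Large faces.** -/
theorem face_main {K L : Finset (Fin n → ℤ)} {c : Fin n → ℤ} (h : Tw K L c) {R J : ℕ}
    (hR : ∀ x ∈ K, ∀ i, |vs c x i| ≤ (R : ℤ)) (hJ : 1 ≤ J)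
    (hgood : ∀ m : ℕ, m ≠ 0 → m ≤ 4 * R ^ 2 → Good J m)
    (hsep : ∀ w : Fin n → ℤ, w ∉ K → ∃ f : Fin n → ℝ, (∀ x ∈ K, f ⬝ᵥ em (vs c x) ≤ 1) ∧
      1 < f ⬝ᵥ em (vs c w) ∧
      ∃ F : Finset (Fin n → ℤ), (∀ x ∈ F, x ∈ K ∧ f ⬝ᵥ em (vs c x) = 1) ∧
        (2 * J) ^ n < F.card) : L = K := by
  classical
  by_contra hne
  have hex : ∃ w ∈ L, w ∉ K := by
    by_contra hcon
    push Not at hcon
    exact hne (eq_of_subset_of_card_le hcon h.card.le)
  obtain ⟨w0, hw0, hw0K⟩ := hex
  obtain ⟨w, hwL, hwK, hwR⟩ := h.near hR hw0 hw0K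
  -- a large face separating `w` from `K`
  obtain ⟨f, hfK, hfw, F, hF, hFcard⟩ := hsep w hwK
  obtain ⟨x0, hx0, e, he, g, hg, hxg⟩ := long_line (by omega) hFcard
  have hx0K := (hF x0 hx0).1
  have hxgK := (hF _ hxg).1
  have hg' : 2 * (J : ℤ) ≤ g := by
    push_cast at hg
    exact hg
  have hgpos : 0 < g := by omega
  -- `f (e) = 0`
  have hfe : f ⬝ᵥ em e = 0 := by
    have h1 := (hF x0 hx0).2
    have h2 := (hF _ hxg).2
    have h3 : em (vs c (x0 + g • e)) = em (vs c x0) + (2 * (g : ℝ)) • em e := by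
      rw [em_vs, em_vs, em_add, em_smul_int]
      module
    rw [h3, dotProduct_add, dotProduct_smul, h1, smul_eq_mul] at h2
    have h4 : (2 * (g : ℝ)) * (f ⬝ᵥ em e) = 0 := by linarith
    have h5 : (0 : ℝ) < g := by exact_mod_cast hgpos
    rcases mul_eq_zero.1 h4 with h6 | h6
    · linarith
    · exact h6
  -- size of `e`
  have heR : ∀ i, |e i| ≤ (R : ℤ) := by
    intro i
    have h1 := hR _ hx0K i
    have h2 := hR _ hxgK i
    have h3 : vs c (x0 + g • e) i = vs c x0 i + 2 * (g * e i) := by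
      simp only [vs, Pi.add_apply, Pi.smul_apply, smul_eq_mul]
      ring
    rw [h3] at h2
    have h4 : |2 * (g * e i)| ≤ |vs c x0 i + 2 * (g * e i)| + |vs c x0 i| := by
      have h5 := abs_sub (vs c x0 i + 2 * (g * e i)) (vs c x0 i)
      rwa [add_sub_cancel_left] at h5
    rw [abs_mul, abs_two, abs_mul, abs_of_pos hgpos] at h4
    have h6 : g * |e i| ≤ R := by linarith
    have h7 : |e i| ≤ g * |e i| := le_mul_of_one_le_left (abs_nonneg _) (by omega)
    linarith
  -- visible vectors on lines in direction `e`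
  have hline : ∀ b : Fin n → ℤ, f ⬝ᵥ em b ≠ 0 → (∀ i, |b i| ≤ 2 * (R : ℤ)) → ∀ s : ℤ,
      ∃ t : ℤ, s ≤ t ∧ t < s + J ∧ Pr (b + t • e) := by
    intro b hb hbR s
    have hmin : ∃ i j, b i * e j - b j * e i ≠ 0 := by
      by_contra hcon
      push Not at hcon
      obtain ⟨t, ht⟩ := par_of_minors he (d := b) (fun i j => by linarith [hcon i j])
      apply hb
      rw [ht, em_smul_int, dotProduct_smul, hfe, smul_zero]
    obtain ⟨i, j, hij⟩ := hmin
    refine exists_prim he (i := i) (j := j) (hgood _ (Int.natAbs_ne_zero.2 hij) ?_) s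
    have h1 : |b i * e j - b j * e i| ≤ 4 * (R : ℤ) ^ 2 := by
      have h2 := abs_sub (b i * e j) (b j * e i)
      rw [abs_mul, abs_mul] at h2
      have h3 : |b i| * |e j| ≤ 2 * R * R := mul_le_mul (hbR i) (heR j) (abs_nonneg _) (by positivity)
      have h4 : |b j| * |e i| ≤ 2 * R * R := mul_le_mul (hbR j) (heR i) (abs_nonneg _) (by positivity)
      nlinarith
    have h5 : ((b i * e j - b j * e i).natAbs : ℤ) ≤ ((4 * R ^ 2 : ℕ) : ℤ) := by
      rw [Int.natCast_natAbs]
      push_cast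
      exact h1
    exact_mod_cast h5
  -- the run in `L`
  have hb0 : x0 + x0 - c = vs c x0 := by
    funext i
    simp only [vs, Pi.sub_apply, Pi.add_apply]
    ring
  have hrun := h.run (x := x0) (e := e) (J := J) (α := 0) (β := g)
    (fun t h0 h1 => h.hK.seg hx0K hxgK h0 h1) (by
      intro s
      rw [hb0]
      refine hline _ ?_ ?_ s
      · rw [(hF x0 hx0).2]
        exact one_ne_zero
      · intro i
        have := hR _ hx0K i
        have h2 := abs_nonneg (vs c x0 i)
        linarith)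
  -- the sum of `w` and a point of the run
  have hb1 : em (w + x0 - c) = (1 / 2 : ℝ) • em (vs c w) + (1 / 2 : ℝ) • em (vs c x0) := by
    rw [em_vs, em_vs, em_sub, em_add]
    module
  have hfb1 : 1 < f ⬝ᵥ em (w + x0 - c) := by
    rw [hb1, dotProduct_add, dotProduct_smul, dotProduct_smul, (hF x0 hx0).2, smul_eq_mul,
      smul_eq_mul]
    linarith
  obtain ⟨t, ht0, ht1, htp⟩ := hline (w + x0 - c) (by linarith) (by
    intro i
    have h1 := hR _ hx0K i
    have h2 := hwR i
    have h3 : 2 * (w + x0 - c) i = vs c w i + vs c x0 i := by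
      simp only [vs, Pi.sub_apply, Pi.add_apply]
      ring
    have h4 := abs_add_le (vs c w i) (vs c x0 i)
    rw [← h3, abs_mul, abs_two] at h4
    linarith) ((J : ℤ) / 2)
  have htL : x0 + t • e ∈ L := hrun t (by omega) (by omega)
  obtain ⟨x, hx, y, hy, hxy⟩ := h.symm.vis htp hwL htL (by abel)
  have h1 : f ⬝ᵥ em (w + x0 - c + t • e) = f ⬝ᵥ em (w + x0 - c) := by
    rw [em_add, em_smul_int, dotProduct_add, dotProduct_smul, hfe, smul_zero, add_zero]
  have h2 : em (x + y - c) = (1 / 2 : ℝ) • em (vs c x) + (1 / 2 : ℝ) • em (vs c y) := by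
    rw [em_vs, em_vs, em_sub, em_add]
    module
  rw [← hxy, h2, dotProduct_add, dotProduct_smul, dotProduct_smul, smul_eq_mul, smul_eq_mul] at h1
  have h3 := hfK x hx
  have h4 := hfK y hy
  linarith

end Pool.Agent.Lib.MP_8cf263_co
end
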