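import Pool.Agent.Lib.MP_8cf263_co.RdPoleA

/-!
# Polytopes, definitions

Programme RP (discrete Aleksandrov projection problem): large dilates of polytopes whose facet normals
are integer vectors or badly approximable (Diophantine) vectors are determined.  Polytopes are given in
one-sided form `h j ⬝ᵥ y ≤ b j`, all constants are bounded by one real number `D`.
-/

set_option autoImplicit false

namespace Pool.Agent.Lib.MP_8cf263_co

open Finset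

/-- a polytope in one-sided form, with a centre for every facet -/
structure Pol {n : ℕ} {ι : Type} (h : ι → Fin n → ℝ) (b : ι → ℝ) (D : ℝ) : Prop where
  D1 : 1 ≤ D
  hD : ∀ j, ∑ i, |h j i| ≤ D
  b0 : ∀ j, 1 ≤ D * b j
  bD : ∀ j, b j ≤ D
  bdd : ∀ y : Fin n → ℝ, (∀ j, h j ⬝ᵥ y ≤ b j) → ∀ i, |y i| ≤ D
  fc : ∀ j, ∃ g : Fin n → ℝ, h j ⬝ᵥ g = b j ∧ ∀ l, l ≠ j → h l ⬝ᵥ g + 1 / D ≤ b l

/-- a Diophantine vector -/
def Dio {n : ℕ} (φ : Fin n → ℝ) (D : ℝ) (A : ℕ) : Prop :=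
  ∀ z : Fin n → ℤ, z ≠ 0 → ∀ Q : ℕ, (∀ i, |z i| ≤ (Q : ℤ)) → 1 ≤ D * |φ ⬝ᵥ em z| * (Q : ℝ) ^ A

/-- fat twins, the first of them is the set of lattice points of a dilate of a polytope -/
structure PT {n : ℕ} {ι : Type} (K L : Finset (Fin n → ℤ)) (c : Fin n → ℤ) (R r J kap : ℕ)
    (h : ι → Fin n → ℝ) (b : ι → ℝ) (D lam : ℝ) : Prop where
  twf : TwF K L c R r J kap
  pol : Pol h b D
  mem : ∀ x, x ∈ K ↔ ∀ j, h j ⬝ᵥ em (vs c x) ≤ lam * b j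
  lam1 : 1 ≤ lam
  RD : (R : ℝ) ≤ 2 * D * lam
  lr : lam ≤ 2 * D ^ 2 * r
  JD : 10 * D ^ 3 ≤ J
  Jk : 20 * kap ≤ J

/-- points of `K \ L` minus points of `L \ K`, in the reflected set `s - K` -/
def Fv {n : ℕ} (K L : Finset (Fin n → ℤ)) (s : Fin n → ℤ) : ℤ :=
  (((K \ L).filter fun x => s - x ∈ K).card : ℤ) - (((L \ K).filter fun x => s - x ∈ K).card : ℤ)

/-- `|φ ⬝ᵥ y| ≤ D P` -/
theorem dot_le {n : ℕ} {φ y : Fin n → ℝ} {D P : ℝ} (hφ : ∑ i, |φ i| ≤ D) (hP : 0 ≤ P)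
    (hy : ∀ i, |y i| ≤ P) : |φ ⬝ᵥ y| ≤ D * P := by
  unfold dotProduct
  calc |∑ i, φ i * y i| ≤ ∑ i, |φ i * y i| := Finset.abs_sum_le_sum_abs _ _
    _ ≤ ∑ i, |φ i| * P := Finset.sum_le_sum fun i _ => by
        rw [abs_mul]
        exact mul_le_mul_of_nonneg_left (hy i) (abs_nonneg _)
    _ = (∑ i, |φ i|) * P := by rw [Finset.sum_mul]
    _ ≤ D * P := mul_le_mul_of_nonneg_right hφ hP

theorem vs_add {n : ℕ} (c x y : Fin n → ℤ) : em (vs c (x + y)) = em (vs c x) + (2 : ℝ) • em y := by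
  funext i
  simp only [em, vs, Pi.add_apply, Pi.smul_apply, smul_eq_mul]
  push_cast
  ring

theorem em_zsmul {n : ℕ} (t : ℤ) (x : Fin n → ℤ) : em (t • x) = (t : ℝ) • em x := by
  funext i
  simp [em]

theorem em_neg {n : ℕ} (x : Fin n → ℤ) : em (-x) = -em x := by
  funext i
  simp [em]

/-- a point of the dilate gives a point of the polytope -/
theorem PT.sc {n : ℕ} {ι : Type} {K L : Finset (Fin n → ℤ)} {c : Fin n → ℤ} {R r J kap : ℕ}
    {h : ι → Fin n → ℝ} {b : ι → ℝ} {D lam : ℝ} (H : PT K L c R r J kap h b D lam)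
    {ω v : Fin n → ℝ} (hmax : ∀ y : Fin n → ℝ, (∀ l, h l ⬝ᵥ y ≤ b l) → ω ⬝ᵥ y ≤ ω ⬝ᵥ v)
    {x : Fin n → ℤ} (hx : x ∈ K) : ω ⬝ᵥ em (vs c x) ≤ lam * (ω ⬝ᵥ v) := by
  have hl : 0 < lam := lt_of_lt_of_le one_pos H.lam1
  have h1 := hmax (lam⁻¹ • em (vs c x)) (fun l => by
    rw [dotProduct_smul, smul_eq_mul, inv_mul_le_iff₀ hl]
    exact (H.mem x).1 hx l)
  rwa [dotProduct_smul, smul_eq_mul, inv_mul_le_iff₀ hl] at h1

/-- a vector and a direction which are not parallel, after a small change of the vector -/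
theorem npar_dir {n : ℕ} (hn : 2 ≤ n) (v : Fin n → ℤ) : ∃ z e : Fin n → ℤ, (∀ i, |z i| ≤ 1) ∧
    (∀ i, |e i| ≤ 1) ∧ Pr e ∧ ∃ i j, (v + z) i * e j - (v + z) j * e i ≠ 0 := by
  have hs : ∀ i k : Fin n, |(Pi.single i 1 : Fin n → ℤ) k| ≤ 1 := by
    intro i k
    by_cases hk : k = i
    · rw [hk, Pi.single_eq_same]
      norm_num
    · rw [Pi.single_eq_of_ne hk]
      norm_num
  have key : ∀ w : Fin n → ℤ, w ≠ 0 → ∃ e : Fin n → ℤ, (∀ i, |e i| ≤ 1) ∧ Pr e ∧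
      ∃ i j, w i * e j - w j * e i ≠ 0 := by
    intro w hw
    obtain ⟨l, i, hil, hl⟩ := ax hn hw
    refine ⟨Pi.single i 1, hs i, prim_single i, l, i, ?_⟩
    rw [Pi.single_eq_same, Pi.single_eq_of_ne (Ne.symm hil)]
    simpa using hl
  by_cases hv : v = 0
  · obtain ⟨e, h1, h2, h3⟩ := key (Pi.single ⟨0, by omega⟩ 1) (by
      intro h0
      have := congrFun h0 ⟨0, by omega⟩
      simp at this)
    refine ⟨Pi.single ⟨0, by omega⟩ 1, e, hs _, h1, h2, ?_⟩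
    rw [hv, zero_add]
    exact h3
  · obtain ⟨e, h1, h2, h3⟩ := key v hv
    refine ⟨0, e, by simp, h1, h2, ?_⟩
    rw [add_zero]
    exact h3

end Pool.Agent.Lib.MP_8cf263_co
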