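import Mathlib

section

/-!
# Round sets, file RdGap: a free interval; lines of lattice points in boxes

`gap`: the intervals `[x, x + lam)`, `x ∈ S`, leave `J` consecutive integers free inside every
interval of `(|S| + 1) (lam + J)` consecutive integers.

Proof. Induction on the cardinality of `S` (for all `s`).  If no interval meets `[s, s + J)` take
`s' = s`.  Otherwise there are `x ∈ S` and `t` with `s ≤ t < s + J`, `x ≤ t < x + lam`, hence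
`x + lam ≤ s + J + lam =: s₁` (as `x ≤ s + J - 1`).  Apply the induction hypothesis to `S.erase x`
and `s₁`: `s' ≥ s₁`, `s' + J ≤ s₁ + |S| (lam + J) = s + (|S| + 1) (lam + J)`, and the interval of
`x` lies to the left of `s₁ ≤ s'`.

`card_box`: a finite set of integer vectors all of whose coordinate differences are at most `r` has
at most `(r + 1) ^ n` points.

Proof.  If `S` is empty this is clear.  Otherwise let `a i` be the minimum of `x i`, `x ∈ S`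
(`Finset.exists_min_image`); then `S ⊆ Finset.Icc a (fun i => a i + r)` (each `x i ≤ a i + r`
because `a i = y i` for some `y ∈ S`), whose cardinality is `∏ i, (r + 1)` (`Pi.card_Icc`,
`Int.card_Icc`).
-/

set_option autoImplicit false

namespace Pool.Agent.Lib.MP_8cf263_co

open Finset

private theorem gap_aux (lam J : ℕ) : ∀ (k : ℕ) (S : Finset ℤ), S.card = k → ∀ s : ℤ,
    ∃ s' : ℤ, s ≤ s' ∧ s' + J ≤ s + (k + 1) * (lam + J) ∧
      ∀ t : ℤ, s' ≤ t → t < s' + J → ∀ x ∈ S, ¬ (x ≤ t ∧ t < x + lam) := by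
  intro k
  induction k with
  | zero =>
    intro S hS s
    refine ⟨s, le_refl _, ?_, ?_⟩
    · push_cast
      have : (0 : ℤ) ≤ lam := Int.natCast_nonneg _
      linarith
    · intro t _ _ x hx
      rw [card_eq_zero] at hS
      rw [hS] at hx
      exact absurd hx (notMem_empty x)
  | succ k ih =>
    intro S hS s
    have hl : (0 : ℤ) ≤ lam := Int.natCast_nonneg _
    have hJ : (0 : ℤ) ≤ J := Int.natCast_nonneg _
    by_cases hfree : ∀ t : ℤ, s ≤ t → t < s + J → ∀ x ∈ S, ¬ (x ≤ t ∧ t < x + lam)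
    · refine ⟨s, le_refl _, ?_, hfree⟩
      have hk : (0 : ℤ) ≤ (k : ℤ) + 1 := by positivity
      have := mul_nonneg hk (add_nonneg hl hJ)
      push_cast
      nlinarith
    · push Not at hfree
      obtain ⟨t, h1, h2, x, hx, h3, h4⟩ := hfree
      have hc : (S.erase x).card = k := by rw [card_erase_of_mem hx, hS]; rfl
      obtain ⟨s', h5, h6, h7⟩ := ih (S.erase x) hc (s + J + lam)
      refine ⟨s', by linarith, ?_, ?_⟩
      · push_cast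
        linarith
      · intro u hu1 hu2 z hz
        by_cases hzx : z = x
        · rintro ⟨_, h9⟩
          rw [hzx] at h9
          linarith
        · exact h7 u hu1 hu2 z (mem_erase.mpr ⟨hzx, hz⟩)

theorem gap (S : Finset ℤ) (lam J : ℕ) (s : ℤ) :
    ∃ s' : ℤ, s ≤ s' ∧ s' + J ≤ s + (S.card + 1) * (lam + J) ∧
      ∀ t : ℤ, s' ≤ t → t < s' + J → ∀ x ∈ S, ¬ (x ≤ t ∧ t < x + lam) :=
  gap_aux lam J S.card S rfl s

theorem card_box {n : ℕ} (S : Finset (Fin n → ℤ)) (r : ℕ)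
    (h : ∀ x ∈ S, ∀ y ∈ S, ∀ i, x i - y i ≤ r) : S.card ≤ (r + 1) ^ n := by
  rcases S.eq_empty_or_nonempty with rfl | hne
  · simp
  · have hmin : ∀ i : Fin n, ∃ x ∈ S, ∀ y ∈ S, x i ≤ y i := fun i =>
      exists_min_image S (fun x => x i) hne
    choose m hm hmin' using hmin
    have hsub : S ⊆ Icc (fun i => m i i) (fun i => m i i + (r : ℤ)) := by
      intro x hx
      rw [mem_Icc]
      refine ⟨fun i => hmin' i x hx, fun i => ?_⟩
      have := h x hx (m i) (hm i) i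
      show x i ≤ m i i + (r : ℤ)
      linarith
    refine (card_le_card hsub).trans ?_
    rw [Pi.card_Icc]
    have : ∀ i ∈ (univ : Finset (Fin n)), (Icc (m i i) (m i i + (r : ℤ))).card = r + 1 := by
      intro i _
      rw [Int.card_Icc]
      omega
    rw [prod_congr rfl this, prod_const, card_univ, Fintype.card_fin]

end Pool.Agent.Lib.MP_8cf263_co
end

section

/-!
# Round sets, file RdJ: choice of `J`

`exists_J`: for all `A`, `β` there is `τ₀` such that for all real `τ ≥ τ₀` there is a natural number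
`J ≥ A`, `J ≥ 1`, with `J ^ β ≤ τ` (`1 ≤ β`) and `A τ ≤ J ^ (β + 1)`.

Proof.  Let `τ₀ = (A * 2 ^ β + 1) ^ β`.  Let `J` be the
greatest natural number with `J ^ β ≤ τ` (`Nat.findGreatest`, or `Nat.find` for the first `J'` with
`τ < J' ^ β`, which is positive, and `J = J' - 1`; such a `J'` exists: `J' = ⌈τ⌉₊ + 1`).  Then
`A 2 ^ β + 1 ≤ J` and `τ < (J + 1) ^ β ≤ (2 J) ^ β = 2 ^ β J ^ β`, so
`A τ ≤ A 2 ^ β J ^ β ≤ J ^ (β + 1)`.
-/

set_option autoImplicit false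

namespace Pool.Agent.Lib.MP_8cf263_co

theorem exists_J (A β : ℕ) (hβ : 1 ≤ β) : ∃ τ₀ : ℝ, ∀ τ : ℝ, τ₀ ≤ τ → ∃ J : ℕ, A ≤ J ∧ 1 ≤ J ∧
    (J : ℝ) ^ β ≤ τ ∧ A * τ ≤ (J : ℝ) ^ (β + 1) := by
  refine ⟨((A * 2 ^ β + 1 : ℕ) : ℝ) ^ β, fun τ hτ => ?_⟩
  classical
  have hb0 : β ≠ 0 := by omega
  have hτ1 : (1 : ℝ) ≤ τ := by
    refine le_trans ?_ hτ
    apply one_le_pow₀
    push_cast
    have : (0 : ℝ) ≤ (A : ℝ) * 2 ^ β := by positivity
    linarith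
  have hτ0 : (0 : ℝ) ≤ τ := by linarith
  have hex : ∃ J' : ℕ, τ < (J' : ℝ) ^ β := by
    refine ⟨⌈τ⌉₊ + 1, ?_⟩
    have h1 : τ < ((⌈τ⌉₊ + 1 : ℕ) : ℝ) := by
      push_cast
      have := Nat.le_ceil τ
      linarith
    refine lt_of_lt_of_le h1 ?_
    apply le_self_pow₀ _ hb0
    push_cast
    have : (0 : ℝ) ≤ (⌈τ⌉₊ : ℝ) := Nat.cast_nonneg _
    linarith
  obtain ⟨J', hJ', hmin⟩ : ∃ J' : ℕ, τ < (J' : ℝ) ^ β ∧ ∀ m : ℕ, m < J' → (m : ℝ) ^ β ≤ τ :=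
    ⟨Nat.find hex, Nat.find_spec hex, fun m hm => not_lt.1 (Nat.find_min hex hm)⟩
  have hJ0 : J' ≠ 0 := by
    rintro rfl
    rw [Nat.cast_zero, zero_pow hb0] at hJ'
    linarith
  obtain ⟨J, rfl⟩ := Nat.exists_eq_succ_of_ne_zero hJ0
  have hJτ := hmin J (Nat.lt_succ_self J)
  have hAJ : A * 2 ^ β + 1 ≤ J := by
    by_contra hcon
    push Not at hcon
    have h1 : ((J.succ : ℕ) : ℝ) ≤ ((A * 2 ^ β + 1 : ℕ) : ℝ) := by
      exact_mod_cast hcon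
    have h2 : ((J.succ : ℕ) : ℝ) ^ β ≤ ((A * 2 ^ β + 1 : ℕ) : ℝ) ^ β :=
      pow_le_pow_left₀ (Nat.cast_nonneg _) h1 β
    linarith
  have hpow : 1 ≤ 2 ^ β := Nat.one_le_two_pow
  have hA : A ≤ A * 2 ^ β := Nat.le_mul_of_pos_right A (by positivity)
  refine ⟨J, by omega, by omega, hJτ, ?_⟩
  have hJ1 : (1 : ℝ) ≤ (J : ℝ) := by exact_mod_cast (by omega : 1 ≤ J)
  have h3 : τ ≤ (2 * (J : ℝ)) ^ β := by
    refine hJ'.le.trans ?_
    apply pow_le_pow_left₀ (Nat.cast_nonneg _)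
    push_cast
    linarith
  have h4 : (A : ℝ) * 2 ^ β ≤ (J : ℝ) := by
    have : ((A * 2 ^ β + 1 : ℕ) : ℝ) ≤ (J : ℝ) := by exact_mod_cast hAJ
    push_cast at this
    linarith
  calc (A : ℝ) * τ ≤ A * (2 * (J : ℝ)) ^ β :=
        mul_le_mul_of_nonneg_left h3 (Nat.cast_nonneg _)
    _ = (A * 2 ^ β) * (J : ℝ) ^ β := by rw [mul_pow]; ring
    _ ≤ (J : ℝ) * (J : ℝ) ^ β := mul_le_mul_of_nonneg_right h4 (by positivity)
    _ = (J : ℝ) ^ (β + 1) := by ring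

end Pool.Agent.Lib.MP_8cf263_co
end

section

/-!
# One round spot, file RsHalve: quadratic bounds from second differences

Setting: `f : ℝ ^ n → ℝ`; `Bl q ρ x` means `(x - q) ⬝ᵥ (x - q) ≤ ρ ^ 2`; `Pin f q ρ μ M`:
`2 μ (y ⬝ᵥ y) ≤ f (x + y) + f (x - y) - 2 f x ≤ 2 M (y ⬝ᵥ y)` whenever `x`, `x + y`, `x - y` are in the
ball `Bl q ρ`.  `p` is a (global) subgradient of `f` at `y`: `f y + p ⬝ᵥ (x - y) ≤ f x` for all `x`.

`Bl.conv`: the ball is convex: if `x, y ∈ Bl q ρ`, `0 ≤ t ≤ 1` then `y + t (x - y) ∈ Bl q ρ`.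
Proof: with `a = x - q`, `b = y - q`: `|(1 - t) b + t a| ^ 2 ≤ (1 - t) |b| ^ 2 + t |a| ^ 2` (the
difference of the two sides is `t (1 - t) |a - b| ^ 2`).

`Bl.inner`: if `y ∈ Bl q (3 ρ)`, `0 < ρ` and `v` is any vector then `y - t v ∈ Bl q (4 ρ)` for all
sufficiently small `t ≥ 0`: there is `t₀ > 0` such that it holds for `0 ≤ t ≤ t₀`.
Proof: `|y - t v - q| ^ 2 ≤ (|y - q| + t |v|) ^ 2`; or: `|a - t v| ^ 2 = |a| ^ 2 - 2 t a·v + t ^ 2 |v| ^ 2`
with `|a| ^ 2 ≤ 9 ρ ^ 2`, and `t₀ = min 1 (ρ ^ 2 / (1 + 2 |a·v| + |v| ^ 2))`.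

`quad`.  Let `Pin f q (4 ρ) μ M`, `0 < ρ`, `x, y ∈ Bl q (3 ρ)` and `p` a subgradient at `y`.  Then
`f y + p ⬝ᵥ (x - y) + μ |x - y| ^ 2 ≤ f x ≤ f y + p ⬝ᵥ (x - y) + M |x - y| ^ 2`.
Proof.  Let `v = x - y`, `V = v ⬝ᵥ v`, `g t = f (y + t v) - f y - t (p ⬝ᵥ v) ≥ 0`, so `g 0 = 0`, and
`x = y + 1 • v`.  For `0 ≤ t ≤ 1 / 2` the points `y`, `y + t v`, `y + 2 t v` are in the ball
(`Bl.conv`), so (`Pin` at `y + t v` with `t v`)
`2 μ t ^ 2 V ≤ g (2 t) - 2 g t ≤ 2 M t ^ 2 V`.   (1)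
For small `t ≥ 0` also `y - t v` is in the ball (`Bl.inner`), so `g t + g (- t) ≤ 2 M t ^ 2 V` and, as
`g (- t) ≥ 0`, `0 ≤ g t ≤ 2 M t ^ 2 V`.   (2)
Put `G k = 4 ^ k * g (1 / 2 ^ k)`.  By (1) with `t = 1 / 2 ^ (k + 1)`:
`G (k + 1) / 2 + μ V / 2 ≤ G k ≤ G (k + 1) / 2 + M V / 2`.  By induction
`G k / 2 ^ k + μ V (1 - 1 / 2 ^ k) ≤ G 0 ≤ G k / 2 ^ k + M V (1 - 1 / 2 ^ k)`.  By (2)
`0 ≤ G k ≤ 2 M V` for large `k`; let `k → ∞` (`G k / 2 ^ k → 0`, `1 / 2 ^ k → 0`).  `G 0 = g 1`.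
(If `V = 0` then `x = y` and everything is trivial; `0 ≤ M V` follows from (1), no sign of `M` is
needed.)
-/

set_option autoImplicit false

namespace Pool.Agent.Lib.MP_8cf263_co

/-- Euclidean ball -/
def Bl {n : ℕ} (q : Fin n → ℝ) (ρ : ℝ) (x : Fin n → ℝ) : Prop := (x - q) ⬝ᵥ (x - q) ≤ ρ ^ 2

/-- pinched second differences on a ball -/
structure Pin {n : ℕ} (f : (Fin n → ℝ) → ℝ) (q : Fin n → ℝ) (ρ μ M : ℝ) : Prop where
  lo : ∀ x y, Bl q ρ x → Bl q ρ (x + y) → Bl q ρ (x - y) →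
    2 * μ * (y ⬝ᵥ y) ≤ f (x + y) + f (x - y) - 2 * f x
  up : ∀ x y, Bl q ρ x → Bl q ρ (x + y) → Bl q ρ (x - y) →
    f (x + y) + f (x - y) - 2 * f x ≤ 2 * M * (y ⬝ᵥ y)

private theorem dp_nonneg {n : ℕ} (v : Fin n → ℝ) : 0 ≤ v ⬝ᵥ v :=
  Finset.sum_nonneg fun i _ => mul_self_nonneg _

theorem Bl.conv {n : ℕ} {q x y : Fin n → ℝ} {ρ t : ℝ} (hx : Bl q ρ x) (hy : Bl q ρ y)
    (h0 : 0 ≤ t) (h1 : t ≤ 1) : Bl q ρ (y + t • (x - y)) := by
  unfold Bl at *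
  have e : (y + t • (x - y) - q) = (1 - t) • (y - q) + t • (x - q) := by
    ext i
    simp only [Pi.sub_apply, Pi.add_apply, Pi.smul_apply, smul_eq_mul]
    ring
  rw [e]
  generalize x - q = a at *
  generalize y - q = b at *
  have hc : a ⬝ᵥ b = b ⬝ᵥ a := dotProduct_comm _ _
  have h2 := dp_nonneg (a - b)
  simp only [sub_dotProduct, dotProduct_sub] at h2
  simp only [dotProduct_add, add_dotProduct, smul_dotProduct, dotProduct_smul, smul_eq_mul]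
  rw [hc] at h2 ⊢
  have h3 : 0 ≤ t * (1 - t) := mul_nonneg h0 (sub_nonneg.2 h1)
  have h4 := mul_nonneg h3 h2
  have h5 := mul_le_mul_of_nonneg_left hx h0
  have h6 := mul_le_mul_of_nonneg_left hy (sub_nonneg.2 h1)
  nlinarith

theorem Bl.inner {n : ℕ} {q y : Fin n → ℝ} {ρ : ℝ} (hρ : 0 < ρ) (hy : Bl q (3 * ρ) y)
    (v : Fin n → ℝ) : ∃ t₀ : ℝ, 0 < t₀ ∧ ∀ t : ℝ, 0 ≤ t → t ≤ t₀ → Bl q (4 * ρ) (y - t • v) := by
  unfold Bl at *
  have hV := dp_nonneg v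
  have hD : 0 < 1 + 2 * |(y - q) ⬝ᵥ v| + v ⬝ᵥ v := by
    have := abs_nonneg ((y - q) ⬝ᵥ v)
    linarith
  refine ⟨min 1 (ρ ^ 2 / (1 + 2 * |(y - q) ⬝ᵥ v| + v ⬝ᵥ v)), lt_min one_pos (by positivity),
    fun t h0 ht => ?_⟩
  have ht1 : t ≤ 1 := ht.trans (min_le_left _ _)
  have ht2 : t * (1 + 2 * |(y - q) ⬝ᵥ v| + v ⬝ᵥ v) ≤ ρ ^ 2 :=
    (le_div_iff₀ hD).1 (ht.trans (min_le_right _ _))
  have e : (y - t • v - q) = (y - q) - t • v := by
    ext i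
    simp only [Pi.sub_apply, Pi.smul_apply, smul_eq_mul]
    ring
  rw [e]
  generalize y - q = a at *
  have hc : v ⬝ᵥ a = a ⬝ᵥ v := dotProduct_comm _ _
  simp only [sub_dotProduct, dotProduct_sub, smul_dotProduct, dotProduct_smul, smul_eq_mul]
  rw [hc]
  have h1 : -(a ⬝ᵥ v) ≤ |a ⬝ᵥ v| := neg_le_abs _
  have h2 := mul_le_mul_of_nonneg_left h1 h0
  have h3 : t * t ≤ t * 1 := mul_le_mul_of_nonneg_left ht1 h0
  have h4 := mul_le_mul_of_nonneg_right h3 hV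
  nlinarith [sq_nonneg ρ]

private theorem Bl.mono' {n : ℕ} {q x : Fin n → ℝ} {ρ : ℝ} (hρ : 0 < ρ) (hx : Bl q (3 * ρ) x) :
    Bl q (4 * ρ) x := by
  unfold Bl at *
  nlinarith [sq_nonneg ρ]

theorem quad {n : ℕ} {f : (Fin n → ℝ) → ℝ} {q : Fin n → ℝ} {ρ μ M : ℝ} (hρ : 0 < ρ)
    (hf : Pin f q (4 * ρ) μ M) {x y p : Fin n → ℝ} (hx : Bl q (3 * ρ) x) (hy : Bl q (3 * ρ) y)
    (hp : ∀ z, f y + p ⬝ᵥ (z - y) ≤ f z) :
    f y + p ⬝ᵥ (x - y) + μ * ((x - y) ⬝ᵥ (x - y)) ≤ f x ∧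
      f x ≤ f y + p ⬝ᵥ (x - y) + M * ((x - y) ⬝ᵥ (x - y)) := by
  obtain ⟨t₀, ht₀, hin⟩ := Bl.inner hρ hy (x - y)
  have hb : ∀ s : ℝ, 0 ≤ s → s ≤ 1 → Bl q (4 * ρ) (y + s • (x - y)) := fun s h0 h1 =>
    Bl.mono' hρ (Bl.conv hx hy h0 h1)
  have hx1 : x = y + (1 : ℝ) • (x - y) := by
    rw [one_smul]
    abel
  obtain ⟨v, hv⟩ : ∃ v, v = x - y := ⟨_, rfl⟩
  rw [← hv] at hx1 ⊢
  simp only [← hv] at hb hin
  clear hv
  obtain ⟨V, hV⟩ : ∃ V, V = v ⬝ᵥ v := ⟨_, rfl⟩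
  obtain ⟨g, hg⟩ : ∃ g : ℝ → ℝ, ∀ t, g t = f (y + t • v) - f y - t * (p ⬝ᵥ v) := ⟨_, fun _ => rfl⟩
  have hg0 : ∀ t, 0 ≤ g t := by
    intro t
    have h := hp (y + t • v)
    rw [add_sub_cancel_left, dotProduct_smul, smul_eq_mul] at h
    rw [hg]
    linarith
  have hyy : y + (0 : ℝ) • v = y := by simp
  have h1 : ∀ t : ℝ, 0 ≤ t → t ≤ 1 / 2 →
      2 * μ * (t ^ 2 * V) ≤ g (2 * t) - 2 * g t ∧ g (2 * t) - 2 * g t ≤ 2 * M * (t ^ 2 * V) := by
    intro t h0 ht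
    have a1 := hb t h0 (by linarith)
    have a2 := hb (2 * t) (by linarith) (by linarith)
    have a3 := hb 0 le_rfl zero_le_one
    have e1 : (y + t • v) + t • v = y + (2 * t) • v := by
      rw [add_assoc, ← add_smul, two_mul]
    have e2 : (y + t • v) - t • v = y := by abel
    rw [hyy] at a3
    rw [← e1] at a2
    have a3' : Bl q (4 * ρ) ((y + t • v) - t • v) := by rwa [e2]
    have b1 := hf.lo _ _ a1 a2 a3'
    have b2 := hf.up _ _ a1 a2 a3'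
    rw [e1, e2] at b1 b2
    have e3 : (t • v) ⬝ᵥ (t • v) = t ^ 2 * V := by
      rw [smul_dotProduct, dotProduct_smul, smul_eq_mul, smul_eq_mul, hV]
      ring
    rw [e3] at b1 b2
    rw [hg, hg]
    constructor <;> linarith
  have h2 : ∀ t : ℝ, 0 ≤ t → t ≤ t₀ → t ≤ 1 → g t ≤ 2 * M * (t ^ 2 * V) := by
    intro t h0 ht ht1
    have a1 := hb 0 le_rfl zero_le_one
    rw [hyy] at a1
    have b2 := hf.up y (t • v) a1 (hb t h0 ht1) (hin t h0 ht)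
    have e3 : (t • v) ⬝ᵥ (t • v) = t ^ 2 * V := by
      rw [smul_dotProduct, dotProduct_smul, smul_eq_mul, smul_eq_mul, hV]
      ring
    rw [e3] at b2
    have h := hp (y - t • v)
    have e4 : y - t • v - y = (-t) • v := by
      rw [neg_smul]
      abel
    rw [e4, dotProduct_smul, smul_eq_mul] at h
    rw [hg]
    linarith
  have h3 : ∀ k : ℕ, 2 ^ k * g ((1 / 2) ^ k) + μ * V * (1 - (1 / 2) ^ k) ≤ g 1 ∧
      g 1 ≤ 2 ^ k * g ((1 / 2) ^ k) + M * V * (1 - (1 / 2) ^ k) := by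
    intro k
    induction k with
    | zero => simp
    | succ k ih =>
      have hk0 : (0 : ℝ) ≤ (1 / 2) ^ (k + 1) := by positivity
      have hk1 : ((1 : ℝ) / 2) ^ (k + 1) ≤ 1 / 2 := by
        rw [pow_succ]
        have : ((1 : ℝ) / 2) ^ k ≤ 1 := pow_le_one₀ (by norm_num) (by norm_num)
        linarith
      obtain ⟨b1, b2⟩ := h1 _ hk0 hk1
      have e1 : 2 * ((1 : ℝ) / 2) ^ (k + 1) = (1 / 2) ^ k := by
        rw [pow_succ]
        ring
      have e2 : (2 : ℝ) ^ k * ((1 / 2) ^ (k + 1)) ^ 2 * 2 = (1 / 2) ^ (k + 1) := by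
        have : (2 : ℝ) ^ k * (1 / 2) ^ k = 1 := by
          rw [← mul_pow]
          norm_num
        rw [pow_succ]
        linear_combination ((1 : ℝ) / 2) ^ k / 2 * this
      have e3 : (1 : ℝ) - (1 / 2) ^ (k + 1) = 1 - (1 / 2) ^ k + (1 / 2) ^ (k + 1) := by
        rw [pow_succ]
        ring
      rw [e1] at b1 b2
      have hk : (0 : ℝ) ≤ 2 ^ k := by positivity
      have c1 := mul_le_mul_of_nonneg_left b1 hk
      have c2 := mul_le_mul_of_nonneg_left b2 hk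
      have d1 : (2 : ℝ) ^ k * (2 * μ * (((1 / 2) ^ (k + 1)) ^ 2 * V)) =
          μ * V * (1 / 2) ^ (k + 1) := by
        linear_combination μ * V * e2
      have d2 : (2 : ℝ) ^ k * (2 * M * (((1 / 2) ^ (k + 1)) ^ 2 * V)) =
          M * V * (1 / 2) ^ (k + 1) := by
        linear_combination M * V * e2
      rw [d1] at c1
      rw [d2] at c2
      obtain ⟨i1, i2⟩ := ih
      rw [e3, pow_succ 2 k]
      constructor
      · nlinarith
      · nlinarith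
  have hlim : Filter.Tendsto (fun k : ℕ => ((1 : ℝ) / 2) ^ k) Filter.atTop (nhds 0) :=
    tendsto_pow_atTop_nhds_zero_of_lt_one (by norm_num) (by norm_num)
  have g1 : g 1 = f x - f y - p ⬝ᵥ v := by
    rw [hg, ← hx1, one_mul]
  have l1 : μ * V ≤ g 1 := by
    have hl : Filter.Tendsto (fun k : ℕ => μ * V * (1 - ((1 : ℝ) / 2) ^ k)) Filter.atTop
        (nhds (μ * V * (1 - 0))) := (tendsto_const_nhds.sub hlim).const_mul _
    rw [sub_zero, mul_one] at hl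
    refine le_of_tendsto' hl fun k => ?_
    have := (h3 k).1
    have h := hg0 ((1 / 2) ^ k)
    have hk : (0 : ℝ) ≤ 2 ^ k := by positivity
    have := mul_nonneg hk h
    linarith
  have l2 : g 1 ≤ M * V := by
    have hl : Filter.Tendsto (fun k : ℕ => M * V * (1 + ((1 : ℝ) / 2) ^ k)) Filter.atTop
        (nhds (M * V * (1 + 0))) := (tendsto_const_nhds.add hlim).const_mul _
    rw [add_zero, mul_one] at hl
    refine ge_of_tendsto hl ?_
    filter_upwards [hlim.eventually_lt_const ht₀] with k hk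
    have a0 : (0 : ℝ) ≤ (1 / 2) ^ k := by positivity
    have a1 : ((1 : ℝ) / 2) ^ k ≤ 1 := pow_le_one₀ (by norm_num) (by norm_num)
    have b := h2 _ a0 hk.le a1
    have c := (h3 k).2
    have hk : (0 : ℝ) ≤ 2 ^ k := by positivity
    have d := mul_le_mul_of_nonneg_left b hk
    have e2 : (2 : ℝ) ^ k * ((1 / 2) ^ k) ^ 2 = (1 / 2) ^ k := by
      have : (2 : ℝ) ^ k * (1 / 2) ^ k = 1 := by
        rw [← mul_pow]
        norm_num
      linear_combination ((1 : ℝ) / 2) ^ k * this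
    have d2 : (2 : ℝ) ^ k * (2 * M * (((1 / 2) ^ k) ^ 2 * V)) = 2 * (M * V * (1 / 2) ^ k) := by
      linear_combination 2 * M * V * e2
    rw [d2] at d
    linarith
  rw [← hV]
  constructor <;> linarith

end Pool.Agent.Lib.MP_8cf263_co
end
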