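import Pool.Agent.Lib.MP_8cf263_co.RdDefs
import Pool.Agent.Lib.MP_8cf263_co.RsHalve

section

/-!
# Round sets, file RdCm: functions on the plane with bounded second differences, column minima

Let `h : SD2 Φ μ M` and `b ≤ Φ x y` for all `x`, `y`; `cm Φ x = ⨅ y, Φ x y`.

`cm_le`: `cm Φ x ≤ Φ x y` (`ciInf_le`).  `le_cm`: a lower bound of column `x` is `≤ cm Φ x`
(`le_ciInf`).  `cm_near`: for `0 < ε` there is `y` with `Φ x y < cm Φ x + ε`
(`exists_lt_of_ciInf_lt`).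

`SD2.col`, `SD2.row`: the restrictions to columns and rows satisfy `SD1` (take `u = 0`, resp.
`v = 0`).

`SD2.cmSD`: `cm Φ` satisfies `SD1`.
Proof of `lo`: for every `ε > 0` choose `y₁`, `y₂` with `Φ (x + y) y₁ ≤ cm Φ (x + y) + ε` and
`Φ (x - y) y₂ ≤ cm Φ (x - y) + ε`; by `h.lo` at `(x, (y₁ + y₂) / 2)` with `(u, v) = (y, (y₁ - y₂) / 2)`:
`Φ (x + y) y₁ + Φ (x - y) y₂ ≥ 2 Φ x ((y₁ + y₂) / 2) + 2 μ (y ^ 2 + v ^ 2) ≥ 2 cm Φ x + 2 μ y ^ 2`
(`0 ≤ μ`).  Let `ε → 0`.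
Proof of `up`: choose `z` with `Φ x z ≤ cm Φ x + ε`; then
`cm Φ (x + y) + cm Φ (x - y) ≤ Φ (x + y) z + Φ (x - y) z ≤ 2 Φ x z + 2 M y ^ 2`.

`SD2.refl`: `(x, y) ↦ Φ (- x) y` satisfies `SD2` as well.

`SD2.pair`: if `Φ x y ≤ T` and `Φ x' y' ≤ T` then `μ ((x - x') ^ 2 + (y - y') ^ 2) ≤ 4 (T - b)`
(`h.lo` at the midpoint with half the difference).

`SD2.half`: `Φ ((x + x') / 2) ((y + y') / 2) ≤ (Φ x y + Φ x' y') / 2` if `0 ≤ μ`.
`SD2.dyadic`: `Φ (x + (x' - x) / 2 ^ k) (y + (y' - y) / 2 ^ k) ≤ Φ x y + (Φ x' y' - Φ x y) / 2 ^ k`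
by induction on `k`, using `SD2.half` for `(x, y)` and the point number `k`.

`SD2.para`: `Φ (x + p + q) (y + p' + q') ≤ Φ (x + p) (y + p') + Φ (x + q) (y + q') - Φ x y +
M ((p + q) ^ 2 + (p' + q') ^ 2) / 2` if `0 ≤ μ`.
Proof.  Let `P = (x + (p + q) / 2, y + (p' + q') / 2)`.  `h.up P ((p + q) / 2) ((p' + q') / 2)`:
`Φ (x + p + q) (..) + Φ x y ≤ 2 Φ P + M ((p + q) ^ 2 + (p' + q') ^ 2) / 2`, and
`h.lo P ((p - q) / 2) ((p' - q') / 2)`: `Φ (x + p) (..) + Φ (x + q) (..) ≥ 2 Φ P`.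
-/

set_option autoImplicit false

namespace Pool.Agent.Lib.MP_8cf263_co

variable {Φ : ℝ → ℝ → ℝ} {μ M b T : ℝ}

theorem cm_le (hb : ∀ x y, b ≤ Φ x y) (x y : ℝ) : cm Φ x ≤ Φ x y := by
  unfold cm
  exact ciInf_le ⟨b, by rintro _ ⟨z, rfl⟩; exact hb x z⟩ y

theorem le_cm {x a : ℝ} (ha : ∀ y, a ≤ Φ x y) : a ≤ cm Φ x := by
  unfold cm
  exact le_ciInf ha

theorem cm_near (x : ℝ) {ε : ℝ} (hε : 0 < ε) : ∃ y, Φ x y < cm Φ x + ε := by
  have h : (⨅ y, Φ x y) < cm Φ x + ε := by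
    unfold cm
    linarith
  exact exists_lt_of_ciInf_lt h

theorem SD2.col (h : SD2 Φ μ M) (x : ℝ) : SD1 (fun y => Φ x y) μ M := by
  refine ⟨fun y v => ?_, fun y v => ?_⟩
  · have h1 := h.lo x y 0 v
    simp only [add_zero, sub_zero] at h1
    nlinarith
  · have h1 := h.up x y 0 v
    simp only [add_zero, sub_zero] at h1
    nlinarith

theorem SD2.row (h : SD2 Φ μ M) (y : ℝ) : SD1 (fun x => Φ x y) μ M := by
  refine ⟨fun x u => ?_, fun x u => ?_⟩
  · have h1 := h.lo x y u 0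
    simp only [add_zero, sub_zero] at h1
    nlinarith
  · have h1 := h.up x y u 0
    simp only [add_zero, sub_zero] at h1
    nlinarith

theorem SD2.cmSD (h : SD2 Φ μ M) (hμ : 0 ≤ μ) (hb : ∀ x y, b ≤ Φ x y) : SD1 (cm Φ) μ M := by
  refine ⟨fun x y => ?_, fun x y => ?_⟩
  · refine le_of_forall_pos_le_add fun ε hε => ?_
    obtain ⟨y₁, h1⟩ := cm_near (Φ := Φ) (x + y) (half_pos hε)
    obtain ⟨y₂, h2⟩ := cm_near (Φ := Φ) (x - y) (half_pos hε)
    have h3 := h.lo x ((y₁ + y₂) / 2) y ((y₁ - y₂) / 2)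
    have e1 : (y₁ + y₂) / 2 + (y₁ - y₂) / 2 = y₁ := by ring
    have e2 : (y₁ + y₂) / 2 - (y₁ - y₂) / 2 = y₂ := by ring
    rw [e1, e2] at h3
    have h4 := cm_le hb x ((y₁ + y₂) / 2)
    have h5 : 0 ≤ μ * ((y₁ - y₂) / 2) ^ 2 := mul_nonneg hμ (sq_nonneg _)
    nlinarith
  · refine le_of_forall_pos_le_add fun ε hε => ?_
    obtain ⟨z, h1⟩ := cm_near (Φ := Φ) x (half_pos hε)
    have h2 := h.up x z y 0
    simp only [add_zero, sub_zero] at h2
    have h3 := cm_le hb (x + y) z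
    have h4 := cm_le hb (x - y) z
    nlinarith

theorem SD2.refl (h : SD2 Φ μ M) : SD2 (fun x y => Φ (-x) y) μ M := by
  refine ⟨fun x y u v => ?_, fun x y u v => ?_⟩
  · have h1 := h.lo (-x) y (-u) v
    have e1 : -x + -u = -(x + u) := by ring
    have e2 : -x - -u = -(x - u) := by ring
    rw [e1, e2, neg_sq] at h1
    exact h1
  · have h1 := h.up (-x) y (-u) v
    have e1 : -x + -u = -(x + u) := by ring
    have e2 : -x - -u = -(x - u) := by ring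
    rw [e1, e2, neg_sq] at h1
    exact h1

theorem SD2.pair (h : SD2 Φ μ M) (hb : ∀ x y, b ≤ Φ x y) {x y x' y' : ℝ} (hs : Φ x y ≤ T)
    (ht : Φ x' y' ≤ T) : μ * ((x - x') ^ 2 + (y - y') ^ 2) ≤ 4 * (T - b) := by
  have h1 := h.lo ((x + x') / 2) ((y + y') / 2) ((x - x') / 2) ((y - y') / 2)
  have e1 : (x + x') / 2 + (x - x') / 2 = x := by ring
  have e2 : (x + x') / 2 - (x - x') / 2 = x' := by ring
  have e3 : (y + y') / 2 + (y - y') / 2 = y := by ring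
  have e4 : (y + y') / 2 - (y - y') / 2 = y' := by ring
  rw [e1, e2, e3, e4] at h1
  have h2 := hb ((x + x') / 2) ((y + y') / 2)
  nlinarith

theorem SD2.half (h : SD2 Φ μ M) (hμ : 0 ≤ μ) (x y x' y' : ℝ) :
    Φ ((x + x') / 2) ((y + y') / 2) ≤ (Φ x y + Φ x' y') / 2 := by
  have h1 := h.lo ((x + x') / 2) ((y + y') / 2) ((x - x') / 2) ((y - y') / 2)
  have e1 : (x + x') / 2 + (x - x') / 2 = x := by ring
  have e2 : (x + x') / 2 - (x - x') / 2 = x' := by ring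
  have e3 : (y + y') / 2 + (y - y') / 2 = y := by ring
  have e4 : (y + y') / 2 - (y - y') / 2 = y' := by ring
  rw [e1, e2, e3, e4] at h1
  have h2 : 0 ≤ μ * (((x - x') / 2) ^ 2 + ((y - y') / 2) ^ 2) :=
    mul_nonneg hμ (add_nonneg (sq_nonneg _) (sq_nonneg _))
  nlinarith

theorem SD2.dyadic (h : SD2 Φ μ M) (hμ : 0 ≤ μ) (x y x' y' : ℝ) (k : ℕ) :
    Φ (x + (x' - x) / 2 ^ k) (y + (y' - y) / 2 ^ k) ≤ Φ x y + (Φ x' y' - Φ x y) / 2 ^ k := by
  induction k with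
  | zero => simp
  | succ k ih =>
    have h1 := h.half hμ x y (x + (x' - x) / 2 ^ k) (y + (y' - y) / 2 ^ k)
    have e1 : (x + (x + (x' - x) / 2 ^ k)) / 2 = x + (x' - x) / 2 ^ (k + 1) := by
      rw [pow_succ]
      field_simp
      ring
    have e2 : (y + (y + (y' - y) / 2 ^ k)) / 2 = y + (y' - y) / 2 ^ (k + 1) := by
      rw [pow_succ]
      field_simp
      ring
    have e3 : (Φ x' y' - Φ x y) / 2 ^ (k + 1) = (Φ x' y' - Φ x y) / 2 ^ k / 2 := by
      rw [pow_succ]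
      field_simp
    rw [e1, e2] at h1
    rw [e3]
    linarith

theorem SD2.para (h : SD2 Φ μ M) (hμ : 0 ≤ μ) (x y p p' q q' : ℝ) :
    Φ (x + p + q) (y + p' + q') ≤ Φ (x + p) (y + p') + Φ (x + q) (y + q') - Φ x y +
      M * ((p + q) ^ 2 + (p' + q') ^ 2) / 2 := by
  have h1 := h.up (x + (p + q) / 2) (y + (p' + q') / 2) ((p + q) / 2) ((p' + q') / 2)
  have h2 := h.lo (x + (p + q) / 2) (y + (p' + q') / 2) ((p - q) / 2) ((p' - q') / 2)
  have e1 : x + (p + q) / 2 + (p + q) / 2 = x + p + q := by ring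
  have e2 : y + (p' + q') / 2 + (p' + q') / 2 = y + p' + q' := by ring
  have e3 : x + (p + q) / 2 - (p + q) / 2 = x := by ring
  have e4 : y + (p' + q') / 2 - (p' + q') / 2 = y := by ring
  have e5 : x + (p + q) / 2 + (p - q) / 2 = x + p := by ring
  have e6 : y + (p' + q') / 2 + (p' - q') / 2 = y + p' := by ring
  have e7 : x + (p + q) / 2 - (p - q) / 2 = x + q := by ring
  have e8 : y + (p' + q') / 2 - (p' - q') / 2 = y + q' := by ring
  rw [e1, e2, e3, e4] at h1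
  rw [e5, e6, e7, e8] at h2
  have h3 : 0 ≤ μ * (((p - q) / 2) ^ 2 + ((p' - q') / 2) ^ 2) :=
    mul_nonneg hμ (add_nonneg (sq_nonneg _) (sq_nonneg _))
  nlinarith

end Pool.Agent.Lib.MP_8cf263_co
end

section

/-!
# Round sets, file RdFr: unimodular frames of the plane of the last two coordinates

`Fr` lemmas: `w`, `e` vanish in the coordinates below `m`; `g e = 0`, `g w = 1`; `e` is primitive;
vectors `x, y` which agree below `m` and have the same `g` differ by a multiple of `e`; if they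
agree below `m` then `y = x + (g y - g x) • w + t • e`.

Proof of the last one: for `d = y - x` (only the coordinates `iu m`, `iv m` can be non-zero, all
`i : Fin (m + 2)` with `¬ i.1 < m` are `iu m` or `iv m`) put
`t = ep * (p1 * d (iv m) - p2 * d (iu m))`; then `g d * p1 + t * q1 = d (iu m) * ep * (p1 q2 - p2 q1)
= d (iu m)` and similarly for the other coordinate (`ep ^ 2 = 1` is not even needed).
Primitive: if `k ∣ q1` and `k ∣ q2` then `k ∣ ep * (p1 q2 - p2 q1) = 1`.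
-/

set_option autoImplicit false

namespace Pool.Agent.Lib.MP_8cf263_co

open Finset

private theorem iv_ne_iu (m : ℕ) : iv m ≠ iu m := by
  intro h
  have := congrArg Fin.val h
  simp [iv, iu] at this

private theorem Fr.w_iu (F : Fr) (m : ℕ) : F.w m (iu m) = F.p1 := by
  simp [Fr.w, (iv_ne_iu m).symm]

private theorem Fr.w_iv (F : Fr) (m : ℕ) : F.w m (iv m) = F.p2 := by
  simp [Fr.w, iv_ne_iu m]

private theorem Fr.e_iu (F : Fr) (m : ℕ) : F.e m (iu m) = F.q1 := by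
  simp [Fr.e, (iv_ne_iu m).symm]

private theorem Fr.e_iv (F : Fr) (m : ℕ) : F.e m (iv m) = F.q2 := by
  simp [Fr.e, iv_ne_iu m]

private theorem ne_low {m : ℕ} {i : Fin (m + 2)} (hi : i.1 < m) : i ≠ iu m ∧ i ≠ iv m := by
  constructor
  · intro h
    have := congrArg Fin.val h
    simp [iu] at this
    omega
  · intro h
    have := congrArg Fin.val h
    simp [iv] at this
    omega

private theorem low_or {m : ℕ} (i : Fin (m + 2)) : i.1 < m ∨ i = iu m ∨ i = iv m := by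
  have := i.2
  rcases Nat.lt_or_ge i.1 m with h | h
  · exact Or.inl h
  · rcases Nat.eq_or_lt_of_le h with h1 | h1
    · exact Or.inr (Or.inl (Fin.ext h1.symm))
    · exact Or.inr (Or.inr (Fin.ext (by simp [iv]; omega)))

theorem Fr.low_w (F : Fr) {m : ℕ} {i : Fin (m + 2)} (hi : i.1 < m) : F.w m i = 0 := by
  simp [Fr.w, (ne_low hi).1, (ne_low hi).2]

theorem Fr.low_e (F : Fr) {m : ℕ} {i : Fin (m + 2)} (hi : i.1 < m) : F.e m i = 0 := by
  simp [Fr.e, (ne_low hi).1, (ne_low hi).2]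

theorem Fr.g_add (F : Fr) {m : ℕ} (x y : Fin (m + 2) → ℤ) : F.g m (x + y) = F.g m x + F.g m y := by
  simp only [Fr.g, Pi.add_apply]
  ring

theorem Fr.g_smul (F : Fr) {m : ℕ} (t : ℤ) (x : Fin (m + 2) → ℤ) :
    F.g m (t • x) = t * F.g m x := by
  simp only [Fr.g, Pi.smul_apply, smul_eq_mul]
  ring

theorem Fr.g_e (F : Fr) (m : ℕ) : F.g m (F.e m) = 0 := by
  simp only [Fr.g, Fr.e_iu, Fr.e_iv]
  ring

theorem Fr.g_w (F : Fr) (m : ℕ) : F.g m (F.w m) = 1 := by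
  simp only [Fr.g, Fr.w_iu, Fr.w_iv]
  exact F.det

theorem Fr.prim (F : Fr) (m : ℕ) : Pr (F.e m) := by
  intro d hd
  have h1 := hd (iu m)
  have h2 := hd (iv m)
  rw [Fr.e_iu] at h1
  rw [Fr.e_iv] at h2
  refine isUnit_of_dvd_one ?_
  rw [← F.det]
  exact Dvd.dvd.mul_left (dvd_sub (Dvd.dvd.mul_left h2 _) (Dvd.dvd.mul_left h1 _)) _

theorem Fr.coord (F : Fr) {m : ℕ} {x y : Fin (m + 2) → ℤ}
    (h : ∀ i : Fin (m + 2), i.1 < m → x i = y i) :
    ∃ t : ℤ, y = x + (F.g m y - F.g m x) • F.w m + t • F.e m := by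
  refine ⟨F.ep * (F.p1 * (y (iv m) - x (iv m)) - F.p2 * (y (iu m) - x (iu m))), ?_⟩
  funext i
  have hd := F.det
  rcases low_or i with hi | rfl | rfl
  · simp [F.low_w hi, F.low_e hi, h i hi]
  · simp only [Pi.add_apply, Pi.smul_apply, smul_eq_mul, Fr.w_iu, Fr.e_iu, Fr.g]
    linear_combination (-(y (iu m) - x (iu m))) * hd
  · simp only [Pi.add_apply, Pi.smul_apply, smul_eq_mul, Fr.w_iv, Fr.e_iv, Fr.g]
    linear_combination (-(y (iv m) - x (iv m))) * hd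

theorem Fr.line (F : Fr) {m : ℕ} {x y : Fin (m + 2) → ℤ}
    (h : ∀ i : Fin (m + 2), i.1 < m → x i = y i) (hg : F.g m x = F.g m y) :
    ∃ t : ℤ, y = x + t • F.e m := by
  obtain ⟨t, ht⟩ := F.coord h
  refine ⟨t, ?_⟩
  rw [hg, sub_self, zero_smul, add_zero] at ht
  exact ht

/-- every entry of `w` and `e` is bounded -/
theorem Fr.bd (F : Fr) {m : ℕ} {Q : ℤ} (hQ : F.Le Q) (i : Fin (m + 2)) :
    |F.w m i| ≤ Q ∧ |F.e m i| ≤ Q := by
  obtain ⟨h1, h2, h3, h4⟩ := hQ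
  have h0 : (0 : ℤ) ≤ Q := (abs_nonneg _).trans h1
  rcases low_or i with hi | rfl | rfl
  · simp [F.low_w hi, F.low_e hi, h0]
  · rw [Fr.w_iu, Fr.e_iu]
    exact ⟨h1, h3⟩
  · rw [Fr.w_iv, Fr.e_iv]
    exact ⟨h2, h4⟩

/-- `g` is bounded on vectors with bounded coordinates -/
theorem Fr.g_bd (F : Fr) {m : ℕ} {Q d : ℤ} (hQ : F.Le Q) {x : Fin (m + 2) → ℤ}
    (hx : ∀ i, |x i| ≤ d) : |F.g m x| ≤ 2 * Q * d := by
  obtain ⟨h1, h2, h3, h4⟩ := hQ
  have h0 : (0 : ℤ) ≤ Q := (abs_nonneg _).trans h1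
  have h5 : |F.ep| = 1 := by
    rcases F.hep with h | h <;> simp [h]
  unfold Fr.g
  rw [abs_mul, h5, one_mul]
  have h6 : |x (iu m) * F.q2| ≤ d * Q := by
    rw [abs_mul]
    exact mul_le_mul (hx _) h4 (abs_nonneg _) ((abs_nonneg _).trans (hx (iu m)))
  have h7 : |x (iv m) * F.q1| ≤ d * Q := by
    rw [abs_mul]
    exact mul_le_mul (hx _) h3 (abs_nonneg _) ((abs_nonneg _).trans (hx (iu m)))
  calc |x (iu m) * F.q2 - x (iv m) * F.q1| ≤ |x (iu m) * F.q2| + |x (iv m) * F.q1| := abs_sub _ _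
    _ ≤ d * Q + d * Q := add_le_add h6 h7
    _ = 2 * Q * d := by ring

end Pool.Agent.Lib.MP_8cf263_co
end

section

/-!
# Round sets, file RdLine: lines, the sum over visible points

`LC.line`: a convex lattice set meets a line in an interval.

Proof.  The set of `t` with `x + t • e ∈ K` is finite (it is the preimage of a finite set under an
injective map; choose a coordinate with `e i ≠ 0`); if it is empty take `α = 1`, `β = 0`; otherwise
let `α`, `β` be its minimum and maximum and use `LC.seg0` (file Fibre).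

`Tw.sum_zero`: for a visible sum `s` (i.e. `s - c` primitive)
`∑ (1_K - 1_L)(x) (1_K + 1_L)(s - x) = 0`, the sum over `x ∈ K ∪ L`.

Proof.  Expanding, the sum is `A - B + C - D` with
`A = ∑ ind K x * ind K (s - x)`, `B = ∑ ind L x * ind L (s - x)`,
`C = ∑ ind K x * ind L (s - x)`, `D = ∑ ind L x * ind K (s - x)`.
`A` is the number of `x ∈ K` with `s - x ∈ K`; by the symmetry `y ↦ c - y` of `K` this is the number
of `x ∈ K` with `x - (s - c) ∈ K`, i.e. (shift by `s - c`) `(fol K (s - c)).card`; similarly for `B`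
and `L`; so `A = B` by `Tw.cnt`.  `C` is the number of `x` with `x ∈ K`, `s - x ∈ L`, and `D` the
number of `x` with `x ∈ L`, `s - x ∈ K`; the map `x ↦ s - x` is a bijection between them.

-/

set_option autoImplicit false

namespace Pool.Agent.Lib.MP_8cf263_co

open Finset

theorem LC.line {n : ℕ} {K : Finset (Fin n → ℤ)} (hK : LC K) {e : Fin n → ℤ} (he : e ≠ 0)
    (x : Fin n → ℤ) : ∃ α β : ℤ, ∀ t : ℤ, x + t • e ∈ K ↔ α ≤ t ∧ t ≤ β := by
  classical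
  obtain ⟨i, hi⟩ := Function.ne_iff.1 he
  have hi' : e i ≠ 0 := hi
  have hinj : Function.Injective fun t : ℤ => x + t • e := by
    intro t t' h
    have h1 := congrFun h i
    simp only [Pi.add_apply, Pi.smul_apply, smul_eq_mul] at h1
    have h2 : t * e i = t' * e i := by linarith
    exact mul_right_cancel₀ hi' h2
  have hfin : {t : ℤ | x + t • e ∈ K}.Finite := K.finite_toSet.preimage hinj.injOn
  by_cases hne : hfin.toFinset.Nonempty
  · have h1 := hfin.toFinset.min'_mem hne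
    have h2 := hfin.toFinset.max'_mem hne
    rw [Set.Finite.mem_toFinset] at h1 h2
    refine ⟨hfin.toFinset.min' hne, hfin.toFinset.max' hne, fun t => ⟨fun ht => ?_, fun ht => ?_⟩⟩
    · have h3 : t ∈ hfin.toFinset := by
        rw [Set.Finite.mem_toFinset]
        exact ht
      exact ⟨hfin.toFinset.min'_le t h3, hfin.toFinset.le_max' t h3⟩
    · exact hK.seg0 h1 h2 ht.1 ht.2
  · refine ⟨1, 0, fun t => ⟨fun ht => ?_, fun ht => by omega⟩⟩
    exfalso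
    apply hne
    refine ⟨t, ?_⟩
    rw [Set.Finite.mem_toFinset]
    exact ht

private theorem ind_sum {n : ℕ} (A B U : Finset (Fin n → ℤ)) (hU : A ⊆ U) (s : Fin n → ℤ) :
    ∑ x ∈ U, ind A x * ind B (s - x) = ((A.filter fun x => s - x ∈ B).card : ℤ) := by
  classical
  have h1 : ∀ x, ind A x * ind B (s - x) = if x ∈ A ∧ s - x ∈ B then (1 : ℤ) else 0 := by
    intro x
    unfold ind
    by_cases h1 : x ∈ A <;> by_cases h2 : s - x ∈ B <;> simp [h1, h2]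
  rw [Finset.sum_congr rfl fun x _ => h1 x, Finset.sum_boole]
  congr 2
  ext x
  rw [mem_filter, mem_filter]
  constructor
  · rintro ⟨_, h2, h3⟩
    exact ⟨h2, h3⟩
  · rintro ⟨h2, h3⟩
    exact ⟨hU h2, h2, h3⟩

private theorem fol_card {n : ℕ} (K : Finset (Fin n → ℤ)) (c s : Fin n → ℤ)
    (hK : ∀ x, x ∈ K ↔ c - x ∈ K) :
    (K.filter fun x => s - x ∈ K).card = (fol K (s - c)).card := by
  classical
  refine Finset.card_bij' (fun x _ => x - (s - c)) (fun x _ => x + (s - c)) ?_ ?_ ?_ ?_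
  · intro x hx
    rw [mem_filter] at hx
    unfold fol
    rw [mem_filter]
    refine ⟨?_, ?_⟩
    · rw [hK]
      have : c - (x - (s - c)) = s - x := by abel
      rw [this]
      exact hx.2
    · have : x - (s - c) + (s - c) = x := by abel
      rw [this]
      exact hx.1
  · intro x hx
    unfold fol at hx
    rw [mem_filter] at hx
    rw [mem_filter]
    refine ⟨hx.2, ?_⟩
    have : s - (x + (s - c)) = c - x := by abel
    rw [this, ← hK]
    exact hx.1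
  · intro x _
    abel
  · intro x _
    abel

theorem Tw.sum_zero {n : ℕ} {K L : Finset (Fin n → ℤ)} {c : Fin n → ℤ} (h : Tw K L c)
    {s : Fin n → ℤ} (hs : Pr (s - c)) :
    ∑ x ∈ K ∪ L, (ind K x - ind L x) * (ind K (s - x) + ind L (s - x)) = 0 := by
  classical
  have h1 : ∀ x, (ind K x - ind L x) * (ind K (s - x) + ind L (s - x)) =
      ind K x * ind K (s - x) - ind L x * ind L (s - x) +
      (ind K x * ind L (s - x) - ind L x * ind K (s - x)) := fun x => by ring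
  rw [Finset.sum_congr rfl fun x _ => h1 x, Finset.sum_add_distrib, Finset.sum_sub_distrib,
    Finset.sum_sub_distrib, ind_sum K K _ subset_union_left, ind_sum L L _ subset_union_right,
    ind_sum K L _ subset_union_left, ind_sum L K _ subset_union_right, fol_card K c s h.sK,
    fol_card L c s h.sL, h.cnt _ hs]
  have h2 : (K.filter fun x => s - x ∈ L).card = (L.filter fun x => s - x ∈ K).card := by
    refine Finset.card_bij' (fun x _ => s - x) (fun x _ => s - x) ?_ ?_ ?_ ?_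
    · intro x hx
      rw [mem_filter] at hx ⊢
      refine ⟨hx.2, ?_⟩
      rw [sub_sub_cancel]
      exact hx.1
    · intro x hx
      rw [mem_filter] at hx ⊢
      refine ⟨hx.2, ?_⟩
      rw [sub_sub_cancel]
      exact hx.1
    · intro x _
      abel
    · intro x _
      abel
  rw [h2]
  ring

end Pool.Agent.Lib.MP_8cf263_co
end

section

/-!
# Round sets, file RdMarg: marginal minima of functions with bounded second differences

Let `h : SDn Φ μ M`, `b ≤ Φ x` for all `x`; `mix k x y` has the coordinates `< k` of `x` and the other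
coordinates of `y`; `mg Φ k x = ⨅ y, Φ (mix k x y)`.

`mg_le`: `mg Φ k x ≤ Φ (mix k x y)` (`ciInf_le`).
`mg_self`: `mg Φ k x ≤ Φ x'` if `x i = x' i` for all `i` with `i.1 < k` (`mix k x x' = x'`).
`le_mg`: if `a ≤ Φ y` for all `y` with `y i = x i` (`i.1 < k`) then `a ≤ mg Φ k x`.
`mg_near`: for `0 < ε` there is `y` with `y i = x i` for `i.1 < k` and `Φ y < mg Φ k x + ε`.
`mg_congr`: `mg Φ k x = mg Φ k x'` if `x i = x' i` for `i.1 < k`.
`mg_zero`: `mg Φ 0 x = mg Φ 0 x'`, `mg_mono`: `mg Φ 0 x ≤ mg Φ k x'`.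

`mg_SD1`: for `j` with `j.1 = k` the function `φ t = mg Φ (k + 1) (Function.update x j t)` satisfies
`SD1 φ μ M`.
Proof of `lo` (for `t`, `s`): for every `ε > 0` choose (`mg_near`) `y₁`, `y₂` which agree with
`Function.update x j (t + s)`, resp. `Function.update x j (t - s)`, in the coordinates `< k + 1` and
`Φ y₁ < φ (t + s) + ε`, `Φ y₂ < φ (t - s) + ε`.  The midpoint `z = (1/2) (y₁ + y₂)` agrees with
`Function.update x j t` in the coordinates `< k + 1`, and `v = (1/2) (y₁ - y₂)` has `v j = s`.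
`h.lo z v`: `Φ y₁ + Φ y₂ ≥ 2 Φ z + 2 μ (v ⬝ᵥ v) ≥ 2 φ t + 2 μ s ^ 2` (`0 ≤ μ`,
`v ⬝ᵥ v ≥ v j ^ 2`).
Proof of `up`: choose `y` agreeing with `Function.update x j t` in the coordinates `< k + 1` with
`Φ y < φ t + ε`; `y ± s • Pi.single j 1` agree with `Function.update x j (t ± s)` there;
`h.up y (s • Pi.single j 1)`.

`mg_inf`: `mg Φ k x ≤ φ t` and for `0 < ε` there is `t` with `φ t < mg Φ k x + ε`.
Proof: `Function.update x j t` agrees with `x` below `k` (`le_mg`, `mg_self`); for the second claim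
choose `y` as in `mg_near` for `k` and take `t = y j`.

`mg_pair`: if `x`, `y` agree in the coordinates `< k`, `Φ x ≤ T` and `Φ y ≤ T` then
`μ (x i - y i) ^ 2 ≤ 4 (T - mg Φ k x)` for all `i`.
Proof: `h.lo z v` with `z = (1/2) (x + y)`, `v = (1/2) (x - y)`: `z` agrees with `x` below `k`, so
`2 T ≥ Φ x + Φ y ≥ 2 mg Φ k x + 2 μ (v ⬝ᵥ v)` and `v ⬝ᵥ v ≥ (x i - y i) ^ 2 / 4`.
-/

set_option autoImplicit false

namespace Pool.Agent.Lib.MP_8cf263_co

variable {n : ℕ} {Φ : (Fin n → ℝ) → ℝ} {μ M b T : ℝ}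

private theorem mg_bdd (hb : ∀ x, b ≤ Φ x) (k : ℕ) (x : Fin n → ℝ) :
    BddBelow (Set.range fun y => Φ (mix k x y)) :=
  ⟨b, by
    rintro _ ⟨y, rfl⟩
    exact hb _⟩

private theorem mix_of_agree {k : ℕ} {x y : Fin n → ℝ} (hx : ∀ i : Fin n, i.1 < k → x i = y i) :
    mix k x y = y := by
  funext i
  unfold mix
  split_ifs with h
  · exact hx i h
  · rfl

theorem mg_le (hb : ∀ x, b ≤ Φ x) (k : ℕ) (x y : Fin n → ℝ) : mg Φ k x ≤ Φ (mix k x y) :=
  ciInf_le (mg_bdd hb k x) y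

theorem mg_self (hb : ∀ x, b ≤ Φ x) {k : ℕ} {x x' : Fin n → ℝ}
    (hx : ∀ i : Fin n, i.1 < k → x i = x' i) : mg Φ k x ≤ Φ x' := by
  have h := mg_le hb k x x'
  rwa [mix_of_agree hx] at h

theorem le_mg {k : ℕ} {x : Fin n → ℝ} {a : ℝ}
    (ha : ∀ y : Fin n → ℝ, (∀ i : Fin n, i.1 < k → y i = x i) → a ≤ Φ y) : a ≤ mg Φ k x := by
  refine le_ciInf fun y => ha _ fun i hi => ?_
  unfold mix
  rw [if_pos hi]

theorem mg_near (k : ℕ) (x : Fin n → ℝ) {ε : ℝ} (hε : 0 < ε) :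
    ∃ y : Fin n → ℝ, (∀ i : Fin n, i.1 < k → y i = x i) ∧ Φ y < mg Φ k x + ε := by
  have h1 : mg Φ k x < mg Φ k x + ε := by linarith
  obtain ⟨y, hy⟩ := exists_lt_of_ciInf_lt (f := fun y => Φ (mix k x y)) h1
  refine ⟨mix k x y, fun i hi => ?_, hy⟩
  unfold mix
  rw [if_pos hi]

theorem mg_congr {k : ℕ} {x x' : Fin n → ℝ} (hx : ∀ i : Fin n, i.1 < k → x i = x' i) :
    mg Φ k x = mg Φ k x' := by
  have h1 : ∀ y, mix k x y = mix k x' y := by
    intro y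
    funext i
    unfold mix
    split_ifs with h
    · exact hx i h
    · rfl
  unfold mg
  exact iInf_congr fun y => by rw [h1]

theorem mg_zero (x x' : Fin n → ℝ) : mg Φ 0 x = mg Φ 0 x' :=
  mg_congr fun _ hi => absurd hi (Nat.not_lt_zero _)

theorem mg_mono (hb : ∀ x, b ≤ Φ x) (k : ℕ) (x x' : Fin n → ℝ) : mg Φ 0 x ≤ mg Φ k x' :=
  le_mg fun _ _ => mg_self hb fun _ hi => absurd hi (Nat.not_lt_zero _)

private theorem sq_le_dot (v : Fin n → ℝ) (j : Fin n) : (v j) ^ 2 ≤ v ⬝ᵥ v := by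
  have h1 : v j * v j ≤ ∑ i, v i * v i :=
    Finset.single_le_sum (f := fun i => v i * v i) (fun i _ => mul_self_nonneg (v i))
      (Finset.mem_univ j)
  rw [pow_two]
  exact h1

theorem mg_SD1 (h : SDn Φ μ M) (hμ : 0 ≤ μ) (hb : ∀ x, b ≤ Φ x) (x : Fin n → ℝ) {k : ℕ} (j : Fin n)
    (hj : j.1 = k) : SD1 (fun t => mg Φ (k + 1) (Function.update x j t)) μ M := by
  constructor
  · intro t s
    refine le_of_forall_pos_le_add fun ε hε => ?_
    obtain ⟨y₁, h1, h1'⟩ := mg_near (Φ := Φ) (k + 1) (Function.update x j (t + s)) (half_pos hε)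
    obtain ⟨y₂, h2, h2'⟩ := mg_near (Φ := Φ) (k + 1) (Function.update x j (t - s)) (half_pos hε)
    have hlo := h.lo ((1 / 2 : ℝ) • (y₁ + y₂)) ((1 / 2 : ℝ) • (y₁ - y₂))
    have e1 : (1 / 2 : ℝ) • (y₁ + y₂) + (1 / 2 : ℝ) • (y₁ - y₂) = y₁ := by
      funext i
      simp only [Pi.add_apply, Pi.smul_apply, Pi.sub_apply, smul_eq_mul]
      ring
    have e2 : (1 / 2 : ℝ) • (y₁ + y₂) - (1 / 2 : ℝ) • (y₁ - y₂) = y₂ := by
      funext i
      simp only [Pi.add_apply, Pi.smul_apply, Pi.sub_apply, smul_eq_mul]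
      ring
    rw [e1, e2] at hlo
    have hjk : j.1 < k + 1 := by omega
    have hz : mg Φ (k + 1) (Function.update x j t) ≤ Φ ((1 / 2 : ℝ) • (y₁ + y₂)) := by
      refine mg_self hb fun i hi => ?_
      simp only [Pi.add_apply, Pi.smul_apply, smul_eq_mul]
      rw [h1 i hi, h2 i hi]
      by_cases hij : i = j
      · subst hij
        simp only [Function.update_self]
        ring
      · simp only [Function.update_of_ne hij]
        ring
    have hv : s ^ 2 ≤ ((1 / 2 : ℝ) • (y₁ - y₂)) ⬝ᵥ ((1 / 2 : ℝ) • (y₁ - y₂)) := by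
      have h3 := sq_le_dot ((1 / 2 : ℝ) • (y₁ - y₂)) j
      have h4 : ((1 / 2 : ℝ) • (y₁ - y₂)) j = s := by
        simp only [Pi.smul_apply, Pi.sub_apply, smul_eq_mul]
        rw [h1 j hjk, h2 j hjk]
        simp only [Function.update_self]
        ring
      rwa [h4] at h3
    have hv' := mul_le_mul_of_nonneg_left hv (mul_nonneg (by norm_num : (0 : ℝ) ≤ 2) hμ)
    linarith
  · intro t s
    refine le_of_forall_pos_le_add fun ε hε => ?_
    obtain ⟨y, h1, h1'⟩ := mg_near (Φ := Φ) (k + 1) (Function.update x j t) (half_pos hε)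
    have hup := h.up y (s • Pi.single j 1)
    have hdot : (s • (Pi.single j 1 : Fin n → ℝ)) ⬝ᵥ (s • (Pi.single j 1 : Fin n → ℝ)) = s ^ 2 := by
      rw [smul_dotProduct, dotProduct_smul, single_dotProduct]
      simp
      ring
    rw [hdot] at hup
    have hp : mg Φ (k + 1) (Function.update x j (t + s)) ≤ Φ (y + s • Pi.single j 1) := by
      refine mg_self hb fun i hi => ?_
      simp only [Pi.add_apply, Pi.smul_apply, smul_eq_mul]
      rw [h1 i hi]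
      by_cases hij : i = j
      · subst hij
        simp
      · simp [Function.update_of_ne hij, Pi.single_eq_of_ne hij]
    have hm : mg Φ (k + 1) (Function.update x j (t - s)) ≤ Φ (y - s • Pi.single j 1) := by
      refine mg_self hb fun i hi => ?_
      simp only [Pi.sub_apply, Pi.smul_apply, smul_eq_mul]
      rw [h1 i hi]
      by_cases hij : i = j
      · subst hij
        simp
      · simp [Function.update_of_ne hij, Pi.single_eq_of_ne hij]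
    linarith

theorem mg_inf (hb : ∀ x, b ≤ Φ x) (x : Fin n → ℝ) {k : ℕ} (j : Fin n) (hj : j.1 = k) :
    (∀ t, mg Φ k x ≤ mg Φ (k + 1) (Function.update x j t)) ∧
    ∀ ε : ℝ, 0 < ε → ∃ t, mg Φ (k + 1) (Function.update x j t) < mg Φ k x + ε := by
  constructor
  · intro t
    refine le_mg fun y hy => mg_self hb fun i hi => ?_
    have hij : i ≠ j := by
      rintro rfl
      omega
    rw [hy i (by omega), Function.update_of_ne hij]
  · intro ε hε
    obtain ⟨y, h1, h2⟩ := mg_near (Φ := Φ) k x hε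
    refine ⟨y j, lt_of_le_of_lt (mg_self hb fun i hi => ?_) h2⟩
    by_cases hij : i = j
    · subst hij
      simp
    · have hik : i.1 ≠ k := fun h => hij (Fin.ext (h.trans hj.symm))
      rw [Function.update_of_ne hij, h1 i (by omega)]

theorem mg_pair (h : SDn Φ μ M) (hμ : 0 ≤ μ) (hb : ∀ x, b ≤ Φ x) {k : ℕ} {x y : Fin n → ℝ}
    (hxy : ∀ i : Fin n, i.1 < k → x i = y i) (hx : Φ x ≤ T) (hy : Φ y ≤ T) (i : Fin n) :
    μ * (x i - y i) ^ 2 ≤ 4 * (T - mg Φ k x) := by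
  have hlo := h.lo ((1 / 2 : ℝ) • (x + y)) ((1 / 2 : ℝ) • (x - y))
  have e1 : (1 / 2 : ℝ) • (x + y) + (1 / 2 : ℝ) • (x - y) = x := by
    funext i
    simp only [Pi.add_apply, Pi.smul_apply, Pi.sub_apply, smul_eq_mul]
    ring
  have e2 : (1 / 2 : ℝ) • (x + y) - (1 / 2 : ℝ) • (x - y) = y := by
    funext i
    simp only [Pi.add_apply, Pi.smul_apply, Pi.sub_apply, smul_eq_mul]
    ring
  rw [e1, e2] at hlo
  have hz : mg Φ k x ≤ Φ ((1 / 2 : ℝ) • (x + y)) := by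
    refine mg_self hb fun i hi => ?_
    simp only [Pi.add_apply, Pi.smul_apply, smul_eq_mul]
    rw [← hxy i hi]
    ring
  have hv := sq_le_dot ((1 / 2 : ℝ) • (x - y)) i
  have h4 : ((1 / 2 : ℝ) • (x - y)) i = (x i - y i) / 2 := by
    simp only [Pi.smul_apply, Pi.sub_apply, smul_eq_mul]
    ring
  rw [h4] at hv
  have hv' := mul_le_mul_of_nonneg_left hv (mul_nonneg (by norm_num : (0 : ℝ) ≤ 2) hμ)
  nlinarith [hv', hlo, hz, hx, hy]

end Pool.Agent.Lib.MP_8cf263_co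
end

section

/-!
# Round sets, file RdPush: pushing a point off a line through the centre

`hull_axis`.  Let `M` be a convex lattice set, symmetric (`x ∈ M ↔ c - x ∈ M`), which contains all
`x` with `|vs c x i| ≤ ρ` for all `i`, and let `s` be a real number with `4 |s| + 2 ≤ ρ`.  Then the
real point `(1/2) • em c + s • Pi.single i 1` is in the convex hull of `M`.
Proof.  Let `g = fun i => (c i + 1) / 2`, so `vs c g i ∈ {0, 1}`, and `S = ⌈|s|⌉` (an integer with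
`|s| ≤ S`, `2 S + 1 ≤ ρ`, because `2 S ≤ 2 |s| + 2 ...`; if `s = 0` take `S = 0`, if `ρ ≥ 4` any
`S` with `|s| ≤ S ≤ |s| + 1` satisfies `2 S + 1 ≤ 2 |s| + 3 ≤ ρ/2 + 2 ≤ ρ`).  The four points
`g ± S e_i`, `c - g ± S e_i` are in `M` (`|vs| ≤ 1 + 2 S`), the midpoint of `g + S e_i` and
`c - g + S e_i` is `c / 2 + S e_i`, and similarly `c / 2 - S e_i`; `c / 2 + s e_i` is a convex
combination of these two.

`push`.  Let `M` be as above and `4 ≤ ρ`, let `x ∈ ℤ ^ n` with `vs c x = κ • e`, `0 < κ`, let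
`0 < j` with `x + j e ∈ M`, and let `σ` be an integer with `2 |σ| (κ + 2 j) + 2 j ≤ ρ j`, i.e.
`4 |y| + 2 ≤ ρ` for `y = σ (κ + 2 j) / (2 j)`.  Then `x + σ • Pi.single i 1 ∈ M`.
Proof.  `em (x + σ e_i) = (κ / (κ + 2 j)) • em (x + j e) + (2 j / (κ + 2 j)) • (c / 2 + y e_i)`:
indeed, relative to the centre, `x + j e = c / 2 + ((κ + 2 j) / 2) e`, so the right hand side is
`c / 2 + (κ / 2) e + (2 j / (κ + 2 j)) y e_i = x + σ e_i`.
-/

set_option autoImplicit false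

namespace Pool.Agent.Lib.MP_8cf263_co

open Finset

variable {n : ℕ} {c : Fin n → ℤ}

private theorem hull_axis_int {M : Finset (Fin n → ℤ)}
    {ρ : ℕ} (hc : ∀ x : Fin n → ℤ, (∀ i, |vs c x i| ≤ ρ) → x ∈ M) (T : ℤ)
    (hT : 2 * |T| + 1 ≤ ρ) (i : Fin n) :
    (1 / 2 : ℝ) • em c + (T : ℝ) • (Pi.single i 1 : Fin n → ℝ) ∈
      convexHull ℝ (em '' (M : Set (Fin n → ℤ))) := by
  set g : Fin n → ℤ := fun k => (c k + 1) / 2 with hg
  have hgv : ∀ k, 2 * g k - c k = 0 ∨ 2 * g k - c k = 1 := by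
    intro k
    have : g k = (c k + 1) / 2 := rfl
    omega
  have hs1 : ∀ k, |T * (Pi.single i 1 : Fin n → ℤ) k| ≤ |T| := by
    intro k
    by_cases h : k = i
    · subst h
      simp
    · simp [Pi.single_eq_of_ne h]
  have h1 : g + T • (Pi.single i 1 : Fin n → ℤ) ∈ M := by
    apply hc
    intro k
    have e1 : vs c (g + T • (Pi.single i 1 : Fin n → ℤ)) k =
        (2 * g k - c k) + 2 * (T * (Pi.single i 1 : Fin n → ℤ) k) := by
      simp only [vs, Pi.add_apply, Pi.smul_apply, smul_eq_mul]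
      ring
    rw [e1]
    have h2 := abs_le.1 (hs1 k)
    rw [abs_le]
    rcases hgv k with h | h <;> constructor <;> omega
  have h2 : c - g + T • (Pi.single i 1 : Fin n → ℤ) ∈ M := by
    apply hc
    intro k
    have e1 : vs c (c - g + T • (Pi.single i 1 : Fin n → ℤ)) k =
        -(2 * g k - c k) + 2 * (T * (Pi.single i 1 : Fin n → ℤ) k) := by
      simp only [vs, Pi.add_apply, Pi.sub_apply, Pi.smul_apply, smul_eq_mul]
      ring
    rw [e1]
    have h2 := abs_le.1 (hs1 k)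
    rw [abs_le]
    rcases hgv k with h | h <;> constructor <;> omega
  have h3 := (convex_convexHull ℝ (em '' (M : Set (Fin n → ℤ))))
    (subset_convexHull ℝ _ ⟨_, h1, rfl⟩) (subset_convexHull ℝ _ ⟨_, h2, rfl⟩)
    (by norm_num : (0 : ℝ) ≤ 1 / 2) (by norm_num : (0 : ℝ) ≤ 1 / 2) (by norm_num)
  convert h3 using 1
  funext k
  have h4 : ((Pi.single i 1 : Fin n → ℤ) k : ℝ) = (Pi.single i 1 : Fin n → ℝ) k := by
    by_cases h : k = i
    · subst h
      simp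
    · simp [Pi.single_eq_of_ne h]
  simp only [em, Pi.add_apply, Pi.sub_apply, Pi.smul_apply, smul_eq_mul]
  push_cast
  rw [h4]
  ring

theorem hull_axis {M : Finset (Fin n → ℤ)} (hs : ∀ x, x ∈ M ↔ c - x ∈ M)
    {ρ : ℕ} (hc : ∀ x : Fin n → ℤ, (∀ i, |vs c x i| ≤ ρ) → x ∈ M) {s : ℝ}
    (hρ : 4 * |s| + 2 ≤ ρ) (hρ4 : 4 ≤ ρ) (i : Fin n) :
    (1 / 2 : ℝ) • em c + s • (Pi.single i 1 : Fin n → ℝ) ∈
      convexHull ℝ (em '' (M : Set (Fin n → ℤ))) := by
  obtain ⟨S, hS⟩ : ∃ S : ℕ, S = ⌈|s|⌉₊ := ⟨_, rfl⟩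
  have h1 : |s| ≤ S := by rw [hS]; exact Nat.le_ceil _
  have h2 : (S : ℝ) < |s| + 1 := by rw [hS]; exact Nat.ceil_lt_add_one (abs_nonneg s)
  have hρ4' : (4 : ℝ) ≤ ρ := by exact_mod_cast hρ4
  have h3 : 2 * S + 1 ≤ ρ := by
    have : ((2 * S + 1 : ℕ) : ℝ) ≤ (ρ : ℝ) := by
      push_cast
      linarith
    exact_mod_cast this
  have hp := hull_axis_int (M := M) (c := c) hc (S : ℤ) (by rw [abs_of_nonneg (by positivity)]; omega) i
  have hm := hull_axis_int (M := M) (c := c) hc (-(S : ℤ))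
    (by rw [abs_neg, abs_of_nonneg (by positivity)]; omega) i
  have hconv : Convex ℝ {t : ℝ | (1 / 2 : ℝ) • em c + t • (Pi.single i 1 : Fin n → ℝ) ∈
      convexHull ℝ (em '' (M : Set (Fin n → ℤ)))} := by
    intro x hx y hy a b ha hb hab
    have h4 := (convex_convexHull ℝ (em '' (M : Set (Fin n → ℤ)))) hx hy ha hb hab
    show (1 / 2 : ℝ) • em c + (a • x + b • y) • (Pi.single i 1 : Fin n → ℝ) ∈
      convexHull ℝ (em '' (M : Set (Fin n → ℤ)))
    convert h4 using 1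
    have h5 : b = 1 - a := by linarith
    subst h5
    funext k
    simp only [Pi.add_apply, Pi.smul_apply, smul_eq_mul]
    ring
  have h6 := abs_le.1 h1
  refine hconv.ordConnected.out (x := -(S : ℝ)) (y := (S : ℝ)) ?_ ?_ ⟨h6.1, h6.2⟩
  · have := hm
    push_cast at this
    exact this
  · have := hp
    push_cast at this
    exact this

theorem push {M : Finset (Fin n → ℤ)} (hM : LC M) (hs : ∀ x, x ∈ M ↔ c - x ∈ M)
    {ρ : ℕ} (hc : ∀ x : Fin n → ℤ, (∀ i, |vs c x i| ≤ ρ) → x ∈ M) (hρ4 : 4 ≤ ρ)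
    {x e : Fin n → ℤ} {κ j σ : ℤ} (hκ : vs c x = κ • e) (hκ0 : 0 < κ) (hj : 0 < j)
    (hx : x + j • e ∈ M) (hσ : 2 * |σ| * (κ + 2 * j) + 2 * j ≤ ρ * j) (i : Fin n) :
    x + σ • (Pi.single i 1 : Fin n → ℤ) ∈ M := by
  have hκR : (0 : ℝ) < (κ : ℝ) := by exact_mod_cast hκ0
  have hjR : (0 : ℝ) < (j : ℝ) := by exact_mod_cast hj
  have hσR : 2 * |(σ : ℝ)| * ((κ : ℝ) + 2 * j) + 2 * j ≤ ρ * j := by
    have : ((2 * |σ| * (κ + 2 * j) + 2 * j : ℤ) : ℝ) ≤ ((ρ * j : ℤ) : ℝ) := by exact_mod_cast hσ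
    push_cast at this
    exact this
  have hden : (0 : ℝ) < (κ : ℝ) + 2 * j := by positivity
  have hy : 4 * |(σ : ℝ) * ((κ : ℝ) + 2 * j) / (2 * j)| + 2 ≤ (ρ : ℝ) := by
    rw [abs_div, abs_mul, abs_of_pos hden, abs_of_pos (by positivity : (0 : ℝ) < 2 * j)]
    have h1 : 4 * (|(σ : ℝ)| * ((κ : ℝ) + 2 * j) / (2 * j)) + 2 =
        (2 * |(σ : ℝ)| * ((κ : ℝ) + 2 * j) + 2 * j) / j := by
      field_simp
      ring
    rw [h1, div_le_iff₀ hjR]
    exact hσR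
  have h1 := hull_axis (M := M) (c := c) hs hc hy hρ4 i
  have h2 := (convex_convexHull ℝ (em '' (M : Set (Fin n → ℤ))))
    (subset_convexHull ℝ _ ⟨_, hx, rfl⟩) h1
    (by positivity : (0 : ℝ) ≤ (κ : ℝ) / (κ + 2 * j))
    (by positivity : (0 : ℝ) ≤ 2 * (j : ℝ) / (κ + 2 * j)) (by field_simp)
  apply hM
  convert h2 using 1
  funext k
  have h4 : ((Pi.single i 1 : Fin n → ℤ) k : ℝ) = (Pi.single i 1 : Fin n → ℝ) k := by
    by_cases h : k = i
    · subst h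
      simp
    · simp [Pi.single_eq_of_ne h]
  have h5 : 2 * (x k : ℝ) - c k = κ * e k := by
    have h6 := congrFun hκ k
    simp only [vs, Pi.smul_apply, smul_eq_mul] at h6
    exact_mod_cast h6
  have h7 : (c k : ℝ) = 2 * x k - κ * e k := by linarith
  simp only [em, Pi.add_apply, Pi.smul_apply, smul_eq_mul]
  push_cast
  rw [h4, h7]
  field_simp
  ring

end Pool.Agent.Lib.MP_8cf263_co
end

section

/-!
# Round sets, file RdSD: functions on the line with bounded second differences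

Let `h : SD1 φ μ M`, `b ≤ φ t` for all `t`.

`SD1.near`: if `φ t₀ ≤ b + ε` then `φ (t₀ + y) ≤ b + 2 ε + 2 M y ^ 2`.
Proof: `φ (t₀ + y) ≤ 2 φ t₀ - φ (t₀ - y) + 2 M y ^ 2`.

`SD1.pair`: if `φ s ≤ T` and `φ t ≤ T` then `μ (s - t) ^ 2 ≤ 4 (T - b)`.
Proof: `h.lo` for the midpoint `(s + t) / 2` and `y = (s - t) / 2`:
`2 μ (s - t) ^ 2 / 4 ≤ 2 T - 2 b`; hence even `μ (s - t) ^ 2 ≤ 4 (T - b)`.

`SD1.run`: if `b + 2 + M (l + 1) ^ 2 / 2 ≤ T` and `φ t₀ ≤ b + 1` then there is an integer `t₁` with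
`φ (t₁ + t) ≤ T` for all integers `0 ≤ t ≤ l`.
Proof: `t₁ = ⌈t₀ - (l + 1) / 2⌉`, so `|t₁ + t - t₀| ≤ (l + 1) / 2`, and `SD1.near` with `ε = 1`
(`0 ≤ M` is a hypothesis).

`SD1.slope`: `φ (x + N) - φ x + μ N (N - 1) ≤ N (φ (x + N) - φ (x + N - 1))` for `N : ℕ`.
Proof by induction on `N`; `N = 0` is trivial.  For `N + 1`: `h.lo (x + N) 1` gives
`φ (x + N + 1) - φ (x + N) ≥ φ (x + N) - φ (x + N - 1) + 2 μ`, so
`(N + 1) (φ (x + N + 1) - φ (x + N)) ≥ N (φ (x + N) - φ (x + N - 1) + 2 μ) + φ (x + N + 1) - φ (x + N)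
≥ φ (x + N) - φ x + μ N (N - 1) + 2 μ N + φ (x + N + 1) - φ (x + N)
= φ (x + N + 1) - φ x + μ (N + 1) N`.

`SD1.incr`: `N (φ (x + 1) - φ x) ≤ φ (x + N) - φ x` for `N : ℕ`, `0 ≤ μ`.
Proof: the increments `φ (x + k + 1) - φ (x + k)` are non-decreasing in `k` (`h.lo` with `y = 1`), so
each of them is at least `φ (x + 1) - φ x`.

`SD1.step`.  Let `τ = T - b`, `0 < μ ≤ M`, `φ t₀ ≤ b + 1`, `4 + 5 M + μ ≤ τ`.  Then there is an
integer `m` with `φ m ≤ T`, `φ j > T` for all integers `j > m`, and `μ τ ≤ 16 (T - φ (m - 1)) ^ 2`,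
`0 ≤ T - φ (m - 1)`.
Proof.  Let `x₀ = ⌊t₀⌋`.  By `near` `φ x₀ ≤ b + 2 + 2 M` and `φ (x₀ + 1) ≤ b + 2 + 2 M ≤ T`.  The
integers `j` with `φ j ≤ T` are bounded above by `pair` (`μ (j - x₀) ^ 2 ≤ 4 τ`; so
`j ≤ x₀ + 4 τ / μ + 1`); let `m` be the greatest one (`Int.exists_greatest_of_bdd`);
`m ≥ x₀ + 1`; `N = m - x₀ ≥ 1`.  Put `A = T - φ (m - 1)` and `τ' = τ - 2 - 2 M`.  By `slope`
(`x = x₀`) `N (φ m - φ (m - 1)) ≥ φ m - φ x₀ + μ N (N - 1)`, and `T - φ m ≥ 0`, so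
`N A = N (T - φ m) + N (φ m - φ (m - 1)) ≥ (T - φ m) + φ m - φ x₀ + μ N (N - 1) ≥ τ' + μ N (N - 1)`.
So `A > 0` and `N (A + μ) ≥ τ' + μ N ^ 2`, whence
`(N (A + μ)) ^ 2 ≥ (τ' + μ N ^ 2) ^ 2 ≥ 4 τ' μ N ^ 2` and `(A + μ) ^ 2 ≥ 4 μ τ'`.
Now `τ' ≥ τ / 2` and `μ ^ 2 ≤ μ τ / 6` (as `τ ≥ 5 M + μ ≥ 6 μ`).  If `16 A ^ 2 < μ τ` then
`(A + μ) ^ 2 ≤ 2 A ^ 2 + 2 μ ^ 2 < μ τ / 8 + μ τ / 3 < 2 μ τ ≤ (A + μ) ^ 2`, a contradiction.

`SD1.neg`: `t ↦ φ (- t)` has the same property.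
-/

set_option autoImplicit false

namespace Pool.Agent.Lib.MP_8cf263_co

variable {φ : ℝ → ℝ} {μ M b T : ℝ}

theorem SD1.near (h : SD1 φ μ M) (hb : ∀ t, b ≤ φ t) {t₀ ε : ℝ} (h0 : φ t₀ ≤ b + ε) (y : ℝ) :
    φ (t₀ + y) ≤ b + 2 * ε + 2 * M * y ^ 2 := by
  have h1 := h.up t₀ y
  have h2 := hb (t₀ - y)
  linarith

theorem SD1.pair (h : SD1 φ μ M) (hb : ∀ t, b ≤ φ t) {s t : ℝ} (hs : φ s ≤ T) (ht : φ t ≤ T) :
    μ * (s - t) ^ 2 ≤ 4 * (T - b) := by
  have h1 := h.lo ((s + t) / 2) ((s - t) / 2)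
  have h2 := hb ((s + t) / 2)
  have e1 : (s + t) / 2 + (s - t) / 2 = s := by ring
  have e2 : (s + t) / 2 - (s - t) / 2 = t := by ring
  rw [e1, e2] at h1
  have e3 : 2 * μ * ((s - t) / 2) ^ 2 = μ * (s - t) ^ 2 / 2 := by ring
  rw [e3] at h1
  linarith

theorem SD1.run (h : SD1 φ μ M) (hb : ∀ t, b ≤ φ t) (hM : 0 ≤ M) (h0 : ∃ t₀, φ t₀ ≤ b + 1) {l : ℕ}
    (hT : b + 2 + M * (l + 1) ^ 2 / 2 ≤ T) :
    ∃ t₁ : ℤ, ∀ t : ℤ, 0 ≤ t → t ≤ l → φ ((t₁ + t : ℤ) : ℝ) ≤ T := by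
  obtain ⟨t₀, ht₀⟩ := h0
  refine ⟨⌈t₀ - ((l : ℝ) + 1) / 2⌉, fun t ht0 htl => ?_⟩
  set t₁ : ℤ := ⌈t₀ - ((l : ℝ) + 1) / 2⌉ with ht₁
  have h1 : t₀ - ((l : ℝ) + 1) / 2 ≤ (t₁ : ℝ) := Int.le_ceil _
  have h2 : (t₁ : ℝ) < t₀ - ((l : ℝ) + 1) / 2 + 1 := Int.ceil_lt_add_one _
  have h3 : (0 : ℝ) ≤ (t : ℝ) := by exact_mod_cast ht0
  have h4 : (t : ℝ) ≤ (l : ℝ) := by exact_mod_cast htl
  set y : ℝ := (t₁ : ℝ) + t - t₀ with hy
  have h5 : φ (t₀ + y) ≤ b + 2 * 1 + 2 * M * y ^ 2 := h.near hb ht₀ y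
  have h6 : t₀ + y = ((t₁ + t : ℤ) : ℝ) := by
    rw [hy]
    push_cast
    ring
  rw [h6] at h5
  have h7 : |y| ≤ ((l : ℝ) + 1) / 2 := by
    rw [abs_le]
    constructor <;> rw [hy] <;> linarith
  have h8 : y ^ 2 ≤ (((l : ℝ) + 1) / 2) ^ 2 := by
    rw [← sq_abs y]
    exact pow_le_pow_left₀ (abs_nonneg _) h7 2
  have h9 : 2 * M * y ^ 2 ≤ 2 * M * (((l : ℝ) + 1) / 2) ^ 2 :=
    mul_le_mul_of_nonneg_left h8 (by linarith)
  have h10 : 2 * M * (((l : ℝ) + 1) / 2) ^ 2 = M * ((l : ℝ) + 1) ^ 2 / 2 := by ring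
  linarith

theorem SD1.slope (h : SD1 φ μ M) (x : ℝ) (N : ℕ) :
    φ (x + N) - φ x + μ * N * (N - 1) ≤ N * (φ (x + N) - φ (x + N - 1)) := by
  induction N with
  | zero => simp
  | succ N ih =>
    have h1 := h.lo (x + N) 1
    push_cast
    have e1 : x + ((N : ℝ) + 1) = x + N + 1 := by ring
    have e2 : x + N + 1 - 1 = x + (N : ℝ) := by ring
    rw [e1, e2]
    have hN : (0 : ℝ) ≤ N := Nat.cast_nonneg N
    have h2 := mul_le_mul_of_nonneg_left h1 hN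
    nlinarith

theorem SD1.incr (h : SD1 φ μ M) (hμ : 0 ≤ μ) (x : ℝ) (N : ℕ) :
    N * (φ (x + 1) - φ x) ≤ φ (x + N) - φ x := by
  have hk : ∀ k : ℕ, φ (x + 1) - φ x ≤ φ (x + k + 1) - φ (x + k) := by
    intro k
    induction k with
    | zero => simp
    | succ k ih =>
      have h1 := h.lo (x + k + 1) 1
      push_cast
      have e1 : x + ((k : ℝ) + 1) = x + k + 1 := by ring
      have e2 : x + k + 1 - 1 = x + (k : ℝ) := by ring
      rw [e2] at h1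
      rw [e1]
      nlinarith
  induction N with
  | zero => simp
  | succ N ih =>
    have h1 := hk N
    push_cast
    have e1 : x + ((N : ℝ) + 1) = x + N + 1 := by ring
    rw [e1]
    linarith

private theorem rdsd_final {μ M τ A N : ℝ} (hμ : 0 < μ) (hM : μ ≤ M) (hT : 4 + 5 * M + μ ≤ τ)
    (hN : 1 ≤ N) (h1 : τ - 2 - 2 * M + μ * N * (N - 1) ≤ N * A) :
    μ * τ ≤ 16 * A ^ 2 ∧ 0 ≤ A := by
  have hNpos : 0 < N := by linarith
  have hτ' : τ / 2 ≤ τ - 2 - 2 * M := by linarith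
  have hτpos : 0 < τ := by linarith
  have hnn : 0 ≤ μ * N * (N - 1) := mul_nonneg (mul_nonneg hμ.le hNpos.le) (by linarith)
  have hA : 0 < A := by
    by_contra hA
    have : N * A ≤ 0 := mul_nonpos_of_nonneg_of_nonpos hNpos.le (not_lt.mp hA)
    linarith
  refine ⟨?_, hA.le⟩
  by_contra hc
  have hc' : 16 * A ^ 2 < μ * τ := not_le.mp hc
  set τ' : ℝ := τ - 2 - 2 * M with hτ'def
  have hτ'pos : 0 < τ' := by linarith
  have h2 : τ' + μ * N ^ 2 ≤ N * (A + μ) := by nlinarith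
  have h3 : (τ' + μ * N ^ 2) ^ 2 ≤ (N * (A + μ)) ^ 2 :=
    pow_le_pow_left₀ (by positivity) h2 2
  have h4 : 4 * τ' * μ * N ^ 2 ≤ (τ' + μ * N ^ 2) ^ 2 := by
    nlinarith [sq_nonneg (τ' - μ * N ^ 2)]
  have h5 : 4 * τ' * μ * N ^ 2 ≤ (A + μ) ^ 2 * N ^ 2 := by
    calc 4 * τ' * μ * N ^ 2 ≤ (N * (A + μ)) ^ 2 := h4.trans h3
      _ = (A + μ) ^ 2 * N ^ 2 := by ring
  have h6 : 4 * τ' * μ ≤ (A + μ) ^ 2 := le_of_mul_le_mul_right h5 (by positivity)
  have h7 : 2 * μ * τ ≤ 4 * τ' * μ := by nlinarith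
  have h8 : (A + μ) ^ 2 ≤ 2 * A ^ 2 + 2 * μ ^ 2 := by nlinarith [sq_nonneg (A - μ)]
  have h9 : 6 * μ ^ 2 ≤ μ * τ := by nlinarith
  have h10 : 0 < μ * τ := mul_pos hμ hτpos
  nlinarith

theorem SD1.step (h : SD1 φ μ M) (hb : ∀ t, b ≤ φ t) (hμ : 0 < μ) (hM : μ ≤ M)
    (h0 : ∃ t₀, φ t₀ ≤ b + 1) (hT : 4 + 5 * M + μ ≤ T - b) :
    ∃ m : ℤ, φ m ≤ T ∧ (∀ j : ℤ, m < j → T < φ j) ∧
      μ * (T - b) ≤ 16 * (T - φ ((m - 1 : ℤ) : ℝ)) ^ 2 ∧ 0 ≤ T - φ ((m - 1 : ℤ) : ℝ) := by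
  obtain ⟨t₀, ht₀⟩ := h0
  have hMpos : 0 < M := lt_of_lt_of_le hμ hM
  set x₀ : ℤ := ⌊t₀⌋ with hx₀
  have hf1 : (x₀ : ℝ) ≤ t₀ := Int.floor_le t₀
  have hf2 : t₀ < (x₀ : ℝ) + 1 := Int.lt_floor_add_one t₀
  have hnear : ∀ z : ℝ, |z - t₀| ≤ 1 → φ z ≤ b + 2 + 2 * M := by
    intro z hz
    have h1 := h.near hb ht₀ (z - t₀)
    have e1 : t₀ + (z - t₀) = z := by ring
    rw [e1] at h1
    have h2 : (z - t₀) ^ 2 ≤ 1 := by
      rw [← sq_abs]
      exact pow_le_one₀ (abs_nonneg _) hz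
    nlinarith
  have hx1 : φ (x₀ : ℝ) ≤ b + 2 + 2 * M := hnear _ (by rw [abs_le]; constructor <;> linarith)
  have hx2 : φ (((x₀ + 1 : ℤ)) : ℝ) ≤ b + 2 + 2 * M :=
    hnear _ (by push_cast; rw [abs_le]; constructor <;> linarith)
  have hx1T : φ (x₀ : ℝ) ≤ T := by linarith
  have hx2T : φ (((x₀ + 1 : ℤ)) : ℝ) ≤ T := by linarith
  -- the integers with `φ j ≤ T` are bounded above
  have hbdd : ∀ z : ℤ, φ (z : ℝ) ≤ T → z ≤ x₀ + (⌈4 * (T - b) / μ⌉ + 1) := by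
    intro z hz
    by_contra hcon
    have hcon' : x₀ + (⌈4 * (T - b) / μ⌉ + 1) < z := not_le.mp hcon
    have h1 := h.pair hb hz hx1T
    have h2 : 4 * (T - b) / μ ≤ (⌈4 * (T - b) / μ⌉ : ℝ) := Int.le_ceil _
    have h3 : ((x₀ + (⌈4 * (T - b) / μ⌉ + 1) : ℤ) : ℝ) < (z : ℝ) := by exact_mod_cast hcon'
    push_cast at h3
    have h4 : 4 * (T - b) / μ + 1 < (z : ℝ) - x₀ := by linarith
    have h5 : 0 < 4 * (T - b) / μ := div_pos (by linarith) hμ
    have h6 : (z : ℝ) - x₀ < ((z : ℝ) - x₀) ^ 2 := by nlinarith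
    have h7 : 4 * (T - b) = μ * (4 * (T - b) / μ) := by field_simp
    have h8 : μ * (4 * (T - b) / μ) < μ * ((z : ℝ) - x₀) ^ 2 :=
      mul_lt_mul_of_pos_left (by linarith) hμ
    linarith
  obtain ⟨m, hm, hmax⟩ := Int.exists_greatest_of_bdd (P := fun z : ℤ => φ (z : ℝ) ≤ T)
    ⟨_, hbdd⟩ ⟨x₀ + 1, hx2T⟩
  have hm1 : x₀ + 1 ≤ m := hmax _ hx2T
  obtain ⟨N, hN⟩ := Int.eq_ofNat_of_zero_le (show 0 ≤ m - x₀ by omega)
  have hmN : (m : ℝ) = (x₀ : ℝ) + N := by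
    have : m = x₀ + (N : ℤ) := by omega
    rw [this]
    push_cast
    ring
  have hN1 : (1 : ℝ) ≤ (N : ℝ) := by
    have : 1 ≤ N := by omega
    exact_mod_cast this
  have hsl := h.slope (x₀ : ℝ) N
  have e1 : (x₀ : ℝ) + N - 1 = ((m - 1 : ℤ) : ℝ) := by
    push_cast
    rw [hmN]
  rw [e1, ← hmN] at hsl
  refine ⟨m, hm, fun j hj => ?_, ?_⟩
  · by_contra hcon
    have := hmax j (not_lt.mp hcon)
    omega
  · refine rdsd_final (N := (N : ℝ)) hμ hM hT hN1 ?_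
    have hm' : φ (m : ℝ) ≤ T := hm
    have h1 : (0 : ℝ) ≤ (N - 1) * (T - φ (m : ℝ)) :=
      mul_nonneg (by linarith) (by linarith)
    nlinarith

theorem SD1.neg (h : SD1 φ μ M) : SD1 (fun t => φ (-t)) μ M := by
  refine ⟨fun x y => ?_, fun x y => ?_⟩
  · have h1 := h.lo (-x) y
    have e1 : -(x + y) = -x - y := by ring
    have e2 : -(x - y) = -x + y := by ring
    simp only [e1, e2]
    linarith
  · have h1 := h.up (-x) y
    have e1 : -(x + y) = -x - y := by ring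
    have e2 : -(x - y) = -x + y := by ring
    simp only [e1, e2]
    linarith

end Pool.Agent.Lib.MP_8cf263_co
end

section

/-!
# Round sets, file RdWq: bounds for the window lengths; elementary facts on `Cl`

`Wq_mono`: `Wq E J J1 (q + 1) ≥ 2 * Wq E J J1 q ≥ Wq E J J1 q`.

`Wq_J`: `J ≤ Wq E J J1 q` (each factor `2 E + ...` is at least `1`, the other one at least `J`).

`Wq_le`: if `16 ≤ X`, `E ≤ X ^ u`, `J ≤ X`, `J1 ≤ X ^ 2` then
`Wq 0 ≤ X ^ (u + 1) * X ^ 3`, as `2 X ^ u + 1 ≤ X ^ (u + 1)`, `X ^ 2 + X ≤ X ^ 3`;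
`Wq 1 ≤ X ^ (u + 1) * X ^ (u + 5)`, as `2 X ^ u + 5 ≤ X ^ (u + 1)`, `2 X ^ (u + 4) + X ≤ X ^ (u + 5)`;
`Wq 2 ≤ X ^ (u + 1) * X ^ (2 u + 7) = X ^ (3 u + 8)`.

`JJ_le`: `JJ kap J ≤ X ^ 2` if `J ≤ X` and `20 * kap + 4 ≤ X`.

`Cl.mono`: take the same `z`; both filters do not change when the interval is enlarged.
`Cl.shift`: replace `z` by `z - s` (bijection `t ↦ t - s`).
`Cl.neg`: `c - p + t e ∈ K ↔ p + (-t) e ∈ K`; new `z` is `1 - z - 2 W` (bijection `t ↦ - t`).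
`Cl.memK`: if `p ∈ K`, `p ∉ L` take `t = 0`.  Otherwise `p ∈ L`, `p ∉ K`: the filter of `K` is not a
subset of the filter of `L` because otherwise it would be a proper subset (`0` is in the second one
only) with the same number of elements.
`Cl.memL`: the same with `K` and `L` exchanged (`Cl` is symmetric).
`Cl.not_run`: `2 W + 1` consecutive integers do not fit into `[z, z + 2 W)`.
-/

set_option autoImplicit false

namespace Pool.Agent.Lib.MP_8cf263_co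

open Finset

private theorem Wq_succ_ge (E J J1 q : ℕ) : 2 * Wq E J J1 q ≤ Wq E J J1 (q + 1) := by
  have h : Wq E J J1 (q + 1) = (2 * E + 4 * (q + 1) + 1) * (max J1 (2 * Wq E J J1 q) + J) := rfl
  rw [h]
  calc 2 * Wq E J J1 q ≤ max J1 (2 * Wq E J J1 q) + J := le_trans (le_max_right _ _) (Nat.le_add_right _ _)
    _ = 1 * (max J1 (2 * Wq E J J1 q) + J) := (one_mul _).symm
    _ ≤ _ := Nat.mul_le_mul_right _ (by omega)

theorem Wq_mono (E J J1 : ℕ) {i j : ℕ} (hij : i ≤ j) : Wq E J J1 i ≤ Wq E J J1 j := by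
  induction j, hij using Nat.le_induction with
  | base => exact le_rfl
  | succ j _ ih => exact ih.trans (le_trans (by omega) (Wq_succ_ge E J J1 j))

theorem Wq_J (E J J1 q : ℕ) : J ≤ Wq E J J1 q := by
  refine le_trans ?_ (Wq_mono E J J1 (Nat.zero_le q))
  have h : Wq E J J1 0 = (2 * E + 1) * (J1 + J) := rfl
  rw [h]
  calc J ≤ 1 * (J1 + J) := by omega
    _ ≤ _ := Nat.mul_le_mul_right _ (by omega)

theorem Wq_le {E J J1 X u : ℕ} (hX : 16 ≤ X) (hE : E ≤ X ^ u) (hJ : J ≤ X) (hJ1 : J1 ≤ X ^ 2) :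
    Wq E J J1 2 ≤ X ^ (3 * u + 8) := by
  have hX0 : 0 < X := by omega
  have hone : ∀ k, 1 ≤ X ^ k := fun k => Nat.one_le_pow _ _ hX0
  have step : ∀ (k : ℕ) (a : ℕ), a ≤ 16 → a * X ^ k ≤ X ^ (k + 1) := by
    intro k a ha
    rw [pow_succ, mul_comm]
    exact Nat.mul_le_mul_left _ (ha.trans hX)
  have hXle : ∀ k, X ≤ X ^ (k + 1) := by
    intro k
    calc X = X ^ 1 := (pow_one _).symm
      _ ≤ X ^ (k + 1) := Nat.pow_le_pow_right hX0 (by omega)
  have f : ∀ a, a ≤ 9 → 2 * E + a ≤ X ^ (u + 1) := by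
    intro a ha
    have h1 := hone u
    have h2 := step u 11 (by norm_num)
    have h3 : a ≤ 9 * X ^ u := by nlinarith
    omega
  have w0 : Wq E J J1 0 ≤ X ^ (u + 4) := by
    have h : Wq E J J1 0 = (2 * E + 1) * (J1 + J) := rfl
    rw [h]
    have h1 : J1 + J ≤ X ^ 3 := by
      have h2 := step 2 2 (by norm_num)
      have h3 := hXle 1
      norm_num at h2 h3
      omega
    calc (2 * E + 1) * (J1 + J) ≤ X ^ (u + 1) * X ^ 3 := Nat.mul_le_mul (f 1 (by norm_num)) h1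
      _ = X ^ (u + 4) := by rw [← pow_add]
  have w1 : Wq E J J1 1 ≤ X ^ (2 * u + 6) := by
    have h : Wq E J J1 1 = (2 * E + 4 * (0 + 1) + 1) * (max J1 (2 * Wq E J J1 0) + J) := rfl
    rw [h]
    have h1 : max J1 (2 * Wq E J J1 0) + J ≤ X ^ (u + 5) := by
      have h2 := step (u + 4) 3 (by norm_num)
      have h3 := hXle (u + 3)
      have h4 : X ^ 2 ≤ X ^ (u + 4) := Nat.pow_le_pow_right hX0 (by omega)
      have h5 : max J1 (2 * Wq E J J1 0) ≤ 2 * X ^ (u + 4) := by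
        apply max_le
        · omega
        · omega
      have h6 : X ^ (u + 3 + 1) = X ^ (u + 4) := rfl
      have h7 : X ^ (u + 4 + 1) = X ^ (u + 5) := rfl
      rw [h6] at h3
      rw [h7] at h2
      omega
    calc (2 * E + 4 * (0 + 1) + 1) * (max J1 (2 * Wq E J J1 0) + J) ≤ X ^ (u + 1) * X ^ (u + 5) :=
          Nat.mul_le_mul (f 5 (by norm_num)) h1
      _ = X ^ (2 * u + 6) := by rw [← pow_add]; congr 1; omega
  have h : Wq E J J1 2 = (2 * E + 4 * (1 + 1) + 1) * (max J1 (2 * Wq E J J1 1) + J) := rfl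
  rw [h]
  have h1 : max J1 (2 * Wq E J J1 1) + J ≤ X ^ (2 * u + 7) := by
    have h2 := step (2 * u + 6) 3 (by norm_num)
    have h3 := hXle (2 * u + 5)
    have h4 : X ^ 2 ≤ X ^ (2 * u + 6) := Nat.pow_le_pow_right hX0 (by omega)
    have h5 : max J1 (2 * Wq E J J1 1) ≤ 2 * X ^ (2 * u + 6) := by
      apply max_le
      · omega
      · omega
    have h6 : X ^ (2 * u + 5 + 1) = X ^ (2 * u + 6) := rfl
    have h7 : X ^ (2 * u + 6 + 1) = X ^ (2 * u + 7) := rfl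
    rw [h6] at h3
    rw [h7] at h2
    omega
  calc (2 * E + 4 * (1 + 1) + 1) * (max J1 (2 * Wq E J J1 1) + J) ≤ X ^ (u + 1) * X ^ (2 * u + 7) :=
        Nat.mul_le_mul (f 9 (by norm_num)) h1
    _ = X ^ (3 * u + 8) := by rw [← pow_add]; congr 1; omega

theorem JJ_le {kap J X : ℕ} (hJ : J ≤ X) (hX : 20 * kap + 4 ≤ X) : JJ kap J ≤ X ^ 2 := by
  unfold JJ
  have h1 : J * (20 * kap + 3) ≤ X * (20 * kap + 3) := Nat.mul_le_mul_right _ hJ
  have h2 : X * (20 * kap + 4) ≤ X * X := Nat.mul_le_mul_left _ hX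
  nlinarith

variable {n : ℕ} {K L : Finset (Fin n → ℤ)} {c e p : Fin n → ℤ} {W W' : ℕ}

private theorem Cl.symm (h : Cl K L e p W) : Cl L K e p W := by
  obtain ⟨z, h1, h2⟩ := h
  exact ⟨z, fun t ht => h1 t ht.symm, h2.symm⟩

theorem Cl.mono (h : Cl K L e p W) (hW : W ≤ W') : Cl K L e p W' := by
  obtain ⟨z, h1, h2⟩ := h
  refine ⟨z, fun t ht => ?_, ?_⟩
  · have := h1 t ht
    omega
  · have e1 : (Ico z (z + 2 * W')).filter (fun t => p + t • e ∈ K) =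
        (Ico z (z + 2 * W)).filter (fun t => p + t • e ∈ K) := by
      ext t
      simp only [mem_filter, mem_Ico]
      constructor
      · rintro ⟨_, ht⟩
        exact ⟨h1 t (Or.inl ht), ht⟩
      · rintro ⟨⟨h3, h4⟩, ht⟩
        exact ⟨⟨h3, by omega⟩, ht⟩
    have e2 : (Ico z (z + 2 * W')).filter (fun t => p + t • e ∈ L) =
        (Ico z (z + 2 * W)).filter (fun t => p + t • e ∈ L) := by
      ext t
      simp only [mem_filter, mem_Ico]
      constructor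
      · rintro ⟨_, ht⟩
        exact ⟨h1 t (Or.inr ht), ht⟩
      · rintro ⟨⟨h3, h4⟩, ht⟩
        exact ⟨⟨h3, by omega⟩, ht⟩
    rw [e1, e2, h2]

private theorem shift_eq (s t : ℤ) : p + s • e + t • e = p + (t + s) • e := by
  rw [add_smul]; abel

private theorem card_shift (A : Finset (Fin n → ℤ)) (z s : ℤ) :
    ((Ico (z - s) (z - s + 2 * W)).filter (fun t => p + s • e + t • e ∈ A)).card =
      ((Ico z (z + 2 * W)).filter (fun t => p + t • e ∈ A)).card := by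
  refine Finset.card_nbij' (fun t => t + s) (fun t => t - s) ?_ ?_ ?_ ?_
  · intro t ht
    simp only [coe_filter, mem_Ico, Set.mem_ofPred_eq] at ht ⊢
    rw [← shift_eq]
    exact ⟨by omega, ht.2⟩
  · intro t ht
    simp only [coe_filter, mem_Ico, Set.mem_ofPred_eq] at ht ⊢
    rw [shift_eq, sub_add_cancel]
    exact ⟨by omega, ht.2⟩
  · intro t _
    simp
  · intro t _
    simp

theorem Cl.shift (h : Cl K L e p W) (s : ℤ) : Cl K L e (p + s • e) W := by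
  obtain ⟨z, h1, h2⟩ := h
  refine ⟨z - s, fun t ht => ?_, ?_⟩
  · rw [shift_eq] at ht
    have := h1 (t + s) ht
    omega
  · rw [card_shift, card_shift, h2]

private theorem neg_iff {A : Finset (Fin n → ℤ)} (sA : ∀ x, x ∈ A ↔ c - x ∈ A) (t : ℤ) :
    c - p + t • e ∈ A ↔ p + (-t) • e ∈ A := by
  rw [sA (c - p + t • e)]
  have : c - (c - p + t • e) = p + (-t) • e := by
    rw [neg_smul]; abel
  rw [this]

private theorem card_neg {A : Finset (Fin n → ℤ)} (sA : ∀ x, x ∈ A ↔ c - x ∈ A) (z : ℤ) :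
    ((Ico (1 - z - 2 * W) (1 - z - 2 * W + 2 * W)).filter (fun t => c - p + t • e ∈ A)).card =
      ((Ico z (z + 2 * W)).filter (fun t => p + t • e ∈ A)).card := by
  refine Finset.card_nbij' (fun t => -t) (fun t => -t) ?_ ?_ ?_ ?_
  · intro t ht
    simp only [coe_filter, mem_Ico, Set.mem_ofPred_eq] at ht ⊢
    rw [neg_iff sA] at ht
    exact ⟨by omega, ht.2⟩
  · intro t ht
    simp only [coe_filter, mem_Ico, Set.mem_ofPred_eq] at ht ⊢
    rw [neg_iff sA, neg_neg]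
    exact ⟨by omega, ht.2⟩
  · intro t _
    simp
  · intro t _
    simp

theorem Cl.neg (sK : ∀ x, x ∈ K ↔ c - x ∈ K) (sL : ∀ x, x ∈ L ↔ c - x ∈ L) (h : Cl K L e p W) :
    Cl K L e (c - p) W := by
  obtain ⟨z, h1, h2⟩ := h
  refine ⟨1 - z - 2 * W, fun t ht => ?_, ?_⟩
  · rw [neg_iff sK, neg_iff sL] at ht
    have := h1 (-t) ht
    omega
  · rw [card_neg sK, card_neg sL, h2]

theorem Cl.memK (h : Cl K L e p W) (hp : Df K L p) : ∃ t : ℤ, p + t • e ∈ K ∧ p + t • e ∉ L := by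
  by_cases hK : p ∈ K
  · have hL : p ∉ L := fun hL => hp ⟨fun _ => hL, fun _ => hK⟩
    exact ⟨0, by simpa using hK, by simpa using hL⟩
  · have hL : p ∈ L := by
      by_contra hL
      exact hp ⟨fun h => absurd h hK, fun h => absurd h hL⟩
    by_contra hcon
    push Not at hcon
    obtain ⟨z, h1, h2⟩ := h
    have h0 := h1 0 (Or.inr (by simpa using hL))
    have hlt : ((Ico z (z + 2 * W)).filter (fun t => p + t • e ∈ K)).card <
        ((Ico z (z + 2 * W)).filter (fun t => p + t • e ∈ L)).card := by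
      apply Finset.card_lt_card
      rw [Finset.ssubset_iff_of_subset]
      · refine ⟨0, ?_, ?_⟩
        · simp only [mem_filter, mem_Ico]
          exact ⟨h0, by simpa using hL⟩
        · simp only [mem_filter, mem_Ico, not_and]
          intro _
          simpa using hK
      · intro t ht
        simp only [mem_filter, mem_Ico] at ht ⊢
        exact ⟨ht.1, hcon t ht.2⟩
    omega

theorem Cl.memL (h : Cl K L e p W) (hp : Df K L p) : ∃ t : ℤ, p + t • e ∈ L ∧ p + t • e ∉ K :=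
  h.symm.memK fun h' => hp h'.symm

theorem Cl.not_run (h : Cl K L e p W) {t₁ : ℤ}
    (hr : ∀ t : ℤ, 0 ≤ t → t ≤ 2 * W → p + (t₁ + t) • e ∈ K) : False := by
  obtain ⟨z, h1, _⟩ := h
  have a := h1 (t₁ + 0) (Or.inl (hr 0 le_rfl (by positivity)))
  have b := h1 (t₁ + 2 * W) (Or.inl (hr (2 * W) (by positivity) le_rfl))
  omega

end Pool.Agent.Lib.MP_8cf263_co
end

section

/-!
# One round spot, file RsNrm: norms on `ℝ ^ n`

`Nrm.equiv`: there are `a, b > 0` with `a |x i| ≤ N x` for all `i`, and `N x ≤ b s` if `|x i| ≤ s` for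
all `i`.
Proof.  `N x ≤ ∑ |x i| N (Pi.single i 1) ≤ (∑ N (Pi.single i 1) + 1) s`.  So `N` is continuous
(`Nrm.cont`: `|N x - N y| ≤ N (x - y) ≤ b ‖x - y‖`).  The unit sphere `{x : ‖x‖ = 1}` of the supremum
norm of `Fin n → ℝ` is compact; if it is empty (`n = 0`) take `a = 1`; otherwise `N` has a positive
minimum `a` on it (`Nrm.z`), and `a ‖x‖ ≤ N x` by homogeneity.

`Nrm.supp`: for every `y` there is `l : Fin n → ℝ` with `l ⬝ᵥ y = N y` and `l ⬝ᵥ x ≤ N x` for all `x`.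
Proof: Hahn-Banach (`exists_extension_of_le_sublinear`) for the functional `t y ↦ t N y` on the span
of `y` (if `y = 0` take `l = 0`); `t N y ≤ |t| N y = N (t y)`.  Every linear functional on
`Fin n → ℝ` is `x ↦ l ⬝ᵥ x` with `l i = φ (Pi.single i 1)`.

`Nrm.sub`: for every `y` there is `p` with `N y ^ 2 + p ⬝ᵥ (z - y) ≤ N z ^ 2` for all `z`.
Proof: `p = (2 N y) • l`; `p ⬝ᵥ (z - y) = 2 N y (l ⬝ᵥ z) - 2 N y ^ 2 ≤ 2 N y N z - 2 N y ^ 2` and
`N z ^ 2 - 2 N y N z + N y ^ 2 ≥ 0`.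

`Nrm.lc`: `K = {x ∈ ℤ ^ n : N (em (vs c x)) ≤ λ}` is a convex lattice set (`LC`) and `x ∈ K ↔ c - x ∈ K`.
Proof.  `em (vs c x) = 2 • em x - em c`; the set `{z : N (2 • z - em c) ≤ λ}` is convex and contains
`em '' K`, so it contains the convex hull.  `vs c (c - x) = - vs c x` and `N (- v) = N v`.
-/

set_option autoImplicit false

namespace Pool.Agent.Lib.MP_8cf263_co

/-- a norm on `ℝ ^ n` -/
structure Nrm {n : ℕ} (N : (Fin n → ℝ) → ℝ) : Prop where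
  nn : ∀ x, 0 ≤ N x
  z : ∀ x, N x = 0 → x = 0
  sm : ∀ (t : ℝ) (x : Fin n → ℝ), N (t • x) = |t| * N x
  tri : ∀ x y, N (x + y) ≤ N x + N y

variable {n : ℕ} {N : (Fin n → ℝ) → ℝ}

private theorem Nrm.zero (h : Nrm N) : N 0 = 0 := by
  have := h.sm 0 0
  simpa using this

private theorem Nrm.neg (h : Nrm N) (x : Fin n → ℝ) : N (-x) = N x := by
  have := h.sm (-1) x
  simpa using this

private theorem Nrm.sum_le (h : Nrm N) {ι : Type*} (s : Finset ι) (f : ι → Fin n → ℝ) :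
    N (∑ i ∈ s, f i) ≤ ∑ i ∈ s, N (f i) := by
  classical
  induction s using Finset.induction_on with
  | empty => simp [h.zero]
  | insert a s ha ih =>
    rw [Finset.sum_insert ha, Finset.sum_insert ha]
    exact (h.tri _ _).trans (by linarith)

/-- the upper constant -/
private noncomputable def bN (N : (Fin n → ℝ) → ℝ) : ℝ := (∑ i, N (Pi.single i 1)) + 1

private theorem Nrm.bN_pos (h : Nrm N) : 0 < bN N := by
  have : 0 ≤ ∑ i, N (Pi.single i 1) := Finset.sum_nonneg fun i _ => h.nn _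
  unfold bN
  linarith

private theorem Nrm.upper (h : Nrm N) (x : Fin n → ℝ) (s : ℝ) (hs : 0 ≤ s) (hx : ∀ i, |x i| ≤ s) :
    N x ≤ bN N * s := by
  have e : x = ∑ i, x i • (Pi.single i (1 : ℝ) : Fin n → ℝ) := by
    funext j
    simp [Finset.sum_apply, Pi.single_apply]
  calc N x = N (∑ i, x i • (Pi.single i (1 : ℝ) : Fin n → ℝ)) := by rw [← e]
    _ ≤ ∑ i, N (x i • (Pi.single i (1 : ℝ) : Fin n → ℝ)) := h.sum_le _ _
    _ = ∑ i, |x i| * N (Pi.single i 1) := Finset.sum_congr rfl fun i _ => h.sm _ _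
    _ ≤ ∑ i, s * N (Pi.single i 1) :=
        Finset.sum_le_sum fun i _ => mul_le_mul_of_nonneg_right (hx i) (h.nn _)
    _ = (∑ i, N (Pi.single i 1)) * s := by rw [← Finset.mul_sum, mul_comm]
    _ ≤ bN N * s := by
        refine mul_le_mul_of_nonneg_right ?_ hs
        unfold bN
        linarith

private theorem Nrm.abs_sub_le (h : Nrm N) (x y : Fin n → ℝ) : |N x - N y| ≤ bN N * ‖x - y‖ := by
  have h1 : N x ≤ N (x - y) + N y := by
    have := h.tri (x - y) y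
    rwa [sub_add_cancel] at this
  have h2 : N y ≤ N (x - y) + N x := by
    have := h.tri (y - x) x
    rw [sub_add_cancel] at this
    have e : N (y - x) = N (x - y) := by rw [← neg_sub, h.neg]
    rwa [e] at this
  have h3 : N (x - y) ≤ bN N * ‖x - y‖ :=
    h.upper _ _ (norm_nonneg _) fun i => by
      have := norm_le_pi_norm (x - y) i
      rwa [Real.norm_eq_abs] at this
  rw [abs_le]
  constructor <;> linarith

theorem Nrm.cont (h : Nrm N) : Continuous N := by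
  have hb := h.bN_pos
  have : LipschitzWith ⟨bN N, hb.le⟩ N := by
    refine LipschitzWith.of_dist_le_mul fun x y => ?_
    rw [Real.dist_eq, dist_eq_norm]
    exact h.abs_sub_le x y
  exact this.continuous

theorem Nrm.equiv (h : Nrm N) : ∃ a b : ℝ, 0 < a ∧ 0 < b ∧ (∀ x i, a * |x i| ≤ N x) ∧
    ∀ (x : Fin n → ℝ) (s : ℝ), 0 ≤ s → (∀ i, |x i| ≤ s) → N x ≤ b * s := by
  have key : ∃ a : ℝ, 0 < a ∧ ∀ x : Fin n → ℝ, a * ‖x‖ ≤ N x := by
    rcases (Metric.sphere (0 : Fin n → ℝ) 1).eq_empty_or_nonempty with he | hne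
    · refine ⟨1, one_pos, fun x => ?_⟩
      rcases eq_or_ne x 0 with rfl | hx
      · simp [h.zero]
      · exfalso
        have hx' : ‖x‖ ≠ 0 := norm_ne_zero_iff.2 hx
        have : ‖x‖⁻¹ • x ∈ Metric.sphere (0 : Fin n → ℝ) 1 := by
          rw [mem_sphere_zero_iff_norm, norm_smul, norm_inv, norm_norm, inv_mul_cancel₀ hx']
        rw [he] at this
        exact this
    · obtain ⟨x0, hx0, hmin⟩ := (isCompact_sphere (0 : Fin n → ℝ) 1).exists_isMinOn hne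
        h.cont.continuousOn
      have hx0' : ‖x0‖ = 1 := mem_sphere_zero_iff_norm.1 hx0
      have hpos : 0 < N x0 := by
        refine lt_of_le_of_ne (h.nn _) fun hz => ?_
        have := h.z x0 hz.symm
        rw [this, norm_zero] at hx0'
        exact zero_ne_one hx0'
      refine ⟨N x0, hpos, fun x => ?_⟩
      rcases eq_or_ne x 0 with rfl | hx
      · simp [h.zero]
      · have hx' : ‖x‖ ≠ 0 := norm_ne_zero_iff.2 hx
        have hm : ‖x‖⁻¹ • x ∈ Metric.sphere (0 : Fin n → ℝ) 1 := by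
          rw [mem_sphere_zero_iff_norm, norm_smul, norm_inv, norm_norm, inv_mul_cancel₀ hx']
        have h1 : N x0 ≤ N (‖x‖⁻¹ • x) := hmin hm
        rw [h.sm, abs_of_nonneg (inv_nonneg.2 (norm_nonneg x))] at h1
        have hp : 0 < ‖x‖ := norm_pos_iff.2 hx
        calc N x0 * ‖x‖ ≤ ‖x‖⁻¹ * N x * ‖x‖ := mul_le_mul_of_nonneg_right h1 hp.le
          _ = N x := by field_simp
  obtain ⟨a, ha, hax⟩ := key
  refine ⟨a, bN N, ha, h.bN_pos, fun x i => ?_, fun x s hs hx => h.upper x s hs hx⟩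
  refine (mul_le_mul_of_nonneg_left ?_ ha.le).trans (hax x)
  have := norm_le_pi_norm x i
  rwa [Real.norm_eq_abs] at this

theorem Nrm.supp (h : Nrm N) (y : Fin n → ℝ) :
    ∃ l : Fin n → ℝ, l ⬝ᵥ y = N y ∧ ∀ x, l ⬝ᵥ x ≤ N x := by
  rcases eq_or_ne y 0 with rfl | hy
  · exact ⟨0, by simp [h.zero], fun x => by simpa using h.nn x⟩
  · obtain ⟨g, hg1, hg2⟩ := exists_extension_of_le_sublinear
      (LinearPMap.mkSpanSingleton (K := ℝ) y (N y) hy) N
      (fun c hc x => by rw [h.sm, abs_of_pos hc]) h.tri (by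
        rintro ⟨x, hx⟩
        obtain ⟨t, rfl⟩ := Submodule.mem_span_singleton.1 hx
        have e : (LinearPMap.mkSpanSingleton (K := ℝ) y (N y) hy) ⟨t • y, hx⟩ = t • N y :=
          LinearPMap.mkSpanSingleton'_apply _ _ _ _ _
        rw [e, h.sm, smul_eq_mul]
        exact mul_le_mul_of_nonneg_right (le_abs_self t) (h.nn y))
    have hg : ∀ x : Fin n → ℝ, (fun i => g (Pi.single i 1)) ⬝ᵥ x = g x := by
      intro x
      have e : x = ∑ i, x i • (Pi.single i (1 : ℝ) : Fin n → ℝ) := by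
        funext j
        simp [Finset.sum_apply, Pi.single_apply]
      conv_rhs => rw [e]
      rw [map_sum]
      simp only [dotProduct, map_smul, smul_eq_mul]
      exact Finset.sum_congr rfl fun i _ => mul_comm _ _
    refine ⟨fun i => g (Pi.single i 1), ?_, fun x => ?_⟩
    · rw [hg]
      have h1 := hg1 ⟨y, Submodule.mem_span_singleton_self y⟩
      rw [LinearPMap.mkSpanSingleton_apply] at h1
      exact h1
    · rw [hg]
      exact hg2 x

theorem Nrm.sub (h : Nrm N) (y : Fin n → ℝ) :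
    ∃ p : Fin n → ℝ, ∀ z, N y ^ 2 + p ⬝ᵥ (z - y) ≤ N z ^ 2 := by
  obtain ⟨l, hl1, hl2⟩ := h.supp y
  refine ⟨(2 * N y) • l, fun z => ?_⟩
  have h1 : ((2 * N y) • l) ⬝ᵥ (z - y) = 2 * N y * (l ⬝ᵥ z) - 2 * N y ^ 2 := by
    rw [smul_dotProduct, dotProduct_sub, hl1, smul_eq_mul]
    ring
  rw [h1]
  have h2 : 2 * N y * (l ⬝ᵥ z) ≤ 2 * N y * N z :=
    mul_le_mul_of_nonneg_left (hl2 z) (mul_nonneg zero_le_two (h.nn y))
  nlinarith [sq_nonneg (N z - N y)]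

theorem Nrm.lc (h : Nrm N) {K : Finset (Fin n → ℤ)} {c : Fin n → ℤ} {lam : ℝ}
    (hK : ∀ x, x ∈ K ↔ N (em (vs c x)) ≤ lam) : LC K ∧ ∀ x, x ∈ K ↔ c - x ∈ K := by
  have e1 : ∀ x : Fin n → ℤ, em (vs c x) = (2 : ℝ) • em x - em c := by
    intro x
    funext i
    simp [em, vs]
  constructor
  · intro x hx
    rw [hK, e1]
    have hconv : Convex ℝ {z : Fin n → ℝ | N ((2 : ℝ) • z - em c) ≤ lam} := by
      intro u hu v hv s t hs ht hst
      simp only [Set.mem_ofPred_eq] at hu hv ⊢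
      have e2 : (2 : ℝ) • (s • u + t • v) - em c
          = s • ((2 : ℝ) • u - em c) + t • ((2 : ℝ) • v - em c) := by
        have e3 : em c = s • em c + t • em c := by rw [← add_smul, hst, one_smul]
        conv_lhs => rw [e3]
        module
      rw [e2]
      calc N (s • ((2 : ℝ) • u - em c) + t • ((2 : ℝ) • v - em c))
          ≤ N (s • ((2 : ℝ) • u - em c)) + N (t • ((2 : ℝ) • v - em c)) := h.tri _ _
        _ = s * N ((2 : ℝ) • u - em c) + t * N ((2 : ℝ) • v - em c) := by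
            rw [h.sm, h.sm, abs_of_nonneg hs, abs_of_nonneg ht]
        _ ≤ s * lam + t * lam :=
            add_le_add (mul_le_mul_of_nonneg_left hu hs) (mul_le_mul_of_nonneg_left hv ht)
        _ = lam := by rw [← add_mul, hst, one_mul]
    have hsub : convexHull ℝ (em '' (K : Set (Fin n → ℤ))) ⊆
        {z : Fin n → ℝ | N ((2 : ℝ) • z - em c) ≤ lam} := by
      refine convexHull_min ?_ hconv
      rintro _ ⟨z, hz, rfl⟩
      simp only [Set.mem_ofPred_eq]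
      rw [← e1]
      exact (hK z).1 (by exact_mod_cast hz)
    exact hsub hx
  · intro x
    rw [hK, hK]
    have e2 : em (vs c (c - x)) = - em (vs c x) := by
      funext i
      simp only [em, vs, Pi.sub_apply, Pi.neg_apply]
      push_cast
      ring
    rw [e2, h.neg]

end Pool.Agent.Lib.MP_8cf263_co
end

section

/-!
# One round spot, file RsCap: caps at a round spot

`Spot N q ρ μ M`: `N` is a norm, `N q = 1`, the coordinate `x 0` attains its maximum over the unit ball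
of `N` at `q`, and the second differences of `N ^ 2` are pinched on the ball `Bl q (4 ρ)`.

`Spot.pos`: `0 < q 0` (`sup` for `x = Pi.single 0 1`: `1 ≤ q 0 * N x`, `N x ≥ 0`).

`Spot.strong`: `1 + (2 / q 0) (x 0 - q 0) + μ |x - q| ^ 2 ≤ N x ^ 2` for `x ∈ Bl q (3 ρ)`.
Proof: `quad` (RsHalve) for `f = N ^ 2`, `y = q` and `p = (2 / q 0) • Pi.single 0 1`, which is a
subgradient of `N ^ 2` at `q`: for every `z` let `τ = z 0 / q 0 - 1`; by `sup` `1 + τ ≤ N z`, so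
`N z ^ 2 ≥ 1 + 2 τ` (if `1 + τ ≥ 0` because `N z ^ 2 ≥ (1 + τ) ^ 2`, otherwise because `1 + 2 τ < 0`).

`Spot.cap`.  Let `F` be convex and `F = N ^ 2` on `Bl q ρ`.  Let `κ = q 0`, `Q = √(q ⬝ᵥ q)`,
`δ = min (κ μ ρ ^ 2 / 8) (κ ρ / (2 (Q + 1)))`, `η = min (κ μ ρ / 8) (κ / (2 (Q + 1)))`, and let
`u` be a vector with `|u - e₀| ≤ η`, `e₀ = Pi.single 0 1`.
(A) If `N x ≤ 1` or `F x ≤ 1`, and `u ⬝ᵥ q - δ ≤ u ⬝ᵥ x`, then `x ∈ Bl q ρ`.
Proof.  Otherwise `D = |x - q| > ρ`; put `t = ρ / D`, `x' = q + t (x - q) = (1 - t) q + t x`,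
`|x' - q| = ρ`.  By convexity `N x' ≤ 1` or `F x' ≤ 1` (`F q = N q ^ 2 = 1`); as `x' ∈ Bl q ρ`, in both
cases `N x' ^ 2 ≤ 1`.  `u ⬝ᵥ (x' - q) = t u ⬝ᵥ (x - q) ≥ - t δ ≥ - δ` and
`|(u - e₀) ⬝ᵥ (x' - q)| ≤ η ρ` (Cauchy-Schwarz), so `x' 0 - q 0 ≥ - δ - η ρ`.  By `Spot.strong`
`1 ≥ 1 - (2 / κ) (δ + η ρ) + μ ρ ^ 2 ≥ 1 + μ ρ ^ 2 / 2`, a contradiction.
(B) `κ / 2 ≤ u ⬝ᵥ q`, since `|(u - e₀) ⬝ᵥ q| ≤ η Q ≤ κ / 2`.
(C) If `u ⬝ᵥ q - δ ≤ t (u ⬝ᵥ q)` and `t ≤ 1` then `t q ∈ Bl q ρ`: `(1 - t) ≤ δ / (u ⬝ᵥ q) ≤ 2 δ / κ`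
and `|t q - q| = (1 - t) Q ≤ 2 δ Q / κ ≤ ρ`.
-/

set_option autoImplicit false

namespace Pool.Agent.Lib.MP_8cf263_co

/-- a norm with a round spot -/
structure Spot {m : ℕ} (N : (Fin (m + 2) → ℝ) → ℝ) (q : Fin (m + 2) → ℝ) (ρ μ M : ℝ) : Prop where
  nrm : Nrm N
  one : N q = 1
  sup : ∀ x, x 0 ≤ q 0 * N x
  pin : Pin (fun x => N x ^ 2) q (4 * ρ) μ M
  hρ : 0 < ρ
  hμ : 0 < μ
  hM : μ < M

variable {m : ℕ} {N : (Fin (m + 2) → ℝ) → ℝ} {q : Fin (m + 2) → ℝ} {ρ μ M : ℝ}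

private theorem cs0 {n : ℕ} (a b : Fin n → ℝ) : (a ⬝ᵥ b) ^ 2 ≤ (a ⬝ᵥ a) * (b ⬝ᵥ b) := by
  have h := Finset.sum_mul_sq_le_sq_mul_sq Finset.univ a b
  simp only [dotProduct]
  calc (∑ i, a i * b i) ^ 2 ≤ (∑ i, a i ^ 2) * ∑ i, b i ^ 2 := h
    _ = (∑ i, a i * a i) * ∑ i, b i * b i := by simp only [sq]

private theorem dp0 {n : ℕ} (v : Fin n → ℝ) : 0 ≤ v ⬝ᵥ v :=
  Finset.sum_nonneg fun _ _ => mul_self_nonneg _

theorem Spot.pos (h : Spot N q ρ μ M) : 0 < q 0 := by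
  have h1 := h.sup (Pi.single 0 1)
  rw [Pi.single_eq_same] at h1
  have h2 := h.nrm.nn (Pi.single 0 1)
  by_contra hq
  push Not at hq
  have h3 := mul_nonneg (neg_nonneg.2 hq) h2
  linarith

theorem Spot.strong (h : Spot N q ρ μ M) {x : Fin (m + 2) → ℝ} (hx : Bl q (3 * ρ) x) :
    1 + 2 / q 0 * (x 0 - q 0) + μ * ((x - q) ⬝ᵥ (x - q)) ≤ N x ^ 2 := by
  have hκ := h.pos
  have hq : Bl q (3 * ρ) q := by
    unfold Bl
    rw [sub_self, zero_dotProduct]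
    positivity
  have hd : ∀ z : Fin (m + 2) → ℝ, ((2 / q 0) • (Pi.single 0 1 : Fin (m + 2) → ℝ)) ⬝ᵥ (z - q) =
      2 / q 0 * (z 0 - q 0) := by
    intro z
    rw [smul_dotProduct, single_one_dotProduct, smul_eq_mul, Pi.sub_apply]
  have hp : ∀ z, (fun x => N x ^ 2) q + ((2 / q 0) • (Pi.single 0 1 : Fin (m + 2) → ℝ)) ⬝ᵥ (z - q) ≤
      (fun x => N x ^ 2) z := by
    intro z
    rw [hd]
    show N q ^ 2 + _ ≤ N z ^ 2
    rw [h.one]
    have h1 := h.sup z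
    have h2 : z 0 / q 0 ≤ N z := by
      rw [div_le_iff₀ hκ]
      linarith
    have h3 : 2 / q 0 * (z 0 - q 0) = 2 * (z 0 / q 0) - 2 := by
      field_simp
    rw [h3]
    nlinarith [sq_nonneg (N z - 1)]
  have h1 := (quad h.hρ h.pin hx hq hp).1
  rw [hd] at h1
  rw [h.one, one_pow] at h1
  exact h1

theorem Spot.cap (h : Spot N q ρ μ M) {F : (Fin (m + 2) → ℝ) → ℝ}
    (hF : ∀ x, Bl q ρ x → F x = N x ^ 2)
    (hconv : ∀ x y : Fin (m + 2) → ℝ, ∀ t : ℝ, 0 ≤ t → t ≤ 1 →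
      F ((1 - t) • x + t • y) ≤ (1 - t) * F x + t * F y) :
    ∃ δ η : ℝ, 0 < δ ∧ 0 < η ∧ ∀ u : Fin (m + 2) → ℝ,
      (u - Pi.single 0 1) ⬝ᵥ (u - Pi.single 0 1) ≤ η ^ 2 →
      (∀ x, (N x ≤ 1 ∨ F x ≤ 1) → u ⬝ᵥ q - δ ≤ u ⬝ᵥ x → Bl q ρ x) ∧ 0 < u ⬝ᵥ q ∧
      ∀ t : ℝ, u ⬝ᵥ q - δ ≤ t * (u ⬝ᵥ q) → t ≤ 1 → Bl q ρ (t • q) := by
  have hκ := h.pos
  have hρ := h.hρ
  have hμ := h.hμ
  obtain ⟨κ, hκe⟩ : ∃ κ, κ = q 0 := ⟨_, rfl⟩
  rw [← hκe] at hκ
  obtain ⟨Q, hQe⟩ : ∃ Q, Q = √(q ⬝ᵥ q) := ⟨_, rfl⟩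
  have hQ0 : 0 ≤ Q := by rw [hQe]; exact Real.sqrt_nonneg _
  have hQ2 : Q ^ 2 = q ⬝ᵥ q := by rw [hQe]; exact Real.sq_sqrt (dp0 q)
  have hQ1 : 0 < 2 * (Q + 1) := by linarith
  refine ⟨min (κ * μ * ρ ^ 2 / 8) (κ * ρ / (2 * (Q + 1))),
    min (κ * μ * ρ / 8) (κ / (2 * (Q + 1))), lt_min (by positivity) (by positivity),
    lt_min (by positivity) (by positivity), ?_⟩
  obtain ⟨δ, hδ⟩ : ∃ δ, δ = min (κ * μ * ρ ^ 2 / 8) (κ * ρ / (2 * (Q + 1))) := ⟨_, rfl⟩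
  obtain ⟨η, hη⟩ : ∃ η, η = min (κ * μ * ρ / 8) (κ / (2 * (Q + 1))) := ⟨_, rfl⟩
  have hδ0 : 0 < δ := by rw [hδ]; exact lt_min (by positivity) (by positivity)
  have hη0 : 0 < η := by rw [hη]; exact lt_min (by positivity) (by positivity)
  have hδ1 : δ ≤ κ * μ * ρ ^ 2 / 8 := by rw [hδ]; exact min_le_left _ _
  have hδ2 : δ ≤ κ * ρ / (2 * (Q + 1)) := by rw [hδ]; exact min_le_right _ _
  have hη1 : η ≤ κ * μ * ρ / 8 := by rw [hη]; exact min_le_left _ _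
  have hη2 : η ≤ κ / (2 * (Q + 1)) := by rw [hη]; exact min_le_right _ _
  rw [← hδ, ← hη]
  rw [le_div_iff₀ hQ1] at hδ2 hη2
  intro u hu
  obtain ⟨v, hv⟩ : ∃ v : Fin (m + 2) → ℝ, v = u - Pi.single 0 1 := ⟨_, rfl⟩
  rw [← hv] at hu
  have hcs : ∀ (w : Fin (m + 2) → ℝ) (W : ℝ), 0 ≤ W → w ⬝ᵥ w ≤ W ^ 2 → |v ⬝ᵥ w| ≤ η * W := by
    intro w W hW hw
    refine abs_le_of_sq_le_sq ?_ (by positivity)
    calc (v ⬝ᵥ w) ^ 2 ≤ (v ⬝ᵥ v) * (w ⬝ᵥ w) := cs0 v w
      _ ≤ η ^ 2 * W ^ 2 := mul_le_mul hu hw (dp0 w) (by positivity)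
      _ = (η * W) ^ 2 := by ring
  have huw : ∀ w : Fin (m + 2) → ℝ, u ⬝ᵥ w = w 0 + v ⬝ᵥ w := by
    intro w
    rw [hv, sub_dotProduct, single_one_dotProduct]
    ring
  -- (B)
  have hB : κ / 2 ≤ u ⬝ᵥ q := by
    rw [huw, ← hκe]
    have h1 := hcs q Q hQ0 hQ2.ge
    have h2 := (abs_le.1 h1).1
    nlinarith
  have hB0 : 0 < u ⬝ᵥ q := by linarith
  refine ⟨?_, hB0, ?_⟩
  · -- (A)
    intro x hx hux
    by_contra hcon
    unfold Bl at hcon
    push Not at hcon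
    obtain ⟨D, hD⟩ : ∃ D, D = √((x - q) ⬝ᵥ (x - q)) := ⟨_, rfl⟩
    have hD0 : 0 ≤ D := by rw [hD]; exact Real.sqrt_nonneg _
    have hD2 : D ^ 2 = (x - q) ⬝ᵥ (x - q) := by rw [hD]; exact Real.sq_sqrt (dp0 _)
    have hDρ : ρ < D := by
      rw [← hD2] at hcon
      exact lt_of_pow_lt_pow_left₀ 2 hD0 hcon
    have hDp : 0 < D := hρ.trans hDρ
    obtain ⟨t, ht⟩ : ∃ t, t = ρ / D := ⟨_, rfl⟩
    have ht0 : 0 < t := by rw [ht]; positivity
    have ht1 : t ≤ 1 := by rw [ht]; exact (div_le_one hDp).2 hDρ.le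
    have htD : t * D = ρ := by rw [ht]; exact div_mul_cancel₀ _ hDp.ne'
    obtain ⟨y, hy⟩ : ∃ y, y = (1 - t) • q + t • x := ⟨_, rfl⟩
    have hyq : y - q = t • (x - q) := by
      rw [hy]
      module
    have hyy : (y - q) ⬝ᵥ (y - q) = ρ ^ 2 := by
      rw [hyq, smul_dotProduct, dotProduct_smul, ← hD2, smul_eq_mul, smul_eq_mul, ← htD]
      ring
    have hyB : Bl q ρ y := hyy.le
    have hqB : Bl q ρ q := by
      unfold Bl
      rw [sub_self, zero_dotProduct]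
      positivity
    have hNy : N y ^ 2 ≤ 1 := by
      rcases hx with hx | hx
      · have h1 : N y ≤ 1 := by
          calc N y ≤ N ((1 - t) • q) + N (t • x) := by rw [hy]; exact h.nrm.tri _ _
            _ = (1 - t) * N q + t * N x := by
              rw [h.nrm.sm, h.nrm.sm, abs_of_nonneg (sub_nonneg.2 ht1), abs_of_pos ht0]
            _ ≤ (1 - t) * 1 + t * 1 := by
              rw [h.one]
              have := mul_le_mul_of_nonneg_left hx ht0.le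
              linarith
            _ = 1 := by ring
        have h0 := h.nrm.nn y
        exact pow_le_one₀ h0 h1
      · have h1 := hconv q x t ht0.le ht1
        rw [← hy, hF y hyB, hF q hqB, h.one] at h1
        have := mul_le_mul_of_nonneg_left hx ht0.le
        linarith
    have hy3 : Bl q (3 * ρ) y := by
      unfold Bl
      rw [hyy]
      nlinarith [sq_nonneg ρ]
    have h1 := h.strong hy3
    rw [← hκe, hyy] at h1
    have h2 : -δ ≤ u ⬝ᵥ (y - q) := by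
      rw [hyq, dotProduct_smul, dotProduct_sub, smul_eq_mul]
      have h3 : -δ ≤ u ⬝ᵥ x - u ⬝ᵥ q := by linarith
      have h4 := mul_le_mul_of_nonneg_left h3 ht0.le
      have h5 := mul_le_mul_of_nonneg_right ht1 hδ0.le
      linarith
    rw [huw, Pi.sub_apply, ← hκe] at h2
    have h3 := (abs_le.1 (hcs (y - q) ρ hρ.le hyy.le)).2
    have h4 : -(κ * μ * ρ ^ 2 / 4) ≤ y 0 - κ := by
      have h5 : η * ρ ≤ κ * μ * ρ / 8 * ρ := mul_le_mul_of_nonneg_right hη1 hρ.le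
      nlinarith
    have h6 : 2 / κ * (-(κ * μ * ρ ^ 2 / 4)) ≤ 2 / κ * (y 0 - κ) :=
      mul_le_mul_of_nonneg_left h4 (by positivity)
    have h7 : 2 / κ * (-(κ * μ * ρ ^ 2 / 4)) = -(μ * ρ ^ 2 / 2) := by
      field_simp
      ring
    have h8 : 0 < μ * ρ ^ 2 := by positivity
    linarith
  · -- (C)
    intro t ht ht1
    unfold Bl
    have e : t • q - q = -((1 - t) • q) := by module
    rw [e, neg_dotProduct, dotProduct_neg, neg_neg, smul_dotProduct, dotProduct_smul, ← hQ2,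
      smul_eq_mul, smul_eq_mul]
    have h1 : (1 - t) * (κ / 2) ≤ δ := by
      have h2 := mul_le_mul_of_nonneg_left hB (sub_nonneg.2 ht1)
      linarith
    have h3 : (1 - t) * (Q + 1) ≤ ρ := by
      have h4 := mul_le_mul_of_nonneg_right h1 hQ1.le
      have h5 : κ * ((1 - t) * (Q + 1)) ≤ κ * ρ := by linarith
      exact le_of_mul_le_mul_left h5 hκ
    have h6 : (1 - t) * Q ≤ ρ := by
      have := sub_nonneg.2 ht1
      linarith
    have h7 : 0 ≤ (1 - t) * Q := mul_nonneg (sub_nonneg.2 ht1) hQ0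
    nlinarith [pow_le_pow_left₀ h7 h6 2]

end Pool.Agent.Lib.MP_8cf263_co
end
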