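import Pool.Agent.Lib.MP_8cf263_co.RpDio
import Pool.Agent.Lib.MP_8cf263_co.RpDefs
import Pool.Agent.Lib.MP_8cf263_co.RsCap
import Pool.Agent.Lib.MP_8cf263_co.Face

section

/-!
# Polytopes, file RpRat: no point of `L` is above a facet with an integer normal

`PT.rat`.  Let `h j = em k`, `k ≠ 0`, `(K \ L).card ≤ N` and
`D ^ 2 (4 D ^ 3 + 2 D (N + 1) J) ≤ lam`.  Then `h j ⬝ᵥ em (vs c y) ≤ lam * b j` for all `y ∈ L`.

Proof.  Suppose `y ∈ L`, `em k ⬝ᵥ em (vs c y) > lam * b j`.  `|k i| ≤ D`, `∑ |k i| ≤ D` (`hD`).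
(1) `K` is not empty (it contains the points with small `vs`, `h.twf.core`).  Let `ν` be the
maximum of `em k ⬝ᵥ em (vs c x)` over `x ∈ K`, attained at `x_m`; `ν ≤ lam * b j`.
Let `g` be the centre of the facet `j` (`fc`); `h l ⬝ᵥ g ≤ b l` for all `l`, so `|g i| ≤ D` (`bdd`).
(2) `lam * b j - 2 D ^ 3 ≤ ν`: let `a = D ^ 2 ≤ lam`, `w' i = round (((lam - a) g i + c i) / 2)`, so
`|vs c w' i - (lam - a) g i| ≤ 1`.  `h l ⬝ᵥ em (vs c w') ≤ (lam - a) b l + D ≤ lam b l` (`dot_le`,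
`1 ≤ D b l`), so `w' ∈ K`, and `ν ≥ em k ⬝ᵥ em (vs c w') ≥ (lam - a) b j - D ≥ lam b j - D ^ 3 - D`.
(3) Let `τ = (lam g - vs c x_m) / 2`, `em k ⬝ᵥ τ = (lam b j - ν) / 2 ∈ [0, D ^ 3]`.  There is an integer
vector `z` with `k ⬝ᵥ z = 0` and `|z i - τ i| ≤ D / 2 + D ^ 3`: let `k i₀ ≠ 0`; for `l ≠ i₀` put
`m l = round (τ l / k i₀)`, `z l = k i₀ * m l`, and `z i₀ = - ∑_{l ≠ i₀} k l * m l`.  For `l ≠ i₀`
`|z l - τ l| ≤ |k i₀| / 2`; and `τ i₀ = (em k ⬝ᵥ τ - ∑_{l ≠ i₀} k l τ l) / k i₀`, so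
`z i₀ - τ i₀ = - ∑_{l ≠ i₀} k l (m l - τ l / k i₀) - (em k ⬝ᵥ τ) / k i₀`.
(4) Let `w = x_m + z`; `em k ⬝ᵥ em (vs c w) = ν` and `|vs c w i - lam g i| = 2 |z i - τ i| ≤ 4 D ^ 3`.
Let `l ≠ i₀`, `e` the primitive part (`prim_dir`, file Face) of the vector `u ≠ 0` with
`u l = k i₀`, `u i₀ = - k l` and other coordinates `0`; `k ⬝ᵥ e = 0`, `|e i| ≤ |u i| ≤ D`.  For
`0 ≤ t < (N + 1) J` the point `w + t • e` has `|vs c (w + t • e) i - lam g i| ≤ P`,
`P = 4 D ^ 3 + 2 D (N + 1) J`, so for `l' ≠ j`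
`h l' ⬝ᵥ em (vs c (w + t • e)) ≤ lam (b l' - 1 / D) + D P ≤ lam b l'`, and for `j` the value is
`ν ≤ lam b j`.  So `w + t • e ∈ K`.
(5) `y + w - c` is not parallel to `e`: otherwise `y + w - c = m • e` (`par_of_minors`) and
`0 = 2 k ⬝ᵥ (y + w - c) = k ⬝ᵥ vs c y + k ⬝ᵥ vs c w > lam b j + ν ≥ 2 lam b j - 2 D ^ 3 > 0`
(`lam b j ≥ lam / D ≥ 4 D ^ 4`).  `TwF.sumK` (file RpVis; `|e i| ≤ D ≤ 10 R` because
`4 D ^ 5 ≤ lam ≤ 2 D ^ 2 r ≤ 2 D ^ 2 R`) gives `x', y' ∈ K` with `x' + y' = y + (w + t • e)`, so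
`2 ν ≥ em k ⬝ᵥ em (vs c x') + em k ⬝ᵥ em (vs c y') = em k ⬝ᵥ em (vs c y) + ν > lam b j + ν ≥ 2 ν`, a
contradiction.
-/

set_option autoImplicit false

namespace Pool.Agent.Lib.MP_8cf263_co

open Finset

/-- an integer vector of the kernel of `k` close to a real vector almost in the kernel -/
private theorem ker_approx {n : ℕ} {k : Fin n → ℤ} {i₀ : Fin n} (hk : k i₀ ≠ 0) (τ : Fin n → ℝ)
    {D P : ℝ} (hD : ∑ i, |(k i : ℝ)| ≤ D) (hP : |em k ⬝ᵥ τ| ≤ P) :
    ∃ z : Fin n → ℤ, em k ⬝ᵥ em z = 0 ∧ ∀ i, |(z i : ℝ) - τ i| ≤ D + P := by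
  classical
  have hkr : (k i₀ : ℝ) ≠ 0 := by exact_mod_cast hk
  have hP0 : 0 ≤ P := (abs_nonneg _).trans hP
  have hk1 : (1 : ℝ) ≤ |(k i₀ : ℝ)| := by exact_mod_cast Int.one_le_abs hk
  have hkD : |(k i₀ : ℝ)| ≤ D :=
    (Finset.single_le_sum (f := fun i => |(k i : ℝ)|) (fun i _ => abs_nonneg _)
      (mem_univ i₀)).trans hD
  have hD0 : 0 ≤ D := (abs_nonneg _).trans hkD
  obtain ⟨m, hm⟩ : ∃ m : Fin n → ℤ, ∀ l, m l = round (τ l / k i₀) := ⟨_, fun _ => rfl⟩
  have hδ : ∀ l, |(m l : ℝ) - τ l / k i₀| ≤ 1 / 2 := fun l => by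
    rw [abs_sub_comm, hm l]
    exact abs_sub_round _
  have hA : ∀ i, |(k i₀ : ℝ) * m i - τ i| ≤ D / 2 := by
    intro i
    have h1 : (k i₀ : ℝ) * m i - τ i = k i₀ * ((m i : ℝ) - τ i / k i₀) := by
      field_simp
    rw [h1, abs_mul]
    calc |(k i₀ : ℝ)| * |(m i : ℝ) - τ i / k i₀| ≤ D * (1 / 2) :=
          mul_le_mul hkD (hδ i) (abs_nonneg _) hD0
      _ = D / 2 := by ring
  have hS : |∑ l, (k l : ℝ) * m l| ≤ D / 2 + P := by
    have h1 : ∑ l, (k l : ℝ) * m l =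
        (em k ⬝ᵥ fun l => (m l : ℝ) - τ l / k i₀) + (em k ⬝ᵥ τ) / k i₀ := by
      simp only [dotProduct, em]
      rw [Finset.sum_div, ← Finset.sum_add_distrib]
      refine Finset.sum_congr rfl fun l _ => ?_
      ring
    have h2 := dot_le (φ := em k) (y := fun l => (m l : ℝ) - τ l / k i₀) hD
      (by norm_num : (0 : ℝ) ≤ 1 / 2) hδ
    have h3 : |(em k ⬝ᵥ τ) / (k i₀ : ℝ)| ≤ P := by
      rw [abs_div]
      exact (div_le_self (abs_nonneg _) hk1).trans hP
    rw [h1]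
    calc |(em k ⬝ᵥ fun l => (m l : ℝ) - τ l / k i₀) + (em k ⬝ᵥ τ) / k i₀|
        ≤ |em k ⬝ᵥ fun l => (m l : ℝ) - τ l / k i₀| + |(em k ⬝ᵥ τ) / (k i₀ : ℝ)| := abs_add_le _ _
      _ ≤ D / 2 + P := by linarith
  refine ⟨fun i => k i₀ * m i - (if i = i₀ then ∑ l, k l * m l else 0), ?_, fun i => ?_⟩
  · have h1 : em k ⬝ᵥ em (fun i => k i₀ * m i - (if i = i₀ then ∑ l, k l * m l else 0)) =
        ((∑ i, k i * (k i₀ * m i - (if i = i₀ then ∑ l, k l * m l else 0)) : ℤ) : ℝ) := by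
      simp only [dotProduct, em]
      push_cast
      rfl
    have h2 : ∑ i, k i * (k i₀ * m i - (if i = i₀ then ∑ l, k l * m l else 0)) = 0 := by
      have h3 : ∀ i, k i * (k i₀ * m i - (if i = i₀ then ∑ l, k l * m l else 0)) =
          k i₀ * (k i * m i) - (if i = i₀ then k i₀ * ∑ l, k l * m l else 0) := by
        intro i
        by_cases hi : i = i₀
        · rw [if_pos hi, if_pos hi, hi]
          ring
        · rw [if_neg hi, if_neg hi]
          ring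
      rw [Finset.sum_congr rfl fun i _ => h3 i, Finset.sum_sub_distrib, ← Finset.mul_sum,
        Finset.sum_ite_eq' univ i₀, if_pos (mem_univ _), sub_self]
    rw [h1, h2, Int.cast_zero]
  · by_cases hi : i = i₀
    · have h1 : ((k i₀ * m i - (if i = i₀ then ∑ l, k l * m l else 0) : ℤ) : ℝ) - τ i =
          ((k i₀ : ℝ) * m i - τ i) - ∑ l, (k l : ℝ) * m l := by
        rw [if_pos hi]
        push_cast
        ring
      rw [h1]
      calc |((k i₀ : ℝ) * m i - τ i) - ∑ l, (k l : ℝ) * m l|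
          ≤ |(k i₀ : ℝ) * m i - τ i| + |∑ l, (k l : ℝ) * m l| := abs_sub _ _
        _ ≤ D + P := by linarith [hA i]
    · have h1 : ((k i₀ * m i - (if i = i₀ then ∑ l, k l * m l else 0) : ℤ) : ℝ) - τ i =
          (k i₀ : ℝ) * m i - τ i := by
        rw [if_neg hi]
        push_cast
        ring
      rw [h1]
      linarith [hA i]

/-- a primitive direction of the kernel of `k` -/
private theorem ker_dir {n : ℕ} (hn : 2 ≤ n) {k : Fin n → ℤ} {i₀ : Fin n} (hk : k i₀ ≠ 0)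
    {D : ℝ} (hD : ∑ i, |(k i : ℝ)| ≤ D) :
    ∃ e : Fin n → ℤ, Pr e ∧ em k ⬝ᵥ em e = 0 ∧ ∀ i, |(e i : ℝ)| ≤ D := by
  classical
  have hkD : ∀ l, |(k l : ℝ)| ≤ D := fun l =>
    (Finset.single_le_sum (f := fun i => |(k i : ℝ)|) (fun i _ => abs_nonneg _)
      (mem_univ l)).trans hD
  have hD0 : 0 ≤ D := (abs_nonneg _).trans (hkD i₀)
  obtain ⟨l, hl⟩ : ∃ l : Fin n, l ≠ i₀ := by
    by_cases h0 : i₀ = ⟨0, by omega⟩
    · refine ⟨⟨1, by omega⟩, ?_⟩
      rw [h0]
      simp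
    · exact ⟨⟨0, by omega⟩, fun h => h0 h.symm⟩
  obtain ⟨u, hu⟩ : ∃ u : Fin n → ℤ, u = Pi.single l (k i₀) - Pi.single i₀ (k l) := ⟨_, rfl⟩
  have hul : u l = k i₀ := by
    rw [hu, Pi.sub_apply, Pi.single_eq_same, Pi.single_eq_of_ne hl, sub_zero]
  have hui : u i₀ = -k l := by
    rw [hu, Pi.sub_apply, Pi.single_eq_same, Pi.single_eq_of_ne (Ne.symm hl), zero_sub]
  have huo : ∀ i, i ≠ l → i ≠ i₀ → u i = 0 := by
    intro i h1 h2
    rw [hu, Pi.sub_apply, Pi.single_eq_of_ne h1, Pi.single_eq_of_ne h2, sub_zero]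
  have hu0 : u ≠ 0 := fun h => hk (by rw [← hul, h, Pi.zero_apply])
  have huD : ∀ i, |(u i : ℝ)| ≤ D := by
    intro i
    by_cases h1 : i = l
    · rw [h1, hul]
      exact hkD _
    · by_cases h2 : i = i₀
      · rw [h2, hui, Int.cast_neg, abs_neg]
        exact hkD _
      · rw [huo i h1 h2]
        simpa using hD0
  have hku : ∑ i, k i * u i = 0 := by
    rw [hu]
    simp only [Pi.sub_apply, mul_sub, Finset.sum_sub_distrib, Pi.single_apply, mul_ite, mul_zero,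
      Finset.sum_ite_eq', mem_univ, if_true]
    ring
  obtain ⟨e, he, g, hg, hue, -⟩ := prim_dir hu0
  refine ⟨e, he, ?_, fun i => ?_⟩
  · have h1 : em k ⬝ᵥ em e = ((∑ i, k i * e i : ℤ) : ℝ) := by
      simp only [dotProduct, em]
      push_cast
      rfl
    have h2 : g * ∑ i, k i * e i = 0 := by
      rw [← hku, Finset.mul_sum]
      refine Finset.sum_congr rfl fun i _ => ?_
      rw [hue, Pi.smul_apply, smul_eq_mul]
      ring
    have h3 : ∑ i, k i * e i = 0 := (mul_eq_zero.1 h2).resolve_left hg.ne'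
    rw [h1, h3, Int.cast_zero]
  · refine le_trans ?_ (huD i)
    have h1 : u i = g * e i := by
      rw [hue, Pi.smul_apply, smul_eq_mul]
    have h2 : (1 : ℝ) ≤ |(g : ℝ)| := by exact_mod_cast Int.one_le_abs hg.ne'
    rw [h1, Int.cast_mul, abs_mul]
    exact le_mul_of_one_le_left (abs_nonneg _) h2

theorem PT.rat {n : ℕ} (hn : 2 ≤ n) {ι : Type} {K L : Finset (Fin n → ℤ)} {c : Fin n → ℤ}
    {R r J kap : ℕ} {h : ι → Fin n → ℝ} {b : ι → ℝ} {D lam : ℝ}
    (H : PT K L c R r J kap h b D lam) {N : ℕ} (hN : (K \ L).card ≤ N) {j : ι}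
    {k : Fin n → ℤ} (hk : k ≠ 0) (hjk : h j = em k)
    (hlam : D ^ 2 * (4 * D ^ 3 + 2 * D * ((N + 1) * J)) ≤ lam) :
    ∀ y ∈ L, h j ⬝ᵥ em (vs c y) ≤ lam * b j := by
  classical
  intro y hy
  by_contra hcon
  rw [not_le] at hcon
  have hD1 := H.pol.D1
  have hD0 : 0 < D := lt_of_lt_of_le one_pos hD1
  have hkD : ∑ i, |(k i : ℝ)| ≤ D := by
    have h1 := H.pol.hD j
    rw [hjk] at h1
    exact h1
  obtain ⟨i₀, hi₀⟩ := Function.ne_iff.1 hk
  have hi₀' : k i₀ ≠ 0 := hi₀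
  obtain ⟨g, hg1, hg2⟩ := H.pol.fc j
  have hJ0 : (0 : ℝ) ≤ (J : ℝ) := Nat.cast_nonneg _
  have hN0 : (0 : ℝ) ≤ (N : ℝ) := Nat.cast_nonneg _
  have hNJ : (0 : ℝ) ≤ 2 * D * ((N + 1) * J) := by positivity
  have hD2 : (1 : ℝ) ≤ D ^ 2 := one_le_pow₀ hD1
  have hD3 : D ≤ D ^ 3 := le_self_pow₀ hD1 (by norm_num)
  have hD3' : (1 : ℝ) ≤ D ^ 3 := one_le_pow₀ hD1
  have hlam5 : 4 * D ^ 5 ≤ lam := by
    have h1 : D ^ 2 * (4 * D ^ 3) ≤ D ^ 2 * (4 * D ^ 3 + 2 * D * ((N + 1) * J)) :=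
      mul_le_mul_of_nonneg_left (by linarith) (by positivity)
    have h2 : D ^ 2 * (4 * D ^ 3) = 4 * D ^ 5 := by ring
    linarith
  have hD5 : D ^ 2 ≤ D ^ 5 := pow_le_pow_right₀ hD1 (by norm_num)
  have hlamD : D ^ 2 ≤ lam := by
    have h1 : (0 : ℝ) ≤ D ^ 5 := by positivity
    linarith
  have hlam0 : (0 : ℝ) < lam := lt_of_lt_of_le one_pos H.lam1
  have hgb : ∀ l, h l ⬝ᵥ g ≤ b l := by
    intro l
    by_cases hl : l = j
    · rw [hl, hg1]
    · have h1 := hg2 l hl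
      have h2 : (0 : ℝ) ≤ 1 / D := by positivity
      linarith
  -- the point `w'`
  obtain ⟨w', hw'⟩ : ∃ w' : Fin n → ℤ, ∀ i, w' i = round (((lam - D ^ 2) * g i + c i) / 2) :=
    ⟨_, fun _ => rfl⟩
  have hw1 : ∀ i, |(em (vs c w') - (lam - D ^ 2) • g) i| ≤ 1 := by
    intro i
    have h1 := abs_sub_round (((lam - D ^ 2) * g i + c i) / 2)
    rw [← hw' i] at h1
    have h2 := abs_le.1 h1
    simp only [em, vs, Pi.sub_apply, Pi.smul_apply, smul_eq_mul]
    push_cast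
    rw [abs_le]
    constructor <;> linarith [h2.1, h2.2]
  have hwd : ∀ l, |h l ⬝ᵥ em (vs c w') - (lam - D ^ 2) * (h l ⬝ᵥ g)| ≤ D := by
    intro l
    have h1 := dot_le (H.pol.hD l) zero_le_one hw1
    rw [dotProduct_sub, dotProduct_smul, smul_eq_mul, mul_one] at h1
    exact h1
  have hwK : w' ∈ K := by
    rw [H.mem]
    intro l
    have h1 := (abs_le.1 (hwd l)).2
    have h2 : (lam - D ^ 2) * (h l ⬝ᵥ g) ≤ (lam - D ^ 2) * b l :=
      mul_le_mul_of_nonneg_left (hgb l) (by linarith)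
    have h3 : D * 1 ≤ D * (D * b l) := mul_le_mul_of_nonneg_left (H.pol.b0 l) hD0.le
    nlinarith
  -- the maximum over `K`
  obtain ⟨xm, hxm, hmax⟩ := K.exists_max_image (fun x => h j ⬝ᵥ em (vs c x)) ⟨w', hwK⟩
  obtain ⟨ν, hν⟩ : ∃ ν : ℝ, ν = h j ⬝ᵥ em (vs c xm) := ⟨_, rfl⟩
  have hmaxν : ∀ x ∈ K, h j ⬝ᵥ em (vs c x) ≤ ν := fun x hx => by
    rw [hν]
    exact hmax x hx
  have hν1 : ν ≤ lam * b j := by
    rw [hν]
    exact (H.mem xm).1 hxm j
  have hν2 : lam * b j - 2 * D ^ 3 ≤ ν := by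
    have h1 := (abs_le.1 (hwd j)).1
    rw [hg1] at h1
    have h2 := hmaxν w' hwK
    have h3 : D ^ 2 * b j ≤ D ^ 2 * D := mul_le_mul_of_nonneg_left (H.pol.bD j) (by positivity)
    nlinarith
  -- the vector `z`
  obtain ⟨τ, hτ⟩ : ∃ τ : Fin n → ℝ, τ = (1 / 2 : ℝ) • (lam • g - em (vs c xm)) := ⟨_, rfl⟩
  have hkτ : |em k ⬝ᵥ τ| ≤ D ^ 3 := by
    have h1 : em k ⬝ᵥ τ = (1 / 2) * (lam * b j - ν) := by
      rw [hτ, dotProduct_smul, dotProduct_sub, dotProduct_smul, smul_eq_mul, smul_eq_mul, ← hjk,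
        hg1, hν]
    rw [h1, abs_le]
    constructor <;> linarith
  obtain ⟨z, hz1, hz2⟩ := ker_approx hi₀' τ hkD hkτ
  obtain ⟨e, he, he1, he2⟩ := ker_dir hn hi₀' hkD
  obtain ⟨w, hw⟩ : ∃ w : Fin n → ℤ, w = xm + z := ⟨_, rfl⟩
  have hval : ∀ t : ℤ, h j ⬝ᵥ em (vs c (w + t • e)) = ν := by
    intro t
    rw [hw, vs_add, vs_add, em_zsmul, dotProduct_add, dotProduct_add, dotProduct_smul,
      dotProduct_smul, dotProduct_smul, hjk, hz1, he1, hν, hjk]
    simp
  have hclose : ∀ t : ℤ, 0 ≤ t → t < ((N + 1) * J : ℕ) →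
      ∀ i, |(em (vs c (w + t • e)) - lam • g) i| ≤ 4 * D ^ 3 + 2 * D * ((N + 1) * J) := by
    intro t ht0 ht1 i
    have htr : (t : ℝ) ≤ (N + 1) * J := by
      have h1 : t ≤ ((N + 1) * J : ℕ) := ht1.le
      have h2 : (t : ℝ) ≤ (((N + 1) * J : ℕ) : ℝ) := by exact_mod_cast h1
      push_cast at h2
      exact h2
    have ht0r : (0 : ℝ) ≤ t := by exact_mod_cast ht0
    have h1 : (em (vs c (w + t • e)) - lam • g) i = 2 * ((z i : ℝ) - τ i) + 2 * (t * e i) := by
      rw [hw, hτ]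
      simp only [em, vs, Pi.sub_apply, Pi.smul_apply, Pi.add_apply, smul_eq_mul]
      push_cast
      ring
    have h2 : |(t : ℝ) * e i| ≤ ((N + 1) * J) * D := by
      rw [abs_mul, abs_of_nonneg ht0r]
      exact mul_le_mul htr (he2 i) (abs_nonneg _) (by positivity)
    have h3 := abs_le.1 h2
    have h4 := abs_le.1 (hz2 i)
    rw [h1, abs_le]
    constructor <;> nlinarith [h3.1, h3.2, h4.1, h4.2]
  have hrun : ∀ t : ℤ, 0 ≤ t → t < ((N + 1) * J : ℕ) → w + t • e ∈ K := by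
    intro t ht0 ht1
    rw [H.mem]
    intro l
    by_cases hl : l = j
    · rw [hl, hval t]
      exact hν1
    · have h1 := dot_le (H.pol.hD l) (by positivity) (hclose t ht0 ht1)
      rw [dotProduct_sub, dotProduct_smul, smul_eq_mul] at h1
      have h2 := (abs_le.1 h1).2
      have h3 := mul_le_mul_of_nonneg_left (hg2 l hl) hlam0.le
      have h4 : D * (4 * D ^ 3 + 2 * D * ((N + 1) * J)) ≤ lam * (1 / D) := by
        rw [mul_one_div, le_div_iff₀ hD0]
        calc D * (4 * D ^ 3 + 2 * D * ((N + 1) * J)) * D =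
            D ^ 2 * (4 * D ^ 3 + 2 * D * ((N + 1) * J)) := by ring
          _ ≤ lam := hlam
      rw [mul_add] at h3
      linarith
  have hlb : 4 * D ^ 4 ≤ lam * b j := by
    have h1 : lam * 1 ≤ lam * (D * b j) := mul_le_mul_of_nonneg_left (H.pol.b0 j) hlam0.le
    have h2 : D * (4 * D ^ 4) ≤ D * (lam * b j) := by
      calc D * (4 * D ^ 4) = 4 * D ^ 5 := by ring
        _ ≤ lam * 1 := by linarith
        _ ≤ lam * (D * b j) := h1
        _ = D * (lam * b j) := by ring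
    exact le_of_mul_le_mul_left h2 hD0
  have hD34 : D ^ 3 ≤ D ^ 4 := pow_le_pow_right₀ hD1 (by norm_num)
  have hval0 : h j ⬝ᵥ em (vs c w) = ν := by
    have h1 := hval 0
    rwa [zero_smul, add_zero] at h1
  have hsum : ∀ x x' : Fin n → ℤ, h j ⬝ᵥ em (vs c x) + h j ⬝ᵥ em (vs c x') =
      2 * (h j ⬝ᵥ em (x + x' - c)) := by
    intro x x'
    rw [← dotProduct_add]
    have h1 : em (vs c x) + em (vs c x') = (2 : ℝ) • em (x + x' - c) := by
      funext i
      simp only [em, vs, Pi.sub_apply, Pi.smul_apply, Pi.add_apply, smul_eq_mul]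
      push_cast
      ring
    rw [h1, dotProduct_smul, smul_eq_mul]
  have hnc : ∃ i i', (y + w - c) i * e i' - (y + w - c) i' * e i ≠ 0 := by
    by_contra hno
    push Not at hno
    obtain ⟨m, hm⟩ := par_of_minors he (d := y + w - c) fun i i' => sub_eq_zero.1 (hno i i')
    have h1 := hsum y w
    rw [hm, em_zsmul, dotProduct_smul, hval0, hjk, he1, ← hjk] at h1
    simp only [smul_eq_mul, mul_zero] at h1
    linarith
  have heR : ∀ i, |e i| ≤ 10 * R := by
    intro i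
    have h1 : D ^ 2 * (2 * D ^ 3) ≤ D ^ 2 * r := by
      have h2 := H.lr
      nlinarith
    have h2 : 2 * D ^ 3 ≤ r := le_of_mul_le_mul_left h1 (by positivity)
    have h3 : (r : ℝ) ≤ R := by exact_mod_cast H.twf.rR
    have h4 : |(e i : ℝ)| ≤ 10 * R := by
      have h5 : (0 : ℝ) ≤ (R : ℝ) := Nat.cast_nonneg _
      linarith [he2 i]
    exact_mod_cast h4
  obtain ⟨t, ht0, ht1, x', hx', y', hy', hxy⟩ := H.twf.sumK hN hy he hrun heR hnc
  have h1 := hsum x' y'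
  have h2 := hsum y (w + t • e)
  rw [hxy] at h1
  rw [hval t] at h2
  linarith [hmaxν x' hx', hmaxν y' hy']

end Pool.Agent.Lib.MP_8cf263_co
end

section

/-!
# Polytopes, file RpFew: at most `(2 J) ^ n` points of `L` are above a facet of `K`

`PT.few`.  Let `φ = h j`, `β = lam * b j`, `F` the set of the `y ∈ L` with `β < φ ⬝ᵥ em (vs c y)`.
Suppose `(2 J) ^ n < F.card`.  By `long_line` (file Face, `l = 2 J`) there are `x ∈ F`, `e` primitive,
`g ≥ 2 J` with `x + g • e ∈ F`.  All `x + t • e`, `0 ≤ t ≤ g`, are in `L` (`LC.seg`), and in `F`, since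
`φ ⬝ᵥ em (vs c (x + t • e)) = φ ⬝ᵥ em (vs c x) + 2 t φ ⬝ᵥ em e` is affine in `t` (`vs_add`).
`|vs c x i| ≤ 5 R` and `|vs c (x + g • e) i| ≤ 5 R` (`outU`), so `|e i| ≤ 5 R`.
(a) If `vs c x` and `e` are not parallel: by `TwF.vis` there is `t`, `0 ≤ t < J`, with
`Pr (vs c x + t • e)`; `vs c x + t • e = x + (x + t • e) - c`, so by `h.twf.tw.symm.vis` there are
`x', y' ∈ K` with `x' + y' - c = x + (x + t • e) - c`, and
`φ ⬝ᵥ em (vs c x') + φ ⬝ᵥ em (vs c y') = φ ⬝ᵥ em (vs c x) + φ ⬝ᵥ em (vs c (x + t • e)) > 2 β`, a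
contradiction to `≤ 2 β` (`h.mem`).
(b) If `vs c x = κ • e` (`par_of_minors`): since `0 < β` (`b0`), `κ ≠ 0`.  If `κ < 0` then
`φ ⬝ᵥ em e < 0` and `(κ + 2 g) φ ⬝ᵥ em e > β > 0`, so `κ + 2 g < 0`, and we replace `x`, `e`, `κ` by
`x + g • e`, `- e`, `-(κ + 2 g)`.  So let `0 < κ`; `0 < φ ⬝ᵥ em e`, `κ ≤ 5 R` (some `|e i| ≥ 1`), and
`φ ⬝ᵥ em e > β / κ ≥ (lam / D) / (5 * (2 D lam)) = 1 / (10 D ^ 2)`.  `push` (file RdPush) with `M = L`,
`ρ = r - 2 J` (`coreL`), `j = 2 J`, `σ = 1` gives `x + Pi.single i 1 ∈ L` for every `i`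
(`2 (κ + 4 J) + 4 J ≤ 2 J ρ`: `κ ≤ 5 R ≤ 5 kap r`, `20 kap ≤ J`, `64 J kap ≤ r`, `1 ≤ kap`).
Choose `i` with `Pi.single i 1` not parallel to `e` (`ax`), `y₁ = x + Pi.single i 1`.  The vector
`b' = y₁ + x - c = κ • e + Pi.single i 1` is not parallel to `e`; by `TwF.vis` there is
`t ∈ [J, 2 J)` with `b' + t • e = y₁ + (x + t • e) - c` primitive, and as in (a) there are
`x', y' ∈ K` with `x' + y' - c = y₁ + (x + t • e) - c`.  But
`φ ⬝ᵥ em (vs c y₁) + φ ⬝ᵥ em (vs c (x + t • e)) = 2 κ φ ⬝ᵥ em e + 2 φ i + 2 t φ ⬝ᵥ em e > 2 β`, since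
`κ φ ⬝ᵥ em e > β` and `2 t φ ⬝ᵥ em e ≥ 2 J / (10 D ^ 2) ≥ 2 D ≥ 2 |φ i|` (`JD`).  Contradiction.

`PT.cardS`.  Every point of `L \ K` is above a facet (`h.mem`), so `(L \ K).card ≤ card ι * (2 J) ^ n`;
`(K \ L).card = (L \ K).card` because `K.card = L.card`.
-/

set_option autoImplicit false

namespace Pool.Agent.Lib.MP_8cf263_co

open Finset

variable {n : ℕ} {ι : Type} {K L : Finset (Fin n → ℤ)} {c : Fin n → ℤ} {R r J kap : ℕ}
  {h : ι → Fin n → ℝ} {b : ι → ℝ} {D lam : ℝ}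

/-- a visible sum of two points of `L` is a sum of two points of `K` -/
private theorem PT.key (H : PT K L c R r J kap h b D lam) (j : ι) {x y u : Fin n → ℤ} (hu : Pr u)
    (hx : x ∈ L) (hy : y ∈ L) (hxy : x + y - c = u) :
    h j ⬝ᵥ em (vs c x) + h j ⬝ᵥ em (vs c y) ≤ 2 * (lam * b j) := by
  obtain ⟨x', hx', y', hy', hxy'⟩ := H.twf.tw.symm.vis hu hx hy hxy
  have h1 : em (vs c x) + em (vs c y) = em (vs c x') + em (vs c y') := by
    funext i
    have h2 := congrFun (hxy.trans hxy'.symm) i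
    simp only [Pi.sub_apply, Pi.add_apply] at h2
    have h3 : (2 * x i - c i) + (2 * y i - c i) = (2 * x' i - c i) + (2 * y' i - c i) := by
      linarith
    simp only [em, vs, Pi.add_apply]
    exact_mod_cast h3
  rw [← dotProduct_add, h1, dotProduct_add]
  have h4 := (H.mem x').1 hx' j
  have h5 := (H.mem y').1 hy' j
  linarith

private theorem PT.beta_pos (H : PT K L c R r J kap h b D lam) (j : ι) :
    0 < lam * b j ∧ lam ≤ D * (lam * b j) := by
  have h1 := H.pol.b0 j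
  have h2 := H.pol.D1
  have h3 := H.lam1
  have h4 : 0 < b j := by
    by_contra hcon
    push Not at hcon
    nlinarith
  refine ⟨mul_pos (by linarith) h4, ?_⟩
  have h5 : lam * 1 ≤ lam * (D * b j) := mul_le_mul_of_nonneg_left h1 (by linarith)
  linarith

private theorem vs_add_smul' (c x e : Fin n → ℤ) (t : ℤ) (k : Fin n) :
    vs c (x + t • e) k = vs c x k + 2 * (t * e k) := by
  simp only [vs, Pi.add_apply, Pi.smul_apply, smul_eq_mul]
  ring

private theorem dot_line (φ : Fin n → ℝ) (c x e : Fin n → ℤ) (t : ℤ) :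
    φ ⬝ᵥ em (vs c (x + t • e)) = φ ⬝ᵥ em (vs c x) + 2 * (t : ℝ) * (φ ⬝ᵥ em e) := by
  rw [vs_add, em_zsmul, dotProduct_add, dotProduct_smul, dotProduct_smul, smul_eq_mul, smul_eq_mul]
  ring

/-- sizes of directions -/
private theorem PT.dir_le (H : PT K L c R r J kap h b D lam) {x e : Fin n → ℤ} {g : ℤ}
    (hg0 : 0 < g) (hx : x ∈ L) (hy : x + g • e ∈ L) (i : Fin n) : |e i| ≤ 5 * R := by
  have h1 := H.twf.outL hx i
  have h2 := H.twf.outL hy i
  rw [vs_add_smul'] at h2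
  have h4 : |2 * (g * e i)| ≤ |vs c x i + 2 * (g * e i)| + |vs c x i| := by
    have h5 := abs_sub (vs c x i + 2 * (g * e i)) (vs c x i)
    rwa [add_sub_cancel_left] at h5
  rw [abs_mul, abs_two, abs_mul, abs_of_pos hg0] at h4
  have h6 : g * |e i| ≤ 5 * R := by linarith
  have h7 : |e i| ≤ g * |e i| := le_mul_of_one_le_left (abs_nonneg _) (by omega)
  linarith

/-- case (b): a line through the centre -/
private theorem PT.few_b (H : PT K L c R r J kap h b D lam) (j : ι) {x e : Fin n → ℤ} (he : Pr e)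
    {g κ : ℤ} (hg : 2 * (J : ℤ) ≤ g) (hx : x ∈ L) (hy : x + g • e ∈ L) (hκ : vs c x = κ • e)
    (hκ0 : 0 < κ) (hA : lam * b j < h j ⬝ᵥ em (vs c x)) : False := by
  obtain ⟨hβ, hβD⟩ := H.beta_pos j
  have hJ1 : (1 : ℤ) ≤ J := by exact_mod_cast H.twf.J1
  have hD1 := H.pol.D1
  have hg0 : 0 < g := by omega
  have heR := H.dir_le hg0 hx hy
  obtain ⟨l, i, hil, hl⟩ := ax H.twf.n2 he.ne_zero
  -- bounds
  have hκR : κ ≤ 5 * R := by
    have h1 := H.twf.outL hx l
    rw [hκ, Pi.smul_apply, smul_eq_mul, abs_mul, abs_of_pos hκ0] at h1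
    have h2 : 1 ≤ |e l| := Int.one_le_abs hl
    nlinarith
  have hr0 : 0 < r := by
    rcases Nat.eq_zero_or_pos r with h0 | h0
    · have h1 := H.lr
      have h2 := H.lam1
      rw [h0] at h1
      simp at h1
      linarith
    · exact h0
  have hR0 : 0 < R := lt_of_lt_of_le hr0 H.twf.rR
  have hkap : 1 ≤ kap := by
    rcases Nat.eq_zero_or_pos kap with h0 | h0
    · have h1 := H.twf.Rr
      rw [h0] at h1
      omega
    · exact h0
  have hrJ : 64 * J ≤ r := by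
    have h1 := H.twf.Jr
    have h2 : J ≤ J * kap := Nat.le_mul_of_pos_right _ hkap
    omega
  set E : ℝ := h j ⬝ᵥ em e with hE
  have hAE : h j ⬝ᵥ em (vs c x) = (κ : ℝ) * E := by
    rw [hκ, em_zsmul, dotProduct_smul, smul_eq_mul]
  rw [hAE] at hA
  have hκ0' : (0 : ℝ) < κ := by exact_mod_cast hκ0
  have hEpos : 0 < E := by
    by_contra hcon
    push Not at hcon
    have := mul_nonpos_of_nonneg_of_nonpos hκ0'.le hcon
    linarith
  have hEl : D < (J : ℝ) * E := by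
    have h1 : (κ : ℝ) ≤ 10 * D * lam := by
      have h2 : (κ : ℝ) ≤ 5 * (R : ℝ) := by exact_mod_cast hκR
      have h3 := H.RD
      linarith
    have h2 : (κ : ℝ) * E ≤ 10 * D * lam * E := mul_le_mul_of_nonneg_right h1 hEpos.le
    have h3 : lam < D * (10 * D * lam * E) := by
      have h4 : D * (lam * b j) < D * (10 * D * lam * E) :=
        mul_lt_mul_of_pos_left (by linarith) (by linarith)
      linarith
    have h5 : 0 < lam := lt_of_lt_of_le one_pos H.lam1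
    have h6 : 1 < 10 * D ^ 2 * E := by
      have h7 : lam * 1 < lam * (10 * D ^ 2 * E) := by
        have : D * (10 * D * lam * E) = lam * (10 * D ^ 2 * E) := by ring
        linarith
      exact lt_of_mul_lt_mul_left h7 h5.le
    have h8 : D * 1 < D * (10 * D ^ 2 * E) := mul_lt_mul_of_pos_left h6 (by linarith)
    have h9 : 10 * D ^ 3 * E ≤ J * E := mul_le_mul_of_nonneg_right H.JD hEpos.le
    have h10 : D * (10 * D ^ 2 * E) = 10 * D ^ 3 * E := by ring
    linarith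
  -- pushing the point
  have hx2 : x + (2 * (J : ℤ)) • e ∈ L := H.twf.tw.hL.seg hx hy (by omega) hg
  have hpush : x + (1 : ℤ) • (Pi.single i 1 : Fin n → ℤ) ∈ L := by
    refine push (M := L) H.twf.tw.hL H.twf.tw.sL (ρ := r - 2 * J) ?_ (by omega) hκ hκ0
      (j := 2 * (J : ℤ)) (by omega) hx2 ?_ i
    · intro y hy1
      apply H.twf.coreL
      intro k
      have h1 := hy1 k
      have h2 : ((r - 2 * J : ℕ) : ℤ) = r - 2 * J := by omega
      rw [h2] at h1
      linarith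
    · have h2 : ((r - 2 * J : ℕ) : ℤ) = r - 2 * J := by omega
      rw [h2, abs_one]
      have h3 : (R : ℤ) ≤ kap * r := by exact_mod_cast H.twf.Rr
      have h4 : 20 * (kap : ℤ) ≤ J := by exact_mod_cast H.Jk
      have h5 : 64 * (J : ℤ) ≤ r := by exact_mod_cast hrJ
      have h6 : 20 * ((kap : ℤ) * r) ≤ J * r := by
        have : 20 * (kap : ℤ) * r ≤ J * r := mul_le_mul_of_nonneg_right h4 (by positivity)
        linarith
      have h7 : 64 * (J : ℤ) * J ≤ r * J := mul_le_mul_of_nonneg_right h5 (by positivity)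
      have h8 : (64 : ℤ) * J ≤ r * J := mul_le_mul_of_nonneg_right (by omega) (by positivity)
      have h9 : 0 ≤ (r : ℤ) * J := by positivity
      have h10 : ((r : ℤ) - 2 * J) * (2 * J) = 2 * (r * J) - 4 * (J * J) := by ring
      rw [h10]
      have h11 : 4 * κ ≤ r * J := by
        have : (J : ℤ) * r = r * J := by ring
        linarith
      have h12 : 64 * ((J : ℤ) * J) ≤ r * J := by linarith
      linarith
  set y₁ : Fin n → ℤ := x + (1 : ℤ) • (Pi.single i 1 : Fin n → ℤ) with hy₁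
  have hb' : ∀ k, (y₁ + x - c) k = κ * e k + (Pi.single i 1 : Fin n → ℤ) k := by
    intro k
    have h1 := congrFun hκ k
    simp only [vs, Pi.smul_apply, smul_eq_mul] at h1
    simp only [hy₁, Pi.sub_apply, Pi.add_apply, Pi.smul_apply, smul_eq_mul]
    linarith
  have hs1 : ∀ k, |(Pi.single i 1 : Fin n → ℤ) k| ≤ 1 := by
    intro k
    by_cases hk : k = i
    · rw [hk, Pi.single_eq_same]
      norm_num
    · rw [Pi.single_eq_of_ne hk]
      norm_num
  obtain ⟨t, ht0, ht1, htp⟩ := H.twf.vis (b := y₁ + x - c) he (by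
    intro k
    rw [hb']
    have h1 := H.twf.outL hx k
    rw [hκ, Pi.smul_apply, smul_eq_mul] at h1
    have h2 := abs_add_le (κ * e k) ((Pi.single i 1 : Fin n → ℤ) k)
    have h3 := hs1 k
    have h4 : (1 : ℤ) ≤ R := by exact_mod_cast hR0
    linarith) (by
    intro k
    have h1 := heR k
    have h2 : (0 : ℤ) ≤ R := by positivity
    linarith) ⟨i, l, by
      rw [hb', hb', Pi.single_eq_same, Pi.single_eq_of_ne (Ne.symm hil)]
      have : (κ * e i + 1) * e l - (κ * e l + 0) * e i = e l := by ring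
      rw [this]
      exact hl⟩ (J : ℤ)
  have htL : x + t • e ∈ L := H.twf.tw.hL.seg hx hy (by omega) (by omega)
  have h1 := H.key j htp hpush htL (by abel)
  have h2 : h j ⬝ᵥ em (Pi.single i 1 : Fin n → ℤ) = h j i := by
    have : em (Pi.single i 1 : Fin n → ℤ) = (Pi.single i 1 : Fin n → ℝ) := by
      funext k
      by_cases hk : k = i
      · subst hk
        simp [em]
      · simp [em, Pi.single_eq_of_ne hk]
    rw [this, dotProduct_single, mul_one]
  rw [hy₁, dot_line, dot_line, h2, hAE, ← hE] at h1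
  have h3 : |h j i| ≤ D :=
    (Finset.single_le_sum (f := fun i => |h j i|) (fun i _ => abs_nonneg _) (mem_univ i)).trans
      (H.pol.hD j)
  have h4 := (abs_le.1 h3).1
  have h5 : (J : ℝ) * E ≤ (t : ℝ) * E := by
    have : (J : ℝ) ≤ t := by exact_mod_cast ht0
    exact mul_le_mul_of_nonneg_right this hEpos.le
  push_cast at h1
  linarith

theorem PT.few (H : PT K L c R r J kap h b D lam) (j : ι) [DecidablePred fun y : Fin n → ℤ =>
    lam * b j < h j ⬝ᵥ em (vs c y)] :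
    (L.filter fun y => lam * b j < h j ⬝ᵥ em (vs c y)).card ≤ (2 * J) ^ n := by
  by_contra hcon
  push Not at hcon
  have hJ1 := H.twf.J1
  obtain ⟨x, hx, e, he, g, hg, hy⟩ := long_line (by omega) hcon
  rw [mem_filter] at hx hy
  obtain ⟨hxL, hxA⟩ := hx
  obtain ⟨hyL, hyA⟩ := hy
  obtain ⟨hβ, hβD⟩ := H.beta_pos j
  have hg' : 2 * (J : ℤ) ≤ g := by
    push_cast at hg
    exact hg
  have hg0 : 0 < g := by omega
  have hR0 : (0 : ℤ) ≤ R := by positivity
  by_cases hnc : ∃ i k, vs c x i * e k - vs c x k * e i ≠ 0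
  · -- case (a)
    obtain ⟨t, ht0, ht1, htp⟩ := H.twf.vis he (b := vs c x) (fun i => by
      have := H.twf.outL hxL i
      linarith) (fun i => by
      have := H.dir_le hg0 hxL hyL i
      linarith) hnc 0
    have htL : x + t • e ∈ L := H.twf.tw.hL.seg hxL hyL ht0 (by omega)
    have h1 := H.key j htp hxL htL (by
      funext k
      simp only [vs, Pi.sub_apply, Pi.add_apply, Pi.smul_apply, smul_eq_mul]
      ring)
    rw [dot_line] at h1 hyA
    set A : ℝ := h j ⬝ᵥ em (vs c x) with hA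
    set E : ℝ := h j ⬝ᵥ em e with hE
    have ht0' : (0 : ℝ) ≤ t := by exact_mod_cast ht0
    have htg : (t : ℝ) ≤ g := by
      have : t ≤ g := by omega
      exact_mod_cast this
    rcases le_or_gt 0 E with h2 | h2
    · have h3 := mul_nonneg ht0' h2
      linarith
    · have h3 : (g : ℝ) * E ≤ t * E := mul_le_mul_of_nonpos_right htg h2.le
      linarith
  · -- case (b)
    push Not at hnc
    obtain ⟨κ, hκ⟩ := par_of_minors he (d := vs c x) (fun i k => by linarith [hnc i k])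
    rcases lt_trichotomy 0 κ with hκ0 | hκ0 | hκ0
    · exact H.few_b j he hg' hxL hyL hκ hκ0 hxA
    · rw [hκ, ← hκ0, zero_smul] at hxA
      have h1 : em (0 : Fin n → ℤ) = 0 := by
        funext i
        simp [em]
      rw [h1, dotProduct_zero] at hxA
      linarith
    · -- reverse the line
      have hE0 : h j ⬝ᵥ em e < 0 := by
        rw [hκ, em_zsmul, dotProduct_smul, smul_eq_mul] at hxA
        by_contra hc
        push Not at hc
        have h1 : (κ : ℝ) < 0 := by exact_mod_cast hκ0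
        have := mul_nonpos_of_nonpos_of_nonneg h1.le hc
        linarith
      have hvy : vs c (x + g • e) = (κ + 2 * g) • e := by
        funext k
        rw [vs_add_smul', hκ, Pi.smul_apply, Pi.smul_apply, smul_eq_mul, smul_eq_mul]
        ring
      have hneg : κ + 2 * g < 0 := by
        have h2 := hyA
        rw [hvy, em_zsmul, dotProduct_smul, smul_eq_mul] at h2
        by_contra hc
        push Not at hc
        have h1 : (0 : ℝ) ≤ ((κ + 2 * g : ℤ) : ℝ) := by exact_mod_cast hc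
        have := mul_nonpos_of_nonneg_of_nonpos h1 hE0.le
        linarith
      have hen : Pr (-e) := by
        intro d hd
        apply he d
        intro i
        have := hd i
        rwa [Pi.neg_apply, dvd_neg] at this
      refine H.few_b j hen hg' hyL (x := x + g • e) ?_ (κ := -(κ + 2 * g)) ?_ (by omega) hyA
      · have : x + g • e + g • (-e) = x := by
          rw [smul_neg]
          abel
        rwa [this]
      · rw [hvy, smul_neg, neg_smul, neg_neg]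

theorem PT.cardS [Fintype ι] (H : PT K L c R r J kap h b D lam) :
    (L \ K).card ≤ Fintype.card ι * (2 * J) ^ n ∧ (K \ L).card = (L \ K).card := by
  classical
  refine ⟨?_, Finset.card_sdiff_comm H.twf.tw.card⟩
  have h1 : L \ K ⊆ (univ : Finset ι).biUnion
      (fun j => L.filter fun y => lam * b j < h j ⬝ᵥ em (vs c y)) := by
    intro y hy
    rw [mem_sdiff] at hy
    rw [mem_biUnion]
    by_contra hcon
    apply hy.2
    rw [H.mem]
    intro j
    by_contra hj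
    push Not at hj
    exact hcon ⟨j, mem_univ j, mem_filter.2 ⟨hy.1, hj⟩⟩
  refine (card_le_card h1).trans (card_biUnion_le.trans ?_)
  refine (sum_le_card_nsmul _ _ ((2 * J) ^ n) (fun j _ => H.few j)).trans ?_
  rw [smul_eq_mul, card_univ]

end Pool.Agent.Lib.MP_8cf263_co
end
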