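import Pool.Agent.Lib.MP_8cf263_co.RdPoleA
import Pool.Agent.Lib.MP_8cf263_co.RsCap

/-!
# Round sets, file RdPole: existence of a pole for every small frame

`card_diam`: a finite set of integers with all differences `≤ D` has at most `D + 1` elements
(it is contained in `[min, min + D]`).

`pole`.  Let `u = 2 m + 7`, `v = 2 q + 3 u + 12`, `u₂ = (v + 1) (m + 3) + 1`, `w = 2 q + 6 u₂ + 21`,
`β = 2 q + 2 w + 1 + (q + v + 2)`, `eE = 3 u₂ + 8` and let `X₀` be an integer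
`≥ 16, 20 kap + 4, 2 + 2 M, 64 / μ, 4 + 20 M + μ`.
Put `τ = T - mg Φ m (em a) ≥ X ^ β`, `Ψ = pl Φ F a`, `ψ = cm Ψ`, `μ₂ = μ / (4 Q ^ 2)`,
`M₂ = 4 Q ^ 2 M`; `ψ` satisfies `SD1` with `μ₂ ≤ M₂` (`pl_SD2`, `SD2.cmSD`), lower bound
`mg Φ m (em a)` (`pl_cm_ge`, `pl_cm_near`).  `4 + 5 M₂ + μ₂ ≤ (4 + 20 M + μ) X ^ (2 q) ≤ X ^ β ≤ τ`
(`1 ≤ Q ≤ X ^ q`), so `SD1.step` gives an integer `m₀` with `ψ m₀ ≤ T`, `ψ j > T` for `j > m₀`,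
`μ₂ τ ≤ 16 (T - ψ (m₀ - 1)) ^ 2`, `0 ≤ T - ψ (m₀ - 1)`.

(*) If `x ∈ K` agrees with `a` in the coordinates `< m` then `x = a + (g x - g a) w + t e`
(`Fr.coord`), so `Ψ (g x - g a) t = Φ (em x) ≤ T`, `ψ (g x - g a) ≤ T` and `g x - g a ≤ m₀`.

Put `E₁ = X + (X + J + 20 kap + 3) ^ (m + 3)`; `X + J + 20 kap + 3 ≤ 3 X ≤ X ^ 2`, so
`E₁ ≤ X + X ^ (2 m + 6) ≤ X ^ u`.  `ell₁ = 6 Wq E₁ J (JJ kap J) 2 + 2 ≤ 6 X ^ (3 u + 8) + 2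
≤ X ^ (3 u + 9)` (`Wq_le`, `JJ_le`) and `θ = 2 + M₂ (ell₁ + 1) ^ 2 / 2 ≤ 2 + 2 M X ^ (2 q) X ^ (6 u + 20)
≤ X ^ (2 q + 6 u + 21)`.

Case A: `θ ≤ T - ψ m₀`.  Use `pole_of_col` with `γ = m₀`, `X' = X`, `ell = ell₁`: by (*) the set in
`hcnt` is contained in `abv K m a`; `2 Q (X + 1) + 1 ≤ X ^ β ≤ r`.  `E₁ ≤ X ^ u ≤ X ^ u₂` gives
`Wq E₁ .. 2 ≤ X ^ eE`.

Case B: `T - ψ m₀ < θ`.  Use `pole_of_col` with `γ = m₀ - 1`, `X' = X ^ v`,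
`E₂ = X ^ v + (X ^ v + J + 20 kap + 3) ^ (m + 3)`, `ell₂ = 6 Wq E₂ J (JJ kap J) 2 + 2`.
`hcnt`: by (*) the set is contained in the union of `abv K m a` and the set of the points
`a + m₀ w + t e` with `Ψ m₀ t ≤ T`.  For two such `t`, `t'` `SD1.pair` (column `m₀`, lower bound
`ψ m₀`) gives `μ₂ (t - t') ^ 2 ≤ 4 θ`, i.e.
`(t - t') ^ 2 ≤ 16 Q ^ 2 θ / μ ≤ (16 / μ) X ^ (4 q + 6 u + 21) ≤ X ^ (4 q + 6 u + 22)`, so
`|t - t'| ≤ X ^ (2 q + 3 u + 11)` and there are at most `X ^ (2 q + 3 u + 11) + 1` such points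
(`card_diam`).  Total `≤ X + X ^ (2 q + 3 u + 11) + 1 ≤ X ^ v`.
`E₂ ≤ X ^ v + (X ^ (v + 1)) ^ (m + 3) ≤ X ^ u₂`; `Wq E₂ .. 2 ≤ X ^ (3 u₂ + 8)`,
`ell₂ ≤ X ^ (3 u₂ + 9)`, `2 + M₂ (ell₂ + 1) ^ 2 / 2 ≤ X ^ w`.
`hdeep`: `(T - ψ (m₀ - 1)) ^ 2 ≥ μ₂ τ / 16 = μ τ / (64 Q ^ 2) ≥ (μ / 64) X ^ (β - 2 q) ≥ (X ^ w) ^ 2`
(`β - 2 q ≥ 2 w + 1`, `X ≥ 64 / μ`), so `T - ψ (m₀ - 1) ≥ X ^ w`.
`hr`: `2 Q (X ^ v + 1) + 1 ≤ 5 X ^ (q + v) ≤ X ^ β ≤ r`.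
The last claim: `|e i| ≤ Q ≤ X ^ q` (`Fr.bd`), `64 ≤ 16 X ≤ X ^ 2`, `kap ≤ X`, `J ≤ X`, so
`|e i| * (64 * (kap * J)) ≤ X ^ (q + 4) ≤ X ^ β ≤ r`.
-/

set_option autoImplicit false

namespace Pool.Agent.Lib.MP_8cf263_co

open Finset

theorem card_diam (S : Finset ℤ) (D : ℕ) (h : ∀ x ∈ S, ∀ y ∈ S, x - y ≤ D) : S.card ≤ D + 1 := by
  rcases S.eq_empty_or_nonempty with rfl | hS
  · simp
  · have hsub : S ⊆ Icc (S.min' hS) (S.min' hS + D) := by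
      intro x hx
      rw [mem_Icc]
      refine ⟨S.min'_le x hx, ?_⟩
      have := h x hx _ (S.min'_mem hS)
      linarith
    have h1 := card_le_card hsub
    rw [Int.card_Icc] at h1
    omega

private theorem num_E1 {m kap J X : ℕ} (hX : 16 ≤ X) (hk : 20 * kap + 4 ≤ X) (hJ : J ≤ X) :
    X + (X + J + 20 * kap + 3) ^ (m + 3) ≤ X ^ (2 * m + 7) := by
  have h1 : X + J + 20 * kap + 3 ≤ X ^ 2 := by nlinarith
  have h2 : (X + J + 20 * kap + 3) ^ (m + 3) ≤ (X ^ 2) ^ (m + 3) := Nat.pow_le_pow_left h1 _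
  rw [← pow_mul] at h2
  have h3 : X ≤ X ^ (2 * (m + 3)) := Nat.le_self_pow (by omega) X
  have h4 : X ^ (2 * m + 7) = X * X ^ (2 * (m + 3)) := by
    rw [← pow_succ']
    congr 1
  rw [h4]
  have h5 : 2 * X ^ (2 * (m + 3)) ≤ X * X ^ (2 * (m + 3)) := Nat.mul_le_mul_right _ (by omega)
  omega

private theorem num_E2 {v m kap J X : ℕ} (hv : 1 ≤ v) (hX : 16 ≤ X) (hk : 20 * kap + 4 ≤ X)
    (hJ : J ≤ X) :
    X ^ v + (X ^ v + J + 20 * kap + 3) ^ (m + 3) ≤ X ^ ((v + 1) * (m + 3) + 1) := by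
  have h0 : X ≤ X ^ v := Nat.le_self_pow (by omega) X
  have h1 : X ^ v + J + 20 * kap + 3 ≤ X ^ (v + 1) := by
    rw [pow_succ]
    nlinarith
  have h2 : (X ^ v + J + 20 * kap + 3) ^ (m + 3) ≤ (X ^ (v + 1)) ^ (m + 3) :=
    Nat.pow_le_pow_left h1 _
  rw [← pow_mul] at h2
  have h3 : X ^ v ≤ X ^ ((v + 1) * (m + 3)) := by
    refine Nat.pow_le_pow_right (by omega) ?_
    nlinarith
  rw [pow_succ' X ((v + 1) * (m + 3))]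
  have h5 : 2 * X ^ ((v + 1) * (m + 3)) ≤ X * X ^ ((v + 1) * (m + 3)) :=
    Nat.mul_le_mul_right _ (by omega)
  omega

private theorem num_ell {E J kap X u : ℕ} (hX : 16 ≤ X) (hE : E ≤ X ^ u) (hJ : J ≤ X)
    (hk : 20 * kap + 4 ≤ X) : 6 * Wq E J (JJ kap J) 2 + 2 + 1 ≤ X ^ (3 * u + 10) := by
  have h1 := Wq_le hX hE hJ (JJ_le (kap := kap) hJ hk)
  have h2 : X ^ (3 * u + 10) = X ^ 2 * X ^ (3 * u + 8) := by
    rw [← pow_add]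
    congr 1
    omega
  rw [h2]
  have h3 : 1 ≤ X ^ (3 * u + 8) := Nat.one_le_pow _ _ (by omega)
  have h4 : 256 ≤ X ^ 2 := by nlinarith
  have h5 : 256 * X ^ (3 * u + 8) ≤ X ^ 2 * X ^ (3 * u + 8) := Nat.mul_le_mul_right _ h4
  omega

private theorem num_deep {q u X Q ell : ℕ} {M : ℝ} (hM : 0 ≤ M) (hX : 2 + 2 * M ≤ X)
    (hQ : Q ≤ X ^ q) (hl : ell + 1 ≤ X ^ (3 * u + 10)) :
    2 + (4 * (Q : ℝ) ^ 2 * M) * ((ell : ℝ) + 1) ^ 2 / 2 ≤ (X : ℝ) ^ (2 * q + 6 * u + 21) := by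
  have hX1 : (1 : ℝ) ≤ X := by linarith
  have h1 : (Q : ℝ) ^ 2 ≤ (X : ℝ) ^ (2 * q) := by
    have h : (Q : ℝ) ≤ (X : ℝ) ^ q := by exact_mod_cast hQ
    calc (Q : ℝ) ^ 2 ≤ ((X : ℝ) ^ q) ^ 2 := pow_le_pow_left₀ (by positivity) h 2
      _ = (X : ℝ) ^ (2 * q) := by rw [← pow_mul, mul_comm]
  have h2 : ((ell : ℝ) + 1) ^ 2 ≤ (X : ℝ) ^ (6 * u + 20) := by
    have h : ((ell : ℝ) + 1) ≤ (X : ℝ) ^ (3 * u + 10) := by exact_mod_cast hl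
    calc ((ell : ℝ) + 1) ^ 2 ≤ ((X : ℝ) ^ (3 * u + 10)) ^ 2 := pow_le_pow_left₀ (by positivity) h 2
      _ = (X : ℝ) ^ (6 * u + 20) := by
        rw [← pow_mul]
        congr 1
        ring
  have h3 : (Q : ℝ) ^ 2 * ((ell : ℝ) + 1) ^ 2 ≤ (X : ℝ) ^ (2 * q + 6 * u + 20) := by
    calc (Q : ℝ) ^ 2 * ((ell : ℝ) + 1) ^ 2 ≤ (X : ℝ) ^ (2 * q) * (X : ℝ) ^ (6 * u + 20) :=
          mul_le_mul h1 h2 (by positivity) (by positivity)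
      _ = (X : ℝ) ^ (2 * q + 6 * u + 20) := by
        rw [← pow_add]
        congr 1
  have h4 : (1 : ℝ) ≤ (X : ℝ) ^ (2 * q + 6 * u + 20) := one_le_pow₀ hX1
  have h5 : (4 * (Q : ℝ) ^ 2 * M) * ((ell : ℝ) + 1) ^ 2 / 2 =
      2 * M * ((Q : ℝ) ^ 2 * ((ell : ℝ) + 1) ^ 2) := by ring
  rw [h5]
  have h6 : 2 * M * ((Q : ℝ) ^ 2 * ((ell : ℝ) + 1) ^ 2) ≤ 2 * M * (X : ℝ) ^ (2 * q + 6 * u + 20) :=
    mul_le_mul_of_nonneg_left h3 (by linarith)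
  have h7 : (X : ℝ) ^ (2 * q + 6 * u + 21) = X * (X : ℝ) ^ (2 * q + 6 * u + 20) := by
    rw [← pow_succ']
  rw [h7]
  have h8 : (2 + 2 * M) * (X : ℝ) ^ (2 * q + 6 * u + 20) ≤ X * (X : ℝ) ^ (2 * q + 6 * u + 20) :=
    mul_le_mul_of_nonneg_right hX (by positivity)
  nlinarith

private theorem num_r {q v X Q r β : ℕ} (hX : 16 ≤ X) (hQ : Q ≤ X ^ q)
    (hβ : q + v + 1 ≤ β) (hr : X ^ β ≤ r) : 2 * Q * (X ^ v + 1) + 1 ≤ r := by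
  have h1 : 1 ≤ X ^ v := Nat.one_le_pow _ _ (by omega)
  have h2 : 1 ≤ X ^ q := Nat.one_le_pow _ _ (by omega)
  have h3 : Q * (X ^ v + 1) ≤ X ^ q * (2 * X ^ v) := Nat.mul_le_mul hQ (by omega)
  have h4 : X ^ (q + v + 1) ≤ X ^ β := Nat.pow_le_pow_right (by omega) hβ
  have h5 : X ^ (q + v + 1) = X * (X ^ q * X ^ v) := by
    rw [pow_succ', pow_add]
  have h6 : 16 * (X ^ q * X ^ v) ≤ X * (X ^ q * X ^ v) := Nat.mul_le_mul_right _ hX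
  have h7 : 1 ≤ X ^ q * X ^ v := Nat.mul_pos h2 h1
  have h8 : 2 * Q * (X ^ v + 1) = 2 * (Q * (X ^ v + 1)) := by ring
  have h9 : X ^ q * (2 * X ^ v) = 2 * (X ^ q * X ^ v) := by ring
  omega

theorem pole (m q kap : ℕ) {μ M : ℝ} (hμ : 0 < μ) (hM : μ ≤ M) : ∃ β eE X₀ : ℕ,
    ∀ (K L : Finset (Fin (m + 2) → ℤ)) (c : Fin (m + 2) → ℤ) (R r J : ℕ)
      (Φ : (Fin (m + 2) → ℝ) → ℝ) (T b : ℝ) (a : Fin (m + 2) → ℤ) (X : ℕ) (F : Fr) (Q : ℕ) (N : ℤ),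
      TwF K L c R r J kap → SDn Φ μ M → (∀ x, b ≤ Φ x) → (∀ x, x ∈ K ↔ Φ (em x) ≤ T) →
      X₀ ≤ X → J ≤ X → (abv K m a).card ≤ X → (X : ℝ) ^ β ≤ T - mg Φ m (em a) → X ^ β ≤ r →
      F.Le Q → 1 ≤ Q → Q ≤ X ^ q → 10 * Q * R < N →
      ∃ (a₀ : Fin (m + 2) → ℤ) (E ell : ℕ), Pole K L c (lfh m N F) (F.e m) a₀ E ell ∧
        6 * Wq E J (JJ kap J) 2 + 2 ≤ ell ∧ Wq E J (JJ kap J) 2 ≤ X ^ eE ∧
        ∀ i, |F.e m i| * (64 * (kap * J : ℕ)) ≤ r := by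
  have hMpos : 0 < M := lt_of_lt_of_le hμ hM
  obtain ⟨u, hu⟩ : ∃ u, u = 2 * m + 7 := ⟨_, rfl⟩
  obtain ⟨v, hv⟩ : ∃ v, v = 2 * q + 3 * u + 12 := ⟨_, rfl⟩
  obtain ⟨u₂, hu₂⟩ : ∃ u₂, u₂ = (v + 1) * (m + 3) + 1 := ⟨_, rfl⟩
  obtain ⟨w, hw⟩ : ∃ w, w = 2 * q + 6 * u₂ + 21 := ⟨_, rfl⟩
  obtain ⟨β, hβ⟩ : ∃ β, β = 2 * q + 2 * w + 1 + (q + v + 2) := ⟨_, rfl⟩
  refine ⟨β, 3 * u₂ + 8, 16 + (20 * kap + 4) + ⌈2 + 2 * M⌉₊ + ⌈64 / μ⌉₊ + ⌈4 + 20 * M + μ⌉₊, ?_⟩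
  intro K L c R r J Φ T b a X F Q N hT hΦ hb hK hX hJ habv hτ hr hQ hQ1 hQX hN
  have hX16 : 16 ≤ X := by omega
  have hk : 20 * kap + 4 ≤ X := by omega
  have hXM : 2 + 2 * M ≤ (X : ℝ) := by
    have h1 : ⌈2 + 2 * M⌉₊ ≤ X := by omega
    exact (Nat.le_ceil _).trans (by exact_mod_cast h1)
  have hXμ : 64 ≤ μ * (X : ℝ) := by
    have h1 : ⌈64 / μ⌉₊ ≤ X := by omega
    have h2 : 64 / μ ≤ (X : ℝ) := (Nat.le_ceil _).trans (by exact_mod_cast h1)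
    rw [div_le_iff₀ hμ] at h2
    linarith
  have hXT : 4 + 20 * M + μ ≤ (X : ℝ) := by
    have h1 : ⌈4 + 20 * M + μ⌉₊ ≤ X := by omega
    exact (Nat.le_ceil _).trans (by exact_mod_cast h1)
  have hX1 : (1 : ℝ) ≤ X := by linarith
  have hQr : (1 : ℝ) ≤ (Q : ℝ) := by exact_mod_cast hQ1
  have hQ2 : (1 : ℝ) ≤ (Q : ℝ) ^ 2 := one_le_pow₀ hQr
  have hQXr : (Q : ℝ) ^ 2 ≤ (X : ℝ) ^ (2 * q) := by
    have h : (Q : ℝ) ≤ (X : ℝ) ^ q := by exact_mod_cast hQX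
    calc (Q : ℝ) ^ 2 ≤ ((X : ℝ) ^ q) ^ 2 := pow_le_pow_left₀ (by positivity) h 2
      _ = (X : ℝ) ^ (2 * q) := by rw [← pow_mul, mul_comm]
  -- the last claim
  have hlast : ∀ i, |F.e m i| * (64 * (kap * J : ℕ)) ≤ (r : ℤ) := by
    intro i
    have h1 : |F.e m i| ≤ (Q : ℤ) := (F.bd hQ i).2
    have h2 : Q * (64 * (kap * J)) ≤ X ^ β := by
      have h3 : kap ≤ X := by omega
      have h4 : 64 * (kap * J) ≤ X ^ 4 := by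
        calc 64 * (kap * J) ≤ X ^ 2 * (X * X) :=
              Nat.mul_le_mul (by nlinarith) (Nat.mul_le_mul h3 hJ)
          _ = X ^ 4 := by ring
      calc Q * (64 * (kap * J)) ≤ X ^ q * X ^ 4 := Nat.mul_le_mul hQX h4
        _ = X ^ (q + 4) := by rw [← pow_add]
        _ ≤ X ^ β := Nat.pow_le_pow_right (by omega) (by omega)
    calc |F.e m i| * (64 * (kap * J : ℕ)) ≤ (Q : ℤ) * (64 * (kap * J : ℕ)) :=
          mul_le_mul_of_nonneg_right h1 (by positivity)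
      _ = ((Q * (64 * (kap * J)) : ℕ) : ℤ) := by push_cast; ring
      _ ≤ ((r : ℕ) : ℤ) := by exact_mod_cast h2.trans hr
  -- the function of two variables
  set Ψ : ℝ → ℝ → ℝ := pl Φ F a with hΨ
  set μ₂ : ℝ := μ / (4 * (Q : ℝ) ^ 2) with hμ₂
  set M₂ : ℝ := 4 * (Q : ℝ) ^ 2 * M with hM₂
  have hSD : SD2 Ψ μ₂ M₂ := pl_SD2 hΦ hμ.le hMpos.le hQ hQ1 a
  have hμ₂pos : 0 < μ₂ := by
    rw [hμ₂]
    positivity
  have hμ₂le : μ₂ ≤ μ := by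
    rw [hμ₂, div_le_iff₀ (by positivity)]
    nlinarith
  have hM₂ge : M ≤ M₂ := by
    rw [hM₂]
    nlinarith
  have hbΨ : ∀ x y, mg Φ m (em a) ≤ Ψ x y := fun x y => pl_ge hb F a x y
  have hψ : SD1 (cm Ψ) μ₂ M₂ := hSD.cmSD hμ₂pos.le hbΨ
  have hψb : ∀ t, mg Φ m (em a) ≤ cm Ψ t := fun t => pl_cm_ge hb F a t
  have hτ0 : 4 + 5 * M₂ + μ₂ ≤ T - mg Φ m (em a) := by
    refine le_trans ?_ hτ
    have h1 : 4 + 5 * M₂ + μ₂ ≤ (4 + 20 * M + μ) * (Q : ℝ) ^ 2 := by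
      rw [hM₂]
      nlinarith
    have h2 : (4 + 20 * M + μ) * (Q : ℝ) ^ 2 ≤ X * (X : ℝ) ^ (2 * q) :=
      mul_le_mul hXT hQXr (by positivity) (by positivity)
    have h3 : X * (X : ℝ) ^ (2 * q) = (X : ℝ) ^ (2 * q + 1) := (pow_succ' _ _).symm
    have h4 : (X : ℝ) ^ (2 * q + 1) ≤ (X : ℝ) ^ β := pow_le_pow_right₀ hX1 (by omega)
    linarith
  obtain ⟨m₀, hm1, hm2, hm3, hm4⟩ := hψ.step hψb hμ₂pos (by linarith) (by
    obtain ⟨t₀, ht₀⟩ := pl_cm_near (m := m) hb F a one_pos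
    exact ⟨t₀, ht₀.le⟩) hτ0
  -- the columns met by `K`
  have hstar : ∀ x ∈ K, (∀ i : Fin (m + 2), i.1 < m → x i = a i) →
      ∃ t : ℤ, x = a + (F.g m x - F.g m a) • F.w m + t • F.e m ∧
        Ψ ((F.g m x - F.g m a : ℤ) : ℝ) t ≤ T := by
    intro x hx hxa
    obtain ⟨t, ht⟩ := F.coord (x := a) (y := x) (fun i hi => (hxa i hi).symm)
    refine ⟨t, ht, ?_⟩
    rw [hΨ, pl_int, ← ht]
    exact (hK x).1 hx
  have hstar2 : ∀ x ∈ K, (∀ i : Fin (m + 2), i.1 < m → x i = a i) →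
      F.g m x - F.g m a ≤ m₀ := by
    intro x hx hxa
    obtain ⟨t, -, ht⟩ := hstar x hx hxa
    by_contra hcon
    push Not at hcon
    have h1 := hm2 _ hcon
    have h2 : cm Ψ ((F.g m x - F.g m a : ℤ) : ℝ) ≤ Ψ ((F.g m x - F.g m a : ℤ) : ℝ) t :=
      cm_le hbΨ _ _
    linarith
  obtain ⟨E₁, hE₁⟩ : ∃ E₁, E₁ = X + (X + J + 20 * kap + 3) ^ (m + 3) := ⟨_, rfl⟩
  have hE₁u : E₁ ≤ X ^ u := by
    rw [hE₁, hu]
    exact num_E1 hX16 hk hJ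
  obtain ⟨ell₁, hell₁⟩ : ∃ ell₁, ell₁ = 6 * Wq E₁ J (JJ kap J) 2 + 2 := ⟨_, rfl⟩
  have hell₁X : ell₁ + 1 ≤ X ^ (3 * u + 10) := by
    rw [hell₁]
    exact num_ell hX16 hE₁u hJ hk
  obtain ⟨θ, hθ⟩ : ∃ θ : ℝ, θ = 2 + M₂ * ((ell₁ : ℝ) + 1) ^ 2 / 2 := ⟨_, rfl⟩
  have hθX : θ ≤ (X : ℝ) ^ (2 * q + 6 * u + 21) := by
    rw [hθ, hM₂]
    exact num_deep hMpos.le hXM hQX hell₁X
  have huu : u ≤ u₂ := by
    rw [hu₂]
    nlinarith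
  by_cases hcase : θ ≤ T - cm Ψ (m₀ : ℝ)
  · -- case A
    obtain ⟨a₀, ha₀⟩ := pole_of_col hT hΦ hμ hM hb hK a hQ hQ1 hN (X' := X) (ell := ell₁)
      (γ := m₀) (by
        refine le_trans (card_le_card ?_) habv
        intro x hx
        rw [mem_filter] at hx
        obtain ⟨hxK, hx1 | ⟨hx1, hx2⟩⟩ := hx
        · exact hx1
        · have := hstar2 x hxK hx1
          omega)
      (by
        have := num_r (v := 1) hX16 hQX (show q + 1 + 1 ≤ β by omega) hr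
        rwa [pow_one] at this)
      (by
        rw [← hΨ, ← hM₂]
        linarith)
    rw [← hE₁] at ha₀
    refine ⟨a₀, E₁, ell₁, ha₀, hell₁.ge, ?_, hlast⟩
    exact Wq_le hX16 (hE₁u.trans (Nat.pow_le_pow_right (by omega) huu)) hJ (JJ_le hJ hk)
  · -- case B
    push Not at hcase
    obtain ⟨E₂, hE₂⟩ : ∃ E₂, E₂ = X ^ v + (X ^ v + J + 20 * kap + 3) ^ (m + 3) := ⟨_, rfl⟩
    have hE₂u : E₂ ≤ X ^ u₂ := by
      rw [hE₂, hu₂]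
      exact num_E2 (by omega) hX16 hk hJ
    obtain ⟨ell₂, hell₂⟩ : ∃ ell₂, ell₂ = 6 * Wq E₂ J (JJ kap J) 2 + 2 := ⟨_, rfl⟩
    have hell₂X : ell₂ + 1 ≤ X ^ (3 * u₂ + 10) := by
      rw [hell₂]
      exact num_ell hX16 hE₂u hJ hk
    have hdeepX : 2 + M₂ * ((ell₂ : ℝ) + 1) ^ 2 / 2 ≤ (X : ℝ) ^ w := by
      rw [hM₂, hw]
      exact num_deep hMpos.le hXM hQX hell₂X
    -- the depth of the column `m₀ - 1`
    have hdeep2 : (X : ℝ) ^ w ≤ T - cm Ψ ((m₀ - 1 : ℤ) : ℝ) := by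
      refine le_of_sq_le_sq ?_ hm4
      have h1 : μ₂ * (X : ℝ) ^ β ≤ 16 * (T - cm Ψ ((m₀ - 1 : ℤ) : ℝ)) ^ 2 :=
        le_trans (mul_le_mul_of_nonneg_left hτ hμ₂pos.le) hm3
      have h2 : 16 * ((X : ℝ) ^ w) ^ 2 ≤ μ₂ * (X : ℝ) ^ β := by
        rw [hμ₂, div_mul_eq_mul_div, le_div_iff₀ (by positivity)]
        have h3 : (X : ℝ) ^ (2 * q) * (X * ((X : ℝ) ^ w) ^ 2) ≤ (X : ℝ) ^ β := by
          have h4 : (X : ℝ) ^ (2 * q) * (X * ((X : ℝ) ^ w) ^ 2) = (X : ℝ) ^ (2 * q + 2 * w + 1) := by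
            ring
          rw [h4]
          exact pow_le_pow_right₀ hX1 (by omega)
        have h5 : 16 * ((X : ℝ) ^ w) ^ 2 * (4 * (Q : ℝ) ^ 2) ≤
            64 * ((X : ℝ) ^ (2 * q) * ((X : ℝ) ^ w) ^ 2) := by
          have := mul_le_mul_of_nonneg_right hQXr (show (0 : ℝ) ≤ 64 * ((X : ℝ) ^ w) ^ 2 by positivity)
          nlinarith
        have h6 : 64 * ((X : ℝ) ^ (2 * q) * ((X : ℝ) ^ w) ^ 2) ≤
            μ * X * ((X : ℝ) ^ (2 * q) * ((X : ℝ) ^ w) ^ 2) :=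
          mul_le_mul_of_nonneg_right hXμ (by positivity)
        have h7 := mul_le_mul_of_nonneg_left h3 hμ.le
        nlinarith
      linarith
    -- the points in the column `m₀`
    have hcard : (K.filter (fun x => (∀ i : Fin (m + 2), i.1 < m → x i = a i) ∧
        F.g m x - F.g m a = m₀)).card ≤ X ^ (2 * q + 3 * u + 11) + 1 := by
      set S := K.filter (fun x => (∀ i : Fin (m + 2), i.1 < m → x i = a i) ∧
        F.g m x - F.g m a = m₀) with hS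
      have hS1 : ∀ x ∈ S, ∃ t : ℤ, x = a + m₀ • F.w m + t • F.e m ∧ Ψ (m₀ : ℝ) t ≤ T := by
        intro x hx
        rw [hS, mem_filter] at hx
        obtain ⟨hxK, hx1, hx2⟩ := hx
        obtain ⟨t, ht1, ht2⟩ := hstar x hxK hx1
        rw [hx2] at ht1 ht2
        exact ⟨t, ht1, ht2⟩
      choose! f hf1 hf2 using hS1
      have hinj : Set.InjOn f (S : Set (Fin (m + 2) → ℤ)) := by
        intro x hx y hy hxy
        rw [hf1 x (mem_coe.1 hx), hf1 y (mem_coe.1 hy), hxy]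
      rw [← card_image_of_injOn hinj]
      refine card_diam _ _ ?_
      intro s hs t ht
      rw [mem_image] at hs ht
      obtain ⟨x, hx, rfl⟩ := hs
      obtain ⟨y, hy, rfl⟩ := ht
      have h1 := (hSD.col (m₀ : ℝ)).pair (b := cm Ψ (m₀ : ℝ)) (fun t => cm_le hbΨ _ t)
        (hf2 x hx) (hf2 y hy)
      have h2 : μ₂ * ((f x : ℝ) - f y) ^ 2 ≤ 4 * (X : ℝ) ^ (2 * q + 6 * u + 21) := by linarith
      have h3 : ((f x : ℝ) - f y) ^ 2 ≤ ((X : ℝ) ^ (2 * q + 3 * u + 11)) ^ 2 := by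
        rw [hμ₂, div_mul_eq_mul_div, div_le_iff₀ (by positivity)] at h2
        have h4 : ((X : ℝ) ^ (2 * q + 3 * u + 11)) ^ 2 =
            (X : ℝ) ^ (2 * q) * (X * (X : ℝ) ^ (2 * q + 6 * u + 21)) := by ring
        rw [h4]
        have h5 : 4 * (X : ℝ) ^ (2 * q + 6 * u + 21) * (4 * (Q : ℝ) ^ 2) ≤
            64 * ((X : ℝ) ^ (2 * q) * (X : ℝ) ^ (2 * q + 6 * u + 21)) := by
          have := mul_le_mul_of_nonneg_right hQXr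
            (show (0 : ℝ) ≤ (X : ℝ) ^ (2 * q + 6 * u + 21) by positivity)
          have h0 : (0 : ℝ) ≤ (X : ℝ) ^ (2 * q) * (X : ℝ) ^ (2 * q + 6 * u + 21) := by positivity
          nlinarith
        have h6 : 64 * ((X : ℝ) ^ (2 * q) * (X : ℝ) ^ (2 * q + 6 * u + 21)) ≤
            μ * X * ((X : ℝ) ^ (2 * q) * (X : ℝ) ^ (2 * q + 6 * u + 21)) :=
          mul_le_mul_of_nonneg_right hXμ (by positivity)
        have h7 : μ * ((f x : ℝ) - f y) ^ 2 ≤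
            μ * ((X : ℝ) ^ (2 * q) * (X * (X : ℝ) ^ (2 * q + 6 * u + 21))) := by
          nlinarith
        exact le_of_mul_le_mul_left h7 hμ
      have h8 : (f x : ℝ) - f y ≤ (X : ℝ) ^ (2 * q + 3 * u + 11) :=
        (le_abs_self _).trans (abs_le_of_sq_le_sq h3 (by positivity))
      exact_mod_cast h8
    obtain ⟨a₀, ha₀⟩ := pole_of_col hT hΦ hμ hM hb hK a hQ hQ1 hN (X' := X ^ v) (ell := ell₂)
      (γ := m₀ - 1) (by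
        have hsub : (K.filter (fun x => x ∈ abv K m a ∨ ((∀ i : Fin (m + 2), i.1 < m → x i = a i) ∧
            F.g m a + (m₀ - 1) < F.g m x))) ⊆ abv K m a ∪
            (K.filter (fun x => (∀ i : Fin (m + 2), i.1 < m → x i = a i) ∧
              F.g m x - F.g m a = m₀)) := by
          intro x hx
          rw [mem_filter] at hx
          obtain ⟨hxK, hx1 | ⟨hx1, hx2⟩⟩ := hx
          · exact mem_union_left _ hx1
          · refine mem_union_right _ ?_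
            rw [mem_filter]
            refine ⟨hxK, hx1, ?_⟩
            have := hstar2 x hxK hx1
            omega
        refine (card_le_card hsub).trans ((card_union_le _ _).trans ?_)
        have h1 : X ^ v = X * X ^ (2 * q + 3 * u + 11) := by
          rw [← pow_succ', hv]
        have h2 : X ≤ X ^ (2 * q + 3 * u + 11) := Nat.le_self_pow (by omega) X
        have h3 : 16 * X ^ (2 * q + 3 * u + 11) ≤ X * X ^ (2 * q + 3 * u + 11) :=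
          Nat.mul_le_mul_right _ hX16
        omega)
      (num_r hX16 hQX (by omega) hr)
      (by
        rw [← hΨ, ← hM₂]
        linarith)
    rw [← hE₂] at ha₀
    refine ⟨a₀, E₂, ell₂, ha₀, hell₂.ge, ?_, hlast⟩
    exact Wq_le hX16 hE₂u hJ (JJ_le hJ hk)

end Pool.Agent.Lib.MP_8cf263_co
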