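import Pool.Agent.Lib.MP_8cf263_co.Row

/-!
# Round sets: definitions

Programme RD (discrete Aleksandrov projection problem): large round lattice sets are determined.
-/

set_option autoImplicit false

namespace Pool.Agent.Lib.MP_8cf263_co

open Finset

/-- membership indicator -/
def ind {n : ℕ} (A : Finset (Fin n → ℤ)) (x : Fin n → ℤ) : ℤ := if x ∈ A then 1 else 0

/-- `x` belongs to exactly one of the two sets -/
def Df {n : ℕ} (K L : Finset (Fin n → ℤ)) (x : Fin n → ℤ) : Prop := ¬ (x ∈ K ↔ x ∈ L)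

/-- fat twins: `K` lies in the box of radius `R` around the centre and contains the points of the
box of radius `r`; every `J` consecutive integers contain one avoiding a class for each prime
divisor of `m`, for all `m` of size at most `200 R ^ 2` -/
structure TwF {n : ℕ} (K L : Finset (Fin n → ℤ)) (c : Fin n → ℤ) (R r J kap : ℕ) : Prop where
  tw : Tw K L c
  n2 : 2 ≤ n
  out : ∀ x ∈ K, ∀ i, |vs c x i| ≤ R
  core : ∀ x : Fin n → ℤ, (∀ i, |vs c x i| ≤ r) → x ∈ K
  good : ∀ m : ℕ, m ≠ 0 → m ≤ 200 * R ^ 2 → Good J m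
  J1 : 1 ≤ J
  Jr : 64 * (J * kap) ≤ r
  rR : r ≤ R
  Rr : R ≤ kap * r

/-- number of points in the two short runs in which `K` and `L` differ on a line -/
def JJ (kap J : ℕ) : ℕ := 20 * kap * J + 3 * J + 1

/-- window lengths: `W E J J1 q` for the `q`-th highest line -/
def Wq (E J J1 : ℕ) : ℕ → ℕ
  | 0 => (2 * E + 1) * (J1 + J)
  | q + 1 => (2 * E + 4 * (q + 1) + 1) * (max J1 (2 * Wq E J J1 q) + J)

/-- a function on the line with second differences between `2 μ y ^ 2` and `2 M y ^ 2` -/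
structure SD1 (φ : ℝ → ℝ) (μ M : ℝ) : Prop where
  lo : ∀ x y, 2 * μ * y ^ 2 ≤ φ (x + y) + φ (x - y) - 2 * φ x
  up : ∀ x y, φ (x + y) + φ (x - y) - 2 * φ x ≤ 2 * M * y ^ 2

/-- the same on the plane -/
structure SD2 (Φ : ℝ → ℝ → ℝ) (μ M : ℝ) : Prop where
  lo : ∀ x y u v, 2 * μ * (u ^ 2 + v ^ 2) ≤ Φ (x + u) (y + v) + Φ (x - u) (y - v) - 2 * Φ x y
  up : ∀ x y u v, Φ (x + u) (y + v) + Φ (x - u) (y - v) - 2 * Φ x y ≤ 2 * M * (u ^ 2 + v ^ 2)

/-- the same on `ℝ ^ n` -/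
structure SDn {n : ℕ} (Φ : (Fin n → ℝ) → ℝ) (μ M : ℝ) : Prop where
  lo : ∀ x y, 2 * μ * (y ⬝ᵥ y) ≤ Φ (x + y) + Φ (x - y) - 2 * Φ x
  up : ∀ x y, Φ (x + y) + Φ (x - y) - 2 * Φ x ≤ 2 * M * (y ⬝ᵥ y)

/-- marginal over columns -/
noncomputable def cm (Φ : ℝ → ℝ → ℝ) (x : ℝ) : ℝ := ⨅ y, Φ x y

/-- keep the coordinates below `k` of `x`, take the others from `y` -/
def mix {n : ℕ} (k : ℕ) (x y : Fin n → ℝ) : Fin n → ℝ := fun i => if i.1 < k then x i else y i

/-- minimum over all vectors with prescribed coordinates below `k` -/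
noncomputable def mg {n : ℕ} (Φ : (Fin n → ℝ) → ℝ) (k : ℕ) (x : Fin n → ℝ) : ℝ := ⨅ y, Φ (mix k x y)

/-- the points of `K` which are lexicographically above `a` in the first `k` coordinates -/
def abv {n : ℕ} (K : Finset (Fin n → ℤ)) (k : ℕ) (a : Fin n → ℤ) : Finset (Fin n → ℤ) :=
  K.filter fun x => ∃ j : Fin n, j.1 < k ∧ (∀ i : Fin n, i < j → x i = a i) ∧ a j < x j

/-- the coordinate number `m` of a vector with `m + 2` coordinates -/
def iu (m : ℕ) : Fin (m + 2) := ⟨m, by omega⟩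

/-- the last coordinate of a vector with `m + 2` coordinates -/
def iv (m : ℕ) : Fin (m + 2) := ⟨m + 1, by omega⟩

/-- a unimodular basis `w = (p1, p2)`, `e = (q1, q2)` of the plane of the last two coordinates -/
structure Fr where
  p1 : ℤ
  p2 : ℤ
  q1 : ℤ
  q2 : ℤ
  ep : ℤ
  hep : ep = 1 ∨ ep = -1
  det : ep * (p1 * q2 - p2 * q1) = 1

/-- the vector `w` -/
def Fr.w (F : Fr) (m : ℕ) : Fin (m + 2) → ℤ := Pi.single (iu m) F.p1 + Pi.single (iv m) F.p2

/-- the direction `e` -/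
def Fr.e (F : Fr) (m : ℕ) : Fin (m + 2) → ℤ := Pi.single (iu m) F.q1 + Pi.single (iv m) F.q2

/-- the functional with kernel spanned by `e` and value `1` at `w` -/
def Fr.g (F : Fr) (m : ℕ) (x : Fin (m + 2) → ℤ) : ℤ := F.ep * (x (iu m) * F.q2 - x (iv m) * F.q1)

/-- all entries are bounded by `Q` -/
def Fr.Le (F : Fr) (Q : ℤ) : Prop := |F.p1| ≤ Q ∧ |F.p2| ≤ Q ∧ |F.q1| ≤ Q ∧ |F.q2| ≤ Q

/-- the lexicographic functional -/
def lf (m : ℕ) (N : ℤ) (F : Fr) (x : Fin (m + 2) → ℤ) : ℤ :=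
  (∑ i : Fin (m + 2), if i.1 < m then N ^ (m - i.1) * x i else 0) + F.g m x

/-- the lexicographic functional as a homomorphism -/
def lfh (m : ℕ) (N : ℤ) (F : Fr) : (Fin (m + 2) → ℤ) →+ ℤ where
  toFun := lf m N F
  map_zero' := by
    simp [lf, Fr.g]
  map_add' x y := by
    have h1 : (∑ i : Fin (m + 2), if i.1 < m then N ^ (m - i.1) * (x + y) i else 0) =
        (∑ i : Fin (m + 2), if i.1 < m then N ^ (m - i.1) * x i else 0) +
        ∑ i : Fin (m + 2), if i.1 < m then N ^ (m - i.1) * y i else 0 := by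
      rw [← Finset.sum_add_distrib]
      refine Finset.sum_congr rfl fun i _ => ?_
      split_ifs
      · rw [Pi.add_apply]
        ring
      · ring
    unfold lf
    rw [h1]
    simp only [Fr.g, Pi.add_apply]
    ring

/-- the lines in direction `e` are ordered by `f`; the line of `a` contains the points
`a, a + e, ..., a + ell e` of `K`, and at most `E` points of `K ∪ L` are higher -/
structure Pole {n : ℕ} (K L : Finset (Fin n → ℤ)) (c : Fin n → ℤ) (f : (Fin n → ℤ) →+ ℤ)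
    (e a : Fin n → ℤ) (E ell : ℕ) : Prop where
  pe : Pr e
  fe : f e = 0
  sep : ∀ x ∈ K ∪ L, ∀ y ∈ K ∪ L, f x = f y → ∃ t : ℤ, y = x + t • e
  run : ∀ t : ℤ, 0 ≤ t → t ≤ ell → a + t • e ∈ K
  top : ((K ∪ L).filter (fun x => f a < f x)).card ≤ E
  half : f c < 2 * f a

/-- on the line of `p` the two sets are short, close to each other and have equally many points -/
def Cl {n : ℕ} (K L : Finset (Fin n → ℤ)) (e p : Fin n → ℤ) (W : ℕ) : Prop :=
  ∃ z : ℤ, (∀ t : ℤ, p + t • e ∈ K ∨ p + t • e ∈ L → z ≤ t ∧ t < z + 2 * W) ∧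
    ((Ico z (z + 2 * W)).filter (fun t => p + t • e ∈ K)).card =
    ((Ico z (z + 2 * W)).filter (fun t => p + t • e ∈ L)).card

/-- columns: `w` is the direction of the last but one coordinate, `e` of the last one -/
def FA : Fr := ⟨1, 0, 0, 1, 1, Or.inl rfl, by norm_num⟩

/-- rows -/
def FB : Fr := ⟨0, 1, 1, 0, -1, Or.inr rfl, by norm_num⟩

/-- skew lines `e = (1, M)` -/
def FC (M : ℤ) : Fr := ⟨0, -1, 1, M, 1, Or.inl rfl, by ring⟩

end Pool.Agent.Lib.MP_8cf263_co
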