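import Mathlib
import Pool.Agent.Lib.MP_8cf263_co.RsHalve
import Pool.Agent.Lib.MP_8cf263_co.RsCap
import Pool.Agent.Lib.MP_8cf263_co.RdDefs

section

/-!
# Round sets, file RdOneD: the one-dimensional lemma

`cn u1 u2 b a t` is the number of `k ∈ [u1, u2]` with `t - k ∈ [b, a]`.

Lemma `oneD`.  Let `U = [u1, u2]` and `V = [v1, v2]` be different intervals of integers (possibly
empty), let `I = [b, a]`, `I' = [b', a']` be intervals with `b + 6 W ≤ a`, `|a - a'| ≤ J`,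
`|b - b'| ≤ J`, `J ≤ W`, `1 ≤ W`.  Put
`main t = cn U I t + cn U I' t - cn V I t - cn V I' t`.
If every `W` consecutive integers contain a `t` with `main t = 0`, then `|U| = |V|` and `U ∪ V` is
contained in an interval of `2 W` integers.  (Checked by computer on random examples.)

Proof.  For `t ≥ u2 + max b b'` the condition `t - k ≥ b` holds for all `k ≤ u2`, so
`cn U I t = #{k ∈ U : t - a ≤ k}`.  Let `top` be the largest element of `U ∪ V` and
`Ψ θ = #{k ∈ U : θ ≤ k} - #{k ∈ V : θ ≤ k}`.  Then for `t ≥ top + max b b'`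
  (1) `main t = Ψ (t - a) + Ψ (t - a')`.
Similarly, if `bot` is the smallest element of `U ∪ V` and
`Ψ' θ = #{k ∈ V : k ≤ θ} - #{k ∈ U : k ≤ θ}`, then for `t ≤ bot + min a a'`
  (2) `- main t = Ψ' (t - b) + Ψ' (t - b')`.

By symmetry (exchange `U` and `V`, which changes the sign of `main`) we may assume that `U` is
non-empty and `u2 = top`, and either `V` is empty, or `v2 < u2` (case A), or `v2 = u2` (case B).

Case A.  Put `aM = max a a'`, `am = min a a'`.  Claim: there is `θ₀` with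
`u2 - W + 1 ≤ θ₀ ≤ u2` and `Ψ θ₀ ≤ 0`.  Otherwise `Ψ > 0` on `[u2 - W + 1, u2]`, and `Ψ θ = 0` for
`θ > u2`; for the `W` integers `t ∈ [u2 + aM - W + 1, u2 + aM]` we have
`t - aM ∈ [u2 - W + 1, u2]` and `t - am ≥ t - aM ≥ u2 - W + 1`, so by (1)
(applicable since `aM - W + 1 ≥ max b b'`) `main t ≥ Ψ (t - aM) > 0`, contradicting the
hypothesis.  Now `#{k ∈ V : θ₀ ≤ k} ≥ #{k ∈ U : θ₀ ≤ k} ≥ 1`, so `V` is non-empty.  If `u1 ≤ θ₀`
then `#{k ∈ U : θ₀ ≤ k} = u2 - θ₀ + 1 > v2 - θ₀ + 1 ≥ #{k ∈ V : θ₀ ≤ k}`, a contradiction; so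
`u1 > θ₀ ≥ u2 - W + 1` and `#{k ∈ V : θ₀ ≤ k} ≥ |U|`.  Moreover `v1 < u1`: otherwise
`V ⊆ [u1, v2]` and `|V| ≤ v2 - u1 + 1 < |U|`.
By the mirror image of this argument with (2): there is `θ₁` with `v1 ≤ θ₁ ≤ v1 + W - 1` and
`Ψ' θ₁ ≤ 0` (otherwise for the `W` integers `t ∈ [v1 + bm, v1 + bm + W - 1]`, `bm = min b b'`, we
get `t - bm ∈ [v1, v1 + W - 1]`, `t - bM ≤ t - bm` and `- main t > 0`), and then
`v2 < θ₁` and some element of `U` is `≤ θ₁`, so `u1 ≤ θ₁ ≤ v1 + W - 1`.  Hence `U ∪ V ⊆ [v1, u2]`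
with `u2 ≤ θ₀ + W - 1 < u1 + W - 1 ≤ v1 + 2 W - 2`.  Finally let
`t ∈ [u2 + max b b', v1 + min a a']`; this interval has at least `6 W - 2 J - 2 W ≥ W` integers,
for each of them all `t - k`, `k ∈ U ∪ V`, lie in `I ∩ I'`, so `main t = 2 (|U| - |V|)`, and one of
them satisfies `main t = 0`.  So `|U| = |V|`.

Case B.  `u2 = v2`, `U ≠ V`, so `u1 ≠ v1`; by symmetry `v1 < u1`.  Then `Ψ' θ > 0` for all
`θ ≥ v1` and `Ψ' θ = 0` for `θ < v1`; as above `- main t > 0` for the `W` integers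
`t ∈ [v1 + bm, v1 + bm + W - 1]`, a contradiction.

(Any other proof is fine; the constants have slack.)
-/

set_option autoImplicit false

namespace Pool.Agent.Lib.MP_8cf263_co

open Finset

/-- number of `k ∈ [u1, u2]` with `t - k ∈ [b, a]` -/
noncomputable def cn (u1 u2 b a t : ℤ) : ℤ := (((Icc u1 u2).filter (fun k => b ≤ t - k ∧ t - k ≤ a)).card : ℤ)

theorem cn_eq (u1 u2 b a t : ℤ) :
    cn u1 u2 b a t = max 0 (min u2 (t - b) - max u1 (t - a) + 1) := by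
  have h : (Icc u1 u2).filter (fun k => b ≤ t - k ∧ t - k ≤ a) =
      Icc (max u1 (t - a)) (min u2 (t - b)) := by
    ext k
    simp only [mem_filter, mem_Icc]
    constructor
    · rintro ⟨⟨h1, h2⟩, h3, h4⟩
      constructor <;> omega
    · rintro ⟨h1, h2⟩
      refine ⟨⟨?_, ?_⟩, ?_, ?_⟩ <;> omega
  unfold cn
  rw [h, Int.card_Icc, Int.toNat_eq_max]
  omega

private theorem oneD_top {u1 u2 v1 v2 a b a' b' : ℤ} {W J : ℤ} (hW : 1 ≤ W) (hJ : 0 ≤ J)
    (hJW : J ≤ W) (hab : b + 6 * W ≤ a) (h1 : a - a' ≤ J) (h1' : a' - a ≤ J) (h2 : b - b' ≤ J)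
    (h2' : b' - b ≤ J) (hU : u1 ≤ u2) (hV : v1 ≤ v2) (hvu : v2 ≤ u2)
    (H : ∀ s : ℤ, ∃ t : ℤ, s ≤ t ∧ t < s + W ∧
      cn u1 u2 b a t + cn u1 u2 b' a' t - cn v1 v2 b a t - cn v1 v2 b' a' t = 0) :
    ∃ θ : ℤ, u2 - W + 1 ≤ θ ∧ θ ≤ u2 ∧ u2 - max u1 θ + 1 ≤ max 0 (v2 - max v1 θ + 1) := by
  obtain ⟨t, t1, t2, t3⟩ := H (u2 + max a a' - W + 1)
  rw [cn_eq, cn_eq, cn_eq, cn_eq] at t3
  have e1 : min u2 (t - b) = u2 := by omega
  have e2 : min u2 (t - b') = u2 := by omega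
  have e3 : min v2 (t - b) = v2 := by omega
  have e4 : min v2 (t - b') = v2 := by omega
  rw [e1, e2, e3, e4] at t3
  rcases le_total a a' with h | h
  · rw [max_eq_right h] at t1 t2
    by_cases hc : t - a ≤ u2
    · by_cases hd : u2 - max u1 (t - a) + 1 ≤ max 0 (v2 - max v1 (t - a) + 1)
      · exact ⟨t - a, by omega, hc, hd⟩
      · refine ⟨t - a', by omega, by omega, ?_⟩
        generalize t - a' = x at *
        generalize t - a = y at *
        omega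
    · refine ⟨t - a', by omega, by omega, ?_⟩
      generalize t - a' = x at *
      generalize t - a = y at *
      omega
  · rw [max_eq_left h] at t1 t2
    by_cases hc : t - a' ≤ u2
    · by_cases hd : u2 - max u1 (t - a') + 1 ≤ max 0 (v2 - max v1 (t - a') + 1)
      · exact ⟨t - a', by omega, hc, hd⟩
      · refine ⟨t - a, by omega, by omega, ?_⟩
        generalize t - a' = x at *
        generalize t - a = y at *
        omega
    · refine ⟨t - a, by omega, by omega, ?_⟩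
      generalize t - a' = x at *
      generalize t - a = y at *
      omega

private theorem cn_neg (u1 u2 b a t : ℤ) : cn (-u2) (-u1) (-a) (-b) (-t) = cn u1 u2 b a t := by
  rw [cn_eq, cn_eq]
  omega

private theorem oneD_bot {u1 u2 v1 v2 a b a' b' : ℤ} {W J : ℤ} (hW : 1 ≤ W) (hJ : 0 ≤ J)
    (hJW : J ≤ W) (hab : b + 6 * W ≤ a) (h1 : a - a' ≤ J) (h1' : a' - a ≤ J) (h2 : b - b' ≤ J)
    (h2' : b' - b ≤ J) (hU : u1 ≤ u2) (hV : v1 ≤ v2) (hvu : v1 ≤ u1)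
    (H : ∀ s : ℤ, ∃ t : ℤ, s ≤ t ∧ t < s + W ∧
      cn u1 u2 b a t + cn u1 u2 b' a' t - cn v1 v2 b a t - cn v1 v2 b' a' t = 0) :
    ∃ θ : ℤ, v1 ≤ θ ∧ θ ≤ v1 + W - 1 ∧ min v2 θ - v1 + 1 ≤ max 0 (min u2 θ - u1 + 1) := by
  obtain ⟨θ, h3, h4, h5⟩ := oneD_top (u1 := -v2) (u2 := -v1) (v1 := -u2) (v2 := -u1) (a := -b)
    (b := -a) (a' := -b') (b' := -a') hW hJ hJW (by omega) (by omega) (by omega) (by omega)
    (by omega) (by omega) (by omega) (by omega) (fun s => by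
      obtain ⟨t, t1, t2, t3⟩ := H (-s - W + 1)
      refine ⟨-t, by omega, by omega, ?_⟩
      rw [cn_neg, cn_neg, cn_neg, cn_neg]
      omega)
  exact ⟨-θ, by omega, by omega, by omega⟩

private theorem oneD_aux {u1 u2 v1 v2 a b a' b' : ℤ} {W J : ℤ} (hW : 1 ≤ W) (hJ : 0 ≤ J)
    (hJW : J ≤ W) (hab : b + 6 * W ≤ a) (h1 : a - a' ≤ J) (h1' : a' - a ≤ J) (h2 : b - b' ≤ J)
    (h2' : b' - b ≤ J) (hU : u1 ≤ u2) (hV : v1 ≤ v2) (hvu : v2 ≤ u2) (hne : v2 = u2 → v1 < u1)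
    (H : ∀ s : ℤ, ∃ t : ℤ, s ≤ t ∧ t < s + W ∧
      cn u1 u2 b a t + cn u1 u2 b' a' t - cn v1 v2 b a t - cn v1 v2 b' a' t = 0) :
    u2 - u1 = v2 - v1 ∧ v1 ≤ u1 ∧ v2 ≤ u2 ∧ u2 < v1 + 2 * W := by
  have hv1 : v1 < u1 := by
    rcases hvu.lt_or_eq with h | h
    · obtain ⟨θ, h3, h4, h5⟩ := oneD_top hW hJ hJW hab h1 h1' h2 h2' hU hV hvu H
      omega
    · exact hne h
  obtain ⟨θ, g3, g4, g5⟩ := oneD_bot hW hJ hJW hab h1 h1' h2 h2' hU hV hv1.le H
  have hv2 : v2 < u2 := by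
    rcases hvu.lt_or_eq with h | h
    · exact h
    · omega
  obtain ⟨θ', h3, h4, h5⟩ := oneD_top hW hJ hJW hab h1 h1' h2 h2' hU hV hvu H
  have k1 : θ' < u1 := by omega
  have k2 : u1 ≤ θ := by omega
  have k3 : u2 < v1 + 2 * W := by omega
  refine ⟨?_, hv1.le, hvu, k3⟩
  obtain ⟨t, t1, t2, t3⟩ := H (u2 + max b b')
  rw [cn_eq, cn_eq, cn_eq, cn_eq] at t3
  have e1 : min u2 (t - b) = u2 := by omega
  have e2 : min u2 (t - b') = u2 := by omega
  have e3 : min v2 (t - b) = v2 := by omega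
  have e4 : min v2 (t - b') = v2 := by omega
  have e5 : max u1 (t - a) = u1 := by omega
  have e6 : max u1 (t - a') = u1 := by omega
  have e7 : max v1 (t - a) = v1 := by omega
  have e8 : max v1 (t - a') = v1 := by omega
  rw [e1, e2, e3, e4, e5, e6, e7, e8] at t3
  omega

private theorem oneD_empty {u1 u2 v1 v2 a b a' b' : ℤ} {W J : ℤ} (hW : 1 ≤ W) (hJ : 0 ≤ J)
    (hJW : J ≤ W) (hab : b + 6 * W ≤ a) (h1 : a - a' ≤ J) (h1' : a' - a ≤ J) (h2 : b - b' ≤ J)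
    (h2' : b' - b ≤ J) (hU : u1 ≤ u2) (hV : v2 < v1)
    (H : ∀ s : ℤ, ∃ t : ℤ, s ≤ t ∧ t < s + W ∧
      cn u1 u2 b a t + cn u1 u2 b' a' t - cn v1 v2 b a t - cn v1 v2 b' a' t = 0) : False := by
  obtain ⟨t, t1, t2, t3⟩ := H (u2 + max b b')
  rw [cn_eq, cn_eq, cn_eq, cn_eq] at t3
  have e1 : min u2 (t - b) = u2 := by omega
  have e2 : min u2 (t - b') = u2 := by omega
  have e3 : min v2 (t - b) - max v1 (t - a) + 1 ≤ 0 := by omega
  have e4 : min v2 (t - b') - max v1 (t - a') + 1 ≤ 0 := by omega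
  have e5 : max u1 (t - a) ≤ u2 := by omega
  have e6 : max u1 (t - a') ≤ u2 := by omega
  rw [e1, e2, max_eq_left e3, max_eq_left e4, max_eq_right (by omega), max_eq_right (by omega)] at t3
  omega

theorem oneD {u1 u2 v1 v2 a b a' b' : ℤ} {W J : ℕ} (hW : 1 ≤ W) (hJW : J ≤ W)
    (hab : b + 6 * W ≤ a) (h1 : |a - a'| ≤ J) (h2 : |b - b'| ≤ J)
    (hne : Icc u1 u2 ≠ Icc v1 v2)
    (H : ∀ s : ℤ, ∃ t : ℤ, s ≤ t ∧ t < s + W ∧
      cn u1 u2 b a t + cn u1 u2 b' a' t - cn v1 v2 b a t - cn v1 v2 b' a' t = 0) :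
    (Icc u1 u2).card = (Icc v1 v2).card ∧
      ∃ z : ℤ, ∀ k : ℤ, (k ∈ Icc u1 u2 ∨ k ∈ Icc v1 v2) → z ≤ k ∧ k < z + 2 * W := by
  have hW' : (1 : ℤ) ≤ W := by exact_mod_cast hW
  have hJ' : (0 : ℤ) ≤ J := Int.natCast_nonneg J
  have hJW' : (J : ℤ) ≤ W := by exact_mod_cast hJW
  obtain ⟨p1, p2⟩ := abs_le.1 h1
  obtain ⟨q1, q2⟩ := abs_le.1 h2
  have H' : ∀ s : ℤ, ∃ t : ℤ, s ≤ t ∧ t < s + W ∧
      cn v1 v2 b a t + cn v1 v2 b' a' t - cn u1 u2 b a t - cn u1 u2 b' a' t = 0 := fun s => by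
    obtain ⟨t, t1, t2, t3⟩ := H s
    exact ⟨t, t1, t2, by omega⟩
  rcases lt_or_ge u2 u1 with hU | hU
  · rcases lt_or_ge v2 v1 with hV | hV
    · exact absurd (by rw [Icc_eq_empty (by omega), Icc_eq_empty (by omega)]) hne
    · exact (oneD_empty hW' hJ' hJW' hab (by omega) (by omega) (by omega) (by omega) hV hU H').elim
  rcases lt_or_ge v2 v1 with hV | hV
  · exact (oneD_empty hW' hJ' hJW' hab (by omega) (by omega) (by omega) (by omega) hU hV H).elim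
  have key : ∀ {x1 x2 y1 y2 : ℤ}, x2 - x1 = y2 - y1 ∧ y1 ≤ x1 ∧ y2 ≤ x2 ∧ x2 < y1 + 2 * W →
      (Icc x1 x2).card = (Icc y1 y2).card ∧
      ∃ z : ℤ, ∀ k : ℤ, (k ∈ Icc x1 x2 ∨ k ∈ Icc y1 y2) → z ≤ k ∧ k < z + 2 * W := by
    intro x1 x2 y1 y2 ⟨r1, r2, r3, r4⟩
    refine ⟨?_, y1, fun k hk => ?_⟩
    · rw [Int.card_Icc, Int.card_Icc]
      congr 1
      omega
    · simp only [mem_Icc] at hk
      omega
  by_cases hc : v2 < u2 ∨ (v2 = u2 ∧ v1 < u1)
  · exact key (oneD_aux hW' hJ' hJW' hab (by omega) (by omega) (by omega) (by omega) hU hV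
      (by omega) (by omega) H)
  · have hne' : u2 = v2 → u1 < v1 := by
      intro he
      rcases lt_trichotomy u1 v1 with h | h | h
      · exact h
      · exact absurd (by rw [h, he]) hne
      · omega
    obtain ⟨r1, z, r2⟩ := key (oneD_aux hW' hJ' hJW' hab (by omega) (by omega) (by omega)
      (by omega) hV hU (by omega) hne' H')
    exact ⟨r1.symm, z, fun k hk => r2 k hk.symm⟩

end Pool.Agent.Lib.MP_8cf263_co
end

section

/-!
# One round spot, file RsEnv: the convex envelope of a semiconcave function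

Let `h : ℝ ^ n → ℝ` be bounded below by an affine function, `c₀ + p₀ ⬝ᵥ x ≤ h x`.  Let
`C = convexHull ℝ {z : (ℝ ^ n) × ℝ | h z.1 ≤ z.2}` and `env h x = sInf {t | (x, t) ∈ C}`.

`env_aff`: if `c + p ⬝ᵥ x ≤ h x` for all `x` then `c + p ⬝ᵥ x ≤ env h x`.
Proof: the set `{z | c + p ⬝ᵥ z.1 ≤ z.2}` is convex and contains the epigraph, so it contains `C`
(`convexHull_min`); `le_csInf` (the set is not empty: it contains `h x`).
`env_le`: `env h x ≤ h x` (`csInf_le`; bounded below by `env_aff` of the given affine function).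
`env_lo`: `2 env h x ≤ env h (x + v) + env h (x - v)`.
Proof: for `ε > 0` choose `t₁ < env h (x + v) + ε`, `t₂ < env h (x - v) + ε` with `(x + v, t₁)`,
`(x - v, t₂) ∈ C` (`exists_lt_of_csInf_lt`); the midpoint `(x, (t₁ + t₂) / 2)` is in `C`.
`env_conv`: `env h` is convex (same proof, with the convex combination instead of the midpoint).
`env_up`: if `h (x + v) + h (x - v) ≤ 2 h x + κ` for all `x` (`v` fixed) then
`env h (x + v) + env h (x - v) ≤ 2 env h x + κ`.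
Proof: the set `S` of all `z = (x, t)` such that there are `t₁`, `t₂` with `(x + v, t₁) ∈ C`,
`(x - v, t₂) ∈ C` and `t₁ + t₂ ≤ 2 t + κ` is convex (`C` is convex: take the same convex combinations of
the `t₁` and the `t₂`) and contains the epigraph of `h` (`t₁ = h (x + v)`, `t₂ = h (x - v)`), so
`C ⊆ S`.  For `ε > 0` choose `(x, t) ∈ C` with `t < env h x + ε`; then
`env h (x + v) + env h (x - v) ≤ t₁ + t₂ ≤ 2 t + κ`.
-/

set_option autoImplicit false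

namespace Pool.Agent.Lib.MP_8cf263_co

/-- convex envelope -/
noncomputable def env {n : ℕ} (h : (Fin n → ℝ) → ℝ) (x : Fin n → ℝ) : ℝ :=
  sInf {t : ℝ | (x, t) ∈ convexHull ℝ {z : (Fin n → ℝ) × ℝ | h z.1 ≤ z.2}}

variable {n : ℕ} {h : (Fin n → ℝ) → ℝ}

private theorem hull_aff {c : ℝ} {p : Fin n → ℝ} (hp : ∀ x, c + p ⬝ᵥ x ≤ h x)
    {z : (Fin n → ℝ) × ℝ} (hz : z ∈ convexHull ℝ {z : (Fin n → ℝ) × ℝ | h z.1 ≤ z.2}) :
    c + p ⬝ᵥ z.1 ≤ z.2 := by
  have hconv : Convex ℝ {z : (Fin n → ℝ) × ℝ | c + p ⬝ᵥ z.1 ≤ z.2} := by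
    intro a ha b hb s t hs ht hst
    simp only [Set.mem_ofPred_eq, Prod.fst_add, Prod.smul_fst, Prod.snd_add, Prod.smul_snd,
      smul_eq_mul, dotProduct_add, dotProduct_smul] at ha hb ⊢
    have h1 := mul_le_mul_of_nonneg_left ha hs
    have h2 := mul_le_mul_of_nonneg_left hb ht
    have h3 : c = s * c + t * c := by rw [← add_mul, hst, one_mul]
    nlinarith [h1, h2, h3]
  have hsub : {z : (Fin n → ℝ) × ℝ | h z.1 ≤ z.2} ⊆
      {z : (Fin n → ℝ) × ℝ | c + p ⬝ᵥ z.1 ≤ z.2} := fun z hz => (hp z.1).trans hz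
  exact convexHull_min hsub hconv hz

private theorem mem_hull (x : Fin n → ℝ) :
    (x, h x) ∈ convexHull ℝ {z : (Fin n → ℝ) × ℝ | h z.1 ≤ z.2} :=
  subset_convexHull ℝ _ (le_refl (h x))

theorem env_aff {c : ℝ} {p : Fin n → ℝ} (hp : ∀ x, c + p ⬝ᵥ x ≤ h x) (x : Fin n → ℝ) :
    c + p ⬝ᵥ x ≤ env h x :=
  le_csInf ⟨h x, mem_hull x⟩ fun _ ht => hull_aff hp ht

private theorem env_le_of_mem {c₀ : ℝ} {p₀ : Fin n → ℝ} (h0 : ∀ x, c₀ + p₀ ⬝ᵥ x ≤ h x)
    {x : Fin n → ℝ} {t : ℝ}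
    (ht : (x, t) ∈ convexHull ℝ {z : (Fin n → ℝ) × ℝ | h z.1 ≤ z.2}) : env h x ≤ t :=
  csInf_le ⟨c₀ + p₀ ⬝ᵥ x, fun _ hs => hull_aff h0 hs⟩ ht

private theorem exists_near (x : Fin n → ℝ) {ε : ℝ} (hε : 0 < ε) :
    ∃ t : ℝ, (x, t) ∈ convexHull ℝ {z : (Fin n → ℝ) × ℝ | h z.1 ≤ z.2} ∧ t < env h x + ε :=
  exists_lt_of_csInf_lt (s := {t : ℝ | (x, t) ∈ convexHull ℝ
    {z : (Fin n → ℝ) × ℝ | h z.1 ≤ z.2}}) ⟨h x, mem_hull x⟩ (lt_add_of_pos_right _ hε)

theorem env_le {c₀ : ℝ} {p₀ : Fin n → ℝ} (h0 : ∀ x, c₀ + p₀ ⬝ᵥ x ≤ h x) (x : Fin n → ℝ) :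
    env h x ≤ h x :=
  env_le_of_mem h0 (mem_hull x)

private theorem env_conv' {c₀ : ℝ} {p₀ : Fin n → ℝ} (h0 : ∀ x, c₀ + p₀ ⬝ᵥ x ≤ h x)
    (x y : Fin n → ℝ) {t : ℝ} (ht0 : 0 ≤ t) (ht1 : t ≤ 1) :
    env h ((1 - t) • x + t • y) ≤ (1 - t) * env h x + t * env h y := by
  refine le_of_forall_pos_le_add fun ε hε => ?_
  obtain ⟨t₁, h1, h1'⟩ := exists_near (h := h) x hε
  obtain ⟨t₂, h2, h2'⟩ := exists_near (h := h) y hε
  have h1t : 0 ≤ 1 - t := by linarith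
  have hm := (convex_convexHull ℝ {z : (Fin n → ℝ) × ℝ | h z.1 ≤ z.2}) h1 h2 h1t ht0
    (by ring)
  have he : (1 - t) • ((x, t₁) : (Fin n → ℝ) × ℝ) + t • ((y, t₂) : (Fin n → ℝ) × ℝ) =
      ((1 - t) • x + t • y, (1 - t) * t₁ + t * t₂) := by
    refine Prod.ext ?_ ?_ <;> simp
  rw [he] at hm
  have h3 := env_le_of_mem h0 hm
  have h4 := mul_le_mul_of_nonneg_left h1'.le h1t
  have h5 := mul_le_mul_of_nonneg_left h2'.le ht0
  nlinarith [h3, h4, h5]

theorem env_lo {c₀ : ℝ} {p₀ : Fin n → ℝ} (h0 : ∀ x, c₀ + p₀ ⬝ᵥ x ≤ h x) (x v : Fin n → ℝ) :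
    2 * env h x ≤ env h (x + v) + env h (x - v) := by
  have h1 := env_conv' h0 (x + v) (x - v) (t := 1 / 2) (by norm_num) (by norm_num)
  have he : (1 - 1 / 2 : ℝ) • (x + v) + (1 / 2 : ℝ) • (x - v) = x := by
    funext i
    simp only [Pi.add_apply, Pi.smul_apply, Pi.sub_apply, smul_eq_mul]
    ring
  rw [he] at h1
  linarith

theorem env_conv {c₀ : ℝ} {p₀ : Fin n → ℝ} (h0 : ∀ x, c₀ + p₀ ⬝ᵥ x ≤ h x) (x y : Fin n → ℝ) {t : ℝ}
    (ht0 : 0 ≤ t) (ht1 : t ≤ 1) :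
    env h ((1 - t) • x + t • y) ≤ (1 - t) * env h x + t * env h y :=
  env_conv' h0 x y ht0 ht1

theorem env_up {c₀ : ℝ} {p₀ : Fin n → ℝ} (h0 : ∀ x, c₀ + p₀ ⬝ᵥ x ≤ h x) {v : Fin n → ℝ} {κ : ℝ}
    (hv : ∀ x, h (x + v) + h (x - v) ≤ 2 * h x + κ) (x : Fin n → ℝ) :
    env h (x + v) + env h (x - v) ≤ 2 * env h x + κ := by
  have hC := convex_convexHull ℝ {z : (Fin n → ℝ) × ℝ | h z.1 ≤ z.2}
  have hconv : Convex ℝ {z : (Fin n → ℝ) × ℝ | ∃ t₁ t₂ : ℝ,
      (z.1 + v, t₁) ∈ convexHull ℝ {z : (Fin n → ℝ) × ℝ | h z.1 ≤ z.2} ∧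
      (z.1 - v, t₂) ∈ convexHull ℝ {z : (Fin n → ℝ) × ℝ | h z.1 ≤ z.2} ∧
      t₁ + t₂ ≤ 2 * z.2 + κ} := by
    rintro a ⟨t₁, t₂, h1, h2, h3⟩ b ⟨s₁, s₂, g1, g2, g3⟩ s t hs ht hst
    refine ⟨s * t₁ + t * s₁, s * t₂ + t * s₂, ?_, ?_, ?_⟩
    · have hm := hC h1 g1 hs ht hst
      have he : s • ((a.1 + v, t₁) : (Fin n → ℝ) × ℝ) + t • ((b.1 + v, s₁) : (Fin n → ℝ) × ℝ) =
          ((s • a + t • b).1 + v, s * t₁ + t * s₁) := by
        refine Prod.ext ?_ ?_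
        · funext i
          simp only [Prod.fst_add, Prod.smul_fst, Pi.add_apply, Pi.smul_apply, smul_eq_mul]
          linear_combination (v i) * hst
        · simp
      rwa [he] at hm
    · have hm := hC h2 g2 hs ht hst
      have he : s • ((a.1 - v, t₂) : (Fin n → ℝ) × ℝ) + t • ((b.1 - v, s₂) : (Fin n → ℝ) × ℝ) =
          ((s • a + t • b).1 - v, s * t₂ + t * s₂) := by
        refine Prod.ext ?_ ?_
        · funext i
          simp only [Prod.fst_add, Prod.smul_fst, Pi.add_apply, Pi.smul_apply, Pi.sub_apply,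
            smul_eq_mul]
          linear_combination (-(v i)) * hst
        · simp
      rwa [he] at hm
    · have h4 := mul_le_mul_of_nonneg_left h3 hs
      have h5 := mul_le_mul_of_nonneg_left g3 ht
      have h6 : κ = s * κ + t * κ := by rw [← add_mul, hst, one_mul]
      simp only [Prod.snd_add, Prod.smul_snd, smul_eq_mul]
      nlinarith [h4, h5, h6]
  have hsub : {z : (Fin n → ℝ) × ℝ | h z.1 ≤ z.2} ⊆ {z : (Fin n → ℝ) × ℝ | ∃ t₁ t₂ : ℝ,
      (z.1 + v, t₁) ∈ convexHull ℝ {z : (Fin n → ℝ) × ℝ | h z.1 ≤ z.2} ∧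
      (z.1 - v, t₂) ∈ convexHull ℝ {z : (Fin n → ℝ) × ℝ | h z.1 ≤ z.2} ∧
      t₁ + t₂ ≤ 2 * z.2 + κ} := by
    intro z hz
    have hz' : h z.1 ≤ z.2 := hz
    exact ⟨h (z.1 + v), h (z.1 - v), mem_hull _, mem_hull _, by linarith [hv z.1]⟩
  refine le_of_forall_pos_le_add fun ε hε => ?_
  obtain ⟨t, ht, ht'⟩ := exists_near (h := h) x (ε := ε / 2) (by linarith)
  obtain ⟨t₁, t₂, h1, h2, h3⟩ := convexHull_min hsub hconv ht
  have h4 := env_le_of_mem h0 h1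
  have h5 := env_le_of_mem h0 h2
  have h6 : t₁ + t₂ ≤ 2 * t + κ := h3
  linarith

end Pool.Agent.Lib.MP_8cf263_co
end

section

/-!
# One round spot, file RsCoco: co-coercivity and the infimum of the upper paraboloids

Setting (`Taylor g P q ρ L`): `g : ℝ ^ n → ℝ`, `P : ℝ ^ n → ℝ ^ n`, and for all `x, y ∈ Bl q (3 ρ)`
`g y + P y ⬝ᵥ (x - y) ≤ g x ≤ g y + P y ⬝ᵥ (x - y) + L |x - y| ^ 2`; `0 < ρ`, `0 < L`.

`coco`: for `y, y' ∈ Bl q ρ`: `|P y' - P y| ^ 2 ≤ 4 L (g y' - g y - P y ⬝ᵥ (y' - y))`.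
Proof.  Let `a = P y' - P y`, `A = a ⬝ᵥ a` and `D = g y' - g y - P y ⬝ᵥ (y' - y)`.  For `0 ≤ τ` such that
`w = y' - τ a ∈ Bl q (3 ρ)`: the upper bound at `y'` and the lower bound at `y` give
`g y + P y ⬝ᵥ (w - y) ≤ g w ≤ g y' - τ (P y' ⬝ᵥ a) + L τ ^ 2 A`, i.e.
`τ A - L τ ^ 2 A ≤ D`.   (1)
Also `D ≤ L |y' - y| ^ 2 ≤ 4 L ρ ^ 2` (upper bound at `y`; `|y' - y| ≤ 2 ρ`).   (2)
`w ∈ Bl q (3 ρ)` holds if `τ ^ 2 A ≤ 4 ρ ^ 2` (triangle inequality:
`|y' - q - τ a| ^ 2 ≤ (ρ + 2 ρ) ^ 2`).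
If `A ≤ 16 L ^ 2 ρ ^ 2` take `τ = 1 / (2 L)` in (1): `A / (4 L) ≤ D`.
If `A > 16 L ^ 2 ρ ^ 2` take `τ = 2 ρ / √A < 1 / (2 L)` in (1):
`D ≥ τ A (1 - L τ) ≥ τ A / 2 = ρ √A > 4 L ρ ^ 2`, contradicting (2).

`cross`: for `y, y' ∈ Bl q ρ` and every `x`:
`g y + P y ⬝ᵥ (x - y) ≤ g y' + P y' ⬝ᵥ (x - y') + L |x - y'| ^ 2`.
Proof.  With `w = x - y'`, `a = P y - P y'` the difference of the two sides is
`g y' - g y - P y ⬝ᵥ (y' - y) - a ⬝ᵥ w + L |w| ^ 2 ≥ |a| ^ 2 / (4 L) - a ⬝ᵥ w + L |w| ^ 2 ≥ 0`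
(`4 L` times this is `|a - 2 L w| ^ 2`).

`hul g P q ρ L x = ⨅ y : {y // Bl q ρ y}, g y + P y ⬝ᵥ (x - y) + L |x - y| ^ 2` satisfies
`hul_ge`: `g y + P y ⬝ᵥ (x - y) ≤ hul x` for `y ∈ Bl q ρ` (`cross`, `le_ciInf`);
`hul_le`: `hul y ≤ g y` for `y ∈ Bl q ρ` (`ciInf_le`; bounded below by `cross`);
`hul_up`: `hul (x + v) + hul (x - v) ≤ 2 hul x + 2 L |v| ^ 2` (for every `ε > 0` choose `y` almost
optimal for `x`; the paraboloid of `y` has second difference exactly `2 L |v| ^ 2`).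
(`q ∈ Bl q ρ`, so the index type is not empty.)
-/

set_option autoImplicit false

namespace Pool.Agent.Lib.MP_8cf263_co

/-- first order Taylor bounds on a ball -/
structure Taylor {n : ℕ} (g : (Fin n → ℝ) → ℝ) (P : (Fin n → ℝ) → Fin n → ℝ) (q : Fin n → ℝ)
    (ρ L : ℝ) : Prop where
  hρ : 0 < ρ
  hL : 0 < L
  lo : ∀ x y, Bl q (3 * ρ) x → Bl q (3 * ρ) y → g y + P y ⬝ᵥ (x - y) ≤ g x
  up : ∀ x y, Bl q (3 * ρ) x → Bl q (3 * ρ) y →
    g x ≤ g y + P y ⬝ᵥ (x - y) + L * ((x - y) ⬝ᵥ (x - y))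

/-- infimum of the upper paraboloids -/
noncomputable def hul {n : ℕ} (g : (Fin n → ℝ) → ℝ) (P : (Fin n → ℝ) → Fin n → ℝ)
    (q : Fin n → ℝ) (ρ L : ℝ) (x : Fin n → ℝ) : ℝ :=
  ⨅ y : {y // Bl q ρ y}, g y.1 + P y.1 ⬝ᵥ (x - y.1) + L * ((x - y.1) ⬝ᵥ (x - y.1))

variable {n : ℕ} {g : (Fin n → ℝ) → ℝ} {P : (Fin n → ℝ) → Fin n → ℝ} {q : Fin n → ℝ} {ρ L : ℝ}

private theorem dnn (v : Fin n → ℝ) : 0 ≤ v ⬝ᵥ v :=
  Finset.sum_nonneg fun i _ => mul_self_nonneg _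

private theorem dcs (a b : Fin n → ℝ) : (a ⬝ᵥ b) ^ 2 ≤ (a ⬝ᵥ a) * (b ⬝ᵥ b) := by
  have h := Finset.sum_mul_sq_le_sq_mul_sq Finset.univ a b
  simpa [dotProduct, sq] using h

private theorem tri {a b : Fin n → ℝ} {A B : ℝ} (ha : a ⬝ᵥ a ≤ A ^ 2) (hb : b ⬝ᵥ b ≤ B ^ 2)
    (hA : 0 ≤ A) (hB : 0 ≤ B) : (a - b) ⬝ᵥ (a - b) ≤ (A + B) ^ 2 := by
  have h1 := dcs a b
  have h2 : (a ⬝ᵥ b) ^ 2 ≤ (A * B) ^ 2 := by
    calc (a ⬝ᵥ b) ^ 2 ≤ (a ⬝ᵥ a) * (b ⬝ᵥ b) := h1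
      _ ≤ A ^ 2 * B ^ 2 := mul_le_mul ha hb (dnn b) (sq_nonneg _)
      _ = (A * B) ^ 2 := by ring
  have h3 : |a ⬝ᵥ b| ≤ A * B := abs_le_of_sq_le_sq h2 (mul_nonneg hA hB)
  have h4 := neg_abs_le (a ⬝ᵥ b)
  simp only [sub_dotProduct, dotProduct_sub]
  rw [dotProduct_comm b a]
  nlinarith

theorem coco (h : Taylor g P q ρ L) {y y' : Fin n → ℝ} (hy : Bl q ρ y) (hy' : Bl q ρ y') :
    (P y' - P y) ⬝ᵥ (P y' - P y) ≤ 4 * L * (g y' - g y - P y ⬝ᵥ (y' - y)) := by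
  have hρ := h.hρ
  have hL := h.hL
  have big : ∀ z, Bl q ρ z → Bl q (3 * ρ) z := by
    intro z hz
    unfold Bl at *
    nlinarith [sq_nonneg ρ]
  set a := P y' - P y with ha
  set A := a ⬝ᵥ a with hA
  have hA0 : 0 ≤ A := dnn a
  set D := g y' - g y - P y ⬝ᵥ (y' - y) with hD
  have one : ∀ τ : ℝ, 0 ≤ τ → τ ^ 2 * A ≤ 4 * ρ ^ 2 → τ * A - L * τ ^ 2 * A ≤ D := by
    intro τ h0 h1
    have hw : Bl q (3 * ρ) (y' - τ • a) := by
      unfold Bl at *
      have e : y' - τ • a - q = (y' - q) - τ • a := by abel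
      rw [e]
      have h2 : (τ • a) ⬝ᵥ (τ • a) ≤ (2 * ρ) ^ 2 := by
        simp only [smul_dotProduct, dotProduct_smul, smul_eq_mul]
        nlinarith
      have h3 := tri hy' h2 hρ.le (by positivity)
      calc _ ≤ (ρ + 2 * ρ) ^ 2 := h3
        _ = (3 * ρ) ^ 2 := by ring
    have u := h.up _ _ hw (big _ hy')
    have l := h.lo _ _ hw (big _ hy)
    have e1 : y' - τ • a - y' = -(τ • a) := by abel
    have e2 : y' - τ • a - y = (y' - y) - τ • a := by abel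
    rw [e1] at u
    rw [e2] at l
    simp only [dotProduct_neg, neg_dotProduct, smul_dotProduct, dotProduct_smul, smul_eq_mul,
      dotProduct_sub] at u l
    have e3 : A = P y' ⬝ᵥ a - P y ⬝ᵥ a := by
      rw [hA]
      nth_rw 1 [ha]
      rw [sub_dotProduct]
    simp only [dotProduct_sub] at hD
    have e4 : a ⬝ᵥ a = A := rfl
    rw [e4] at u
    rw [hD]
    nlinarith
  have two : D ≤ 4 * L * ρ ^ 2 := by
    have u := h.up _ _ (big _ hy') (big _ hy)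
    have h2 : (y' - y) ⬝ᵥ (y' - y) ≤ (ρ + ρ) ^ 2 := by
      have e : y' - y = (y' - q) - (y - q) := by abel
      rw [e]
      exact tri hy' hy hρ.le hρ.le
    rw [hD]
    nlinarith
  by_cases hc : A ≤ 16 * L ^ 2 * ρ ^ 2
  · have h1 := one (1 / (2 * L)) (by positivity) (by
      rw [div_pow, one_pow, div_mul_eq_mul_div, one_mul, div_le_iff₀ (by positivity)]
      nlinarith)
    have e : 1 / (2 * L) * A - L * (1 / (2 * L)) ^ 2 * A = A / (4 * L) := by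
      field_simp
      ring
    rw [e, div_le_iff₀ (by positivity)] at h1
    linarith
  · exfalso
    push Not at hc
    have hs : 0 < √A := Real.sqrt_pos.2 (lt_of_le_of_lt (by positivity) hc)
    have hs2 : √A ^ 2 = A := Real.sq_sqrt hA0
    have h4 : 4 * L * ρ < √A := by
      apply Real.lt_sqrt_of_sq_lt
      nlinarith
    have h1 := one (2 * ρ / √A) (by positivity) (by
      rw [div_pow, hs2, div_mul_cancel₀ _ (by nlinarith)]
      nlinarith)
    have e : 2 * ρ / √A * A - L * (2 * ρ / √A) ^ 2 * A = 2 * ρ * √A - 4 * L * ρ ^ 2 := by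
      rw [div_pow, hs2]
      have hA1 : A ≠ 0 := by nlinarith
      have e5 : 2 * ρ / √A * A = 2 * ρ * √A := by
        nth_rw 2 [← hs2]
        field_simp
      rw [e5]
      field_simp
      ring
    rw [e] at h1
    nlinarith

theorem cross (h : Taylor g P q ρ L) {y y' : Fin n → ℝ} (hy : Bl q ρ y) (hy' : Bl q ρ y')
    (x : Fin n → ℝ) :
    g y + P y ⬝ᵥ (x - y) ≤ g y' + P y' ⬝ᵥ (x - y') + L * ((x - y') ⬝ᵥ (x - y')) := by
  have h1 := coco h hy hy'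
  have hL := h.hL
  have h2 := dnn ((P y' - P y) + (2 * L) • (x - y'))
  simp only [add_dotProduct, dotProduct_add, smul_dotProduct, dotProduct_smul, smul_eq_mul] at h2
  rw [dotProduct_comm (x - y') (P y' - P y)] at h2
  have e1 : P y ⬝ᵥ (x - y) = P y ⬝ᵥ (x - y') + P y ⬝ᵥ (y' - y) := by
    rw [← dotProduct_add]
    congr 1
    abel
  have e2 : (P y' - P y) ⬝ᵥ (x - y') = P y' ⬝ᵥ (x - y') - P y ⬝ᵥ (x - y') := sub_dotProduct _ _ _
  rw [e1]
  rw [e2] at h2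
  have h3 : 0 ≤ 4 * L * (g y' + P y' ⬝ᵥ (x - y') + L * ((x - y') ⬝ᵥ (x - y')) -
      (g y + (P y ⬝ᵥ (x - y') + P y ⬝ᵥ (y' - y)))) := by nlinarith
  have h4 := nonneg_of_mul_nonneg_right h3 (by positivity)
  linarith

private theorem bb (h : Taylor g P q ρ L) (x : Fin n → ℝ) :
    BddBelow (Set.range fun y : {y // Bl q ρ y} =>
      g y.1 + P y.1 ⬝ᵥ (x - y.1) + L * ((x - y.1) ⬝ᵥ (x - y.1))) := by
  have hq : Bl q ρ q := by
    unfold Bl
    simp [sq_nonneg]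
  refine ⟨g q + P q ⬝ᵥ (x - q), ?_⟩
  rintro _ ⟨y, rfl⟩
  exact cross h hq y.2 x

private theorem ne (q : Fin n → ℝ) (ρ : ℝ) : Nonempty {y // Bl q ρ y} :=
  ⟨⟨q, by unfold Bl; simp [sq_nonneg]⟩⟩

theorem hul_ge (h : Taylor g P q ρ L) {y : Fin n → ℝ} (hy : Bl q ρ y) (x : Fin n → ℝ) :
    g y + P y ⬝ᵥ (x - y) ≤ hul g P q ρ L x := by
  haveI := ne q ρ
  exact le_ciInf fun y' => cross h hy y'.2 x

theorem hul_le (h : Taylor g P q ρ L) {y : Fin n → ℝ} (hy : Bl q ρ y) :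
    hul g P q ρ L y ≤ g y := by
  have h1 := ciInf_le (bb h y) ⟨y, hy⟩
  simpa [hul] using h1

theorem hul_up (h : Taylor g P q ρ L) (x v : Fin n → ℝ) :
    hul g P q ρ L (x + v) + hul g P q ρ L (x - v) ≤ 2 * hul g P q ρ L x + 2 * L * (v ⬝ᵥ v) := by
  haveI := ne q ρ
  refine le_of_forall_pos_le_add fun ε hε => ?_
  obtain ⟨y, hy⟩ := exists_lt_of_ciInf_lt (show hul g P q ρ L x < hul g P q ρ L x + ε / 2 by
    linarith)
  have h1 : hul g P q ρ L (x + v) ≤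
      g y.1 + P y.1 ⬝ᵥ (x + v - y.1) + L * ((x + v - y.1) ⬝ᵥ (x + v - y.1)) := ciInf_le (bb h _) y
  have h2 : hul g P q ρ L (x - v) ≤
      g y.1 + P y.1 ⬝ᵥ (x - v - y.1) + L * ((x - v - y.1) ⬝ᵥ (x - v - y.1)) := ciInf_le (bb h _) y
  have e1 : x + v - y.1 = (x - y.1) + v := by abel
  have e2 : x - v - y.1 = (x - y.1) - v := by abel
  rw [e1] at h1
  rw [e2] at h2
  simp only [add_dotProduct, dotProduct_add, sub_dotProduct, dotProduct_sub] at h1 h2 hy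
  have c := dotProduct_comm v x
  have c' := dotProduct_comm v y.1
  nlinarith

end Pool.Agent.Lib.MP_8cf263_co
end

section

/-!
# Round sets, file RdClose: the two sets are close on every line not through the centre

Let `h : TwF K L c R r J kap`.

`TwF.vis`.  If `b`, `e` are not parallel, `|b i|, |e i| ≤ 10 R`, `e` primitive, then every `J`
consecutive integers contain `t` with `b + t e` primitive.
Proof: `exists_prim` (file Base) with the minor `b i * e j - b j * e i ≠ 0`, of absolute value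
`≤ 2 * (10 R) ^ 2 = 200 R ^ 2`, and `h.good`.

`TwF.ax`.  If `v ≠ 0` there is a coordinate direction `Pi.single i 1` not parallel to `v`:
`v l ≠ 0` for some `l`, take any `i ≠ l` (`2 ≤ n`); the minor `v l * 1 - v i * 0 = v l`.
(`Pi.single i 1` is primitive.)

`TwF.coreL`.  If `|vs c x i| + 2 J ≤ r` for all `i` then `x ∈ L`.
Proof.  If `vs c x = 0`: `c = x + x`; `L` is not empty (same cardinality as `K`, and `K` is not
empty by `core` at `x`), take `w ∈ L`; `x` is the midpoint of `w` and `c - w`, so `x ∈ L`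
(`LC.comb` with `a = b = 1`, `k = 2`).  If `vs c x ≠ 0`: choose `i` by `TwF.ax` and `e = Pi.single i 1`;
for `|t| ≤ J` the point `x + t e` is in `K` by `core` (`vs` changes by `2 t` in coordinate `i` only);
`Tw.run` (file Base) with `α = -J`, `β = J` and visibility from `TwF.vis` for `b = x + x - c = vs c x`
(`|vs c x i| ≤ r ≤ R`) gives `x + t e ∈ L` for all `t` with `-2J + J - 1 ≤ 2 t ≤ 2 J - J + 1`, in
particular for `t = 0`.

`TwF.outL`.  `|vs c x i| ≤ 5 R` for `x ∈ L`.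
Proof.  As in the proof of `Tw.near` (file Face; copy the construction of `y`, `W`, `m` there; if
`x ∈ K` there is nothing to prove): for `w ∈ L`, `w ∉ K` there are `y ∈ K ∩ L`, a vector `W` with
`|W i| ≤ R` for all `i`, and `m : ℕ` with `w = y + m • W`.  All points `y + j • W`, `0 ≤ j ≤ m`,
are in `L` (`LC.seg`), `|vs c y i| ≤ R` and `vs c (y + j • W) = vs c y + 2 j • W`.
Suppose `|vs c w i| > 5 R` for some `i`.  Let `j` be the least natural number such that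
`|vs c (y + j • W) i| > 3 R` for some `i`; `j ≤ m`, `j ≠ 0`, and by minimality all coordinates of
`vs c (y + j • W)` are at most `3 R + 2 R = 5 R`.  So `w' = y + j • W ∈ L`, all
`|vs c w' i| ≤ 5 R`, and `|vs c w' i₀| > 3 R` for some `i₀`.  Choose `l ≠ i₀`, `e = Pi.single l 1`
and let `x₀ ∈ ℤ ^ n` be the point with `2 x₀ i - c i ∈ {0, 1}`, i.e. `x₀ i = (c i + 1) / 2`.
For `0 ≤ t < J` the point `x₀ + t e` satisfies `|vs c (x₀ + t e) i| ≤ 1 + 2 J`, so it is in `L` by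
`coreL` (`1 + 4 J ≤ 64 J ≤ r`).  The vectors `b = w' - x₀` and `e` are not parallel:
`2 b i₀ = vs c w' i₀ - vs c x₀ i₀ ≠ 0`, `e l = 1`, `e i₀ = 0`.  By `TwF.vis` (for `b` and `-e`, or
for `b` and `e` with `t ∈ (-J, 0]`) there is `t`, `0 ≤ t < J`, with `u = w' - (x₀ + t e)` primitive.
Then `x₀ + t e ∈ fol L u`, so `(fol K u).card = (fol L u).card > 0` (`Tw.cnt`), i.e. there is
`z ∈ K` with `z + u ∈ K`, so `2 |u i₀| = |vs c (z + u) i₀ - vs c z i₀| ≤ 2 R`.  But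
`2 u i₀ = vs c w' i₀ - vs c x₀ i₀` (`e i₀ = 0`) has absolute value `> 3 R - 1 ≥ 2 R`, as
`R ≥ r ≥ 64`.  Contradiction.

-/

set_option autoImplicit false

namespace Pool.Agent.Lib.MP_8cf263_co

open Finset

variable {n : ℕ} {K L : Finset (Fin n → ℤ)} {c : Fin n → ℤ} {R r J kap : ℕ}

theorem TwF.vis (h : TwF K L c R r J kap) {b e : Fin n → ℤ} (he : Pr e)
    (hb : ∀ i, |b i| ≤ 10 * R) (hee : ∀ i, |e i| ≤ 10 * R)
    (hnc : ∃ i j, b i * e j - b j * e i ≠ 0) (s : ℤ) :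
    ∃ t : ℤ, s ≤ t ∧ t < s + J ∧ Pr (b + t • e) := by
  obtain ⟨i, j, hij⟩ := hnc
  refine exists_prim he (i := i) (j := j) (h.good _ (Int.natAbs_ne_zero.2 hij) ?_) s
  have h1 : |b i * e j - b j * e i| ≤ 200 * (R : ℤ) ^ 2 := by
    have h2 := abs_sub (b i * e j) (b j * e i)
    rw [abs_mul, abs_mul] at h2
    have h3 : |b i| * |e j| ≤ (10 * R) * (10 * R) :=
      mul_le_mul (hb i) (hee j) (abs_nonneg _) (by positivity)
    have h4 : |b j| * |e i| ≤ (10 * R) * (10 * R) :=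
      mul_le_mul (hb j) (hee i) (abs_nonneg _) (by positivity)
    nlinarith
  have h5 : ((b i * e j - b j * e i).natAbs : ℤ) ≤ ((200 * R ^ 2 : ℕ) : ℤ) := by
    rw [Int.natCast_natAbs]
    push_cast
    exact h1
  exact_mod_cast h5

theorem prim_single (i : Fin n) : Pr (Pi.single i 1 : Fin n → ℤ) := by
  intro d hd
  have h1 := hd i
  rw [Pi.single_eq_same] at h1
  exact isUnit_of_dvd_one h1

theorem ax (hn : 2 ≤ n) {v : Fin n → ℤ} (hv : v ≠ 0) : ∃ l i : Fin n, i ≠ l ∧ v l ≠ 0 := by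
  obtain ⟨l, hl⟩ := Function.ne_iff.1 hv
  have : Nontrivial (Fin n) := Fin.nontrivial_iff_two_le.2 hn
  obtain ⟨i, hi⟩ := exists_ne l
  exact ⟨l, i, hi, hl⟩

private theorem abs_single_le (i k : Fin n) : |(Pi.single i 1 : Fin n → ℤ) k| ≤ 1 := by
  by_cases hk : k = i
  · rw [hk, Pi.single_eq_same]
    norm_num
  · rw [Pi.single_eq_of_ne hk]
    norm_num

private theorem vs_add_smul (c x e : Fin n → ℤ) (t : ℤ) (k : Fin n) :
    vs c (x + t • e) k = vs c x k + 2 * (t * e k) := by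
  simp only [vs, Pi.add_apply, Pi.smul_apply, smul_eq_mul]
  ring

theorem TwF.coreL (h : TwF K L c R r J kap) {x : Fin n → ℤ}
    (hx : ∀ i, |vs c x i| + 2 * J ≤ r) : x ∈ L := by
  have hJ : (1 : ℤ) ≤ J := by exact_mod_cast h.J1
  have hrR : (r : ℤ) ≤ R := by exact_mod_cast h.rR
  by_cases hv : vs c x = 0
  · have hxK : x ∈ K := by
      apply h.core
      intro i
      have := hx i
      linarith
    have hne : 0 < L.card := by
      rw [← h.tw.card]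
      exact card_pos.2 ⟨x, hxK⟩
    obtain ⟨w, hw⟩ := card_pos.1 hne
    refine h.tw.hL.comb hw ((h.tw.sL w).1 hw) (a := 1) (b := 1) (k := 2) (by norm_num)
      (by norm_num) (by norm_num) (by norm_num) ?_
    intro i
    have h1 := congrFun hv i
    simp only [vs, Pi.zero_apply] at h1
    simp only [Pi.sub_apply]
    linarith
  · obtain ⟨l, i, hil, hl⟩ := ax h.n2 hv
    have hr2 : (2 : ℤ) ≤ r := by
      have h1 := hx i
      have h2 := abs_nonneg (vs c x i)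
      linarith
    have hrun : ∀ t : ℤ, -(J : ℤ) ≤ t → t ≤ J → x + t • (Pi.single i 1 : Fin n → ℤ) ∈ K := by
      intro t ht1 ht2
      apply h.core
      intro k
      rw [vs_add_smul]
      have h1 := abs_add_le (vs c x k) (2 * (t * (Pi.single i 1 : Fin n → ℤ) k))
      rw [abs_mul 2, abs_two, abs_mul t] at h1
      have h2 : |t| * |(Pi.single i 1 : Fin n → ℤ) k| ≤ J * 1 :=
        mul_le_mul (abs_le.2 ⟨ht1, ht2⟩) (abs_single_le i k) (abs_nonneg _) (by positivity)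
      have h3 := hx k
      linarith
    have hb : x + x - c = vs c x := by
      funext k
      simp only [vs, Pi.sub_apply, Pi.add_apply]
      ring
    have h0 := h.tw.run (x := x) (e := Pi.single i 1) (J := J) (α := -(J : ℤ)) (β := J) hrun (by
      intro s
      rw [hb]
      refine h.vis (prim_single i) ?_ ?_ ⟨l, i, ?_⟩ s
      · intro k
        have := hx k
        linarith
      · intro k
        have := abs_single_le i k
        linarith
      · rw [Pi.single_eq_same, Pi.single_eq_of_ne (Ne.symm hil)]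
        rw [mul_one, mul_zero, sub_zero]
        exact hl) 0 (by linarith) (by linarith)
    rwa [zero_smul, add_zero] at h0

/-- the ray from the centre to a point of `L` outside `K` (as in the proof of `Tw.near`) -/
private theorem Tw.ray {K L : Finset (Fin n → ℤ)} {c : Fin n → ℤ} (h : Tw K L c) {R : ℤ}
    (hR : ∀ x ∈ K, ∀ i, |vs c x i| ≤ R) {w : Fin n → ℤ} (hw : w ∈ L) (hwK : w ∉ K) :
    ∃ y ∈ K, y ∈ L ∧ ∃ W : Fin n → ℤ, (∀ i, |W i| ≤ R) ∧ ∃ m : ℕ, w = y + (m : ℤ) • W := by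
  classical
  by_cases hcz : ∃ z, c = z + z
  · -- the centre is a lattice point
    obtain ⟨z, hz⟩ := hcz
    have hzL : z ∈ L := by
      refine h.hL.comb hw ((h.sL w).1 hw) (a := 1) (b := 1) (k := 2) (by norm_num) (by norm_num)
        (by norm_num) (by norm_num) ?_
      intro i
      have h1 := congrFun hz i
      simp only [Pi.sub_apply, Pi.add_apply] at h1 ⊢
      linarith
    have hKne : K.Nonempty := by
      rw [← card_pos, h.card]
      exact card_pos.2 ⟨w, hw⟩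
    have hzK : z ∈ K := by
      obtain ⟨x, hx⟩ := hKne
      refine h.hK.comb hx ((h.sK x).1 hx) (a := 1) (b := 1) (k := 2) (by norm_num) (by norm_num)
        (by norm_num) (by norm_num) ?_
      intro i
      have h1 := congrFun hz i
      simp only [Pi.sub_apply, Pi.add_apply] at h1 ⊢
      linarith
    have hd : w - z ≠ 0 := by
      intro h0
      rw [sub_eq_zero] at h0
      exact hwK (h0 ▸ hzK)
    obtain ⟨W, hWp, g, hg0, hge, -⟩ := prim_dir hd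
    have hwz : w = z + g • W := by
      rw [← hge]
      abel
    refine ⟨z, hzK, hzL, W, ?_, g.toNat, ?_⟩
    · have h1 : z + (1 : ℤ) • W ∈ L := h.hL.seg hzL (by rw [← hwz]; exact hw) (by norm_num) hg0
      rw [one_smul] at h1
      obtain ⟨x, hx, y, hy, hxy⟩ := h.symm.vis hWp h1 hzL (by rw [hz]; abel)
      intro i
      have h2 := congrFun hxy i
      simp only [Pi.sub_apply, Pi.add_apply] at h2
      have h3 : 2 * W i = vs c x i + vs c y i := by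
        simp only [vs]
        linarith
      have h4 := abs_add_le (vs c x i) (vs c y i)
      rw [← h3, abs_mul, abs_two] at h4
      have h5 := hR x hx i
      have h6 := hR y hy i
      linarith
    · rw [Int.toNat_of_nonneg hg0.le]
      exact hwz
  · -- the centre is not a lattice point
    have hd : vs c w ≠ 0 := by
      intro h0
      apply hcz
      refine ⟨w, funext fun i => ?_⟩
      have h1 := congrFun h0 i
      simp only [vs, Pi.zero_apply] at h1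
      rw [Pi.add_apply]
      linarith
    obtain ⟨W, hWp, g, hg0, hge, -⟩ := prim_dir hd
    have hgodd : ¬ (2 : ℤ) ∣ g := by
      intro h2
      apply hcz
      have h1 : ∀ i, (2 : ℤ) ∣ c i := by
        intro i
        have h3 := congrFun hge i
        simp only [vs, Pi.smul_apply, smul_eq_mul] at h3
        have h4 : (2 : ℤ) ∣ g * W i := Dvd.dvd.mul_right h2 _
        rw [← h3] at h4
        omega
      choose z hz using h1
      refine ⟨z, funext fun i => ?_⟩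
      rw [Pi.add_apply, hz i]
      ring
    obtain ⟨m, hm⟩ : ∃ m : ℤ, g = 2 * m + 1 := ⟨g / 2, by omega⟩
    have hm0 : 0 ≤ m := by omega
    -- the first point
    set y : Fin n → ℤ := w - m • W with hy
    have hvy : vs c y = W := by
      funext i
      have h3 := congrFun hge i
      simp only [vs, Pi.smul_apply, smul_eq_mul] at h3
      simp only [vs, hy, Pi.sub_apply, Pi.smul_apply, smul_eq_mul]
      rw [hm] at h3
      linarith
    have hyL : y ∈ L := by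
      refine h.hL.comb hw ((h.sL w).1 hw) (a := g + 1) (b := g - 1) (k := 2 * g) (by omega)
        (by omega) (by omega) (by ring) ?_
      intro i
      have h3 := congrFun hge i
      simp only [vs, Pi.smul_apply, smul_eq_mul] at h3
      simp only [hy, Pi.sub_apply, Pi.smul_apply, smul_eq_mul]
      have h4 : c i = 2 * w i - g * W i := by linarith
      rw [h4, hm]
      ring
    have hyK : y ∈ K := by
      have h1 : Odd (fol L W).card := (odd_fol_iff h.sL hvy.symm).2 hyL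
      rw [← h.cnt W hWp] at h1
      exact (odd_fol_iff h.sK hvy.symm).1 h1
    refine ⟨y, hyK, hyL, W, ?_, m.toNat, ?_⟩
    · intro i
      rw [← hvy]
      exact hR y hyK i
    · rw [Int.toNat_of_nonneg hm0, hy]
      abel

theorem TwF.outL (h : TwF K L c R r J kap) {x : Fin n → ℤ} (hx : x ∈ L) (i : Fin n) :
    |vs c x i| ≤ 5 * R := by
  classical
  have hR0 : (0 : ℤ) ≤ R := by positivity
  by_cases hxK : x ∈ K
  · have := h.out x hxK i
    linarith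
  rcases Nat.eq_zero_or_pos kap with hk0 | hkpos
  · -- `K` has at most one point
    exfalso
    have hR' : R = 0 := by
      have := h.Rr
      rw [hk0, zero_mul] at this
      omega
    have hz : ∀ z ∈ K, vs c z = 0 := by
      intro z hz
      funext j
      have h1 := h.out z hz j
      rw [hR'] at h1
      exact abs_nonpos_iff.1 (by simpa using h1)
    have hpos : 0 < K.card := by
      rw [h.tw.card]
      exact card_pos.2 ⟨x, hx⟩
    obtain ⟨z, hzK⟩ := card_pos.1 hpos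
    have hle : K.card ≤ 1 := by
      rw [card_le_one]
      intro a ha b hb
      funext j
      have h1 := congrFun (hz a ha) j
      have h2 := congrFun (hz b hb) j
      simp only [vs, Pi.zero_apply] at h1 h2
      linarith
    rw [h.tw.card, card_le_one] at hle
    have h3 := hle x hx (c - x) ((h.tw.sL x).1 hx)
    apply hxK
    have h4 : x = z := by
      funext j
      have h1 := congrFun (hz z hzK) j
      have h2 := congrFun h3 j
      simp only [vs, Pi.zero_apply, Pi.sub_apply] at h1 h2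
      linarith
    rw [h4]
    exact hzK
  have hJ : (1 : ℤ) ≤ J := by exact_mod_cast h.J1
  have hrR : (r : ℤ) ≤ R := by exact_mod_cast h.rR
  have hJr : 64 * (J : ℤ) ≤ r := by
    have h1 : 64 * J ≤ r := by
      have h2 := h.Jr
      have h3 : J * 1 ≤ J * kap := Nat.mul_le_mul_left J hkpos
      omega
    exact_mod_cast h1
  by_contra hcon
  rw [not_le] at hcon
  obtain ⟨y, hyK, hyL, W, hW, m, hm⟩ := h.tw.ray h.out hx hxK
  have hex : ∃ j : ℕ, ∃ i, 3 * (R : ℤ) < |vs c (y + (j : ℤ) • W) i| := ⟨m, i, by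
    rw [← hm]
    linarith⟩
  obtain ⟨i₀, hi₀⟩ := Nat.find_spec hex
  have hjm : Nat.find hex ≤ m := Nat.find_min' hex ⟨i, by
    rw [← hm]
    linarith⟩
  have hj0 : Nat.find hex ≠ 0 := by
    intro h0
    rw [h0] at hi₀
    have h1 := h.out y hyK i₀
    rw [Nat.cast_zero, zero_smul, add_zero] at hi₀
    linarith
  have hprev : ∀ i, |vs c (y + ((Nat.find hex - 1 : ℕ) : ℤ) • W) i| ≤ 3 * R := by
    intro k
    by_contra hc
    rw [not_le] at hc
    exact Nat.find_min hex (m := Nat.find hex - 1) (by omega) ⟨k, hc⟩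
  obtain ⟨w, hw⟩ : ∃ w, w = y + ((Nat.find hex : ℕ) : ℤ) • W := ⟨_, rfl⟩
  rw [← hw] at hi₀
  have hwL : w ∈ L := by
    rw [hw]
    refine h.tw.hL.seg hyL (g := (m : ℤ)) (by rw [← hm]; exact hx) (by positivity) ?_
    exact_mod_cast hjm
  have hw5 : ∀ k, |vs c w k| ≤ 5 * R := by
    intro k
    have h1 := hprev k
    have h2 := hW k
    have h3 : vs c w k =
        vs c (y + ((Nat.find hex - 1 : ℕ) : ℤ) • W) k + 2 * W k := by
      rw [hw, vs_add_smul, vs_add_smul]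
      have h4 : ((Nat.find hex - 1 : ℕ) : ℤ) = (Nat.find hex : ℤ) - 1 := by omega
      rw [h4]
      ring
    rw [h3]
    have h5 := abs_add_le (vs c (y + ((Nat.find hex - 1 : ℕ) : ℤ) • W) k) (2 * W k)
    rw [abs_mul, abs_two] at h5
    linarith
  -- a direction which is not that of the coordinate `i₀`
  have hnt : Nontrivial (Fin n) := Fin.nontrivial_iff_two_le.2 h.n2
  obtain ⟨l, hl⟩ := exists_ne i₀
  obtain ⟨x₀, hx₀⟩ : ∃ x₀ : Fin n → ℤ, ∀ k, 0 ≤ vs c x₀ k ∧ vs c x₀ k ≤ 1 := by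
    refine ⟨fun k => (c k + 1) / 2, fun k => ?_⟩
    simp only [vs]
    omega
  have hrun : ∀ t : ℤ, 0 ≤ t → t < J → x₀ + t • (Pi.single l 1 : Fin n → ℤ) ∈ L := by
    intro t ht0 ht1
    apply h.coreL
    intro k
    rw [vs_add_smul]
    have h1 := abs_add_le (vs c x₀ k) (2 * (t * (Pi.single l 1 : Fin n → ℤ) k))
    rw [abs_mul 2, abs_two, abs_mul t] at h1
    have h2 : |t| * |(Pi.single l 1 : Fin n → ℤ) k| ≤ J * 1 :=
      mul_le_mul (abs_le.2 ⟨by linarith, ht1.le⟩) (abs_single_le l k) (abs_nonneg _) (by positivity)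
    have h3 : |vs c x₀ k| ≤ 1 := abs_le.2 ⟨by linarith [(hx₀ k).1], (hx₀ k).2⟩
    linarith
  have hb2 : ∀ k, 2 * (w - x₀) k = vs c w k - vs c x₀ k := by
    intro k
    simp only [vs, Pi.sub_apply]
    ring
  have hbig : 3 * (R : ℤ) - 1 < |2 * (w - x₀) i₀| := by
    rw [hb2]
    have h1 : |vs c w i₀| ≤ |vs c w i₀ - vs c x₀ i₀| + |vs c x₀ i₀| := by
      have h5 := abs_add_le (vs c w i₀ - vs c x₀ i₀) (vs c x₀ i₀)
      rwa [sub_add_cancel] at h5
    have h3 : |vs c x₀ i₀| ≤ 1 := abs_le.2 ⟨by linarith [(hx₀ i₀).1], (hx₀ i₀).2⟩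
    linarith
  obtain ⟨t, ht0, ht1, hp⟩ := h.vis (b := w - x₀) (e := Pi.single l 1) (prim_single l) (by
      intro k
      have h1 := abs_sub (vs c w k) (vs c x₀ k)
      rw [← hb2, abs_mul, abs_two] at h1
      have h3 : |vs c x₀ k| ≤ 1 := abs_le.2 ⟨by linarith [(hx₀ k).1], (hx₀ k).2⟩
      have h4 := hw5 k
      linarith) (by
      intro k
      have := abs_single_le l k
      linarith) ⟨i₀, l, by
      rw [Pi.single_eq_same, Pi.single_eq_of_ne (Ne.symm hl), mul_one, mul_zero, sub_zero]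
      intro h0
      rw [h0, mul_zero, abs_zero] at hbig
      linarith⟩ (-(J : ℤ) + 1)
  have hz1 : x₀ + (-t) • (Pi.single l 1 : Fin n → ℤ) ∈ fol L (w - x₀ + t • Pi.single l 1) := by
    rw [fol, mem_filter]
    refine ⟨hrun _ (by linarith) (by linarith), ?_⟩
    have h1 : x₀ + (-t) • (Pi.single l 1 : Fin n → ℤ) + (w - x₀ + t • Pi.single l 1) = w := by
      rw [neg_smul]
      abel
    rw [h1]
    exact hwL
  have hpos : 0 < (fol K (w - x₀ + t • Pi.single l 1)).card := by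
    rw [h.tw.cnt _ hp]
    exact card_pos.2 ⟨_, hz1⟩
  obtain ⟨z, hz⟩ := card_pos.1 hpos
  rw [fol, mem_filter] at hz
  have h1 := h.out z hz.1 i₀
  have h2 := h.out _ hz.2 i₀
  have h3 : 2 * (w - x₀) i₀ = vs c (z + (w - x₀ + t • Pi.single l 1)) i₀ - vs c z i₀ := by
    simp only [vs, Pi.add_apply, Pi.sub_apply, Pi.smul_apply, smul_eq_mul,
      Pi.single_eq_of_ne (Ne.symm hl), mul_zero]
    ring
  have h4 := abs_sub (vs c (z + (w - x₀ + t • Pi.single l 1)) i₀) (vs c z i₀)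
  rw [← h3] at h4
  linarith

theorem TwF.outU (h : TwF K L c R r J kap) {x : Fin n → ℤ} (hx : x ∈ K ∪ L) (i : Fin n) :
    |vs c x i| ≤ 5 * R := by
  rcases mem_union.1 hx with hx | hx
  · have h1 := h.out x hx i
    have h2 : (0 : ℤ) ≤ R := by positivity
    linarith
  · exact h.outL hx i

end Pool.Agent.Lib.MP_8cf263_co
end

section

/-!
# Round sets, file RdWin: the window lemma

Setting: `K`, `L` twins with centre `c / 2`; `e` primitive, `f` a homomorphism to `ℤ` with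
`f e = 0`; lines in direction `e` that meet `K ∪ L` are separated by `f`.  The lines of `a` meet `K`
and `L` in `a + t e`, `αK ≤ t ≤ βK`, and `αL ≤ t ≤ βL`, long and with close ends.  All points of
`K ∪ L` with `f > f a` are in `S`, `|S| ≤ E`.  For `y ∈ S` the line of `p + a - y` has its points of
`K Δ L` in two intervals of `J1` integers.  All points of `K Δ L` with `f > f p` are on the lines of
the points `q ∈ Q`, at `q + t e`, `0 ≤ t < lam`, and `∑_t (ind K - ind L)(q + t e) = 0`.  The line of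
`p` meets `K` in `p + t e`, `κ1 ≤ t ≤ κ2`, and `L` in `λ1 ≤ t ≤ λ2`, and these are different sets.
Then the two sets have the same number of points and are contained in a common interval of `2 W`
integers.

Proof.  For `t ∈ ℤ` let `s = p + a + t e`.  If `s - c = p + a - c + t e` is primitive then
`Tw.sum_zero` gives `∑_{x ∈ K ∪ L} Fx * G(s - x) = 0`, where `F = ind K - ind L`,
`G = ind K + ind L`.  Split the sum over `x ∈ K ∪ L` according to `f x = f p`, `f x < f p`,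
`f x > f p`.

(1) `f x = f p`.  Since `Icc κ1 κ2 ≠ Icc λ1 λ2`, one of them is non-empty, so there is `t₀` with
`p + t₀ e ∈ K ∪ L`, and `f (p + t₀ e) = f p`; by `hsep` every `x ∈ K ∪ L` with `f x = f p` is
`p + k e` for some `k`.  Then `s - x = a + (t - k) e` and this part of the sum is
`main t = cn κ1 κ2 αK βK t + cn κ1 κ2 αL βL t - cn λ1 λ2 αK βK t - cn λ1 λ2 αL βL t`
(`cn u1 u2 b a t = #{k ∈ [u1,u2] : t - k ∈ [b,a]}`; the map `k ↦ p + k e` is injective as `e ≠ 0`).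

(2) `f x < f p`.  If the term is not zero then `x ∈ K Δ L` and `y = s - x ∈ K ∪ L`, and
`f y = f s - f x = f p + f a - f x > f a`, so `y ∈ S` and `x = p + a - y + t e ∈ K Δ L`; hence `t`
lies in one of the two intervals (length `J1`) of `y`.

(3) `f x > f p`.  The non-zero terms come from `x = q + k e`, `q ∈ Q`, `0 ≤ k < lam`, and `q`, `k`
are determined by `x` (`f x = f q` and `f` is injective on `Q`); so this part of the sum is
`∑_{q ∈ Q} ∑_{k ∈ Ico 0 lam} F (q + k e) G (s - q - k e)` (extending by terms which vanish because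
`F = 0` outside `K ∪ L`; note `f (q + k e) = f q > f p`).  Fix `q`.  By `LC.line` there are `β ≤ ...`
with `p + a - q + j e ∈ K ↔ β ≤ j ≤ α`.  Now `s - q - k e = p + a - q + (t - k) e`, so
`ind K (s - q - k e) = 1` iff `β ≤ t - k ≤ α`.  If `t ∉ [β, β + lam)` and
`t ∉ [α + 1, α + 1 + lam)` then this value does not depend on `k ∈ [0, lam)`
(if `t < β`: always `0`; if `β + lam ≤ t ≤ α`: always `1`; if `t ≥ α + 1 + lam`: always `0`; if
`α < β`: always `0`).  The same for `L`.  So if `t` is outside of these four intervals of length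
`lam` the inner sum is a constant times `∑_k F (q + k e) = 0`.

So let `St` be the finite set of all starting points: two for each `y ∈ S`, four for each `q ∈ Q`;
`St.card ≤ 2 E + 4 Q.card`; enlarge all lengths to `lm = max J1 lam`.  By `gap`, every interval
`[s₀, s₀ + W)` contains `[s', s' + J)` free of all of them
(`s' + J ≤ s₀ + (St.card + 1) (lm + J) ≤ s₀ + W`), and by `hgood` this contains `t` with
`p + a - c + t e` primitive.  For this `t` the parts (2), (3) vanish, so `main t = 0`.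

Now apply `oneD` with `u = κ`, `v = λ`, `I = [αK, βK]`, `I' = [αL, βL]`.
(`1 ≤ W` and `J ≤ W`: `hW` gives `J1max + J ≤ W`, and `1 ≤ J` follows from `hgood` (the interval
`[s, s + J)` is not empty).)  Its second conclusion is the second claim (`k ∈ Icc κ1 κ2` iff
`p + k e ∈ K`).
-/

set_option autoImplicit false

namespace Pool.Agent.Lib.MP_8cf263_co

open Finset

private lemma rw_cn {u1 u2 b a t : ℤ} {S : Finset ℤ} (hS : Icc u1 u2 ⊆ S) :
    ∑ k ∈ S, (if k ∈ Icc u1 u2 then (1 : ℤ) else 0) * (if b ≤ t - k ∧ t - k ≤ a then 1 else 0) =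
      cn u1 u2 b a t := by
  have h1 : ∀ k ∈ S, (if k ∈ Icc u1 u2 then (1 : ℤ) else 0) *
      (if b ≤ t - k ∧ t - k ≤ a then 1 else 0) =
      if k ∈ (Icc u1 u2).filter (fun k => b ≤ t - k ∧ t - k ≤ a) then 1 else 0 := by
    intro k _
    by_cases h1 : k ∈ Icc u1 u2 <;> by_cases h2 : b ≤ t - k ∧ t - k ≤ a <;>
      simp only [h1, h2, mem_filter, if_true, if_false, and_self, and_true, and_false,
        mul_one, mul_zero]
  rw [Finset.sum_congr rfl h1, Finset.sum_ite_mem, Finset.sum_const, nsmul_eq_mul, mul_one]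
  unfold cn
  rw [Finset.inter_eq_right.2 ((Finset.filter_subset _ _).trans hS)]

private lemma rw_smul_inj {n : ℕ} {e : Fin n → ℤ} (he : e ≠ 0) {x : Fin n → ℤ} {k k' : ℤ}
    (h : x + k • e = x + k' • e) : k = k' := by
  obtain ⟨i, hi⟩ := Function.ne_iff.1 he
  have h1 := congrFun h i
  simp only [Pi.add_apply, Pi.smul_apply, smul_eq_mul] at h1
  have h2 : k * e i = k' * e i := by linarith
  exact mul_right_cancel₀ hi h2

private lemma rw_f {n : ℕ} {e : Fin n → ℤ} (f : (Fin n → ℤ) →+ ℤ) (hfe : f e = 0)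
    (x : Fin n → ℤ) (k : ℤ) : f (x + k • e) = f x := by
  rw [map_add, map_zsmul, hfe, smul_zero, add_zero]

private lemma rw_F0 {n : ℕ} {K L : Finset (Fin n → ℤ)} {x : Fin n → ℤ} (h : ¬ Df K L x) :
    ind K x - ind L x = 0 := by
  unfold Df at h
  rw [not_not] at h
  unfold ind
  by_cases hx : x ∈ K
  · simp [hx, h.1 hx]
  · have hx' : x ∉ L := fun h' => hx (h.2 h')
    simp [hx, hx']

private lemma rw_F0' {n : ℕ} {K L : Finset (Fin n → ℤ)} {x : Fin n → ℤ} (h : x ∉ K ∪ L) :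
    ind K x - ind L x = 0 := by
  rw [mem_union, not_or] at h
  unfold ind
  simp [h.1, h.2]

private lemma rw_G0 {n : ℕ} {K L : Finset (Fin n → ℤ)} {x : Fin n → ℤ} (h : x ∉ K ∪ L) :
    ind K x + ind L x = 0 := by
  rw [mem_union, not_or] at h
  unfold ind
  simp [h.1, h.2]

/-- part (1) -/
private lemma rw_part1 {n : ℕ} {K L : Finset (Fin n → ℤ)} {e : Fin n → ℤ} (he : e ≠ 0)
    (f : (Fin n → ℤ) →+ ℤ) (hfe : f e = 0)
    (hsep : ∀ x ∈ K ∪ L, ∀ y ∈ K ∪ L, f x = f y → ∃ t : ℤ, y = x + t • e)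
    {a p : Fin n → ℤ} {αK βK αL βL : ℤ} (haK : ∀ t : ℤ, a + t • e ∈ K ↔ αK ≤ t ∧ t ≤ βK)
    (haL : ∀ t : ℤ, a + t • e ∈ L ↔ αL ≤ t ∧ t ≤ βL)
    {κ1 κ2 l1 l2 : ℤ} (hpK : ∀ t : ℤ, p + t • e ∈ K ↔ κ1 ≤ t ∧ t ≤ κ2)
    (hpL : ∀ t : ℤ, p + t • e ∈ L ↔ l1 ≤ t ∧ t ≤ l2) (hne : Icc κ1 κ2 ≠ Icc l1 l2) (t : ℤ) :
    ∑ x ∈ (K ∪ L).filter (fun x => f x = f p),
      (ind K x - ind L x) * (ind K (p + a + t • e - x) + ind L (p + a + t • e - x)) =
      cn κ1 κ2 αK βK t + cn κ1 κ2 αL βL t - cn l1 l2 αK βK t - cn l1 l2 αL βL t := by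
  classical
  set T : Finset ℤ := Icc κ1 κ2 ∪ Icc l1 l2 with hT
  have hmem : ∀ k : ℤ, p + k • e ∈ K ∪ L ↔ k ∈ T := by
    intro k
    rw [mem_union, hpK, hpL, hT, mem_union, mem_Icc, mem_Icc]
  obtain ⟨t₀, ht₀⟩ : T.Nonempty := by
    by_contra hcon
    rw [Finset.not_nonempty_iff_eq_empty, hT, Finset.union_eq_empty] at hcon
    exact hne (hcon.1.trans hcon.2.symm)
  have hset : (K ∪ L).filter (fun x => f x = f p) = T.image fun k => p + k • e := by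
    ext x
    rw [mem_filter, mem_image]
    constructor
    · rintro ⟨h1, h2⟩
      obtain ⟨r, hr⟩ := hsep _ ((hmem t₀).2 ht₀) x h1 (by rw [rw_f f hfe, h2])
      have h3 : x = p + (t₀ + r) • e := by rw [hr, add_smul, add_assoc]
      exact ⟨t₀ + r, (hmem _).1 (h3 ▸ h1), h3.symm⟩
    · rintro ⟨k, hk, rfl⟩
      exact ⟨(hmem k).2 hk, rw_f f hfe _ _⟩
  rw [hset, Finset.sum_image fun k _ k' _ h => rw_smul_inj he h]
  have hterm : ∀ k ∈ T, (ind K (p + k • e) - ind L (p + k • e)) *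
      (ind K (p + a + t • e - (p + k • e)) + ind L (p + a + t • e - (p + k • e))) =
      (if k ∈ Icc κ1 κ2 then (1 : ℤ) else 0) * (if αK ≤ t - k ∧ t - k ≤ βK then 1 else 0) +
      (if k ∈ Icc κ1 κ2 then (1 : ℤ) else 0) * (if αL ≤ t - k ∧ t - k ≤ βL then 1 else 0) -
      (if k ∈ Icc l1 l2 then (1 : ℤ) else 0) * (if αK ≤ t - k ∧ t - k ≤ βK then 1 else 0) -
      (if k ∈ Icc l1 l2 then (1 : ℤ) else 0) * (if αL ≤ t - k ∧ t - k ≤ βL then 1 else 0) := by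
    intro k _
    have h1 : p + a + t • e - (p + k • e) = a + (t - k) • e := by
      rw [sub_smul]
      abel
    rw [h1]
    unfold ind
    simp only [hpK, hpL, haK, haL, mem_Icc]
    ring
  rw [Finset.sum_congr rfl hterm, Finset.sum_sub_distrib, Finset.sum_sub_distrib,
    Finset.sum_add_distrib, rw_cn Finset.subset_union_left, rw_cn Finset.subset_union_left,
    rw_cn Finset.subset_union_right, rw_cn Finset.subset_union_right]

/-- part (2) -/
private lemma rw_part2 {n : ℕ} {K L : Finset (Fin n → ℤ)} {e : Fin n → ℤ}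
    (f : (Fin n → ℤ) →+ ℤ) (hfe : f e = 0) {a p : Fin n → ℤ}
    (S : Finset (Fin n → ℤ)) (hS : ∀ y ∈ K ∪ L, f a < f y → y ∈ S) (t : ℤ)
    (ht : ∀ y ∈ S, ¬ Df K L (p + a - y + t • e)) :
    ∑ x ∈ (K ∪ L).filter (fun x => f x < f p),
      (ind K x - ind L x) * (ind K (p + a + t • e - x) + ind L (p + a + t • e - x)) = 0 := by
  refine Finset.sum_eq_zero fun x hx => ?_
  rw [mem_filter] at hx
  by_cases h1 : Df K L x
  · by_cases h2 : p + a + t • e - x ∈ K ∪ L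
    · exfalso
      refine ht _ (hS _ h2 ?_) ?_
      · rw [map_sub, rw_f f hfe, map_add]
        linarith [hx.2]
      · have h3 : p + a - (p + a + t • e - x) + t • e = x := by abel
        rwa [h3]
    · rw [rw_G0 h2, mul_zero]
  · rw [rw_F0 h1, zero_mul]

/-- part (3) -/
private lemma rw_part3 {n : ℕ} {K L : Finset (Fin n → ℤ)} {e : Fin n → ℤ} (he : e ≠ 0)
    (f : (Fin n → ℤ) →+ ℤ) (hfe : f e = 0) {a p : Fin n → ℤ} {lam : ℕ}
    (Q : Finset (Fin n → ℤ)) (hQi : Set.InjOn f (Q : Set (Fin n → ℤ))) (hQf : ∀ q ∈ Q, f p < f q)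
    (hQ : ∀ x, Df K L x → f p < f x → ∃ q ∈ Q, f x = f q ∧ ∃ t : ℤ, 0 ≤ t ∧ t < lam ∧ x = q + t • e)
    (hQ0 : ∀ q ∈ Q, ∑ t ∈ Ico (0 : ℤ) lam, (ind K (q + t • e) - ind L (q + t • e)) = 0)
    (t : ℤ) (C : (Fin n → ℤ) → ℤ)
    (hC : ∀ q ∈ Q, ∀ k : ℤ, 0 ≤ k → k < lam →
      ind K (p + a - q + (t - k) • e) + ind L (p + a - q + (t - k) • e) = C q) :
    ∑ x ∈ (K ∪ L).filter (fun x => f p < f x),
      (ind K x - ind L x) * (ind K (p + a + t • e - x) + ind L (p + a + t • e - x)) = 0 := by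
  classical
  have hinj : Set.InjOn (fun z : (Fin n → ℤ) × ℤ => z.1 + z.2 • e)
      ((Q ×ˢ Ico (0 : ℤ) lam : Finset _) : Set ((Fin n → ℤ) × ℤ)) := by
    rintro ⟨q, k⟩ hq ⟨q', k'⟩ hq' h
    rw [Finset.mem_coe, mem_product] at hq hq'
    simp only at h
    have h1 : f q = f q' := by
      have := congrArg f h
      rwa [rw_f f hfe, rw_f f hfe] at this
    have h2 : q = q' := hQi hq.1 hq'.1 h1
    subst h2
    rw [rw_smul_inj he h]
  have h1 : ∑ x ∈ (K ∪ L).filter (fun x => f p < f x),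
      (ind K x - ind L x) * (ind K (p + a + t • e - x) + ind L (p + a + t • e - x)) =
      ∑ x ∈ (Q ×ˢ Ico (0 : ℤ) lam).image (fun z : (Fin n → ℤ) × ℤ => z.1 + z.2 • e),
      (ind K x - ind L x) * (ind K (p + a + t • e - x) + ind L (p + a + t • e - x)) := by
    refine Finset.sum_congr_of_eq_on_inter ?_ ?_ fun _ _ _ => rfl
    · intro x hx hx'
      by_cases hD : Df K L x
      · exfalso
        apply hx'
        rw [mem_filter] at hx
        obtain ⟨q, hq, -, k, hk0, hk1, hk2⟩ := hQ x hD hx.2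
        exact mem_image.2 ⟨(q, k), mem_product.2 ⟨hq, mem_Ico.2 ⟨hk0, hk1⟩⟩, hk2.symm⟩
      · rw [rw_F0 hD, zero_mul]
    · intro x hx hx'
      have hxU : x ∉ K ∪ L := by
        intro hxU
        apply hx'
        rw [mem_image] at hx
        obtain ⟨⟨q, k⟩, hqk, rfl⟩ := hx
        rw [mem_product] at hqk
        rw [mem_filter]
        exact ⟨hxU, by rw [rw_f f hfe]; exact hQf _ hqk.1⟩
      rw [rw_F0' hxU, zero_mul]
  rw [h1, Finset.sum_image hinj, Finset.sum_product]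
  refine Finset.sum_eq_zero fun q hq => ?_
  have h2 : ∀ k ∈ Ico (0 : ℤ) lam, (ind K (q + k • e) - ind L (q + k • e)) *
      (ind K (p + a + t • e - (q + k • e)) + ind L (p + a + t • e - (q + k • e))) =
      (ind K (q + k • e) - ind L (q + k • e)) * C q := by
    intro k hk
    rw [mem_Ico] at hk
    have h3 : p + a + t • e - (q + k • e) = p + a - q + (t - k) • e := by
      rw [sub_smul]
      abel
    rw [h3, hC q hq k hk.1 hk.2]
  simp only
  rw [Finset.sum_congr rfl h2, ← Finset.sum_mul, hQ0 q hq, zero_mul]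

private lemma rw_split {n : ℕ} (U : Finset (Fin n → ℤ)) (f : (Fin n → ℤ) →+ ℤ) (r : ℤ)
    (H : (Fin n → ℤ) → ℤ) :
    ∑ x ∈ U, H x = ∑ x ∈ U.filter (fun x => f x = r), H x +
      ∑ x ∈ U.filter (fun x => f x < r), H x + ∑ x ∈ U.filter (fun x => r < f x), H x := by
  rw [Finset.sum_filter, Finset.sum_filter, Finset.sum_filter, ← Finset.sum_add_distrib,
    ← Finset.sum_add_distrib]
  refine Finset.sum_congr rfl fun x _ => ?_
  rcases lt_trichotomy (f x) r with h | h | h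
  · simp [h, h.ne, not_lt.2 h.le]
  · simp [h]
  · simp [h, h.ne', not_lt.2 h.le]

private lemma rw_const {α β t k lam : ℤ} (h0 : 0 ≤ k) (h1 : k < lam)
    (ha : ¬ (α ≤ t ∧ t < α + lam)) (hb : ¬ (β + 1 ≤ t ∧ t < β + 1 + lam)) :
    (α ≤ t - k ∧ t - k ≤ β) ↔ (α ≤ t ∧ t ≤ β) := by
  omega

theorem window {n : ℕ} {K L : Finset (Fin n → ℤ)} {c : Fin n → ℤ} (h : Tw K L c)
    {e : Fin n → ℤ} (he : Pr e) (f : (Fin n → ℤ) →+ ℤ) (hfe : f e = 0)
    (hsep : ∀ x ∈ K ∪ L, ∀ y ∈ K ∪ L, f x = f y → ∃ t : ℤ, y = x + t • e)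
    {a p : Fin n → ℤ} {E J J1 lam W : ℕ}
    {αK βK αL βL : ℤ} (haK : ∀ t : ℤ, a + t • e ∈ K ↔ αK ≤ t ∧ t ≤ βK)
    (haL : ∀ t : ℤ, a + t • e ∈ L ↔ αL ≤ t ∧ t ≤ βL) (h1 : |αK - αL| ≤ J) (h2 : |βK - βL| ≤ J)
    (hlen : αK + 6 * W ≤ βK)
    (S : Finset (Fin n → ℤ)) (hS : ∀ y ∈ K ∪ L, f a < f y → y ∈ S) (hSE : S.card ≤ E)
    (hloc : ∀ y ∈ S, ∃ z1 z2 : ℤ, ∀ t : ℤ, Df K L (p + a - y + t • e) →
      (z1 ≤ t ∧ t < z1 + J1) ∨ (z2 ≤ t ∧ t < z2 + J1))
    (Q : Finset (Fin n → ℤ)) (hQi : Set.InjOn f (Q : Set (Fin n → ℤ))) (hQf : ∀ q ∈ Q, f p < f q)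
    (hQ : ∀ x, Df K L x → f p < f x → ∃ q ∈ Q, f x = f q ∧ ∃ t : ℤ, 0 ≤ t ∧ t < lam ∧ x = q + t • e)
    (hQ0 : ∀ q ∈ Q, ∑ t ∈ Ico (0 : ℤ) lam, (ind K (q + t • e) - ind L (q + t • e)) = 0)
    {κ1 κ2 l1 l2 : ℤ} (hpK : ∀ t : ℤ, p + t • e ∈ K ↔ κ1 ≤ t ∧ t ≤ κ2)
    (hpL : ∀ t : ℤ, p + t • e ∈ L ↔ l1 ≤ t ∧ t ≤ l2) (hne : Icc κ1 κ2 ≠ Icc l1 l2)
    (hgood : ∀ s : ℤ, ∃ t : ℤ, s ≤ t ∧ t < s + J ∧ Pr (p + a - c + t • e))
    (hW : (2 * E + 4 * Q.card + 1) * (max J1 lam + J) ≤ W) :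
    (Icc κ1 κ2).card = (Icc l1 l2).card ∧
      ∃ z : ℤ, ∀ t : ℤ, (p + t • e ∈ K ∨ p + t • e ∈ L) → z ≤ t ∧ t < z + 2 * W := by
  classical
  have he0 : e ≠ 0 := he.ne_zero
  choose! z1 z2 hz using hloc
  choose aK bK hK' using fun q => h.hK.line he0 (p + a - q)
  choose aL bL hL' using fun q => h.hL.line he0 (p + a - q)
  set St : Finset ℤ := S.image z1 ∪ S.image z2 ∪ (Q.image aK ∪ Q.image (fun q => bK q + 1)) ∪
    (Q.image aL ∪ Q.image (fun q => bL q + 1)) with hSt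
  have hcard : St.card ≤ 2 * E + 4 * Q.card := by
    have c1 : (S.image z1).card ≤ E := card_image_le.trans hSE
    have c2 : (S.image z2).card ≤ E := card_image_le.trans hSE
    have c3 : (Q.image aK).card ≤ Q.card := card_image_le
    have c4 : (Q.image (fun q => bK q + 1)).card ≤ Q.card := card_image_le
    have c5 : (Q.image aL).card ≤ Q.card := card_image_le
    have c6 : (Q.image (fun q => bL q + 1)).card ≤ Q.card := card_image_le
    have d1 := card_union_le (S.image z1 ∪ S.image z2 ∪ (Q.image aK ∪ Q.image (fun q => bK q + 1)))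
      (Q.image aL ∪ Q.image (fun q => bL q + 1))
    have d2 := card_union_le (S.image z1 ∪ S.image z2)
      (Q.image aK ∪ Q.image (fun q => bK q + 1))
    have d3 := card_union_le (S.image z1) (S.image z2)
    have d4 := card_union_le (Q.image aK) (Q.image (fun q => bK q + 1))
    have d5 := card_union_le (Q.image aL) (Q.image (fun q => bL q + 1))
    rw [hSt]
    omega
  have hJ1 : 1 ≤ J := by
    obtain ⟨t, ht0, ht1, -⟩ := hgood 0
    omega
  have hJW : J ≤ W := by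
    refine le_trans ?_ hW
    nlinarith [Nat.zero_le (max J1 lam), Nat.zero_le (2 * E + 4 * Q.card),
      Nat.zero_le ((2 * E + 4 * Q.card) * (max J1 lam + J))]
  have hmain : ∀ s : ℤ, ∃ t : ℤ, s ≤ t ∧ t < s + W ∧
      cn κ1 κ2 αK βK t + cn κ1 κ2 αL βL t - cn l1 l2 αK βK t - cn l1 l2 αL βL t = 0 := by
    intro s
    obtain ⟨s', hs1, hs2, hs3⟩ := gap St (max J1 lam) J s
    obtain ⟨t, ht1, ht2, ht3⟩ := hgood s'
    have hbound : ((St.card : ℤ) + 1) * ((max J1 lam : ℕ) + J) ≤ W := by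
      have h3 : (St.card + 1) * (max J1 lam + J) ≤ W :=
        (Nat.mul_le_mul_right _ (by omega)).trans hW
      exact_mod_cast h3
    refine ⟨t, by omega, ?_, ?_⟩
    · have : s' + J ≤ s + W := hs2.trans (by linarith)
      omega
    have hfree := hs3 t ht1 ht2
    have hmJ : (J1 : ℤ) ≤ (max J1 lam : ℕ) := by exact_mod_cast le_max_left J1 lam
    have hml : (lam : ℤ) ≤ (max J1 lam : ℕ) := by exact_mod_cast le_max_right J1 lam
    have hPr : Pr (p + a + t • e - c) := by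
      have : p + a + t • e - c = p + a - c + t • e := by abel
      rwa [this]
    have h0 := h.sum_zero hPr
    rw [rw_split (K ∪ L) f (f p), rw_part1 he0 f hfe hsep haK haL hpK hpL hne t,
      rw_part2 f hfe S hS t, rw_part3 he0 f hfe Q hQi hQf hQ hQ0 t
        (fun q => (if aK q ≤ t ∧ t ≤ bK q then 1 else 0) +
          (if aL q ≤ t ∧ t ≤ bL q then 1 else 0)), add_zero, add_zero] at h0
    · exact h0
    · intro q hq k hk0 hk1
      have n1 := hfree (aK q) (by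
        rw [hSt]; simp only [mem_union, mem_image]
        exact Or.inl (Or.inr (Or.inl ⟨q, hq, rfl⟩)))
      have n2 := hfree (bK q + 1) (by
        rw [hSt]; simp only [mem_union, mem_image]
        exact Or.inl (Or.inr (Or.inr ⟨q, hq, rfl⟩)))
      have n3 := hfree (aL q) (by
        rw [hSt]; simp only [mem_union, mem_image]
        exact Or.inr (Or.inl ⟨q, hq, rfl⟩))
      have n4 := hfree (bL q + 1) (by
        rw [hSt]; simp only [mem_union, mem_image]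
        exact Or.inr (Or.inr ⟨q, hq, rfl⟩))
      unfold ind
      simp only [hK', hL']
      rw [if_congr (rw_const (lam := lam) hk0 hk1 (by omega) (by omega)) rfl rfl,
        if_congr (rw_const (lam := lam) hk0 hk1 (by omega) (by omega)) rfl rfl]
    · intro y hy hD
      have n1 := hfree (z1 y) (by
        rw [hSt]; simp only [mem_union, mem_image]
        exact Or.inl (Or.inl (Or.inl ⟨y, hy, rfl⟩)))
      have n2 := hfree (z2 y) (by
        rw [hSt]; simp only [mem_union, mem_image]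
        exact Or.inl (Or.inl (Or.inr ⟨y, hy, rfl⟩)))
      rcases hz y hy t hD with h5 | h5 <;> omega
  obtain ⟨hc, z, hzz⟩ := oneD (u1 := κ1) (u2 := κ2) (v1 := l1) (v2 := l2) (a := βK) (b := αK)
    (a' := βL) (b' := αL) (hJ1.trans hJW) hJW hlen h2 h1 hne hmain
  refine ⟨hc, z, fun t ht => hzz t ?_⟩
  rw [mem_Icc, mem_Icc, ← hpK, ← hpL]
  exact ht

end Pool.Agent.Lib.MP_8cf263_co
end

section

/-!
# One round spot, file RsExt: extension of a function with pinched second differences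

`ext`.  Let `Pin f q (4 ρ) μ M`, `0 < ρ`, `0 < μ < M`, and let `f` have a global subgradient at every
point.  There is a function `F` on `ℝ ^ n` with `SDn F μ M`, bounded below, convex, `F = f` on
`Bl q ρ`.
Proof.  Choose a subgradient `P₀ y` for every `y`.  Put `g x = f x - μ (x ⬝ᵥ x)`,
`P y = P₀ y - 2 μ y`, `L = M - μ`.  By `quad` (RsHalve) `Taylor g P q ρ L` (RsCoco), because
`μ (x ⬝ᵥ x) = μ (y ⬝ᵥ y) + 2 μ y ⬝ᵥ (x - y) + μ |x - y| ^ 2`.  Let `h = hul g P q ρ L`; the affine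
minorant of `q` (`hul_ge`, `Bl q ρ q`) is `c₀ + p₀ ⬝ᵥ x` with `p₀ = P q`, `c₀ = g q - P q ⬝ᵥ q`.  Put
`F x = env h x + μ (x ⬝ᵥ x)`.
* `F = f` on `Bl q ρ`: `env h y ≤ h y ≤ g y` (`env_le`, `hul_le`) and
`env h y ≥ (g y - P y ⬝ᵥ y) + P y ⬝ᵥ y = g y` (`env_aff` for the affine minorant of `y`, `hul_ge`).
* The second difference of `μ (x ⬝ᵥ x)` is `2 μ (v ⬝ᵥ v)`; so `lo` is `env_lo`, and `up` is `env_up` with
`κ = 2 L (v ⬝ᵥ v)` (`hul_up`), `2 L + 2 μ = 2 M`.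
* `F x ≥ c₀ + p₀ ⬝ᵥ x + μ (x ⬝ᵥ x) ≥ c₀ - (p₀ ⬝ᵥ p₀) / (4 μ)` (`|p₀ + 2 μ x| ^ 2 ≥ 0`).
* convexity: `env_conv` and convexity of `x ⬝ᵥ x`.
-/

set_option autoImplicit false

namespace Pool.Agent.Lib.MP_8cf263_co

private theorem dnn' {n : ℕ} (v : Fin n → ℝ) : 0 ≤ v ⬝ᵥ v :=
  Finset.sum_nonneg fun i _ => mul_self_nonneg _

private theorem sqid {n : ℕ} (x y : Fin n → ℝ) :
    x ⬝ᵥ x = y ⬝ᵥ y + 2 * (y ⬝ᵥ (x - y)) + (x - y) ⬝ᵥ (x - y) := by
  simp only [sub_dotProduct, dotProduct_sub]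
  rw [dotProduct_comm x y]
  ring

theorem ext {n : ℕ} {f : (Fin n → ℝ) → ℝ} {q : Fin n → ℝ} {ρ μ M : ℝ} (hρ : 0 < ρ) (hμ : 0 < μ)
    (hM : μ < M) (hf : Pin f q (4 * ρ) μ M)
    (hsub : ∀ y, ∃ p : Fin n → ℝ, ∀ z, f y + p ⬝ᵥ (z - y) ≤ f z) :
    ∃ (F : (Fin n → ℝ) → ℝ) (b : ℝ), SDn F μ M ∧ (∀ x, b ≤ F x) ∧ (∀ x, Bl q ρ x → F x = f x) ∧
      ∀ x y : Fin n → ℝ, ∀ t : ℝ, 0 ≤ t → t ≤ 1 →
        F ((1 - t) • x + t • y) ≤ (1 - t) * F x + t * F y := by
  choose P₀ hP₀ using hsub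
  obtain ⟨g, hg⟩ : ∃ g : (Fin n → ℝ) → ℝ, ∀ x, g x = f x - μ * (x ⬝ᵥ x) := ⟨_, fun _ => rfl⟩
  obtain ⟨P, hP⟩ : ∃ P : (Fin n → ℝ) → Fin n → ℝ, ∀ y, P y = P₀ y - (2 * μ) • y :=
    ⟨_, fun _ => rfl⟩
  obtain ⟨L, hL⟩ : ∃ L : ℝ, L = M - μ := ⟨_, rfl⟩
  have hT : Taylor g P q ρ L := by
    refine ⟨hρ, by linarith, fun x y hx hy => ?_, fun x y hx hy => ?_⟩
    · have h1 := (quad hρ hf hx hy (hP₀ y)).1
      have h2 := sqid x y
      rw [hg, hg, hP, sub_dotProduct, smul_dotProduct, smul_eq_mul, h2]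
      nlinarith
    · have h1 := (quad hρ hf hx hy (hP₀ y)).2
      have h2 := sqid x y
      rw [hg, hg, hP, sub_dotProduct, smul_dotProduct, smul_eq_mul, h2, hL]
      nlinarith
  obtain ⟨h, hh⟩ : ∃ h : (Fin n → ℝ) → ℝ, h = hul g P q ρ L := ⟨_, rfl⟩
  have haff : ∀ y, Bl q ρ y → ∀ x, (g y - P y ⬝ᵥ y) + P y ⬝ᵥ x ≤ h x := by
    intro y hy x
    have h1 := hul_ge hT hy x
    rw [dotProduct_sub] at h1
    rw [hh]
    linarith
  have hq : Bl q ρ q := by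
    unfold Bl
    simp [sq_nonneg]
  have h0 := haff q hq
  refine ⟨fun x => env h x + μ * (x ⬝ᵥ x), (g q - P q ⬝ᵥ q) - (P q ⬝ᵥ P q) / (4 * μ), ⟨?_, ?_⟩,
    ?_, ?_, ?_⟩
  · intro x y
    have h1 := env_lo h0 x y
    have h2 := dotProduct_comm x y
    simp only [add_dotProduct, dotProduct_add, sub_dotProduct, dotProduct_sub]
    rw [h2]
    nlinarith
  · intro x y
    have h1 := env_up h0 (v := y) (κ := 2 * L * (y ⬝ᵥ y)) (fun x => by
      rw [hh]
      exact hul_up hT x y) x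
    have h2 := dotProduct_comm x y
    simp only [add_dotProduct, dotProduct_add, sub_dotProduct, dotProduct_sub]
    rw [h2]
    rw [hL] at h1
    nlinarith
  · intro x
    have h1 := env_aff h0 x
    have h2 := dnn' (P q + (2 * μ) • x)
    simp only [add_dotProduct, dotProduct_add, smul_dotProduct, dotProduct_smul, smul_eq_mul] at h2
    rw [dotProduct_comm x (P q)] at h2
    have h3 : -(P q ⬝ᵥ P q) / (4 * μ) ≤ P q ⬝ᵥ x + μ * (x ⬝ᵥ x) := by
      rw [div_le_iff₀ (by positivity)]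
      nlinarith
    rw [neg_div] at h3
    linarith
  · intro x hx
    have h1 : env h x ≤ g x := (env_le h0 x).trans (by
      rw [hh]
      exact hul_le hT hx)
    have h2 := env_aff (haff x hx) x
    have h3 := hg x
    have h4 : env h x = g x := by linarith
    simp only [h4, h3]
    ring
  · intro x y t ht0 ht1
    have h1 := env_conv h0 x y ht0 ht1
    have h2 := dnn' (x - y)
    have h3 := dotProduct_comm x y
    have h4 : 0 ≤ μ * (t * (1 - t)) :=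
      mul_nonneg hμ.le (mul_nonneg ht0 (by linarith))
    have h5 := mul_nonneg h4 h2
    simp only [add_dotProduct, dotProduct_add, smul_dotProduct, dotProduct_smul, smul_eq_mul,
      sub_dotProduct, dotProduct_sub] at h5 ⊢
    rw [h3] at h5 ⊢
    nlinarith

end Pool.Agent.Lib.MP_8cf263_co
end

section

/-!
# One round spot, file RsAgrA: near the spot the lattice set is a sublevel set of a good function

`Ph F c lam x = lam ^ 2 * F (lam⁻¹ • (2 • x - em c))`.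
`Ph_em`: `em (vs c x) = 2 • em x - em c`.
`Ph_SDn`: second difference with step `2 lam⁻¹ y`; `lam ^ 2 * (2 lam⁻¹) ^ 2 = 4`.

`Cap N F q ρ δ η`: `F = N ^ 2` on the ball `Bl q ρ`, and for all `u` with `|u - e₀| ≤ η`, `e₀ = Pi.single 0 1`,
the points of the unit ball of `N` or of `{F ≤ 1}` with `u ⬝ᵥ q - δ ≤ u ⬝ᵥ x` are in `Bl q ρ`, and
`δ ≤ u ⬝ᵥ q`.

`Spot.ext`: apply `ext` (RsExt) to `f = N ^ 2` (`hsub`: `Nrm.sub`) and `Spot.cap` (RsCap) to the function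
`F`; let `δ₁`, `η₁` be the numbers of `Spot.cap`.  Take `δ = min δ₁ (q 0 / 2)`,
`η = min η₁ (q 0 / (2 (√(q ⬝ᵥ q) + 1)))`: then `u ⬝ᵥ q ≥ q 0 - η √(q ⬝ᵥ q) ≥ q 0 / 2 ≥ δ`
(Cauchy-Schwarz for `(u - e₀) ⬝ᵥ q`), and the other statements follow from those for `δ₁`.

`Cap.agr`.  Let `K = {x : N (em (vs c x)) ≤ lam}`, `G` an integer vector, `0 < s`, `u = s⁻¹ • em G` with
`|u - e₀| ≤ η` and `4 ≤ s lam δ`.  Put `h = ⌈(s lam (u ⬝ᵥ q - δ) + G ⬝ᵥ c) / 2⌉`, so
`s lam (u ⬝ᵥ q - δ) ≤ 2 h - G ⬝ᵥ c < s lam (u ⬝ᵥ q - δ) + 2`.   (1)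
(A) Let `h ≤ G ⬝ᵥ x`, `w = lam⁻¹ • em (vs c x)`.  Then
`u ⬝ᵥ w = (2 G ⬝ᵥ x - G ⬝ᵥ c) / (s lam) ≥ u ⬝ᵥ q - δ` by (1).  `x ∈ K ↔ N w ≤ 1` and
`Ph F c lam (em x) ≤ lam ^ 2 ↔ F w ≤ 1`.  If one of the two holds then `w ∈ Bl q ρ`, so `F w = N w ^ 2`,
and so the other one holds (`0 ≤ N w`).
(B) Let `t = (2 (h + 1) - G ⬝ᵥ c) / (s lam (u ⬝ᵥ q))` and `z = (1 / 2) • ((lam t) • q + em c)`.  Then
`em G ⬝ᵥ z = (lam t s (u ⬝ᵥ q) + G ⬝ᵥ c) / 2 = h + 1`.  By (1) `u ⬝ᵥ q - δ ≤ t (u ⬝ᵥ q)`, so `0 ≤ t`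
(`0 ≤ u ⬝ᵥ q - δ`, `0 < u ⬝ᵥ q`), and `t (u ⬝ᵥ q) ≤ u ⬝ᵥ q - δ + 4 / (s lam) ≤ u ⬝ᵥ q`, so `t ≤ 1`.
Hence `t • q ∈ Bl q ρ`, `F (t • q) = N (t • q) ^ 2 = t ^ 2 ≤ 1` and
`Ph F c lam z = lam ^ 2 F (t • q) ≤ lam ^ 2`.
-/

set_option autoImplicit false

namespace Pool.Agent.Lib.MP_8cf263_co

/-- the good function -/
noncomputable def Ph {n : ℕ} (F : (Fin n → ℝ) → ℝ) (c : Fin n → ℤ) (lam : ℝ) (x : Fin n → ℝ) : ℝ :=
  lam ^ 2 * F (lam⁻¹ • ((2 : ℝ) • x - em c))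

/-- `F` is `N ^ 2` near `q`, and caps of both unit balls at `q` are near `q` -/
structure Cap {m : ℕ} (N F : (Fin (m + 2) → ℝ) → ℝ) (q : Fin (m + 2) → ℝ) (ρ δ η : ℝ) : Prop where
  hδ : 0 < δ
  hη : 0 < η
  eq : ∀ x, Bl q ρ x → F x = N x ^ 2
  cap : ∀ u : Fin (m + 2) → ℝ,
      (u - Pi.single 0 1) ⬝ᵥ (u - Pi.single 0 1) ≤ η ^ 2 →
      (∀ x, (N x ≤ 1 ∨ F x ≤ 1) → u ⬝ᵥ q - δ ≤ u ⬝ᵥ x → Bl q ρ x) ∧ δ ≤ u ⬝ᵥ q ∧
      ∀ t : ℝ, u ⬝ᵥ q - δ ≤ t * (u ⬝ᵥ q) → t ≤ 1 → Bl q ρ (t • q)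

theorem Ph_em {n : ℕ} (F : (Fin n → ℝ) → ℝ) (c : Fin n → ℤ) (lam : ℝ) (x : Fin n → ℤ) :
    Ph F c lam (em x) = lam ^ 2 * F (lam⁻¹ • em (vs c x)) := by
  have e : em (vs c x) = (2 : ℝ) • em x - em c := by
    funext i
    simp [em, vs]
  rw [Ph, e]

theorem Ph_SDn {n : ℕ} {F : (Fin n → ℝ) → ℝ} {μ M : ℝ} (h : SDn F μ M) (c : Fin n → ℤ) {lam : ℝ}
    (hlam : 0 < lam) : SDn (Ph F c lam) (4 * μ) (4 * M) := by
  have e1 : ∀ x y : Fin n → ℝ, lam⁻¹ • ((2 : ℝ) • (x + y) - em c) =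
      lam⁻¹ • ((2 : ℝ) • x - em c) + (2 * lam⁻¹) • y := by
    intro x y
    funext i
    simp only [Pi.add_apply, Pi.sub_apply, Pi.smul_apply, smul_eq_mul]
    ring
  have e2 : ∀ x y : Fin n → ℝ, lam⁻¹ • ((2 : ℝ) • (x - y) - em c) =
      lam⁻¹ • ((2 : ℝ) • x - em c) - (2 * lam⁻¹) • y := by
    intro x y
    funext i
    simp only [Pi.sub_apply, Pi.smul_apply, smul_eq_mul]
    ring
  have e3 : ∀ y : Fin n → ℝ, lam ^ 2 * (((2 * lam⁻¹) • y) ⬝ᵥ ((2 * lam⁻¹) • y)) =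
      4 * (y ⬝ᵥ y) := by
    intro y
    rw [smul_dotProduct, dotProduct_smul, smul_eq_mul, smul_eq_mul]
    field_simp
    ring
  constructor
  · intro x y
    have h1 := mul_le_mul_of_nonneg_left (h.lo (lam⁻¹ • ((2 : ℝ) • x - em c)) ((2 * lam⁻¹) • y))
      (sq_nonneg lam)
    have h2 := e3 y
    simp only [Ph, e1, e2]
    linear_combination h1 - 2 * μ * h2
  · intro x y
    have h1 := mul_le_mul_of_nonneg_left (h.up (lam⁻¹ • ((2 : ℝ) • x - em c)) ((2 * lam⁻¹) • y))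
      (sq_nonneg lam)
    have h2 := e3 y
    simp only [Ph, e1, e2]
    linear_combination h1 + 2 * M * h2

theorem Ph_ge {n : ℕ} {F : (Fin n → ℝ) → ℝ} {b : ℝ} (hb : ∀ x, b ≤ F x) (c : Fin n → ℤ) (lam : ℝ)
    (x : Fin n → ℝ) : lam ^ 2 * b ≤ Ph F c lam x := by
  exact mul_le_mul_of_nonneg_left (hb _) (sq_nonneg lam)

private theorem cs {n : ℕ} (a b : Fin n → ℝ) : (a ⬝ᵥ b) ^ 2 ≤ (a ⬝ᵥ a) * (b ⬝ᵥ b) := by
  have h := Finset.sum_mul_sq_le_sq_mul_sq Finset.univ a b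
  simpa [dotProduct, sq] using h

theorem Spot.ext {m : ℕ} {N : (Fin (m + 2) → ℝ) → ℝ} {q : Fin (m + 2) → ℝ} {ρ μ M : ℝ}
    (h : Spot N q ρ μ M) : ∃ (F : (Fin (m + 2) → ℝ) → ℝ) (b δ η : ℝ), SDn F μ M ∧ (∀ x, b ≤ F x) ∧
      Cap N F q ρ δ η := by
  obtain ⟨F, b, hS, hb, hF, hconv⟩ :=
    Pool.Agent.Lib.MP_8cf263_co.ext (f := fun x => N x ^ 2) h.hρ h.hμ h.hM h.pin h.nrm.sub
  obtain ⟨δ₁, η₁, hδ₁, hη₁, hcap⟩ := h.cap hF hconv
  have hq := h.pos
  obtain ⟨Q, hQ⟩ : ∃ Q : ℝ, Q = q ⬝ᵥ q + 1 := ⟨_, rfl⟩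
  have hqq : 0 ≤ q ⬝ᵥ q := Finset.sum_nonneg fun i _ => mul_self_nonneg _
  have hQ1 : 1 ≤ Q := by linarith
  have hQ2 : q ⬝ᵥ q ≤ Q ^ 2 := by nlinarith
  have hη2 : 0 < q 0 / (2 * Q) := by positivity
  refine ⟨F, b, min δ₁ (q 0 / 2), min η₁ (q 0 / (2 * Q)), hS, hb, lt_min hδ₁ (by positivity),
    lt_min hη₁ hη2, hF, fun u hu => ?_⟩
  have hm0 : 0 ≤ min η₁ (q 0 / (2 * Q)) := (lt_min hη₁ hη2).le
  have hu1 : (u - Pi.single 0 1) ⬝ᵥ (u - Pi.single 0 1) ≤ η₁ ^ 2 :=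
    hu.trans (pow_le_pow_left₀ hm0 (min_le_left _ _) 2)
  have hu2 : (u - Pi.single 0 1) ⬝ᵥ (u - Pi.single 0 1) ≤ (q 0 / (2 * Q)) ^ 2 :=
    hu.trans (pow_le_pow_left₀ hm0 (min_le_right _ _) 2)
  obtain ⟨hA, hB, hC⟩ := hcap u hu1
  have hδm : min δ₁ (q 0 / 2) ≤ δ₁ := min_le_left _ _
  refine ⟨fun x hx hx2 => hA x hx (by linarith), ?_, fun t ht ht1 => hC t (by linarith) ht1⟩
  refine (min_le_right _ _).trans ?_
  have h1 := cs (u - Pi.single 0 1) q
  have h2 : ((u - Pi.single 0 1) ⬝ᵥ q) ^ 2 ≤ (q 0 / 2) ^ 2 := by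
    refine h1.trans ?_
    calc (u - Pi.single 0 1) ⬝ᵥ (u - Pi.single 0 1) * (q ⬝ᵥ q)
        ≤ (q 0 / (2 * Q)) ^ 2 * Q ^ 2 := mul_le_mul hu2 hQ2 hqq (sq_nonneg _)
      _ = (q 0 / 2) ^ 2 := by
          field_simp
  have h3 : |(u - Pi.single 0 1) ⬝ᵥ q| ≤ q 0 / 2 := abs_le_of_sq_le_sq h2 (by linarith)
  have h4 := (abs_le.1 h3).1
  rw [sub_dotProduct, single_dotProduct, one_mul] at h4
  linarith

variable {m : ℕ} {N F : (Fin (m + 2) → ℝ) → ℝ} {q : Fin (m + 2) → ℝ} {ρ δ η : ℝ}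

theorem Cap.agr (h : Cap N F q ρ δ η) (hN : Nrm N) (hq : N q = 1) {K : Finset (Fin (m + 2) → ℤ)}
    {c : Fin (m + 2) → ℤ} {lam : ℝ} (hlam : 0 < lam) (hK : ∀ x, x ∈ K ↔ N (em (vs c x)) ≤ lam)
    {s : ℝ} (hs : 0 < s) {G : Fin (m + 2) → ℤ}
    (hG : (s⁻¹ • em G - Pi.single 0 1) ⬝ᵥ (s⁻¹ • em G - Pi.single 0 1) ≤ η ^ 2)
    (hsl : 4 ≤ s * lam * δ) :
    ∃ h₀ : ℤ, (∀ x : Fin (m + 2) → ℤ, h₀ ≤ G ⬝ᵥ x → (x ∈ K ↔ Ph F c lam (em x) ≤ lam ^ 2)) ∧
      ∃ z : Fin (m + 2) → ℝ, em G ⬝ᵥ z = h₀ + 1 ∧ Ph F c lam z ≤ lam ^ 2 := by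
  obtain ⟨u, hu⟩ : ∃ u : Fin (m + 2) → ℝ, u = s⁻¹ • em G := ⟨_, rfl⟩
  rw [← hu] at hG
  obtain ⟨hA, hB, hC⟩ := h.cap u hG
  have hδ := h.hδ
  have hGx : ∀ x : Fin (m + 2) → ℝ, em G ⬝ᵥ x = s * (u ⬝ᵥ x) := by
    intro x
    rw [hu, smul_dotProduct, smul_eq_mul]
    field_simp
  have hGi : ∀ x : Fin (m + 2) → ℤ, em G ⬝ᵥ em x = ((G ⬝ᵥ x : ℤ) : ℝ) := by
    intro x
    simp [em, dotProduct]
  obtain ⟨D, hD⟩ : ∃ D, D = u ⬝ᵥ q := ⟨_, rfl⟩
  rw [← hD] at hA hB hC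
  obtain ⟨g, hg⟩ : ∃ g : ℝ, g = ((G ⬝ᵥ c : ℤ) : ℝ) := ⟨_, rfl⟩
  have hsl0 : 0 < s * lam := mul_pos hs hlam
  have hc1 := Int.le_ceil ((s * lam * (D - δ) + g) / 2)
  have hc2 := Int.ceil_lt_add_one ((s * lam * (D - δ) + g) / 2)
  obtain ⟨h₀, hh⟩ : ∃ h₀ : ℤ, h₀ = ⌈(s * lam * (D - δ) + g) / 2⌉ := ⟨_, rfl⟩
  rw [← hh] at hc1 hc2
  refine ⟨h₀, fun x hx => ?_, ?_⟩
  · rw [Ph_em]
    obtain ⟨w, hw⟩ : ∃ w, w = lam⁻¹ • em (vs c x) := ⟨_, rfl⟩
    rw [← hw]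
    have hNw : N w = lam⁻¹ * N (em (vs c x)) := by
      rw [hw, hN.sm, abs_of_pos (inv_pos.2 hlam)]
    have h1 : x ∈ K ↔ N w ≤ 1 := by
      rw [hK, hNw, inv_mul_le_iff₀ hlam, mul_one]
    have h2 : lam ^ 2 * F w ≤ lam ^ 2 ↔ F w ≤ 1 := by
      have hl2 : 0 < lam ^ 2 := by positivity
      constructor
      · intro h3
        by_contra h4
        push Not at h4
        nlinarith
      · intro h3
        nlinarith
    rw [h1, h2]
    have h3 : s * lam * (u ⬝ᵥ w) = 2 * ((G ⬝ᵥ x : ℤ) : ℝ) - g := by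
      have e : em (vs c x) = (2 : ℝ) • em x - em c := by
        funext i
        simp [em, vs]
      have e2 : s * (u ⬝ᵥ w) = lam⁻¹ * (2 * ((G ⬝ᵥ x : ℤ) : ℝ) - g) := by
        rw [← hGx, hw, dotProduct_smul, e, dotProduct_sub, dotProduct_smul, hGi, hGi, smul_eq_mul,
          smul_eq_mul, hg]
      calc s * lam * (u ⬝ᵥ w) = lam * (s * (u ⬝ᵥ w)) := by ring
        _ = 2 * ((G ⬝ᵥ x : ℤ) : ℝ) - g := by
            rw [e2]
            field_simp
    have h4 : D - δ ≤ u ⬝ᵥ w := by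
      have hx' : (h₀ : ℝ) ≤ ((G ⬝ᵥ x : ℤ) : ℝ) := by exact_mod_cast hx
      have h5 : s * lam * (D - δ) ≤ s * lam * (u ⬝ᵥ w) := by
        rw [h3]
        linarith
      exact le_of_mul_le_mul_left h5 hsl0
    constructor
    · intro h5
      rw [h.eq w (hA w (Or.inl h5) h4)]
      have := hN.nn w
      nlinarith
    · intro h5
      have h6 := h.eq w (hA w (Or.inr h5) h4)
      rw [h6] at h5
      have := hN.nn w
      nlinarith
  · have hD0 : 0 < D := lt_of_lt_of_le hδ hB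
    obtain ⟨t, ht⟩ : ∃ t, t = (2 * ((h₀ : ℝ) + 1) - g) / (s * lam * D) := ⟨_, rfl⟩
    have hsD : 0 < s * lam * D := mul_pos hsl0 hD0
    have ht1 : t * (s * lam * D) = 2 * ((h₀ : ℝ) + 1) - g := by
      rw [ht]
      exact div_mul_cancel₀ _ hsD.ne'
    have ht2 : D - δ ≤ t * D := by
      have h5 : s * lam * (D - δ) ≤ s * lam * (t * D) := by
        have : s * lam * (t * D) = t * (s * lam * D) := by ring
        rw [this, ht1]
        linarith
      exact le_of_mul_le_mul_left h5 hsl0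
    have ht3 : t ≤ 1 := by
      have h5 : t * (s * lam * D) ≤ 1 * (s * lam * D) := by
        rw [ht1]
        linarith
      exact le_of_mul_le_mul_right h5 hsD
    have ht0 : 0 ≤ t := by
      have h5 : 0 * D ≤ t * D := by linarith
      exact le_of_mul_le_mul_right h5 hD0
    refine ⟨(1 / 2 : ℝ) • ((lam * t) • q + em c), ?_, ?_⟩
    · rw [dotProduct_smul, dotProduct_add, dotProduct_smul, hGx, hGi, ← hD, ← hg, smul_eq_mul,
        smul_eq_mul]
      linear_combination (1 / 2) * ht1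
    · have e : lam⁻¹ • ((2 : ℝ) • ((1 / 2 : ℝ) • ((lam * t) • q + em c)) - em c) = t • q := by
        funext i
        simp only [Pi.add_apply, Pi.sub_apply, Pi.smul_apply, smul_eq_mul]
        field_simp
        ring
      rw [Ph, e, h.eq _ (hC t ht2 ht3), hN.sm, hq, mul_one, sq_abs]
      have h5 : t ^ 2 ≤ 1 := by nlinarith
      have h6 := mul_le_mul_of_nonneg_left h5 (sq_nonneg lam)
      linarith

end Pool.Agent.Lib.MP_8cf263_co
end
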