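import Pool.Agent.Lib.MP_8cf263_co.Face

section

/-!
# Discrete Aleksandrov projection problem: sets all of whose lines in one direction are long
-/

set_option autoImplicit false

namespace Pool.Agent.Lib.MP_8cf263_co

open Finset

variable {n : ℕ}

/-- left ends of lines start runs of `J` points -/
def Lr (K : Finset (Fin n → ℤ)) (e : Fin n → ℤ) (J : ℕ) : Prop :=
  ∀ x ∈ K, x - e ∉ K → ∀ t : ℤ, 0 ≤ t → t < J → x + t • e ∈ K

/-- existence of the left end -/
theorem left_end {K : Finset (Fin n → ℤ)} {e : Fin n → ℤ} (he : e ≠ 0) {x : Fin n → ℤ}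
    (hx : x ∈ K) : ∃ s : ℤ, x + s • e ∈ K ∧ x + s • e - e ∉ K := by
  classical
  have hpos := sq_pos he
  obtain ⟨y, hy, hmin⟩ := exists_min_image (K.filter fun y => ∃ t : ℤ, y = x + t • e)
    (fun y => ∑ i, y i * e i) ⟨x, by
      rw [mem_filter]
      exact ⟨hx, 0, by simp⟩⟩
  rw [mem_filter] at hy
  obtain ⟨hyK, s, rfl⟩ := hy
  refine ⟨s, hyK, fun hcon => ?_⟩
  have h1 := hmin (x + s • e - e) (by
    rw [mem_filter]
    exact ⟨hcon, s - 1, by
      rw [sub_smul, one_smul]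
      abel⟩)
  have h2 : ∑ i, (x + s • e - e) i * e i = ∑ i, (x + s • e) i * e i - ∑ i, e i * e i := by
    rw [← sum_sub_distrib]
    refine sum_congr rfl fun i _ => ?_
    rw [Pi.sub_apply]
    ring
  rw [h2] at h1
  linarith

/-- points to the left of a left end -/
theorem LC.no_left {K : Finset (Fin n → ℤ)} (hK : LC K) {x e : Fin n → ℤ} (hx : x ∈ K)
    (hxe : x - e ∉ K) {t : ℤ} (ht : x + t • e ∈ K) : 0 ≤ t := by
  by_contra hcon
  push Not at hcon
  apply hxe
  have h1 : x + (-e) ∈ K := hK.step hx (t := -t) (by omega) (by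
    have : x + (-t) • (-e) = x + t • e := by simp
    rwa [this])
  rwa [← sub_eq_add_neg] at h1

theorem LC.seg0 {K : Finset (Fin n → ℤ)} (hK : LC K) {x e : Fin n → ℤ} {s t g : ℤ}
    (hx : x + s • e ∈ K) (hy : x + g • e ∈ K) (h0 : s ≤ t) (h1 : t ≤ g) : x + t • e ∈ K := by
  have h2 := hK.seg (x := x + s • e) (e := e) (g := g - s) (t := t - s) hx (by
    have : x + s • e + (g - s) • e = x + g • e := by
      rw [sub_smul]
      abel
    rwa [this]) (by omega) (by omega)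
  have h3 : x + s • e + (t - s) • e = x + t • e := by
    rw [sub_smul]
    abel
  rwa [h3] at h2

/-- a set with `J` consecutive points on every line -/
theorem Lr.of_runs {K : Finset (Fin n → ℤ)} (hK : LC K) {e : Fin n → ℤ} {J : ℕ} (hJ : 1 ≤ J)
    (h : ∀ x ∈ K, ∃ s : ℤ, ∀ t : ℤ, s ≤ t → t < s + J → x + t • e ∈ K) : Lr K e J := by
  intro x hx hxe t h0 h1
  obtain ⟨s, hs⟩ := h x hx
  have h2 := hs s le_rfl (by omega)
  have h3 := hK.no_left hx hxe h2
  have h4 := hs (s + J - 1) (by omega) (by omega)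
  have h5 : x + (0 : ℤ) • e ∈ K := by
    rw [zero_smul, add_zero]
    exact hx
  exact hK.seg0 h5 h4 h0 (by omega)

/-- fibres with at least `T` points -/
theorem run_of_card {K : Finset (Fin n → ℤ)} (hK : LC K) {e : Fin n → ℤ} {T : ℕ}
    (hT : ∀ x ∈ K, ∃ F : Finset (Fin n → ℤ), (∀ y ∈ F, y ∈ K ∧ ∃ t : ℤ, y = x + t • e) ∧ T ≤ F.card)
    {x : Fin n → ℤ} (hx : x ∈ K) (hxe : x - e ∉ K) {t : ℤ} (h0 : 0 ≤ t) (h1 : t < T) :
    x + t • e ∈ K := by
  classical
  by_contra hcon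
  obtain ⟨F, hF, hFT⟩ := hT x hx
  have hsub : F ⊆ (range t.toNat).image (fun s : ℕ => x + (s : ℤ) • e) := by
    intro y hy
    obtain ⟨hyK, s, rfl⟩ := hF y hy
    have h2 := hK.no_left hx hxe hyK
    have h3 : s < t := by
      by_contra h4
      push Not at h4
      apply hcon
      have h5 : x + (0 : ℤ) • e ∈ K := by
        rw [zero_smul, add_zero]
        exact hx
      exact hK.seg0 h5 hyK h0 h4
    refine mem_image.2 ⟨s.toNat, mem_range.2 (by omega), ?_⟩
    show x + ((s.toNat : ℕ) : ℤ) • e = x + s • e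
    rw [Int.toNat_of_nonneg h2]
  have h2 := card_le_card hsub
  have h3 := card_image_le (s := range t.toNat) (f := fun s : ℕ => x + (s : ℤ) • e)
  rw [card_range] at h3
  omega

/-- **Left ends.** -/
theorem Tw.left {K L : Finset (Fin n → ℤ)} {c : Fin n → ℤ} (h : Tw K L c) {e : Fin n → ℤ}
    (he : e ≠ 0) {J : ℕ} (f : Fin n → ℝ) (hfe : f ⬝ᵥ em e = 0)
    (hsep : ∀ x ∈ K, ∀ y, y ∈ K ∨ y ∈ L → f ⬝ᵥ em x = f ⬝ᵥ em y → ∃ t : ℤ, y = x + t • e)
    (hrun : Lr K e J) (hLK : ∀ y ∈ L, ∃ t : ℤ, y + t • e ∈ K)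
    (hprim : ∀ x ∈ K, ∀ y ∈ K, 0 < f ⬝ᵥ em (x + y - c) →
      ∃ t : ℤ, 0 ≤ t ∧ t < J ∧ Pr (x + y - c + t • e))
    (hpos : ∃ x ∈ K, f ⬝ᵥ em c < 2 * (f ⬝ᵥ em x)) {p : Fin n → ℤ} (hp : p ∈ K)
    (hpe : p - e ∉ K) (hpL : ∀ t : ℤ, p + t • e ∈ L → 1 ≤ t)
    (htop : ∀ x, f ⬝ᵥ em p < f ⬝ᵥ em x → (x ∈ K ↔ x ∈ L)) : False := by
  classical
  have hline : ∀ (x : Fin n → ℤ) (t : ℤ), f ⬝ᵥ em (x + t • e) = f ⬝ᵥ em x := by
    intro x t
    rw [em_add, em_smul_int, dotProduct_add, dotProduct_smul, hfe, smul_zero, add_zero]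
  have hpL0 : p ∉ L := by
    intro h1
    have h2 := hpL 0 (by simpa using h1)
    omega
  -- `p` is not below the centre
  have hcp : ∀ x : Fin n → ℤ, f ⬝ᵥ em (c - x) = f ⬝ᵥ em c - f ⬝ᵥ em x := by
    intro x
    rw [em_sub, dotProduct_sub]
  have hpc : f ⬝ᵥ em c ≤ 2 * (f ⬝ᵥ em p) := by
    by_contra hcon
    push Not at hcon
    have h1 : f ⬝ᵥ em p < f ⬝ᵥ em (c - p) := by
      rw [hcp]
      linarith
    have h2 := (htop _ h1).1 ((h.sK p).1 hp)
    exact hpL0 ((h.sL p).2 h2)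
  -- the top line
  obtain ⟨a0, ha0, ha0max⟩ := exists_max_image K (fun x => f ⬝ᵥ em x) ⟨p, hp⟩
  obtain ⟨s0, ha, hae⟩ := left_end he ha0
  set a : Fin n → ℤ := a0 + s0 • e with hadef
  have hamaxK : ∀ x ∈ K, f ⬝ᵥ em x ≤ f ⬝ᵥ em a := by
    intro x hx
    rw [hadef, hline]
    exact ha0max x hx
  have hamaxL : ∀ x ∈ L, f ⬝ᵥ em x ≤ f ⬝ᵥ em a := by
    intro x hx
    obtain ⟨t, ht⟩ := hLK x hx
    have h1 := hamaxK _ ht
    rwa [hline] at h1
  have hac : f ⬝ᵥ em c < 2 * (f ⬝ᵥ em a) := by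
    obtain ⟨x, hx, hxc⟩ := hpos
    have := hamaxK x hx
    linarith
  have haL : ∀ t : ℤ, a + t • e ∈ L → 0 ≤ t := by
    intro t ht
    rcases (hamaxK p hp).lt_or_eq with h1 | h1
    · have h2 : a + t • e ∈ K := (htop _ (by rw [hline]; exact h1)).2 ht
      exact h.hK.no_left ha hae h2
    · obtain ⟨s, hs⟩ := hsep p hp a (Or.inl ha) h1
      have h2 : 0 ≤ s := h.hK.no_left hp hpe (by rw [← hs]; exact ha)
      have h3 : 0 ≤ -s := h.hK.no_left ha hae (by
        have : a + (-s) • e = p := by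
          rw [hs, neg_smul]
          abel
        rw [this]
        exact hp)
      have h4 : s = 0 := by omega
      rw [h4, zero_smul, add_zero] at hs
      rw [hs] at ht
      have := hpL t ht
      omega
  -- a visible sum
  obtain ⟨τ, hτ0, hτJ, hτ⟩ := hprim a ha p hp (by
    rw [em_sub, em_add, dotProduct_sub, dotProduct_add]
    linarith)
  set u : Fin n → ℤ := a + p - c + τ • e with hu
  set s : Fin n → ℤ := a + p + τ • e with hs
  have hsu : s = c + u := by
    rw [hs, hu]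
    abel
  have hfs : f ⬝ᵥ em s = f ⬝ᵥ em a + f ⬝ᵥ em p := by
    rw [hs, hline, em_add, dotProduct_add]
  have hfsx : ∀ x : Fin n → ℤ, f ⬝ᵥ em (s - x) = f ⬝ᵥ em a + f ⬝ᵥ em p - f ⬝ᵥ em x := by
    intro x
    rw [em_sub, dotProduct_sub, hfs]
  -- number of representations
  have hrep : ∀ (M : Finset (Fin n → ℤ)), (∀ x, x ∈ M ↔ c - x ∈ M) →
      (M.filter fun x => s - x ∈ M).card = (fol M u).card := by
    intro M hM
    symm
    refine card_bij (fun x _ => x + u) ?_ ?_ ?_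
    · intro x hx
      rw [fol, mem_filter] at hx
      rw [mem_filter]
      refine ⟨hx.2, ?_⟩
      have h1 : s - (x + u) = c - x := by
        rw [hsu]
        abel
      rw [h1]
      exact (hM x).1 hx.1
    · intro x _ y _ hxy
      exact add_right_cancel hxy
    · intro y hy
      rw [mem_filter] at hy
      refine ⟨y - u, ?_, sub_add_cancel _ _⟩
      rw [fol, mem_filter, sub_add_cancel]
      refine ⟨?_, hy.1⟩
      rw [hM]
      have h1 : c - (y - u) = s - y := by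
        rw [hsu]
        abel
      rw [h1]
      exact hy.2
  have hcard : (K.filter fun x => s - x ∈ K).card = (L.filter fun x => s - x ∈ L).card := by
    rw [hrep K h.sK, hrep L h.sL, h.cnt u hτ]
  -- outside of the two special levels the sets agree
  have hagree : ∀ x, f ⬝ᵥ em x ≠ f ⬝ᵥ em p → f ⬝ᵥ em x ≠ f ⬝ᵥ em a →
      ((x ∈ K ∧ s - x ∈ K) ↔ (x ∈ L ∧ s - x ∈ L)) := by
    intro x hxp hxa
    rcases lt_or_gt_of_ne hxp with h1 | h1
    · constructor
      · rintro ⟨-, h2⟩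
        have h3 := hamaxK _ h2
        rw [hfsx] at h3
        linarith
      · rintro ⟨-, h2⟩
        have h3 := hamaxL _ h2
        rw [hfsx] at h3
        linarith
    · rcases lt_or_gt_of_ne hxa with h2 | h2
      · rw [htop x h1, htop (s - x) (by rw [hfsx]; linarith)]
      · constructor
        · rintro ⟨h3, -⟩
          have := hamaxK _ h3
          linarith
        · rintro ⟨h3, -⟩
          have := hamaxL _ h3
          linarith
  have hsplit : ∀ M : Finset (Fin n → ℤ),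
      (M.filter fun x => s - x ∈ M).card =
      ((M.filter fun x => s - x ∈ M).filter
        fun x => ¬ (f ⬝ᵥ em x = f ⬝ᵥ em p ∨ f ⬝ᵥ em x = f ⬝ᵥ em a)).card +
      ((M.filter fun x => s - x ∈ M).filter
        fun x => (f ⬝ᵥ em x = f ⬝ᵥ em p ∨ f ⬝ᵥ em x = f ⬝ᵥ em a)).card := by
    intro M
    rw [add_comm]
    exact (card_filter_add_card_filter_not _).symm
  have hrest : (K.filter fun x => s - x ∈ K).filter
        (fun x => ¬ (f ⬝ᵥ em x = f ⬝ᵥ em p ∨ f ⬝ᵥ em x = f ⬝ᵥ em a)) =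
      (L.filter fun x => s - x ∈ L).filter
        (fun x => ¬ (f ⬝ᵥ em x = f ⬝ᵥ em p ∨ f ⬝ᵥ em x = f ⬝ᵥ em a)) := by
    ext x
    simp only [mem_filter]
    constructor
    · rintro ⟨h1, h2⟩
      rw [not_or] at h2
      exact ⟨(hagree x h2.1 h2.2).1 h1, not_or.2 h2⟩
    · rintro ⟨h1, h2⟩
      rw [not_or] at h2
      exact ⟨(hagree x h2.1 h2.2).2 h1, not_or.2 h2⟩
  have hspec : ∀ M : Finset (Fin n → ℤ),
      ∃ m : ℕ, (m = 1 ∨ m = 2) ∧ (m = 1 ↔ f ⬝ᵥ em p = f ⬝ᵥ em a) ∧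
      ((M.filter fun x => s - x ∈ M).filter
        fun x => (f ⬝ᵥ em x = f ⬝ᵥ em p ∨ f ⬝ᵥ em x = f ⬝ᵥ em a)).card =
      m * ((M.filter fun x => s - x ∈ M).filter fun x => f ⬝ᵥ em x = f ⬝ᵥ em p).card := by
    intro M
    by_cases hpa : f ⬝ᵥ em p = f ⬝ᵥ em a
    · refine ⟨1, Or.inl rfl, by simp [hpa], ?_⟩
      rw [one_mul, hpa]
      simp only [or_self]
    · refine ⟨2, Or.inr rfl, by simp [hpa], ?_⟩
      rw [filter_or, card_union_of_disjoint]
      · have hinv : ((M.filter fun x => s - x ∈ M).filter fun x => f ⬝ᵥ em x = f ⬝ᵥ em a).card =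
            ((M.filter fun x => s - x ∈ M).filter fun x => f ⬝ᵥ em x = f ⬝ᵥ em p).card := by
          refine card_bij (fun x _ => s - x) ?_ ?_ ?_
          · intro x hx
            rw [mem_filter, mem_filter] at hx
            rw [mem_filter, mem_filter]
            refine ⟨⟨hx.1.2, ?_⟩, ?_⟩
            · rw [sub_sub_cancel]
              exact hx.1.1
            · rw [hfsx, hx.2]
              ring
          · intro x _ y _ hxy
            exact sub_right_injective hxy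
          · intro y hy
            rw [mem_filter, mem_filter] at hy
            refine ⟨s - y, ?_, sub_sub_cancel _ _⟩
            rw [mem_filter, mem_filter, sub_sub_cancel]
            refine ⟨⟨hy.1.2, hy.1.1⟩, ?_⟩
            rw [hfsx, hy.2]
            ring
        rw [hinv]
        ring
      · rw [disjoint_filter]
        intro x _ h1 h2
        exact hpa (h1.symm.trans h2)
  have hmain : ((K.filter fun x => s - x ∈ K).filter fun x => f ⬝ᵥ em x = f ⬝ᵥ em p).card =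
      ((L.filter fun x => s - x ∈ L).filter fun x => f ⬝ᵥ em x = f ⬝ᵥ em p).card := by
    obtain ⟨m, hm, hm1, hmK⟩ := hspec K
    obtain ⟨m', hm', hm1', hmL⟩ := hspec L
    have hmm : m = m' := by
      by_cases hpa : f ⬝ᵥ em p = f ⬝ᵥ em a
      · rw [hm1.2 hpa, hm1'.2 hpa]
      · have h1 : m ≠ 1 := fun h => hpa (hm1.1 h)
        have h2 : m' ≠ 1 := fun h => hpa (hm1'.1 h)
        omega
    have h1 := hsplit K
    have h2 := hsplit L
    rw [hrest] at h1
    rw [hcard, h2, hmK, hmL, ← hmm] at h1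
    have h3 : m * ((L.filter fun x => s - x ∈ L).filter fun x => f ⬝ᵥ em x = f ⬝ᵥ em p).card =
        m * ((K.filter fun x => s - x ∈ K).filter fun x => f ⬝ᵥ em x = f ⬝ᵥ em p).card := by
      omega
    exact (Nat.eq_of_mul_eq_mul_left (by omega) h3).symm
  -- lower bound for `K`
  have hlow : τ.toNat + 1 ≤
      ((K.filter fun x => s - x ∈ K).filter fun x => f ⬝ᵥ em x = f ⬝ᵥ em p).card := by
    have hinj : Function.Injective (fun t : ℕ => p + (t : ℤ) • e) := by
      intro t t' htt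
      obtain ⟨i, hi⟩ := Function.ne_iff.1 he
      have h1 := congrFun htt i
      simp only [Pi.add_apply, Pi.smul_apply, smul_eq_mul] at h1
      have h2 : (t : ℤ) * e i = t' * e i := by linarith
      have h3 := mul_right_cancel₀ hi h2
      exact_mod_cast h3
    have h1 : ((range (τ.toNat + 1)).image (fun t : ℕ => p + (t : ℤ) • e)).card = τ.toNat + 1 := by
      rw [card_image_of_injective _ hinj, card_range]
    rw [← h1]
    apply card_le_card
    intro x hx
    obtain ⟨t, ht, rfl⟩ := mem_image.1 hx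
    rw [mem_range] at ht
    rw [mem_filter, mem_filter]
    refine ⟨⟨hrun p hp hpe t (by omega) (by omega), ?_⟩, hline _ _⟩
    have h2 : s - (p + (t : ℤ) • e) = a + (τ - t) • e := by
      rw [hs, sub_smul]
      abel
    rw [h2]
    exact hrun a ha hae _ (by omega) (by omega)
  -- upper bound for `L`
  have hupp : ((L.filter fun x => s - x ∈ L).filter fun x => f ⬝ᵥ em x = f ⬝ᵥ em p).card ≤
      τ.toNat := by
    have hsub : (L.filter fun x => s - x ∈ L).filter (fun x => f ⬝ᵥ em x = f ⬝ᵥ em p) ⊆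
        (range τ.toNat).image (fun t : ℕ => p + ((t : ℤ) + 1) • e) := by
      intro x hx
      rw [mem_filter, mem_filter] at hx
      obtain ⟨⟨hxL, hsx⟩, hfx⟩ := hx
      obtain ⟨t, rfl⟩ := hsep p hp x (Or.inr hxL) hfx.symm
      have h2 := hpL t hxL
      have h3 : s - (p + t • e) = a + (τ - t) • e := by
        rw [hs, sub_smul]
        abel
      rw [h3] at hsx
      have h4 := haL _ hsx
      refine mem_image.2 ⟨(t - 1).toNat, mem_range.2 (by omega), ?_⟩
      show p + (((t - 1).toNat : ℤ) + 1) • e = p + t • e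
      rw [Int.toNat_of_nonneg (by omega)]
      congr 2
      ring
    refine (card_le_card hsub).trans (card_image_le.trans ?_)
    rw [card_range]
  omega

end Pool.Agent.Lib.MP_8cf263_co
end

section

/-!
# Discrete Aleksandrov projection problem: sets centred at the origin, primitive sums with a point
-/

set_option autoImplicit false

namespace Pool.Agent.Lib.MP_8cf263_co

open Finset

variable {n : ℕ}

/-- the two vectors are linearly independent -/
def Npar (b y : Fin n → ℤ) : Prop := ∃ i j, b i * y j - b j * y i ≠ 0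

/-- number of representations as a sum of two points -/
def rp (A : Finset (Fin n → ℤ)) (s : Fin n → ℤ) : ℕ := (A.filter (fun x => s - x ∈ A)).card

theorem Tw.neg {A B : Finset (Fin n → ℤ)} (h : Tw A B 0) {x : Fin n → ℤ} (hx : x ∈ A) : -x ∈ A := by
  have h1 := (h.sK x).1 hx
  rwa [zero_sub] at h1

theorem rp_eq {A : Finset (Fin n → ℤ)} (hA : ∀ x, x ∈ A ↔ 0 - x ∈ A) (s : Fin n → ℤ) :
    rp A s = (fol A s).card := by
  classical
  unfold rp fol
  refine Finset.card_bij (fun x _ => -x) ?_ ?_ ?_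
  · intro x hx
    rw [mem_filter] at hx ⊢
    refine ⟨?_, ?_⟩
    · have := (hA x).1 hx.1
      rwa [zero_sub] at this
    · have h1 : -x + s = s - x := by abel
      rw [h1]
      exact hx.2
  · intro x _ y _ hxy
    exact neg_injective hxy
  · intro y hy
    rw [mem_filter] at hy
    refine ⟨-y, ?_, neg_neg y⟩
    rw [mem_filter]
    refine ⟨?_, ?_⟩
    · have := (hA y).1 hy.1
      rwa [zero_sub] at this
    · have h1 : s - -y = y + s := by abel
      rw [h1]
      exact hy.2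

theorem Tw.rp_eq {A B : Finset (Fin n → ℤ)} (h : Tw A B 0) {s : Fin n → ℤ} (hs : Pr s) :
    rp A s = rp B s := by
  rw [MP_8cf263_co.rp_eq h.sK, MP_8cf263_co.rp_eq h.sL, h.cnt s hs]

theorem rp_pos {A : Finset (Fin n → ℤ)} {x y : Fin n → ℤ} (hx : x ∈ A) (hy : y ∈ A) :
    0 < rp A (x + y) := by
  unfold rp
  refine card_pos.2 ⟨x, ?_⟩
  rw [mem_filter]
  refine ⟨hx, ?_⟩
  rwa [add_sub_cancel_left]

theorem exists_of_rp_pos {A : Finset (Fin n → ℤ)} {s : Fin n → ℤ} (h : 0 < rp A s) :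
    ∃ x ∈ A, ∃ y ∈ A, x + y = s := by
  unfold rp at h
  obtain ⟨x, hx⟩ := card_pos.1 h
  rw [mem_filter] at hx
  exact ⟨x, hx.1, s - x, hx.2, by abel⟩

theorem Tw.sum {A B : Finset (Fin n → ℤ)} (h : Tw A B 0) {x y : Fin n → ℤ} (hx : x ∈ A)
    (hy : y ∈ A) (hp : Pr (x + y)) : ∃ x' ∈ B, ∃ y' ∈ B, x' + y' = x + y := by
  apply exists_of_rp_pos
  rw [← h.rp_eq hp]
  exact rp_pos hx hy

theorem zero_mem {A : Finset (Fin n → ℤ)} (hA : LC A) (hs : ∀ x, x ∈ A ↔ 0 - x ∈ A)
    (hne : A.Nonempty) : (0 : Fin n → ℤ) ∈ A := by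
  obtain ⟨x, hx⟩ := hne
  refine hA.comb hx ((hs x).1 hx) (a := 1) (b := 1) (k := 2) (by norm_num) (by norm_num)
    (by norm_num) (by norm_num) ?_
  intro i
  simp only [Pi.sub_apply, Pi.zero_apply]
  ring

/-- a vector on which a functional takes a unit value is primitive -/
theorem Pr.of_dot {φ s : Fin n → ℤ} (h : IsUnit (φ ⬝ᵥ s)) : Pr s := by
  intro d hd
  refine isUnit_of_dvd_unit ?_ h
  exact Finset.dvd_sum fun i _ => Dvd.dvd.mul_left (hd i) _

/-- common divisors divide the values of functionals -/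
theorem dvd_dot {φ s : Fin n → ℤ} {d : ℤ} (hd : ∀ i, d ∣ s i) : d ∣ φ ⬝ᵥ s :=
  Finset.dvd_sum fun i _ => Dvd.dvd.mul_left (hd i) _

/-- vectors that are not primitive -/
theorem exists_div {s : Fin n → ℤ} (hs : ¬ Pr s) (h0 : s ≠ 0) :
    ∃ (q : ℤ) (Y : Fin n → ℤ), 2 ≤ q ∧ s = q • Y := by
  unfold Pr at hs
  push Not at hs
  obtain ⟨d, hd, hu⟩ := hs
  have hd0 : d ≠ 0 := by
    rintro rfl
    apply h0
    funext i
    exact zero_dvd_iff.1 (hd i)
  have h1 : ∀ i, |d| ∣ s i := fun i => (abs_dvd _ _).2 (hd i)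
  choose Y hY using h1
  refine ⟨|d|, Y, ?_, funext fun i => ?_⟩
  · have h2 : |d| ≠ 1 := by
      intro h
      exact hu (Int.isUnit_iff_abs_eq.2 h)
    have h3 : 0 < |d| := abs_pos.2 hd0
    omega
  · rw [Pi.smul_apply, smul_eq_mul]
    exact hY i

/-- fractions of a sum of two points -/
theorem LC.div {A : Finset (Fin n → ℤ)} (hA : LC A) (hs : ∀ x, x ∈ A ↔ 0 - x ∈ A)
    {x y Y : Fin n → ℤ} (hx : x ∈ A) (hy : y ∈ A) {q : ℤ} (hq : 2 ≤ q) (h : x + y = q • Y) :
    Y ∈ A := by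
  refine hA.comb4 hx hy hx ((hs x).1 hx) (a := 2) (b := q - 2) (k := q) (by norm_num) (by omega)
    (by omega) (by ring) ?_
  intro i
  have h1 := congrFun h i
  simp only [Pi.add_apply, Pi.smul_apply, smul_eq_mul, Pi.sub_apply, Pi.zero_apply] at h1 ⊢
  linear_combination (-2) * h1

/-- the measure of independence -/
def ms (b y : Fin n → ℤ) : ℤ := ∑ i, ∑ j, |b i * y j - b j * y i|

theorem ms_nonneg (b y : Fin n → ℤ) : 0 ≤ ms b y :=
  Finset.sum_nonneg fun _ _ => Finset.sum_nonneg fun _ _ => abs_nonneg _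

theorem ms_pos {b y : Fin n → ℤ} (h : Npar b y) : 0 < ms b y := by
  obtain ⟨i, j, hij⟩ := h
  refine Finset.sum_pos' (fun i _ => Finset.sum_nonneg fun _ _ => abs_nonneg _) ⟨i, mem_univ _, ?_⟩
  exact Finset.sum_pos' (fun _ _ => abs_nonneg _) ⟨j, mem_univ _, abs_pos.2 hij⟩

theorem ms_add_self (b y : Fin n → ℤ) : ms b (b + y) = ms b y := by
  unfold ms
  refine Finset.sum_congr rfl fun i _ => Finset.sum_congr rfl fun j _ => ?_
  rw [Pi.add_apply, Pi.add_apply]
  congr 1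
  ring

theorem ms_neg (b y : Fin n → ℤ) : ms b (-y) = ms b y := by
  unfold ms
  refine Finset.sum_congr rfl fun i _ => Finset.sum_congr rfl fun j _ => ?_
  rw [Pi.neg_apply, Pi.neg_apply, ← abs_neg]
  congr 1
  ring

theorem ms_smul (b y : Fin n → ℤ) (q : ℤ) : ms b (q • y) = |q| * ms b y := by
  unfold ms
  rw [Finset.mul_sum]
  refine Finset.sum_congr rfl fun i _ => ?_
  rw [Finset.mul_sum]
  refine Finset.sum_congr rfl fun j _ => ?_
  rw [Pi.smul_apply, Pi.smul_apply, smul_eq_mul, smul_eq_mul, ← abs_mul]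
  congr 1
  ring

theorem npar_of_ms {b y : Fin n → ℤ} (h : 0 < ms b y) : Npar b y := by
  by_contra hcon
  unfold Npar at hcon
  push Not at hcon
  have h1 : ms b y = 0 :=
    Finset.sum_eq_zero fun i _ => Finset.sum_eq_zero fun j _ => by rw [hcon i j, abs_zero]
  omega

theorem Npar.neg {b y : Fin n → ℤ} (h : Npar b y) : Npar b (-y) := by
  apply npar_of_ms
  rw [ms_neg]
  exact ms_pos h

/-- **Primitive sums.** -/
theorem prim_sum {B : Finset (Fin n → ℤ)} (hB : LC B) (hs : ∀ x, x ∈ B ↔ 0 - x ∈ B)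
    {b y : Fin n → ℤ} (hb : b ∈ B) (hy : y ∈ B) (hby : Npar b y)
    (hmin : ∀ w ∈ B, Npar b w → ms b y ≤ ms b w) : Pr (b + y) := by
  by_contra hp
  have h0 : b + y ≠ 0 := by
    intro h
    have h1 := ms_pos hby
    rw [← ms_add_self, h] at h1
    have h2 : ms b 0 = 0 := by simp [ms]
    omega
  obtain ⟨q, Y, hq, hY⟩ := exists_div hp h0
  have hYB := hB.div hs hb hy hq hY
  have h1 : ms b y = q * ms b Y := by
    rw [← ms_add_self, hY, ms_smul, abs_of_nonneg (by omega)]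
  have h2 := ms_pos hby
  have h3 : 0 < ms b Y := by
    by_contra hcon
    have h4 := ms_nonneg b Y
    have h5 : ms b Y = 0 := by omega
    rw [h5, mul_zero] at h1
    omega
  have h4 := hmin Y hYB (npar_of_ms h3)
  nlinarith

/-- **The row lemma.** -/
theorem Tw.row {A B : Finset (Fin n → ℤ)} (h : Tw A B 0) {b y : Fin n → ℤ} (hb : b ∈ B)
    (hy : y ∈ B) (hby : Npar b y) :
    ∃ x1 ∈ A, ∃ x2 ∈ A, ∃ x3 ∈ A, ∃ x4 ∈ A, b + b = x1 + x2 + (x3 + x4) := by
  classical
  obtain ⟨w, hw, hmin⟩ := Finset.exists_min_image (B.filter (fun y => Npar b y)) (ms b)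
    ⟨y, mem_filter.2 ⟨hy, hby⟩⟩
  rw [mem_filter] at hw
  have hmin' : ∀ w' ∈ B, Npar b w' → ms b w ≤ ms b w' := fun w' h1 h2 =>
    hmin w' (mem_filter.2 ⟨h1, h2⟩)
  have hwn : -w ∈ B := h.symm.neg hw.1
  have hp1 := prim_sum h.hL h.sL hb hw.1 hw.2 hmin'
  have hp2 := prim_sum h.hL h.sL hb hwn hw.2.neg (by
    intro w' h1 h2
    rw [ms_neg]
    exact hmin' w' h1 h2)
  obtain ⟨x1, hx1, x2, hx2, h12⟩ := h.symm.sum hb hw.1 hp1
  obtain ⟨x3, hx3, x4, hx4, h34⟩ := h.symm.sum hb hwn hp2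
  refine ⟨x1, hx1, x2, hx2, x3, hx3, x4, hx4, ?_⟩
  rw [h12, h34]
  abel

/-- every line through the origin misses some point -/
def Spr (A : Finset (Fin n → ℤ)) : Prop := ∀ b : Fin n → ℤ, b ≠ 0 → ∃ x ∈ A, Npar b x

theorem Tw.npar {A B : Finset (Fin n → ℤ)} (h : Tw A B 0) {b x : Fin n → ℤ} (hx : x ∈ A)
    (hbx : Npar b x) : ∃ y ∈ B, Npar b y := by
  have hx0 : x ≠ 0 := by
    rintro rfl
    obtain ⟨i, j, hij⟩ := hbx
    simp at hij
  obtain ⟨w, hw, g, hg, hge, -⟩ := prim_dir hx0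
  have h0 := zero_mem h.hK h.sK ⟨x, hx⟩
  have hwA : w ∈ A := by
    have h1 : (0 : Fin n → ℤ) + (1 : ℤ) • w ∈ A :=
      h.hK.seg h0 (g := g) (by rw [zero_add, ← hge]; exact hx) (by norm_num) hg
    rwa [zero_add, one_smul] at h1
  have hbw : Npar b w := by
    apply npar_of_ms
    have h1 := ms_pos hbx
    rw [hge, ms_smul] at h1
    by_contra hcon
    have h2 : ms b w = 0 := by
      have := ms_nonneg b w
      omega
    rw [h2, mul_zero] at h1
    exact lt_irrefl _ h1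
  obtain ⟨y, hy, y', hy', hyy⟩ := h.sum hwA h0 (by rwa [add_zero])
  rw [add_zero] at hyy
  by_contra hcon
  push Not at hcon
  have h1 := hcon y hy
  have h2 := hcon y' hy'
  unfold Npar at h1 h2
  push Not at h1 h2
  obtain ⟨i, j, hij⟩ := hbw
  apply hij
  rw [← hyy, Pi.add_apply, Pi.add_apply]
  have h3 := h1 i j
  have h4 := h2 i j
  linarith

theorem Tw.spr {A B : Finset (Fin n → ℤ)} (h : Tw A B 0) (hA : Spr A) : Spr B := by
  intro b hb
  obtain ⟨x, hx, hbx⟩ := hA b hb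
  exact h.npar hx hbx

/-- the values of functionals at most double -/
theorem Tw.double {A B : Finset (Fin n → ℤ)} (h : Tw A B 0) (hA : Spr A) {φ : Fin n → ℤ} {M : ℤ}
    (hφ : ∀ x ∈ A, φ ⬝ᵥ x ≤ M) {b : Fin n → ℤ} (hb : b ∈ B) : φ ⬝ᵥ b ≤ 2 * M := by
  by_cases hb0 : b = 0
  · have hne : B.Nonempty := ⟨b, hb⟩
    have hAne : A.Nonempty := by
      rw [← card_pos, h.card]
      exact card_pos.2 hne
    have h0 := hφ 0 (zero_mem h.hK h.sK hAne)
    rw [hb0]
    rw [dotProduct_zero] at h0 ⊢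
    linarith
  obtain ⟨y, hy, hby⟩ := h.spr hA b hb0
  obtain ⟨x1, h1, x2, h2, x3, h3, x4, h4, h5⟩ := h.row hb hy hby
  have h6 := congrArg (fun z => φ ⬝ᵥ z) h5
  simp only [dotProduct_add] at h6
  have h7 := hφ x1 h1
  have h8 := hφ x2 h2
  have h9 := hφ x3 h3
  have h10 := hφ x4 h4
  linarith

/-- **Three levels.** -/
theorem Tw.three {A B : Finset (Fin n → ℤ)} (h : Tw A B 0) (hA : Spr A) {φ : Fin n → ℤ}
    (hφ : ∀ x ∈ A, |φ ⬝ᵥ x| ≤ 1) : ∀ x ∈ B, |φ ⬝ᵥ x| ≤ 1 := by
  classical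
  -- it suffices to exclude a point with value two
  suffices hsuf : ∀ b ∈ B, φ ⬝ᵥ b ≠ 2 by
    intro x hx
    have h1 := h.double hA (fun x hx => (abs_le.1 (hφ x hx)).2) hx
    have h2 := h.double hA (fun x hx => (abs_le.1 (hφ x hx)).2) (h.symm.neg hx)
    have h3 := hsuf x hx
    have h4 := hsuf _ (h.symm.neg hx)
    rw [dotProduct_neg] at h2 h4
    rw [abs_le]
    constructor <;> omega
  intro b hb hb2
  have hle : ∀ x ∈ B, φ ⬝ᵥ x ≤ 2 := fun x hx => by
    have := h.double hA (fun x hx => (abs_le.1 (hφ x hx)).2) hx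
    omega
  have hbn : b ≠ 0 := by
    rintro rfl
    rw [dotProduct_zero] at hb2
    omega
  have hAne : A.Nonempty := by
    rw [← card_pos, h.card]
    exact card_pos.2 ⟨b, hb⟩
  have h0A := zero_mem h.hK h.sK hAne
  have h0B := zero_mem h.hL h.sL ⟨b, hb⟩
  -- sums of large value are not primitive
  have hlarge : ∀ x ∈ B, ∀ y ∈ B, 2 < φ ⬝ᵥ (x + y) → ¬ Pr (x + y) := by
    intro x hx y hy hxy hp
    obtain ⟨x', hx', y', hy', h1⟩ := h.symm.sum hx hy hp
    rw [← h1, dotProduct_add] at hxy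
    have h2 := (abs_le.1 (hφ x' hx')).2
    have h3 := (abs_le.1 (hφ y' hy')).2
    omega
  -- points with value one
  have hone : ∀ z ∈ B, φ ⬝ᵥ z = 1 → ∀ b' ∈ B, φ ⬝ᵥ b' = 2 → z + z = b' := by
    intro z hz hz1 b' hb' hb2'
    by_contra hne
    obtain ⟨w, hw, hmin⟩ := Finset.exists_min_image
      (B.filter (fun z => φ ⬝ᵥ z = 1 ∧ z + z ≠ b')) (fun z => ∑ i, |2 * z i - b' i|)
      ⟨z, mem_filter.2 ⟨hz, hz1, hne⟩⟩
    rw [mem_filter] at hw
    obtain ⟨hwB, hw1, hwne⟩ := hw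
    have h3 : φ ⬝ᵥ (b' + w) = 3 := by
      rw [dotProduct_add, hb2', hw1]
      norm_num
    have h4 : b' + w ≠ 0 := by
      intro h
      rw [h, dotProduct_zero] at h3
      omega
    obtain ⟨q, Y, hq, hY⟩ := exists_div (hlarge b' hb' w hwB (by omega)) h4
    have h5 : q * (φ ⬝ᵥ Y) = 3 := by
      rw [← h3, hY, dotProduct_smul, smul_eq_mul]
    have h6 : q ≤ 3 := Int.le_of_dvd (by norm_num) ⟨_, h5.symm⟩
    have h7 : q = 3 := by
      have h8 : q ∣ 3 := ⟨_, h5.symm⟩
      interval_cases q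
      · omega
      · rfl
    subst h7
    have h8 : φ ⬝ᵥ Y = 1 := by omega
    have hYB := h.hL.div h.sL hb' hwB hq hY
    have h9 : ∀ i, 3 * (2 * Y i - b' i) = 2 * w i - b' i := by
      intro i
      have h10 := congrFun hY i
      simp only [Pi.add_apply, Pi.smul_apply, smul_eq_mul] at h10
      linarith
    have h10 : 3 * ∑ i, |2 * Y i - b' i| = ∑ i, |2 * w i - b' i| := by
      rw [Finset.mul_sum]
      refine Finset.sum_congr rfl fun i _ => ?_
      rw [← h9 i, abs_mul]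
      norm_num
    have h11 : Y + Y ≠ b' := by
      intro h
      apply hwne
      funext i
      have h12 := h9 i
      have h13 := congrFun h i
      simp only [Pi.add_apply] at h13 ⊢
      linarith
    have h12 : ∑ i, |2 * w i - b' i| ≤ ∑ i, |2 * Y i - b' i| :=
      hmin Y (mem_filter.2 ⟨hYB, h8, h11⟩)
    have h13 : 0 < ∑ i, |2 * Y i - b' i| := by
      obtain ⟨i, hi⟩ := Function.ne_iff.1 h11
      rw [Pi.add_apply] at hi
      exact Finset.sum_pos' (fun _ _ => abs_nonneg _) ⟨i, mem_univ _, abs_pos.2 (by omega)⟩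
    omega
  -- there is a point with value one in A
  have hA1 : ∃ a ∈ A, φ ⬝ᵥ a = 1 := by
    by_contra hcon
    push Not at hcon
    have h1 : ∀ x ∈ A, φ ⬝ᵥ x ≤ 0 := by
      intro x hx
      have h2 := (abs_le.1 (hφ x hx)).2
      have h3 := hcon x hx
      omega
    have h2 := h.double hA h1 hb
    omega
  obtain ⟨a0, ha0, ha01⟩ := hA1
  -- there is a point with value one in B
  have hB1 : ∃ z ∈ B, φ ⬝ᵥ z = 1 := by
    by_contra hcon
    push Not at hcon
    obtain ⟨x, hx, y, hy, hxy⟩ := h.sum ha0 h0A (Pr.of_dot (φ := φ) (by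
      rw [add_zero, ha01]
      exact isUnit_one))
    have h1 : φ ⬝ᵥ x + φ ⬝ᵥ y = 1 := by
      rw [← dotProduct_add, hxy, add_zero, ha01]
    have h2 := hle x hx
    have h3 := hle y hy
    have h4 := hle _ (h.symm.neg hx)
    have h5 := hle _ (h.symm.neg hy)
    have h6 := hcon x hx
    have h7 := hcon y hy
    have h8 := hcon _ (h.symm.neg hx)
    have h9 := hcon _ (h.symm.neg hy)
    rw [dotProduct_neg] at h4 h5 h8 h9
    omega
  obtain ⟨z, hz, hz1⟩ := hB1
  have hzb := hone z hz hz1 b hb hb2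
  have hB1 : ∀ x ∈ B, φ ⬝ᵥ x = 1 → x = z := by
    intro x hx hx1
    have h1 := hone x hx hx1 b hb hb2
    funext i
    have h2 := congrFun (h1.trans hzb.symm) i
    simp only [Pi.add_apply] at h2
    omega
  have hB2 : ∀ x ∈ B, φ ⬝ᵥ x = 2 → x = b := fun x hx hx2 => (hone z hz hz1 x hx hx2).symm.trans hzb
  -- representations of vectors with value one in B
  have hrB : ∀ s, φ ⬝ᵥ s = 1 → ∀ x ∈ B, s - x ∈ B →
      x = z ∨ x = s - z ∨ (s = z ∧ (x = b ∨ x = -z)) := by
    intro s hs x hx hsx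
    have h1 := hle x hx
    have h2 := hle _ hsx
    have h3 := hle _ (h.symm.neg hx)
    have h4 := hle _ (h.symm.neg hsx)
    have h5 : φ ⬝ᵥ (s - x) = 1 - φ ⬝ᵥ x := by rw [dotProduct_sub, hs]
    rw [dotProduct_neg] at h3 h4
    have h6 : φ ⬝ᵥ x = 1 ∨ φ ⬝ᵥ x = 0 ∨ φ ⬝ᵥ x = 2 ∨ φ ⬝ᵥ x = -1 := by omega
    rcases h6 with h6 | h6 | h6 | h6
    · exact Or.inl (hB1 x hx h6)
    · refine Or.inr (Or.inl ?_)
      have h7 : s - x = z := hB1 _ hsx (by omega)
      rw [← h7]
      abel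
    · refine Or.inr (Or.inr ⟨?_, Or.inl (hB2 x hx h6)⟩)
      have h8 : -(s - x) = z := hB1 _ (h.symm.neg hsx) (by
        rw [dotProduct_neg]
        omega)
      have h9 : s = x - -(s - x) := by abel
      rw [h9, h8, hB2 x hx h6, ← hzb]
      abel
    · have h8 : -x = z := hB1 _ (h.symm.neg hx) (by
        rw [dotProduct_neg]
        omega)
      have h7 : s - x = b := hB2 _ hsx (by omega)
      refine Or.inr (Or.inr ⟨?_, Or.inr ?_⟩)
      · have h9 : s = s - x - -x := by abel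
        rw [h9, h7, h8, ← hzb]
        abel
      · rw [← h8, neg_neg]
  have hrB2 : ∀ s, φ ⬝ᵥ s = 1 → s ≠ z → rp B s ≤ 2 := by
    intro s hs hsz
    refine (card_le_card (t := ({z, s - z} : Finset (Fin n → ℤ))) ?_).trans card_le_two
    intro x hx
    rw [mem_filter] at hx
    rw [mem_insert, mem_singleton]
    rcases hrB s hs x hx.1 hx.2 with h1 | h1 | h1
    · exact Or.inl h1
    · exact Or.inr h1
    · exact absurd h1.1 hsz
  have hrB4 : rp B z ≤ 4 := by
    refine (card_le_card (t := ({z, 0, b, -z} : Finset (Fin n → ℤ))) ?_).trans card_le_four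
    intro x hx
    rw [mem_filter] at hx
    simp only [mem_insert, mem_singleton]
    rcases hrB z hz1 x hx.1 hx.2 with h1 | h1 | h1
    · exact Or.inl h1
    · rw [sub_self] at h1
      exact Or.inr (Or.inl h1)
    · exact Or.inr (Or.inr h1.2)
  have hrB3 : 2 < rp B z := by
    refine two_lt_card.2 ⟨z, ?_, 0, ?_, b, ?_, ?_, ?_, ?_⟩
    · rw [mem_filter, sub_self]
      exact ⟨hz, h0B⟩
    · rw [mem_filter, sub_zero]
      exact ⟨h0B, hz⟩
    · rw [mem_filter, ← hzb]
      refine ⟨by rw [hzb]; exact hb, ?_⟩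
      have h1 : z - (z + z) = -z := by abel
      rw [h1]
      exact h.symm.neg hz
    · rintro rfl
      rw [dotProduct_zero] at hz1
      omega
    · intro h1
      rw [h1] at hz1
      omega
    · exact hbn.symm
  -- representations of vectors with value one in A
  have hrA : ∀ s, φ ⬝ᵥ s = 1 →
      rp A s = 2 * (A.filter (fun x => φ ⬝ᵥ x = 1 ∧ s - x ∈ A)).card := by
    intro s hs
    have h1 : A.filter (fun x => s - x ∈ A) = A.filter (fun x => φ ⬝ᵥ x = 1 ∧ s - x ∈ A) ∪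
        (A.filter (fun x => φ ⬝ᵥ x = 1 ∧ s - x ∈ A)).image (fun x => s - x) := by
      ext x
      rw [mem_union, mem_image, mem_filter, mem_filter]
      constructor
      · rintro ⟨hx, hsx⟩
        have h2 := abs_le.1 (hφ x hx)
        have h3 := abs_le.1 (hφ _ hsx)
        have h4 : φ ⬝ᵥ (s - x) = 1 - φ ⬝ᵥ x := by rw [dotProduct_sub, hs]
        have h5 : φ ⬝ᵥ x = 1 ∨ φ ⬝ᵥ (s - x) = 1 := by omega
        rcases h5 with h5 | h5
        · exact Or.inl ⟨hx, h5, hsx⟩
        · refine Or.inr ⟨s - x, mem_filter.2 ⟨hsx, h5, ?_⟩, by abel⟩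
          rwa [sub_sub_cancel]
      · rintro (h2 | ⟨y, hy, rfl⟩)
        · exact ⟨h2.1, h2.2.2⟩
        · rw [mem_filter] at hy
          refine ⟨hy.2.2, ?_⟩
          rw [sub_sub_cancel]
          exact hy.1
    unfold rp
    rw [h1, card_union_of_disjoint, card_image_of_injective _ sub_right_injective, two_mul]
    rw [disjoint_left]
    intro x hx hx'
    rw [mem_image] at hx'
    obtain ⟨y, hy, hyx⟩ := hx'
    rw [mem_filter] at hx hy
    have h2 : φ ⬝ᵥ x = 0 := by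
      rw [← hyx, dotProduct_sub, hs, hy.2.1]
      norm_num
    have h3 := hx.2.1
    omega
  have h1 : rp A z = rp B z := h.rp_eq (Pr.of_dot (φ := φ) (by rw [hz1]; exact isUnit_one))
  have h2 := hrA z hz1
  obtain ⟨a1, a2, hne, h12⟩ := card_eq_two.1
    (show (A.filter (fun x => φ ⬝ᵥ x = 1 ∧ z - x ∈ A)).card = 2 by omega)
  have h3 : a1 ∈ A.filter (fun x => φ ⬝ᵥ x = 1 ∧ z - x ∈ A) := by
    rw [h12]
    exact mem_insert_self _ _
  have h4 : a2 ∈ A.filter (fun x => φ ⬝ᵥ x = 1 ∧ z - x ∈ A) := by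
    rw [h12]
    exact mem_insert_of_mem (mem_singleton_self _)
  rw [mem_filter] at h3 h4
  obtain ⟨ha1, ha11, hza1⟩ := h3
  obtain ⟨ha2, ha21, hza2⟩ := h4
  have hs' : φ ⬝ᵥ (a1 + a2 - z) = 1 := by
    rw [dotProduct_sub, dotProduct_add, ha11, ha21, hz1]
    norm_num
  have h5 : a1 + a2 - z = z := by
    by_contra hcon
    have h6 := hrB2 _ hs' hcon
    rw [← h.rp_eq (Pr.of_dot (φ := φ) (by rw [hs']; exact isUnit_one)), hrA _ hs'] at h6
    have h7 : 1 < (A.filter (fun x => φ ⬝ᵥ x = 1 ∧ a1 + a2 - z - x ∈ A)).card := by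
      refine one_lt_card.2 ⟨a1, ?_, a2, ?_, hne⟩
      · rw [mem_filter]
        refine ⟨ha1, ha11, ?_⟩
        have h8 := h.neg hza2
        have h9 : -(z - a2) = a1 + a2 - z - a1 := by abel
        rwa [h9] at h8
      · rw [mem_filter]
        refine ⟨ha2, ha21, ?_⟩
        have h8 := h.neg hza1
        have h9 : -(z - a1) = a1 + a2 - z - a2 := by abel
        rwa [h9] at h8
    omega
  have h6 : a1 + a2 = z + z := by
    have h7 : a1 + a2 = (a1 + a2 - z) + z := by abel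
    rw [h7, h5]
  have hzA : z ∈ A := by
    refine h.hK.comb ha1 ha2 (a := 1) (b := 1) (k := 2) (by norm_num) (by norm_num)
      (by norm_num) (by norm_num) ?_
    intro i
    have h8 := congrFun h6 i
    simp only [Pi.add_apply] at h8
    linarith
  have h7 : z ∈ A.filter (fun x => φ ⬝ᵥ x = 1 ∧ z - x ∈ A) := by
    rw [mem_filter, sub_self]
    exact ⟨hzA, hz1, h0A⟩
  rw [h12, mem_insert, mem_singleton] at h7
  apply hne
  rcases h7 with h7 | h7
  · have h8 : a2 = a1 + a2 - a1 := by abel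
    rw [h8, h6, ← h7]
    abel
  · have h8 : a1 = a1 + a2 - a2 := by abel
    rw [h8, h6, ← h7]
    abel

end Pool.Agent.Lib.MP_8cf263_co
end
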