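import Mathlib
import Pool.Agent.Lib.MP_8cf263_co.RsCap
import Pool.Agent.Lib.MP_8cf263_co.Face
import Pool.Agent.Lib.MP_8cf263_co.Row

section

/-!
# One round spot, file RsApx: rational directions

`approx`: let `B ≥ 1`, `B ≥ 3 / ε` be an integer, `A i` the integer nearest to `B l i` for `i ≠ 1`, and
`A 1` an integer `≠ 0` with `|A 1 - B l 1| ≤ 2` (the nearest integer, or `1` if this is `0`).  Put
`P = |A 1| ≥ 1`, `u 0 = P A 0 + 1`, `u i = P A i` for `i ≠ 0`, `t = P B`.  `u 0` is coprime to `P` and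
`u 1 = P A 1 = ± P ^ 2`.  `|u 0 - t l 0| ≤ P / 2 + 1 ≤ 2 P`, `|u i - t l i| ≤ 2 P`, and
`2 P ≤ ε P B = ε t`.
-/

set_option autoImplicit false

namespace Pool.Agent.Lib.MP_8cf263_co

theorem approx {m : ℕ} (l : Fin (m + 2) → ℝ) {ε : ℝ} (hε : 0 < ε) :
    ∃ (u : Fin (m + 2) → ℤ) (t : ℝ), 0 < t ∧ IsCoprime (u 0) (u 1) ∧
      ∀ i, |(u i : ℝ) - t * l i| ≤ ε * t := by
  classical
  obtain ⟨B, hB⟩ := exists_nat_ge (max 1 (3 / ε))
  have hB1 : (1 : ℝ) ≤ B := le_trans (le_max_left _ _) hB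
  have hB3 : 3 ≤ ε * B := by
    have h : 3 / ε ≤ (B : ℝ) := le_trans (le_max_right _ _) hB
    rw [div_le_iff₀ hε] at h
    linarith
  obtain ⟨a, ha0, ha⟩ : ∃ a : ℤ, a ≠ 0 ∧ |(a : ℝ) - B * l 1| ≤ 2 := by
    by_cases h : round ((B : ℝ) * l 1) = 0
    · refine ⟨1, one_ne_zero, ?_⟩
      have h2 := abs_sub_round ((B : ℝ) * l 1)
      rw [h, Int.cast_zero, sub_zero, abs_le] at h2
      rw [Int.cast_one, abs_le]
      constructor <;> linarith [h2.1, h2.2]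
    · refine ⟨_, h, ?_⟩
      have h2 := abs_sub_round ((B : ℝ) * l 1)
      rw [abs_sub_comm] at h2
      linarith
  have hP1 : 1 ≤ |a| := Int.one_le_abs ha0
  have hP1r : (1 : ℝ) ≤ ((|a| : ℤ) : ℝ) := by exact_mod_cast hP1
  have hle : 2 * ((|a| : ℤ) : ℝ) ≤ ε * (((|a| : ℤ) : ℝ) * B) := by nlinarith
  refine ⟨fun i => if i = 0 then |a| * round ((B : ℝ) * l 0) + 1 else
    if i = 1 then |a| * a else |a| * round ((B : ℝ) * l i), ((|a| : ℤ) : ℝ) * B, ?_, ?_, ?_⟩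
  · exact mul_pos (by linarith) (by linarith)
  · have h10 : (1 : Fin (m + 2)) ≠ 0 := by
      intro h
      have := congrArg Fin.val h
      simp at this
    simp only [if_true, h10, if_false]
    have h1 : IsCoprime (|a| * round ((B : ℝ) * l 0) + 1) |a| :=
      ⟨1, -round ((B : ℝ) * l 0), by ring⟩
    refine IsCoprime.mul_right h1 ?_
    rcases abs_choice a with h | h
    · rw [h] at h1 ⊢
      exact h1
    · rw [h] at h1 ⊢
      have h2 := h1.neg_right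
      rwa [neg_neg] at h2
  · intro i
    refine le_trans ?_ hle
    by_cases h0 : i = 0
    · subst h0
      simp only [if_true]
      have h2 := abs_sub_round ((B : ℝ) * l 0)
      rw [abs_sub_comm, abs_le] at h2
      push_cast
      rw [← Int.cast_abs]
      have e : ((|a| : ℤ) : ℝ) * (round ((B : ℝ) * l 0) : ℝ) + 1 - ((|a| : ℤ) : ℝ) * B * l 0 =
          ((|a| : ℤ) : ℝ) * ((round ((B : ℝ) * l 0) : ℝ) - B * l 0) + 1 := by ring
      rw [e, abs_le]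
      constructor <;> nlinarith [h2.1, h2.2]
    · by_cases h1 : i = 1
      · subst h1
        simp only [h0, if_false, if_true]
        rw [abs_le] at ha
        rw [Int.cast_mul]
        have e : ((|a| : ℤ) : ℝ) * (a : ℝ) - ((|a| : ℤ) : ℝ) * B * l 1 =
            ((|a| : ℤ) : ℝ) * ((a : ℝ) - B * l 1) := by ring
        rw [e, abs_le]
        constructor <;> nlinarith [ha.1, ha.2]
      · simp only [h0, h1, if_false]
        have h2 := abs_sub_round ((B : ℝ) * l i)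
        rw [abs_sub_comm, abs_le] at h2
        rw [Int.cast_mul]
        have e : ((|a| : ℤ) : ℝ) * (round ((B : ℝ) * l i) : ℝ) - ((|a| : ℤ) : ℝ) * B * l i =
            ((|a| : ℤ) : ℝ) * ((round ((B : ℝ) * l i) : ℝ) - B * l i) := by ring
        rw [e, abs_le]
        constructor <;> nlinarith [h2.1, h2.2]

end Pool.Agent.Lib.MP_8cf263_co
end

section

/-!
# Round sets, file RdPl: the function of two variables attached to a level and a frame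

`pl Φ F a γ t = Φ (a + γ w + t e)`.

`pl_int`: for integers `γ`, `t` this is `Φ (em (a + γ • w + t • e))`.

`pl_SD2`: if `h : SDn Φ μ M`, `0 ≤ μ`, `0 ≤ M`, all entries of `F` are at most `Q` in absolute value and
`1 ≤ Q`, then `pl Φ F a` satisfies `SD2` with constants `μ / (4 Q ^ 2)` and `4 Q ^ 2 M`.
Proof.  For `v = u₁ • em w + u₂ • em e` only the coordinates `iu m`, `iv m` can be non-zero and are
`y₁ = u₁ p₁ + u₂ q₁`, `y₂ = u₁ p₂ + u₂ q₂`, so `v ⬝ᵥ v = y₁ ^ 2 + y₂ ^ 2`.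
`y₁ ^ 2 ≤ 2 (u₁ ^ 2 p₁ ^ 2 + u₂ ^ 2 q₁ ^ 2) ≤ 2 Q ^ 2 (u₁ ^ 2 + u₂ ^ 2)`, similarly `y₂ ^ 2`, so
`v ⬝ᵥ v ≤ 4 Q ^ 2 (u₁ ^ 2 + u₂ ^ 2)`.  Conversely `u₁ = ep (y₁ q₂ - y₂ q₁)` and
`u₂ = ep (y₂ p₁ - y₁ p₂)` by `F.det`, so `u₁ ^ 2 ≤ 2 Q ^ 2 (y₁ ^ 2 + y₂ ^ 2)`, similarly `u₂ ^ 2`, and
`u₁ ^ 2 + u₂ ^ 2 ≤ 4 Q ^ 2 (v ⬝ᵥ v)`.  Insert this in `h.lo (a + x w + y e) v` and `h.up ...`.

`pl_ge`: `mg Φ m (em a) ≤ pl Φ F a γ t` (`mg_self`: `w`, `e` vanish in the coordinates below `m`).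
`pl_near`: for `0 < ε` there are `γ`, `t` with `pl Φ F a γ t < mg Φ m (em a) + ε`.
Proof: `mg_near` gives `y` which agrees with `em a` below `m` and `Φ y < mg Φ m (em a) + ε`; put
`d = y - em a`, `γ = ep (d (iu m) q₂ - d (iv m) q₁)`, `t = ep (d (iv m) p₁ - d (iu m) p₂)`; then
`em a + γ • em w + t • em e = y`.
`pl_cm_ge`, `pl_cm_near`: the same for the column minima `cm (pl Φ F a)`.
-/

set_option autoImplicit false

namespace Pool.Agent.Lib.MP_8cf263_co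

/-- the function of two variables attached to a level and a frame -/
noncomputable def pl {m : ℕ} (Φ : (Fin (m + 2) → ℝ) → ℝ) (F : Fr) (a : Fin (m + 2) → ℤ) (γ t : ℝ) : ℝ :=
  Φ (em a + γ • em (F.w m) + t • em (F.e m))

variable {m : ℕ} {Φ : (Fin (m + 2) → ℝ) → ℝ} {μ M b T : ℝ}

private theorem iv_ne_iu' (m : ℕ) : iv m ≠ iu m := by
  intro h
  have := congrArg Fin.val h
  simp [iv, iu] at this

private theorem w_iu' (F : Fr) (m : ℕ) : F.w m (iu m) = F.p1 := by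
  simp [Fr.w, (iv_ne_iu' m).symm]

private theorem w_iv' (F : Fr) (m : ℕ) : F.w m (iv m) = F.p2 := by
  simp [Fr.w, iv_ne_iu' m]

private theorem e_iu' (F : Fr) (m : ℕ) : F.e m (iu m) = F.q1 := by
  simp [Fr.e, (iv_ne_iu' m).symm]

private theorem e_iv' (F : Fr) (m : ℕ) : F.e m (iv m) = F.q2 := by
  simp [Fr.e, iv_ne_iu' m]

private theorem low_or' {m : ℕ} (i : Fin (m + 2)) : i.1 < m ∨ i = iu m ∨ i = iv m := by
  have := i.2
  rcases Nat.lt_or_ge i.1 m with h | h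
  · exact Or.inl h
  · rcases Nat.eq_or_lt_of_le h with h1 | h1
    · exact Or.inr (Or.inl (Fin.ext h1.symm))
    · exact Or.inr (Or.inr (Fin.ext (by simp [iv]; omega)))

private theorem dot_two {m : ℕ} (v : Fin (m + 2) → ℝ)
    (hv : ∀ i : Fin (m + 2), i.1 < m → v i = 0) : v ⬝ᵥ v = v (iu m) ^ 2 + v (iv m) ^ 2 := by
  unfold dotProduct
  rw [Fin.sum_univ_castSucc, Fin.sum_univ_castSucc]
  have h1 : ∀ i : Fin m, v i.castSucc.castSucc * v i.castSucc.castSucc = 0 := fun i => by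
    rw [hv _ (by simp), mul_zero]
  have h2 : (Fin.last m).castSucc = iu m := rfl
  have h3 : Fin.last (m + 1) = iv m := rfl
  simp only [h1, Finset.sum_const_zero, h2, h3]
  ring

private theorem em_zero_low {m : ℕ} (F : Fr) {i : Fin (m + 2)} (hi : i.1 < m) :
    em (F.w m) i = 0 ∧ em (F.e m) i = 0 := by
  simp [em, F.low_w hi, F.low_e hi]

private theorem det_real (F : Fr) :
    (F.ep : ℝ) * ((F.p1 : ℝ) * F.q2 - F.p2 * F.q1) = 1 := by
  have := F.det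
  exact_mod_cast this

private theorem ep_sq (F : Fr) : (F.ep : ℝ) ^ 2 = 1 := by
  rcases F.hep with h | h <;> simp [h]

private theorem sq_bd {p : ℤ} {Q : ℕ} (h : |p| ≤ (Q : ℤ)) : (p : ℝ) ^ 2 ≤ (Q : ℝ) ^ 2 := by
  have h1 : |(p : ℝ)| ≤ (Q : ℝ) := by
    have : ((|p| : ℤ) : ℝ) ≤ ((Q : ℤ) : ℝ) := by exact_mod_cast h
    simpa using this
  have h2 := pow_le_pow_left₀ (abs_nonneg _) h1 2
  rwa [sq_abs] at h2

private theorem cs (a b c d : ℝ) : (a * c + b * d) ^ 2 ≤ (a ^ 2 + b ^ 2) * (c ^ 2 + d ^ 2) := by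
  nlinarith [sq_nonneg (a * d - b * c)]

private theorem dot_bds (F : Fr) {Q : ℕ} (hQ : F.Le Q) (m : ℕ) (u v : ℝ) :
    (u • em (F.w m) + v • em (F.e m)) ⬝ᵥ (u • em (F.w m) + v • em (F.e m)) ≤
      4 * (Q : ℝ) ^ 2 * (u ^ 2 + v ^ 2) ∧
    u ^ 2 + v ^ 2 ≤ 4 * (Q : ℝ) ^ 2 *
      ((u • em (F.w m) + v • em (F.e m)) ⬝ᵥ (u • em (F.w m) + v • em (F.e m))) := by
  obtain ⟨h1, h2, h3, h4⟩ := hQ
  have b1 := sq_bd h1
  have b2 := sq_bd h2
  have b3 := sq_bd h3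
  have b4 := sq_bd h4
  rw [dot_two _ (fun i hi => by
    simp [(em_zero_low F hi).1, (em_zero_low F hi).2])]
  have e1 : (u • em (F.w m) + v • em (F.e m)) (iu m) = u * F.p1 + v * F.q1 := by
    simp [em, w_iu', e_iu']
  have e2 : (u • em (F.w m) + v • em (F.e m)) (iv m) = u * F.p2 + v * F.q2 := by
    simp [em, w_iv', e_iv']
  rw [e1, e2]
  have hd := det_real F
  have he := ep_sq F
  have hs : 0 ≤ u ^ 2 + v ^ 2 := by positivity
  refine ⟨?_, ?_⟩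
  · have c1 := cs u v F.p1 F.q1
    have c2 := cs u v F.p2 F.q2
    have d1 : (u ^ 2 + v ^ 2) * ((F.p1 : ℝ) ^ 2 + (F.q1 : ℝ) ^ 2) ≤
        (u ^ 2 + v ^ 2) * (2 * (Q : ℝ) ^ 2) :=
      mul_le_mul_of_nonneg_left (by linarith) hs
    have d2 : (u ^ 2 + v ^ 2) * ((F.p2 : ℝ) ^ 2 + (F.q2 : ℝ) ^ 2) ≤
        (u ^ 2 + v ^ 2) * (2 * (Q : ℝ) ^ 2) :=
      mul_le_mul_of_nonneg_left (by linarith) hs
    linarith
  · obtain ⟨y₁, hy1⟩ : ∃ y₁ : ℝ, y₁ = u * F.p1 + v * F.q1 := ⟨_, rfl⟩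
    obtain ⟨y₂, hy2⟩ : ∃ y₂ : ℝ, y₂ = u * F.p2 + v * F.q2 := ⟨_, rfl⟩
    rw [← hy1, ← hy2]
    have k1 : u = F.ep * (y₁ * F.q2 + y₂ * (-F.q1)) := by
      rw [hy1, hy2]
      linear_combination (-u) * hd
    have k2 : v = F.ep * (y₁ * (-F.p2) + y₂ * F.p1) := by
      rw [hy1, hy2]
      linear_combination (-v) * hd
    have k3 : u ^ 2 = (y₁ * F.q2 + y₂ * (-F.q1)) ^ 2 := by
      rw [k1, mul_pow, he, one_mul]
    have k4 : v ^ 2 = (y₁ * (-F.p2) + y₂ * F.p1) ^ 2 := by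
      rw [k2, mul_pow, he, one_mul]
    have c1 := cs y₁ y₂ F.q2 (-F.q1)
    have c2 := cs y₁ y₂ (-F.p2) F.p1
    have hs2 : 0 ≤ y₁ ^ 2 + y₂ ^ 2 := by positivity
    have d1 : (y₁ ^ 2 + y₂ ^ 2) * ((F.q2 : ℝ) ^ 2 + (-(F.q1 : ℝ)) ^ 2) ≤
        (y₁ ^ 2 + y₂ ^ 2) * (2 * (Q : ℝ) ^ 2) :=
      mul_le_mul_of_nonneg_left (by rw [neg_sq]; linarith) hs2
    have d2 : (y₁ ^ 2 + y₂ ^ 2) * ((-(F.p2 : ℝ)) ^ 2 + (F.p1 : ℝ) ^ 2) ≤
        (y₁ ^ 2 + y₂ ^ 2) * (2 * (Q : ℝ) ^ 2) :=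
      mul_le_mul_of_nonneg_left (by rw [neg_sq]; linarith) hs2
    rw [k3, k4]
    linarith

theorem pl_int (F : Fr) (a : Fin (m + 2) → ℤ) (γ t : ℤ) :
    pl Φ F a γ t = Φ (em (a + γ • F.w m + t • F.e m)) := by
  unfold pl
  rw [em_add, em_add, em_smul_int, em_smul_int]

theorem pl_SD2 (h : SDn Φ μ M) (hμ : 0 ≤ μ) (hM : 0 ≤ M) {F : Fr} {Q : ℕ} (hQ : F.Le Q)
    (hQ1 : 1 ≤ Q) (a : Fin (m + 2) → ℤ) :
    SD2 (pl Φ F a) (μ / (4 * (Q : ℝ) ^ 2)) (4 * (Q : ℝ) ^ 2 * M) := by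
  have hQp : (0 : ℝ) < 4 * (Q : ℝ) ^ 2 := by
    have : (1 : ℝ) ≤ Q := by exact_mod_cast hQ1
    positivity
  have key : ∀ x y u v : ℝ,
      pl Φ F a (x + u) (y + v) =
        Φ ((em a + x • em (F.w m) + y • em (F.e m)) + (u • em (F.w m) + v • em (F.e m))) ∧
      pl Φ F a (x - u) (y - v) =
        Φ ((em a + x • em (F.w m) + y • em (F.e m)) - (u • em (F.w m) + v • em (F.e m))) := by
    intro x y u v
    unfold pl
    constructor
    · congr 1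
      module
    · congr 1
      module
  refine ⟨fun x y u v => ?_, fun x y u v => ?_⟩
  · rw [(key x y u v).1, (key x y u v).2]
    have h1 := h.lo (em a + x • em (F.w m) + y • em (F.e m)) (u • em (F.w m) + v • em (F.e m))
    refine le_trans ?_ h1
    have h2 := (dot_bds F hQ m u v).2
    have h3 : 2 * μ * (u ^ 2 + v ^ 2) ≤ 2 * μ * (4 * (Q : ℝ) ^ 2 *
      ((u • em (F.w m) + v • em (F.e m)) ⬝ᵥ (u • em (F.w m) + v • em (F.e m)))) :=
      mul_le_mul_of_nonneg_left h2 (by linarith)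
    have h4 : 2 * (μ / (4 * (Q : ℝ) ^ 2)) * (u ^ 2 + v ^ 2) =
        (2 * μ * (u ^ 2 + v ^ 2)) / (4 * (Q : ℝ) ^ 2) := by
      ring
    rw [h4, div_le_iff₀ hQp]
    linarith
  · rw [(key x y u v).1, (key x y u v).2]
    have h1 := h.up (em a + x • em (F.w m) + y • em (F.e m)) (u • em (F.w m) + v • em (F.e m))
    refine le_trans h1 ?_
    have h2 := (dot_bds F hQ m u v).1
    have h3 : 2 * M * ((u • em (F.w m) + v • em (F.e m)) ⬝ᵥ (u • em (F.w m) + v • em (F.e m))) ≤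
      2 * M * (4 * (Q : ℝ) ^ 2 * (u ^ 2 + v ^ 2)) :=
      mul_le_mul_of_nonneg_left h2 (by linarith)
    linarith

theorem pl_ge (hb : ∀ x, b ≤ Φ x) (F : Fr) (a : Fin (m + 2) → ℤ) (γ t : ℝ) :
    mg Φ m (em a) ≤ pl Φ F a γ t := by
  unfold pl
  refine mg_self hb fun i hi => ?_
  simp [(em_zero_low F hi).1, (em_zero_low F hi).2]

theorem pl_near (F : Fr) (a : Fin (m + 2) → ℤ) {ε : ℝ} (hε : 0 < ε) :
    ∃ γ t, pl Φ F a γ t < mg Φ m (em a) + ε := by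
  obtain ⟨y, hy1, hy2⟩ := mg_near (Φ := Φ) m (em a) hε
  refine ⟨F.ep * ((y - em a) (iu m) * F.q2 - (y - em a) (iv m) * F.q1),
    F.ep * ((y - em a) (iv m) * F.p1 - (y - em a) (iu m) * F.p2), ?_⟩
  have hd := det_real F
  have : em a + ((F.ep : ℝ) * ((y - em a) (iu m) * F.q2 - (y - em a) (iv m) * F.q1)) • em (F.w m) +
      ((F.ep : ℝ) * ((y - em a) (iv m) * F.p1 - (y - em a) (iu m) * F.p2)) • em (F.e m) = y := by
    funext i
    rcases low_or' i with hi | rfl | rfl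
    · simp [(em_zero_low F hi).1, (em_zero_low F hi).2, hy1 i hi]
    · simp only [Pi.add_apply, Pi.sub_apply, Pi.smul_apply, smul_eq_mul, em, w_iu', e_iu']
      linear_combination (y (iu m) - (a (iu m) : ℝ)) * hd
    · simp only [Pi.add_apply, Pi.sub_apply, Pi.smul_apply, smul_eq_mul, em, w_iv', e_iv']
      linear_combination (y (iv m) - (a (iv m) : ℝ)) * hd
  unfold pl
  rw [this]
  exact hy2

theorem pl_cm_ge (hb : ∀ x, b ≤ Φ x) (F : Fr) (a : Fin (m + 2) → ℤ) (γ : ℝ) :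
    mg Φ m (em a) ≤ cm (pl Φ F a) γ :=
  le_cm fun t => pl_ge hb F a γ t

theorem pl_cm_near (hb : ∀ x, b ≤ Φ x) (F : Fr) (a : Fin (m + 2) → ℤ) {ε : ℝ} (hε : 0 < ε) :
    ∃ γ, cm (pl Φ F a) γ < mg Φ m (em a) + ε := by
  obtain ⟨γ, t, h⟩ := pl_near (Φ := Φ) F a hε
  exact ⟨γ, lt_of_le_of_lt (cm_le (b := b) (fun x y => hb _) γ t) h⟩

end Pool.Agent.Lib.MP_8cf263_co
end

section

/-!
# One round spot, file RsDirA: a rational direction at the round spot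

`round_pt`.  The nonempty open set `U` contains a point `p ≠ 0` (a nonempty open subset of `ℝ ^ (m + 2)`
is not `{0}`), so `0 < N p`; let `t = (N p)⁻¹`, `q = t • p`, so `N q = 1`.  For a small `r > 0` all
points `p'` with `|p' - p| ≤ t⁻¹ (4 r)` (Euclidean) are in `U`.  `N (t • x) = t N x`, so the
inequalities for `x`, `y` at `U` give those for `t • x`, `t • y`; if `x, x ± y ∈ Bl q (4 r)` then
`t⁻¹ • x, t⁻¹ • (x ± y) ∈ U`.

`dir`.  Let `N q₁ = 1` and `Pin (N ^ 2) q₁ (4 r) μ M`, `0 < r`, `0 < μ`.  Let `l` be a support functional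
(`Nrm.supp`): `l ⬝ᵥ q₁ = 1`, `l ⬝ᵥ x ≤ N x`.
(1) `1 + 2 (l ⬝ᵥ x - 1) + μ |x - q₁| ^ 2 ≤ N x ^ 2` for `x ∈ Bl q₁ (3 r)`: `quad` (RsHalve) with the
subgradient `p = 2 • l` of `N ^ 2` at `q₁` (`N z ^ 2 ≥ 1 + 2 (l ⬝ᵥ z - 1)`: `N z ^ 2 - 2 N z + 1 ≥ 0`).
(2) If `N x ≤ 1` and `1 - δ ≤ l ⬝ᵥ x` with `δ = μ r ^ 2 / 4` then `x ∈ Bl q₁ r`: otherwise let
`t = r / |x - q₁| < 1`, `x' = q₁ + t (x - q₁)`; `N x' ≤ 1`, `|x' - q₁| = r`,
`l ⬝ᵥ x' ≥ 1 - t δ ≥ 1 - δ` and (1) gives `1 ≥ 1 - 2 δ + μ r ^ 2 > 1`, a contradiction.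
(3) By `Nrm.equiv` `|x i| ≤ a⁻¹` for all `x` with `N x ≤ 1`.  Let `ε > 0` be so small that
`ε (m + 2) (2 a⁻¹) ≤ δ`, and let `u`, `t` be as in `approx` for `l`, `ε`.  The set `{N x ≤ 1}` is compact
(closed by `Nrm.cont`, bounded) and nonempty; let `q₀` be a maximum of `x ↦ em u ⬝ᵥ x` on it.
`em u ⬝ᵥ q₁ ≤ em u ⬝ᵥ q₀` and `|em u i - t l i| ≤ ε t` give
`t (l ⬝ᵥ q₁) ≤ t (l ⬝ᵥ q₀) + ε t ∑ |q₀ i - q₁ i| ≤ t (l ⬝ᵥ q₀) + ε t (m + 2) (2 a⁻¹)`, so
`1 - δ ≤ l ⬝ᵥ q₀` and `q₀ ∈ Bl q₁ r` by (2).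
(4) `0 < em u ⬝ᵥ q₀`: `u ≠ 0` (`u 0`, `u 1` are coprime), so some `i` has `u i ≠ 0`, and
`± (N e_i)⁻¹ e_i` is in the unit ball.  For `x ≠ 0` the vector `(N x)⁻¹ • x` is in the unit ball, so
`em u ⬝ᵥ x ≤ (em u ⬝ᵥ q₀) N x`.  For `x = q₀`: `N q₀ ≥ 1`, so `N q₀ = 1`.
-/

set_option autoImplicit false

namespace Pool.Agent.Lib.MP_8cf263_co

variable {m : ℕ} {N : (Fin (m + 2) → ℝ) → ℝ} {μ M : ℝ}

private theorem bl_sup {n : ℕ} {q x : Fin n → ℝ} {ρ : ℝ} (hρ : 0 ≤ ρ) (h : Bl q ρ x) :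
    ‖x - q‖ ≤ ρ := by
  rw [pi_norm_le_iff_of_nonneg hρ]
  intro i
  rw [Real.norm_eq_abs]
  refine abs_le_of_sq_le_sq ?_ hρ
  refine le_trans ?_ h
  have : (x - q) ⬝ᵥ (x - q) = ∑ j, (x - q) j * (x - q) j := rfl
  rw [this, sq]
  exact Finset.single_le_sum (f := fun j => (x - q) j * (x - q) j)
    (fun j _ => mul_self_nonneg _) (Finset.mem_univ i)

theorem round_pt (hN : Nrm N) {U : Set (Fin (m + 2) → ℝ)} (hU : IsOpen U) (hne : U.Nonempty)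
    (hp : ∀ x y, x ∈ U → x + y ∈ U → x - y ∈ U →
      2 * μ * (y ⬝ᵥ y) ≤ N (x + y) ^ 2 + N (x - y) ^ 2 - 2 * N x ^ 2 ∧
      N (x + y) ^ 2 + N (x - y) ^ 2 - 2 * N x ^ 2 ≤ 2 * M * (y ⬝ᵥ y)) :
    ∃ (q : Fin (m + 2) → ℝ) (r : ℝ), 0 < r ∧ N q = 1 ∧ Pin (fun x => N x ^ 2) q (4 * r) μ M := by
  obtain ⟨p, hpU, hp0⟩ : ∃ p ∈ U, p ≠ 0 := by
    obtain ⟨p₀, hp₀⟩ := hne
    by_cases h0 : p₀ = 0
    · subst h0
      obtain ⟨ε, hε, hb⟩ := Metric.isOpen_iff.1 hU 0 hp₀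
      refine ⟨Pi.single 0 (ε / 2), hb ?_, ?_⟩
      · rw [mem_ball_zero_iff, Pi.norm_single, Real.norm_eq_abs, abs_of_pos (by linarith)]
        linarith
      · intro h
        have := congrFun h 0
        rw [Pi.single_eq_same, Pi.zero_apply] at this
        linarith
    · exact ⟨p₀, hp₀, h0⟩
  obtain ⟨ε, hε, hb⟩ := Metric.isOpen_iff.1 hU p hpU
  have hNp : 0 < N p := lt_of_le_of_ne (hN.nn p) fun h => hp0 (hN.z p h.symm)
  have ht : 0 < (N p)⁻¹ := inv_pos.2 hNp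
  have key : ∀ z, Bl ((N p)⁻¹ • p) (4 * ((N p)⁻¹ * (ε / 2) / 4)) z → N p • z ∈ U := by
    intro z hz
    refine hb ?_
    have h1 : Bl p (ε / 2) (N p • z) := by
      unfold Bl at hz ⊢
      have e : N p • z - p = N p • (z - (N p)⁻¹ • p) := by
        rw [smul_sub, smul_smul, mul_inv_cancel₀ hNp.ne', one_smul]
      rw [e, smul_dotProduct, dotProduct_smul, smul_eq_mul, smul_eq_mul]
      have h2 := mul_le_mul_of_nonneg_left hz (mul_pos hNp hNp).le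
      have h3 : N p * N p * (4 * ((N p)⁻¹ * (ε / 2) / 4)) ^ 2 = (ε / 2) ^ 2 := by
        field_simp
      nlinarith
    have h2 := bl_sup (by linarith : 0 ≤ ε / 2) h1
    rw [mem_ball_iff_norm]
    linarith
  have hsq : ∀ z, N (N p • z) ^ 2 = N p ^ 2 * N z ^ 2 := by
    intro z
    rw [hN.sm, abs_of_pos hNp, mul_pow]
  have hboth : ∀ x y, Bl ((N p)⁻¹ • p) (4 * ((N p)⁻¹ * (ε / 2) / 4)) x →
      Bl ((N p)⁻¹ • p) (4 * ((N p)⁻¹ * (ε / 2) / 4)) (x + y) →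
      Bl ((N p)⁻¹ • p) (4 * ((N p)⁻¹ * (ε / 2) / 4)) (x - y) →
      2 * μ * (y ⬝ᵥ y) ≤ N (x + y) ^ 2 + N (x - y) ^ 2 - 2 * N x ^ 2 ∧
      N (x + y) ^ 2 + N (x - y) ^ 2 - 2 * N x ^ 2 ≤ 2 * M * (y ⬝ᵥ y) := by
    intro x y h1 h2 h3
    have h2' := key _ h2
    have h3' := key _ h3
    rw [smul_add] at h2'
    rw [smul_sub] at h3'
    obtain ⟨g1, g2⟩ := hp _ _ (key _ h1) h2' h3'
    rw [← smul_add, ← smul_sub, hsq, hsq, hsq, smul_dotProduct, dotProduct_smul, smul_eq_mul,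
      smul_eq_mul] at g1 g2
    have hpp : 0 < N p ^ 2 := by positivity
    constructor
    · refine le_of_mul_le_mul_left ?_ hpp
      nlinarith
    · refine le_of_mul_le_mul_left ?_ hpp
      nlinarith
  refine ⟨(N p)⁻¹ • p, (N p)⁻¹ * (ε / 2) / 4, by positivity, ?_, ?_⟩
  · rw [hN.sm, abs_of_pos ht, inv_mul_cancel₀ hNp.ne']
  · exact ⟨fun x y h1 h2 h3 => (hboth x y h1 h2 h3).1, fun x y h1 h2 h3 => (hboth x y h1 h2 h3).2⟩

private theorem strong1 (hN : Nrm N) {q₁ l : Fin (m + 2) → ℝ} {r : ℝ} (hr : 0 < r)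
    (h1 : N q₁ = 1) (hp : Pin (fun x => N x ^ 2) q₁ (4 * r) μ M) (hl1 : l ⬝ᵥ q₁ = 1)
    (hl : ∀ x, l ⬝ᵥ x ≤ N x) {x : Fin (m + 2) → ℝ} (hx : Bl q₁ (3 * r) x) :
    1 + 2 * (l ⬝ᵥ x - 1) + μ * ((x - q₁) ⬝ᵥ (x - q₁)) ≤ N x ^ 2 := by
  have hq : Bl q₁ (3 * r) q₁ := by
    unfold Bl
    rw [sub_self, zero_dotProduct]
    positivity
  have h2 := (quad hr hp hx hq (p := (2 : ℝ) • l) (by
    intro z
    show N q₁ ^ 2 + ((2 : ℝ) • l) ⬝ᵥ (z - q₁) ≤ N z ^ 2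
    rw [smul_dotProduct, dotProduct_sub, hl1, h1, smul_eq_mul]
    have h3 := hl z
    nlinarith [sq_nonneg (N z - 1)])).1
  have h3 : N q₁ ^ 2 + ((2 : ℝ) • l) ⬝ᵥ (x - q₁) + μ * ((x - q₁) ⬝ᵥ (x - q₁)) ≤ N x ^ 2 := h2
  rw [smul_dotProduct, dotProduct_sub, hl1, h1, smul_eq_mul] at h3
  linarith

private theorem cap1 (hN : Nrm N) {q₁ l : Fin (m + 2) → ℝ} {r : ℝ} (hr : 0 < r) (hμ : 0 < μ)
    (h1 : N q₁ = 1) (hp : Pin (fun x => N x ^ 2) q₁ (4 * r) μ M) (hl1 : l ⬝ᵥ q₁ = 1)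
    (hl : ∀ x, l ⬝ᵥ x ≤ N x) {x : Fin (m + 2) → ℝ} (hx : N x ≤ 1)
    (hlx : 1 - μ * r ^ 2 / 4 ≤ l ⬝ᵥ x) : Bl q₁ r x := by
  by_contra hcon
  unfold Bl at hcon
  rw [not_le] at hcon
  have hD0 : 0 < (x - q₁) ⬝ᵥ (x - q₁) := lt_trans (by positivity) hcon
  obtain ⟨D, hD, hDD⟩ : ∃ D : ℝ, 0 < D ∧ D ^ 2 = (x - q₁) ⬝ᵥ (x - q₁) :=
    ⟨Real.sqrt ((x - q₁) ⬝ᵥ (x - q₁)), Real.sqrt_pos.2 hD0, Real.sq_sqrt hD0.le⟩
  rw [← hDD] at hcon
  have hrD : r < D := lt_of_pow_lt_pow_left₀ 2 hD.le hcon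
  have ht0 : 0 < r / D := div_pos hr hD
  have ht1 : r / D < 1 := (div_lt_one hD).2 hrD
  obtain ⟨t, htt⟩ : ∃ t, t = r / D := ⟨_, rfl⟩
  rw [← htt] at ht0 ht1
  have htD : t * D = r := by
    rw [htt]
    field_simp
  have hx' : N (q₁ + t • (x - q₁)) ≤ 1 := by
    have e : q₁ + t • (x - q₁) = (1 - t) • q₁ + t • x := by
      ext i
      simp only [Pi.sub_apply, Pi.add_apply, Pi.smul_apply, smul_eq_mul]
      ring
    rw [e]
    refine (hN.tri _ _).trans ?_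
    rw [hN.sm, hN.sm, abs_of_pos ht0, abs_of_pos (sub_pos.2 ht1), h1]
    nlinarith
  have e2 : (q₁ + t • (x - q₁) - q₁) ⬝ᵥ (q₁ + t • (x - q₁) - q₁) = r ^ 2 := by
    rw [add_sub_cancel_left, smul_dotProduct, dotProduct_smul, smul_eq_mul, smul_eq_mul, ← hDD,
      ← htD]
    ring
  have hb : Bl q₁ (3 * r) (q₁ + t • (x - q₁)) := by
    unfold Bl
    rw [e2]
    nlinarith [sq_nonneg r]
  have h3 := strong1 hN hr h1 hp hl1 hl hb
  rw [e2, dotProduct_add, dotProduct_smul, dotProduct_sub, hl1, smul_eq_mul] at h3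
  have h4 : N (q₁ + t • (x - q₁)) ^ 2 ≤ 1 := pow_le_one₀ (hN.nn _) hx'
  have h5 : l ⬝ᵥ x ≤ 1 := (hl x).trans hx
  have h6 : 0 < μ * r ^ 2 := by positivity
  nlinarith

theorem dir (hN : Nrm N) {q₁ : Fin (m + 2) → ℝ} {r : ℝ} (hr : 0 < r) (hμ : 0 < μ)
    (h1 : N q₁ = 1) (hp : Pin (fun x => N x ^ 2) q₁ (4 * r) μ M) :
    ∃ (u : Fin (m + 2) → ℤ) (q₀ : Fin (m + 2) → ℝ), IsCoprime (u 0) (u 1) ∧ N q₀ = 1 ∧
      (∀ x, em u ⬝ᵥ x ≤ (em u ⬝ᵥ q₀) * N x) ∧ Bl q₁ r q₀ := by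
  obtain ⟨l, hl1, hl⟩ := hN.supp q₁
  rw [h1] at hl1
  obtain ⟨a, b, ha, -, hab, -⟩ := hN.equiv
  have hδ : 0 < μ * r ^ 2 / 4 := by positivity
  obtain ⟨δ, hδe⟩ : ∃ δ, δ = μ * r ^ 2 / 4 := ⟨_, rfl⟩
  rw [← hδe] at hδ
  have hm : (0 : ℝ) < (m : ℝ) + 2 := by positivity
  obtain ⟨ε, hεe⟩ : ∃ ε, ε = δ * a / (2 * ((m : ℝ) + 2)) := ⟨_, rfl⟩
  have hε : 0 < ε := by
    rw [hεe]
    positivity
  obtain ⟨u, t, ht, hcop, hut⟩ := approx l hε
  have hcoord : ∀ x : Fin (m + 2) → ℝ, N x ≤ 1 → ∀ i, |x i| ≤ a⁻¹ := by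
    intro x hx i
    rw [← one_div, le_div_iff₀ ha, mul_comm]
    exact (hab x i).trans hx
  have hcomp : IsCompact {x : Fin (m + 2) → ℝ | N x ≤ 1} := by
    refine Metric.isCompact_of_isClosed_isBounded (isClosed_le hN.cont continuous_const) ?_
    refine (Metric.isBounded_closedBall (x := (0 : Fin (m + 2) → ℝ)) (r := a⁻¹)).subset ?_
    intro x hx
    rw [mem_closedBall_zero_iff, pi_norm_le_iff_of_nonneg (inv_pos.2 ha).le]
    intro i
    rw [Real.norm_eq_abs]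
    exact hcoord x hx i
  have hcont : Continuous fun x : Fin (m + 2) → ℝ => em u ⬝ᵥ x := by
    unfold dotProduct
    fun_prop
  obtain ⟨q₀, hq₀, hmax⟩ := hcomp.exists_isMaxOn ⟨q₁, h1.le⟩ hcont.continuousOn
  have hmax' : ∀ x, N x ≤ 1 → em u ⬝ᵥ x ≤ em u ⬝ᵥ q₀ := fun x hx => hmax hx
  have hq₀' : N q₀ ≤ 1 := hq₀
  have hlq : 1 - δ ≤ l ⬝ᵥ q₀ := by
    have h2 := hmax' q₁ h1.le
    have h3 : ∀ i, (em u i - t * l i) * (q₀ i - q₁ i) ≤ ε * t * (2 * a⁻¹) := by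
      intro i
      have g1 : |em u i - t * l i| ≤ ε * t := hut i
      have g2 : |q₀ i - q₁ i| ≤ 2 * a⁻¹ := by
        have g3 := hcoord q₀ hq₀' i
        have g4 := hcoord q₁ h1.le i
        rw [abs_le] at g3 g4 ⊢
        constructor <;> linarith [g3.1, g3.2, g4.1, g4.2]
      calc (em u i - t * l i) * (q₀ i - q₁ i) ≤ |(em u i - t * l i) * (q₀ i - q₁ i)| :=
            le_abs_self _
        _ = |em u i - t * l i| * |q₀ i - q₁ i| := abs_mul _ _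
        _ ≤ ε * t * (2 * a⁻¹) := mul_le_mul g1 g2 (abs_nonneg _) (by positivity)
    have h4 : ∑ i, (em u i - t * l i) * (q₀ i - q₁ i) ≤ ((m : ℝ) + 2) * (ε * t * (2 * a⁻¹)) := by
      refine (Finset.sum_le_sum fun i _ => h3 i).trans ?_
      rw [Finset.sum_const, Finset.card_univ, Fintype.card_fin, nsmul_eq_mul]
      push_cast
      exact le_refl _
    have h5 : ∑ i, (em u i - t * l i) * (q₀ i - q₁ i) =
        em u ⬝ᵥ q₀ - em u ⬝ᵥ q₁ - t * (l ⬝ᵥ q₀ - l ⬝ᵥ q₁) := by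
      unfold dotProduct
      rw [← Finset.sum_sub_distrib, ← Finset.sum_sub_distrib, Finset.mul_sum,
        ← Finset.sum_sub_distrib]
      refine Finset.sum_congr rfl fun i _ => ?_
      ring
    have h6 : ((m : ℝ) + 2) * (ε * t * (2 * a⁻¹)) = t * δ := by
      rw [hεe]
      field_simp
    rw [h5, h6, hl1] at h4
    have h7 : t * (1 - δ) ≤ t * (l ⬝ᵥ q₀) := by linarith
    exact le_of_mul_le_mul_left h7 ht
  have hpos : 0 < em u ⬝ᵥ q₀ := by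
    obtain ⟨i, hi⟩ : ∃ i, u i ≠ 0 := by
      by_contra hcon
      push Not at hcon
      rw [hcon 0, hcon 1] at hcop
      exact not_isCoprime_zero_zero hcop
    have hE : 0 < N (Pi.single i 1) := by
      refine lt_of_le_of_ne (hN.nn _) fun h => ?_
      have h2 := congrFun (hN.z _ h.symm) i
      rw [Pi.single_eq_same, Pi.zero_apply] at h2
      exact one_ne_zero h2
    have hui : (0 : ℝ) < |(u i : ℝ)| := abs_pos.2 (Int.cast_ne_zero.2 hi)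
    have h2 := hmax' (((u i : ℝ) / (|(u i : ℝ)| * N (Pi.single i 1))) • Pi.single i 1) (by
      rw [hN.sm, abs_div, abs_mul, abs_abs, abs_of_pos hE]
      rw [div_mul_eq_mul_div, div_le_one (by positivity)])
    refine lt_of_lt_of_le ?_ h2
    rw [dotProduct_smul, dotProduct_single, smul_eq_mul, mul_one]
    show 0 < (u i : ℝ) / (|(u i : ℝ)| * N (Pi.single i 1)) * (u i : ℝ)
    have h3 : (u i : ℝ) / (|(u i : ℝ)| * N (Pi.single i 1)) * (u i : ℝ) =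
        |(u i : ℝ)| ^ 2 / (|(u i : ℝ)| * N (Pi.single i 1)) := by
      rw [sq_abs]
      ring
    rw [h3]
    positivity
  have hall : ∀ x, em u ⬝ᵥ x ≤ (em u ⬝ᵥ q₀) * N x := by
    intro x
    by_cases hx : x = 0
    · subst hx
      rw [dotProduct_zero]
      exact mul_nonneg hpos.le (hN.nn _)
    · have hNx : 0 < N x := lt_of_le_of_ne (hN.nn x) fun h => hx (hN.z x h.symm)
      have h2 := hmax' ((N x)⁻¹ • x) (by
        rw [hN.sm, abs_of_pos (inv_pos.2 hNx), inv_mul_cancel₀ hNx.ne'])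
      rw [dotProduct_smul, smul_eq_mul, inv_mul_le_iff₀ hNx] at h2
      linarith
  refine ⟨u, q₀, hcop, ?_, hall, ?_⟩
  · refine le_antisymm hq₀' ?_
    have h2 := hall q₀
    by_contra hcon
    push Not at hcon
    nlinarith
  · refine cap1 hN hr hμ h1 hp hl1 hl hq₀' ?_
    rw [← hδe]
    exact hlq

end Pool.Agent.Lib.MP_8cf263_co
end

section

/-!
# One round spot, file RsUni: unimodular maps and rational directions

`rm B x` is the product of the integer matrix `B` and the real vector `x`.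
`rm_em`, `rm_rm`, `rm_add`, `rm_sub`, `rm_smul`: clear (`Matrix.mulVec_mulVec`, `Matrix.map_mul`, ...).
`rm_bd`: `|rm B x| ^ 2 ≤ C |x| ^ 2` with `C = (∑ i, ∑ j, (B i j) ^ 2) + 1` (Cauchy-Schwarz in every row).

`Tw.map`: the image of twins under a unimodular map.  `hK`: `rm B` maps
`convexHull (em '' (K.image A.mulVec))` into `convexHull (em '' K)` (`convexHull_min`, preimage of a
convex set under a linear map).  `sK`: `A (c - x) = A c - A x`.  `card`: `card_image_of_injective`.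
`cnt`: `fol (K.image A.mulVec) u = (fol K (B u)).image A.mulVec`, and `Pr (B u)` because
`A (B u) = u`.

`unimod`: let `s u₀ + t u₁ = 1`.  The rows of `A` are `u`, `(-t, s, 0, ..., 0)` and `e_i` for `i ≥ 2`.
`A x = y` is solved by: `x_i = y_i` for `i ≥ 2`, `v = y_0 - ∑_{i ≥ 2} u_i y_i`, `x_0 = s v - u₁ y_1`,
`x_1 = t v + u₀ y_1`.  (So `B` has the rows `(s, -u₁, -s u_2, -s u_3, ...)`,
`(t, u₀, -t u_2, -t u_3, ...)`, `e_i`.  Or: `det A = 1` and `B = A⁻¹`.)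
-/

set_option autoImplicit false

namespace Pool.Agent.Lib.MP_8cf263_co

open Finset

variable {n : ℕ}

/-- integer matrices acting on real vectors -/
noncomputable def rm (B : Matrix (Fin n) (Fin n) ℤ) (x : Fin n → ℝ) : Fin n → ℝ :=
  (B.map (fun z : ℤ => (z : ℝ))).mulVec x

theorem rm_em (B : Matrix (Fin n) (Fin n) ℤ) (x : Fin n → ℤ) : rm B (em x) = em (B.mulVec x) := by
  funext i
  simp only [rm, em, Matrix.mulVec, dotProduct, Matrix.map_apply]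
  push_cast
  rfl

theorem rm_rm {A B : Matrix (Fin n) (Fin n) ℤ} (h : A * B = 1) (x : Fin n → ℝ) :
    rm A (rm B x) = x := by
  have h1 : (A.map (fun z : ℤ => (z : ℝ))) * (B.map (fun z : ℤ => (z : ℝ))) = 1 := by
    ext i j
    have h2 := congrFun (congrFun h i) j
    rw [Matrix.mul_apply] at h2 ⊢
    simp only [Matrix.map_apply]
    have h3 := congrArg (fun z : ℤ => (z : ℝ)) h2
    simp only [Matrix.one_apply] at h3 ⊢
    push_cast at h3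
    exact h3
  unfold rm
  rw [Matrix.mulVec_mulVec, h1, Matrix.one_mulVec]

theorem rm_add (B : Matrix (Fin n) (Fin n) ℤ) (x y : Fin n → ℝ) : rm B (x + y) = rm B x + rm B y := by
  unfold rm
  exact Matrix.mulVec_add _ _ _

theorem rm_sub (B : Matrix (Fin n) (Fin n) ℤ) (x y : Fin n → ℝ) : rm B (x - y) = rm B x - rm B y := by
  unfold rm
  exact Matrix.mulVec_sub _ _ _

theorem rm_smul (B : Matrix (Fin n) (Fin n) ℤ) (t : ℝ) (x : Fin n → ℝ) :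
    rm B (t • x) = t • rm B x := by
  unfold rm
  exact Matrix.mulVec_smul _ _ _

theorem rm_bd (B : Matrix (Fin n) (Fin n) ℤ) :
    ∃ C : ℝ, 1 ≤ C ∧ ∀ x : Fin n → ℝ, rm B x ⬝ᵥ rm B x ≤ C * (x ⬝ᵥ x) := by
  refine ⟨(∑ i, ∑ j, (B i j : ℝ) ^ 2) + 1, ?_, fun x => ?_⟩
  · have : (0 : ℝ) ≤ ∑ i, ∑ j, (B i j : ℝ) ^ 2 :=
      Finset.sum_nonneg fun i _ => Finset.sum_nonneg fun j _ => sq_nonneg _
    linarith
  · have hx : (0 : ℝ) ≤ x ⬝ᵥ x := Finset.sum_nonneg fun j _ => mul_self_nonneg _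
    have h1 : rm B x ⬝ᵥ rm B x ≤ ∑ i, (∑ j, (B i j : ℝ) ^ 2) * (x ⬝ᵥ x) := by
      refine Finset.sum_le_sum fun i _ => ?_
      have h2 := Finset.sum_mul_sq_le_sq_mul_sq Finset.univ (fun j => (B i j : ℝ)) x
      have h3 : rm B x i = ∑ j, (B i j : ℝ) * x j := rfl
      have h4 : x ⬝ᵥ x = ∑ j, x j ^ 2 := Finset.sum_congr rfl fun j _ => (sq (x j)).symm
      rw [h3, h4, ← sq]
      exact h2
    rw [← Finset.sum_mul] at h1
    linarith

theorem Tw.map {K L : Finset (Fin n → ℤ)} {c : Fin n → ℤ} (h : Tw K L c)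
    {A B : Matrix (Fin n) (Fin n) ℤ} (hAB : A * B = 1) (hBA : B * A = 1) :
    Tw (K.image (fun x => A.mulVec x)) (L.image (fun x => A.mulVec x)) (A.mulVec c) := by
  classical
  have hBA' : ∀ y : Fin n → ℤ, B.mulVec (A.mulVec y) = y := fun y => by
    rw [Matrix.mulVec_mulVec, hBA, Matrix.one_mulVec]
  have hAB' : ∀ y : Fin n → ℤ, A.mulVec (B.mulVec y) = y := fun y => by
    rw [Matrix.mulVec_mulVec, hAB, Matrix.one_mulVec]
  have hinj : Function.Injective fun x : Fin n → ℤ => A.mulVec x := by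
    intro x y hxy
    have h1 := congrArg (fun z => B.mulVec z) hxy
    simp only [hBA'] at h1
    exact h1
  have hmem : ∀ (M : Finset (Fin n → ℤ)) (x : Fin n → ℤ),
      x ∈ M.image (fun x => A.mulVec x) ↔ B.mulVec x ∈ M := by
    intro M x
    rw [mem_image]
    constructor
    · rintro ⟨y, hy, rfl⟩
      rwa [hBA']
    · intro hx
      exact ⟨_, hx, hAB' x⟩
  have hLC : ∀ M : Finset (Fin n → ℤ), LC M → LC (M.image (fun x => A.mulVec x)) := by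
    intro M hM x hx
    rw [hmem]
    apply hM
    rw [← rm_em]
    have hconv : Convex ℝ ((rm B) ⁻¹' (convexHull ℝ (em '' (M : Set (Fin n → ℤ))))) :=
      (convex_convexHull ℝ _).is_linear_preimage ⟨rm_add B, fun t y => rm_smul B t y⟩
    have hsub : em '' ((M.image (fun x => A.mulVec x) : Finset (Fin n → ℤ)) : Set (Fin n → ℤ)) ⊆
        (rm B) ⁻¹' (convexHull ℝ (em '' (M : Set (Fin n → ℤ)))) := by
      rintro _ ⟨y, hy, rfl⟩
      rw [Set.mem_preimage, rm_em]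
      exact subset_convexHull ℝ _ ⟨_, (hmem M y).1 (mem_coe.1 hy), rfl⟩
    exact convexHull_min hsub hconv hx
  have hsym : ∀ M : Finset (Fin n → ℤ), (∀ x, x ∈ M ↔ c - x ∈ M) →
      ∀ x, x ∈ M.image (fun x => A.mulVec x) ↔ A.mulVec c - x ∈ M.image (fun x => A.mulVec x) := by
    intro M hM x
    rw [hmem, hmem, Matrix.mulVec_sub, hBA', ← hM]
  have hfol : ∀ (M : Finset (Fin n → ℤ)) (u : Fin n → ℤ),
      (fol (M.image (fun x => A.mulVec x)) u).card = (fol M (B.mulVec u)).card := by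
    intro M u
    rw [← card_image_of_injective (fol M (B.mulVec u)) hinj]
    congr 1
    ext x
    rw [hmem]
    unfold fol
    rw [mem_filter, mem_filter, hmem, hmem, Matrix.mulVec_add]
  refine ⟨hLC K h.hK, hLC L h.hL, hsym K h.sK, hsym L h.sL, ?_, fun u hu => ?_⟩
  · rw [card_image_of_injective _ hinj, card_image_of_injective _ hinj, h.card]
  · rw [hfol, hfol]
    apply h.cnt
    intro d hd
    apply hu
    intro i
    have h1 : u i = ∑ j, A i j * B.mulVec u j := by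
      have h2 := congrFun (hAB' u) i
      exact h2.symm
    rw [h1]
    exact Finset.dvd_sum fun j _ => Dvd.dvd.mul_left (hd j) _

theorem unimod {m : ℕ} (u : Fin (m + 2) → ℤ) (h : IsCoprime (u 0) (u 1)) :
    ∃ A B : Matrix (Fin (m + 2)) (Fin (m + 2)) ℤ, A * B = 1 ∧ B * A = 1 ∧ ∀ i, A 0 i = u i := by
  obtain ⟨s, t, hst⟩ := h
  let A : Matrix (Fin (m + 2)) (Fin (m + 2)) ℤ :=
    Fin.cons u (Fin.cons (Fin.cons (-t) (Fin.cons s 0)) (fun i => Pi.single i.succ.succ 1))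
  let B : Matrix (Fin (m + 2)) (Fin (m + 2)) ℤ :=
    Fin.cons (Fin.cons s (Fin.cons (-u 1) (fun j => -s * u j.succ.succ)))
      (Fin.cons (Fin.cons t (Fin.cons (u 0) (fun j => -t * u j.succ.succ)))
        (fun i => Pi.single i.succ.succ 1))
  have hA0 : ∀ j, A 0 j = u j := fun j => rfl
  have hA10 : A 1 0 = -t := rfl
  have hA11 : A 1 1 = s := rfl
  have hA1 : ∀ j : Fin m, A 1 j.succ.succ = 0 := fun j => rfl
  have hA2 : ∀ (i : Fin m) j, A i.succ.succ j = (Pi.single i.succ.succ 1 : Fin (m + 2) → ℤ) j :=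
    fun i j => rfl
  have hB00 : B 0 0 = s := rfl
  have hB01 : B 0 1 = -u 1 := rfl
  have hB0 : ∀ j : Fin m, B 0 j.succ.succ = -s * u j.succ.succ := fun j => rfl
  have hB10 : B 1 0 = t := rfl
  have hB11 : B 1 1 = u 0 := rfl
  have hB1 : ∀ j : Fin m, B 1 j.succ.succ = -t * u j.succ.succ := fun j => rfl
  have hB2 : ∀ (i : Fin m) j, B i.succ.succ j = (Pi.single i.succ.succ 1 : Fin (m + 2) → ℤ) j :=
    fun i j => rfl
  have hs1 : (Fin.succ 0 : Fin (m + 2)) = 1 := rfl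
  have hne0 : ∀ i : Fin m, (0 : Fin (m + 2)) ≠ i.succ.succ := fun i => (Fin.succ_ne_zero _).symm
  have hne1 : ∀ i : Fin m, (1 : Fin (m + 2)) ≠ i.succ.succ := fun i hi => by
    have := congrArg Fin.val hi
    simp at this
  have hAB : A * B = 1 := by
    ext i j
    rw [Matrix.mul_apply, Fin.sum_univ_succ, Fin.sum_univ_succ, hs1]
    have hcase : ∀ i : Fin (m + 2), i = 0 ∨ i = 1 ∨ ∃ i' : Fin m, i = i'.succ.succ := by
      intro i
      refine Fin.cases (Or.inl rfl) (fun i => ?_) i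
      refine Fin.cases (Or.inr (Or.inl rfl)) (fun i => ?_) i
      exact Or.inr (Or.inr ⟨i, rfl⟩)
    rcases hcase i with rfl | rfl | ⟨i, rfl⟩ <;> rcases hcase j with rfl | rfl | ⟨j, rfl⟩
    · simp [hA0, hB00, hB10, hB2]
      linarith
    · simp [hA0, hB01, hB11, hB2, Pi.single_eq_of_ne (hne1 _)]
      ring
    · simp [hA0, hB0, hB1, hB2, Pi.single_apply, Matrix.one_apply_ne (hne0 j)]
      linear_combination (-u j.succ.succ) * hst
    · simp [hA10, hA11, hA1, hB00, hB10]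
      ring
    · simp [hA10, hA11, hA1, hB01, hB11]
      linarith
    · simp [hA10, hA11, hA1, hB0, hB1, Matrix.one_apply_ne (hne1 j)]
      ring
    · simp [hA2, hB2, Pi.single_eq_of_ne (hne1 _),
        Matrix.one_apply_ne (hne0 i).symm]
    · simp [hA2, hB2, Pi.single_eq_of_ne (hne1 _),
        Matrix.one_apply_ne (hne1 i).symm]
    · simp [hA2, hB2, Pi.single_eq_of_ne (hne1 _), Pi.single_apply,
        Matrix.one_apply, eq_comm]
  exact ⟨A, B, hAB, mul_eq_one_comm.1 hAB, hA0⟩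

end Pool.Agent.Lib.MP_8cf263_co
end
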