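import Pool.Agent.Lib.MP_8cf263_co.RsCap
import Pool.Agent.Lib.MP_8cf263_co.RsAgrA
import Pool.Agent.Lib.MP_8cf263_co.RsUni

section

/-!
# Round sets, file RdOrder: the lexicographic functional

`lf m N F x = ∑_{i < m} N ^ (m - i) x_i + g x` orders vectors with bounded differences
lexicographically: first by the coordinates `0, ..., m - 1`, then by `g`.

Proof.  Let `0 ≤ d < N`, `|x i - y i| ≤ d`, `|g x - g y| ≤ d`.  Suppose that `x` and `y` agree in the
coordinates `< j`, `j < m`, and `x j < y j`.  Then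
`lf y - lf x ≥ N ^ (m - j) - d (∑_{j < i < m} N ^ (m - i) + 1)` and
`∑_{j < i < m} N ^ (m - i) + 1 = (N ^ (m - j) - 1) / (N - 1)` (geometric sum,
`(N - 1) * (∑_{j<i<m} N^(m-i) + 1) = N^(m-j) - 1` by induction), and `d ≤ N - 1`, so the difference
is at least `N ^ (m - j) - (N ^ (m - j) - 1) = 1 > 0`.  If `x` and `y` agree in all coordinates
`< m` then `lf y - lf x = g y - g x`.  So: if the coordinates `< m` do not all agree, let `j` be the
first one which differs (`Nat.find` or well-founded minimum over `Fin`), and the sign of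
`lf y - lf x` is the sign of `y j - x j`.  This gives both theorems.

A convenient way to organise this: prove by induction on `m - j` (or treat the sum
`∑_{i : Fin (m+2)} if j < i ∧ i < m then N ^ (m - i) else 0` via `Finset.sum_bij` to
`∑_{k ∈ Ico 1 (m - j)} N ^ k`, `geom_sum`), or to prove by downward induction on `k ≤ m` that
`|∑_{i} if k ≤ i ∧ i < m then N ^ (m - i) * (y i - x i) else 0| + d ≤ N ^ (m - k + 1) - 1`.
-/

set_option autoImplicit false

namespace Pool.Agent.Lib.MP_8cf263_co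

open Finset

/-- the part of the lexicographic sum from the coordinate `k` on -/
private def lfS (m : ℕ) (N : ℤ) (k : ℕ) (z : Fin (m + 2) → ℤ) : ℤ :=
  ∑ i : Fin (m + 2), if k ≤ i.1 ∧ i.1 < m then N ^ (m - i.1) * z i else 0

private theorem lfS_succ (m : ℕ) (N : ℤ) {k : ℕ} (hk : k < m) (z : Fin (m + 2) → ℤ) :
    lfS m N k z = N ^ (m - k) * z ⟨k, by omega⟩ + lfS m N (k + 1) z := by
  unfold lfS
  have h1 : ∀ i : Fin (m + 2), (if k ≤ i.1 ∧ i.1 < m then N ^ (m - i.1) * z i else 0) =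
      (if i = (⟨k, by omega⟩ : Fin (m + 2)) then N ^ (m - k) * z ⟨k, by omega⟩ else 0) +
      (if k + 1 ≤ i.1 ∧ i.1 < m then N ^ (m - i.1) * z i else 0) := by
    intro i
    by_cases hi : i = (⟨k, by omega⟩ : Fin (m + 2))
    · subst hi
      simp [hk]
    · have hne : i.1 ≠ k := fun h => hi (Fin.ext h)
      rw [if_neg hi, zero_add]
      by_cases h2 : k ≤ i.1 ∧ i.1 < m
      · rw [if_pos h2, if_pos (by omega)]
      · rw [if_neg h2, if_neg (by omega)]
  rw [Finset.sum_congr rfl fun i _ => h1 i, Finset.sum_add_distrib, Finset.sum_ite_eq']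
  simp

private theorem lfS_top (m : ℕ) (N : ℤ) (z : Fin (m + 2) → ℤ) : lfS m N m z = 0 := by
  unfold lfS
  refine Finset.sum_eq_zero fun i _ => ?_
  rw [if_neg (by omega)]

private theorem lfS_bd {m : ℕ} {N : ℤ} (hN : 1 ≤ N) {z : Fin (m + 2) → ℤ}
    (hz : ∀ i, |z i| ≤ N - 1) : ∀ t k : ℕ, k + t = m → |lfS m N k z| ≤ N ^ (t + 1) - N := by
  intro t
  induction t with
  | zero =>
    intro k hk
    rw [show k = m by omega, lfS_top]
    simp
  | succ t ih =>
    intro k hk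
    rw [lfS_succ m N (by omega) z]
    have h1 := ih (k + 1) (by omega)
    have h2 : |N ^ (m - k) * z ⟨k, by omega⟩| ≤ N ^ (t + 1) * (N - 1) := by
      rw [abs_mul, abs_of_nonneg (by positivity), show m - k = t + 1 by omega]
      exact mul_le_mul_of_nonneg_left (hz _) (by positivity)
    calc _ ≤ |N ^ (m - k) * z ⟨k, by omega⟩| + |lfS m N (k + 1) z| := abs_add_le _ _
      _ ≤ N ^ (t + 1) * (N - 1) + (N ^ (t + 1) - N) := add_le_add h2 h1
      _ = N ^ (t + 1 + 1) - N := by ring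

private theorem lfS_zero {m : ℕ} (N : ℤ) {z : Fin (m + 2) → ℤ} : ∀ k : ℕ, k ≤ m →
    (∀ i : Fin (m + 2), i.1 < k → z i = 0) → lfS m N 0 z = lfS m N k z := by
  intro k
  induction k with
  | zero => intro _ _; rfl
  | succ k ih =>
    intro hk hz
    rw [ih (by omega) fun i hi => hz i (by omega), lfS_succ m N (by omega) z, hz ⟨k, by omega⟩ (by simp)]
    ring

private theorem lf_sub {m : ℕ} (N : ℤ) (F : Fr) (x y : Fin (m + 2) → ℤ) :
    lf m N F y - lf m N F x = lfS m N 0 (fun i => y i - x i) + (F.g m y - F.g m x) := by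
  unfold lf lfS
  rw [show ∀ a b c d : ℤ, a + b - (c + d) = (a - c) + (b - d) by intros; ring,
    ← Finset.sum_sub_distrib]
  congr 1
  refine Finset.sum_congr rfl fun i _ => ?_
  by_cases hi : i.1 < m
  · rw [if_pos hi, if_pos hi, if_pos ⟨Nat.zero_le _, hi⟩]
    ring
  · rw [if_neg hi, if_neg hi, if_neg (by omega)]
    ring

private theorem lf_pos {m : ℕ} {N d : ℤ} (F : Fr) {x y : Fin (m + 2) → ℤ} (hd : d < N)
    (hx : ∀ i, |x i - y i| ≤ d) (hg : |F.g m x - F.g m y| ≤ d) (j : Fin (m + 2)) (hj : j.1 < m)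
    (h1 : ∀ i : Fin (m + 2), i < j → x i = y i) (h2 : x j < y j) : lf m N F x < lf m N F y := by
  have hd0 : 0 ≤ d := (abs_nonneg _).trans hg
  have hN : 1 ≤ N := by omega
  have h3 := lf_sub N F x y
  rw [lfS_zero N j.1 hj.le (fun i hi => by
    have := h1 i hi
    omega), lfS_succ m N hj] at h3
  have h4 := lfS_bd (m := m) hN (z := fun i => y i - x i) (fun i => by
    have := hx i
    rw [abs_sub_comm]
    omega) (m - j.1 - 1) (j.1 + 1) (by omega)
  rw [show m - j.1 - 1 + 1 = m - j.1 by omega] at h4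
  have h5 := (abs_le.1 h4).1
  have h6 : N ^ (m - j.1) * 1 ≤ N ^ (m - j.1) * (y ⟨j.1, by omega⟩ - x ⟨j.1, by omega⟩) := by
    refine mul_le_mul_of_nonneg_left ?_ (by positivity)
    have : x j < y j := h2
    change 1 ≤ y j - x j
    omega
  have h7 := (abs_le.1 hg).2
  simp only at h3 h6
  linarith

private theorem lf_same {m : ℕ} {N : ℤ} (F : Fr) {x y : Fin (m + 2) → ℤ}
    (h : ∀ i : Fin (m + 2), i.1 < m → x i = y i) :
    lf m N F y - lf m N F x = F.g m y - F.g m x := by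
  rw [lf_sub, lfS_zero N m le_rfl (fun i hi => by
    have := h i hi
    omega), lfS_top, zero_add]

private theorem lf_first {m : ℕ} (x y : Fin (m + 2) → ℤ) :
    (∀ i : Fin (m + 2), i.1 < m → x i = y i) ∨
    ∃ j : Fin (m + 2), j.1 < m ∧ (∀ i : Fin (m + 2), i < j → x i = y i) ∧ x j ≠ y j := by
  by_cases h : ∀ i : Fin (m + 2), i.1 < m → x i = y i
  · exact Or.inl h
  · right
    push Not at h
    obtain ⟨i0, hi0, hne0⟩ := h
    have hne : (Finset.univ.filter fun i : Fin (m + 2) => i.1 < m ∧ x i ≠ y i).Nonempty :=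
      ⟨i0, by simp [hi0, hne0]⟩
    obtain ⟨j, hj, hmin⟩ := Finset.exists_minimal hne
    rw [Finset.mem_filter] at hj
    refine ⟨j, hj.2.1, fun i hi => ?_, hj.2.2⟩
    by_contra hxy
    have hi' : i.1 < j.1 := hi
    have h5 : j ≤ i := hmin (Finset.mem_filter.2 ⟨Finset.mem_univ _, by omega, hxy⟩) hi.le
    exact absurd hi (not_lt.2 h5)

theorem lf_lt {m : ℕ} {N d : ℤ} (F : Fr) {x y : Fin (m + 2) → ℤ} (hd : d < N)
    (hx : ∀ i, |x i - y i| ≤ d) (hg : |F.g m x - F.g m y| ≤ d) :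
    lf m N F x < lf m N F y ↔
      (∃ j : Fin (m + 2), j.1 < m ∧ (∀ i : Fin (m + 2), i < j → x i = y i) ∧ x j < y j) ∨
      ((∀ i : Fin (m + 2), i.1 < m → x i = y i) ∧ F.g m x < F.g m y) := by
  constructor
  · intro hlt
    rcases lf_first x y with h | ⟨j, hj, h1, h2⟩
    · right
      refine ⟨h, ?_⟩
      have := lf_same (N := N) F h
      omega
    · left
      refine ⟨j, hj, h1, ?_⟩
      rcases lt_or_gt_of_ne h2 with h3 | h3
      · exact h3
      · exfalso
        have := lf_pos F (x := y) (y := x) hd (fun i => by rw [abs_sub_comm]; exact hx i)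
          (by rw [abs_sub_comm]; exact hg) j hj (fun i hi => (h1 i hi).symm) h3
        omega
  · rintro (⟨j, hj, h1, h2⟩ | ⟨h1, h2⟩)
    · exact lf_pos F hd hx hg j hj h1 h2
    · have := lf_same (N := N) F h1
      omega

theorem lf_eq {m : ℕ} {N d : ℤ} (F : Fr) {x y : Fin (m + 2) → ℤ} (hd : d < N)
    (hx : ∀ i, |x i - y i| ≤ d) (hg : |F.g m x - F.g m y| ≤ d) :
    lf m N F x = lf m N F y ↔
      (∀ i : Fin (m + 2), i.1 < m → x i = y i) ∧ F.g m x = F.g m y := by
  constructor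
  · intro heq
    rcases lf_first x y with h | ⟨j, hj, h1, h2⟩
    · refine ⟨h, ?_⟩
      have := lf_same (N := N) F h
      omega
    · exfalso
      rcases lt_or_gt_of_ne h2 with h3 | h3
      · have := lf_pos F hd hx hg j hj h1 h3
        omega
      · have := lf_pos F (x := y) (y := x) hd (fun i => by rw [abs_sub_comm]; exact hx i)
          (by rw [abs_sub_comm]; exact hg) j hj (fun i hi => (h1 i hi).symm) h3
        omega
  · rintro ⟨h1, h2⟩
    have := lf_same (N := N) F h1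
    omega

theorem lf_e (m : ℕ) (N : ℤ) (F : Fr) : lfh m N F (F.e m) = 0 := by
  change lf m N F (F.e m) = 0
  unfold lf
  rw [F.g_e, add_zero]
  refine Finset.sum_eq_zero fun i _ => ?_
  by_cases hi : i.1 < m
  · rw [if_pos hi, F.low_e hi, mul_zero]
  · rw [if_neg hi]

theorem lf_w (m : ℕ) (N : ℤ) (F : Fr) : lfh m N F (F.w m) = 1 := by
  change lf m N F (F.w m) = 1
  unfold lf
  rw [F.g_w]
  have : (∑ i : Fin (m + 2), if i.1 < m then N ^ (m - i.1) * F.w m i else 0) = 0 := by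
    refine Finset.sum_eq_zero fun i _ => ?_
    by_cases hi : i.1 < m
    · rw [if_pos hi, F.low_w hi, mul_zero]
    · rw [if_neg hi]
  rw [this, zero_add]

end Pool.Agent.Lib.MP_8cf263_co
end

section

/-!
# Round sets, file RdClose2: the two sets are close on every line not through the centre

Let `h : TwF K L c R r J kap`.

`TwF.close`.  Let `vs c x`, `e` be not parallel, and let the line `x + t e` meet `K` in
`α ≤ t ≤ β` and `L` in `α' ≤ t ≤ β'`.  By `Tw.run` (for `K, L` and for `L, K`, `h.tw.symm`) with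
visibility from `TwF.vis` (`x + x - c = vs c x`):
 (a) every `t` with `2 α + J - 1 ≤ 2 t ≤ 2 β - J + 1` satisfies `α' ≤ t ≤ β'`;
 (b) every `t` with `2 α' + J - 1 ≤ 2 t ≤ 2 β' - J + 1` satisfies `α ≤ t ≤ β`.
First claim: if `α + 2 J ≤ β` then (a) applied to the extreme `t` gives `2 α' ≤ 2 α + J` and
`2 β - J ≤ 2 β'`, so `β' - α' ≥ β - α - J ≥ J`, and (b) gives `2 α ≤ 2 α' + J`,
`2 β' - J ≤ 2 β`.  Hence `|α - α'| ≤ J`, `|β - β'| ≤ J`.
Second claim.  If `α + 2 J ≤ β` then `z1 = min α α'`, `z2 = min β β' + 1` work.  If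
`α' + 2 J ≤ β'` the same by symmetry (then `|α - α'| ≤ J` etc.).  Otherwise both intervals have at
most `2 J` elements and `z1 = α`, `z2 = α'` work.  (All arithmetic by `omega`.)
-/

set_option autoImplicit false

namespace Pool.Agent.Lib.MP_8cf263_co

open Finset

variable {n : ℕ} {K L : Finset (Fin n → ℤ)} {c : Fin n → ℤ} {R r J kap : ℕ}

theorem TwF.close (h : TwF K L c R r J kap) {x e : Fin n → ℤ} (he : Pr e)
    (hx : ∀ i, |vs c x i| ≤ 10 * R) (hee : ∀ i, |e i| ≤ 10 * R)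
    (hnc : ∃ i j, vs c x i * e j - vs c x j * e i ≠ 0) {α β α' β' : ℤ}
    (hK : ∀ t : ℤ, x + t • e ∈ K ↔ α ≤ t ∧ t ≤ β)
    (hL : ∀ t : ℤ, x + t • e ∈ L ↔ α' ≤ t ∧ t ≤ β') :
    (α + 2 * J ≤ β → |α - α'| ≤ J ∧ |β - β'| ≤ J) ∧
    ∃ z1 z2 : ℤ, ∀ t : ℤ, Df K L (x + t • e) →
      (z1 ≤ t ∧ t < z1 + (3 * J + 1 : ℕ)) ∨ (z2 ≤ t ∧ t < z2 + (3 * J + 1 : ℕ)) := by
  have hJ1 := h.J1
  have hb : ∀ i, (x + x - c) i = vs c x i := by
    intro i
    simp only [vs, Pi.sub_apply, Pi.add_apply]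
    ring
  have hbe : x + x - c = vs c x := funext hb
  have hvis : ∀ s : ℤ, ∃ τ : ℤ, s ≤ τ ∧ τ < s + J ∧ Pr (x + x - c + τ • e) := by
    intro s
    rw [hbe]
    exact h.vis he hx hee hnc s
  have ha : ∀ t : ℤ, 2 * α + J - 1 ≤ 2 * t → 2 * t ≤ 2 * β - J + 1 → α' ≤ t ∧ t ≤ β' := by
    intro t h1 h2
    exact (hL t).1 (h.tw.run (fun s hs1 hs2 => (hK s).2 ⟨hs1, hs2⟩) hvis t h1 h2)
  have hb' : ∀ t : ℤ, 2 * α' + J - 1 ≤ 2 * t → 2 * t ≤ 2 * β' - J + 1 → α ≤ t ∧ t ≤ β := by
    intro t h1 h2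
    exact (hK t).1 (h.tw.symm.run (fun s hs1 hs2 => (hL s).2 ⟨hs1, hs2⟩) hvis t h1 h2)
  -- symmetric first claim
  have key : ∀ a b a' b' : ℤ,
      (∀ t : ℤ, 2 * a + J - 1 ≤ 2 * t → 2 * t ≤ 2 * b - J + 1 → a' ≤ t ∧ t ≤ b') →
      (∀ t : ℤ, 2 * a' + J - 1 ≤ 2 * t → 2 * t ≤ 2 * b' - J + 1 → a ≤ t ∧ t ≤ b) →
      a + 2 * J ≤ b → |a - a'| ≤ J ∧ |b - b'| ≤ J := by
    intro a b a' b' k1 k2 hab
    have p1 := k1 (a + (J : ℤ) / 2) (by omega) (by omega)
    have p2 := k1 (b - (J : ℤ) / 2) (by omega) (by omega)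
    have q1 := k2 (a' + (J : ℤ) / 2) (by omega) (by omega)
    have q2 := k2 (b' - (J : ℤ) / 2) (by omega) (by omega)
    rw [abs_le, abs_le]
    omega
  refine ⟨key α β α' β' ha hb', ?_⟩
  by_cases c1 : α + 2 * J ≤ β ∨ α' + 2 * J ≤ β'
  · have hc : |α - α'| ≤ J ∧ |β - β'| ≤ J := by
      rcases c1 with c1 | c1
      · exact key α β α' β' ha hb' c1
      · have := key α' β' α β hb' ha c1
        rw [abs_sub_comm α', abs_sub_comm β'] at this
        exact this
    rw [abs_le, abs_le] at hc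
    refine ⟨min α α', min β β' + 1, fun t ht => ?_⟩
    rw [Df, hK, hL] at ht
    push_cast
    omega
  · push Not at c1
    refine ⟨α, α', fun t ht => ?_⟩
    rw [Df, hK, hL] at ht
    push_cast
    omega

end Pool.Agent.Lib.MP_8cf263_co
end

section

/-!
# Round sets, file RdCount: few points of `L` above a height, if there are few points of `K`

Let `h : TwF K L c R r J kap`.

`TwF.runK`.  Let `x ∈ L`, `e` primitive, `g : ℕ` with `x + g e ∈ L`, `vs c x` and `e` not parallel.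
Then `x + t e ∈ K` for all `t` with `J ≤ 2 t + 1` and `2 t ≤ 2 g - J + 1`
(so for at least `g + 1 - J` values of `t`, all with `0 ≤ t ≤ g`).
Proof: `Tw.run` for `h.tw.symm`, `α = 0`, `β = g` (`LC.seg`), visibility from `TwF.vis`:
`|vs c x i| ≤ 5 R` (`outL`) and `|e i| ≤ 10 R`: if `g ≥ 1`,
`2 g e i = vs c (x + g e) i - vs c x i` has absolute value `≤ 10 R`; if `g = 0` there is no `t` with
`J ≤ 2 t + 1`, `2 t ≤ 1 - J` except possibly for `J = 1`, `t = 0`, where one has to show `x ∈ K`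
directly; to avoid this assume `1 ≤ g`.

`TwF.countLev`.  Let `k : ℕ`, `p` with `2 p i ≠ c i` for some `i` with `i.1 < k`.  Let
`KS = {x ∈ K : x i = p i for all i with i.1 < k}`, `LS` the same for `L`.  If `KS.card ≤ E` then
`LS.card ≤ (E + J + 2) ^ n`.
Proof.  Suppose not.  `long_line` (file Face) with `l = E + J + 2` gives `x ∈ LS`, `e` primitive,
`g ≥ l` with `x + g e ∈ LS`.  For `i.1 < k`: `x i + g e i = p i = x i`, so `e i = 0`.  `vs c x` and
`e` are not parallel: with `i` as in the hypothesis `vs c x i = 2 p i - c i ≠ 0`, `e i = 0` and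
`e j ≠ 0` for some `j`.  All `x + t e`, `t` as in `runK`, are in `KS`, and these are
`g + 1 - J ≥ E + 3` different points (`t ↦ x + t e` is injective).  Contradiction.

-/

set_option autoImplicit false

namespace Pool.Agent.Lib.MP_8cf263_co

open Finset

variable {n : ℕ} {K L : Finset (Fin n → ℤ)} {c : Fin n → ℤ} {R r J kap : ℕ}

theorem TwF.runK (h : TwF K L c R r J kap) {x e : Fin n → ℤ} (he : Pr e) (hx : x ∈ L) {g : ℕ}
    (hg : 1 ≤ g) (hxg : x + (g : ℤ) • e ∈ L)
    (hnc : ∃ i j, vs c x i * e j - vs c x j * e i ≠ 0) {t : ℤ} (h1 : (J : ℤ) ≤ 2 * t + 1)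
    (h2 : 2 * t ≤ 2 * g - J + 1) : x + t • e ∈ K := by
  have hb : x + x - c = vs c x := by
    funext k
    simp only [vs, Pi.sub_apply, Pi.add_apply]
    ring
  have hR0 : (0 : ℤ) ≤ R := by positivity
  refine h.tw.symm.run (x := x) (e := e) (J := J) (α := 0) (β := g)
    (fun t ht0 ht1 => h.tw.hL.seg hx hxg ht0 ht1) ?_ t (by linarith) (by linarith)
  intro s
  rw [hb]
  refine h.vis he ?_ ?_ hnc s
  · intro i
    have := h.outL hx i
    linarith
  · intro i
    have h3 := h.outL hx i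
    have h4 := h.outL hxg i
    have h5 : 2 * ((g : ℤ) * e i) = vs c (x + (g : ℤ) • e) i - vs c x i := by
      simp only [vs, Pi.add_apply, Pi.smul_apply, smul_eq_mul]
      ring
    have h6 := abs_sub (vs c (x + (g : ℤ) • e) i) (vs c x i)
    rw [← h5, abs_mul, abs_mul, abs_two] at h6
    have hgZ : (1 : ℤ) ≤ (g : ℤ) := by exact_mod_cast hg
    rw [abs_of_nonneg (by linarith : (0 : ℤ) ≤ (g : ℤ))] at h6
    have h7 : (1 : ℤ) * |e i| ≤ g * |e i| := mul_le_mul_of_nonneg_right hgZ (abs_nonneg _)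
    have h8 := abs_nonneg (e i)
    linarith

/-- `runK`, counted -/
theorem TwF.runK_card (h : TwF K L c R r J kap) {x e : Fin n → ℤ} (he : Pr e) (hx : x ∈ L) {g : ℕ}
    (hg : 1 ≤ g) (hxg : x + (g : ℤ) • e ∈ L)
    (hnc : ∃ i j, vs c x i * e j - vs c x j * e i ≠ 0) (S : Finset (Fin n → ℤ))
    (hS : ∀ t : ℤ, 0 ≤ t → t ≤ g → x + t • e ∈ K → x + t • e ∈ S) : g + 1 ≤ S.card + J := by
  classical
  obtain ⟨i, hi⟩ := Function.ne_iff.1 he.ne_zero
  have hi' : e i ≠ 0 := hi
  have hinj : Function.Injective fun t : ℤ => x + t • e := by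
    intro t t' htt
    have h1 := congrFun htt i
    simp only [Pi.add_apply, Pi.smul_apply, smul_eq_mul] at h1
    have h2 : t * e i = t' * e i := by linarith
    exact mul_right_cancel₀ hi' h2
  have hsub : (Finset.Icc ((J / 2 : ℕ) : ℤ) ((g : ℤ) - (J / 2 : ℕ))).image (fun t : ℤ => x + t • e)
      ⊆ S := by
    intro y hy
    rw [mem_image] at hy
    obtain ⟨t, ht, rfl⟩ := hy
    rw [Finset.mem_Icc] at ht
    apply hS t (by omega) (by omega)
    exact h.runK he hx hg hxg hnc (by omega) (by omega)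
  have hc1 := card_le_card hsub
  rw [card_image_of_injective _ hinj, Int.card_Icc] at hc1
  omega

theorem TwF.countLev (h : TwF K L c R r J kap) {k : ℕ} {p : Fin n → ℤ}
    (hc : ∃ i : Fin n, i.1 < k ∧ 2 * p i ≠ c i) {E : ℕ}
    (hE : (K.filter (fun x => ∀ i : Fin n, i.1 < k → x i = p i)).card ≤ E) :
    (L.filter (fun x => ∀ i : Fin n, i.1 < k → x i = p i)).card ≤ (E + J + 2) ^ n := by
  classical
  by_contra hcon
  rw [not_le] at hcon
  obtain ⟨x, hx, e, he, g, hg, hxg⟩ := long_line (by omega) hcon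
  rw [mem_filter] at hx hxg
  have hg0 : 0 < g := by
    have : (0 : ℤ) ≤ ((E + J + 2 : ℕ) : ℤ) := by positivity
    omega
  have hez : ∀ i : Fin n, i.1 < k → e i = 0 := by
    intro i hik
    have h1 := hx.2 i hik
    have h2 := hxg.2 i hik
    simp only [Pi.add_apply, Pi.smul_apply, smul_eq_mul] at h2
    have h3 : g * e i = 0 := by linarith
    rcases mul_eq_zero.1 h3 with h4 | h4
    · omega
    · exact h4
  obtain ⟨i, hik, hi⟩ := hc
  obtain ⟨j, hj⟩ := Function.ne_iff.1 he.ne_zero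
  have hj' : e j ≠ 0 := hj
  obtain ⟨m, rfl⟩ : ∃ m : ℕ, g = m := ⟨g.toNat, by omega⟩
  have hnc : ∃ i j, vs c x i * e j - vs c x j * e i ≠ 0 := by
    refine ⟨i, j, ?_⟩
    rw [hez i hik, mul_zero, sub_zero]
    apply mul_ne_zero _ hj'
    simp only [vs]
    rw [hx.2 i hik]
    intro h0
    apply hi
    linarith
  have h5 := h.runK_card he hx.1 (g := m) (by omega) hxg.1 hnc
    (K.filter (fun x => ∀ i : Fin n, i.1 < k → x i = p i)) (by
      intro t _ _ htK
      rw [mem_filter]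
      refine ⟨htK, fun i hi' => ?_⟩
      simp only [Pi.add_apply, Pi.smul_apply, smul_eq_mul]
      rw [hez i hi', hx.2 i hi']
      ring)
  have h6 : E + J + 2 ≤ m := by exact_mod_cast hg
  omega

end Pool.Agent.Lib.MP_8cf263_co
end

section

/-!
# Round sets, file RdCountL: few points of `L` above a height, if there are few points of `K`

Let `h : TwF K L c R r J kap`.

`TwF.countL`.  Let `f` be a homomorphism to `ℤ` and `f c ≤ 2 φ`.  Let `KS = {x ∈ K : φ < f x}`,
`LS = {x ∈ L : φ < f x}`.  If `KS.card ≤ E` then `LS.card ≤ (E + J + 20 kap + 3) ^ (n + 1)`.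
Proof.  Put `l = E + J + 2`, `l' = 20 kap + 1`, and suppose `LS.card > l ^ n * l'` (otherwise we are
done: `l ^ n * l' ≤ (E + J + 20 kap + 3) ^ (n + 1)`).  By the
pigeonhole principle (`Finset.exists_lt_card_fiber_of_mul_lt_card_of_maps_to`, reduction modulo `l`
as in `long_line`) there is a subset `C ⊆ LS` with `C.card > l'`, any two elements of which are
congruent modulo `l` in all coordinates.  If `x, y ∈ C` are different then by `prim_dir` (Face)
`y - x = g • e`, `e` primitive, `g > 0`, `l ∣ g` (so `l ≤ g`).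
Note that for `x, x + g e ∈ LS` all `x + t e`, `0 ≤ t ≤ g`, satisfy `φ < f (x + t e)`, since
`g f (x + t e) = (g - t) f x + t f (x + g e) > g φ`.
Case 1: for some `x ≠ y` in `C`, `vs c x` and `e` are not parallel.  By `runK` there are at least
`g + 1 - J ≥ E + 3` points in `KS`, a contradiction.
Case 2: otherwise.  Fix `x₁ ∈ C`.  `f (vs c x₁) = 2 f x₁ - f c > 2 φ - f c ≥ 0`
(`vs c x = x + x - c`), so `vs c x₁ ≠ 0`; let `vs c x₁ = k₁ • e`, `e` primitive, `k₁ > 0`
(`prim_dir`), so `f e > 0`.  For every `y ∈ C`, `y ≠ x₁`, the vector `y - x₁ = g • e'` and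
`vs c x₁` are parallel, so `y - x₁` is a multiple of `e` (`par_of_minors` applied to `y - x₁` and
`e`).  So `C ⊆ {x₁ + t e : t ∈ ℤ}`, and all these `t` are multiples of `l` (`l` divides all
coordinates of `t e`, `Pr.dvd`).  Let `t₀`, `t₁` be the smallest and the largest of them;
`t₁ - t₀ ≥ l l'` as there are more than `l'` of them.  Put `x = x₁ + t₀ e`, `G = t₁ - t₀`; so
`x, x + G e ∈ LS`, `vs c x = κ • e` with `κ > 0` (`f (vs c x) > 0` and `f e > 0`).
Choose `i` such that `Pi.single i 1` is not parallel to `e` (`ax`), and `σ = 1` or `σ = -1` with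
`f (σ • Pi.single i 1) ≥ 0`.
Claim: `x + t e + σ e_i ∈ L` for `0 ≤ t ≤ G - j₁`, `j₁ = 20 kap`.  Apply `push` (RdCentral) to
`M = L`, `ρ = r - 2 J` (`coreL`), the point `x + t e` (`vs = (κ + 2 t) e`), `j = j₁` and
`x + (t + j₁) e ∈ L`: some `|e l| ≥ 1` gives `κ + 2 t + 2 j₁ ≤ 5 R` (`outL`), so
`2 (κ + 2 t + 2 j₁) + 2 j₁ ≤ 10 R + 2 j₁ ≤ 10 kap r + 2 j₁ = j₁ r / 2 + 2 j₁ ≤ (r - 2 J) j₁`.
So the points
`x' + t e`, `x' = x + σ e_i`, `0 ≤ t ≤ G - j₁`, are in `L`, `φ < f (x' + t e)`, and `vs c x'`, `e`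
are not parallel (`vs c x' = κ e + 2 σ e_i`).  `G - j₁ ≥ l l' - j₁ ≥ l + l' - 1 - j₁ = l`, so by
`runK` there are at least `l + 1 - J > E` points in `KS`, a contradiction.
-/

set_option autoImplicit false

namespace Pool.Agent.Lib.MP_8cf263_co

open Finset

variable {n : ℕ} {K L : Finset (Fin n → ℤ)} {c : Fin n → ℤ} {R r J kap : ℕ}

/-- a long segment of `L` above the height, not parallel to the vector from the centre -/
private theorem countL_run (h : TwF K L c R r J kap) (f : (Fin n → ℤ) →+ ℤ) {φ : ℤ}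
    {E : ℕ} (hE : (K.filter (fun x => φ < f x)).card ≤ E) {x e : Fin n → ℤ} (he : Pr e)
    (hx : x ∈ L) (hfx : φ < f x) {g : ℤ} (hg : (E : ℤ) + J + 1 ≤ g) (hxg : x + g • e ∈ L)
    (hfg : φ < f (x + g • e)) (hnc : ∃ i j, vs c x i * e j - vs c x j * e i ≠ 0) : False := by
  obtain ⟨m, rfl⟩ : ∃ m : ℕ, g = (m : ℤ) := ⟨g.toNat, by omega⟩
  have h1 := h.runK_card he hx (g := m) (by omega) hxg hnc (K.filter (fun x => φ < f x)) (by
    intro t h0 h1 h2
    rw [mem_filter]
    refine ⟨h2, ?_⟩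
    rw [map_add, map_zsmul, smul_eq_mul] at hfg ⊢
    rcases le_or_gt 0 (f e) with h3 | h3
    · have h4 := mul_nonneg h0 h3
      linarith
    · have h4 : (m : ℤ) * f e ≤ t * f e := mul_le_mul_of_nonpos_right h1 h3.le
      linarith)
  omega

private theorem countL_inj {e : Fin n → ℤ} (he : e ≠ 0) {s t : ℤ} (h : s • e = t • e) : s = t := by
  obtain ⟨i, hi⟩ := Function.ne_iff.1 he
  have h1 := congrFun h i
  simp only [Pi.smul_apply, smul_eq_mul] at h1
  exact mul_right_cancel₀ hi h1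

/-- many integers which are multiples of `l` -/
private theorem countL_spread {T : Finset ℤ} {l m : ℕ} (hl : 1 ≤ l) (hT : m < T.card)
    (hd : ∀ t ∈ T, (l : ℤ) ∣ t) : ∃ s ∈ T, ∃ t ∈ T, s + (l : ℤ) * m ≤ t := by
  classical
  have hne : T.Nonempty := card_pos.1 (by omega)
  refine ⟨T.min' hne, T.min'_mem hne, T.max' hne, T.max'_mem hne, ?_⟩
  by_contra hcon
  push Not at hcon
  obtain ⟨s, hs⟩ := hd _ (T.min'_mem hne)
  have hsub : T ⊆ (Ico s (s + m)).image (fun j : ℤ => (l : ℤ) * j) := by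
    intro t ht
    obtain ⟨j, hj⟩ := hd t ht
    rw [mem_image]
    refine ⟨j, ?_, hj.symm⟩
    have h1 := T.min'_le t ht
    have h2 := T.le_max' t ht
    have hl' : (0 : ℤ) < l := by omega
    rw [mem_Ico]
    constructor
    · rw [hs, hj] at h1
      exact le_of_mul_le_mul_left h1 hl'
    · have h3 : (l : ℤ) * j < (l : ℤ) * (s + m) := by
        rw [← hj, mul_add, ← hs]
        linarith
      exact lt_of_mul_lt_mul_left h3 hl'.le
  have h1 := (card_le_card hsub).trans card_image_le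
  rw [Int.card_Ico] at h1
  omega

theorem TwF.countL (h : TwF K L c R r J kap) (f : (Fin n → ℤ) →+ ℤ) {φ : ℤ} (hφ : f c ≤ 2 * φ)
    {E : ℕ} (hE : (K.filter (fun x => φ < f x)).card ≤ E) :
    (L.filter (fun x => φ < f x)).card ≤ (E + J + 20 * kap + 3) ^ (n + 1) := by
  classical
  rcases Nat.eq_zero_or_pos kap with hk0 | hk0
  · -- the degenerate case
    have hR0 : R = 0 := by
      have h1 := h.Rr
      rw [hk0, zero_mul] at h1
      omega
    have hK1 : K.card ≤ 1 := by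
      rw [card_le_one]
      intro a ha b hb
      funext i
      have h1 := h.out a ha i
      have h2 := h.out b hb i
      rw [hR0, Nat.cast_zero, abs_nonpos_iff] at h1 h2
      simp only [vs] at h1 h2
      omega
    have h1 : (L.filter (fun x => φ < f x)).card ≤ 1 :=
      (card_filter_le _ _).trans (h.tw.card ▸ hK1)
    exact h1.trans (Nat.one_le_pow _ _ (by omega))
  set l : ℕ := E + J + 2 with hl
  set l' : ℕ := 20 * kap + 1 with hl'
  by_contra hcon
  push Not at hcon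
  set LS := L.filter (fun x => φ < f x) with hLS
  have hmem : ∀ x, x ∈ LS ↔ x ∈ L ∧ φ < f x := fun x => by rw [hLS, mem_filter]
  have hbig : (univ : Finset (Fin n → ZMod l)).card * l' < LS.card := by
    have : NeZero l := ⟨by omega⟩
    rw [card_univ, Fintype.card_fun, ZMod.card, Fintype.card_fin]
    refine lt_of_le_of_lt ?_ hcon
    rw [pow_succ]
    exact Nat.mul_le_mul (Nat.pow_le_pow_left (by omega) _) (by omega)
  obtain ⟨y, -, hy⟩ := Finset.exists_lt_card_fiber_of_mul_lt_card_of_maps_to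
    (f := fun x : Fin n → ℤ => fun i => ((x i : ℤ) : ZMod l)) (fun _ _ => mem_univ _) hbig
  set C := LS.filter (fun x => (fun i => ((x i : ℤ) : ZMod l)) = y) with hC
  have hCL : ∀ x ∈ C, x ∈ L ∧ φ < f x := by
    intro x hx
    rw [hC, mem_filter] at hx
    exact (hmem x).1 hx.1
  have hdvd : ∀ x ∈ C, ∀ z ∈ C, ∀ i, (l : ℤ) ∣ (z - x) i := by
    intro x hx z hz i
    rw [hC, mem_filter] at hx hz
    have h2 := congrFun (hx.2.trans hz.2.symm) i
    rw [Pi.sub_apply]
    exact (ZMod.intCast_eq_intCast_iff_dvd_sub (x i) (z i) l).1 h2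
  have hvs : ∀ x : Fin n → ℤ, f (vs c x) = 2 * f x - f c := by
    intro x
    have h1 : vs c x = x + x - c := by
      funext i
      simp only [vs, Pi.sub_apply, Pi.add_apply]
      ring
    rw [h1, map_sub, map_add]
    ring
  have hvs0 : ∀ x ∈ C, 0 < f (vs c x) := by
    intro x hx
    have h1 := (hCL x hx).2
    rw [hvs]
    linarith
  obtain ⟨x₁, hx₁⟩ : C.Nonempty := card_pos.1 (by omega)
  have hv1 : vs c x₁ ≠ 0 := by
    intro h0
    have h1 := hvs0 x₁ hx₁
    rw [h0, map_zero] at h1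
    exact lt_irrefl _ h1
  obtain ⟨e, he, k₁, hk₁, hve, -⟩ := prim_dir hv1
  have hfe : 0 < f e := by
    have h1 := hvs0 x₁ hx₁
    rw [hve, map_zsmul, smul_eq_mul] at h1
    exact (mul_pos_iff_of_pos_left hk₁).1 h1
  -- all points of `C` are on the line of `x₁`
  have hline : ∀ z ∈ C, ∃ t : ℤ, z = x₁ + t • e := by
    intro z hz
    by_cases hzx : z = x₁
    · exact ⟨0, by rw [hzx, zero_smul, add_zero]⟩
    have hd : z - x₁ ≠ 0 := sub_ne_zero.2 hzx
    obtain ⟨e', he', g, hg0, hge, hgd⟩ := prim_dir hd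
    have hlg : (l : ℤ) ≤ g := Int.le_of_dvd hg0 (hgd _ (hdvd x₁ hx₁ z hz))
    have hz' : x₁ + g • e' = z := by
      rw [← hge]
      abel
    have hpar : ∀ i j, vs c x₁ i * e' j - vs c x₁ j * e' i = 0 := by
      intro i j
      by_contra hne
      refine countL_run h f hE he' (hCL x₁ hx₁).1 (hCL x₁ hx₁).2 (g := g) (by omega) ?_ ?_
        ⟨i, j, hne⟩
      · rw [hz']
        exact (hCL z hz).1
      · rw [hz']
        exact (hCL z hz).2
    obtain ⟨t, ht⟩ := par_of_minors he (d := z - x₁) (by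
      intro i j
      have h1 := hpar i j
      rw [hve] at h1
      simp only [Pi.smul_apply, smul_eq_mul] at h1
      have h2 : k₁ * (e i * e' j - e j * e' i) = 0 := by linear_combination h1
      have h3 : e i * e' j - e j * e' i = 0 := by
        rcases mul_eq_zero.1 h2 with h4 | h4
        · omega
        · exact h4
      rw [hge]
      simp only [Pi.smul_apply, smul_eq_mul]
      linear_combination (-g) * h3)
    exact ⟨t, by rw [← ht]; abel⟩
  choose! τ hτ using hline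
  have hinj : Set.InjOn τ C := by
    intro a ha b hb hab
    rw [hτ a ha, hτ b hb, hab]
  have hTcard : l' < (C.image τ).card := by
    rw [card_image_of_injOn hinj]
    exact hy
  obtain ⟨t₀, ht₀, t₁, ht₁, hts⟩ := countL_spread (l := l) (by omega) hTcard (by
    intro t ht
    rw [mem_image] at ht
    obtain ⟨z, hz, rfl⟩ := ht
    refine he.dvd fun i => ?_
    have h1 := hdvd x₁ hx₁ z hz i
    have h2 : z - x₁ = τ z • e := by
      conv_lhs => rw [hτ z hz]
      abel
    rw [h2] at h1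
    simpa only [Pi.smul_apply, smul_eq_mul] using h1)
  rw [mem_image] at ht₀ ht₁
  obtain ⟨x, hx, hxt⟩ := ht₀
  obtain ⟨z, hz, hzt⟩ := ht₁
  set G : ℤ := t₁ - t₀ with hG
  have hxe : x = x₁ + t₀ • e := by rw [← hxt]; exact hτ x hx
  have hze : x + G • e = z := by
    rw [hτ z hz, hzt, hxe, hG, sub_smul]
    abel
  have hxL := hCL x hx
  have hzL := hCL z hz
  set κ : ℤ := k₁ + 2 * t₀ with hκ
  have hvx : vs c x = κ • e := by
    funext i
    have h1 := congrFun hve i
    simp only [vs, Pi.smul_apply, smul_eq_mul] at h1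
    rw [hxe, hκ]
    simp only [vs, Pi.add_apply, Pi.smul_apply, smul_eq_mul]
    linear_combination h1
  have hκ0 : 0 < κ := by
    have h1 := hvs0 x hx
    rw [hvx, map_zsmul, smul_eq_mul] at h1
    exact (mul_pos_iff_of_pos_right hfe).1 h1
  obtain ⟨l₀, i, hil, hel⟩ := ax h.n2 he.ne_zero
  obtain ⟨σ, hσ, hfσ⟩ : ∃ σ : ℤ, (σ = 1 ∨ σ = -1) ∧ 0 ≤ σ * f (Pi.single i 1) := by
    rcases le_or_gt 0 (f (Pi.single i 1)) with h1 | h1
    · exact ⟨1, Or.inl rfl, by rw [one_mul]; exact h1⟩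
    · exact ⟨-1, Or.inr rfl, by linarith⟩
  have hσ1 : |σ| = 1 := by
    rcases hσ with h1 | h1 <;> rw [h1] <;> norm_num
  have hJ := h.J1
  have hJr := h.Jr
  have hr64 : 64 * J ≤ r := by
    refine le_trans ?_ hJr
    exact Nat.mul_le_mul_left _ (Nat.le_mul_of_pos_right _ hk0)
  have hpush : ∀ t : ℤ, 0 ≤ t → t + (20 * kap : ℕ) ≤ G →
      x + t • e + σ • (Pi.single i 1 : Fin n → ℤ) ∈ L := by
    intro t h0 h1
    have hend : x + t • e + ((20 * kap : ℕ) : ℤ) • e ∈ L := by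
      rw [add_assoc, ← add_smul]
      exact h.tw.hL.seg hxL.1 (by rw [hze]; exact hzL.1) (by positivity) h1
    refine push (c := c) h.tw.hL h.tw.sL (ρ := r - 2 * J) ?_ (by omega) (κ := κ + 2 * t)
      (e := e) (j := ((20 * kap : ℕ) : ℤ)) ?_ (by omega) (by positivity) hend ?_ i
    · intro w hw
      refine h.coreL fun i => ?_
      have h2 := hw i
      omega
    · funext i
      have h2 := congrFun hvx i
      simp only [vs, Pi.add_apply, Pi.smul_apply, smul_eq_mul] at h2 ⊢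
      linear_combination h2
    · have h2 := h.outL hend l₀
      have h3 : vs c (x + t • e + ((20 * kap : ℕ) : ℤ) • e) l₀ =
          (κ + 2 * t + 2 * ((20 * kap : ℕ) : ℤ)) * e l₀ := by
        have h4 := congrFun hvx l₀
        simp only [vs, Pi.add_apply, Pi.smul_apply, smul_eq_mul] at h4 ⊢
        linear_combination h4
      rw [h3, abs_mul] at h2
      have h5 : 1 ≤ |e l₀| := Int.one_le_abs hel
      have h6 : κ + 2 * t + 2 * ((20 * kap : ℕ) : ℤ) ≤ 5 * R := by
        have h7 := le_abs_self (κ + 2 * t + 2 * ((20 * kap : ℕ) : ℤ))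
        have h8 := le_mul_of_one_le_right (abs_nonneg (κ + 2 * t + 2 * ((20 * kap : ℕ) : ℤ))) h5
        linarith
      have h7 : (R : ℤ) ≤ kap * r := by exact_mod_cast h.Rr
      have h8 : ((r - 2 * J : ℕ) : ℤ) = r - 2 * J := by omega
      rw [hσ1, h8]
      have h9 : (4 : ℤ) * kap * (1 + J) ≤ kap * r := by
        have h10 : (4 : ℤ) * (1 + J) ≤ r := by omega
        have h11 : (0 : ℤ) ≤ kap := by positivity
        nlinarith
      push_cast at h6 ⊢
      nlinarith
  -- the shifted segment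
  set x' := x + σ • (Pi.single i 1 : Fin n → ℤ) with hx'
  have hlarge : (l : ℤ) + (20 * kap : ℕ) ≤ G := by
    have h1 : (l : ℤ) * l' = l * (20 * kap : ℕ) + l := by
      rw [hl']
      push_cast
      ring
    have h2 : ((20 * kap : ℕ) : ℤ) ≤ l * (20 * kap : ℕ) :=
      le_mul_of_one_le_left (by positivity) (by omega)
    omega
  have hx'L : ∀ t : ℤ, 0 ≤ t → t + (20 * kap : ℕ) ≤ G → x' + t • e ∈ L := by
    intro t h0 h1
    have h2 := hpush t h0 h1
    have h3 : x' + t • e = x + t • e + σ • (Pi.single i 1 : Fin n → ℤ) := by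
      rw [hx']
      abel
    rwa [h3]
  have hfx' : ∀ t : ℤ, 0 ≤ t → φ < f (x' + t • e) := by
    intro t h0
    rw [hx', map_add, map_add, map_zsmul, map_zsmul, smul_eq_mul, smul_eq_mul]
    have h1 := mul_nonneg h0 hfe.le
    have h2 := hxL.2
    linarith
  have h0L := hx'L 0 le_rfl (by omega)
  have h0f := hfx' 0 le_rfl
  rw [zero_smul, add_zero] at h0L h0f
  refine countL_run h f hE he h0L h0f (g := G - (20 * kap : ℕ)) (by omega)
    (hx'L _ (by omega) (by omega)) (hfx' _ (by omega)) ⟨l₀, i, ?_⟩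
  have h1 : vs c x' l₀ = κ * e l₀ := by
    have h2 := congrFun hvx l₀
    rw [hx']
    simp only [vs, Pi.add_apply, Pi.smul_apply, smul_eq_mul] at h2 ⊢
    rw [Pi.single_eq_of_ne (Ne.symm hil)]
    linear_combination h2
  have h2 : vs c x' i = κ * e i + 2 * σ := by
    have h2 := congrFun hvx i
    rw [hx']
    simp only [vs, Pi.add_apply, Pi.smul_apply, smul_eq_mul] at h2 ⊢
    rw [Pi.single_eq_same]
    linear_combination h2
  rw [h1, h2]
  have h3 : κ * e l₀ * e i - (κ * e i + 2 * σ) * e l₀ = -(2 * σ * e l₀) := by ring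
  rw [h3]
  have h4 : σ ≠ 0 := by
    rcases hσ with h5 | h5 <;> rw [h5] <;> norm_num
  exact neg_ne_zero.2 (mul_ne_zero (mul_ne_zero two_ne_zero h4) hel)

end Pool.Agent.Lib.MP_8cf263_co
end

section

/-!
# Round sets, file RdShort: short columns are shallow

`Df.neg`: `Df K L x → Df K L (c - x)`; `Df.mem`: `Df K L x → x ∈ K ∪ L`.

`FA_le`, `FB_le`, `FC_le`: unfold `Fr.Le` (for `FC`: `0 ≤ 1 ≤ M₀`).

Frame `FA`: `w` is the direction number `iu m`, `e` the direction number `iv m`, `g x = x (iu m)`,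
`FA.Le 1`.  Put `f = lfh m N FA`, `W = Wq E J (JJ kap J) 2`, `δ = 2 + 2 M (2 W + 1) ^ 2`,
`Ψ = pl Φ FA p`, `ψ = cm Ψ`; by `pl_SD2` (`Q = 1`) and `SD2.cmSD` `ψ` satisfies `SD1 (μ / 4) (4 M)`, with
lower bound `b₀ = mg Φ m (em p)` (`pl_cm_ge`, `pl_cm_near`).  `p` is a point of `K Δ L` whose first
`m` coordinates are lexicographically maximal (`hmax`).  The level consists of the `z` which agree
with `p` in the coordinates `< m`.

`short_col`.  If `z` agrees with `p` in the coordinates `< m`, `Df K L z` and `Cl K L e z W` then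
`T - δ ≤ ψ (z (iu m) - p (iu m)) ≤ T`.
Proof.  Put `i = z (iu m) - p (iu m)`; by `Fr.coord` `z = p + i • w + t • e` for some `t`.
Upper bound: `Cl.memK` gives a point `z + s • e ∈ K`, so `Ψ i (t + s) ≤ T` (`pl_int`).  Lower bound:
otherwise `ψ i + 2 + 4 M (2 W + 1) ^ 2 / 2 ≤ T`, and `SD1.run` for the column `i` (`l = 2 W`, lower
bound `ψ i`) gives `t₁` with `p + i w + (t₁ + s) e ∈ K` for `0 ≤ s ≤ 2 W`, contradicting
`Cl.not_run` (for `z`, with `t₁ - t`).
-/

set_option autoImplicit false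

namespace Pool.Agent.Lib.MP_8cf263_co

open Finset

theorem Df.mem {n : ℕ} {K L : Finset (Fin n → ℤ)} {x : Fin n → ℤ} (hx : Df K L x) : x ∈ K ∪ L := by
  unfold Df at hx
  rw [mem_union]
  by_contra h
  push Not at h
  exact hx (iff_of_false h.1 h.2)

theorem Df.neg {n : ℕ} {K L : Finset (Fin n → ℤ)} {c x : Fin n → ℤ} (h : Tw K L c)
    (hx : Df K L x) : Df K L (c - x) := by
  unfold Df at hx ⊢
  rw [← h.sK x, ← h.sL x]
  exact hx

theorem FA_le : FA.Le 1 := by
  unfold Fr.Le FA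
  norm_num

theorem FB_le : FB.Le 1 := by
  unfold Fr.Le FB
  norm_num

theorem FC_le {M₀ : ℕ} (h : 1 ≤ M₀) : (FC M₀).Le M₀ := by
  have h0 : (0 : ℤ) ≤ M₀ := Int.natCast_nonneg _
  have h1 : (1 : ℤ) ≤ M₀ := by exact_mod_cast h
  unfold Fr.Le FC
  refine ⟨?_, ?_, ?_, ?_⟩
  · simp
  · simpa using h1
  · simpa using h1
  · simp

variable {m : ℕ} {K L : Finset (Fin (m + 2) → ℤ)}

theorem short_col {Φ : (Fin (m + 2) → ℝ) → ℝ} {μ M b T : ℝ}
    (hΦ : SDn Φ μ M) (hμ : 0 < μ) (hM : μ ≤ M) (hb : ∀ x, b ≤ Φ x)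
    (hK : ∀ x, x ∈ K ↔ Φ (em x) ≤ T) {p z : Fin (m + 2) → ℤ} {W : ℕ}
    (hz : ∀ i : Fin (m + 2), i.1 < m → z i = p i) (hD : Df K L z) (hCl : Cl K L (FA.e m) z W) :
    T - (2 + 2 * M * (2 * (W : ℝ) + 1) ^ 2) ≤ cm (pl Φ FA p) ((z (iu m) - p (iu m) : ℤ) : ℝ) ∧
      cm (pl Φ FA p) ((z (iu m) - p (iu m) : ℤ) : ℝ) ≤ T := by
  have hM0 : 0 ≤ M := hμ.le.trans hM
  have hg : ∀ x : Fin (m + 2) → ℤ, FA.g m x = x (iu m) := by
    intro x
    unfold Fr.g FA
    simp
  obtain ⟨t, ht⟩ := FA.coord (x := p) (y := z) (fun i hi => (hz i hi).symm)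
  rw [hg, hg] at ht
  obtain ⟨i, hi⟩ : ∃ i : ℤ, i = z (iu m) - p (iu m) := ⟨_, rfl⟩
  rw [← hi] at ht ⊢
  have hzs : ∀ s : ℤ, z + s • FA.e m = p + i • FA.w m + (t + s) • FA.e m := by
    intro s
    rw [ht, add_smul, add_assoc]
  have hbp : ∀ x y, b ≤ pl Φ FA p x y := fun x y => hb _
  constructor
  · by_contra hcon
    push Not at hcon
    have hSD := (pl_SD2 hΦ hμ.le hM0 (F := FA) (Q := 1) (by exact_mod_cast FA_le) le_rfl p).col
      (i : ℝ)
    obtain ⟨t₁, ht₁⟩ := hSD.run (b := cm (pl Φ FA p) (i : ℝ)) (T := T) (l := 2 * W)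
      (fun y => cm_le hbp _ y) (by positivity)
      (by
        obtain ⟨y, hy⟩ := cm_near (Φ := pl Φ FA p) (i : ℝ) one_pos
        exact ⟨y, hy.le⟩)
      (by
        push_cast
        nlinarith [hcon])
    refine hCl.not_run (t₁ := t₁ - t) ?_
    intro s hs0 hs1
    rw [hzs]
    have h1 := ht₁ s hs0 (by exact_mod_cast hs1)
    rw [hK]
    have h2 := pl_int (Φ := Φ) FA p i (t₁ + s)
    have h3 : t + (t₁ - t + s) = t₁ + s := by ring
    rw [h3, ← h2]
    exact h1
  · obtain ⟨s, hs, _⟩ := hCl.memK hD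
    rw [hzs, hK] at hs
    have h2 := pl_int (Φ := Φ) FA p i (t + s)
    rw [← h2] at hs
    exact (cm_le hbp _ _).trans hs

end Pool.Agent.Lib.MP_8cf263_co
end

section

/-!
# Round sets, file RdPoleA: a deep column with few points of `K` above it is a pole

`TwF.diff`: `|x i - y i| ≤ 5 R` for `x, y ∈ K ∪ L` (`2 (x - y) = vs c x - vs c y`, `outU`), and
`|g x - g y| ≤ 10 Q R` if the entries of `F` are bounded by `Q` (`Fr.g_bd` for `x - y`, `d = 5 R`;
`g x - g y = g (x - y)` by `Fr.g_add`, `Fr.g_smul`).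

`pole_of_col`.  Let `Ψ = pl Φ F a` (`K = {x : Φ (em x) ≤ T}`) and let the column `γ` be so deep that
`cm Ψ γ + 2 + (4 Q ^ 2 M) (ell + 1) ^ 2 / 2 ≤ T`.  Suppose that at most `X'` points `x ∈ K` are
lexicographically above `a` in the first `m` coordinates or agree with `a` there and satisfy
`g a + γ < g x`; and `2 Q (X' + 1) + 1 ≤ r`.  Then some point of column `γ` is a pole with
`E = X' + (X' + J + 20 kap + 3) ^ (m + 3)`.
Proof.  By `pl_SD2`, `SD2.col`, `cm_le`, `cm_near` and `SD1.run` (lower bound `cm Ψ γ`) there is an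
integer `t₁` with `Ψ γ (t₁ + t) ≤ T`, i.e. (`pl_int`) `a + γ • w + (t₁ + t) • e ∈ K`, for
`0 ≤ t ≤ ell`.  Let `a₀ = a + γ • w + t₁ • e`; `f = lfh m N F`; `a₀` agrees with `a` in the
coordinates `< m`, `g a₀ = g a + γ`.
`pe`: `Fr.prim`.  `fe`: `lf_e`.  `run`: just shown.
`sep`: `lf_eq` (`TwF.diff`, `d = 10 Q R < N`) and `Fr.line`.
(1) The set `A = {x ∈ K : f a₀ < f x}` has at most `X'` elements: `a₀ ∈ K` (run, `t = 0`), so `lf_lt`
applies, and `a₀` agrees with `a` in the coordinates `< m`.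
`half`: suppose `2 f a₀ ≤ f c`.  Let `h₀ i = (c i + 1) / 2`, so `vs c h₀ i ∈ {0, 1}`, and let `h₁` be
one of `h₀`, `c - h₀` such that `f c ≤ 2 f h₁` (`f h₀ + f (c - h₀) = f c`); `|vs c h₁ i| ≤ 1`.  For
`1 ≤ s ≤ X' + 1` the points `h₁ + s • w` satisfy `|vs c (..) i| ≤ 1 + 2 s Q ≤ r`, so they are in `K`
(`core`), and `f (h₁ + s • w) = f h₁ + s` (`lf_w`), so `2 f (h₁ + s • w) ≥ f c + 2 s > 2 f a₀`.  These
are `X' + 1` different elements of `A` (`f` separates them), a contradiction to (1).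
`top`: by (1) and `TwF.countL` (`φ = f a₀`, `E = X'`, `n = m + 2`), and
`(K ∪ L).filter _ = K.filter _ ∪ L.filter _`.
-/

set_option autoImplicit false

namespace Pool.Agent.Lib.MP_8cf263_co

open Finset

variable {m : ℕ} {K L : Finset (Fin (m + 2) → ℤ)} {c : Fin (m + 2) → ℤ} {R r J kap : ℕ}

theorem TwF.diff (h : TwF K L c R r J kap) {x y : Fin (m + 2) → ℤ} (hx : x ∈ K ∪ L)
    (hy : y ∈ K ∪ L) : (∀ i, |x i - y i| ≤ 5 * R) ∧
      ∀ (F : Fr) (Q : ℤ), F.Le Q → |F.g m x - F.g m y| ≤ 10 * Q * R := by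
  have h1 : ∀ i, |x i - y i| ≤ 5 * R := by
    intro i
    have h2 := h.outU hx i
    have h3 := h.outU hy i
    have h4 : 2 * (x i - y i) = vs c x i - vs c y i := by
      simp only [vs]
      ring
    rw [abs_le] at h2 h3 ⊢
    constructor <;> linarith [h2.1, h2.2, h3.1, h3.2]
  refine ⟨h1, fun F Q hQ => ?_⟩
  have h2 : F.g m x - F.g m y = F.g m (x - y) := by
    have h3 := F.g_add (m := m) y (x - y)
    rw [add_sub_cancel] at h3
    linarith
  rw [h2]
  have h3 := F.g_bd (m := m) hQ (x := x - y) (d := 5 * R) (fun i => by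
    rw [Pi.sub_apply]
    exact h1 i)
  calc _ ≤ 2 * Q * (5 * (R : ℤ)) := h3
    _ = 10 * Q * R := by ring

theorem pole_of_col (h : TwF K L c R r J kap) {Φ : (Fin (m + 2) → ℝ) → ℝ} {μ M b T : ℝ}
    (hΦ : SDn Φ μ M) (hμ : 0 < μ) (hM : μ ≤ M) (hb : ∀ x, b ≤ Φ x)
    (hK : ∀ x, x ∈ K ↔ Φ (em x) ≤ T) (a : Fin (m + 2) → ℤ) {F : Fr} {Q : ℕ} (hQ : F.Le Q)
    (hQ1 : 1 ≤ Q) {N : ℤ} (hN : 10 * Q * R < N) {X' ell : ℕ} {γ : ℤ}
    (hcnt : (K.filter (fun x => x ∈ abv K m a ∨ ((∀ i : Fin (m + 2), i.1 < m → x i = a i) ∧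
      F.g m a + γ < F.g m x))).card ≤ X')
    (hr : 2 * Q * (X' + 1) + 1 ≤ r)
    (hdeep : cm (pl Φ F a) γ + 2 + (4 * (Q : ℝ) ^ 2 * M) * ((ell : ℝ) + 1) ^ 2 / 2 ≤ T) :
    ∃ a₀, Pole K L c (lfh m N F) (F.e m) a₀ (X' + (X' + J + 20 * kap + 3) ^ (m + 3)) ell := by
  classical
  have hM0 : 0 ≤ M := hμ.le.trans hM
  have hQZ : (1 : ℤ) ≤ Q := by exact_mod_cast hQ1
  have hS := pl_SD2 hΦ hμ.le hM0 hQ hQ1 a
  have hcol := hS.col (γ : ℝ)
  have hlow : ∀ t : ℝ, cm (pl Φ F a) γ ≤ pl Φ F a γ t :=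
    fun t => cm_le (b := b) (fun x y => hb _) γ t
  obtain ⟨t₀, ht₀⟩ := cm_near (Φ := pl Φ F a) (γ : ℝ) one_pos
  obtain ⟨t₁, ht₁⟩ := hcol.run hlow (by positivity) ⟨t₀, ht₀.le⟩ (l := ell) hdeep
  obtain ⟨a₀, ha₀⟩ : ∃ a₀, a₀ = a + γ • F.w m + t₁ • F.e m := ⟨_, rfl⟩
  have hrun : ∀ t : ℤ, 0 ≤ t → t ≤ ell → a₀ + t • F.e m ∈ K := by
    intro t h0 h1
    have h2 := ht₁ t h0 h1
    rw [pl_int] at h2
    rw [hK, ha₀, add_assoc, ← add_smul]
    exact h2
  have haK : a₀ ∈ K := by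
    have h1 := hrun 0 le_rfl (by positivity)
    rwa [zero_smul, add_zero] at h1
  have hlowc : ∀ i : Fin (m + 2), i.1 < m → a₀ i = a i := by
    intro i hi
    rw [ha₀]
    simp [F.low_w hi, F.low_e hi]
  have hg0 : F.g m a₀ = F.g m a + γ := by
    rw [ha₀, F.g_add, F.g_add, F.g_smul, F.g_smul, F.g_e, F.g_w]
    ring
  have hR0 : (0 : ℤ) ≤ R := by positivity
  have h5R : (5 : ℤ) * R ≤ 10 * Q * R := by
    have := mul_le_mul_of_nonneg_right hQZ hR0
    linarith
  -- the points of `K` above `a₀`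
  have hA : (K.filter (fun x => lfh m N F a₀ < lfh m N F x)).card ≤ X' := by
    refine le_trans (card_le_card ?_) hcnt
    intro x hx
    rw [mem_filter] at hx ⊢
    refine ⟨hx.1, ?_⟩
    obtain ⟨d1, d2⟩ := h.diff (mem_union_left L haK) (mem_union_left L hx.1)
    have h2 : lf m N F a₀ < lf m N F x := hx.2
    rw [lf_lt F (d := 10 * Q * R) hN (fun i => (d1 i).trans h5R) (d2 F Q hQ)] at h2
    rcases h2 with ⟨j, hj, h3, h4⟩ | ⟨h3, h4⟩
    · left
      unfold abv
      rw [mem_filter]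
      refine ⟨hx.1, j, hj, fun i hi => ?_, ?_⟩
      · have hi' : i.1 < j.1 := hi
        rw [← h3 i hi, hlowc i (by omega)]
      · rw [← hlowc j hj]
        exact h4
    · right
      refine ⟨fun i hi => ?_, ?_⟩
      · rw [← h3 i hi, hlowc i hi]
      · rw [← hg0]
        exact h4
  have hhalf : lfh m N F c < 2 * lfh m N F a₀ := by
    by_contra hcon
    push Not at hcon
    obtain ⟨h₁, hh1, hh2⟩ : ∃ h₁ : Fin (m + 2) → ℤ, (∀ i, |vs c h₁ i| ≤ 1) ∧
        lfh m N F c ≤ 2 * lfh m N F h₁ := by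
      let h₀ : Fin (m + 2) → ℤ := fun i => (c i + 1) / 2
      have e1 : ∀ i, 0 ≤ vs c h₀ i ∧ vs c h₀ i ≤ 1 := by
        intro i
        simp only [vs, h₀]
        omega
      have e2 : lfh m N F h₀ + lfh m N F (c - h₀) = lfh m N F c := by
        rw [← map_add, add_sub_cancel]
      rcases le_total (lfh m N F c) (2 * lfh m N F h₀) with h3 | h3
      · refine ⟨h₀, fun i => ?_, h3⟩
        rw [abs_le]
        have := e1 i
        constructor <;> linarith [this.1, this.2]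
      · refine ⟨c - h₀, fun i => ?_, by linarith⟩
        have h4 : vs c (c - h₀) i = - vs c h₀ i := by
          simp only [vs, Pi.sub_apply]
          ring
        rw [h4, abs_neg, abs_le]
        have := e1 i
        constructor <;> linarith [this.1, this.2]
    have hinj : Set.InjOn (fun s : ℤ => h₁ + s • F.w m) (Icc (1 : ℤ) (X' + 1) : Finset ℤ) := by
      intro s _ t _ hst
      have h3 := congrArg (lfh m N F) hst
      simp only [map_add, map_zsmul, lf_w, smul_eq_mul, mul_one] at h3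
      linarith
    have hsub : (Icc (1 : ℤ) (X' + 1)).image (fun s : ℤ => h₁ + s • F.w m) ⊆
        K.filter (fun x => lfh m N F a₀ < lfh m N F x) := by
      intro x hx
      rw [mem_image] at hx
      obtain ⟨s, hs, rfl⟩ := hx
      rw [mem_Icc] at hs
      rw [mem_filter]
      refine ⟨h.core _ fun i => ?_, ?_⟩
      · have h3 : vs c (h₁ + s • F.w m) i = vs c h₁ i + 2 * s * F.w m i := by
          simp only [vs, Pi.add_apply, Pi.smul_apply, smul_eq_mul]
          ring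
        rw [h3]
        have h4 := (F.bd (m := m) hQ i).1
        have h5 : |2 * s * F.w m i| ≤ 2 * (X' + 1) * Q := by
          rw [abs_mul, abs_of_nonneg (by linarith)]
          exact mul_le_mul (by linarith) h4 (abs_nonneg _) (by positivity)
        have h6 : (2 * Q * (X' + 1) + 1 : ℤ) ≤ r := by exact_mod_cast hr
        calc _ ≤ |vs c h₁ i| + |2 * s * F.w m i| := abs_add_le _ _
          _ ≤ 1 + 2 * (X' + 1) * Q := add_le_add (hh1 i) h5
          _ = 2 * Q * (X' + 1) + 1 := by ring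
          _ ≤ r := h6
      · rw [map_add, map_zsmul, lf_w, smul_eq_mul, mul_one]
        linarith
    have hcard := card_le_card hsub
    rw [card_image_of_injOn hinj, Int.card_Icc] at hcard
    omega
  refine ⟨a₀, F.prim m, lf_e m N F, ?_, hrun, ?_, hhalf⟩
  · intro x hx y hy hxy
    obtain ⟨d1, d2⟩ := h.diff hx hy
    have h2 : lf m N F x = lf m N F y := hxy
    rw [lf_eq F (d := 10 * Q * R) hN (fun i => (d1 i).trans h5R) (d2 F Q hQ)] at h2
    exact F.line h2.1 h2.2
  · rw [filter_union]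
    refine (card_union_le _ _).trans (add_le_add hA ?_)
    exact h.countL (lfh m N F) hhalf.le hA

end Pool.Agent.Lib.MP_8cf263_co
end
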