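import Pool.Agent.Lib.MP_8cf263_co.RsCap
import Pool.Agent.Lib.MP_8cf263_co.Face
import Pool.Agent.Lib.MP_8cf263_co.RsHalve
import Pool.Agent.Lib.MP_8cf263_co.RdPoleA
import Pool.Agent.Lib.MP_8cf263_co.RdPole

section

/-!
# One round spot, file RsTri: lattice points in triangles

Frames: `FA` (columns, `e = (0, 1)`, `g x = x (iu m)`), `FC s` (`e = (1, s)`,
`g x = s x (iu m) - x (iv m)`), `FD s` (`e = (1, -s)`, `g x = s x (iu m) + x (iv m)`).

`tri`.  Let `ζ, v, a ∈ A` agree in the coordinates `< m`, `ζ (iu) ≤ a (iu) < v (iu)`,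
`s (v (iu) - ζ (iu)) ≤ v (iv) - ζ (iv)`, and let all points `a + t e ∈ A` of the column of `a` satisfy
`w₀ ≤ a (iv) + t`.  Then `w₀ ≤ v (iv) - s (v (iu) - a (iu))`.
Proof.  Suppose not, so `v (iv) - s γ ≤ w₀ - 1` with `γ = v (iu) - a (iu) > 0`; let
`γ' = v (iu) - ζ (iu) ≥ γ`.  The real point `ρ = (γ / γ') ζ + (1 - γ / γ') v` is in the convex hull of
`A`, has `iu`-coordinate `a (iu)` and `iv`-coordinate
`y = v (iv) - (γ / γ') (v (iv) - ζ (iv)) ≤ v (iv) - s γ ≤ w₀ - 1`, while `w₀ ≤ a (iv)` (`t = 0`).  So the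
lattice point `b = a + (w₀ - 1 - a (iv)) • e` lies on the segment from `ρ` to `a`
(`b = θ ρ + (1 - θ) a` with `θ = (a (iv) - w₀ + 1) / (a (iv) - y)`), hence `b ∈ A` (`LC`), but its
`iv`-coordinate is `w₀ - 1 < w₀`, a contradiction.
`tri'` is the mirror image (`iv` replaced by `- iv`; prove it in the same way, or apply `tri` to the
image of `A` under the reflection, or prove both by one lemma with a sign `ε = ± 1`).
-/

set_option autoImplicit false

namespace Pool.Agent.Lib.MP_8cf263_co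

open Finset

/-- skew lines `e = (1, -s)` -/
def FD (s : ℤ) : Fr := ⟨0, 1, 1, -s, -1, Or.inr rfl, by ring⟩

theorem FD_le {s : ℕ} (h : 1 ≤ s) : (FD s).Le s := by
  have h1 : (1 : ℤ) ≤ (s : ℤ) := by exact_mod_cast h
  have h0 : (0 : ℤ) ≤ (s : ℤ) := by omega
  refine ⟨?_, ?_, ?_, ?_⟩
  · show |(0 : ℤ)| ≤ s
    simp
  · show |(1 : ℤ)| ≤ s
    simpa using h1
  · show |(1 : ℤ)| ≤ s
    simpa using h1
  · show |-(s : ℤ)| ≤ s
    rw [abs_neg, abs_of_nonneg h0]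

private theorem low_or' {m : ℕ} (i : Fin (m + 2)) : i.1 < m ∨ i = iu m ∨ i = iv m := by
  have := i.2
  rcases Nat.lt_or_ge i.1 m with h | h
  · exact Or.inl h
  · rcases Nat.eq_or_lt_of_le h with h1 | h1
    · exact Or.inr (Or.inl (Fin.ext h1.symm))
    · exact Or.inr (Or.inr (Fin.ext (by simp [iv]; omega)))

private theorem FA_e_iu (m : ℕ) : FA.e m (iu m) = 0 := by
  have h : iu m ≠ iv m := by
    intro h
    have := congrArg Fin.val h
    simp [iu, iv] at this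
  simp [Fr.e, FA, h]

private theorem FA_e_iv (m : ℕ) : FA.e m (iv m) = 1 := by
  have h : iv m ≠ iu m := by
    intro h
    have := congrArg Fin.val h
    simp [iu, iv] at this
  simp [Fr.e, FA, h]

private theorem aux {m : ℕ} {A : Finset (Fin (m + 2) → ℤ)} (hA : LC A) {ζ v a : Fin (m + 2) → ℤ}
    (hζ : ζ ∈ A) (hv : v ∈ A) (ha : a ∈ A) (h1 : ∀ i : Fin (m + 2), i.1 < m → ζ i = a i)
    (h2 : ∀ i : Fin (m + 2), i.1 < m → v i = a i) {s ε : ℤ} (hε : ε * ε = 1)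
    (hx1 : ζ (iu m) ≤ a (iu m)) (hx2 : a (iu m) < v (iu m))
    (hs : s * (v (iu m) - ζ (iu m)) ≤ ε * (v (iv m) - ζ (iv m))) {w : ℤ}
    (hw : ∀ t : ℤ, a + t • FA.e m ∈ A → w ≤ ε * (a (iv m) + t)) :
    w ≤ ε * v (iv m) - s * (v (iu m) - a (iu m)) := by
  by_contra hcon
  push Not at hcon
  have h0 : w ≤ ε * a (iv m) := by
    have := hw 0 (by simpa using ha)
    simpa using this
  set t : ℤ := ε * (w - 1) - a (iv m) with ht
  have hb : a + t • FA.e m ∈ A := by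
    apply hA
    have mζ : em ζ ∈ convexHull ℝ (em '' (A : Set (Fin (m + 2) → ℤ))) :=
      subset_convexHull ℝ _ ⟨ζ, hζ, rfl⟩
    have mv : em v ∈ convexHull ℝ (em '' (A : Set (Fin (m + 2) → ℤ))) :=
      subset_convexHull ℝ _ ⟨v, hv, rfl⟩
    have ma : em a ∈ convexHull ℝ (em '' (A : Set (Fin (m + 2) → ℤ))) :=
      subset_convexHull ℝ _ ⟨a, ha, rfl⟩
    have hC := convex_convexHull ℝ (em '' (A : Set (Fin (m + 2) → ℤ)))
    have hεr : (ε : ℝ) * ε = 1 := by exact_mod_cast hε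
    have hx1r : (ζ (iu m) : ℝ) ≤ a (iu m) := by exact_mod_cast hx1
    have hx2r : (a (iu m) : ℝ) < v (iu m) := by exact_mod_cast hx2
    have hsr : (s : ℝ) * (v (iu m) - ζ (iu m)) ≤ ε * (v (iv m) - ζ (iv m)) := by exact_mod_cast hs
    have h0r : (w : ℝ) ≤ ε * a (iv m) := by exact_mod_cast h0
    have hconr : (ε : ℝ) * v (iv m) - s * (v (iu m) - a (iu m)) ≤ w - 1 := by
      have : ε * v (iv m) - s * (v (iu m) - a (iu m)) ≤ w - 1 := by omega
      exact_mod_cast this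
    have htr : (t : ℝ) = ε * (w - 1) - a (iv m) := by
      rw [ht]
      push_cast
      ring
    have hg' : (0 : ℝ) < v (iu m) - ζ (iu m) := by linarith
    have hg : (0 : ℝ) < v (iu m) - a (iu m) := by linarith
    obtain ⟨l, hl0, hl1, hlm⟩ : ∃ l : ℝ, 0 ≤ l ∧ l ≤ 1 ∧
        l * (v (iu m) - ζ (iu m)) = v (iu m) - a (iu m) := by
      refine ⟨(v (iu m) - a (iu m)) / (v (iu m) - ζ (iu m)), by positivity, ?_, ?_⟩
      · rw [div_le_one hg']
        linarith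
      · field_simp
    have hρ : l • em ζ + (1 - l) • em v ∈ convexHull ℝ (em '' (A : Set (Fin (m + 2) → ℤ))) :=
      hC mζ mv hl0 (by linarith) (by ring)
    -- the second coordinate of the auxiliary point
    obtain ⟨y, hy⟩ : ∃ y : ℝ, y = l * ζ (iv m) + (1 - l) * v (iv m) := ⟨_, rfl⟩
    have hyw : ε * y ≤ w - 1 := by
      have h3 : (ε : ℝ) * y = ε * v (iv m) - l * (ε * (v (iv m) - ζ (iv m))) := by
        rw [hy]
        ring
      have h4 : l * ((s : ℝ) * (v (iu m) - ζ (iu m))) ≤ l * (ε * (v (iv m) - ζ (iv m))) :=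
        mul_le_mul_of_nonneg_left hsr hl0
      have h5 : l * ((s : ℝ) * (v (iu m) - ζ (iu m))) = s * (v (iu m) - a (iu m)) := by
        rw [← hlm]
        ring
      linarith
    have hden : (0 : ℝ) < ε * a (iv m) - ε * y := by linarith
    obtain ⟨θ, hθ0, hθ1, hθm⟩ : ∃ θ : ℝ, 0 ≤ θ ∧ θ ≤ 1 ∧
        θ * (ε * a (iv m) - ε * y) = ε * a (iv m) - (w - 1) := by
      refine ⟨(ε * a (iv m) - (w - 1)) / (ε * a (iv m) - ε * y),
        div_nonneg (by linarith) hden.le, ?_, div_mul_cancel₀ _ hden.ne'⟩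
      rw [div_le_one hden]
      linarith
    have hmem := hC hρ ma hθ0 (show 0 ≤ 1 - θ by linarith) (by ring)
    convert hmem using 1
    funext i
    simp only [em, Pi.add_apply, Pi.smul_apply, smul_eq_mul]
    rcases low_or' i with hi | rfl | rfl
    · rw [FA.low_e hi, h1 i hi, h2 i hi]
      push_cast
      ring
    · rw [FA_e_iu]
      push_cast
      linear_combination θ * hlm
    · rw [FA_e_iv]
      push_cast
      have h6 : θ * (a (iv m) - y) = a (iv m) - ε * (w - 1) := by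
        linear_combination (ε : ℝ) * hθm - (θ * (a (iv m) - y) - a (iv m)) * hεr
      rw [htr]
      rw [hy] at h6
      linear_combination h6
  have h7 := hw t hb
  have h8 : ε * (a (iv m) + t) = w - 1 := by
    rw [ht]
    linear_combination (w - 1) * hε
  omega

theorem tri {m : ℕ} {A : Finset (Fin (m + 2) → ℤ)} (hA : LC A) {ζ v a : Fin (m + 2) → ℤ}
    (hζ : ζ ∈ A) (hv : v ∈ A) (ha : a ∈ A) (h1 : ∀ i : Fin (m + 2), i.1 < m → ζ i = a i)
    (h2 : ∀ i : Fin (m + 2), i.1 < m → v i = a i) {s : ℤ} (hx1 : ζ (iu m) ≤ a (iu m))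
    (hx2 : a (iu m) < v (iu m)) (hs : s * (v (iu m) - ζ (iu m)) ≤ v (iv m) - ζ (iv m)) {w₀ : ℤ}
    (hw : ∀ t : ℤ, a + t • FA.e m ∈ A → w₀ ≤ a (iv m) + t) :
    w₀ ≤ v (iv m) - s * (v (iu m) - a (iu m)) := by
  have h := aux hA hζ hv ha h1 h2 (s := s) (ε := 1) (w := w₀) (by norm_num) hx1 hx2
    (by rw [one_mul]; exact hs) (fun t ht => by rw [one_mul]; exact hw t ht)
  rwa [one_mul] at h

theorem tri' {m : ℕ} {A : Finset (Fin (m + 2) → ℤ)} (hA : LC A) {ζ v a : Fin (m + 2) → ℤ}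
    (hζ : ζ ∈ A) (hv : v ∈ A) (ha : a ∈ A) (h1 : ∀ i : Fin (m + 2), i.1 < m → ζ i = a i)
    (h2 : ∀ i : Fin (m + 2), i.1 < m → v i = a i) {s : ℤ} (hx1 : ζ (iu m) ≤ a (iu m))
    (hx2 : a (iu m) < v (iu m)) (hs : s * (v (iu m) - ζ (iu m)) ≤ ζ (iv m) - v (iv m)) {w₁ : ℤ}
    (hw : ∀ t : ℤ, a + t • FA.e m ∈ A → a (iv m) + t ≤ w₁) :
    v (iv m) + s * (v (iu m) - a (iu m)) ≤ w₁ := by
  have h := aux hA hζ hv ha h1 h2 (s := s) (ε := -1) (w := -w₁) (by norm_num) hx1 hx2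
    (by linarith) (fun t ht => by have := hw t ht; linarith)
  linarith

end Pool.Agent.Lib.MP_8cf263_co
end

section

/-!
# Round sets, file RdRow: the row of a point in a shallow column is long

`SD2.row_long`.  Let `h : SD2 Φ μ M`, `0 < μ ≤ M`, `b ≤ Φ`, `Φ x₀ y₀ ≤ b + 1`, `Φ x y ≤ T` and
`T - δ ≤ Φ x y'` for all `y'`; `0 ≤ δ`, `τ = T - b`.  Let
`s = 6 + 24 M (δ + 1) / μ + M (l + 1) ^ 2 / 2` and assume `s ≤ τ` and `224 M s ^ 2 ≤ μ τ`.  Then there
is an integer `t₁` with `Φ (t₁ + t) y ≤ T` for all integers `0 ≤ t ≤ l`.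
Proof.  By `SD1.run` for the row (`SD2.row`; lower bound of the row is `b' = ⨅ x, Φ x y`, attained up
to `1`) it suffices to find a real `X` with `Φ X y ≤ T - 2 - M (l + 1) ^ 2 / 2` (then
`b' + 2 + M (l + 1) ^ 2 / 2 ≤ T`).
Choose `y₁` with `Φ x y₁ ≤ cm Φ x + 1` (`cm_near`); `cm Φ x ≤ T` because `Φ x y ≤ T`, and
`T - δ ≤ cm Φ x` (`le_cm`).  Choose `k : ℕ` with `s / τ ≤ 1 / 2 ^ k ≤ 2 s / τ` (`0 < s / τ ≤ 1`; take
the greatest `k` with `2 ^ k ≤ τ / s`) and put `λ = 1 / 2 ^ k`, so `s ≤ λ τ ≤ 2 s`.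
Let `A = (x, y₁)`, `u = λ (x₀ - x, y₀ - y₁)`, `d = (0, y - y₁ - λ (y₀ - y₁))`; so
`A + u + d = (x + λ (x₀ - x), y)`.
 (1) `Φ (A + u) ≤ Φ A + λ (b + 1 - Φ A) ≤ T + 1 - λ τ` by `SD2.dyadic`, as `Φ A ≤ T + 1` and
 `(1 - λ) (T + 1) + λ (b + 1) = T + 1 - λ τ`.
 (2) `Φ (A + d) - Φ A ≤ 2 + 2 M |d| ^ 2` by `SD1.near` for the column `x` (lower bound `cm Φ x`,
 `ε = 1`, `t₀ = y₁`): `Φ (A + d) ≤ cm Φ x + 2 + 2 M |d| ^ 2`, and `Φ A ≥ cm Φ x`.
 (3) `SD2.para`: `Φ (A + u + d) ≤ Φ (A + u) + Φ (A + d) - Φ A + M |u + d| ^ 2 / 2`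
 `≤ T + 3 - λ τ + 2 M |d| ^ 2 + M (|u| ^ 2 + |d| ^ 2)`.
 (4) `μ |(x₀ - x, y₀ - y₁)| ^ 2 ≤ 4 (τ + 1) ≤ 8 τ` by `SD2.pair` with `T + 1`
 (`b + 1 ≤ T + 1`; `τ ≥ s ≥ 6`), so `μ |u| ^ 2 ≤ 8 λ ^ 2 τ`.
 (5) `μ (y - y₁) ^ 2 ≤ 4 (δ + 1)` by `SD1.pair` for the column (lower bound `T - δ`, values
 `≤ T + 1`).  So `|d| ^ 2 ≤ 2 (y - y₁) ^ 2 + 2 |u| ^ 2` and `μ |d| ^ 2 ≤ 8 (δ + 1) + 2 μ |u| ^ 2`.
 (6) So `Φ (A + u + d) ≤ T + 3 - λ τ + 24 M (δ + 1) / μ + 7 M |u| ^ 2` and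
 `7 M |u| ^ 2 ≤ 56 M λ ^ 2 τ / μ = 56 M (λ τ) ^ 2 / (μ τ) ≤ 224 M s ^ 2 / (μ τ) ≤ 1`.  Hence
 `Φ (A + u + d) ≤ T + 4 - s + 24 M (δ + 1) / μ = T - 2 - M (l + 1) ^ 2 / 2`.
-/

set_option autoImplicit false

namespace Pool.Agent.Lib.MP_8cf263_co

private theorem rdrow_arith {M μ T b δ s lam τ L FA F1 F2 F3 cmx u1 u2 d yy : ℝ} (hμ : 0 < μ)
    (hM : μ ≤ M) (hτ : τ = T - b) (hδ : 0 ≤ δ) (hL : 0 ≤ L)
    (hs : 6 + 24 * M * (δ + 1) / μ + L = s)
    (h1 : s ≤ τ) (h2 : 224 * M * s ^ 2 ≤ μ * τ) (hl1 : s ≤ lam * τ) (hl2 : lam * τ ≤ 2 * s)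
    (hl3 : lam ≤ 1) (hFA : FA ≤ T + 1) (hF1 : F1 ≤ FA + (b + 1 - FA) * lam)
    (hcm : cmx ≤ FA) (hF2 : F2 ≤ cmx + 2 * 1 + 2 * M * d ^ 2)
    (hF3 : F3 ≤ F1 + F2 - FA + M * ((u1 + 0) ^ 2 + (u2 + d) ^ 2) / 2)
    (hu : μ * (u1 ^ 2 + u2 ^ 2) ≤ 8 * lam ^ 2 * τ) (hyy : μ * yy ^ 2 ≤ 4 * (δ + 1))
    (hd : d = yy - u2) : F3 ≤ T - 2 - L := by
  have hMpos : 0 < M := lt_of_lt_of_le hμ hM
  have hs6 : 6 ≤ s := by
    have : 0 ≤ 24 * M * (δ + 1) / μ := by positivity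
    linarith
  have hτpos : 0 < τ := by linarith
  -- (1)
  have e1 : F1 ≤ T + 1 - lam * τ := by
    have h3 : (1 - lam) * FA ≤ (1 - lam) * (T + 1) := mul_le_mul_of_nonneg_left hFA (by linarith)
    rw [hτ]
    nlinarith
  set U : ℝ := u1 ^ 2 + u2 ^ 2 with hU
  have hU0 : 0 ≤ U := by positivity
  have e2 : (u1 + 0) ^ 2 + (u2 + d) ^ 2 ≤ 2 * U + 2 * d ^ 2 := by
    rw [hU]
    nlinarith [sq_nonneg (u2 - d), sq_nonneg u1]
  have e3 : d ^ 2 ≤ 2 * yy ^ 2 + 2 * U := by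
    rw [hd, hU]
    nlinarith [sq_nonneg (yy + u2), sq_nonneg u1]
  have e4 : M * d ^ 2 ≤ 8 * M * (δ + 1) / μ + 2 * M * U := by
    have h3 : yy ^ 2 ≤ 4 * (δ + 1) / μ := by
      rw [le_div_iff₀ hμ]
      linarith
    have h4 : M * d ^ 2 ≤ M * (2 * (4 * (δ + 1) / μ) + 2 * U) :=
      mul_le_mul_of_nonneg_left (by linarith) hMpos.le
    have h5 : M * (2 * (4 * (δ + 1) / μ) + 2 * U) = 8 * M * (δ + 1) / μ + 2 * M * U := by
      field_simp
      ring
    linarith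
  have e5 : 7 * M * U ≤ 1 := by
    -- μ τ U ≤ 8 (lam τ) ^ 2 ≤ 32 s ^ 2
    have h3 : μ * τ * U ≤ 8 * (lam * τ) ^ 2 := by nlinarith
    have h4 : (lam * τ) ^ 2 ≤ (2 * s) ^ 2 := pow_le_pow_left₀ (by linarith) hl2 2
    have h5 : μ * τ * U ≤ 32 * s ^ 2 := by nlinarith
    have h6 : μ * τ * (7 * M * U) ≤ μ * τ * 1 := by nlinarith
    exact le_of_mul_le_mul_left h6 (by positivity)
  have e6 : M * ((u1 + 0) ^ 2 + (u2 + d) ^ 2) / 2 ≤ M * (2 * U + 2 * d ^ 2) / 2 := by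
    have := mul_le_mul_of_nonneg_left e2 hMpos.le
    linarith
  have e7 : 24 * M * (δ + 1) / μ = 3 * (8 * M * (δ + 1) / μ) := by ring
  nlinarith

theorem SD2.row_long {Φ : ℝ → ℝ → ℝ} {μ M b T δ s : ℝ} {l : ℕ} (h : SD2 Φ μ M)
    (hb : ∀ x y, b ≤ Φ x y) (hμ : 0 < μ) (hM : μ ≤ M) (h0 : ∃ x₀ y₀, Φ x₀ y₀ ≤ b + 1) (hδ : 0 ≤ δ)
    {x y : ℝ} (hxy : Φ x y ≤ T) (hx : ∀ y', T - δ ≤ Φ x y')
    (hs : 6 + 24 * M * (δ + 1) / μ + M * (l + 1) ^ 2 / 2 = s) (h1 : s ≤ T - b)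
    (h2 : 224 * M * s ^ 2 ≤ μ * (T - b)) :
    ∃ t₁ : ℤ, ∀ t : ℤ, 0 ≤ t → t ≤ l → Φ ((t₁ + t : ℤ) : ℝ) y ≤ T := by
  have hMpos : 0 < M := lt_of_lt_of_le hμ hM
  obtain ⟨x₀, y₀, h00⟩ := h0
  obtain ⟨y₁, hy₁⟩ := cm_near (Φ := Φ) x one_pos
  have hcm1 : cm Φ x ≤ Φ x y := cm_le hb x y
  have hcm2 : cm Φ x ≤ Φ x y₁ := cm_le hb x y₁
  have hFA : Φ x y₁ ≤ T + 1 := by linarith
  have hs6 : 6 ≤ s := by
    have e1 : 0 ≤ 24 * M * (δ + 1) / μ := by positivity
    have e2 : 0 ≤ M * ((l : ℝ) + 1) ^ 2 / 2 := by positivity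
    linarith
  obtain ⟨k, hk1, hk2⟩ := exists_nat_pow_near (x := (T - b) / s) (y := (2 : ℝ))
    (by rw [le_div_iff₀ (by linarith)]; linarith) (by norm_num)
  have h2k : (0 : ℝ) < 2 ^ k := by positivity
  rw [le_div_iff₀ (by linarith)] at hk1
  rw [div_lt_iff₀ (by linarith), pow_succ] at hk2
  set lam : ℝ := 1 / 2 ^ k with hlam
  have hlpos : 0 < lam := by positivity
  have hl1 : s ≤ lam * (T - b) := by
    rw [hlam, div_mul_eq_mul_div, one_mul, le_div_iff₀ h2k]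
    linarith
  have hl2 : lam * (T - b) ≤ 2 * s := by
    rw [hlam, div_mul_eq_mul_div, one_mul, div_le_iff₀ h2k]
    linarith
  have hl3 : lam ≤ 1 := by
    rw [hlam, div_le_one h2k]
    exact one_le_pow₀ (by norm_num)
  have hdy := h.dyadic hμ.le x y₁ x₀ y₀ k
  set u1 : ℝ := (x₀ - x) / 2 ^ k with hu1
  set u2 : ℝ := (y₀ - y₁) / 2 ^ k with hu2
  have hu1' : u1 = lam * (x₀ - x) := by rw [hu1, hlam]; ring
  have hu2' : u2 = lam * (y₀ - y₁) := by rw [hu2, hlam]; ring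
  set d : ℝ := (y - y₁) - u2 with hd
  have hnear := (h.col x).near (b := cm Φ x) (fun t => cm_le hb x t) (t₀ := y₁) (ε := 1) hy₁.le d
  have hpara := h.para hμ.le x y₁ u1 u2 0 d
  have e0 : y₁ + u2 + d = y := by rw [hd]; ring
  rw [e0, add_zero, add_zero] at hpara
  have hpair := h.pair hb (T := T + 1) hFA (show Φ x₀ y₀ ≤ T + 1 by linarith)
  have hcol := (h.col x).pair (b := T - δ) (T := T + 1) (fun t => hx t) (s := y) (t := y₁)
    (by show Φ x y ≤ T + 1; linarith) hFA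
  have hu : μ * (u1 ^ 2 + u2 ^ 2) ≤ 8 * lam ^ 2 * (T - b) := by
    have e1 : μ * (u1 ^ 2 + u2 ^ 2) = lam ^ 2 * (μ * ((x - x₀) ^ 2 + (y₁ - y₀) ^ 2)) := by
      rw [hu1', hu2']; ring
    rw [e1]
    have e2 : μ * ((x - x₀) ^ 2 + (y₁ - y₀) ^ 2) ≤ 8 * (T - b) := by linarith
    have e3 := mul_le_mul_of_nonneg_left e2 (sq_nonneg lam)
    linarith
  have hF1 : Φ (x + u1) (y₁ + u2) ≤ Φ x y₁ + (b + 1 - Φ x y₁) * lam := by
    have e1 : (Φ x₀ y₀ - Φ x y₁) / 2 ^ k ≤ (b + 1 - Φ x y₁) * lam := by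
      rw [hlam, mul_one_div]
      exact div_le_div_of_nonneg_right (by linarith) h2k.le
    linarith
  have hmain : Φ (x + u1) y ≤ T - 2 - M * ((l : ℝ) + 1) ^ 2 / 2 := by
    refine rdrow_arith (M := M) (μ := μ) (b := b) (δ := δ) (s := s) (lam := lam) (τ := T - b)
      (FA := Φ x y₁) (F1 := Φ (x + u1) (y₁ + u2)) (F2 := Φ x (y₁ + d)) (cmx := cm Φ x)
      (u1 := u1) (u2 := u2) (d := d) (yy := y - y₁) hμ hM rfl hδ (by positivity) hs h1 h2 hl1 hl2
      hl3 hFA hF1 hcm2 hnear ?_ hu ?_ rfl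
    · linarith
    · linarith
  have hb' : ∀ t, cm (fun y' x' => Φ x' y') y ≤ Φ t y :=
    fun t => cm_le (Φ := fun y' x' => Φ x' y') (b := b) (fun p q => hb q p) y t
  obtain ⟨t₀, ht₀⟩ := cm_near (Φ := fun y' x' => Φ x' y') y one_pos
  have h3 := hb' (x + u1)
  exact (h.row y).run (b := cm (fun y' x' => Φ x' y') y) hb' hMpos.le ⟨t₀, ht₀.le⟩ (by linarith)

end Pool.Agent.Lib.MP_8cf263_co
end

section

/-!
# Round sets, file RdSelect: a level which is deep but has few points of `K` above it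

`level_card`.  Let `K = {x : Φ (em x) ≤ T}`; all points of `S ⊆ K` agree in the coordinates `< k`
with `p`, and `4 (T - mg Φ k (em p)) ≤ μ r ^ 2`.  Then `|S| ≤ (r + 1) ^ n`.
Proof.  `card_box` (RdGap): for `x, y ∈ S` `mg_pair` gives
`μ (x i - y i) ^ 2 ≤ 4 (T - mg Φ k (em x)) = 4 (T - mg Φ k (em p)) ≤ μ r ^ 2`, so `x i - y i ≤ r`.

`select`.  Let `k ≤ n`.  For every `β` there are `β₀`, `J₀` such that for all `J ≥ J₀` with
`J ^ β₀ ≤ T - mg Φ 0 0` there are `a ∈ ℤ ^ n` and `X ≥ J` with at most `X` points of `K` which are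
lexicographically above `a` in the first `k` coordinates, and `X ^ β ≤ T - mg Φ k (em a)`.
Proof by induction on `k` (for all `β`).  `k = 0`: `a = 0`, `X = J`, `β₀ = β`, `J₀ = 0`;
`abv K 0 0 = ∅`.
Step `k → k + 1 ≤ n` (so `1 ≤ n`).  Put `c = (β + 2) n + 1`, `β' = 2 c β + 1 + β`; take `β₀`, `J₀'` from
the induction hypothesis for `β'`, and `J₀ = max J₀' j₀` with an integer
`j₀ ≥ 2, 4 / μ, 16 / μ, 4 + 5 M + μ`.  Let `a`, `X` be as in the induction hypothesis,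
`τ = T - mg Φ k (em a) ≥ X ^ β'`, `j = ⟨k, _⟩`, `φ t = mg Φ (k + 1) (Function.update (em a) j t)`.  By
`mg_SD1`, `mg_inf` and `SD1.step` (lower bound `mg Φ k (em a)`; `4 + 5 M + μ ≤ X ≤ X ^ β' ≤ τ`) there
is an integer `m` with `φ m ≤ T`, `φ i > T` for `i > m`, `μ τ ≤ 16 (T - φ (m - 1)) ^ 2` and
`0 ≤ T - φ (m - 1)`.  Note `em (Function.update a j m) = Function.update (em a) j m`.
(*) Every `x ∈ K` which agrees with `a` in the coordinates `< k` has `φ (x j) ≤ Φ (em x) ≤ T`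
(`mg_self`), so `x j ≤ m`; if moreover `x j = m` then `x` agrees with `Function.update a j m` in the
coordinates `< k + 1`.
Case A: `X ^ β ≤ T - φ m`.  Take `a' = Function.update a j m` and `X' = X`: by (*)
`abv K (k + 1) a' ⊆ abv K k a`.
(An element `x` of `abv K (k + 1) a'` with witness `i`: if `i.1 < k` it is in `abv K k a`, if
`i = j` then `x` agrees with `a` below `k` and `m < x j`, impossible.)
Case B: `T - φ m < X ^ β`.  Take `a' = Function.update a j (m - 1)` and `X' = X ^ c ≥ X`.  By (*)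
`abv K (k + 1) a' ⊆ abv K k a ∪ S`, where `S` is the set of `x ∈ K` which agree with
`Function.update a j m` in the coordinates `< k + 1`.  By `level_card` with `r = X ^ (β + 1)`:
`4 (T - φ m) ≤ 4 X ^ β ≤ μ X ^ (2 β + 2)` because `X ≥ 4 / μ`.  So
`|S| ≤ (X ^ (β + 1) + 1) ^ n ≤ (X ^ (β + 2)) ^ n` and
`|abv K (k + 1) a'| ≤ X + X ^ ((β + 2) n) ≤ 2 X ^ ((β + 2) n) ≤ X ^ c`.  Finally
`(T - φ (m - 1)) ^ 2 ≥ μ τ / 16 ≥ (μ / 16) X ^ β' ≥ X ^ (2 c β + β) ≥ (X' ^ β) ^ 2`.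
-/

set_option autoImplicit false

namespace Pool.Agent.Lib.MP_8cf263_co

open Finset

theorem level_card {n : ℕ} {Φ : (Fin n → ℝ) → ℝ} {μ M b T : ℝ} (h : SDn Φ μ M) (hμ : 0 < μ)
    (hb : ∀ x, b ≤ Φ x) {k r : ℕ} {p : Fin n → ℤ} (S : Finset (Fin n → ℤ))
    (hS : ∀ x ∈ S, Φ (em x) ≤ T ∧ ∀ i : Fin n, i.1 < k → x i = p i)
    (hr : 4 * (T - mg Φ k (em p)) ≤ μ * (r : ℝ) ^ 2) : S.card ≤ (r + 1) ^ n := by
  refine card_box S r fun x hx y hy i => ?_
  obtain ⟨hx1, hx2⟩ := hS x hx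
  obtain ⟨hy1, hy2⟩ := hS y hy
  have h1 : ∀ i : Fin n, i.1 < k → em x i = em y i := fun i hi => by
    simp only [em]
    rw [hx2 i hi, hy2 i hi]
  have h2 := mg_pair h hμ.le hb h1 hx1 hy1 i
  have h3 : mg Φ k (em x) = mg Φ k (em p) := mg_congr fun i hi => by
    simp only [em]
    rw [hx2 i hi]
  rw [h3] at h2
  have h4 : μ * (em x i - em y i) ^ 2 ≤ μ * (r : ℝ) ^ 2 := h2.trans hr
  have h5 : (em x i - em y i) ^ 2 ≤ (r : ℝ) ^ 2 := le_of_mul_le_mul_left h4 hμ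
  have h6 : em x i - em y i ≤ r :=
    (le_abs_self _).trans (abs_le_of_sq_le_sq h5 (Nat.cast_nonneg r))
  simp only [em] at h6
  exact_mod_cast h6

private theorem em_update {n : ℕ} (a : Fin n → ℤ) (j : Fin n) (m : ℤ) :
    em (Function.update a j m) = Function.update (em a) j (m : ℝ) := by
  funext i
  by_cases hi : i = j
  · subst hi
    simp [em]
  · simp [em, Function.update_of_ne hi]

/-- an element above `update a j v` is above `a` or agrees with `a` below `k` and has `v < x j` -/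
private theorem abv_split {n : ℕ} {K : Finset (Fin n → ℤ)} {k : ℕ} {a : Fin n → ℤ} {j : Fin n}
    (hj : j.1 = k) {v : ℤ} {x : Fin n → ℤ} (hx : x ∈ abv K (k + 1) (Function.update a j v)) :
    x ∈ abv K k a ∨ (x ∈ K ∧ (∀ i : Fin n, i.1 < k → x i = a i) ∧ v < x j) := by
  unfold abv at hx
  rw [mem_filter] at hx
  obtain ⟨hxK, i, hi, hlt, hgt⟩ := hx
  by_cases hik : i.1 < k
  · left
    unfold abv
    rw [mem_filter]
    refine ⟨hxK, i, hik, fun i' hi' => ?_, ?_⟩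
    · have hne : i' ≠ j := by
        intro he
        subst he
        have := Fin.lt_def.1 hi'
        omega
      rw [hlt i' hi', Function.update_of_ne hne]
    · have hne : i ≠ j := by
        intro he
        subst he
        omega
      rwa [Function.update_of_ne hne] at hgt
  · right
    have hij : i = j := Fin.ext (by omega)
    subst hij
    refine ⟨hxK, fun i' hi' => ?_, ?_⟩
    · have hlt' : i' < i := Fin.lt_def.2 (by omega)
      have hne : i' ≠ i := ne_of_lt hlt'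
      rw [hlt i' hlt', Function.update_of_ne hne]
    · rwa [Function.update_self] at hgt

theorem select {n : ℕ} {μ M : ℝ} (hμ : 0 < μ) (hM : μ ≤ M) (k : ℕ) (hk : k ≤ n) (β : ℕ) :
    ∃ β₀ J₀ : ℕ, ∀ (Φ : (Fin n → ℝ) → ℝ) (K : Finset (Fin n → ℤ)) (T b : ℝ), SDn Φ μ M →
      (∀ x, b ≤ Φ x) → (∀ x, x ∈ K ↔ Φ (em x) ≤ T) → ∀ J : ℕ, J₀ ≤ J →
      (J : ℝ) ^ β₀ ≤ T - mg Φ 0 0 →
      ∃ (a : Fin n → ℤ) (X : ℕ), J ≤ X ∧ (abv K k a).card ≤ X ∧ (X : ℝ) ^ β ≤ T - mg Φ k (em a) := by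
  induction k generalizing β with
  | zero =>
    refine ⟨β, 0, fun Φ K T b hSD hb hK J _ hJT => ⟨0, J, le_refl _, ?_, ?_⟩⟩
    · have : abv K 0 (0 : Fin n → ℤ) = ∅ := by
        unfold abv
        rw [filter_eq_empty_iff]
        rintro x _ ⟨j, hj, _⟩
        omega
      rw [this]
      simp
    · rw [mg_zero (em 0) 0]
      exact hJT
  | succ k ih =>
    have hkn : k ≤ n := by omega
    have hn1 : 1 ≤ n := by omega
    obtain ⟨c, hc⟩ : ∃ c : ℕ, c = (β + 2) * n + 1 := ⟨_, rfl⟩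
    obtain ⟨β₀, J₀', hI⟩ := ih hkn (2 * c * β + 1 + β)
    obtain ⟨j₀, hj₀⟩ : ∃ j₀ : ℕ, max (max 2 (4 / μ)) (max (16 / μ) (4 + 5 * M + μ)) ≤ (j₀ : ℝ) :=
      exists_nat_ge _
    have hj2 : (2 : ℝ) ≤ j₀ := (le_max_left _ _).trans ((le_max_left _ _).trans hj₀)
    have hj4 : 4 / μ ≤ (j₀ : ℝ) := (le_max_right _ _).trans ((le_max_left _ _).trans hj₀)
    have hj16 : 16 / μ ≤ (j₀ : ℝ) := (le_max_left _ _).trans ((le_max_right _ _).trans hj₀)
    have hjM : 4 + 5 * M + μ ≤ (j₀ : ℝ) := (le_max_right _ _).trans ((le_max_right _ _).trans hj₀)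
    refine ⟨β₀, max J₀' j₀, fun Φ K T b hSD hb hK J hJ hJT => ?_⟩
    obtain ⟨a, X, hJX, hcard, hX⟩ := hI Φ K T b hSD hb hK J ((le_max_left _ _).trans hJ) hJT
    have hXj : (j₀ : ℝ) ≤ X := by
      exact_mod_cast ((le_max_right _ _).trans hJ).trans hJX
    have hX2 : (2 : ℝ) ≤ X := hj2.trans hXj
    have hX1 : (1 : ℝ) ≤ X := by linarith
    have hX0 : (0 : ℝ) < X := by linarith
    have hX4 : 4 ≤ μ * X := by
      have := (div_le_iff₀ hμ).1 (hj4.trans hXj)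
      linarith
    have hX16 : 16 ≤ μ * X := by
      have := (div_le_iff₀ hμ).1 (hj16.trans hXj)
      linarith
    have hXM : 4 + 5 * M + μ ≤ X := hjM.trans hXj
    obtain ⟨j, hj⟩ : ∃ j : Fin n, j.1 = k := ⟨⟨k, by omega⟩, rfl⟩
    have hSD1 := mg_SD1 hSD hμ.le hb (em a) j hj
    obtain ⟨hin1, hin2⟩ := mg_inf hb (em a) j hj
    have hτX : (X : ℝ) ≤ T - mg Φ k (em a) := by
      refine le_trans ?_ hX
      calc (X : ℝ) = (X : ℝ) ^ 1 := (pow_one _).symm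
        _ ≤ (X : ℝ) ^ (2 * c * β + 1 + β) := pow_le_pow_right₀ hX1 (by omega)
    obtain ⟨m, hm1, hm2, hm3, hm4⟩ := SD1.step (b := mg Φ k (em a)) (T := T) hSD1 hin1 hμ hM
      (by
        obtain ⟨t, ht⟩ := hin2 1 one_pos
        exact ⟨t, ht.le⟩) (by linarith)
    -- points of `K` which agree with `a` below `k`
    have hstar : ∀ x ∈ K, (∀ i : Fin n, i.1 < k → x i = a i) → x j ≤ m := by
      intro x hx hxa
      by_contra hcon
      push Not at hcon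
      have h1 := hm2 (x j) hcon
      have h2 : mg Φ (k + 1) (Function.update (em a) j ((x j : ℤ) : ℝ)) ≤ Φ (em x) := by
        refine mg_self hb fun i hi => ?_
        by_cases hij : i = j
        · subst hij
          simp [em]
        · rw [Function.update_of_ne hij]
          have hik : i.1 < k := by
            have : i.1 ≠ j.1 := fun he => hij (Fin.ext he)
            omega
          simp only [em]
          rw [hxa i hik]
      have h3 := (hK x).1 hx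
      linarith
    rcases le_or_gt ((X : ℝ) ^ β) (T - mg Φ (k + 1) (Function.update (em a) j (m : ℝ))) with hA | hB
    · refine ⟨Function.update a j m, X, hJX, ?_, ?_⟩
      · refine (card_le_card fun x hx => ?_).trans hcard
        rcases abv_split hj hx with h1 | ⟨h1, h2, h3⟩
        · exact h1
        · exact absurd (hstar x h1 h2) (not_le.2 h3)
      · rw [em_update]
        exact hA
    · refine ⟨Function.update a j (m - 1), X ^ c, ?_, ?_, ?_⟩
      · have h1 : X ^ 1 ≤ X ^ c := Nat.pow_le_pow_right (by exact_mod_cast hX0) (by omega)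
        rw [pow_one] at h1
        exact hJX.trans h1
      · classical
        have hXn2 : 2 ≤ X := by exact_mod_cast hX2
        have hXn0 : 0 < X := by omega
        obtain ⟨S, hSdef⟩ : ∃ S : Finset (Fin n → ℤ), S = K.filter (fun x => ∀ i : Fin n,
          i.1 < k + 1 → x i = Function.update a j m i) := ⟨_, rfl⟩
        have hsub : abv K (k + 1) (Function.update a j (m - 1)) ⊆ abv K k a ∪ S := by
          intro x hx
          rw [mem_union]
          rcases abv_split hj hx with h1 | ⟨h1, h2, h3⟩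
          · exact Or.inl h1
          · right
            rw [hSdef, mem_filter]
            refine ⟨h1, fun i hi => ?_⟩
            by_cases hij : i = j
            · subst hij
              rw [Function.update_self]
              have := hstar x h1 h2
              omega
            · rw [Function.update_of_ne hij]
              refine h2 i ?_
              have : i.1 ≠ j.1 := fun he => hij (Fin.ext he)
              omega
        have hScard : S.card ≤ (X ^ (β + 1) + 1) ^ n := by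
          refine level_card hSD hμ hb (T := T) (k := k + 1) (p := Function.update a j m) S
            (fun x hx => ?_) ?_
          · rw [hSdef, mem_filter] at hx
            exact ⟨(hK x).1 hx.1, hx.2⟩
          · rw [em_update]
            have h1 : (4 : ℝ) * (X : ℝ) ^ β ≤ μ * X * (X : ℝ) ^ β :=
              mul_le_mul_of_nonneg_right hX4 (by positivity)
            have h2 : μ * X * (X : ℝ) ^ β ≤ μ * (((X ^ (β + 1) : ℕ)) : ℝ) ^ 2 := by
              have e1 : μ * X * (X : ℝ) ^ β = μ * (X : ℝ) ^ (β + 1) := by ring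
              have e2 : (((X ^ (β + 1) : ℕ)) : ℝ) ^ 2 = (X : ℝ) ^ (2 * (β + 1)) := by
                push_cast
                ring
              rw [e1, e2]
              exact mul_le_mul_of_nonneg_left (pow_le_pow_right₀ hX1 (by omega)) hμ.le
            linarith
        have h1 : (X ^ (β + 1) + 1) ^ n ≤ (X ^ (β + 2)) ^ n := by
          refine Nat.pow_le_pow_left ?_ n
          have h2 : 1 ≤ X ^ (β + 1) := Nat.one_le_pow _ _ hXn0
          calc X ^ (β + 1) + 1 ≤ X ^ (β + 1) * 2 := by omega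
            _ ≤ X ^ (β + 1) * X := Nat.mul_le_mul_left _ hXn2
            _ = X ^ (β + 2) := by ring
        have h2 : X ≤ X ^ ((β + 2) * n) := by
          have h3 : X ^ 1 ≤ X ^ ((β + 2) * n) := by
            refine Nat.pow_le_pow_right hXn0 ?_
            nlinarith
          rwa [pow_one] at h3
        calc (abv K (k + 1) (Function.update a j (m - 1))).card ≤ (abv K k a ∪ S).card :=
              card_le_card hsub
          _ ≤ (abv K k a).card + S.card := card_union_le _ _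
          _ ≤ X + (X ^ (β + 2)) ^ n := Nat.add_le_add hcard (hScard.trans h1)
          _ ≤ X ^ ((β + 2) * n) + X ^ ((β + 2) * n) := by
              rw [← pow_mul]
              exact Nat.add_le_add_right h2 _
          _ = X ^ ((β + 2) * n) * 2 := by ring
          _ ≤ X ^ ((β + 2) * n) * X := Nat.mul_le_mul_left _ hXn2
          _ = X ^ c := by rw [hc, pow_succ]
      · rw [em_update]
        refine (abs_le_of_sq_le_sq' ?_ hm4).2
        have h1 : (((X ^ c : ℕ) : ℝ) ^ β) ^ 2 = (X : ℝ) ^ (2 * c * β) := by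
          push_cast
          rw [← pow_mul, ← pow_mul]
          congr 1
          ring
        have h2 : (X : ℝ) ^ (2 * c * β) ≤ (X : ℝ) ^ (2 * c * β + β) :=
          pow_le_pow_right₀ hX1 (by omega)
        have h3 : 16 * (X : ℝ) ^ (2 * c * β + β) ≤ μ * X * (X : ℝ) ^ (2 * c * β + β) :=
          mul_le_mul_of_nonneg_right hX16 (by positivity)
        have h4 : μ * X * (X : ℝ) ^ (2 * c * β + β) = μ * (X : ℝ) ^ (2 * c * β + 1 + β) := by ring
        have h5 : μ * (X : ℝ) ^ (2 * c * β + 1 + β) ≤ μ * (T - mg Φ k (em a)) :=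
          mul_le_mul_of_nonneg_left hX hμ.le
        rw [h1]
        linarith

end Pool.Agent.Lib.MP_8cf263_co
end

section

/-!
# Round sets, file RdCentral: lines through the centre

Let `h : TwF K L c R r J kap`, `e` primitive with `|e i| * (64 * (kap * J)) ≤ r` for all `i`, and
`vs c x = k • e` (the line `x + t e` passes through the centre `c / 2`).  Note
`vs c (x + t e) = (k + 2 t) • e`, and `1 ≤ kap` (since `1 ≤ r ≤ R ≤ kap * r`).

`TwF.central`.  (i) Put `j₀ = 4 kap J`.  If `x + t e ∈ K`, `x + (t + j₀) e ∈ K` and `0 < k + 2 t`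
then `x + t e ∈ L`: let `κ = k + 2 t`; some `|e l| ≥ 1`, and `(κ + 2 j₀) |e l| ≤ R` because
`x + (t + j₀) e ∈ K`; so for `|σ| ≤ J`:
`2 |σ| (κ + 2 j₀) + 2 j₀ ≤ 2 J R + 2 j₀ ≤ 2 J kap r + 2 j₀ = j₀ r / 2 + 2 j₀ ≤ r j₀` as
`r ≥ 4`.  Hence `x + t e + σ e_i ∈ K` for all `|σ| ≤ J` and all `i`.
Choose `i` with `e_i = Pi.single i 1` not parallel to `e` (`ax`); `Tw.run` along `e_i` with
`α = -J`, `β = J` at the point `x + t e` (visibility `TwF.vis`: the vector `vs c (x + t e) = κ e` is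
not parallel to `e_i`; `|κ e l| ≤ R`) gives `x + t e ∈ L`.  By the symmetry `y ↦ c - y` of `K` and
`L`, the same holds if `k + 2 t < 0` and `x + (t - j₀) e ∈ K` (`c - (x + t e) = x + (- k - t) e`).
If `k + 2 t = 0` then `vs c (x + t e) = 0` and `x + t e ∈ L` by `coreL`.
So with `K`-interval `[α, β]` (`LC.line`) and `L`-interval `[α', β']` on the line: every `t` with
`α + j₀ ≤ t ≤ β - j₀` is in `[α', β']`.
(ii) The same with the roles of `K` and `L` exchanged and `j₁ = 20 kap J`: `L` is a symmetric convex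
lattice set containing all points with `|vs c x i| ≤ r - 2 J` (`coreL`), and `|vs c y l| ≤ 5 R` for
`y ∈ L`: `2 J (5 R) + 2 j₁ ≤ 10 J kap r + 2 j₁ = j₁ r / 2 + 2 j₁ ≤ (r - 2 J) j₁`, because
`r ≥ 64 J` gives `r / 2 ≥ 2 + 2 J`.  `Tw.run` for `h.tw.symm`; `|κ e l| ≤ 5 R`.  At the centre use
`h.core`.  So every `t` with `α' + j₁ ≤ t ≤ β' - j₁` is in `[α, β]`.
(iii) The line meets `K` in all `t` with `|k + 2 t| |e i| ≤ r` for all `i`, in particular in all `t`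
with `|k + 2 t| ≤ 64 kap J`; so `β - α ≥ 64 kap J - 1 ≥ 2 j₀`, thus `α' ≤ α + j₀`, `β' ≥ β - j₀`,
`β' - α' ≥ 64 kap J - 1 - 8 kap J ≥ 2 j₁` (`55 kap J ≥ 40 kap J`), thus `α ≤ α' + j₁`,
`β ≥ β' - j₁`.  So `|α - α'| ≤ j₁`, `|β - β'| ≤ j₁` and the points of `K Δ L` on the line have
`t ∈ [min α α', min α α' + j₁) ∪ [min β β' + 1, min β β' + 1 + j₁)`.

`TwF.cover`.  For every `x`: if no point of the line is in `K ∪ L` take any `z1, z2`.  Otherwise let
`x₀ = x + t₀ e ∈ K ∪ L`, so `|vs c x₀ i| ≤ 5 R` (`outU`), `|e i| ≤ r ≤ R`.  If `vs c x₀` and `e` are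
not parallel use `TwF.close` for `x₀` (intervals from `LC.line`, `e ≠ 0` by `Pr.ne_zero`), otherwise
`par_of_minors` (file Base) gives `vs c x₀ = k • e` and `TwF.central` applies.  Shift `z1, z2` by
`t₀`; `JJ kap J ≥ 3 J + 1` and `JJ kap J ≥ 20 kap J`.
-/

set_option autoImplicit false

namespace Pool.Agent.Lib.MP_8cf263_co

open Finset

variable {n : ℕ} {K L : Finset (Fin n → ℤ)} {c : Fin n → ℤ} {R r J kap : ℕ}

private theorem vs_add_smul (c x e : Fin n → ℤ) (t : ℤ) (i : Fin n) :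
    vs c (x + t • e) i = vs c x i + 2 * t * e i := by
  simp only [vs, Pi.add_apply, Pi.smul_apply, smul_eq_mul]
  ring

private theorem vs_line {x e : Fin n → ℤ} {k : ℤ} (hk : vs c x = k • e) (t : ℤ) :
    vs c (x + t • e) = (k + 2 * t) • e := by
  funext i
  rw [vs_add_smul, hk, Pi.smul_apply, Pi.smul_apply, smul_eq_mul, smul_eq_mul]
  ring

private theorem exists_ne {e : Fin n → ℤ} (he : e ≠ 0) : ∃ l, 1 ≤ |e l| := by
  obtain ⟨l, hl⟩ := Function.ne_iff.1 he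
  exact ⟨l, Int.one_le_abs hl⟩

/-- one half of the argument, towards the positive side -/
private theorem inner_pos (h : TwF K L c R r J kap) {A B : Finset (Fin n → ℤ)}
    (hT : Tw A B c) {ρ j : ℕ} (hρ4 : 4 ≤ ρ)
    (hc : ∀ x : Fin n → ℤ, (∀ i, |vs c x i| ≤ ρ) → x ∈ A)
    (hout : ∀ y ∈ A, ∀ i, |vs c y i| ≤ 5 * R) {R' : ℕ}
    (hout' : ∀ y ∈ A, ∀ i, |vs c y i| ≤ R') (hR : 1 ≤ R) (hj : 0 < j)
    (hnum : 2 * (J * R') + 2 * j ≤ ρ * j) {y e : Fin n → ℤ} (he : Pr e) {κ : ℤ}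
    (hκ : vs c y = κ • e) (hκ0 : 0 < κ) (hy : y + (j : ℤ) • e ∈ A) : y ∈ B := by
  have hjz : (0 : ℤ) < j := by exact_mod_cast hj
  obtain ⟨l0, hl0⟩ := exists_ne he.ne_zero
  have hbd : ∀ i, (κ + 2 * j) * |e i| ≤ 5 * R := by
    intro i
    have h1 := hout _ hy i
    rw [vs_line hκ, Pi.smul_apply, smul_eq_mul, abs_mul, abs_of_pos (by omega)] at h1
    exact h1
  have hbd' : κ + 2 * j ≤ R' := by
    have h1 := hout' _ hy l0
    rw [vs_line hκ, Pi.smul_apply, smul_eq_mul, abs_mul, abs_of_pos (by omega)] at h1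
    have h2 : (κ + 2 * (j : ℤ)) * 1 ≤ (κ + 2 * j) * |e l0| :=
      mul_le_mul_of_nonneg_left hl0 (by omega)
    linarith
  have hrun : ∀ (i : Fin n) (t : ℤ), -(J : ℤ) ≤ t → t ≤ J →
      y + t • (Pi.single i 1 : Fin n → ℤ) ∈ A := by
    intro i t h1 h2
    refine push hT.hK hT.sK hc hρ4 hκ hκ0 hjz hy ?_ i
    have h3 : |t| ≤ J := abs_le.2 ⟨h1, h2⟩
    have h4 : 2 * |t| * (κ + 2 * j) ≤ 2 * J * R' := by
      refine mul_le_mul (by omega) hbd' (by omega) (by positivity)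
    have h5 : (2 * (J * R') + 2 * j : ℤ) ≤ ρ * j := by exact_mod_cast hnum
    linarith
  obtain ⟨l, i, hil, hl⟩ := ax h.n2 he.ne_zero
  have hb : ∀ i', |(y + y - c) i'| ≤ 10 * R := by
    intro i'
    have h1 : (y + y - c) i' = κ * e i' := by
      have h2 := congrFun hκ i'
      simp only [vs, Pi.smul_apply, smul_eq_mul] at h2
      simp only [Pi.add_apply, Pi.sub_apply]
      linarith
    rw [h1, abs_mul, abs_of_pos hκ0]
    have h2 := hbd i'
    have h3 : κ * |e i'| ≤ (κ + 2 * j) * |e i'| :=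
      mul_le_mul_of_nonneg_right (by omega) (abs_nonneg _)
    have h4 : (0 : ℤ) ≤ R := by positivity
    linarith
  have hvis := h.vis (b := y + y - c) (prim_single i) hb (by
    intro i'
    have hRz : (1 : ℤ) ≤ R := by exact_mod_cast hR
    by_cases hi' : i' = i
    · subst hi'
      rw [Pi.single_eq_same, abs_one]
      linarith
    · rw [Pi.single_eq_of_ne hi', abs_zero]
      linarith) ⟨l, i, by
        rw [Pi.single_eq_same, Pi.single_eq_of_ne hil.symm, mul_zero, sub_zero, mul_one]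
        have h2 := congrFun hκ l
        simp only [vs, Pi.smul_apply, smul_eq_mul] at h2
        simp only [Pi.add_apply, Pi.sub_apply]
        have h3 : y l + y l - c l = κ * e l := by linarith
        rw [h3]
        exact mul_ne_zero hκ0.ne' hl⟩
  have h1 := hT.run (hrun i) hvis 0 (by omega) (by omega)
  rwa [zero_smul, add_zero] at h1

/-- the points between two points of `A` at distance `j` are in `B` -/
private theorem inner_two (h : TwF K L c R r J kap) {A B : Finset (Fin n → ℤ)}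
    (hT : Tw A B c) {ρ j : ℕ} (hρ4 : 4 ≤ ρ)
    (hc : ∀ x : Fin n → ℤ, (∀ i, |vs c x i| ≤ ρ) → x ∈ A)
    (hcB : ∀ x : Fin n → ℤ, vs c x = 0 → x ∈ B)
    (hout : ∀ y ∈ A, ∀ i, |vs c y i| ≤ 5 * R) {R' : ℕ}
    (hout' : ∀ y ∈ A, ∀ i, |vs c y i| ≤ R') (hR : 1 ≤ R) (hj : 0 < j)
    (hnum : 2 * (J * R') + 2 * j ≤ ρ * j) {x e : Fin n → ℤ} (he : Pr e) {k : ℤ}
    (hk : vs c x = k • e) {α β α' β' : ℤ}
    (hA : ∀ t : ℤ, x + t • e ∈ A ↔ α ≤ t ∧ t ≤ β)
    (hB : ∀ t : ℤ, x + t • e ∈ B ↔ α' ≤ t ∧ t ≤ β') {t : ℤ} (h1 : α + j ≤ t)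
    (h2 : t ≤ β - j) : α' ≤ t ∧ t ≤ β' := by
  rw [← hB]
  have hp : x + (t + j) • e ∈ A := (hA _).2 ⟨by omega, by omega⟩
  have hm : x + (t - j) • e ∈ A := (hA _).2 ⟨by omega, by omega⟩
  rcases lt_trichotomy (k + 2 * t) 0 with h0 | h0 | h0
  · rw [hT.sL]
    refine inner_pos h hT hρ4 hc hout hout' hR hj hnum (y := c - (x + t • e)) he
      (κ := -(k + 2 * t)) ?_ (by omega) ?_
    · funext i
      have h3 := congrFun (vs_line hk t) i
      simp only [vs, Pi.smul_apply, smul_eq_mul, Pi.sub_apply, Pi.add_apply] at h3 ⊢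
      linarith
    · have h3 := (hT.sK _).1 hm
      have h4 : c - (x + t • e) + (j : ℤ) • e = c - (x + (t - j) • e) := by
        rw [sub_smul]
        abel
      rwa [h4]
  · refine hcB _ ?_
    rw [vs_line hk, h0, zero_smul]
  · refine inner_pos h hT hρ4 hc hout hout' hR hj hnum he (vs_line hk t) h0 ?_
    have h4 : x + t • e + (j : ℤ) • e = x + (t + j) • e := by
      rw [add_smul]
      abel
    rwa [h4]

/-- the degenerate case -/
private theorem eq_of_R (h : TwF K L c R r J kap) (hR : R = 0) (y : Fin n → ℤ) :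
    y ∈ K ↔ y ∈ L := by
  have hK : ∀ z ∈ K, vs c z = 0 := by
    intro z hz
    funext i
    have h1 := h.out z hz i
    rw [hR] at h1
    exact abs_eq_zero.1 (le_antisymm (by simpa using h1) (abs_nonneg _))
  have hcore : ∀ z, vs c z = 0 → z ∈ K := by
    intro z hz
    refine h.core z fun i => ?_
    rw [hz, Pi.zero_apply, abs_zero]
    positivity
  have hinj : ∀ z z', vs c z = 0 → vs c z' = 0 → z = z' := by
    intro z z' hz hz'
    funext i
    have h1 := congrFun hz i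
    have h2 := congrFun hz' i
    simp only [vs, Pi.zero_apply] at h1 h2
    omega
  have hc1 : K.card ≤ 1 := card_le_one.2 fun z hz z' hz' => hinj z z' (hK z hz) (hK z' hz')
  have hc2 : L.card ≤ 1 := h.tw.card ▸ hc1
  have hsub : L ⊆ K := by
    intro z hz
    have h1 := card_le_one.1 hc2 _ ((h.tw.sL z).1 hz) _ hz
    refine hcore z ?_
    funext i
    have h2 := congrFun h1 i
    simp only [Pi.sub_apply] at h2
    simp only [vs, Pi.zero_apply]
    omega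
  rw [eq_of_subset_of_card_le hsub h.tw.card.le]

theorem TwF.central (h : TwF K L c R r J kap) {x e : Fin n → ℤ} {k : ℤ} (he : Pr e)
    (hk : vs c x = k • e) (hee : ∀ i, |e i| * (64 * (kap * J : ℕ)) ≤ r) :
    ∃ z1 z2 : ℤ, ∀ t : ℤ, Df K L (x + t • e) →
      (z1 ≤ t ∧ t < z1 + (20 * kap * J : ℕ)) ∨ (z2 ≤ t ∧ t < z2 + (20 * kap * J : ℕ)) := by
  by_cases hR0 : R = 0
  · exact ⟨0, 0, fun t ht => absurd (eq_of_R h hR0 _) ht⟩
  have hkap : 1 ≤ kap := by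
    rcases Nat.eq_zero_or_pos kap with h0 | h0
    · have := h.Rr
      rw [h0, zero_mul] at this
      omega
    · exact h0
  have hJ := h.J1
  have hP1 : 1 ≤ kap * J := Nat.mul_pos hkap hJ
  have hPJ : J ≤ kap * J := Nat.le_mul_of_pos_left J hkap
  have hJr : 64 * (kap * J) ≤ r := by
    have := h.Jr
    rwa [mul_comm J kap] at this
  have hRr : J * R ≤ kap * J * r := by
    calc J * R ≤ J * (kap * r) := Nat.mul_le_mul_left _ h.Rr
      _ = kap * J * r := by ring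
  obtain ⟨α, β, hA⟩ := h.tw.hK.line he.ne_zero x
  obtain ⟨α', β', hB⟩ := h.tw.hL.line he.ne_zero x
  have hL0 : ∀ x : Fin n → ℤ, vs c x = 0 → x ∈ L := by
    intro y hy
    refine h.coreL fun i => ?_
    rw [hy, Pi.zero_apply, abs_zero]
    have : 2 * J ≤ r := by omega
    have h2 : (2 * J : ℤ) ≤ r := by exact_mod_cast this
    linarith
  have hK0 : ∀ x : Fin n → ℤ, vs c x = 0 → x ∈ K := by
    intro y hy
    refine h.core y fun i => ?_
    rw [hy, Pi.zero_apply, abs_zero]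
    positivity
  have hi : ∀ t : ℤ, α + (4 * (kap * J) : ℕ) ≤ t → t ≤ β - (4 * (kap * J) : ℕ) →
      α' ≤ t ∧ t ≤ β' := by
    intro t h1 h2
    refine inner_two h h.tw (ρ := r) (j := 4 * (kap * J)) (R' := R) (by omega) h.core hL0
      (fun y hy i => ?_) (fun y hy i => h.out y hy i) (by omega) (by omega) ?_ he hk hA hB h1 h2
    · have := h.out y hy i
      have h4 : (0 : ℤ) ≤ R := by positivity
      linarith
    · have h5 : 4 * (kap * J) ≤ r * (kap * J) := Nat.mul_le_mul_right _ (by omega)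
      nlinarith
  have hii : ∀ t : ℤ, α' + (20 * (kap * J) : ℕ) ≤ t → t ≤ β' - (20 * (kap * J) : ℕ) →
      α ≤ t ∧ t ≤ β := by
    intro t h1 h2
    refine inner_two h h.tw.symm (ρ := r - 2 * J) (j := 20 * (kap * J)) (R' := 5 * R)
      (by omega) (fun y hy => h.coreL fun i => ?_) hK0
      (fun y hy i => h.outL hy i) (fun y hy i => ?_) (by omega) (by omega) ?_ he hk hB hA h1 h2
    · have h3 := hy i
      have h4 : ((r - 2 * J : ℕ) : ℤ) = r - 2 * J := by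
        rw [Nat.cast_sub (by omega)]
        push_cast
        ring
      rw [h4] at h3
      linarith
    · have := h.outL hy i
      push_cast
      exact this
    · have h5 : r ≤ 2 * (r - 2 * J - 2) := by omega
      have h6 : r * (kap * J) ≤ 2 * (r - 2 * J - 2) * (kap * J) := Nat.mul_le_mul_right _ h5
      have h7 : (r - 2 * J) * (20 * (kap * J)) =
          20 * ((r - 2 * J - 2) * (kap * J)) + 40 * (kap * J) := by
        have h8 : r - 2 * J = (r - 2 * J - 2) + 2 := by omega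
        rw [h8]
        simp only [Nat.add_sub_cancel]
        ring
      rw [h7]
      have h9 : 2 * (J * (5 * R)) = 10 * (J * R) := by ring
      rw [h9]
      have h10 : 2 * (r - 2 * J - 2) * (kap * J) = 2 * ((r - 2 * J - 2) * (kap * J)) := by ring
      rw [h10] at h6
      have h11 : r * (kap * J) = kap * J * r := by ring
      rw [h11] at h6
      omega
  have hiii : ∀ t : ℤ, -(64 * (kap * J) : ℕ) ≤ k + 2 * t → k + 2 * t ≤ (64 * (kap * J) : ℕ) →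
      α ≤ t ∧ t ≤ β := by
    intro t h1 h2
    rw [← hA]
    refine h.core _ fun i => ?_
    rw [vs_line hk, Pi.smul_apply, smul_eq_mul, abs_mul]
    have h3 : |k + 2 * t| ≤ ((64 * (kap * J) : ℕ) : ℤ) := abs_le.2 ⟨h1, h2⟩
    have h4 := hee i
    calc |k + 2 * t| * |e i| ≤ ((64 * (kap * J) : ℕ) : ℤ) * |e i| :=
          mul_le_mul_of_nonneg_right h3 (abs_nonneg _)
      _ = |e i| * (64 * (kap * J : ℕ)) := by
          push_cast
          ring
      _ ≤ r := h4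
  have hcast : ((20 * kap * J : ℕ) : ℤ) = 20 * ((kap * J : ℕ) : ℤ) := by
    push_cast
    ring
  rw [hcast]
  obtain ⟨P, hP⟩ : ∃ P : ℤ, ((kap * J : ℕ) : ℤ) = P := ⟨_, rfl⟩
  have hPz : (1 : ℤ) ≤ P := by
    rw [← hP]
    exact_mod_cast hP1
  have c4 : ((4 * (kap * J) : ℕ) : ℤ) = 4 * P := by
    rw [Nat.cast_mul, hP]
    norm_num
  have c20 : ((20 * (kap * J) : ℕ) : ℤ) = 20 * P := by
    rw [Nat.cast_mul, hP]
    norm_num
  have c64 : ((64 * (kap * J) : ℕ) : ℤ) = 64 * P := by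
    rw [Nat.cast_mul, hP]
    norm_num
  rw [c4] at hi
  rw [c20] at hii
  rw [c64] at hiii
  rw [hP]
  have k1 := (hiii ((-(64 * P) - k + 1) / 2) (by omega) (by omega)).1
  have k2 := (hiii ((64 * P - k) / 2) (by omega) (by omega)).2
  have k3 := (hi (α + 4 * P) (by omega) (by omega)).1
  have k4 := (hi (β - 4 * P) (by omega) (by omega)).2
  have k5 := (hii (α' + 20 * P) (by omega) (by omega)).1
  have k6 := (hii (β' - 20 * P) (by omega) (by omega)).2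
  refine ⟨min α α', min β β' + 1, fun t ht => ?_⟩
  rw [Df, hA, hB] at ht
  by_cases hh : t < α ∨ t < α'
  · left
    omega
  · right
    omega

theorem TwF.cover (h : TwF K L c R r J kap) {e : Fin n → ℤ} (he : Pr e)
    (hee : ∀ i, |e i| * (64 * (kap * J : ℕ)) ≤ r) (x : Fin n → ℤ) :
    ∃ z1 z2 : ℤ, ∀ t : ℤ, Df K L (x + t • e) →
      (z1 ≤ t ∧ t < z1 + JJ kap J) ∨ (z2 ≤ t ∧ t < z2 + JJ kap J) := by
  by_cases hR0 : R = 0
  · exact ⟨0, 0, fun t ht => absurd (eq_of_R h hR0 _) ht⟩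
  have hkap : 1 ≤ kap := by
    rcases Nat.eq_zero_or_pos kap with h0 | h0
    · have := h.Rr
      rw [h0, zero_mul] at this
      omega
    · exact h0
  have hJ := h.J1
  have hP1 : 1 ≤ kap * J := Nat.mul_pos hkap hJ
  by_cases hne : ∃ t0 : ℤ, x + t0 • e ∈ K ∪ L
  swap
  · refine ⟨0, 0, fun t ht => absurd ?_ ht⟩
    have h1 : x + t • e ∉ K ∪ L := fun h2 => hne ⟨t, h2⟩
    rw [mem_union, not_or] at h1
    exact iff_of_false h1.1 h1.2
  obtain ⟨t0, ht0⟩ := hne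
  have hRz : (0 : ℤ) ≤ R := by positivity
  have hx0 : ∀ i, |vs c (x + t0 • e) i| ≤ 10 * R := by
    intro i
    have := h.outU ht0 i
    linarith
  have hee' : ∀ i, |e i| ≤ 10 * R := by
    intro i
    have h1 := hee i
    have h2 : (1 : ℤ) ≤ 64 * (kap * J : ℕ) := by
      have : (1 : ℤ) ≤ (kap * J : ℕ) := by exact_mod_cast hP1
      linarith
    have h3 : |e i| * 1 ≤ |e i| * (64 * (kap * J : ℕ)) :=
      mul_le_mul_of_nonneg_left h2 (abs_nonneg _)
    have h4 : (r : ℤ) ≤ R := by exact_mod_cast h.rR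
    linarith
  have hsh : ∀ t : ℤ, x + t • e = x + t0 • e + (t - t0) • e := by
    intro t
    rw [sub_smul]
    abel
  have hJJ : (JJ kap J : ℤ) = 20 * (kap * J : ℕ) + 3 * J + 1 := by
    unfold JJ
    push_cast
    ring
  have hPz : (1 : ℤ) ≤ (kap * J : ℕ) := by exact_mod_cast hP1
  have hJz : (1 : ℤ) ≤ J := by exact_mod_cast hJ
  by_cases hnc : ∃ i j, vs c (x + t0 • e) i * e j - vs c (x + t0 • e) j * e i ≠ 0
  · obtain ⟨α, β, hA⟩ := h.tw.hK.line he.ne_zero (x + t0 • e)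
    obtain ⟨α', β', hB⟩ := h.tw.hL.line he.ne_zero (x + t0 • e)
    obtain ⟨-, z1, z2, hz⟩ := h.close he hx0 hee' hnc hA hB
    refine ⟨z1 + t0, z2 + t0, fun t ht => ?_⟩
    rw [hsh] at ht
    have h1 := hz _ ht
    have h2 : ((3 * J + 1 : ℕ) : ℤ) = 3 * J + 1 := by push_cast; ring
    rw [h2] at h1
    rw [hJJ]
    rcases h1 with h1 | h1
    · left
      omega
    · right
      omega
  · push Not at hnc
    obtain ⟨k, hk⟩ := par_of_minors he fun i j => sub_eq_zero.1 (hnc i j)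
    obtain ⟨z1, z2, hz⟩ := h.central he hk hee
    refine ⟨z1 + t0, z2 + t0, fun t ht => ?_⟩
    rw [hsh] at ht
    have h1 := hz _ ht
    have h2 : ((20 * kap * J : ℕ) : ℤ) = 20 * (kap * J : ℕ) := by push_cast; ring
    rw [h2] at h1
    rw [hJJ]
    rcases h1 with h1 | h1
    · left
      omega
    · right
      omega

end Pool.Agent.Lib.MP_8cf263_co
end

section

/-!
# One round spot, file RsSelect: `select` with more information

`select2` is `select` (RdSelect) with three changes: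
(a) only `∀ x ∈ K, Φ (em x) ≤ T` is assumed (the proof of `select` uses only this direction);
(b) the extra output `X ≤ J ^ γ₀`;
(c) the extra output: if `1 ≤ k` then `mg Φ 1 (Function.update 0 j t) ≤ T` implies `t ≤ a j + 1`, for
`j` with `j.1 = 0` and all integers `t`.

Proof.  Copy the proof of `select`.  For `k = 0` take `γ₀ = 1` (`X = J`), (c) is void.  In the step
`k → k + 1` the new exponent is `γ₀ * c` (`X' = X` or `X ^ c`, `1 ≤ c`, `1 ≤ J`).
(c) in the step from `k = 0`: the coordinate is `j` with `j.1 = 0`, `a' = Function.update a j m` or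
`Function.update a j (m - 1)`, and `φ i = mg Φ 1 (Function.update (em a) j i) > T` for `i > m`; by
`mg_congr` `mg Φ 1 (Function.update (em a) j t) = mg Φ 1 (Function.update 0 j t)`, so
`mg Φ 1 (Function.update 0 j t) ≤ T` implies `t ≤ m ≤ a' j + 1`.  In the step from `k ≥ 1` the coordinate
`j` with `j.1 = 0` is not changed.
-/

set_option autoImplicit false

namespace Pool.Agent.Lib.MP_8cf263_co

open Finset

private theorem em_update2 {n : ℕ} (a : Fin n → ℤ) (j : Fin n) (m : ℤ) :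
    em (Function.update a j m) = Function.update (em a) j (m : ℝ) := by
  funext i
  by_cases hi : i = j
  · subst hi
    simp [em]
  · simp [em, Function.update_of_ne hi]

/-- an element above `update a j v` is above `a` or agrees with `a` below `k` and has `v < x j` -/
private theorem abv_split2 {n : ℕ} {K : Finset (Fin n → ℤ)} {k : ℕ} {a : Fin n → ℤ} {j : Fin n}
    (hj : j.1 = k) {v : ℤ} {x : Fin n → ℤ} (hx : x ∈ abv K (k + 1) (Function.update a j v)) :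
    x ∈ abv K k a ∨ (x ∈ K ∧ (∀ i : Fin n, i.1 < k → x i = a i) ∧ v < x j) := by
  unfold abv at hx
  rw [mem_filter] at hx
  obtain ⟨hxK, i, hi, hlt, hgt⟩ := hx
  by_cases hik : i.1 < k
  · left
    unfold abv
    rw [mem_filter]
    refine ⟨hxK, i, hik, fun i' hi' => ?_, ?_⟩
    · have hne : i' ≠ j := by
        intro he
        subst he
        have := Fin.lt_def.1 hi'
        omega
      rw [hlt i' hi', Function.update_of_ne hne]
    · have hne : i ≠ j := by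
        intro he
        subst he
        omega
      rwa [Function.update_of_ne hne] at hgt
  · right
    have hij : i = j := Fin.ext (by omega)
    subst hij
    refine ⟨hxK, fun i' hi' => ?_, ?_⟩
    · have hlt' : i' < i := Fin.lt_def.2 (by omega)
      have hne : i' ≠ i := ne_of_lt hlt'
      rw [hlt i' hlt', Function.update_of_ne hne]
    · rwa [Function.update_self] at hgt

theorem select2 {n : ℕ} {μ M : ℝ} (hμ : 0 < μ) (hM : μ ≤ M) (k : ℕ) (hk : k ≤ n) (β : ℕ) :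
    ∃ β₀ J₀ γ₀ : ℕ, ∀ (Φ : (Fin n → ℝ) → ℝ) (K : Finset (Fin n → ℤ)) (T b : ℝ), SDn Φ μ M →
      (∀ x, b ≤ Φ x) → (∀ x ∈ K, Φ (em x) ≤ T) → ∀ J : ℕ, J₀ ≤ J → 1 ≤ J →
      (J : ℝ) ^ β₀ ≤ T - mg Φ 0 0 →
      ∃ (a : Fin n → ℤ) (X : ℕ), J ≤ X ∧ X ≤ J ^ γ₀ ∧ (abv K k a).card ≤ X ∧
        (X : ℝ) ^ β ≤ T - mg Φ k (em a) ∧ (1 ≤ k → ∀ j : Fin n, j.1 = 0 → ∀ t : ℤ,
          mg Φ 1 (Function.update 0 j (t : ℝ)) ≤ T → t ≤ a j + 1) := by
  induction k generalizing β with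
  | zero =>
    refine ⟨β, 0, 1, fun Φ K T b hSD hb hK J _ hJ1 hJT => ⟨0, J, le_refl _, by simp, ?_, ?_,
      fun h => absurd h (by omega)⟩⟩
    · have : abv K 0 (0 : Fin n → ℤ) = ∅ := by
        unfold abv
        rw [filter_eq_empty_iff]
        rintro x _ ⟨j, hj, _⟩
        omega
      rw [this]
      simp
    · rw [mg_zero (em 0) 0]
      exact hJT
  | succ k ih =>
    have hkn : k ≤ n := by omega
    have hn1 : 1 ≤ n := by omega
    obtain ⟨c, hc⟩ : ∃ c : ℕ, c = (β + 2) * n + 1 := ⟨_, rfl⟩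
    obtain ⟨β₀, J₀', γ₀, hI⟩ := ih hkn (2 * c * β + 1 + β)
    obtain ⟨j₀, hj₀⟩ : ∃ j₀ : ℕ, max (max 2 (4 / μ)) (max (16 / μ) (4 + 5 * M + μ)) ≤ (j₀ : ℝ) :=
      exists_nat_ge _
    have hj2 : (2 : ℝ) ≤ j₀ := (le_max_left _ _).trans ((le_max_left _ _).trans hj₀)
    have hj4 : 4 / μ ≤ (j₀ : ℝ) := (le_max_right _ _).trans ((le_max_left _ _).trans hj₀)
    have hj16 : 16 / μ ≤ (j₀ : ℝ) := (le_max_left _ _).trans ((le_max_right _ _).trans hj₀)
    have hjM : 4 + 5 * M + μ ≤ (j₀ : ℝ) := (le_max_right _ _).trans ((le_max_right _ _).trans hj₀)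
    refine ⟨β₀, max J₀' j₀, γ₀ * c, fun Φ K T b hSD hb hK J hJ hJ1 hJT => ?_⟩
    obtain ⟨a, X, hJX, hXJ, hcard, hX, hone⟩ :=
      hI Φ K T b hSD hb hK J ((le_max_left _ _).trans hJ) hJ1 hJT
    have hXJ1 : X ≤ J ^ (γ₀ * c) := by
      refine hXJ.trans (Nat.pow_le_pow_right (by omega) ?_)
      exact Nat.le_mul_of_pos_right _ (by omega)
    have hXj : (j₀ : ℝ) ≤ X := by
      exact_mod_cast ((le_max_right _ _).trans hJ).trans hJX
    have hX2 : (2 : ℝ) ≤ X := hj2.trans hXj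
    have hX1 : (1 : ℝ) ≤ X := by linarith
    have hX0 : (0 : ℝ) < X := by linarith
    have hX4 : 4 ≤ μ * X := by
      have := (div_le_iff₀ hμ).1 (hj4.trans hXj)
      linarith
    have hX16 : 16 ≤ μ * X := by
      have := (div_le_iff₀ hμ).1 (hj16.trans hXj)
      linarith
    have hXM : 4 + 5 * M + μ ≤ X := hjM.trans hXj
    obtain ⟨j, hj⟩ : ∃ j : Fin n, j.1 = k := ⟨⟨k, by omega⟩, rfl⟩
    have hSD1 := mg_SD1 hSD hμ.le hb (em a) j hj
    obtain ⟨hin1, hin2⟩ := mg_inf hb (em a) j hj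
    have hτX : (X : ℝ) ≤ T - mg Φ k (em a) := by
      refine le_trans ?_ hX
      calc (X : ℝ) = (X : ℝ) ^ 1 := (pow_one _).symm
        _ ≤ (X : ℝ) ^ (2 * c * β + 1 + β) := pow_le_pow_right₀ hX1 (by omega)
    obtain ⟨m, hm1, hm2, hm3, hm4⟩ := SD1.step (b := mg Φ k (em a)) (T := T) hSD1 hin1 hμ hM
      (by
        obtain ⟨t, ht⟩ := hin2 1 one_pos
        exact ⟨t, ht.le⟩) (by linarith)
    -- points of `K` which agree with `a` below `k`
    have hstar : ∀ x ∈ K, (∀ i : Fin n, i.1 < k → x i = a i) → x j ≤ m := by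
      intro x hx hxa
      by_contra hcon
      push Not at hcon
      have h1 := hm2 (x j) hcon
      have h2 : mg Φ (k + 1) (Function.update (em a) j ((x j : ℤ) : ℝ)) ≤ Φ (em x) := by
        refine mg_self hb fun i hi => ?_
        by_cases hij : i = j
        · subst hij
          simp [em]
        · rw [Function.update_of_ne hij]
          have hik : i.1 < k := by
            have : i.1 ≠ j.1 := fun he => hij (Fin.ext he)
            omega
          simp only [em]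
          rw [hxa i hik]
      have h3 := hK x hx
      linarith
    -- the first coordinate
    have hfirst : ∀ v : ℤ, m ≤ v + 1 → ∀ j' : Fin n, j'.1 = 0 → ∀ t : ℤ,
        mg Φ 1 (Function.update 0 j' (t : ℝ)) ≤ T → t ≤ Function.update a j v j' + 1 := by
      intro v hv j' hj' t ht
      rcases Nat.eq_zero_or_pos k with hk0 | hk0
      · subst hk0
        have hjj : j' = j := Fin.ext (by omega)
        subst hjj
        rw [Function.update_self]
        by_contra hcon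
        push Not at hcon
        have h1 := hm2 t (by omega)
        have h2 : mg Φ (0 + 1) (Function.update (em a) j' (t : ℝ))
            = mg Φ 1 (Function.update 0 j' (t : ℝ)) := by
          refine mg_congr fun i hi => ?_
          have hij : i = j' := Fin.ext (by omega)
          subst hij
          simp
        rw [h2] at h1
        linarith
      · have hne : j' ≠ j := by
          intro he
          subst he
          omega
        rw [Function.update_of_ne hne]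
        exact hone hk0 j' hj' t ht
    rcases le_or_gt ((X : ℝ) ^ β) (T - mg Φ (k + 1) (Function.update (em a) j (m : ℝ))) with hA | hB
    · refine ⟨Function.update a j m, X, hJX, hXJ1, ?_, ?_, fun _ => hfirst m (by omega)⟩
      · refine (card_le_card fun x hx => ?_).trans hcard
        rcases abv_split2 hj hx with h1 | ⟨h1, h2, h3⟩
        · exact h1
        · exact absurd (hstar x h1 h2) (not_le.2 h3)
      · rw [em_update2]
        exact hA
    · refine ⟨Function.update a j (m - 1), X ^ c, ?_, ?_, ?_, ?_, fun _ => hfirst (m - 1) (by omega)⟩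
      · have h1 : X ^ 1 ≤ X ^ c := Nat.pow_le_pow_right (by exact_mod_cast hX0) (by omega)
        rw [pow_one] at h1
        exact hJX.trans h1
      · rw [pow_mul]
        exact Nat.pow_le_pow_left hXJ c
      · classical
        have hXn2 : 2 ≤ X := by exact_mod_cast hX2
        have hXn0 : 0 < X := by omega
        obtain ⟨S, hSdef⟩ : ∃ S : Finset (Fin n → ℤ), S = K.filter (fun x => ∀ i : Fin n,
          i.1 < k + 1 → x i = Function.update a j m i) := ⟨_, rfl⟩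
        have hsub : abv K (k + 1) (Function.update a j (m - 1)) ⊆ abv K k a ∪ S := by
          intro x hx
          rw [mem_union]
          rcases abv_split2 hj hx with h1 | ⟨h1, h2, h3⟩
          · exact Or.inl h1
          · right
            rw [hSdef, mem_filter]
            refine ⟨h1, fun i hi => ?_⟩
            by_cases hij : i = j
            · subst hij
              rw [Function.update_self]
              have := hstar x h1 h2
              omega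
            · rw [Function.update_of_ne hij]
              refine h2 i ?_
              have : i.1 ≠ j.1 := fun he => hij (Fin.ext he)
              omega
        have hScard : S.card ≤ (X ^ (β + 1) + 1) ^ n := by
          refine level_card hSD hμ hb (T := T) (k := k + 1) (p := Function.update a j m) S
            (fun x hx => ?_) ?_
          · rw [hSdef, mem_filter] at hx
            exact ⟨hK x hx.1, hx.2⟩
          · rw [em_update2]
            have h1 : (4 : ℝ) * (X : ℝ) ^ β ≤ μ * X * (X : ℝ) ^ β :=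
              mul_le_mul_of_nonneg_right hX4 (by positivity)
            have h2 : μ * X * (X : ℝ) ^ β ≤ μ * (((X ^ (β + 1) : ℕ)) : ℝ) ^ 2 := by
              have e1 : μ * X * (X : ℝ) ^ β = μ * (X : ℝ) ^ (β + 1) := by ring
              have e2 : (((X ^ (β + 1) : ℕ)) : ℝ) ^ 2 = (X : ℝ) ^ (2 * (β + 1)) := by
                push_cast
                ring
              rw [e1, e2]
              exact mul_le_mul_of_nonneg_left (pow_le_pow_right₀ hX1 (by omega)) hμ.le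
            linarith
        have h1 : (X ^ (β + 1) + 1) ^ n ≤ (X ^ (β + 2)) ^ n := by
          refine Nat.pow_le_pow_left ?_ n
          have h2 : 1 ≤ X ^ (β + 1) := Nat.one_le_pow _ _ hXn0
          calc X ^ (β + 1) + 1 ≤ X ^ (β + 1) * 2 := by omega
            _ ≤ X ^ (β + 1) * X := Nat.mul_le_mul_left _ hXn2
            _ = X ^ (β + 2) := by ring
        have h2 : X ≤ X ^ ((β + 2) * n) := by
          have h3 : X ^ 1 ≤ X ^ ((β + 2) * n) := by
            refine Nat.pow_le_pow_right hXn0 ?_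
            nlinarith
          rwa [pow_one] at h3
        calc (abv K (k + 1) (Function.update a j (m - 1))).card ≤ (abv K k a ∪ S).card :=
              card_le_card hsub
          _ ≤ (abv K k a).card + S.card := card_union_le _ _
          _ ≤ X + (X ^ (β + 2)) ^ n := Nat.add_le_add hcard (hScard.trans h1)
          _ ≤ X ^ ((β + 2) * n) + X ^ ((β + 2) * n) := by
              rw [← pow_mul]
              exact Nat.add_le_add_right h2 _
          _ = X ^ ((β + 2) * n) * 2 := by ring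
          _ ≤ X ^ ((β + 2) * n) * X := Nat.mul_le_mul_left _ hXn2
          _ = X ^ c := by rw [hc, pow_succ]
      · rw [em_update2]
        refine (abs_le_of_sq_le_sq' ?_ hm4).2
        have h1 : (((X ^ c : ℕ) : ℝ) ^ β) ^ 2 = (X : ℝ) ^ (2 * c * β) := by
          push_cast
          rw [← pow_mul, ← pow_mul]
          congr 1
          ring
        have h2 : (X : ℝ) ^ (2 * c * β) ≤ (X : ℝ) ^ (2 * c * β + β) :=
          pow_le_pow_right₀ hX1 (by omega)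
        have h3 : 16 * (X : ℝ) ^ (2 * c * β + β) ≤ μ * X * (X : ℝ) ^ (2 * c * β + β) :=
          mul_le_mul_of_nonneg_right hX16 (by positivity)
        have h4 : μ * X * (X : ℝ) ^ (2 * c * β + β) = μ * (X : ℝ) ^ (2 * c * β + 1 + β) := by ring
        have h5 : μ * (X : ℝ) ^ (2 * c * β + 1 + β) ≤ μ * (T - mg Φ k (em a)) :=
          mul_le_mul_of_nonneg_left hX hμ.le
        rw [h1]
        linarith

end Pool.Agent.Lib.MP_8cf263_co
end

section

/-!
# One round spot, file RsPole: poles when `K` is a sublevel set only near the top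

`Agr K Φ T F a`: there is a column `j` (an integer) which meets the sublevel set `{Φ ≤ T}` and such that
for all `x` of the level of `a` in the columns `≥ j - 1` (i.e. `F.g a + j - 1 ≤ F.g x`)
`x ∈ K ↔ Φ (em x) ≤ T`.

`pole_of_col2` is `pole_of_col` (RdPoleA) with `hK` replaced by the only consequence which is used there:
`hrun`: if `Φ (em (a + γ • w + t • e)) ≤ T` then `a + γ • w + t • e ∈ K`, for all integers `t`.
Proof: copy the proof of `pole_of_col`.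

`pole2` is `pole` (RdPole) with `hK` replaced by `Agr K Φ T F a`.
Proof: copy the proof of `pole` (its private lemmas `num_E1`, ... have to be copied too), with the
following changes.  Let `j` be as in `Agr`.  `SD1.step` gives `m₀` with `ψ i > T` for `i > m₀`
(`ψ = cm (pl Φ F a)`), so `j ≤ m₀` because `ψ j ≤ T`.  `hK` is used in three places:
(1) `hstar`, `hstar2`: points `x ∈ K` of the level with `g x - g a > m₀`: then
`g a + j - 1 ≤ g x`, so `Φ (em x) ≤ T` by `Agr`; state `hstar` only for points with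
`m₀ ≤ g x - g a` and use it in this form (in `hcard` the points are in the column `m₀`).
(2) `hcard`: the points of `K` in the column `m₀ ≥ j - 1`.
(3) `pole_of_col2` for `γ = m₀` and `γ = m₀ - 1`: the points `a + γ • w + t • e` are in the level of `a`
and `g (..) = g a + γ ≥ g a + j - 1`.

`Agr.of_level`: if `x ∈ K ↔ Φ (em x) ≤ T` for all points `x` of the level of `a` and
`4 + 20 M Q ^ 2 + μ ≤ T - mg Φ m (em a)` then `Agr K Φ T F a`.
Proof: as in the proof of `pole`: `ψ` satisfies `SD1` with `μ₂ = μ / (4 Q ^ 2) ≤ μ`, `M₂ = 4 Q ^ 2 M`,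
has the lower bound `mg Φ m (em a)` and `4 + 5 M₂ + μ₂ ≤ T - mg Φ m (em a)`, so `SD1.step` gives an
integer `m₀` with `ψ m₀ ≤ T`; take `j = m₀`.
-/

set_option autoImplicit false

namespace Pool.Agent.Lib.MP_8cf263_co

open Finset

/-- near the top of the level of `a` the set `K` is a sublevel set of `Φ` -/
def Agr {m : ℕ} (K : Finset (Fin (m + 2) → ℤ)) (Φ : (Fin (m + 2) → ℝ) → ℝ) (T : ℝ) (F : Fr)
    (a : Fin (m + 2) → ℤ) : Prop :=
  ∃ j : ℤ, cm (pl Φ F a) j ≤ T ∧ ∀ x : Fin (m + 2) → ℤ, (∀ i : Fin (m + 2), i.1 < m → x i = a i) →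
    F.g m a + j - 1 ≤ F.g m x → (x ∈ K ↔ Φ (em x) ≤ T)

theorem Agr.of_level {m : ℕ} {K : Finset (Fin (m + 2) → ℤ)} {Φ : (Fin (m + 2) → ℝ) → ℝ}
    {μ M b T : ℝ} (hΦ : SDn Φ μ M) (hμ : 0 < μ) (hM : μ ≤ M) (hb : ∀ x, b ≤ Φ x)
    {a : Fin (m + 2) → ℤ} {F : Fr} {Q : ℕ} (hQ : F.Le Q) (hQ1 : 1 ≤ Q)
    (hτ : 4 + 20 * M * (Q : ℝ) ^ 2 + μ ≤ T - mg Φ m (em a))
    (h : ∀ x : Fin (m + 2) → ℤ, (∀ i : Fin (m + 2), i.1 < m → x i = a i) →
      (x ∈ K ↔ Φ (em x) ≤ T)) : Agr K Φ T F a := by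
  have hMpos : 0 < M := lt_of_lt_of_le hμ hM
  have hQr : (1 : ℝ) ≤ (Q : ℝ) := by exact_mod_cast hQ1
  have hQ2 : (1 : ℝ) ≤ (Q : ℝ) ^ 2 := one_le_pow₀ hQr
  have hSD : SD2 (pl Φ F a) (μ / (4 * (Q : ℝ) ^ 2)) (4 * (Q : ℝ) ^ 2 * M) :=
    pl_SD2 hΦ hμ.le hMpos.le hQ hQ1 a
  have hμ₂pos : 0 < μ / (4 * (Q : ℝ) ^ 2) := by positivity
  have hμ₂le : μ / (4 * (Q : ℝ) ^ 2) ≤ μ := by
    rw [div_le_iff₀ (by positivity)]
    nlinarith
  have hM₂ge : M ≤ 4 * (Q : ℝ) ^ 2 * M := by nlinarith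
  have hψ := hSD.cmSD hμ₂pos.le (fun x y => pl_ge hb F a x y)
  have hτ0 : 4 + 5 * (4 * (Q : ℝ) ^ 2 * M) + μ / (4 * (Q : ℝ) ^ 2) ≤ T - mg Φ m (em a) := by
    linarith
  obtain ⟨m₀, hm1, -, -, -⟩ := hψ.step (fun t => pl_cm_ge hb F a t) hμ₂pos (by linarith) (by
    obtain ⟨t₀, ht₀⟩ := pl_cm_near (m := m) hb F a one_pos
    exact ⟨t₀, ht₀.le⟩) hτ0
  exact ⟨m₀, hm1, fun x hx _ => h x hx⟩

theorem pole_of_col2 {m : ℕ} {K L : Finset (Fin (m + 2) → ℤ)} {c : Fin (m + 2) → ℤ}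
    {R r J kap : ℕ} (h : TwF K L c R r J kap) {Φ : (Fin (m + 2) → ℝ) → ℝ} {μ M b T : ℝ}
    (hΦ : SDn Φ μ M) (hμ : 0 < μ) (hM : μ ≤ M) (hb : ∀ x, b ≤ Φ x)
    (a : Fin (m + 2) → ℤ) {F : Fr} {Q : ℕ} (hQ : F.Le Q)
    (hQ1 : 1 ≤ Q) {N : ℤ} (hN : 10 * Q * R < N) {X' ell : ℕ} {γ : ℤ}
    (hrun : ∀ t : ℤ, Φ (em (a + γ • F.w m + t • F.e m)) ≤ T → a + γ • F.w m + t • F.e m ∈ K)
    (hcnt : (K.filter (fun x => x ∈ abv K m a ∨ ((∀ i : Fin (m + 2), i.1 < m → x i = a i) ∧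
      F.g m a + γ < F.g m x))).card ≤ X')
    (hr : 2 * Q * (X' + 1) + 1 ≤ r)
    (hdeep : cm (pl Φ F a) γ + 2 + (4 * (Q : ℝ) ^ 2 * M) * ((ell : ℝ) + 1) ^ 2 / 2 ≤ T) :
    ∃ a₀, Pole K L c (lfh m N F) (F.e m) a₀ (X' + (X' + J + 20 * kap + 3) ^ (m + 3)) ell := by
  classical
  have hM0 : 0 ≤ M := hμ.le.trans hM
  have hQZ : (1 : ℤ) ≤ Q := by exact_mod_cast hQ1
  have hS := pl_SD2 hΦ hμ.le hM0 hQ hQ1 a
  have hcol := hS.col (γ : ℝ)
  have hlow : ∀ t : ℝ, cm (pl Φ F a) γ ≤ pl Φ F a γ t :=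
    fun t => cm_le (b := b) (fun x y => hb _) γ t
  obtain ⟨t₀, ht₀⟩ := cm_near (Φ := pl Φ F a) (γ : ℝ) one_pos
  obtain ⟨t₁, ht₁⟩ := hcol.run hlow (by positivity) ⟨t₀, ht₀.le⟩ (l := ell) hdeep
  obtain ⟨a₀, ha₀⟩ : ∃ a₀, a₀ = a + γ • F.w m + t₁ • F.e m := ⟨_, rfl⟩
  have hrun2 : ∀ t : ℤ, 0 ≤ t → t ≤ ell → a₀ + t • F.e m ∈ K := by
    intro t h0 h1
    have h2 := ht₁ t h0 h1
    rw [pl_int] at h2
    rw [ha₀, add_assoc, ← add_smul]
    exact hrun _ h2
  have haK : a₀ ∈ K := by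
    have h1 := hrun2 0 le_rfl (by positivity)
    rwa [zero_smul, add_zero] at h1
  have hlowc : ∀ i : Fin (m + 2), i.1 < m → a₀ i = a i := by
    intro i hi
    rw [ha₀]
    simp [F.low_w hi, F.low_e hi]
  have hg0 : F.g m a₀ = F.g m a + γ := by
    rw [ha₀, F.g_add, F.g_add, F.g_smul, F.g_smul, F.g_e, F.g_w]
    ring
  have hR0 : (0 : ℤ) ≤ R := by positivity
  have h5R : (5 : ℤ) * R ≤ 10 * Q * R := by
    have := mul_le_mul_of_nonneg_right hQZ hR0
    linarith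
  -- the points of `K` above `a₀`
  have hA : (K.filter (fun x => lfh m N F a₀ < lfh m N F x)).card ≤ X' := by
    refine le_trans (card_le_card ?_) hcnt
    intro x hx
    rw [mem_filter] at hx ⊢
    refine ⟨hx.1, ?_⟩
    obtain ⟨d1, d2⟩ := h.diff (mem_union_left L haK) (mem_union_left L hx.1)
    have h2 : lf m N F a₀ < lf m N F x := hx.2
    rw [lf_lt F (d := 10 * Q * R) hN (fun i => (d1 i).trans h5R) (d2 F Q hQ)] at h2
    rcases h2 with ⟨j, hj, h3, h4⟩ | ⟨h3, h4⟩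
    · left
      unfold abv
      rw [mem_filter]
      refine ⟨hx.1, j, hj, fun i hi => ?_, ?_⟩
      · have hi' : i.1 < j.1 := hi
        rw [← h3 i hi, hlowc i (by omega)]
      · rw [← hlowc j hj]
        exact h4
    · right
      refine ⟨fun i hi => ?_, ?_⟩
      · rw [← h3 i hi, hlowc i hi]
      · rw [← hg0]
        exact h4
  have hhalf : lfh m N F c < 2 * lfh m N F a₀ := by
    by_contra hcon
    push Not at hcon
    obtain ⟨h₁, hh1, hh2⟩ : ∃ h₁ : Fin (m + 2) → ℤ, (∀ i, |vs c h₁ i| ≤ 1) ∧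
        lfh m N F c ≤ 2 * lfh m N F h₁ := by
      let h₀ : Fin (m + 2) → ℤ := fun i => (c i + 1) / 2
      have e1 : ∀ i, 0 ≤ vs c h₀ i ∧ vs c h₀ i ≤ 1 := by
        intro i
        simp only [vs, h₀]
        omega
      have e2 : lfh m N F h₀ + lfh m N F (c - h₀) = lfh m N F c := by
        rw [← map_add, add_sub_cancel]
      rcases le_total (lfh m N F c) (2 * lfh m N F h₀) with h3 | h3
      · refine ⟨h₀, fun i => ?_, h3⟩
        rw [abs_le]
        have := e1 i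
        constructor <;> linarith [this.1, this.2]
      · refine ⟨c - h₀, fun i => ?_, by linarith⟩
        have h4 : vs c (c - h₀) i = - vs c h₀ i := by
          simp only [vs, Pi.sub_apply]
          ring
        rw [h4, abs_neg, abs_le]
        have := e1 i
        constructor <;> linarith [this.1, this.2]
    have hinj : Set.InjOn (fun s : ℤ => h₁ + s • F.w m) (Icc (1 : ℤ) (X' + 1) : Finset ℤ) := by
      intro s _ t _ hst
      have h3 := congrArg (lfh m N F) hst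
      simp only [map_add, map_zsmul, lf_w, smul_eq_mul, mul_one] at h3
      linarith
    have hsub : (Icc (1 : ℤ) (X' + 1)).image (fun s : ℤ => h₁ + s • F.w m) ⊆
        K.filter (fun x => lfh m N F a₀ < lfh m N F x) := by
      intro x hx
      rw [mem_image] at hx
      obtain ⟨s, hs, rfl⟩ := hx
      rw [mem_Icc] at hs
      rw [mem_filter]
      refine ⟨h.core _ fun i => ?_, ?_⟩
      · have h3 : vs c (h₁ + s • F.w m) i = vs c h₁ i + 2 * s * F.w m i := by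
          simp only [vs, Pi.add_apply, Pi.smul_apply, smul_eq_mul]
          ring
        rw [h3]
        have h4 := (F.bd (m := m) hQ i).1
        have h5 : |2 * s * F.w m i| ≤ 2 * (X' + 1) * Q := by
          rw [abs_mul, abs_of_nonneg (by linarith)]
          exact mul_le_mul (by linarith) h4 (abs_nonneg _) (by positivity)
        have h6 : (2 * Q * (X' + 1) + 1 : ℤ) ≤ r := by exact_mod_cast hr
        calc _ ≤ |vs c h₁ i| + |2 * s * F.w m i| := abs_add_le _ _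
          _ ≤ 1 + 2 * (X' + 1) * Q := add_le_add (hh1 i) h5
          _ = 2 * Q * (X' + 1) + 1 := by ring
          _ ≤ r := h6
      · rw [map_add, map_zsmul, lf_w, smul_eq_mul, mul_one]
        linarith
    have hcard := card_le_card hsub
    rw [card_image_of_injOn hinj, Int.card_Icc] at hcard
    omega
  refine ⟨a₀, F.prim m, lf_e m N F, ?_, hrun2, ?_, hhalf⟩
  · intro x hx y hy hxy
    obtain ⟨d1, d2⟩ := h.diff hx hy
    have h2 : lf m N F x = lf m N F y := hxy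
    rw [lf_eq F (d := 10 * Q * R) hN (fun i => (d1 i).trans h5R) (d2 F Q hQ)] at h2
    exact F.line h2.1 h2.2
  · rw [filter_union]
    refine (card_union_le _ _).trans (add_le_add hA ?_)
    exact h.countL (lfh m N F) hhalf.le hA

private theorem num_E1 {m kap J X : ℕ} (hX : 16 ≤ X) (hk : 20 * kap + 4 ≤ X) (hJ : J ≤ X) :
    X + (X + J + 20 * kap + 3) ^ (m + 3) ≤ X ^ (2 * m + 7) := by
  have h1 : X + J + 20 * kap + 3 ≤ X ^ 2 := by nlinarith
  have h2 : (X + J + 20 * kap + 3) ^ (m + 3) ≤ (X ^ 2) ^ (m + 3) := Nat.pow_le_pow_left h1 _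
  rw [← pow_mul] at h2
  have h3 : X ≤ X ^ (2 * (m + 3)) := Nat.le_self_pow (by omega) X
  have h4 : X ^ (2 * m + 7) = X * X ^ (2 * (m + 3)) := by
    rw [← pow_succ']
    congr 1
  rw [h4]
  have h5 : 2 * X ^ (2 * (m + 3)) ≤ X * X ^ (2 * (m + 3)) := Nat.mul_le_mul_right _ (by omega)
  omega

private theorem num_E2 {v m kap J X : ℕ} (hv : 1 ≤ v) (hX : 16 ≤ X) (hk : 20 * kap + 4 ≤ X)
    (hJ : J ≤ X) :
    X ^ v + (X ^ v + J + 20 * kap + 3) ^ (m + 3) ≤ X ^ ((v + 1) * (m + 3) + 1) := by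
  have h0 : X ≤ X ^ v := Nat.le_self_pow (by omega) X
  have h1 : X ^ v + J + 20 * kap + 3 ≤ X ^ (v + 1) := by
    rw [pow_succ]
    nlinarith
  have h2 : (X ^ v + J + 20 * kap + 3) ^ (m + 3) ≤ (X ^ (v + 1)) ^ (m + 3) :=
    Nat.pow_le_pow_left h1 _
  rw [← pow_mul] at h2
  have h3 : X ^ v ≤ X ^ ((v + 1) * (m + 3)) := by
    refine Nat.pow_le_pow_right (by omega) ?_
    nlinarith
  rw [pow_succ' X ((v + 1) * (m + 3))]
  have h5 : 2 * X ^ ((v + 1) * (m + 3)) ≤ X * X ^ ((v + 1) * (m + 3)) :=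
    Nat.mul_le_mul_right _ (by omega)
  omega

private theorem num_ell {E J kap X u : ℕ} (hX : 16 ≤ X) (hE : E ≤ X ^ u) (hJ : J ≤ X)
    (hk : 20 * kap + 4 ≤ X) : 6 * Wq E J (JJ kap J) 2 + 2 + 1 ≤ X ^ (3 * u + 10) := by
  have h1 := Wq_le hX hE hJ (JJ_le (kap := kap) hJ hk)
  have h2 : X ^ (3 * u + 10) = X ^ 2 * X ^ (3 * u + 8) := by
    rw [← pow_add]
    congr 1
    omega
  rw [h2]
  have h3 : 1 ≤ X ^ (3 * u + 8) := Nat.one_le_pow _ _ (by omega)
  have h4 : 256 ≤ X ^ 2 := by nlinarith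
  have h5 : 256 * X ^ (3 * u + 8) ≤ X ^ 2 * X ^ (3 * u + 8) := Nat.mul_le_mul_right _ h4
  omega

private theorem num_deep {q u X Q ell : ℕ} {M : ℝ} (hM : 0 ≤ M) (hX : 2 + 2 * M ≤ X)
    (hQ : Q ≤ X ^ q) (hl : ell + 1 ≤ X ^ (3 * u + 10)) :
    2 + (4 * (Q : ℝ) ^ 2 * M) * ((ell : ℝ) + 1) ^ 2 / 2 ≤ (X : ℝ) ^ (2 * q + 6 * u + 21) := by
  have hX1 : (1 : ℝ) ≤ X := by linarith
  have h1 : (Q : ℝ) ^ 2 ≤ (X : ℝ) ^ (2 * q) := by
    have h : (Q : ℝ) ≤ (X : ℝ) ^ q := by exact_mod_cast hQ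
    calc (Q : ℝ) ^ 2 ≤ ((X : ℝ) ^ q) ^ 2 := pow_le_pow_left₀ (by positivity) h 2
      _ = (X : ℝ) ^ (2 * q) := by rw [← pow_mul, mul_comm]
  have h2 : ((ell : ℝ) + 1) ^ 2 ≤ (X : ℝ) ^ (6 * u + 20) := by
    have h : ((ell : ℝ) + 1) ≤ (X : ℝ) ^ (3 * u + 10) := by exact_mod_cast hl
    calc ((ell : ℝ) + 1) ^ 2 ≤ ((X : ℝ) ^ (3 * u + 10)) ^ 2 := pow_le_pow_left₀ (by positivity) h 2
      _ = (X : ℝ) ^ (6 * u + 20) := by
        rw [← pow_mul]
        congr 1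
        ring
  have h3 : (Q : ℝ) ^ 2 * ((ell : ℝ) + 1) ^ 2 ≤ (X : ℝ) ^ (2 * q + 6 * u + 20) := by
    calc (Q : ℝ) ^ 2 * ((ell : ℝ) + 1) ^ 2 ≤ (X : ℝ) ^ (2 * q) * (X : ℝ) ^ (6 * u + 20) :=
          mul_le_mul h1 h2 (by positivity) (by positivity)
      _ = (X : ℝ) ^ (2 * q + 6 * u + 20) := by
        rw [← pow_add]
        congr 1
  have h4 : (1 : ℝ) ≤ (X : ℝ) ^ (2 * q + 6 * u + 20) := one_le_pow₀ hX1
  have h5 : (4 * (Q : ℝ) ^ 2 * M) * ((ell : ℝ) + 1) ^ 2 / 2 =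
      2 * M * ((Q : ℝ) ^ 2 * ((ell : ℝ) + 1) ^ 2) := by ring
  rw [h5]
  have h6 : 2 * M * ((Q : ℝ) ^ 2 * ((ell : ℝ) + 1) ^ 2) ≤ 2 * M * (X : ℝ) ^ (2 * q + 6 * u + 20) :=
    mul_le_mul_of_nonneg_left h3 (by linarith)
  have h7 : (X : ℝ) ^ (2 * q + 6 * u + 21) = X * (X : ℝ) ^ (2 * q + 6 * u + 20) := by
    rw [← pow_succ']
  rw [h7]
  have h8 : (2 + 2 * M) * (X : ℝ) ^ (2 * q + 6 * u + 20) ≤ X * (X : ℝ) ^ (2 * q + 6 * u + 20) :=
    mul_le_mul_of_nonneg_right hX (by positivity)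
  nlinarith

private theorem num_r {q v X Q r β : ℕ} (hX : 16 ≤ X) (hQ : Q ≤ X ^ q)
    (hβ : q + v + 1 ≤ β) (hr : X ^ β ≤ r) : 2 * Q * (X ^ v + 1) + 1 ≤ r := by
  have h1 : 1 ≤ X ^ v := Nat.one_le_pow _ _ (by omega)
  have h2 : 1 ≤ X ^ q := Nat.one_le_pow _ _ (by omega)
  have h3 : Q * (X ^ v + 1) ≤ X ^ q * (2 * X ^ v) := Nat.mul_le_mul hQ (by omega)
  have h4 : X ^ (q + v + 1) ≤ X ^ β := Nat.pow_le_pow_right (by omega) hβ
  have h5 : X ^ (q + v + 1) = X * (X ^ q * X ^ v) := by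
    rw [pow_succ', pow_add]
  have h6 : 16 * (X ^ q * X ^ v) ≤ X * (X ^ q * X ^ v) := Nat.mul_le_mul_right _ hX
  have h7 : 1 ≤ X ^ q * X ^ v := Nat.mul_pos h2 h1
  have h8 : 2 * Q * (X ^ v + 1) = 2 * (Q * (X ^ v + 1)) := by ring
  have h9 : X ^ q * (2 * X ^ v) = 2 * (X ^ q * X ^ v) := by ring
  omega

theorem pole2 (m q kap : ℕ) {μ M : ℝ} (hμ : 0 < μ) (hM : μ ≤ M) : ∃ β eE X₀ : ℕ,
    ∀ (K L : Finset (Fin (m + 2) → ℤ)) (c : Fin (m + 2) → ℤ) (R r J : ℕ)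
      (Φ : (Fin (m + 2) → ℝ) → ℝ) (T b : ℝ) (a : Fin (m + 2) → ℤ) (X : ℕ) (F : Fr) (Q : ℕ) (N : ℤ),
      TwF K L c R r J kap → SDn Φ μ M → (∀ x, b ≤ Φ x) → Agr K Φ T F a →
      X₀ ≤ X → J ≤ X → (abv K m a).card ≤ X → (X : ℝ) ^ β ≤ T - mg Φ m (em a) → X ^ β ≤ r →
      F.Le Q → 1 ≤ Q → Q ≤ X ^ q → 10 * Q * R < N →
      ∃ (a₀ : Fin (m + 2) → ℤ) (E ell : ℕ), Pole K L c (lfh m N F) (F.e m) a₀ E ell ∧
        6 * Wq E J (JJ kap J) 2 + 2 ≤ ell ∧ Wq E J (JJ kap J) 2 ≤ X ^ eE ∧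
        ∀ i, |F.e m i| * (64 * (kap * J : ℕ)) ≤ r := by
  have hMpos : 0 < M := lt_of_lt_of_le hμ hM
  obtain ⟨u, hu⟩ : ∃ u, u = 2 * m + 7 := ⟨_, rfl⟩
  obtain ⟨v, hv⟩ : ∃ v, v = 2 * q + 3 * u + 12 := ⟨_, rfl⟩
  obtain ⟨u₂, hu₂⟩ : ∃ u₂, u₂ = (v + 1) * (m + 3) + 1 := ⟨_, rfl⟩
  obtain ⟨w, hw⟩ : ∃ w, w = 2 * q + 6 * u₂ + 21 := ⟨_, rfl⟩
  obtain ⟨β, hβ⟩ : ∃ β, β = 2 * q + 2 * w + 1 + (q + v + 2) := ⟨_, rfl⟩
  refine ⟨β, 3 * u₂ + 8, 16 + (20 * kap + 4) + ⌈2 + 2 * M⌉₊ + ⌈64 / μ⌉₊ + ⌈4 + 20 * M + μ⌉₊, ?_⟩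
  intro K L c R r J Φ T b a X F Q N hT hΦ hb hA hX hJ habv hτ hr hQ hQ1 hQX hN
  obtain ⟨j, hj1, hj2⟩ := hA
  have hX16 : 16 ≤ X := by omega
  have hk : 20 * kap + 4 ≤ X := by omega
  have hXM : 2 + 2 * M ≤ (X : ℝ) := by
    have h1 : ⌈2 + 2 * M⌉₊ ≤ X := by omega
    exact (Nat.le_ceil _).trans (by exact_mod_cast h1)
  have hXμ : 64 ≤ μ * (X : ℝ) := by
    have h1 : ⌈64 / μ⌉₊ ≤ X := by omega
    have h2 : 64 / μ ≤ (X : ℝ) := (Nat.le_ceil _).trans (by exact_mod_cast h1)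
    rw [div_le_iff₀ hμ] at h2
    linarith
  have hXT : 4 + 20 * M + μ ≤ (X : ℝ) := by
    have h1 : ⌈4 + 20 * M + μ⌉₊ ≤ X := by omega
    exact (Nat.le_ceil _).trans (by exact_mod_cast h1)
  have hX1 : (1 : ℝ) ≤ X := by linarith
  have hQr : (1 : ℝ) ≤ (Q : ℝ) := by exact_mod_cast hQ1
  have hQ2 : (1 : ℝ) ≤ (Q : ℝ) ^ 2 := one_le_pow₀ hQr
  have hQXr : (Q : ℝ) ^ 2 ≤ (X : ℝ) ^ (2 * q) := by
    have h : (Q : ℝ) ≤ (X : ℝ) ^ q := by exact_mod_cast hQX
    calc (Q : ℝ) ^ 2 ≤ ((X : ℝ) ^ q) ^ 2 := pow_le_pow_left₀ (by positivity) h 2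
      _ = (X : ℝ) ^ (2 * q) := by rw [← pow_mul, mul_comm]
  -- the last claim
  have hlast : ∀ i, |F.e m i| * (64 * (kap * J : ℕ)) ≤ (r : ℤ) := by
    intro i
    have h1 : |F.e m i| ≤ (Q : ℤ) := (F.bd hQ i).2
    have h2 : Q * (64 * (kap * J)) ≤ X ^ β := by
      have h3 : kap ≤ X := by omega
      have h4 : 64 * (kap * J) ≤ X ^ 4 := by
        calc 64 * (kap * J) ≤ X ^ 2 * (X * X) :=
              Nat.mul_le_mul (by nlinarith) (Nat.mul_le_mul h3 hJ)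
          _ = X ^ 4 := by ring
      calc Q * (64 * (kap * J)) ≤ X ^ q * X ^ 4 := Nat.mul_le_mul hQX h4
        _ = X ^ (q + 4) := by rw [← pow_add]
        _ ≤ X ^ β := Nat.pow_le_pow_right (by omega) (by omega)
    calc |F.e m i| * (64 * (kap * J : ℕ)) ≤ (Q : ℤ) * (64 * (kap * J : ℕ)) :=
          mul_le_mul_of_nonneg_right h1 (by positivity)
      _ = ((Q * (64 * (kap * J)) : ℕ) : ℤ) := by push_cast; ring
      _ ≤ ((r : ℕ) : ℤ) := by exact_mod_cast h2.trans hr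
  -- the function of two variables
  set Ψ : ℝ → ℝ → ℝ := pl Φ F a with hΨ
  set μ₂ : ℝ := μ / (4 * (Q : ℝ) ^ 2) with hμ₂
  set M₂ : ℝ := 4 * (Q : ℝ) ^ 2 * M with hM₂
  have hSD : SD2 Ψ μ₂ M₂ := pl_SD2 hΦ hμ.le hMpos.le hQ hQ1 a
  have hμ₂pos : 0 < μ₂ := by
    rw [hμ₂]
    positivity
  have hμ₂le : μ₂ ≤ μ := by
    rw [hμ₂, div_le_iff₀ (by positivity)]
    nlinarith
  have hM₂ge : M ≤ M₂ := by
    rw [hM₂]
    nlinarith
  have hbΨ : ∀ x y, mg Φ m (em a) ≤ Ψ x y := fun x y => pl_ge hb F a x y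
  have hψ : SD1 (cm Ψ) μ₂ M₂ := hSD.cmSD hμ₂pos.le hbΨ
  have hψb : ∀ t, mg Φ m (em a) ≤ cm Ψ t := fun t => pl_cm_ge hb F a t
  have hτ0 : 4 + 5 * M₂ + μ₂ ≤ T - mg Φ m (em a) := by
    refine le_trans ?_ hτ
    have h1 : 4 + 5 * M₂ + μ₂ ≤ (4 + 20 * M + μ) * (Q : ℝ) ^ 2 := by
      rw [hM₂]
      nlinarith
    have h2 : (4 + 20 * M + μ) * (Q : ℝ) ^ 2 ≤ X * (X : ℝ) ^ (2 * q) :=
      mul_le_mul hXT hQXr (by positivity) (by positivity)
    have h3 : X * (X : ℝ) ^ (2 * q) = (X : ℝ) ^ (2 * q + 1) := (pow_succ' _ _).symm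
    have h4 : (X : ℝ) ^ (2 * q + 1) ≤ (X : ℝ) ^ β := pow_le_pow_right₀ hX1 (by omega)
    linarith
  obtain ⟨m₀, hm1, hm2, hm3, hm4⟩ := hψ.step hψb hμ₂pos (by linarith) (by
    obtain ⟨t₀, ht₀⟩ := pl_cm_near (m := m) hb F a one_pos
    exact ⟨t₀, ht₀.le⟩) hτ0
  have hjm : j ≤ m₀ := by
    by_contra hcon
    push Not at hcon
    have h1 := hm2 _ hcon
    linarith
  have hrunγ : ∀ γ : ℤ, m₀ - 1 ≤ γ → ∀ t : ℤ, Φ (em (a + γ • F.w m + t • F.e m)) ≤ T →
      a + γ • F.w m + t • F.e m ∈ K := by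
    intro γ hγ t ht
    refine (hj2 _ (fun i hi => ?_) ?_).2 ht
    · simp [F.low_w hi, F.low_e hi]
    · rw [F.g_add, F.g_add, F.g_smul, F.g_smul, F.g_e, F.g_w]
      linarith
  -- the columns met by `K`
  have hstar : ∀ x ∈ K, (∀ i : Fin (m + 2), i.1 < m → x i = a i) → m₀ ≤ F.g m x - F.g m a →
      ∃ t : ℤ, x = a + (F.g m x - F.g m a) • F.w m + t • F.e m ∧
        Ψ ((F.g m x - F.g m a : ℤ) : ℝ) t ≤ T := by
    intro x hx hxa hxm
    obtain ⟨t, ht⟩ := F.coord (x := a) (y := x) (fun i hi => (hxa i hi).symm)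
    refine ⟨t, ht, ?_⟩
    rw [hΨ, pl_int, ← ht]
    exact (hj2 x hxa (by linarith)).1 hx
  have hstar2 : ∀ x ∈ K, (∀ i : Fin (m + 2), i.1 < m → x i = a i) →
      F.g m x - F.g m a ≤ m₀ := by
    intro x hx hxa
    by_contra hcon
    push Not at hcon
    obtain ⟨t, -, ht⟩ := hstar x hx hxa hcon.le
    have h1 := hm2 _ hcon
    have h2 : cm Ψ ((F.g m x - F.g m a : ℤ) : ℝ) ≤ Ψ ((F.g m x - F.g m a : ℤ) : ℝ) t :=
      cm_le hbΨ _ _
    linarith
  obtain ⟨E₁, hE₁⟩ : ∃ E₁, E₁ = X + (X + J + 20 * kap + 3) ^ (m + 3) := ⟨_, rfl⟩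
  have hE₁u : E₁ ≤ X ^ u := by
    rw [hE₁, hu]
    exact num_E1 hX16 hk hJ
  obtain ⟨ell₁, hell₁⟩ : ∃ ell₁, ell₁ = 6 * Wq E₁ J (JJ kap J) 2 + 2 := ⟨_, rfl⟩
  have hell₁X : ell₁ + 1 ≤ X ^ (3 * u + 10) := by
    rw [hell₁]
    exact num_ell hX16 hE₁u hJ hk
  obtain ⟨θ, hθ⟩ : ∃ θ : ℝ, θ = 2 + M₂ * ((ell₁ : ℝ) + 1) ^ 2 / 2 := ⟨_, rfl⟩
  have hθX : θ ≤ (X : ℝ) ^ (2 * q + 6 * u + 21) := by
    rw [hθ, hM₂]
    exact num_deep hMpos.le hXM hQX hell₁X
  have huu : u ≤ u₂ := by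
    rw [hu₂]
    nlinarith
  by_cases hcase : θ ≤ T - cm Ψ (m₀ : ℝ)
  · -- case A
    obtain ⟨a₀, ha₀⟩ := pole_of_col2 hT hΦ hμ hM hb a hQ hQ1 hN (X' := X) (ell := ell₁)
      (γ := m₀) (hrunγ m₀ (by linarith)) (by
        refine le_trans (card_le_card ?_) habv
        intro x hx
        rw [mem_filter] at hx
        obtain ⟨hxK, hx1 | ⟨hx1, hx2⟩⟩ := hx
        · exact hx1
        · have := hstar2 x hxK hx1
          omega)
      (by
        have := num_r (v := 1) hX16 hQX (show q + 1 + 1 ≤ β by omega) hr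
        rwa [pow_one] at this)
      (by
        rw [← hΨ, ← hM₂]
        linarith)
    rw [← hE₁] at ha₀
    refine ⟨a₀, E₁, ell₁, ha₀, hell₁.ge, ?_, hlast⟩
    exact Wq_le hX16 (hE₁u.trans (Nat.pow_le_pow_right (by omega) huu)) hJ (JJ_le hJ hk)
  · -- case B
    push Not at hcase
    obtain ⟨E₂, hE₂⟩ : ∃ E₂, E₂ = X ^ v + (X ^ v + J + 20 * kap + 3) ^ (m + 3) := ⟨_, rfl⟩
    have hE₂u : E₂ ≤ X ^ u₂ := by
      rw [hE₂, hu₂]
      exact num_E2 (by omega) hX16 hk hJ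
    obtain ⟨ell₂, hell₂⟩ : ∃ ell₂, ell₂ = 6 * Wq E₂ J (JJ kap J) 2 + 2 := ⟨_, rfl⟩
    have hell₂X : ell₂ + 1 ≤ X ^ (3 * u₂ + 10) := by
      rw [hell₂]
      exact num_ell hX16 hE₂u hJ hk
    have hdeepX : 2 + M₂ * ((ell₂ : ℝ) + 1) ^ 2 / 2 ≤ (X : ℝ) ^ w := by
      rw [hM₂, hw]
      exact num_deep hMpos.le hXM hQX hell₂X
    -- the depth of the column `m₀ - 1`
    have hdeep2 : (X : ℝ) ^ w ≤ T - cm Ψ ((m₀ - 1 : ℤ) : ℝ) := by
      refine le_of_sq_le_sq ?_ hm4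
      have h1 : μ₂ * (X : ℝ) ^ β ≤ 16 * (T - cm Ψ ((m₀ - 1 : ℤ) : ℝ)) ^ 2 :=
        le_trans (mul_le_mul_of_nonneg_left hτ hμ₂pos.le) hm3
      have h2 : 16 * ((X : ℝ) ^ w) ^ 2 ≤ μ₂ * (X : ℝ) ^ β := by
        rw [hμ₂, div_mul_eq_mul_div, le_div_iff₀ (by positivity)]
        have h3 : (X : ℝ) ^ (2 * q) * (X * ((X : ℝ) ^ w) ^ 2) ≤ (X : ℝ) ^ β := by
          have h4 : (X : ℝ) ^ (2 * q) * (X * ((X : ℝ) ^ w) ^ 2) = (X : ℝ) ^ (2 * q + 2 * w + 1) := by
            ring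
          rw [h4]
          exact pow_le_pow_right₀ hX1 (by omega)
        have h5 : 16 * ((X : ℝ) ^ w) ^ 2 * (4 * (Q : ℝ) ^ 2) ≤
            64 * ((X : ℝ) ^ (2 * q) * ((X : ℝ) ^ w) ^ 2) := by
          have := mul_le_mul_of_nonneg_right hQXr (show (0 : ℝ) ≤ 64 * ((X : ℝ) ^ w) ^ 2 by positivity)
          nlinarith
        have h6 : 64 * ((X : ℝ) ^ (2 * q) * ((X : ℝ) ^ w) ^ 2) ≤
            μ * X * ((X : ℝ) ^ (2 * q) * ((X : ℝ) ^ w) ^ 2) :=
          mul_le_mul_of_nonneg_right hXμ (by positivity)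
        have h7 := mul_le_mul_of_nonneg_left h3 hμ.le
        nlinarith
      linarith
    -- the points in the column `m₀`
    have hcard : (K.filter (fun x => (∀ i : Fin (m + 2), i.1 < m → x i = a i) ∧
        F.g m x - F.g m a = m₀)).card ≤ X ^ (2 * q + 3 * u + 11) + 1 := by
      set S := K.filter (fun x => (∀ i : Fin (m + 2), i.1 < m → x i = a i) ∧
        F.g m x - F.g m a = m₀) with hS
      have hS1 : ∀ x ∈ S, ∃ t : ℤ, x = a + m₀ • F.w m + t • F.e m ∧ Ψ (m₀ : ℝ) t ≤ T := by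
        intro x hx
        rw [hS, mem_filter] at hx
        obtain ⟨hxK, hx1, hx2⟩ := hx
        obtain ⟨t, ht1, ht2⟩ := hstar x hxK hx1 hx2.ge
        rw [hx2] at ht1 ht2
        exact ⟨t, ht1, ht2⟩
      choose! f hf1 hf2 using hS1
      have hinj : Set.InjOn f (S : Set (Fin (m + 2) → ℤ)) := by
        intro x hx y hy hxy
        rw [hf1 x (mem_coe.1 hx), hf1 y (mem_coe.1 hy), hxy]
      rw [← card_image_of_injOn hinj]
      refine card_diam _ _ ?_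
      intro s hs t ht
      rw [mem_image] at hs ht
      obtain ⟨x, hx, rfl⟩ := hs
      obtain ⟨y, hy, rfl⟩ := ht
      have h1 := (hSD.col (m₀ : ℝ)).pair (b := cm Ψ (m₀ : ℝ)) (fun t => cm_le hbΨ _ t)
        (hf2 x hx) (hf2 y hy)
      have h2 : μ₂ * ((f x : ℝ) - f y) ^ 2 ≤ 4 * (X : ℝ) ^ (2 * q + 6 * u + 21) := by linarith
      have h3 : ((f x : ℝ) - f y) ^ 2 ≤ ((X : ℝ) ^ (2 * q + 3 * u + 11)) ^ 2 := by
        rw [hμ₂, div_mul_eq_mul_div, div_le_iff₀ (by positivity)] at h2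
        have h4 : ((X : ℝ) ^ (2 * q + 3 * u + 11)) ^ 2 =
            (X : ℝ) ^ (2 * q) * (X * (X : ℝ) ^ (2 * q + 6 * u + 21)) := by ring
        rw [h4]
        have h5 : 4 * (X : ℝ) ^ (2 * q + 6 * u + 21) * (4 * (Q : ℝ) ^ 2) ≤
            64 * ((X : ℝ) ^ (2 * q) * (X : ℝ) ^ (2 * q + 6 * u + 21)) := by
          have := mul_le_mul_of_nonneg_right hQXr
            (show (0 : ℝ) ≤ (X : ℝ) ^ (2 * q + 6 * u + 21) by positivity)
          have h0 : (0 : ℝ) ≤ (X : ℝ) ^ (2 * q) * (X : ℝ) ^ (2 * q + 6 * u + 21) := by positivity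
          nlinarith
        have h6 : 64 * ((X : ℝ) ^ (2 * q) * (X : ℝ) ^ (2 * q + 6 * u + 21)) ≤
            μ * X * ((X : ℝ) ^ (2 * q) * (X : ℝ) ^ (2 * q + 6 * u + 21)) :=
          mul_le_mul_of_nonneg_right hXμ (by positivity)
        have h7 : μ * ((f x : ℝ) - f y) ^ 2 ≤
            μ * ((X : ℝ) ^ (2 * q) * (X * (X : ℝ) ^ (2 * q + 6 * u + 21))) := by
          nlinarith
        exact le_of_mul_le_mul_left h7 hμ
      have h8 : (f x : ℝ) - f y ≤ (X : ℝ) ^ (2 * q + 3 * u + 11) :=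
        (le_abs_self _).trans (abs_le_of_sq_le_sq h3 (by positivity))
      exact_mod_cast h8
    obtain ⟨a₀, ha₀⟩ := pole_of_col2 hT hΦ hμ hM hb a hQ hQ1 hN (X' := X ^ v) (ell := ell₂)
      (γ := m₀ - 1) (hrunγ (m₀ - 1) le_rfl) (by
        have hsub : (K.filter (fun x => x ∈ abv K m a ∨ ((∀ i : Fin (m + 2), i.1 < m → x i = a i) ∧
            F.g m a + (m₀ - 1) < F.g m x))) ⊆ abv K m a ∪
            (K.filter (fun x => (∀ i : Fin (m + 2), i.1 < m → x i = a i) ∧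
              F.g m x - F.g m a = m₀)) := by
          intro x hx
          rw [mem_filter] at hx
          obtain ⟨hxK, hx1 | ⟨hx1, hx2⟩⟩ := hx
          · exact mem_union_left _ hx1
          · refine mem_union_right _ ?_
            rw [mem_filter]
            refine ⟨hxK, hx1, ?_⟩
            have := hstar2 x hxK hx1
            omega
        refine (card_le_card hsub).trans ((card_union_le _ _).trans ?_)
        have h1 : X ^ v = X * X ^ (2 * q + 3 * u + 11) := by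
          rw [← pow_succ', hv]
        have h2 : X ≤ X ^ (2 * q + 3 * u + 11) := Nat.le_self_pow (by omega) X
        have h3 : 16 * X ^ (2 * q + 3 * u + 11) ≤ X * X ^ (2 * q + 3 * u + 11) :=
          Nat.mul_le_mul_right _ hX16
        omega)
      (num_r hX16 hQX (by omega) hr)
      (by
        rw [← hΨ, ← hM₂]
        linarith)
    rw [← hE₂] at ha₀
    refine ⟨a₀, E₂, ell₂, ha₀, hell₂.ge, ?_, hlast⟩
    exact Wq_le hX16 hE₂u hJ (JJ_le hJ hk)

end Pool.Agent.Lib.MP_8cf263_co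
end

section

/-!
# Round sets, file RdPlane: at most two shallow columns

`SD1.two_side`.  Let `h : SD1 φ μ M`, `0 < μ ≤ M`, `b ≤ φ`, `φ t₀ ≤ b + 1`, `τ = T - b`,
`2 (δ + 2 + 2 M) ≤ τ` and `δ ^ 2 < 2 μ τ`.  There are no integers `t₀ - 1 ≤ i < j` with
`T - δ ≤ φ i ≤ T` and `T - δ ≤ φ j ≤ T`.
Proof.  Let `x₀ = ⌈t₀ - 1⌉`, so `x₀ ≤ i` and
`|x₀ - t₀| ≤ 1` and `φ x₀ ≤ b + 2 + 2 M` (`SD1.near`).  Since `φ i ≥ T - δ > b + 2 + 2 M ≥ φ x₀` we have
`i ≠ x₀`; let `N = i - x₀ ≥ 1`.  By `SD1.slope` with `D = φ i - φ (i - 1)`: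
`N D ≥ φ i - φ x₀ + μ N (N - 1) ≥ τ' + μ N (N - 1)` with `τ' = τ - δ - 2 - 2 M ≥ τ / 2`, and
`D⁺ = φ (i + 1) - φ i ≥ D + 2 μ` (`h.lo i 1`), so `N D⁺ ≥ τ' + μ N ^ 2` (`N ≥ 1`:
`μ N (N - 1) + 2 μ N ≥ μ N ^ 2`), hence `D⁺ > 0` and `(N D⁺) ^ 2 ≥ 4 τ' μ N ^ 2`, i.e.
`D⁺ ^ 2 ≥ 4 μ τ' ≥ 2 μ τ`.  By `SD1.incr` (`j = i + N'`, `N' ≥ 1`):
`δ ≥ φ j - φ i ≥ N' D⁺ ≥ D⁺`.  So `δ ^ 2 ≥ 2 μ τ`, a contradiction.

`SD1.two_short`.  Under the same hypotheses there are no three integers `i < j < k` at which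
`T - δ ≤ φ ≤ T`.
Proof.  If `t₀ - 1 ≤ j` apply `two_side` to `j < k`; otherwise `j ≤ t₀ + 1`, and apply `two_side` to
the reflected function (`SD1.neg`, `- t₀`) and `- j < - i`.

-/

set_option autoImplicit false

namespace Pool.Agent.Lib.MP_8cf263_co

theorem SD1.two_side {φ : ℝ → ℝ} {μ M b T δ t₀ : ℝ} (h : SD1 φ μ M) (hb : ∀ t, b ≤ φ t)
    (hμ : 0 < μ) (hM : μ ≤ M) (h0 : φ t₀ ≤ b + 1) (h1 : 2 * (δ + 2 + 2 * M) ≤ T - b)
    (h2 : δ ^ 2 < 2 * μ * (T - b)) {i j : ℤ} (hi : t₀ - 1 ≤ i) (hij : i < j)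
    (hi1 : T - δ ≤ φ i) (hi2 : φ i ≤ T) (hj1 : T - δ ≤ φ j) (hj2 : φ j ≤ T) : False := by
  have hδ : 0 ≤ δ := by linarith
  have hx0 : ⌈t₀ - 1⌉ ≤ i := Int.ceil_le.mpr hi
  have hc1 : t₀ - 1 ≤ (⌈t₀ - 1⌉ : ℝ) := Int.le_ceil _
  have hc2 : (⌈t₀ - 1⌉ : ℝ) < t₀ - 1 + 1 := Int.ceil_lt_add_one _
  obtain ⟨x₀, hx⟩ : ∃ x₀ : ℤ, x₀ = ⌈t₀ - 1⌉ := ⟨_, rfl⟩
  rw [← hx] at hx0 hc1 hc2
  have hn := h.near hb h0 ((x₀ : ℝ) - t₀)
  have e0 : t₀ + ((x₀ : ℝ) - t₀) = x₀ := by ring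
  rw [e0] at hn
  have hsq : ((x₀ : ℝ) - t₀) ^ 2 ≤ 1 := by nlinarith
  have hφ0 : φ x₀ ≤ b + 2 + 2 * M := by nlinarith
  have hne : x₀ ≠ i := by
    intro he
    rw [he] at hφ0
    linarith
  have hlt : x₀ < i := lt_of_le_of_ne hx0 hne
  obtain ⟨N, hN⟩ : ∃ N : ℕ, (N : ℤ) = i - x₀ := ⟨(i - x₀).toNat, Int.toNat_of_nonneg (by omega)⟩
  obtain ⟨N', hN'⟩ : ∃ N' : ℕ, (N' : ℤ) = j - i := ⟨(j - i).toNat, Int.toNat_of_nonneg (by omega)⟩
  have hN1 : (1 : ℝ) ≤ N := by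
    have : 1 ≤ N := by omega
    exact_mod_cast this
  have hN1' : (1 : ℝ) ≤ N' := by
    have : 1 ≤ N' := by omega
    exact_mod_cast this
  have hNr : (x₀ : ℝ) + N = i := by
    have : ((N : ℤ) : ℝ) = ((i - x₀ : ℤ) : ℝ) := by rw [hN]
    push_cast at this
    linarith
  have hNr' : (i : ℝ) + N' = j := by
    have : ((N' : ℤ) : ℝ) = ((j - i : ℤ) : ℝ) := by rw [hN']
    push_cast at this
    linarith
  have hs := h.slope (x₀ : ℝ) N
  rw [hNr] at hs
  have hl := h.lo (i : ℝ) 1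
  have hinc := h.incr hμ.le (i : ℝ) N'
  rw [hNr'] at hinc
  obtain ⟨D, hD⟩ : ∃ D : ℝ, D = φ (i + 1) - φ i := ⟨_, rfl⟩
  rw [← hD] at hinc
  have hDm : φ i - φ (i - 1) + 2 * μ ≤ D := by rw [hD]; linarith
  have hND : φ i - φ x₀ + μ * N * (N - 1) + 2 * μ * N ≤ N * D := by
    have : (N : ℝ) * (φ i - φ (i - 1) + 2 * μ) ≤ N * D :=
      mul_le_mul_of_nonneg_left hDm (by linarith)
    linarith
  have hμN : 0 ≤ μ * (N : ℝ) := by positivity
  obtain ⟨τ, hτ⟩ : ∃ τ : ℝ, τ = T - b := ⟨_, rfl⟩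
  rw [← hτ] at h1 h2
  obtain ⟨τ', hτ'⟩ : ∃ τ' : ℝ, τ' = τ - δ - 2 - 2 * M := ⟨_, rfl⟩
  have hτ2 : τ ≤ 2 * τ' := by linarith
  have hτp : 0 < τ' := by linarith
  have hND2 : τ' + μ * (N : ℝ) ^ 2 ≤ N * D := by nlinarith
  have hpos : 0 < τ' + μ * (N : ℝ) ^ 2 := by positivity
  have hDp : 0 < D := by
    by_contra hc
    push Not at hc
    nlinarith
  have hsq2 : 4 * (τ' * μ) * (N : ℝ) ^ 2 ≤ D ^ 2 * (N : ℝ) ^ 2 := by
    have e1 : (τ' + μ * (N : ℝ) ^ 2) ^ 2 ≤ (N * D) ^ 2 := pow_le_pow_left₀ hpos.le hND2 2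
    nlinarith [sq_nonneg (τ' - μ * (N : ℝ) ^ 2)]
  have hD2 : 4 * (τ' * μ) ≤ D ^ 2 := le_of_mul_le_mul_right hsq2 (by positivity)
  have hDδ : D ≤ δ := by
    have : D ≤ N' * D := by nlinarith
    linarith
  have hDD : D ^ 2 ≤ δ ^ 2 := pow_le_pow_left₀ hDp.le hDδ 2
  nlinarith

theorem SD1.two_short {φ : ℝ → ℝ} {μ M b T δ : ℝ} (h : SD1 φ μ M) (hb : ∀ t, b ≤ φ t)
    (hμ : 0 < μ) (hM : μ ≤ M) (h0 : ∃ t₀, φ t₀ ≤ b + 1) (h1 : 2 * (δ + 2 + 2 * M) ≤ T - b)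
    (h2 : δ ^ 2 < 2 * μ * (T - b)) {i j k : ℤ} (hij : i < j) (hjk : j < k)
    (hi1 : T - δ ≤ φ i) (hi2 : φ i ≤ T) (hj1 : T - δ ≤ φ j) (hj2 : φ j ≤ T)
    (hk1 : T - δ ≤ φ k) (hk2 : φ k ≤ T) : False := by
  obtain ⟨t₀, ht⟩ := h0
  rcases le_or_gt (t₀ - 1) j with hc | hc
  · exact h.two_side hb hμ hM ht h1 h2 hc hjk hj1 hj2 hk1 hk2
  · have hn := h.neg
    have e : ∀ z : ℤ, φ (-((-z : ℤ) : ℝ)) = φ z := by
      intro z
      push_cast
      rw [neg_neg]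
    refine hn.two_side (t₀ := -t₀) (fun t => hb (-t)) hμ hM (by simpa using ht) h1 h2
      (i := -j) (j := -i) ?_ (by omega) ?_ ?_ ?_ ?_
    · push_cast
      linarith
    · simpa only [e] using hj1
    · simpa only [e] using hj2
    · simpa only [e] using hi1
    · simpa only [e] using hi2

end Pool.Agent.Lib.MP_8cf263_co
end
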