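import Pool.Agent.Lib.MP_8cf263_co.RsAgrA
import Pool.Agent.Lib.MP_8cf263_co.RdPlane
import Pool.Agent.Lib.MP_8cf263_co.RsCap
import Pool.Agent.Lib.MP_8cf263_co.RdPoleA
import Pool.Agent.Lib.MP_8cf263_co.RsHalve
import Pool.Agent.Lib.MP_8cf263_co.Face

section

/-!
# Round sets, file RdLines: the highest lines meeting `K Δ L` are short and balanced

`TwF.lines`.  Let `hP : Pole K L c f e a E ell` with `6 Wq E J (JJ kap J) 2 + 2 ≤ ell` and
`|e i| * (64 * (kap * J)) ≤ r`.  Let `q ≤ 2`, `p ∈ K Δ L` (`Df K L p`), `f c ≤ 2 f p`, and let `Q`,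
`|Q| = q`, be a set of points of `K Δ L` with `f p < f x` for `x ∈ Q`, `f` injective on `Q`, such that
every `x ∈ K Δ L` with `f p < f x` has `f x = f y` for some `y ∈ Q`.  Then
`Cl K L e p (Wq E J (JJ kap J) q)`.

Proof by strong induction on `q`.  Write `J₁ = JJ kap J`, `W = Wq E J J₁ q`.  `e ≠ 0` (`Pr.ne_zero`).
For `y ∈ Q` the set `Q_y = {x ∈ Q : f y < f x}` does not contain `y`, so `q_y = |Q_y| < q`, and the
induction hypothesis applies to `y` and `Q_y` (`f c ≤ 2 f p < 2 f y`; a point `x ∈ K Δ L` with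
`f y < f x` has `f p < f x`, so `f x = f x'` with `x' ∈ Q`, and `x' ∈ Q_y`).  If `q = q' + 1` then
`Wq q_y ≤ Wq q'` (`Wq_mono`), so `Cl K L e y (Wq q')` (`Cl.mono`); let `z_y` be the integer in this
statement, so that all points of the line `y + t e` in `K ∪ L` have `z_y ≤ t < z_y + lam`,
`lam = 2 Wq q'`, and the numbers of points of `K` and of `L` among them are equal.  Put
`Q₀ = Q.image (fun y => y + z_y • e)` (`f` has the same values on it as on `Q`; `|Q₀| = |Q| = q`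
because `f` is injective on `Q`).  If `q = 0` put `lam = 0`, `Q₀ = ∅`.  In both cases
`W = (2 E + 4 q + 1) * (max J₁ lam + J)`.

Now apply `window` (RdWin) with `Q₀` and:
* `αK, βK, αL, βL` from `LC.line` for the line of `a`; `0` and `ell` are in `[αK, βK]` (`hP.run`), so
  `αK + 6 W ≤ βK` (`Wq_mono`, `hell`) and `αK + 2 J ≤ βK` (`Wq_J`); `TwF.close` (RdClose2) at `x = a`
  gives `|αK - αL| ≤ J`, `|βK - βL| ≤ J`.  Its hypotheses: `a ∈ K` so `|vs c a i| ≤ R`;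
  `|e i| ≤ r ≤ R` (`1 ≤ kap * J` because `1 ≤ J` and `1 ≤ kap`: `64 ≤ r` would follow from `kap ≥ 1`;
  `kap = 0` is impossible by `R ≤ kap * r`, since `R = 0`, `r = 0` and then ... see below);
  `vs c a` and `e` are not parallel: otherwise `vs c a = k • e` (`par_of_minors`) and
  `0 = k f e = f (vs c a) = 2 f a - f c > 0` (`vs c a = a + a - c`).
* `S = (K ∪ L).filter (f a < f ·)`, `hP.top`.
* `hloc`: `TwF.cover` (RdCentral) at the point `p + a - y`; `J1 = J₁`.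
* `hQ`: if `Df K L x` and `f p < f x` then `f x = f y` for some `y ∈ Q`, `x = y + t • e` by `hP.sep`
  (`x, y ∈ K ∪ L`), and `z_y ≤ t < z_y + lam`.
* `hQ0`: `∑ (ind K - ind L) = 0` is the equality of the two cardinalities (shift by `z_y`).
* `κ, l` from `LC.line` for the line of `p`; `Icc κ1 κ2 ≠ Icc l1 l2`, since `0` belongs to exactly one
  of them (`Df K L p`).
* `hgood`: `TwF.vis` for `b = p + a - c`: `2 b = vs c p + vs c a`, so `|b i| ≤ 5 R` (`outU`); `b` and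
  `e` are not parallel since `2 f b = (2 f p - f c) + (2 f a - f c) > 0`.
The conclusion of `window` gives `z` with `[z, z + 2 W)` containing all points of the line of `p`,
and `(Icc κ1 κ2).card = (Icc l1 l2).card`; the filters in the definition of `Cl` are `Icc κ1 κ2` and
`Icc l1 l2`.

(About `kap`: if `kap = 0` then `R = 0` by `h.Rr`, `r = 0` by `h.rR`; all points of `K` and `L`
(`outU`) satisfy `vs c x = 0`, i.e. `2 x = c`; but `f c < 2 f a` with `a ∈ K` gives `f c < f c`, a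
contradiction.  So `1 ≤ kap`, and `|e i| ≤ |e i| * (64 * (kap * J)) ≤ r ≤ R`.)
-/

set_option autoImplicit false

namespace Pool.Agent.Lib.MP_8cf263_co

open Finset

private theorem rl_sum {n : ℕ} (A : Finset (Fin n → ℤ)) (y e : Fin n → ℤ) (z : ℤ) (lam : ℕ) :
    ∑ t ∈ Ico (0 : ℤ) lam, ind A (y + z • e + t • e) =
      (((Ico z (z + lam)).filter (fun t => y + t • e ∈ A)).card : ℤ) := by
  rw [Finset.card_filter, Nat.cast_sum]
  refine Finset.sum_nbij' (fun t => t + z) (fun t => t - z) ?_ ?_ ?_ ?_ ?_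
  · intro t ht
    rw [mem_Ico] at ht ⊢
    omega
  · intro t ht
    rw [mem_Ico] at ht ⊢
    omega
  · intro t _
    simp
  · intro t _
    simp
  · intro t _
    have h1 : y + z • e + t • e = y + (t + z) • e := by
      rw [add_smul]
      abel
    rw [h1]
    unfold ind
    split_ifs <;> simp

private theorem rl_f {n : ℕ} {e : Fin n → ℤ} (f : (Fin n → ℤ) →+ ℤ) (hfe : f e = 0)
    (x : Fin n → ℤ) (k : ℤ) : f (x + k • e) = f x := by
  rw [map_add, map_zsmul, hfe, smul_zero, add_zero]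

theorem TwF.lines {n : ℕ} {K L : Finset (Fin n → ℤ)} {c : Fin n → ℤ} {R r J kap : ℕ}
    (h : TwF K L c R r J kap) {f : (Fin n → ℤ) →+ ℤ} {e a : Fin n → ℤ} {E ell : ℕ}
    (hP : Pole K L c f e a E ell) (hee : ∀ i, |e i| * (64 * (kap * J : ℕ)) ≤ r)
    (hell : 6 * Wq E J (JJ kap J) 2 + 2 ≤ ell) (q : ℕ) (hq : q ≤ 2) (p : Fin n → ℤ)
    (Q : Finset (Fin n → ℤ)) (hQc : Q.card = q) (hp : Df K L p) (hpc : f c ≤ 2 * f p)
    (hQ : ∀ x ∈ Q, Df K L x ∧ f p < f x) (hinj : Set.InjOn f (Q : Set (Fin n → ℤ)))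
    (hcov : ∀ x, Df K L x → f p < f x → ∃ y ∈ Q, f x = f y) :
    Cl K L e p (Wq E J (JJ kap J) q) := by
  classical
  induction q using Nat.strong_induction_on generalizing p Q with
  | _ q ih =>
  have hpe := hP.pe
  have he0 := hpe.ne_zero
  have hfe := hP.fe
  have haK : a ∈ K := by
    have := hP.run 0 le_rfl (by positivity)
    rwa [zero_smul, add_zero] at this
  have hpU : p ∈ K ∪ L := by
    rw [mem_union]
    by_contra hcon
    rw [not_or] at hcon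
    exact hp (iff_of_false hcon.1 hcon.2)
  have hvs : ∀ x, vs c x = x + x - c := by
    intro x
    funext i
    simp only [vs, Pi.sub_apply, Pi.add_apply]
    ring
  have hfv : ∀ x, f (vs c x) = 2 * f x - f c := by
    intro x
    rw [hvs, map_sub, map_add]
    ring
  have hhalf := hP.half
  have hkap : 1 ≤ kap := by
    rcases Nat.eq_zero_or_pos kap with h0 | h0
    · exfalso
      have hR : R = 0 := by
        have := h.Rr
        rw [h0, zero_mul] at this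
        omega
      have hz : vs c a = 0 := by
        funext i
        have h1 := h.out a haK i
        rw [hR] at h1
        exact abs_nonpos_iff.1 (by simpa using h1)
      have h2 := hfv a
      rw [hz, map_zero] at h2
      linarith
    · exact h0
  have hJ := h.J1
  have hP1 : 1 ≤ kap * J := Nat.mul_pos hkap hJ
  have hPz : (1 : ℤ) ≤ (kap * J : ℕ) := by exact_mod_cast hP1
  have hRz : (0 : ℤ) ≤ R := by positivity
  have hee' : ∀ i, |e i| ≤ 10 * R := by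
    intro i
    have h1 := hee i
    have h2 : (1 : ℤ) ≤ 64 * (kap * J : ℕ) := by linarith
    have h3 : |e i| * 1 ≤ |e i| * (64 * (kap * J : ℕ)) :=
      mul_le_mul_of_nonneg_left h2 (abs_nonneg _)
    have h4 : (r : ℤ) ≤ R := by exact_mod_cast h.rR
    linarith
  -- the line of `a`
  obtain ⟨αK, βK, hαK⟩ := h.tw.hK.line he0 a
  obtain ⟨αL, βL, hαL⟩ := h.tw.hL.line he0 a
  have hnca : ∃ i j, vs c a i * e j - vs c a j * e i ≠ 0 := by
    by_contra hcon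
    push Not at hcon
    obtain ⟨k, hk⟩ := par_of_minors hpe fun i j => sub_eq_zero.1 (hcon i j)
    have h2 := hfv a
    rw [hk, map_zsmul, hfe, smul_zero] at h2
    linarith
  have hW2 : Wq E J (JJ kap J) q ≤ Wq E J (JJ kap J) 2 := Wq_mono _ _ _ hq
  have hJW : J ≤ Wq E J (JJ kap J) q := Wq_J _ _ _ _
  have hα0 : αK ≤ 0 ∧ (0 : ℤ) ≤ βK := (hαK 0).1 (by rwa [zero_smul, add_zero])
  have hα1 : αK ≤ (ell : ℤ) ∧ (ell : ℤ) ≤ βK := (hαK ell).1 (hP.run _ (by positivity) le_rfl)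
  have hlen : αK + 6 * (Wq E J (JJ kap J) q : ℕ) ≤ βK := by omega
  obtain ⟨hc1, hc2⟩ := (h.close hpe (fun i => by
    have := h.out a haK i
    linarith) hee' hnca hαK hαL).1 (by omega)
  -- the lines above
  obtain ⟨lam, Q₀, hQ₀c, hQ₀i, hQ₀f, hQ₀v, hQ₀s, hQ₀W⟩ : ∃ (lam : ℕ) (Q₀ : Finset (Fin n → ℤ)),
      Q₀.card = q ∧ Set.InjOn f (Q₀ : Set (Fin n → ℤ)) ∧ (∀ y ∈ Q₀, f p < f y) ∧
      (∀ x, Df K L x → f p < f x →
        ∃ y ∈ Q₀, f x = f y ∧ ∃ t : ℤ, 0 ≤ t ∧ t < lam ∧ x = y + t • e) ∧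
      (∀ y ∈ Q₀, ∑ t ∈ Ico (0 : ℤ) lam, (ind K (y + t • e) - ind L (y + t • e)) = 0) ∧
      (2 * E + 4 * q + 1) * (max (JJ kap J) lam + J) ≤ Wq E J (JJ kap J) q := by
    rcases Nat.eq_zero_or_pos q with hq0 | hq0
    · subst hq0
      rw [Finset.card_eq_zero] at hQc
      refine ⟨0, ∅, rfl, ?_, ?_, ?_, ?_, ?_⟩
      · simp
      · simp
      · intro x hx1 hx2
        obtain ⟨y, hy, -⟩ := hcov x hx1 hx2
        rw [hQc] at hy
        simp at hy
      · simp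
      · have : Wq E J (JJ kap J) 0 = (2 * E + 1) * (JJ kap J + J) := rfl
        rw [this, Nat.max_eq_left (Nat.zero_le _)]
    · obtain ⟨q', rfl⟩ : ∃ q', q = q' + 1 := ⟨q - 1, by omega⟩
      have hcl : ∀ y ∈ Q, Cl K L e y (Wq E J (JJ kap J) q') := by
        intro y hy
        have hlt : (Q.filter (fun x => f y < f x)).card < q' + 1 := by
          rw [← hQc]
          apply Finset.card_lt_card
          rw [Finset.filter_ssubset]
          exact ⟨y, hy, lt_irrefl _⟩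
        have h1 := ih _ hlt (by omega) y (Q.filter (fun x => f y < f x)) rfl (hQ y hy).1
          (by have := (hQ y hy).2; linarith)
          (fun x hx => by
            rw [mem_filter] at hx
            exact ⟨(hQ x hx.1).1, hx.2⟩)
          (hinj.mono (by
            intro x hx
            rw [Finset.mem_coe, mem_filter] at hx
            exact hx.1))
          (fun x hx1 hx2 => by
            obtain ⟨x', hx', hx''⟩ := hcov x hx1 (by have := (hQ y hy).2; linarith)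
            exact ⟨x', mem_filter.2 ⟨hx', by rw [← hx'']; exact hx2⟩, hx''⟩)
        exact h1.mono (Wq_mono _ _ _ (by omega))
      unfold Cl at hcl
      choose! z hz1 hz2 using hcl
      have hfz : ∀ y, f (y + z y • e) = f y := fun y => rl_f f hfe y (z y)
      have hzinj : Set.InjOn (fun y => y + z y • e) (Q : Set (Fin n → ℤ)) := by
        intro y hy y' hy' hyy
        apply hinj hy hy'
        have := congrArg f hyy
        simp only [hfz] at this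
        exact this
      refine ⟨2 * Wq E J (JJ kap J) q', Q.image (fun y => y + z y • e), ?_, ?_, ?_, ?_, ?_, ?_⟩
      · rw [Finset.card_image_of_injOn hzinj, hQc]
      · intro y hy y' hy' hyy
        rw [Finset.mem_coe, mem_image] at hy hy'
        obtain ⟨x, hx, rfl⟩ := hy
        obtain ⟨x', hx', rfl⟩ := hy'
        rw [hfz, hfz] at hyy
        rw [hinj hx hx' hyy]
      · intro y hy
        rw [mem_image] at hy
        obtain ⟨x, hx, rfl⟩ := hy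
        rw [hfz]
        exact (hQ x hx).2
      · intro x hx1 hx2
        obtain ⟨y, hy, hxy⟩ := hcov x hx1 hx2
        have hyU : y ∈ K ∪ L := by
          rw [mem_union]
          by_contra hcon
          rw [not_or] at hcon
          exact (hQ y hy).1 (iff_of_false hcon.1 hcon.2)
        have hxU : x ∈ K ∪ L := by
          rw [mem_union]
          by_contra hcon
          rw [not_or] at hcon
          exact hx1 (iff_of_false hcon.1 hcon.2)
        obtain ⟨t, ht⟩ := hP.sep y hyU x hxU hxy.symm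
        have h1 := hz1 y hy t (by rw [← ht]; exact mem_union.1 hxU)
        refine ⟨y + z y • e, mem_image_of_mem _ hy, by rw [hfz]; exact hxy, t - z y, ?_, ?_, ?_⟩
        · omega
        · push_cast
          omega
        · rw [ht, sub_smul]
          abel
      · intro y hy
        rw [mem_image] at hy
        obtain ⟨x, hx, rfl⟩ := hy
        rw [Finset.sum_sub_distrib, rl_sum, rl_sum, sub_eq_zero]
        have h1 := hz2 x hx
        push_cast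
        exact_mod_cast h1
      · exact le_of_eq rfl
  -- the line of `p`
  obtain ⟨κ1, κ2, hκ⟩ := h.tw.hK.line he0 p
  obtain ⟨l1, l2, hl⟩ := h.tw.hL.line he0 p
  have hne : Icc κ1 κ2 ≠ Icc l1 l2 := by
    intro heq
    apply hp
    have h1 := hκ 0
    have h2 := hl 0
    rw [zero_smul, add_zero] at h1 h2
    rw [h1, h2, ← mem_Icc, ← mem_Icc, heq]
  have hgood : ∀ s : ℤ, ∃ t : ℤ, s ≤ t ∧ t < s + J ∧ Pr (p + a - c + t • e) := by
    intro s
    refine h.vis hpe ?_ hee' ?_ s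
    · intro i
      have h1 := h.outU hpU i
      have h2 := h.out a haK i
      have h3 : 2 * (p + a - c) i = vs c p i + vs c a i := by
        simp only [vs, Pi.sub_apply, Pi.add_apply]
        ring
      have h4 := abs_add_le (vs c p i) (vs c a i)
      rw [← h3, abs_mul, abs_two] at h4
      linarith
    · by_contra hcon
      push Not at hcon
      obtain ⟨k, hk⟩ := par_of_minors hpe fun i j => sub_eq_zero.1 (hcon i j)
      have h2 : f (p + a - c) = f p + f a - f c := by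
        rw [map_sub, map_add]
      rw [hk, map_zsmul, hfe, smul_zero] at h2
      linarith
  obtain ⟨hcard, z, hz⟩ := window h.tw hpe f hfe hP.sep (a := a) (p := p) (E := E) (J := J)
    (J1 := JJ kap J) (lam := lam) (W := Wq E J (JJ kap J) q) hαK hαL hc1 hc2 hlen
    ((K ∪ L).filter (fun x => f a < f x)) (fun y hy1 hy2 => mem_filter.2 ⟨hy1, hy2⟩) hP.top
    (fun y _ => h.cover hpe hee (p + a - y)) Q₀ hQ₀i hQ₀f hQ₀v hQ₀s hκ hl hne hgood
    (by rw [hQ₀c]; exact hQ₀W)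
  refine ⟨z, hz, ?_⟩
  have e1 : (Ico z (z + 2 * (Wq E J (JJ kap J) q : ℕ))).filter (fun t => p + t • e ∈ K) =
      Icc κ1 κ2 := by
    ext t
    rw [mem_filter, mem_Ico, mem_Icc, ← hκ]
    exact ⟨fun ht => ht.2, fun ht => ⟨hz t (Or.inl ht), ht⟩⟩
  have e2 : (Ico z (z + 2 * (Wq E J (JJ kap J) q : ℕ))).filter (fun t => p + t • e ∈ L) =
      Icc l1 l2 := by
    ext t
    rw [mem_filter, mem_Ico, mem_Icc, ← hl]
    exact ⟨fun ht => ht.2, fun ht => ⟨hz t (Or.inr ht), ht⟩⟩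
  rw [e1, e2]
  exact hcard

end Pool.Agent.Lib.MP_8cf263_co
end

section

/-!
# Round sets, file RdTop: the highest point of `K Δ L` for a frame

`top_point`.  Let `N > 10 Q R`, `F.Le Q`, `1 ≤ Q`, `f = lfh m N F`, `p` a point of `K Δ L` whose first
`m` coordinates are lexicographically maximal (`hmax`).  Then there is `p' ∈ K Δ L` in the level of
`p` with `f x ≤ f p'` for all `x ∈ K Δ L`, and `f c ≤ 2 f p'`.
Proof.  Let `p'` maximise `f` on the finite set `(K ∪ L).filter (Df K L)`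
(`Finset.exists_max_image`).  `c - p' ∈ K Δ L` (`Df.neg`), so `f c - f p' ≤ f p'`.  `f p ≤ f p'`; if
`f p = f p'` then `lf_eq` gives that they are in the same level; if `f p < f p'` use `lf_lt` and
`hmax`.  (`TwF.diff`, `d = 10 Q R < N`; `5 R ≤ 10 Q R`.)
-/

set_option autoImplicit false

namespace Pool.Agent.Lib.MP_8cf263_co

open Finset

variable {m : ℕ} {K L : Finset (Fin (m + 2) → ℤ)} {c : Fin (m + 2) → ℤ} {R r J kap : ℕ}

theorem top_point (h : TwF K L c R r J kap) {F : Fr} {Q : ℕ} (hQ : F.Le Q) (hQ1 : 1 ≤ Q) {N : ℤ}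
    (hN : 10 * Q * R < N) {p : Fin (m + 2) → ℤ} (hp : Df K L p)
    (hmax : ∀ x, Df K L x → ¬ ∃ j : Fin (m + 2), j.1 < m ∧ (∀ i : Fin (m + 2), i < j → x i = p i) ∧
      p j < x j) :
    ∃ p', Df K L p' ∧ (∀ i : Fin (m + 2), i.1 < m → p' i = p i) ∧
      (∀ x, Df K L x → lfh m N F x ≤ lfh m N F p') ∧ lfh m N F c ≤ 2 * lfh m N F p' := by
  classical
  have hQZ : (1 : ℤ) ≤ Q := by exact_mod_cast hQ1
  have hR0 : (0 : ℤ) ≤ R := by positivity
  have h5R : (5 : ℤ) * R ≤ 10 * Q * R := by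
    have := mul_le_mul_of_nonneg_right hQZ hR0
    linarith
  obtain ⟨p', hp', hmx⟩ := exists_max_image ((K ∪ L).filter (fun x => Df K L x)) (lfh m N F)
    ⟨p, mem_filter.2 ⟨hp.mem, hp⟩⟩
  rw [mem_filter] at hp'
  have hall : ∀ x, Df K L x → lfh m N F x ≤ lfh m N F p' :=
    fun x hx => hmx x (mem_filter.2 ⟨hx.mem, hx⟩)
  refine ⟨p', hp'.2, ?_, hall, ?_⟩
  · obtain ⟨d1, d2⟩ := h.diff hp.mem hp'.2.mem
    rcases (hall p hp).lt_or_eq with h1 | h1
    · have h2 : lf m N F p < lf m N F p' := h1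
      rw [lf_lt F (d := 10 * Q * R) hN (fun i => (d1 i).trans h5R) (d2 F Q hQ)] at h2
      rcases h2 with ⟨j, hj, h3, h4⟩ | ⟨h3, _⟩
      · exact absurd ⟨j, hj, fun i hi => (h3 i hi).symm, h4⟩ (hmax p' hp'.2)
      · exact fun i hi => (h3 i hi).symm
    · have h2 : lf m N F p = lf m N F p' := h1
      rw [lf_eq F (d := 10 * Q * R) hN (fun i => (d1 i).trans h5R) (d2 F Q hQ)] at h2
      exact fun i hi => (h2.1 i hi).symm
  · have h1 := hall _ (hp'.2.neg h.tw)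
    rw [map_sub] at h1
    linarith

end Pool.Agent.Lib.MP_8cf263_co
end

section

/-!
# Round sets, file RdTopCol: the highest columns meeting `K Δ L` are short

Frame `FA`: `w` is the direction number `iu m`, `e` the direction number `iv m`, `g x = x (iu m)`,
`FA.Le 1`.  Put `f = lfh m N FA`, `W = Wq E J (JJ kap J) 2`, `δ = 2 + 2 M (2 W + 1) ^ 2`,
`Ψ = pl Φ FA p`, `ψ = cm Ψ`; by `pl_SD2` (`Q = 1`) and `SD2.cmSD` `ψ` satisfies `SD1 (μ / 4) (4 M)`, with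
lower bound `b₀ = mg Φ m (em p)` (`pl_cm_ge`, `pl_cm_near`).  `p` is a point of `K Δ L` whose first
`m` coordinates are lexicographically maximal (`hmax`).  The level consists of the `z` which agree
with `p` in the coordinates `< m`.

`top_col`.  Let `z` be in the level, `Df K L z`, `f c ≤ 2 f z`, and let `S` be a set of integers with
at most two elements that contains `x (iu m)` for all `x` in the level with `Df K L x` and
`z (iu m) < x (iu m)`.  Then `Cl K L e z W`.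
Proof.  Let `D` be the finite set of `x ∈ K ∪ L` in the level with `Df K L x` and
`z (iu m) < x (iu m)`, and choose for each element of `D.image (· (iu m)) ⊆ S` one element of `D` with
this coordinate; let `Q` be the set of the chosen elements; `|Q| ≤ 2`.  `TwF.lines`: for `x ∈ Q`
`f z < f x` by `lf_lt`; `f` is injective on `Q` (`lf_eq`: equal values imply equal coordinate
`iu m`); if `Df K L x` and `f z < f x` then by `lf_lt` either `x` is lexicographically above `z` in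
the first `m` coordinates, which contradicts `hmax` (`z` agrees with `p` there), or `x` is in the
level and `z (iu m) < x (iu m)`, so `x ∈ D` and `f x = f y` for the chosen `y` (`lf_eq`).  Finally
`Cl.mono`, `Wq_mono`.  (`lf_lt`, `lf_eq` are used with `d = 10 R < N`, `TwF.diff` with `Q = 1`.)
-/

set_option autoImplicit false

namespace Pool.Agent.Lib.MP_8cf263_co

open Finset

variable {m : ℕ} {K L : Finset (Fin (m + 2) → ℤ)} {c : Fin (m + 2) → ℤ} {R r J kap : ℕ}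

theorem top_col (h : TwF K L c R r J kap) {N : ℤ} (hN : 10 * R < N) {a : Fin (m + 2) → ℤ}
    {E ell : ℕ} (hP : Pole K L c (lfh m N FA) (FA.e m) a E ell)
    (hee : ∀ i, |FA.e m i| * (64 * (kap * J : ℕ)) ≤ r) (hell : 6 * Wq E J (JJ kap J) 2 + 2 ≤ ell)
    {p z : Fin (m + 2) → ℤ}
    (hmax : ∀ x, Df K L x → ¬ ∃ j : Fin (m + 2), j.1 < m ∧ (∀ i : Fin (m + 2), i < j → x i = p i) ∧
      p j < x j)
    (hz : ∀ i : Fin (m + 2), i.1 < m → z i = p i) (hD : Df K L z)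
    (hzc : lfh m N FA c ≤ 2 * lfh m N FA z) (S : Finset ℤ) (hS : S.card ≤ 2)
    (hSx : ∀ x, Df K L x → (∀ i : Fin (m + 2), i.1 < m → x i = p i) → z (iu m) < x (iu m) →
      x (iu m) ∈ S) : Cl K L (FA.e m) z (Wq E J (JJ kap J) 2) := by
  classical
  have hg : ∀ x : Fin (m + 2) → ℤ, FA.g m x = x (iu m) := by
    intro x
    unfold Fr.g FA
    simp
  have hR0 : (0 : ℤ) ≤ R := Int.natCast_nonneg _
  have hbd : ∀ x y : Fin (m + 2) → ℤ, x ∈ K ∪ L → y ∈ K ∪ L →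
      (∀ i, |x i - y i| ≤ 10 * R) ∧ |FA.g m x - FA.g m y| ≤ 10 * R := by
    intro x y hx hy
    obtain ⟨d1, d2⟩ := h.diff hx hy
    refine ⟨fun i => (d1 i).trans (by linarith), ?_⟩
    have := d2 FA 1 FA_le
    simpa using this
  have key_lt : ∀ x y : Fin (m + 2) → ℤ, x ∈ K ∪ L → y ∈ K ∪ L →
      (lfh m N FA x < lfh m N FA y ↔
        (∃ j : Fin (m + 2), j.1 < m ∧ (∀ i : Fin (m + 2), i < j → x i = y i) ∧ x j < y j) ∨
        ((∀ i : Fin (m + 2), i.1 < m → x i = y i) ∧ x (iu m) < y (iu m))) := by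
    intro x y hx hy
    obtain ⟨b1, b2⟩ := hbd x y hx hy
    have h1 := lf_lt FA hN b1 b2
    rw [hg, hg] at h1
    exact h1
  have key_eq : ∀ x y : Fin (m + 2) → ℤ, x ∈ K ∪ L → y ∈ K ∪ L →
      (lfh m N FA x = lfh m N FA y ↔
        (∀ i : Fin (m + 2), i.1 < m → x i = y i) ∧ x (iu m) = y (iu m)) := by
    intro x y hx hy
    obtain ⟨b1, b2⟩ := hbd x y hx hy
    have h1 := lf_eq FA hN b1 b2
    rw [hg, hg] at h1
    exact h1
  let D : Finset (Fin (m + 2) → ℤ) := (K ∪ L).filter fun x =>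
    (∀ i : Fin (m + 2), i.1 < m → x i = p i) ∧ Df K L x ∧ z (iu m) < x (iu m)
  have hDm : ∀ x, x ∈ D ↔ (∀ i : Fin (m + 2), i.1 < m → x i = p i) ∧ Df K L x ∧
      z (iu m) < x (iu m) := by
    intro x
    rw [mem_filter]
    exact ⟨fun hx => hx.2, fun hx => ⟨hx.2.1.mem, hx⟩⟩
  let I : Finset ℤ := D.image fun x => x (iu m)
  have hIS : I ⊆ S := by
    intro s hs
    obtain ⟨x, hx, rfl⟩ := mem_image.1 hs
    rw [hDm] at hx
    exact hSx x hx.2.1 hx.1 hx.2.2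
  have hch : ∀ s : ℤ, s ∈ I → ∃ x, x ∈ D ∧ x (iu m) = s := by
    intro s hs
    obtain ⟨x, hx, hxs⟩ := mem_image.1 hs
    exact ⟨x, hx, hxs⟩
  choose! ch hch1 hch2 using hch
  let Q : Finset (Fin (m + 2) → ℤ) := I.image ch
  have hQc : Q.card ≤ 2 := card_image_le.trans ((card_le_card hIS).trans hS)
  have hQm : ∀ x ∈ Q, x ∈ D ∧ x (iu m) ∈ I ∧ ch (x (iu m)) = x := by
    intro x hx
    obtain ⟨s, hs, rfl⟩ := mem_image.1 hx
    refine ⟨hch1 s hs, ?_, ?_⟩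
    · rw [hch2 s hs]; exact hs
    · rw [hch2 s hs]
  have hzU : z ∈ K ∪ L := hD.mem
  have hmain := h.lines hP hee hell Q.card hQc z Q rfl hD hzc ?_ ?_ ?_
  · exact hmain.mono (Wq_mono _ _ _ hQc)
  · intro x hx
    obtain ⟨h1, -, -⟩ := hQm x hx
    rw [hDm] at h1
    refine ⟨h1.2.1, ?_⟩
    rw [key_lt z x hzU h1.2.1.mem]
    exact Or.inr ⟨fun i hi => (hz i hi).trans (h1.1 i hi).symm, h1.2.2⟩
  · intro x hx y hy hxy
    obtain ⟨h1, -, h2⟩ := hQm x (by exact_mod_cast hx)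
    obtain ⟨h3, -, h4⟩ := hQm y (by exact_mod_cast hy)
    rw [hDm] at h1 h3
    have h5 := ((key_eq x y h1.2.1.mem h3.2.1.mem).1 hxy).2
    rw [← h2, ← h4, h5]
  · intro x hx hlt
    rw [key_lt z x hzU hx.mem] at hlt
    rcases hlt with ⟨j, hj, h1, h2⟩ | ⟨h1, h2⟩
    · exfalso
      refine hmax x hx ⟨j, hj, fun i hi => ?_, ?_⟩
      · have hi' : i.1 < j.1 := hi
        rw [← h1 i hi, hz i (by omega)]
      · rw [← hz j hj]; exact h2
    · have hxD : x ∈ D := by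
        rw [hDm]
        exact ⟨fun i hi => (h1 i hi).symm.trans (hz i hi), hx, h2⟩
      have hxI : x (iu m) ∈ I := mem_image_of_mem _ hxD
      refine ⟨ch (x (iu m)), mem_image_of_mem _ hxI, ?_⟩
      have h3 := hch1 _ hxI
      rw [hDm] at h3
      rw [key_eq _ _ hx.mem h3.2.1.mem]
      refine ⟨fun i hi => ?_, (hch2 _ hxI).symm⟩
      rw [h3.1 i hi, ← hz i hi, h1 i hi]

end Pool.Agent.Lib.MP_8cf263_co
end

section

/-!
# Round sets, file RdBigA: all columns which meet `K Δ L` in its highest level are short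

Frame `FA`: `w` is the direction number `iu m`, `e` the direction number `iv m`, `g x = x (iu m)`,
`FA.Le 1`.  Put `f = lfh m N FA`, `W = Wq E J (JJ kap J) 2`, `δ = 2 + 2 M (2 W + 1) ^ 2`,
`Ψ = pl Φ FA p`, `ψ = cm Ψ`; by `pl_SD2` (`Q = 1`) and `SD2.cmSD` `ψ` satisfies `SD1 (μ / 4) (4 M)`, with
lower bound `b₀ = mg Φ m (em p)` (`pl_cm_ge`, `pl_cm_near`).  `p` is a point of `K Δ L` whose first
`m` coordinates are lexicographically maximal (`hmax`).  The level consists of the `z` which agree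
with `p` in the coordinates `< m`.

`bigA`.  Let `2 (δ + 2 + 8 M) ≤ T - b₀` and `δ ^ 2 < 2 (μ / 4) (T - b₀)`.  For all `z` in the level
with `Df K L z`: `T - δ ≤ ψ (z (iu m) - p (iu m))`.
Proof.  Let `C` be the (finite) set of all `x (iu m)` where `x` is in the level, `Df K L x` and
`f c ≤ 2 f x`.
(1) `|C| ≤ 2`.  Suppose not, and let `i₁ > i₂ > i₃` be the three largest elements of `C` (apply
`Finset.max'` three times), `i_k = x_k (iu m)` with `x_k` as in the definition of `C`.  If `x` is in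
the level, `Df K L x` and `i_k < x (iu m)` then `f x > f x_k` (`lf_lt`), so `x (iu m) ∈ C`, and it is
one of `i₁, ..., i_(k-1)`.  So `top_col` applies to `x_k` with `S = {i_l : l < k}`, and by `short_col`
`T - δ ≤ ψ (i_k - p (iu m)) ≤ T` for `k = 1, 2, 3`.  This contradicts `SD1.two_short`.
(2) Let `z` be in the level with `Df K L z` and `f c ≤ 2 f z`.  By (1) `top_col` applies with `S = C`,
and `short_col` gives the claim.
(3) Let `z` be in the level with `Df K L z` and `2 f z < f c`.  Then `z' = c - z` satisfies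
`Df K L z'` and `f z' = f c - f z > f z`, `f c ≤ 2 f z'`; by `lf_lt` (for `z`, `z'`) and `hmax` the
point `z'` is in the level.  As in (2) `Cl K L e z' W`, so `Cl K L e z W` by `Cl.neg`, and
`short_col` gives the claim for `z`.
-/

set_option autoImplicit false

namespace Pool.Agent.Lib.MP_8cf263_co

open Finset

variable {m : ℕ} {K L : Finset (Fin (m + 2) → ℤ)} {c : Fin (m + 2) → ℤ} {R r J kap : ℕ}

private theorem top3 (C : Finset ℤ) (h : 3 ≤ C.card) : ∃ i₁ ∈ C, ∃ i₂ ∈ C, ∃ i₃ ∈ C,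
    i₃ < i₂ ∧ i₂ < i₁ ∧ (∀ x ∈ C, ¬ i₁ < x) ∧ (∀ x ∈ C, i₂ < x → x = i₁) ∧
    (∀ x ∈ C, i₃ < x → x = i₁ ∨ x = i₂) := by
  have h1 : C.Nonempty := Finset.card_pos.1 (by omega)
  obtain ⟨i₁, hi1, hm1⟩ : ∃ i₁ ∈ C, ∀ x ∈ C, x ≤ i₁ :=
    ⟨C.max' h1, C.max'_mem h1, fun x hx => C.le_max' x hx⟩
  have hc1 : (C.erase i₁).card = C.card - 1 := Finset.card_erase_of_mem hi1
  have h2 : (C.erase i₁).Nonempty := Finset.card_pos.1 (by omega)
  obtain ⟨i₂, hi2, hm2⟩ : ∃ i₂ ∈ C.erase i₁, ∀ x ∈ C.erase i₁, x ≤ i₂ :=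
    ⟨(C.erase i₁).max' h2, (C.erase i₁).max'_mem h2, fun x hx => (C.erase i₁).le_max' x hx⟩
  have hc2 : ((C.erase i₁).erase i₂).card = (C.erase i₁).card - 1 := Finset.card_erase_of_mem hi2
  have h3 : ((C.erase i₁).erase i₂).Nonempty := Finset.card_pos.1 (by omega)
  obtain ⟨i₃, hi3, hm3⟩ : ∃ i₃ ∈ (C.erase i₁).erase i₂, ∀ x ∈ (C.erase i₁).erase i₂, x ≤ i₃ :=
    ⟨((C.erase i₁).erase i₂).max' h3, ((C.erase i₁).erase i₂).max'_mem h3,
      fun x hx => ((C.erase i₁).erase i₂).le_max' x hx⟩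
  have e2 := Finset.mem_erase.1 hi2
  have e3 := Finset.mem_erase.1 hi3
  have e3' := Finset.mem_erase.1 e3.2
  refine ⟨i₁, hi1, i₂, e2.2, i₃, e3'.2, ?_, ?_, ?_, ?_, ?_⟩
  · exact lt_of_le_of_ne (hm2 _ e3.2) e3.1
  · exact lt_of_le_of_ne (hm1 _ e2.2) e2.1
  · exact fun x hx => not_lt.2 (hm1 x hx)
  · intro x hx hlt
    by_contra hne
    exact absurd hlt (not_lt.2 (hm2 x (Finset.mem_erase.2 ⟨hne, hx⟩)))
  · intro x hx hlt
    by_contra hne
    push Not at hne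
    exact absurd hlt (not_lt.2 (hm3 x (Finset.mem_erase.2 ⟨hne.2, Finset.mem_erase.2 ⟨hne.1, hx⟩⟩)))

private theorem FA_g (m : ℕ) (x : Fin (m + 2) → ℤ) : FA.g m x = x (iu m) := by
  simp [Fr.g, FA]

theorem bigA (h : TwF K L c R r J kap) {Φ : (Fin (m + 2) → ℝ) → ℝ} {μ M b T : ℝ}
    (hΦ : SDn Φ μ M) (hμ : 0 < μ) (hM : μ ≤ M) (hb : ∀ x, b ≤ Φ x)
    (hK : ∀ x, x ∈ K ↔ Φ (em x) ≤ T) {N : ℤ} (hN : 10 * R < N) {a : Fin (m + 2) → ℤ}
    {E ell : ℕ} (hP : Pole K L c (lfh m N FA) (FA.e m) a E ell)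
    (hee : ∀ i, |FA.e m i| * (64 * (kap * J : ℕ)) ≤ r) (hell : 6 * Wq E J (JJ kap J) 2 + 2 ≤ ell)
    {p : Fin (m + 2) → ℤ}
    (hmax : ∀ x, Df K L x → ¬ ∃ j : Fin (m + 2), j.1 < m ∧ (∀ i : Fin (m + 2), i < j → x i = p i) ∧
      p j < x j)
    {δ : ℝ} (hδ : δ = 2 + 2 * M * (2 * (Wq E J (JJ kap J) 2 : ℝ) + 1) ^ 2)
    (h1 : 2 * (δ + 2 + 8 * M) ≤ T - mg Φ m (em p)) (h2 : δ ^ 2 < 2 * (μ / 4) * (T - mg Φ m (em p)))
    {z : Fin (m + 2) → ℤ} (hz : ∀ i : Fin (m + 2), i.1 < m → z i = p i) (hD : Df K L z) :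
    T - δ ≤ cm (pl Φ FA p) ((z (iu m) - p (iu m) : ℤ) : ℝ) := by
  classical
  set W : ℕ := Wq E J (JJ kap J) 2 with hW
  set f := lfh m N FA with hf
  have hfa : ∀ x, f x = lf m N FA x := fun x => rfl
  have hord : ∀ x y, Df K L x → Df K L y → (f x < f y ↔
      (∃ j : Fin (m + 2), j.1 < m ∧ (∀ i : Fin (m + 2), i < j → x i = y i) ∧ x j < y j) ∨
      ((∀ i : Fin (m + 2), i.1 < m → x i = y i) ∧ x (iu m) < y (iu m))) := by
    intro x y hx hy
    obtain ⟨d1, d2⟩ := h.diff (Df.mem hx) (Df.mem hy)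
    have d3 := d2 FA 1 FA_le
    have h5 := lf_lt (N := N) (d := 10 * R) FA (x := x) (y := y) hN
      (fun i => (d1 i).trans (by omega)) (d3.trans (by omega))
    rw [hfa, hfa, h5, FA_g, FA_g]
  have hlev : ∀ x y, Df K L x → Df K L y → (∀ i : Fin (m + 2), i.1 < m → x i = p i) →
      (∀ i : Fin (m + 2), i.1 < m → y i = p i) → x (iu m) < y (iu m) → f x < f y :=
    fun x y hx hy hx1 hy1 hlt =>
      (hord x y hx hy).2 (Or.inr ⟨fun i hi => (hx1 i hi).trans (hy1 i hi).symm, hlt⟩)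
  set C : Finset ℤ := ((K ∪ L).filter (fun x => (∀ i : Fin (m + 2), i.1 < m → x i = p i) ∧
    Df K L x ∧ f c ≤ 2 * f x)).image (fun x => x (iu m)) with hC
  have memC : ∀ v, v ∈ C ↔ ∃ x, (∀ i : Fin (m + 2), i.1 < m → x i = p i) ∧
      Df K L x ∧ f c ≤ 2 * f x ∧ x (iu m) = v := by
    intro v
    rw [hC, Finset.mem_image]
    constructor
    · rintro ⟨x, hx, rfl⟩
      rw [Finset.mem_filter] at hx
      exact ⟨x, hx.2.1, hx.2.2.1, hx.2.2.2, rfl⟩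
    · rintro ⟨x, h3, h4, h5, rfl⟩
      exact ⟨x, Finset.mem_filter.2 ⟨Df.mem h4, h3, h4, h5⟩, rfl⟩
  have hup : ∀ z x, Df K L z → (∀ i : Fin (m + 2), i.1 < m → z i = p i) → f c ≤ 2 * f z →
      Df K L x → (∀ i : Fin (m + 2), i.1 < m → x i = p i) → z (iu m) < x (iu m) →
      x (iu m) ∈ C := by
    intro z x hz1 hz2 hz3 hx1 hx2 hlt
    have h6 := hlev z x hz1 hx1 hz2 hx2 hlt
    exact (memC _).2 ⟨x, hx2, hx1, by omega, rfl⟩
  have hcol : ∀ z, Df K L z → (∀ i : Fin (m + 2), i.1 < m → z i = p i) → f c ≤ 2 * f z →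
      ∀ S : Finset ℤ, S.card ≤ 2 → (∀ v ∈ C, z (iu m) < v → v ∈ S) → Cl K L (FA.e m) z W := by
    intro z hz1 hz2 hz3 S hS hS2
    exact top_col h hN hP hee hell hmax hz2 hz1 hz3 S hS
      fun x hx1 hx2 hlt => hS2 _ (hup z x hz1 hz2 hz3 hx1 hx2 hlt) hlt
  have hsh : ∀ z, Df K L z → (∀ i : Fin (m + 2), i.1 < m → z i = p i) → Cl K L (FA.e m) z W →
      T - δ ≤ cm (pl Φ FA p) ((z (iu m) - p (iu m) : ℤ) : ℝ) ∧
        cm (pl Φ FA p) ((z (iu m) - p (iu m) : ℤ) : ℝ) ≤ T := by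
    intro z hz1 hz2 hz3
    rw [hδ]
    exact short_col hΦ hμ hM hb hK hz2 hz1 hz3
  have hM0 : 0 < M := lt_of_lt_of_le hμ hM
  have hSD : SD1 (cm (pl Φ FA p)) (μ / 4) (4 * M) := by
    have h3 := (pl_SD2 hΦ hμ.le hM0.le (F := FA) (Q := 1) (by simpa using FA_le) le_rfl p).cmSD
      (b := b) (by positivity) (fun x y => hb _)
    simpa using h3
  -- (1)
  have hC2 : C.card ≤ 2 := by
    by_contra hc
    push Not at hc
    obtain ⟨i₁, m1, i₂, m2, i₃, m3, l32, l21, q1, q2, q3⟩ := top3 C (by omega)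
    obtain ⟨x₁, a1, b1, c1, d1⟩ := (memC _).1 m1
    obtain ⟨x₂, a2, b2, c2, d2⟩ := (memC _).1 m2
    obtain ⟨x₃, a3, b3, c3, d3⟩ := (memC _).1 m3
    have k1 := hsh x₁ b1 a1 (hcol x₁ b1 a1 c1 ∅ (by simp) (fun v hv hlt => by
      rw [d1] at hlt
      exact absurd hlt (q1 v hv)))
    have k2 := hsh x₂ b2 a2 (hcol x₂ b2 a2 c2 {i₁} (by simp) (fun v hv hlt => by
      rw [d2] at hlt
      simp [q2 v hv hlt]))
    have k3 := hsh x₃ b3 a3 (hcol x₃ b3 a3 c3 {i₁, i₂} (Finset.card_le_two) (fun v hv hlt => by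
      rw [d3] at hlt
      simpa using q3 v hv hlt))
    rw [d1] at k1
    rw [d2] at k2
    rw [d3] at k3
    have h0 : ∃ t₀, cm (pl Φ FA p) t₀ ≤ mg Φ m (em p) + 1 := by
      obtain ⟨γ, hγ⟩ := pl_cm_near hb FA p (ε := 1) one_pos
      exact ⟨γ, hγ.le⟩
    exact hSD.two_short (b := mg Φ m (em p)) (T := T) (δ := δ) (fun t => pl_cm_ge hb FA p t)
      (by positivity) (by linarith) h0 (by linarith) h2 (i := i₃ - p (iu m)) (j := i₂ - p (iu m))
      (k := i₁ - p (iu m)) (by omega) (by omega) k3.1 k3.2 k2.1 k2.2 k1.1 k1.2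
  -- (2)
  have hCl : ∀ z, Df K L z → (∀ i : Fin (m + 2), i.1 < m → z i = p i) → f c ≤ 2 * f z →
      Cl K L (FA.e m) z W :=
    fun z hz1 hz2 hz3 => hcol z hz1 hz2 hz3 C hC2 fun v hv _ => hv
  rcases le_or_gt (f c) (2 * f z) with hc | hc
  · exact (hsh z hD hz (hCl z hD hz hc)).1
  · -- (3)
    have hD' : Df K L (c - z) := Df.neg h.tw hD
    have hfz : f (c - z) = f c - f z := map_sub f c z
    have hlt : f z < f (c - z) := by omega
    have hz' : ∀ i : Fin (m + 2), i.1 < m → (c - z) i = p i := by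
      rcases (hord z (c - z) hD hD').1 hlt with ⟨j, hj, hj1, hj2⟩ | ⟨hj1, _⟩
      · exfalso
        refine hmax (c - z) hD' ⟨j, hj, fun i hi => ?_, ?_⟩
        · rw [← hj1 i hi]
          exact hz i (lt_trans hi hj)
        · rw [← hz j hj]
          exact hj2
      · exact fun i hi => (hj1 i hi).symm.trans (hz i hi)
    have h7 := Cl.neg h.tw.sK h.tw.sL (hCl (c - z) hD' hz' (by omega))
    rw [sub_sub_cancel] at h7
    exact (hsh z hD hz h7).1

end Pool.Agent.Lib.MP_8cf263_co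
end

section

/-!
# Round sets, file RdBigB: the highest level of `K Δ L` cannot be deep

`bigB`.  Suppose that `T - δ ≤ cm (pl Φ FA p) (z (iu m) - p (iu m))` for all points `z` of `K Δ L` in
the level of `p` (`bigA`), and let a pole for the frame `FB` be given, `W' = Wq E' J (JJ kap J) 2`,
`s = 6 + 24 (4 M) (δ + 1) / (μ / 4) + 4 M (2 W' + 1) ^ 2 / 2`, `s ≤ T - b₀`,
`224 (4 M) s ^ 2 ≤ (μ / 4) (T - b₀)`, `b₀ = mg Φ m (em p)`.  This is impossible.
Proof.  Frame `FB`: `w` is the direction number `iv m`, `e' = FB.e m = Pi.single (iu m) 1` (which is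
`FA.w m`), `g x = x (iv m)`.  Let `p'` be as in `top_point` for `FB` (`Q = 1`, `FB_le`).  By
`TwF.lines` with `Q = ∅` (no point of `K Δ L` has `f p' < f x`) `Cl K L e' p' (Wq .. 0)`, hence
`Cl K L e' p' W'` (`Cl.mono`, `Wq_mono`).  `Cl.memK` gives `t` with `v = p' + t • e' ∈ K`, `v ∉ L`; so
`Df K L v`, `v` is in the level of `p` (`e'` vanishes below `m`, `Fr.low_e`).  Put
`x = v (iu m) - p (iu m)`, `y = v (iv m) - p (iv m)`, `Ψ = pl Φ FA p`; then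
`v = p + x • FA.w m + y • FA.e m`, `Ψ x y = Φ (em v) ≤ T` (`pl_int`) and by hypothesis and `cm_le`
`T - δ ≤ Ψ x y'` for all `y'`.  `SD2.row_long` (constants `μ / 4`, `4 M` from `pl_SD2` with `Q = 1`,
lower bound `b₀` by `pl_ge`, `pl_near`, `l = 2 W'`) gives `t₁` with `Ψ (t₁ + t) y ≤ T` for
`0 ≤ t ≤ 2 W'`, i.e. `p + (t₁ + t) • FA.w m + y • FA.e m = v + (t₁ + t - x) • e' ∈ K`, i.e.
`p' + (t' + t) • e' ∈ K` for `0 ≤ t ≤ 2 W'` with a suitable integer `t'`.  This contradicts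
`Cl.not_run`.
(`0 ≤ δ` is a hypothesis.)
-/

set_option autoImplicit false

namespace Pool.Agent.Lib.MP_8cf263_co

open Finset

variable {m : ℕ} {K L : Finset (Fin (m + 2) → ℤ)} {c : Fin (m + 2) → ℤ} {R r J kap : ℕ}

theorem bigB (h : TwF K L c R r J kap) {Φ : (Fin (m + 2) → ℝ) → ℝ} {μ M b T : ℝ}
    (hΦ : SDn Φ μ M) (hμ : 0 < μ) (hM : μ ≤ M) (hb : ∀ x, b ≤ Φ x)
    (hK : ∀ x, x ∈ K ↔ Φ (em x) ≤ T) {N : ℤ} (hN : 10 * R < N) {p : Fin (m + 2) → ℤ}
    (hp : Df K L p)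
    (hmax : ∀ x, Df K L x → ¬ ∃ j : Fin (m + 2), j.1 < m ∧ (∀ i : Fin (m + 2), i < j → x i = p i) ∧
      p j < x j) {δ : ℝ} (hδ : 0 ≤ δ)
    (hcol : ∀ z : Fin (m + 2) → ℤ, (∀ i : Fin (m + 2), i.1 < m → z i = p i) → Df K L z →
      T - δ ≤ cm (pl Φ FA p) ((z (iu m) - p (iu m) : ℤ) : ℝ))
    {a : Fin (m + 2) → ℤ} {E ell : ℕ} (hP : Pole K L c (lfh m N FB) (FB.e m) a E ell)
    (hee : ∀ i, |FB.e m i| * (64 * (kap * J : ℕ)) ≤ r) (hell : 6 * Wq E J (JJ kap J) 2 + 2 ≤ ell)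
    {s : ℝ} (hs : 6 + 24 * (4 * M) * (δ + 1) / (μ / 4) +
      (4 * M) * ((2 * Wq E J (JJ kap J) 2 : ℕ) + 1) ^ 2 / 2 = s)
    (h1 : s ≤ T - mg Φ m (em p)) (h2 : 224 * (4 * M) * s ^ 2 ≤ μ / 4 * (T - mg Φ m (em p))) :
    False := by
  have hMpos : 0 < M := lt_of_lt_of_le hμ hM
  -- the highest point for the frame `FB`
  obtain ⟨p', hp', hlow, hmaxf, hpc⟩ := top_point h (F := FB) (Q := 1)
    (by simpa using FB_le) le_rfl (N := N) (by simpa using hN) hp hmax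
  have hcl0 := TwF.lines h hP hee hell 0 (by norm_num) p' ∅ card_empty hp' hpc (by simp)
    (by simp) (fun x hx hlt => absurd (hmaxf x hx) (not_le.2 hlt))
  have hcl := hcl0.mono (Wq_mono E J (JJ kap J) (Nat.zero_le 2))
  obtain ⟨t0, hvK, hvL⟩ := hcl.memK hp'
  obtain ⟨v, hv⟩ : ∃ v, v = p' + t0 • FB.e m := ⟨_, rfl⟩
  rw [← hv] at hvK hvL
  have hDv : Df K L v := fun hh => hvL (hh.1 hvK)
  have hlowv : ∀ i : Fin (m + 2), i.1 < m → v i = p i := by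
    intro i hi
    rw [hv, Pi.add_apply, Pi.smul_apply, FB.low_e hi, smul_zero, add_zero, hlow i hi]
  -- coordinates of `v`
  obtain ⟨y, hy⟩ := FA.coord (x := p) (y := v) (fun i hi => (hlowv i hi).symm)
  have hg : FA.g m v - FA.g m p = v (iu m) - p (iu m) := by
    simp only [Fr.g, FA]
    ring
  rw [hg] at hy
  obtain ⟨x, hx⟩ : ∃ x : ℤ, x = v (iu m) - p (iu m) := ⟨_, rfl⟩
  rw [← hx] at hy
  have hwe : FA.w m = FB.e m := rfl
  have hxy : pl Φ FA p (x : ℝ) (y : ℝ) ≤ T := by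
    rw [pl_int, ← hy]
    exact (hK v).1 hvK
  have hcolv := hcol v hlowv hDv
  rw [← hx] at hcolv
  have hxc : ∀ y', T - δ ≤ pl Φ FA p (x : ℝ) y' := fun y' =>
    hcolv.trans (cm_le (b := mg Φ m (em p)) (fun γ t => pl_ge hb FA p γ t) _ _)
  have hS : SD2 (pl Φ FA p) (μ / 4) (4 * M) := by
    have h3 := pl_SD2 hΦ hμ.le hMpos.le (F := FA) (Q := 1) (by simpa using FA_le) le_rfl p
    simpa using h3
  obtain ⟨γ₀, t₀, h00⟩ := pl_near (Φ := Φ) FA p one_pos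
  obtain ⟨t₁, ht₁⟩ := hS.row_long (b := mg Φ m (em p)) (T := T) (δ := δ) (s := s)
    (l := 2 * Wq E J (JJ kap J) 2) (fun γ t => pl_ge hb FA p γ t) (by linarith) (by linarith)
    ⟨γ₀, t₀, h00.le⟩ hδ hxy hxc hs h1 h2
  refine hcl.not_run (t₁ := t0 + t₁ - x) fun t ht0 ht2 => ?_
  have h3 := ht₁ t ht0 (by push_cast; exact ht2)
  rw [pl_int] at h3
  have h4 : p + (t₁ + t) • FA.w m + y • FA.e m = p' + (t0 + t₁ - x + t) • FB.e m := by
    have h5 : p = v - x • FA.w m - y • FA.e m := by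
      rw [hy]
      abel
    rw [h5, hv, hwe]
    module
  rw [← h4]
  exact (hK _).2 h3

end Pool.Agent.Lib.MP_8cf263_co
end

section

/-!
# One round spot, file RsAgr: agreement near the top in the form needed for poles

`Cap.agr1`: `Cap.agr` (RsAgrA) for `G = Pi.single 0 1`, `s = 1` (`u = e₀`), and `mg_self` (RdMarg) for
`z`.

`Cap.agr0` (`m = 0`).  The functionals `F.g` of the frames `FA`, `FC s`, `FD s` are `x ↦ G ⬝ᵥ x` with
`G = (1, 0)`, `(s, -1)`, `(s, 1)`; in `Cap.agr` take `s = 1` for `FA`.  `|u - e₀| = 0` or `1 / s`.  Let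
`h`, `z` be as in `Cap.agr`; in `Agr` take `j = h + 1`.  The real point `z` is
`em 0 + (em G ⬝ᵥ z) • em w + t • em e` for some real `t` (see the proof of `pl_near` in RdPl), so
`cm (pl Φ F 0) j ≤ Φ z ≤ T` (`cm_le`; lower bound `Ph_ge`).  `F.g 0 = 0`.

`Cap.depth`: fix `t₁ < 1` with `0 ≤ t₁` and `q 0 - δ ≤ t₁ q 0` (`t₁ = 1 - δ / q 0`, `u = e₀`), so
`F (t₁ • q) = t₁ ^ 2`, and `mg (Ph F c lam) 0 0 ≤ Ph F c lam z₁ = lam ^ 2 t₁ ^ 2` for
`z₁ = (1 / 2) • ((lam t₁) • q + em c)`; `c₀ = 1 - t₁ ^ 2`.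
-/

set_option autoImplicit false

namespace Pool.Agent.Lib.MP_8cf263_co

variable {m : ℕ} {N F : (Fin (m + 2) → ℝ) → ℝ} {q : Fin (m + 2) → ℝ} {ρ δ η : ℝ}

theorem Cap.agr1 (h : Cap N F q ρ δ η) (hN : Nrm N) (hq : N q = 1) {K : Finset (Fin (m + 2) → ℤ)}
    {c : Fin (m + 2) → ℤ} {lam b : ℝ} (hb : ∀ x, b ≤ F x) (hlam : 0 < lam)
    (hK : ∀ x, x ∈ K ↔ N (em (vs c x)) ≤ lam) (hsl : 4 ≤ lam * δ) :
    ∃ h₀ : ℤ, (∀ x : Fin (m + 2) → ℤ, h₀ ≤ x 0 → (x ∈ K ↔ Ph F c lam (em x) ≤ lam ^ 2)) ∧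
      mg (Ph F c lam) 1 (Function.update 0 0 ((h₀ + 1 : ℤ) : ℝ)) ≤ lam ^ 2 := by
  have e1 : em (Pi.single 0 1 : Fin (m + 2) → ℤ) = Pi.single 0 1 := by
    funext i
    by_cases hi : i = 0
    · subst hi
      simp [em]
    · simp [em, hi]
  obtain ⟨h₀, hA, z, hz1, hz2⟩ := h.agr hN hq hlam hK (s := 1) one_pos
    (G := Pi.single 0 1) (by
      rw [e1]
      simp
      positivity) (by simpa using hsl)
  refine ⟨h₀, fun x hx => hA x (by simpa [single_dotProduct] using hx), ?_⟩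
  refine (mg_self (Ph_ge hb c lam) (x' := z) fun i hi => ?_).trans hz2
  have hi0 : i = 0 := Fin.ext (by
    have : i.1 = 0 := by omega
    simpa using this)
  subst hi0
  rw [e1, single_dotProduct, one_mul] at hz1
  rw [hz1]
  simp

theorem Cap.depth (h : Cap N F q ρ δ η) (hN : Nrm N) (hq : N q = 1) {b : ℝ} (hb : ∀ x, b ≤ F x) :
    ∃ c₀ : ℝ, 0 < c₀ ∧ ∀ (c : Fin (m + 2) → ℤ) (lam : ℝ), 0 < lam →
      c₀ * lam ^ 2 ≤ lam ^ 2 - mg (Ph F c lam) 0 0 := by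
  have hδ := h.hδ
  obtain ⟨-, hB, hC⟩ := h.cap (Pi.single 0 1) (by
    simp
    positivity)
  have e1 : (Pi.single 0 1 : Fin (m + 2) → ℝ) ⬝ᵥ q = q 0 := by
    rw [single_dotProduct, one_mul]
  rw [e1] at hB hC
  have hq0 : 0 < q 0 := lt_of_lt_of_le hδ hB
  obtain ⟨r, hr⟩ : ∃ r, r = δ / q 0 := ⟨_, rfl⟩
  have hr0 : 0 < r := by
    rw [hr]
    positivity
  have hr1 : r ≤ 1 := by
    rw [hr, div_le_one hq0]
    exact hB
  have hrq : r * q 0 = δ := by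
    rw [hr]
    exact div_mul_cancel₀ _ hq0.ne'
  have hBl := hC (1 - r) (by linarith [hrq]) (by linarith)
  refine ⟨1 - (1 - r) ^ 2, by nlinarith, fun c lam hlam => ?_⟩
  have hm : mg (Ph F c lam) 0 0 ≤ Ph F c lam ((1 / 2 : ℝ) • ((lam * (1 - r)) • q + em c)) :=
    mg_self (Ph_ge hb c lam) fun _ hi => absurd hi (Nat.not_lt_zero _)
  have e : lam⁻¹ • ((2 : ℝ) • ((1 / 2 : ℝ) • ((lam * (1 - r)) • q + em c)) - em c) =
      (1 - r) • q := by
    funext i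
    simp only [Pi.add_apply, Pi.sub_apply, Pi.smul_apply, smul_eq_mul]
    field_simp
    ring
  rw [Ph, e, h.eq _ hBl, hN.sm, hq, mul_one, sq_abs] at hm
  linarith

private theorem agr_aux {N F : (Fin (0 + 2) → ℝ) → ℝ} {q : Fin (0 + 2) → ℝ} {ρ δ η : ℝ}
    (h : Cap N F q ρ δ η) (hN : Nrm N) (hq : N q = 1) {K : Finset (Fin (0 + 2) → ℤ)}
    {c : Fin (0 + 2) → ℤ} {lam b : ℝ} (hb : ∀ x, b ≤ F x) (hlam : 0 < lam)
    (hK : ∀ x, x ∈ K ↔ N (em (vs c x)) ≤ lam) {s : ℝ} (hs : 0 < s) (hsl : 4 ≤ s * lam * δ)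
    (Fm : Fr) (h1 : (s⁻¹ * ((Fm.ep : ℝ) * Fm.q2) - 1) ^ 2 + (s⁻¹ * ((Fm.ep : ℝ) * Fm.q1)) ^ 2 ≤
      η ^ 2) : Agr K (Ph F c lam) (lam ^ 2) Fm 0 := by
  obtain ⟨G, hG⟩ : ∃ G : Fin (0 + 2) → ℤ, G = ![Fm.ep * Fm.q2, -(Fm.ep * Fm.q1)] := ⟨_, rfl⟩
  have hG0 : G 0 = Fm.ep * Fm.q2 := by rw [hG]; rfl
  have hG1 : G 1 = -(Fm.ep * Fm.q1) := by rw [hG]; rfl
  have hg : ∀ x : Fin (0 + 2) → ℤ, G ⬝ᵥ x = Fm.g 0 x := by
    intro x
    have e : G ⬝ᵥ x = G 0 * x 0 + G 1 * x 1 := Fin.sum_univ_two _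
    have hu : iu 0 = (0 : Fin (0 + 2)) := rfl
    have hv : iv 0 = (1 : Fin (0 + 2)) := rfl
    rw [e, hG0, hG1, Fr.g, hu, hv]
    ring
  obtain ⟨h₀, hA, z, hz1, hz2⟩ := h.agr hN hq hlam hK hs (G := G) (by
    have e : ∀ v : Fin (0 + 2) → ℝ, v ⬝ᵥ v = v 0 * v 0 + v 1 * v 1 := fun v => Fin.sum_univ_two _
    have e0 : (s⁻¹ • em G - Pi.single 0 1 : Fin (0 + 2) → ℝ) 0 =
        s⁻¹ * ((Fm.ep : ℝ) * Fm.q2) - 1 := by
      simp [em, hG0]
    have e1 : (s⁻¹ • em G - Pi.single 0 1 : Fin (0 + 2) → ℝ) 1 =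
        -(s⁻¹ * ((Fm.ep : ℝ) * Fm.q1)) := by
      simp [em, hG1]
    rw [e, e0, e1]
    linarith) hsl
  refine ⟨h₀ + 1, ?_, fun x _ hx => hA x ?_⟩
  · refine le_trans ?_ hz2
    have hz3 : (Fm.ep : ℝ) * Fm.q2 * z 0 - (Fm.ep : ℝ) * Fm.q1 * z 1 = h₀ + 1 := by
      have e : em G ⬝ᵥ z = em G 0 * z 0 + em G 1 * z 1 := Fin.sum_univ_two _
      rw [← hz1, e]
      simp only [em, hG0, hG1]
      push_cast
      ring
    have hd : (Fm.ep : ℝ) * ((Fm.p1 : ℝ) * Fm.q2 - Fm.p2 * Fm.q1) = 1 := by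
      have := Fm.det
      exact_mod_cast this
    have e : em (0 : Fin (0 + 2) → ℤ) + (((h₀ + 1 : ℤ) : ℝ)) • em (Fm.w 0) +
        ((Fm.ep : ℝ) * (z 1 * Fm.p1 - z 0 * Fm.p2)) • em (Fm.e 0) = z := by
      funext i
      have hw0 : Fm.w 0 0 = Fm.p1 := by
        simp [Fr.w, iu, iv]
      have hw1 : Fm.w 0 1 = Fm.p2 := by
        simp [Fr.w, iu, iv]
      have he0 : Fm.e 0 0 = Fm.q1 := by
        simp [Fr.e, iu, iv]
      have he1 : Fm.e 0 1 = Fm.q2 := by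
        simp [Fr.e, iu, iv]
      fin_cases i
      · show ((0 : ℤ) : ℝ) + ((h₀ + 1 : ℤ) : ℝ) * ((Fm.w 0 0 : ℤ) : ℝ) +
          ((Fm.ep : ℝ) * (z 1 * Fm.p1 - z 0 * Fm.p2)) * ((Fm.e 0 0 : ℤ) : ℝ) = z 0
        rw [hw0, he0]
        push_cast
        linear_combination (-(Fm.p1 : ℝ)) * hz3 + z 0 * hd
      · show ((0 : ℤ) : ℝ) + ((h₀ + 1 : ℤ) : ℝ) * ((Fm.w 0 1 : ℤ) : ℝ) +
          ((Fm.ep : ℝ) * (z 1 * Fm.p1 - z 0 * Fm.p2)) * ((Fm.e 0 1 : ℤ) : ℝ) = z 1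
        rw [hw1, he1]
        push_cast
        linear_combination (-(Fm.p2 : ℝ)) * hz3 + z 1 * hd
    have h2 := cm_le (Φ := pl (Ph F c lam) Fm 0) (b := lam ^ 2 * b)
      (fun x y => Ph_ge hb c lam _) (((h₀ + 1 : ℤ) : ℝ))
      ((Fm.ep : ℝ) * (z 1 * Fm.p1 - z 0 * Fm.p2))
    refine h2.trans (le_of_eq ?_)
    rw [pl, e]
  · rw [hg]
    have : Fm.g 0 (0 : Fin (0 + 2) → ℤ) = 0 := by
      simp [Fr.g]
    rw [this] at hx
    omega

theorem Cap.agr0 {N F : (Fin (0 + 2) → ℝ) → ℝ} {q : Fin (0 + 2) → ℝ} {ρ δ η : ℝ}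
    (h : Cap N F q ρ δ η) (hN : Nrm N) (hq : N q = 1) {K : Finset (Fin (0 + 2) → ℤ)}
    {c : Fin (0 + 2) → ℤ} {lam b : ℝ} (hb : ∀ x, b ≤ F x) (hlam : 0 < lam)
    (hK : ∀ x, x ∈ K ↔ N (em (vs c x)) ≤ lam) (hsl : 4 ≤ lam * δ) :
    Agr K (Ph F c lam) (lam ^ 2) FA 0 ∧ ∀ s : ℕ, 1 ≤ s → 1 / (s : ℝ) ≤ η →
      Agr K (Ph F c lam) (lam ^ 2) (FC (s : ℤ)) 0 ∧ Agr K (Ph F c lam) (lam ^ 2) (FD (s : ℤ)) 0 := by
  refine ⟨agr_aux h hN hq hb hlam hK (s := 1) one_pos (by simpa using hsl) FA ?_,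
    fun s hs hsη => ?_⟩
  · simp [FA]
    positivity
  · have hs1 : (1 : ℝ) ≤ (s : ℝ) := by exact_mod_cast hs
    have hs0 : (0 : ℝ) < (s : ℝ) := by linarith
    have hδ := h.hδ
    have hsl' : 4 ≤ (s : ℝ) * lam * δ := by
      have h2 : 1 * (lam * δ) ≤ (s : ℝ) * (lam * δ) :=
        mul_le_mul_of_nonneg_right hs1 (by positivity)
      linarith
    have h3 : (1 / (s : ℝ)) ^ 2 ≤ η ^ 2 := pow_le_pow_left₀ (by positivity) hsη 2
    have h4 : (s : ℝ)⁻¹ * (s : ℝ) = 1 := inv_mul_cancel₀ hs0.ne'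
    have h5 : (s : ℝ)⁻¹ ^ 2 ≤ η ^ 2 := by
      rw [one_div] at h3
      exact h3
    refine ⟨agr_aux h hN hq hb hlam hK hs0 hsl' (FC (s : ℤ)) ?_,
      agr_aux h hN hq hb hlam hK hs0 hsl' (FD (s : ℤ)) ?_⟩
    · simp only [FC]
      push_cast
      rw [one_mul, one_mul, h4, mul_one]
      linarith
    · simp only [FD]
      push_cast
      have e1 : (s : ℝ)⁻¹ * (-1 * -(s : ℝ)) = 1 := by
        linear_combination h4
      rw [e1]
      have e2 : ((s : ℝ)⁻¹ * (-1 * 1)) ^ 2 = (s : ℝ)⁻¹ ^ 2 := by ring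
      rw [e2]
      linarith

end Pool.Agent.Lib.MP_8cf263_co
end

section

/-!
# Round sets, file RdDeep: the deep case with exponents

`exists_hmax`: if `K ≠ L` there is a point `p` of `K Δ L` whose first `m` coordinates are
lexicographically maximal.
Proof.  There is `x` with `Df K L x` (`Finset.ext`).  Let `N = 10 R + 1` and let `p` maximise
`lfh m N FA` on the finite non-empty set of all such points.  If `x`, `Df K L x`, were above `p` then
`lf m N FA p < lf m N FA x` by `lf_lt` (`TwF.diff`, `FA_le`, `d = 10 R`), a contradiction.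

`deep`.  `θ = 4 eE + 5`, `X₁` an integer `≥ 1, 4 / μ, 2 + 18 M, 6 + 16 M, 6 + 768 M / μ + 18 M,
3584 M / μ`.
Proof.  Let `W = Wq E J (JJ kap J) 2 ≤ X ^ eE` and `W' = Wq E' J (JJ kap J) 2 ≤ X ^ eE`,
`δ = 2 + 2 M (2 W + 1) ^ 2 ≤ 2 + 2 M (3 X ^ eE) ^ 2 ≤ (2 + 18 M) X ^ (2 eE) ≤ X ^ (2 eE + 1)`,
`τ = T - mg Φ m (em p) ≥ X ^ θ`.
`2 (δ + 2 + 8 M) ≤ (6 + 16 M) X ^ (2 eE + 1) ≤ X ^ (2 eE + 2) ≤ τ`;
`δ ^ 2 ≤ X ^ (4 eE + 2) < 2 X ^ (4 eE + 4) ≤ (μ / 2) X ^ (4 eE + 5) ≤ 2 (μ / 4) τ`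
(`μ X ≥ 4`).  So `bigA` gives `hcol` for all points of `K Δ L` in the level of `p`.  Let
`s = 6 + 24 (4 M) (δ + 1) / (μ / 4) + (4 M) (2 W' + 1) ^ 2 / 2
= 6 + 384 M (δ + 1) / μ + 2 M (2 W' + 1) ^ 2
≤ (6 + 768 M / μ + 18 M) X ^ (2 eE + 1) ≤ X ^ (2 eE + 2) ≤ τ`
(`δ + 1 ≤ 2 X ^ (2 eE + 1)`), and `224 (4 M) s ^ 2 ≤ 896 M X ^ (4 eE + 4) ≤ (μ / 4) X ^ (4 eE + 5)`.
`bigB` gives the contradiction.
-/

set_option autoImplicit false

namespace Pool.Agent.Lib.MP_8cf263_co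

open Finset

theorem exists_hmax {m : ℕ} {K L : Finset (Fin (m + 2) → ℤ)} {c : Fin (m + 2) → ℤ}
    {R r J kap : ℕ} (h : TwF K L c R r J kap) (hne : K ≠ L) : ∃ p, Df K L p ∧
      ∀ x, Df K L x → ¬ ∃ j : Fin (m + 2), j.1 < m ∧ (∀ i : Fin (m + 2), i < j → x i = p i) ∧
        p j < x j := by
  classical
  have hU : ∀ x, Df K L x → x ∈ K ∪ L := by
    intro x hx
    rw [mem_union]
    by_contra hcon
    push Not at hcon
    exact hx (by simp [hcon.1, hcon.2])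
  have hne2 : ((K ∪ L).filter fun x => Df K L x).Nonempty := by
    by_contra hcon
    rw [not_nonempty_iff_eq_empty] at hcon
    apply hne
    ext x
    by_contra hx
    have hx2 : x ∈ (K ∪ L).filter fun x => Df K L x := mem_filter.2 ⟨hU x hx, hx⟩
    rw [hcon] at hx2
    simp at hx2
  obtain ⟨p, hp, hpm⟩ := exists_max_image _ (fun x => lf m (10 * R + 1) FA x) hne2
  rw [mem_filter] at hp
  refine ⟨p, hp.2, ?_⟩
  rintro x hx ⟨j, hj, h1, h2⟩
  have h3 := hpm x (mem_filter.2 ⟨hU x hx, hx⟩)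
  have h4 := h.diff hp.1 (hU x hx)
  have h5 := h4.2 FA 1 FA_le
  have h6 : lf m (10 * R + 1) FA p < lf m (10 * R + 1) FA x := by
    refine (lf_lt (d := 10 * R) FA (by omega) (fun i => (h4.1 i).trans (by omega)) ?_).2
      (Or.inl ⟨j, hj, fun i hi => (h1 i hi).symm, h2⟩)
    simpa using h5
  exact absurd h6 (not_lt.2 h3)

/-- the estimates of `deep` -/
private theorem deep_est {μ M x Z W W' τ : ℝ} (hμ : 0 < μ) (hM : μ ≤ M) (hx1 : 1 ≤ x)
    (hxa : 4 / μ ≤ x) (hxb : 2 + 18 * M ≤ x) (hxc : 6 + 16 * M ≤ x)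
    (hxd : 6 + 768 * M / μ + 18 * M ≤ x) (hxe : 3584 * M / μ ≤ x) (hZ : 1 ≤ Z) (hW0 : 0 ≤ W)
    (hW : W ≤ Z) (hW0' : 0 ≤ W') (hW' : W' ≤ Z) (hτ : x ^ 5 * Z ^ 4 ≤ τ) :
    2 * (2 + 2 * M * (2 * W + 1) ^ 2 + 2 + 8 * M) ≤ τ ∧
    (2 + 2 * M * (2 * W + 1) ^ 2) ^ 2 < 2 * (μ / 4) * τ ∧
    6 + 24 * (4 * M) * (2 + 2 * M * (2 * W + 1) ^ 2 + 1) / (μ / 4) +
      (4 * M) * (2 * W' + 1) ^ 2 / 2 ≤ τ ∧
    224 * (4 * M) * (6 + 24 * (4 * M) * (2 + 2 * M * (2 * W + 1) ^ 2 + 1) / (μ / 4) +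
      (4 * M) * (2 * W' + 1) ^ 2 / 2) ^ 2 ≤ μ / 4 * τ := by
  have hM0 : 0 < M := hμ.trans_le hM
  have hx0 : 0 < x := by linarith
  have hZ0 : 0 < Z := by linarith
  have hZZ : 1 ≤ Z ^ 2 := one_le_pow₀ hZ
  have hxx : 1 ≤ x ^ 2 := one_le_pow₀ hx1
  set δ : ℝ := 2 + 2 * M * (2 * W + 1) ^ 2 with hδ
  have hδ0 : 0 ≤ δ := by positivity
  have hsq : (2 * W + 1) ^ 2 ≤ 9 * Z ^ 2 := by
    have h1 : 2 * W + 1 ≤ 3 * Z := by linarith
    have h2 : (2 * W + 1) ^ 2 ≤ (3 * Z) ^ 2 := pow_le_pow_left₀ (by linarith) h1 2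
    nlinarith
  have hsq' : (2 * W' + 1) ^ 2 ≤ 9 * Z ^ 2 := by
    have h1 : 2 * W' + 1 ≤ 3 * Z := by linarith
    have h2 : (2 * W' + 1) ^ 2 ≤ (3 * Z) ^ 2 := pow_le_pow_left₀ (by linarith) h1 2
    nlinarith
  have hδ1 : δ ≤ x * Z ^ 2 := by
    calc δ ≤ 2 + 2 * M * (9 * Z ^ 2) := by
          rw [hδ]
          have := mul_le_mul_of_nonneg_left hsq (by positivity : 0 ≤ 2 * M)
          linarith
      _ ≤ (2 + 18 * M) * Z ^ 2 := by nlinarith
      _ ≤ x * Z ^ 2 := mul_le_mul_of_nonneg_right hxb (by positivity)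
  set A : ℝ := x * Z ^ 2 with hA
  have hA1 : x ≤ A := by
    rw [hA]
    nlinarith
  have hA0 : 0 < A := by positivity
  have hAA : x ^ 5 * Z ^ 4 = x ^ 3 * A ^ 2 := by
    rw [hA]
    ring
  rw [hAA] at hτ
  -- `x A ≤ τ`
  have hxA : x * A ≤ τ := by
    refine le_trans ?_ hτ
    have h1 : x ^ 3 * A ^ 2 = x * A * (x ^ 2 * A) := by ring
    rw [h1]
    have h2 : 1 ≤ x ^ 2 * A := by nlinarith
    nlinarith [mul_pos hx0 hA0]
  -- `s ≤ x A`
  set s : ℝ := 6 + 24 * (4 * M) * (δ + 1) / (μ / 4) + (4 * M) * (2 * W' + 1) ^ 2 / 2 with hs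
  have hs0 : 0 ≤ s := by positivity
  have hsA : s ≤ x * A := by
    have h1 : 24 * (4 * M) * (δ + 1) / (μ / 4) = 384 * M / μ * (δ + 1) := by
      field_simp
      ring
    have h2 : δ + 1 ≤ 2 * A := by linarith
    have h3 : 384 * M / μ * (δ + 1) ≤ 384 * M / μ * (2 * A) :=
      mul_le_mul_of_nonneg_left h2 (by positivity)
    have h4 : (4 * M) * (2 * W' + 1) ^ 2 / 2 ≤ 18 * M * A := by
      have h5 : Z ^ 2 ≤ A := by
        rw [hA]
        nlinarith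
      have h6 := mul_le_mul_of_nonneg_left (hsq'.trans
        (mul_le_mul_of_nonneg_left h5 (by norm_num : (0:ℝ) ≤ 9))) (by positivity : 0 ≤ 2 * M)
      linarith
    have h7 : (6 + 768 * M / μ + 18 * M) * A ≤ x * A := mul_le_mul_of_nonneg_right hxd hA0.le
    have h8 : 384 * M / μ * (2 * A) = 768 * M / μ * A := by ring
    have h9 : 6 ≤ 6 * A := by linarith
    rw [hs, h1]
    linarith
  refine ⟨?_, ?_, hsA.trans hxA, ?_⟩
  · refine le_trans ?_ hxA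
    have h1 : 2 * (δ + 2 + 8 * M) ≤ 3 * A := by linarith
    refine h1.trans ?_
    have : 3 ≤ x := by linarith
    exact mul_le_mul_of_nonneg_right this hA0.le
  · have h1 : δ ^ 2 ≤ A ^ 2 := pow_le_pow_left₀ hδ0 hδ1 2
    have h2 : 4 ≤ μ * x := by
      rw [div_le_iff₀ hμ] at hxa
      linarith
    have h3 : 2 * (μ / 4) * (x ^ 3 * A ^ 2) ≤ 2 * (μ / 4) * τ :=
      mul_le_mul_of_nonneg_left hτ (by positivity)
    refine lt_of_lt_of_le ?_ h3
    have h4 : 2 * (μ / 4) * (x ^ 3 * A ^ 2) = (μ * x) / 2 * (x ^ 2 * A ^ 2) := by ring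
    rw [h4]
    have h5 : A ^ 2 ≤ x ^ 2 * A ^ 2 := by nlinarith [pow_pos hA0 2]
    have h6 : 2 * (x ^ 2 * A ^ 2) ≤ (μ * x) / 2 * (x ^ 2 * A ^ 2) :=
      mul_le_mul_of_nonneg_right (by linarith) (by positivity)
    nlinarith [pow_pos hA0 2]
  · have h1 : s ^ 2 ≤ (x * A) ^ 2 := pow_le_pow_left₀ hs0 hsA 2
    have h2 : μ / 4 * (x ^ 3 * A ^ 2) ≤ μ / 4 * τ := mul_le_mul_of_nonneg_left hτ (by positivity)
    refine le_trans ?_ h2
    have h3 : 3584 * M ≤ μ * x := by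
      rw [div_le_iff₀ hμ] at hxe
      linarith
    calc 224 * (4 * M) * s ^ 2 ≤ 224 * (4 * M) * (x * A) ^ 2 :=
          mul_le_mul_of_nonneg_left h1 (by positivity)
      _ = (3584 * M) / 4 * (x ^ 2 * A ^ 2) := by ring
      _ ≤ (μ * x) / 4 * (x ^ 2 * A ^ 2) := mul_le_mul_of_nonneg_right (by linarith) (by positivity)
      _ = μ / 4 * (x ^ 3 * A ^ 2) := by ring

theorem deep (m kap eE : ℕ) {μ M : ℝ} (hμ : 0 < μ) (hM : μ ≤ M) : ∃ θ X₁ : ℕ, 1 ≤ θ ∧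
    ∀ (K L : Finset (Fin (m + 2) → ℤ)) (c : Fin (m + 2) → ℤ) (R r J : ℕ)
      (Φ : (Fin (m + 2) → ℝ) → ℝ) (T b : ℝ) (N : ℤ) (p a a' : Fin (m + 2) → ℤ)
      (X E ell E' ell' : ℕ), TwF K L c R r J kap → SDn Φ μ M → (∀ x, b ≤ Φ x) →
      (∀ x, x ∈ K ↔ Φ (em x) ≤ T) → 10 * R < N → Df K L p →
      (∀ x, Df K L x → ¬ ∃ j : Fin (m + 2), j.1 < m ∧ (∀ i : Fin (m + 2), i < j → x i = p i) ∧
        p j < x j) → X₁ ≤ X →
      Pole K L c (lfh m N FA) (FA.e m) a E ell → 6 * Wq E J (JJ kap J) 2 + 2 ≤ ell →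
      Wq E J (JJ kap J) 2 ≤ X ^ eE → (∀ i, |FA.e m i| * (64 * (kap * J : ℕ)) ≤ r) →
      Pole K L c (lfh m N FB) (FB.e m) a' E' ell' → 6 * Wq E' J (JJ kap J) 2 + 2 ≤ ell' →
      Wq E' J (JJ kap J) 2 ≤ X ^ eE → (∀ i, |FB.e m i| * (64 * (kap * J : ℕ)) ≤ r) →
      (X : ℝ) ^ θ ≤ T - mg Φ m (em p) → False := by
  have hM0 : 0 < M := hμ.trans_le hM
  obtain ⟨X₁, hX₁⟩ := exists_nat_ge (1 + 4 / μ + (2 + 18 * M) + (6 + 16 * M) +
    (6 + 768 * M / μ + 18 * M) + 3584 * M / μ)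
  refine ⟨4 * eE + 5, X₁, by omega, ?_⟩
  intro K L c R r J Φ T b N p a a' X E ell E' ell' h hΦ hb hK hN hp hmax hX hP hell hW hee hP' hell'
    hW' hee' hτ
  have hXR : (X₁ : ℝ) ≤ X := by exact_mod_cast hX
  have g1 : 0 ≤ 4 / μ := by positivity
  have g2 : 0 ≤ 768 * M / μ := by positivity
  have g3 : 0 ≤ 3584 * M / μ := by positivity
  have hx1 : (1 : ℝ) ≤ X := by linarith
  have hWR : ((Wq E J (JJ kap J) 2 : ℕ) : ℝ) ≤ (X : ℝ) ^ eE := by exact_mod_cast hW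
  have hWR' : ((Wq E' J (JJ kap J) 2 : ℕ) : ℝ) ≤ (X : ℝ) ^ eE := by exact_mod_cast hW'
  have hpow : (X : ℝ) ^ (4 * eE + 5) = (X : ℝ) ^ 5 * ((X : ℝ) ^ eE) ^ 4 := by
    rw [← pow_mul]
    ring
  rw [hpow] at hτ
  obtain ⟨e1, e2, e3, e4⟩ := deep_est hμ hM hx1 (by linarith) (by linarith) (by linarith)
    (by linarith) (by linarith) (one_le_pow₀ hx1) (Nat.cast_nonneg _) hWR (Nat.cast_nonneg _) hWR' hτ
  refine bigB h hΦ hμ hM hb hK hN hp hmax (δ := 2 + 2 * M * (2 * (Wq E J (JJ kap J) 2 : ℝ) + 1) ^ 2)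
    (by positivity) ?_ hP' hee' hell' rfl ?_ ?_
  · intro z hz hD
    exact bigA h hΦ hμ hM hb hK hN hP hee hell hmax rfl e1 e2 hz hD
  · push_cast
    exact e3
  · push_cast
    exact e4

end Pool.Agent.Lib.MP_8cf263_co
end

section

/-!
# One round spot, file RsThree: three poles suffice

Frames: `FA` (columns, `e = (0, 1)`, `g x = x (iu m)`), `FC s` (`e = (1, s)`,
`g x = s x (iu m) - x (iv m)`), `FD s` (`e = (1, -s)`, `g x = s x (iu m) + x (iv m)`).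

`three_poles`.  Let poles be given for the three frames, `W = Wq EA J (JJ kap J) 2`, `2 W ≤ s`.
Then `K = L`.
Proof.  Suppose `K ≠ L` and let `p₀` be as in `exists_hmax` (RdDeep); `level` = the points which agree
with `p₀` in the coordinates `< m`.  Write `f_A`, `f_C`, `f_D` for the three functionals; for points
`x`, `y` of the level `f x - f y = g x - g y` (unfold `lfh`, `lf`).
(1) Let `p_R` be as in `top_point` for `FA` (`Q = 1`).  By `TwF.lines` with `Q = ∅`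
`Cl K L e p_R W` (`Cl.mono`, `Wq_mono`; `e = FA.e m`).  By `Cl.memK`, `Cl.memL` there are
`v_K ∈ K \ L` and `v_L ∈ L \ K` in the column of `p_R`.  Put `x_R = p_R (iu)`.  Every `x ∈ K Δ L` in the
level has `x (iu) ≤ x_R`.
(2) Let `z_C` be as in `top_point` for `FC s` (`Q = s`, `FC_le`), `Cl K L _ z_C _` by `TwF.lines`
(`Q = ∅`), `z = z_C + t (FC s).e ∈ K \ L`, `z' = z_C + t' (FC s).e ∈ L \ K`.  Then `t ≠ t'` and
`z (iu) - z' (iu) = t - t'`.  Let `ζ` be the one of `z`, `z'` with the smaller `iu`-coordinate; it is in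
`A ∈ {K, L}`, in `K Δ L` and in the level, `ζ (iu) < x_R`, and `f_C x ≤ f_C ζ` for all `x ∈ K Δ L`
(`f_C` is constant on the line).  With `v_A` (`= v_K` or `v_L`): `f_C v_A ≤ f_C ζ`, i.e.
`s (x_R - ζ (iu)) ≤ v_A (iv) - ζ (iv)`.
(3) In the same way `FD s` (`FD_le`) gives `ζ₂ ∈ B ∈ {K, L}` in `K Δ L` and in the level,
`ζ₂ (iu) < x_R` and `s (x_R - ζ₂ (iu)) ≤ ζ₂ (iv) - v_B (iv)`.
(4) Let `p` be a point of `K Δ L` in the level with `p (iu) < x_R` and `p (iu)` maximal (it exists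
because of `ζ`); so `ζ (iu), ζ₂ (iu) ≤ p (iu)`.  Claim: `Cl K L e p W`.  If `f_A c ≤ 2 f_A p` this is
`TwF.lines` with `Q = {p_R}`, `q = 1`: `f_A p < f_A p_R`; if `Df K L x` and `f_A p < f_A x` then by
`lf_lt` (`TwF.diff`, `d = 10 R`) and `hmax` `x` is in the level and `p (iu) < x (iu)`, so
`x (iu) = x_R` and `f_A x = f_A p_R`.  If `2 f_A p < f_A c` let `p' = c - p`; `Df K L p'` (`Df.neg`) and
`f_A p < f_A p'`, so as before `p'` is in the level and `p (iu) < p' (iu)`, hence `p' (iu) = x_R`, and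
`p' = p_R + t • e` (`Fr.line`); so `Cl K L e p' W` (`Cl.shift`) and `Cl K L e p W` (`Cl.neg`;
`c - (c - p) = p`).
(5) Let `z_p` be the integer in `Cl K L e p W`, `w₀ = p (iv) + z_p`; all points of `K ∪ L` in the column
of `p` have `iv`-coordinate in `[w₀, w₀ + 2 W)`.  By `Cl.memK`, `Cl.memL` there are points
`a_K ∈ K`, `a_L ∈ L` in the column of `p`.  `tri` for the set `A`, `ζ`, `v_A`, `a_A` gives
`w₀ ≤ v_A (iv) - s γ` with `γ = x_R - p (iu) ≥ 1`, and `tri'` for `B`, `ζ₂`, `v_B`, `a_B` gives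
`v_B (iv) + s γ ≤ w₀ + 2 W - 1`.  So `v_A (iv) - v_B (iv) ≥ 2 s γ - 2 W + 1`.  But `v_A`, `v_B` are in the
column of `p_R`, where all points are in an interval of `2 W` integers (`Cl K L e p_R W`), so
`v_A (iv) - v_B (iv) ≤ 2 W - 1`.  Hence `2 s ≤ 4 W - 2`, contradicting `2 W ≤ s`.
-/

set_option autoImplicit false

namespace Pool.Agent.Lib.MP_8cf263_co

open Finset

private theorem lf_sub {m : ℕ} {N : ℤ} (F : Fr) {x y : Fin (m + 2) → ℤ}
    (h : ∀ i : Fin (m + 2), i.1 < m → x i = y i) :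
    lfh m N F x - lfh m N F y = F.g m x - F.g m y := by
  show lf m N F x - lf m N F y = _
  unfold lf
  have h1 : (∑ i : Fin (m + 2), if i.1 < m then N ^ (m - i.1) * x i else 0) =
      ∑ i : Fin (m + 2), if i.1 < m then N ^ (m - i.1) * y i else 0 := by
    refine Finset.sum_congr rfl fun i _ => ?_
    split_ifs with hi
    · rw [h i hi]
    · rfl
  rw [h1]
  ring

private theorem skew {m : ℕ} {K L : Finset (Fin (m + 2) → ℤ)} {c : Fin (m + 2) → ℤ}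
    {R r J kap : ℕ} (h : TwF K L c R r J kap) {F : Fr} {Q : ℕ} (hQ : F.Le Q) (hQ1 : 1 ≤ Q) {N : ℤ}
    (hN : 10 * (Q : ℤ) * R < N) {a : Fin (m + 2) → ℤ} {E ell : ℕ}
    (hP : Pole K L c (lfh m N F) (F.e m) a E ell) (hell : 6 * Wq E J (JJ kap J) 2 + 2 ≤ ell)
    (he : ∀ i, |F.e m i| * (64 * (kap * J : ℕ)) ≤ r) {p : Fin (m + 2) → ℤ} (hp : Df K L p)
    (hmax : ∀ x, Df K L x → ¬ ∃ j : Fin (m + 2), j.1 < m ∧ (∀ i : Fin (m + 2), i < j → x i = p i) ∧
      p j < x j) :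
    ∃ z, Df K L z ∧ (∀ i : Fin (m + 2), i.1 < m → z i = p i) ∧
      Cl K L (F.e m) z (Wq E J (JJ kap J) 2) ∧ ∀ x, Df K L x → lfh m N F x ≤ lfh m N F z := by
  obtain ⟨z, hz, hzl, hall, hzc⟩ := top_point h hQ hQ1 hN hp hmax
  refine ⟨z, hz, hzl, ?_, hall⟩
  have h1 := h.lines hP he hell 0 (by norm_num) z ∅ rfl hz hzc (by simp) (by simp)
    (fun x hx hlt => absurd (hall x hx) (not_le.2 hlt))
  exact h1.mono (Wq_mono _ _ _ (by norm_num))

/-- a point of the highest skew line which is to the left of another one -/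
private theorem skew2 {m : ℕ} {K L : Finset (Fin (m + 2) → ℤ)} {c : Fin (m + 2) → ℤ}
    {R r J kap : ℕ} (h : TwF K L c R r J kap) {F : Fr} {Q : ℕ} (hQ : F.Le Q) (hQ1 : 1 ≤ Q) {N : ℤ}
    (hN : 10 * (Q : ℤ) * R < N) {a : Fin (m + 2) → ℤ} {E ell : ℕ}
    (hP : Pole K L c (lfh m N F) (F.e m) a E ell) (hell : 6 * Wq E J (JJ kap J) 2 + 2 ≤ ell)
    (he : ∀ i, |F.e m i| * (64 * (kap * J : ℕ)) ≤ r) {p : Fin (m + 2) → ℤ} (hp : Df K L p)
    (hmax : ∀ x, Df K L x → ¬ ∃ j : Fin (m + 2), j.1 < m ∧ (∀ i : Fin (m + 2), i < j → x i = p i) ∧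
      p j < x j) (hF : F.e m (iu m) = 1) {X : ℤ}
    (hX : ∀ x, Df K L x → (∀ i : Fin (m + 2), i.1 < m → x i = p i) → x (iu m) ≤ X) :
    ∃ z, Df K L z ∧ (∀ i : Fin (m + 2), i.1 < m → z i = p i) ∧ z (iu m) < X ∧
      ∀ x, Df K L x → lfh m N F x ≤ lfh m N F z := by
  obtain ⟨z, hz, hzl, hcl, hall⟩ := skew h hQ hQ1 hN hP hell he hp hmax
  obtain ⟨t, ht1, ht2⟩ := hcl.memK hz
  obtain ⟨t', ht1', ht2'⟩ := hcl.memL hz
  have hne : t ≠ t' := by
    rintro rfl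
    exact ht2 ht1'
  have hD : Df K L (z + t • F.e m) := fun hiff => ht2 (hiff.1 ht1)
  have hD' : Df K L (z + t' • F.e m) := fun hiff => ht2' (hiff.2 ht1')
  have hlev : ∀ k : ℤ, ∀ i : Fin (m + 2), i.1 < m → (z + k • F.e m) i = p i := by
    intro k i hi
    rw [Pi.add_apply, Pi.smul_apply, F.low_e hi, smul_zero, add_zero]
    exact hzl i hi
  have hu : ∀ k : ℤ, (z + k • F.e m) (iu m) = z (iu m) + k := by
    intro k
    rw [Pi.add_apply, Pi.smul_apply, hF, smul_eq_mul, mul_one]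
  have hf : ∀ k : ℤ, lfh m N F (z + k • F.e m) = lfh m N F z := by
    intro k
    rw [map_add, map_zsmul, hP.fe, smul_zero, add_zero]
  rcases lt_or_gt_of_ne hne with hlt | hlt
  · refine ⟨z + t • F.e m, hD, hlev t, ?_, fun x hx => by rw [hf]; exact hall x hx⟩
    have := hX _ hD' (hlev t')
    rw [hu] at this ⊢
    omega
  · refine ⟨z + t' • F.e m, hD', hlev t', ?_, fun x hx => by rw [hf]; exact hall x hx⟩
    have := hX _ hD (hlev t)
    rw [hu] at this ⊢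
    omega

private theorem iv_ne (m : ℕ) : iv m ≠ iu m := by
  intro h
  have := congrArg Fin.val h
  simp [iv, iu] at this

private theorem FAg {m : ℕ} (x : Fin (m + 2) → ℤ) : FA.g m x = x (iu m) := by
  simp [Fr.g, FA]

private theorem FCg {m : ℕ} (s : ℤ) (x : Fin (m + 2) → ℤ) :
    (FC s).g m x = s * x (iu m) - x (iv m) := by
  simp only [Fr.g, FC]
  ring

private theorem FDg {m : ℕ} (s : ℤ) (x : Fin (m + 2) → ℤ) :
    (FD s).g m x = s * x (iu m) + x (iv m) := by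
  simp only [Fr.g, FD]
  ring

private theorem FCe (m : ℕ) (s : ℤ) : (FC s).e m (iu m) = 1 := by
  simp [Fr.e, FC, (iv_ne m).symm]

private theorem FDe (m : ℕ) (s : ℤ) : (FD s).e m (iu m) = 1 := by
  simp [Fr.e, FD, (iv_ne m).symm]

private theorem FAe (m : ℕ) : FA.e m (iu m) = 0 := by
  simp [Fr.e, FA, (iv_ne m).symm]

private theorem FAe' (m : ℕ) : FA.e m (iv m) = 1 := by
  simp [Fr.e, FA]

theorem three_poles {m : ℕ} {K L : Finset (Fin (m + 2) → ℤ)} {c : Fin (m + 2) → ℤ}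
    {R r J kap : ℕ} (h : TwF K L c R r J kap) {s : ℕ} (hs1 : 1 ≤ s) {N : ℤ}
    (hN : 10 * (s : ℤ) * R < N) {aA aC aD : Fin (m + 2) → ℤ} {EA lA EC lC ED lD : ℕ}
    (hPA : Pole K L c (lfh m N FA) (FA.e m) aA EA lA)
    (hlA : 6 * Wq EA J (JJ kap J) 2 + 2 ≤ lA)
    (heA : ∀ i, |FA.e m i| * (64 * (kap * J : ℕ)) ≤ r)
    (hPC : Pole K L c (lfh m N (FC s)) ((FC s).e m) aC EC lC)
    (hlC : 6 * Wq EC J (JJ kap J) 2 + 2 ≤ lC)
    (heC : ∀ i, |(FC s).e m i| * (64 * (kap * J : ℕ)) ≤ r)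
    (hPD : Pole K L c (lfh m N (FD s)) ((FD s).e m) aD ED lD)
    (hlD : 6 * Wq ED J (JJ kap J) 2 + 2 ≤ lD)
    (heD : ∀ i, |(FD s).e m i| * (64 * (kap * J : ℕ)) ≤ r)
    (hs : 2 * Wq EA J (JJ kap J) 2 ≤ s) : K = L := by
  classical
  by_contra hne
  obtain ⟨p₀, hp₀, hmax⟩ := exists_hmax h hne
  have hsZ : (1 : ℤ) ≤ (s : ℤ) := by exact_mod_cast hs1
  have hR0 : (0 : ℤ) ≤ (R : ℤ) := by positivity
  have hN1 : 10 * ((1 : ℕ) : ℤ) * R < N := by
    have h1 : (R : ℤ) ≤ s * R := by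
      have := mul_le_mul_of_nonneg_right hsZ hR0
      linarith
    push_cast
    linarith
  have hFA : FA.Le ((1 : ℕ) : ℤ) := by
    rw [Nat.cast_one]
    exact FA_le
  set W : ℕ := Wq EA J (JJ kap J) 2 with hWdef
  -- (1)
  obtain ⟨pR, hpR, hpRl, hpRc, hpRt⟩ := skew h hFA le_rfl hN1 hPA hlA heA hp₀ hmax
  obtain ⟨tK, htK1, htK2⟩ := hpRc.memK hpR
  obtain ⟨tL, htL1, htL2⟩ := hpRc.memL hpR
  have hlev : ∀ (z : Fin (m + 2) → ℤ), (∀ i : Fin (m + 2), i.1 < m → z i = p₀ i) →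
      ∀ k : ℤ, ∀ i : Fin (m + 2), i.1 < m → (z + k • FA.e m) i = p₀ i := by
    intro z hz k i hi
    rw [Pi.add_apply, Pi.smul_apply, FA.low_e hi, smul_zero, add_zero]
    exact hz i hi
  have hu : ∀ (z : Fin (m + 2) → ℤ) (k : ℤ), (z + k • FA.e m) (iu m) = z (iu m) := by
    intro z k
    rw [Pi.add_apply, Pi.smul_apply, FAe, smul_zero, add_zero]
  have hv : ∀ (z : Fin (m + 2) → ℤ) (k : ℤ), (z + k • FA.e m) (iv m) = z (iv m) + k := by
    intro z k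
    rw [Pi.add_apply, Pi.smul_apply, FAe', smul_eq_mul, mul_one]
  have hX : ∀ x, Df K L x → (∀ i : Fin (m + 2), i.1 < m → x i = p₀ i) →
      x (iu m) ≤ pR (iu m) := by
    intro x hx hxl
    have h1 := hpRt x hx
    have h2 := lf_sub (N := N) FA (x := x) (y := pR) (fun i hi => by rw [hxl i hi, hpRl i hi])
    rw [FAg, FAg] at h2
    linarith
  set vK : Fin (m + 2) → ℤ := pR + tK • FA.e m with hvK
  set vL : Fin (m + 2) → ℤ := pR + tL • FA.e m with hvL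
  have hDK : Df K L vK := fun hiff => htK2 (hiff.1 htK1)
  have hDL : Df K L vL := fun hiff => htL2 (hiff.2 htL1)
  have hvKl : ∀ i : Fin (m + 2), i.1 < m → vK i = p₀ i := hlev pR hpRl tK
  have hvLl : ∀ i : Fin (m + 2), i.1 < m → vL i = p₀ i := hlev pR hpRl tL
  have hvKu : vK (iu m) = pR (iu m) := hu _ _
  have hvLu : vL (iu m) = pR (iu m) := hu _ _
  have hvKv : vK (iv m) = pR (iv m) + tK := hv _ _
  have hvLv : vL (iv m) = pR (iv m) + tL := hv _ _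
  -- (2), (3)
  obtain ⟨ζ, hζ, hζl, hζu, hζt⟩ := skew2 h (FC_le hs1) hs1 hN hPC hlC heC hp₀ hmax (FCe m s) hX
  obtain ⟨ζ₂, hζ₂, hζ₂l, hζ₂u, hζ₂t⟩ := skew2 h (FD_le hs1) hs1 hN hPD hlD heD hp₀ hmax
    (FDe m s) hX
  have hC : ∀ v, Df K L v → (∀ i : Fin (m + 2), i.1 < m → v i = p₀ i) → v (iu m) = pR (iu m) →
      (s : ℤ) * (v (iu m) - ζ (iu m)) ≤ v (iv m) - ζ (iv m) := by
    intro v hv hvl _
    have h1 := hζt v hv
    have h2 := lf_sub (N := N) (FC s) (x := v) (y := ζ) (fun i hi => by rw [hvl i hi, hζl i hi])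
    rw [FCg, FCg] at h2
    have h3 : (s : ℤ) * (v (iu m) - ζ (iu m)) = s * v (iu m) - s * ζ (iu m) := by ring
    linarith
  have hD : ∀ v, Df K L v → (∀ i : Fin (m + 2), i.1 < m → v i = p₀ i) → v (iu m) = pR (iu m) →
      (s : ℤ) * (v (iu m) - ζ₂ (iu m)) ≤ ζ₂ (iv m) - v (iv m) := by
    intro v hv hvl _
    have h1 := hζ₂t v hv
    have h2 := lf_sub (N := N) (FD s) (x := v) (y := ζ₂) (fun i hi => by rw [hvl i hi, hζ₂l i hi])
    rw [FDg, FDg] at h2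
    have h3 : (s : ℤ) * (v (iu m) - ζ₂ (iu m)) = s * v (iu m) - s * ζ₂ (iu m) := by ring
    linarith
  -- (4)
  obtain ⟨p, hpm, hpx⟩ := exists_max_image ((K ∪ L).filter fun x => Df K L x ∧
    (∀ i : Fin (m + 2), i.1 < m → x i = p₀ i) ∧ x (iu m) < pR (iu m)) (fun x => x (iu m))
    ⟨ζ, mem_filter.2 ⟨hζ.mem, hζ, hζl, hζu⟩⟩
  rw [mem_filter] at hpm
  obtain ⟨-, hpD, hpl, hpu⟩ := hpm
  have hpx' : ∀ x, Df K L x → (∀ i : Fin (m + 2), i.1 < m → x i = p₀ i) →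
      x (iu m) < pR (iu m) → x (iu m) ≤ p (iu m) :=
    fun x h1 h2 h3 => hpx x (mem_filter.2 ⟨h1.mem, h1, h2, h3⟩)
  have hζp := hpx' ζ hζ hζl hζu
  have hζ₂p := hpx' ζ₂ hζ₂ hζ₂l hζ₂u
  -- higher columns
  have habove : ∀ x, Df K L x → lfh m N FA p < lfh m N FA x →
      (∀ i : Fin (m + 2), i.1 < m → x i = p₀ i) ∧ x (iu m) = pR (iu m) := by
    intro x hx hlt
    obtain ⟨d1, d2⟩ := h.diff hpD.mem hx.mem
    have d3 := d2 FA ((1 : ℕ) : ℤ) hFA
    have h5R : (5 : ℤ) * R ≤ 10 * ((1 : ℕ) : ℤ) * R := by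
      push_cast
      linarith
    have h2 : lf m N FA p < lf m N FA x := hlt
    rw [lf_lt FA (d := 10 * ((1 : ℕ) : ℤ) * R) hN1 (fun i => (d1 i).trans h5R) d3] at h2
    rcases h2 with ⟨j, hj, h3, h4⟩ | ⟨h3, h4⟩
    · exfalso
      refine hmax x hx ⟨j, hj, fun i hi => ?_, ?_⟩
      · rw [← h3 i hi]
        exact hpl i (lt_trans hi hj)
      · rw [← hpl j hj]
        exact h4
    · have h5 : ∀ i : Fin (m + 2), i.1 < m → x i = p₀ i := fun i hi => by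
        rw [← h3 i hi]
        exact hpl i hi
      refine ⟨h5, ?_⟩
      rw [FAg, FAg] at h4
      rcases lt_or_eq_of_le (hX x hx h5) with h6 | h6
      · have := hpx' x hx h5 h6
        omega
      · exact h6
  have hClR : ∀ x, (∀ i : Fin (m + 2), i.1 < m → x i = p₀ i) → x (iu m) = pR (iu m) →
      Cl K L (FA.e m) x W := by
    intro x hxl hxu
    obtain ⟨t, ht⟩ := FA.line (x := pR) (y := x) (fun i hi => by rw [hpRl i hi, hxl i hi])
      (by rw [FAg, FAg, hxu])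
    rw [ht]
    exact hpRc.shift t
  have hCl : Cl K L (FA.e m) p W := by
    rcases le_or_gt (lfh m N FA c) (2 * lfh m N FA p) with hle | hgt
    · have hlt : lfh m N FA p < lfh m N FA pR := by
        have h2 := lf_sub (N := N) FA (x := p) (y := pR)
          (fun i hi => by rw [hpl i hi, hpRl i hi])
        rw [FAg, FAg] at h2
        linarith
      have h1 := h.lines hPA heA hlA 1 (by norm_num) p {pR} (card_singleton _) hpD hle
        (fun x hx => by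
          rw [mem_singleton] at hx
          rw [hx]
          exact ⟨hpR, hlt⟩)
        (by simp)
        (fun x hx hxlt => by
          obtain ⟨h3, h4⟩ := habove x hx hxlt
          refine ⟨pR, mem_singleton_self _, ?_⟩
          have h2 := lf_sub (N := N) FA (x := x) (y := pR)
            (fun i hi => by rw [h3 i hi, hpRl i hi])
          rw [FAg, FAg, h4, sub_self] at h2
          linarith)
      exact h1.mono (Wq_mono _ _ _ (by norm_num))
    · have hD' : Df K L (c - p) := hpD.neg h.tw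
      have h1 : lfh m N FA p < lfh m N FA (c - p) := by
        rw [map_sub]
        linarith
      obtain ⟨h3, h4⟩ := habove _ hD' h1
      have h5 := (hClR _ h3 h4).neg h.tw.sK h.tw.sL
      rwa [sub_sub_cancel] at h5
  -- (5)
  obtain ⟨tpK, haK, -⟩ := hCl.memK hpD
  obtain ⟨tpL, haL, -⟩ := hCl.memL hpD
  obtain ⟨zp, hzp, -⟩ := hCl
  obtain ⟨zR, hzR, -⟩ := hpRc
  have hr1 := hzR tK (Or.inl htK1)
  have hr2 := hzR tL (Or.inr htL1)
  -- lower bound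
  have hlow : ∀ (A : Finset (Fin (m + 2) → ℤ)) (v a : Fin (m + 2) → ℤ) (ta : ℤ), LC A →
      (∀ x, x ∈ A → x ∈ K ∨ x ∈ L) → ζ ∈ A → v ∈ A → Df K L v →
      (∀ i : Fin (m + 2), i.1 < m → v i = p₀ i) → v (iu m) = pR (iu m) →
      p + ta • FA.e m ∈ A → p (iv m) + zp ≤ v (iv m) - s * (pR (iu m) - p (iu m)) := by
    intro A v a ta hA hAU hζA hvA hvD hvl hvu haA
    have h1 := tri hA (s := (s : ℤ)) hζA hvA haA
      (fun i hi => by rw [hζl i hi, hlev p hpl ta i hi])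
      (fun i hi => by rw [hvl i hi, hlev p hpl ta i hi])
      (by rw [hu]; exact hζp) (by rw [hu, hvu]; exact hpu) (hC v hvD hvl hvu)
      (w₀ := p (iv m) + zp) (fun t ht => by
        have h2 : p + ta • FA.e m + t • FA.e m = p + (ta + t) • FA.e m := by
          rw [add_smul]
          abel
        rw [h2] at ht
        have h3 := hzp _ (hAU _ ht)
        rw [hv]
        linarith [h3.1])
    rw [hu, hvu] at h1
    exact h1
  have hupp : ∀ (A : Finset (Fin (m + 2) → ℤ)) (v a : Fin (m + 2) → ℤ) (ta : ℤ), LC A →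
      (∀ x, x ∈ A → x ∈ K ∨ x ∈ L) → ζ₂ ∈ A → v ∈ A → Df K L v →
      (∀ i : Fin (m + 2), i.1 < m → v i = p₀ i) → v (iu m) = pR (iu m) →
      p + ta • FA.e m ∈ A →
      v (iv m) + s * (pR (iu m) - p (iu m)) ≤ p (iv m) + zp + 2 * W - 1 := by
    intro A v a ta hA hAU hζA hvA hvD hvl hvu haA
    have h1 := tri' hA (s := (s : ℤ)) hζA hvA haA
      (fun i hi => by rw [hζ₂l i hi, hlev p hpl ta i hi])
      (fun i hi => by rw [hvl i hi, hlev p hpl ta i hi])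
      (by rw [hu]; exact hζ₂p) (by rw [hu, hvu]; exact hpu) (hD v hvD hvl hvu)
      (w₁ := p (iv m) + zp + 2 * W - 1) (fun t ht => by
        have h2 : p + ta • FA.e m + t • FA.e m = p + (ta + t) • FA.e m := by
          rw [add_smul]
          abel
        rw [h2] at ht
        have h3 := hzp _ (hAU _ ht)
        rw [hv]
        linarith [h3.2])
    rw [hu, hvu] at h1
    exact h1
  have hlo : ∃ t : ℤ, (t = tK ∨ t = tL) ∧
      p (iv m) + zp ≤ pR (iv m) + t - s * (pR (iu m) - p (iu m)) := by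
    rcases mem_union.1 hζ.mem with hζK | hζL
    · exact ⟨tK, Or.inl rfl, by
        have := hlow K vK p tpK h.tw.hK (fun x hx => Or.inl hx) hζK htK1 hDK hvKl hvKu haK
        rwa [hvKv] at this⟩
    · exact ⟨tL, Or.inr rfl, by
        have := hlow L vL p tpL h.tw.hL (fun x hx => Or.inr hx) hζL htL1 hDL hvLl hvLu haL
        rwa [hvLv] at this⟩
  have hup : ∃ t : ℤ, (t = tK ∨ t = tL) ∧
      pR (iv m) + t + s * (pR (iu m) - p (iu m)) ≤ p (iv m) + zp + 2 * W - 1 := by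
    rcases mem_union.1 hζ₂.mem with hζK | hζL
    · exact ⟨tK, Or.inl rfl, by
        have := hupp K vK p tpK h.tw.hK (fun x hx => Or.inl hx) hζK htK1 hDK hvKl hvKu haK
        rwa [hvKv] at this⟩
    · exact ⟨tL, Or.inr rfl, by
        have := hupp L vL p tpL h.tw.hL (fun x hx => Or.inr hx) hζL htL1 hDL hvLl hvLu haL
        rwa [hvLv] at this⟩
  obtain ⟨t₁, ht₁, h₁⟩ := hlo
  obtain ⟨t₂, ht₂, h₂⟩ := hup
  have hγ : (s : ℤ) * 1 ≤ s * (pR (iu m) - p (iu m)) :=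
    mul_le_mul_of_nonneg_left (by omega) (by omega)
  have hsW : (2 : ℤ) * W ≤ s := by exact_mod_cast hs
  have hb₁ : zR ≤ t₁ ∧ t₁ < zR + 2 * W := by
    rcases ht₁ with rfl | rfl
    · exact hr1
    · exact hr2
  have hb₂ : zR ≤ t₂ ∧ t₂ < zR + 2 * W := by
    rcases ht₂ with rfl | rfl
    · exact hr1
    · exact hr2
  linarith [hb₁.1, hb₁.2, hb₂.1, hb₂.2]

end Pool.Agent.Lib.MP_8cf263_co
end

section

/-!
# One round spot, file RsSpot: the core

`spot_core`: poles for the frames `FA`, `FC s`, `FD s` (`pole2`), then `three_poles`.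
-/

set_option autoImplicit false

namespace Pool.Agent.Lib.MP_8cf263_co

open Finset

theorem spot_core (m kap : ℕ) {μ M : ℝ} (hμ : 0 < μ) (hM : μ ≤ M) : ∃ β eE X₀ : ℕ, 1 ≤ eE ∧
    ∀ (K L : Finset (Fin (m + 2) → ℤ)) (c : Fin (m + 2) → ℤ) (R r J : ℕ)
      (Φ : (Fin (m + 2) → ℝ) → ℝ) (T b : ℝ) (a : Fin (m + 2) → ℤ) (X : ℕ),
      TwF K L c R r J kap → SDn Φ μ M → (∀ x, b ≤ Φ x) →
      X₀ ≤ X → J ≤ X → (abv K m a).card ≤ X → (X : ℝ) ^ β ≤ T - mg Φ m (em a) → X ^ β ≤ r →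
      Agr K Φ T FA a → Agr K Φ T (FC ((2 * X ^ eE : ℕ) : ℤ)) a →
      Agr K Φ T (FD ((2 * X ^ eE : ℕ) : ℤ)) a → K = L := by
  obtain ⟨βA, eE', XA, HA⟩ := pole2 m 0 kap hμ hM
  obtain ⟨eE, heE⟩ : ∃ eE, eE = eE' + 1 := ⟨_, rfl⟩
  obtain ⟨βC, eC, XC, HC⟩ := pole2 m (eE + 1) kap hμ hM
  refine ⟨βA + βC, eE, XA + XC + 2, by omega, ?_⟩
  intro K L c R r J Φ T b a X h hΦ hb hX hJ habv hτ hr hA hC hD
  have hX2 : 2 ≤ X := by omega
  have hX1 : 1 ≤ X := by omega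
  have hX1r : (1 : ℝ) ≤ X := by exact_mod_cast hX1
  have hτA : (X : ℝ) ^ βA ≤ T - mg Φ m (em a) :=
    (pow_le_pow_right₀ hX1r (by omega)).trans hτ
  have hτC : (X : ℝ) ^ βC ≤ T - mg Φ m (em a) :=
    (pow_le_pow_right₀ hX1r (by omega)).trans hτ
  have hrA : X ^ βA ≤ r := (Nat.pow_le_pow_right hX1 (by omega)).trans hr
  have hrC : X ^ βC ≤ r := (Nat.pow_le_pow_right hX1 (by omega)).trans hr
  obtain ⟨s, hs⟩ : ∃ s : ℕ, s = 2 * X ^ eE := ⟨_, rfl⟩
  rw [← hs] at hC hD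
  have hXe : 1 ≤ X ^ eE := Nat.one_le_pow _ _ hX1
  have hs1 : 1 ≤ s := by omega
  have hsX : s ≤ X ^ (eE + 1) := by
    rw [pow_succ', hs]
    exact Nat.mul_le_mul_right _ hX2
  obtain ⟨N, hN⟩ : ∃ N : ℤ, N = 10 * (s : ℤ) * R + 1 := ⟨_, rfl⟩
  have hNs : 10 * (s : ℤ) * R < N := by omega
  have hN1 : 10 * ((1 : ℕ) : ℤ) * R < N := by
    have h1 : 10 * ((1 : ℕ) : ℤ) * R ≤ 10 * (s : ℤ) * R := by
      refine mul_le_mul_of_nonneg_right ?_ (by positivity)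
      have : ((1 : ℕ) : ℤ) ≤ (s : ℤ) := by exact_mod_cast hs1
      linarith
    omega
  have hFA : FA.Le (1 : ℕ) := by
    unfold FA Fr.Le
    norm_num
  obtain ⟨aA, EA, lA, hPA, hlA, hWA, heA⟩ := HA K L c R r J Φ T b a X FA 1 N h hΦ hb hA (by omega)
    hJ habv hτA hrA hFA le_rfl (by simp) hN1
  obtain ⟨aC, EC, lC, hPC, hlC, hWC, heC⟩ := HC K L c R r J Φ T b a X (FC s) s N h hΦ hb hC
    (by omega) hJ habv hτC hrC (FC_le hs1) hs1 hsX hNs
  obtain ⟨aD, ED, lD, hPD, hlD, hWD, heD⟩ := HC K L c R r J Φ T b a X (FD s) s N h hΦ hb hD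
    (by omega) hJ habv hτC hrC (FD_le hs1) hs1 hsX hNs
  have hWA' : Wq EA J (JJ kap J) 2 ≤ X ^ eE := hWA.trans (Nat.pow_le_pow_right hX1 (by omega))
  exact three_poles h hs1 hNs hPA hlA heA hPC hlC heC hPD hlD heD (by omega)

end Pool.Agent.Lib.MP_8cf263_co
end

section

/-!
# One round spot, file RsNorm: large multiples of a body with a round spot
-/

set_option autoImplicit false

namespace Pool.Agent.Lib.MP_8cf263_co

open Finset

/-- fatness of the lattice sets of a norm -/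
theorem norm_fat {n : ℕ} (hn : 2 ≤ n) {N : (Fin n → ℝ) → ℝ} (hN : Nrm N) :
    ∃ (kap C : ℕ) (lam₁ : ℝ), 1 ≤ C ∧ 1 ≤ lam₁ ∧ ∀ lam : ℝ, lam₁ ≤ lam →
      ∃ R r : ℕ, r ≤ R ∧ R ≤ kap * r ∧ lam ≤ C * r ∧ (R : ℝ) ≤ C * lam ∧
        ∀ (K : Finset (Fin n → ℤ)) (c : Fin n → ℤ), (∀ x, x ∈ K ↔ N (em (vs c x)) ≤ lam) →
          (∀ x ∈ K, ∀ i, |vs c x i| ≤ R) ∧ ∀ x : Fin n → ℤ, (∀ i, |vs c x i| ≤ r) → x ∈ K := by
  obtain ⟨a, b, ha, hb, h1, h2⟩ := hN.equiv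
  have hab : a ≤ b := by
    have h3 := h1 (fun _ => 1) ⟨0, by omega⟩
    have h4 := h2 (fun _ => 1) 1 zero_le_one (fun i => by simp)
    simp only [abs_one, mul_one] at h3 h4
    linarith
  refine ⟨⌈2 * b * (1 / a + 1)⌉₊, ⌈2 * b + (1 / a + 1)⌉₊, 2 * b + 1, ?_, by linarith, ?_⟩
  · rw [Nat.one_le_ceil_iff]
    positivity
  intro lam hlam
  have hlam1 : 1 ≤ lam := by linarith
  have hlam0 : 0 < lam := by linarith
  have hR1 : lam / a ≤ (⌈lam / a⌉₊ : ℝ) := Nat.le_ceil _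
  have hR2 : (⌈lam / a⌉₊ : ℝ) < lam / a + 1 := Nat.ceil_lt_add_one (by positivity)
  have hr1 : (⌊lam / b⌋₊ : ℝ) ≤ lam / b := Nat.floor_le (by positivity)
  have hr2 : lam / b - 1 < (⌊lam / b⌋₊ : ℝ) := Nat.sub_one_lt_floor _
  have hk1 : 2 * b * (1 / a + 1) ≤ (⌈2 * b * (1 / a + 1)⌉₊ : ℝ) := Nat.le_ceil _
  have hC1 : 2 * b + (1 / a + 1) ≤ (⌈2 * b + (1 / a + 1)⌉₊ : ℝ) := Nat.le_ceil _
  have hinv : 0 < 1 / a := by positivity
  have hr3 : lam ≤ 2 * b * (⌊lam / b⌋₊ : ℝ) := by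
    have h3 : lam / b - 1 ≥ lam / b / 2 := by
      have h4 : 2 ≤ lam / b := by
        rw [le_div_iff₀ hb]
        linarith
      linarith
    have h5 : lam / b / 2 ≤ (⌊lam / b⌋₊ : ℝ) := by linarith
    have h6 : lam = 2 * b * (lam / b / 2) := by
      field_simp
    calc lam = 2 * b * (lam / b / 2) := h6
      _ ≤ 2 * b * (⌊lam / b⌋₊ : ℝ) := mul_le_mul_of_nonneg_left h5 (by linarith)
  have hR3 : (⌈lam / a⌉₊ : ℝ) ≤ (1 / a + 1) * lam := by
    have h3 : lam / a = 1 / a * lam := by ring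
    rw [h3] at hR2
    rw [h3]
    linarith
  refine ⟨⌈lam / a⌉₊, ⌊lam / b⌋₊, ?_, ?_, ?_, ?_, ?_⟩
  · have h3 : lam / b ≤ lam / a := div_le_div_of_nonneg_left hlam0.le ha hab
    have h4 : (⌊lam / b⌋₊ : ℝ) ≤ (⌈lam / a⌉₊ : ℝ) := by linarith
    exact_mod_cast h4
  · have h3 : (⌈lam / a⌉₊ : ℝ) ≤ (⌈2 * b * (1 / a + 1)⌉₊ : ℝ) * (⌊lam / b⌋₊ : ℝ) := by
      calc (⌈lam / a⌉₊ : ℝ) ≤ (1 / a + 1) * lam := hR3
        _ ≤ (1 / a + 1) * (2 * b * (⌊lam / b⌋₊ : ℝ)) :=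
            mul_le_mul_of_nonneg_left hr3 (by positivity)
        _ = (2 * b * (1 / a + 1)) * (⌊lam / b⌋₊ : ℝ) := by ring
        _ ≤ _ := mul_le_mul_of_nonneg_right hk1 (Nat.cast_nonneg _)
    exact_mod_cast h3
  · refine hr3.trans (mul_le_mul_of_nonneg_right ?_ (Nat.cast_nonneg _))
    linarith
  · refine hR3.trans (mul_le_mul_of_nonneg_right ?_ hlam0.le)
    linarith
  · intro K c hK
    constructor
    · intro x hx i
      have h3 := h1 (em (vs c x)) i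
      have h4 := (hK x).1 hx
      have h5 : |em (vs c x) i| ≤ lam / a := by
        rw [le_div_iff₀ ha]
        linarith
      have h6 : ((|vs c x i| : ℤ) : ℝ) ≤ ((⌈lam / a⌉₊ : ℕ) : ℝ) := by
        have h7 : ((|vs c x i| : ℤ) : ℝ) = |em (vs c x) i| := by
          simp [em]
        rw [h7]
        linarith
      exact_mod_cast h6
    · intro x hx
      rw [hK]
      have h3 := h2 (em (vs c x)) (⌊lam / b⌋₊ : ℝ) (Nat.cast_nonneg _) (fun i => by
        have h4 := hx i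
        have h5 : ((|vs c x i| : ℤ) : ℝ) ≤ ((⌊lam / b⌋₊ : ℕ) : ℝ) := by exact_mod_cast h4
        have h7 : ((|vs c x i| : ℤ) : ℝ) = |em (vs c x) i| := by
          simp [em]
        rwa [h7] at h5)
      refine h3.trans ?_
      calc b * (⌊lam / b⌋₊ : ℝ) ≤ b * (lam / b) := mul_le_mul_of_nonneg_left hr1 hb.le
        _ = lam := by field_simp

theorem abv_filter {m : ℕ} {K : Finset (Fin (m + 2) → ℤ)} {a : Fin (m + 2) → ℤ} {h₀ : ℤ}
    (h : h₀ ≤ a 0) : abv K m a ⊆ abv (K.filter (fun x => h₀ ≤ x 0)) m a := by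
  intro x hx
  unfold abv at hx ⊢
  rw [mem_filter] at hx ⊢
  obtain ⟨hxK, j, hj, h1, h2⟩ := hx
  refine ⟨mem_filter.2 ⟨hxK, ?_⟩, j, hj, h1, h2⟩
  rcases eq_or_ne j 0 with rfl | hj0
  · omega
  · have h3 : (0 : Fin (m + 2)) < j := Fin.pos_of_ne_zero hj0
    rw [h1 0 h3]
    exact h

theorem spot_norm (m : ℕ) {N : (Fin (m + 2) → ℝ) → ℝ} {q : Fin (m + 2) → ℝ} {ρ μ M : ℝ}
    (hS : Spot N q ρ μ M) : ∃ lam₀ : ℝ, ∀ lam : ℝ, lam₀ ≤ lam → ∀ (c : Fin (m + 2) → ℤ)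
      (K L : Finset (Fin (m + 2) → ℤ)), Tw K L c → (∀ x, x ∈ K ↔ N (em (vs c x)) ≤ lam) →
      K = L := by
  obtain ⟨F, b, δ, η, hF, hb, hC⟩ := hS.ext
  have hN := hS.nrm
  have hq := hS.one
  have hμ := hS.hμ
  have hM := hS.hM
  have hδ := hC.hδ
  have hη := hC.hη
  obtain ⟨kap, C, lam₁, hC1, hlam₁, hfat⟩ := norm_fat (by omega) hN
  obtain ⟨c₀, hc₀, hdep⟩ := hC.depth hN hq hb
  obtain ⟨β, eE, X₀, heE, hcore⟩ := spot_core m kap (μ := 4 * μ) (M := 4 * M) (by linarith) (by linarith)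
  obtain ⟨β₀, J₀, γ₀, hsel⟩ := select2 (n := m + 2) (μ := 4 * μ) (M := 4 * M) (by linarith)
    (by linarith) m (by omega) (β + 2 * eE + 2)
  -- the exponent and the size of `J`
  obtain ⟨β₁, hβ₁⟩ : ∃ β₁, β₁ = β₀ + (γ₀ * β + 1) + (β + 1) + 2 := ⟨_, rfl⟩
  obtain ⟨lJ, hJ⟩ := exists_J (J₀ + X₀ + Cg (2 * β₁ + 2) * (200 * C ^ 2) + C + 64 * kap * C +
    ⌈4 + 320 * M + 4 * μ⌉₊ + ⌈1 / η⌉₊ + 2) β₁ (by omega)
  refine ⟨max (max lam₁ lJ) (max (1 / c₀) (4 / δ)), ?_⟩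
  intro lam hlam c K L hTw hK
  have hl1 : lam₁ ≤ lam := (le_max_left _ _).trans ((le_max_left _ _).trans hlam)
  have hl2 : lJ ≤ lam := (le_max_right _ _).trans ((le_max_left _ _).trans hlam)
  have hl3 : 1 / c₀ ≤ lam := (le_max_left _ _).trans ((le_max_right _ _).trans hlam)
  have hl4 : 4 / δ ≤ lam := (le_max_right _ _).trans ((le_max_right _ _).trans hlam)
  have hlam1 : 1 ≤ lam := hlam₁.trans hl1
  have hlam0 : 0 < lam := by linarith
  have hcl : 1 ≤ c₀ * lam := by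
    rw [div_le_iff₀ hc₀] at hl3
    linarith
  have hδl : 4 ≤ lam * δ := by
    rwa [div_le_iff₀ hδ] at hl4
  obtain ⟨R, r, hrR, hRr, hlr, hRl, hKf⟩ := hfat lam hl1
  obtain ⟨hout, hcor⟩ := hKf K c hK
  obtain ⟨J, hJA, hJ1, hJl, hJl2⟩ := hJ lam hl2
  have hJr1 : (1 : ℝ) ≤ J := by exact_mod_cast hJ1
  have hCr1 : (1 : ℝ) ≤ C := by exact_mod_cast hC1
  have hJp : ∀ k l : ℕ, k ≤ l → (J : ℝ) ^ k ≤ (J : ℝ) ^ l := fun k l hkl =>
    pow_le_pow_right₀ hJr1 hkl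
  have hgood : ∀ k : ℕ, k ≠ 0 → k ≤ 200 * R ^ 2 → Good J k := by
    intro k hk0 hk
    refine good_of_pow (k := 2 * β₁ + 2) (by omega) hk0 ?_
    have h1 : (k : ℝ) ≤ 200 * (R : ℝ) ^ 2 := by exact_mod_cast hk
    have h2 : (R : ℝ) ^ 2 ≤ (C * lam) ^ 2 := pow_le_pow_left₀ (Nat.cast_nonneg _) hRl 2
    obtain ⟨A, hA⟩ : ∃ A : ℕ, A = J₀ + X₀ + Cg (2 * β₁ + 2) * (200 * C ^ 2) + C + 64 * kap * C +
      ⌈4 + 320 * M + 4 * μ⌉₊ + ⌈1 / η⌉₊ + 2 := ⟨_, rfl⟩
    rw [← hA] at hJl2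
    have hA1 : (1 : ℝ) ≤ A := by
      have : 1 ≤ A := by omega
      exact_mod_cast this
    have hA2 : (Cg (2 * β₁ + 2) : ℝ) * (200 * (C : ℝ) ^ 2) ≤ A := by
      have h3 : Cg (2 * β₁ + 2) * (200 * C ^ 2) ≤ A := by omega
      exact_mod_cast h3
    have h3 : (Cg (2 * β₁ + 2) : ℝ) * k ≤ (J : ℝ) ^ (2 * β₁ + 2) := by
      calc (Cg (2 * β₁ + 2) : ℝ) * k ≤ Cg (2 * β₁ + 2) * (200 * (C * lam) ^ 2) :=
            mul_le_mul_of_nonneg_left (by linarith) (Nat.cast_nonneg _)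
        _ = (Cg (2 * β₁ + 2) * (200 * (C : ℝ) ^ 2)) * lam ^ 2 := by ring
        _ ≤ A * lam ^ 2 := mul_le_mul_of_nonneg_right hA2 (sq_nonneg _)
        _ ≤ (A * A) * lam ^ 2 := by
            refine mul_le_mul_of_nonneg_right ?_ (sq_nonneg _)
            nlinarith
        _ = (A * lam) ^ 2 := by ring
        _ ≤ ((J : ℝ) ^ (β₁ + 1)) ^ 2 := pow_le_pow_left₀ (by positivity) hJl2 2
        _ = (J : ℝ) ^ (2 * β₁ + 2) := by
            rw [← pow_mul]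
            congr 1
            ring
    exact_mod_cast h3
  -- powers of `J` are at most `r`
  have hCJ : (C : ℝ) ≤ J := by
    have : C ≤ J := by omega
    exact_mod_cast this
  have hpow : ∀ k : ℕ, k + 1 ≤ β₁ → J ^ k ≤ r := by
    intro k hk
    have h1 : (J : ℝ) ^ (k + 1) ≤ C * r := (hJp _ _ hk).trans (hJl.trans hlr)
    have h2 : (J : ℝ) ^ k * J ≤ J * r := by
      rw [← pow_succ]
      exact h1.trans (mul_le_mul_of_nonneg_right hCJ (Nat.cast_nonneg _))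
    have h3 : (J : ℝ) ^ k ≤ r := by
      have h4 : (J : ℝ) ^ k * J ≤ r * J := by linarith
      exact le_of_mul_le_mul_right h4 (by linarith)
    exact_mod_cast h3
  have hJr : 64 * (J * kap) ≤ r := by
    have h1 : 64 * kap * C ≤ J := by omega
    have h2 : (J : ℝ) ^ 2 ≤ C * r := (hJp _ _ (by omega)).trans (hJl.trans hlr)
    have h3 : (64 * (kap : ℝ) * C) * J ≤ C * r := by
      have h4 : (64 * (kap : ℝ) * C) ≤ J := by exact_mod_cast h1
      calc (64 * (kap : ℝ) * C) * J ≤ J * J := mul_le_mul_of_nonneg_right h4 (by linarith)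
        _ = (J : ℝ) ^ 2 := by ring
        _ ≤ C * r := h2
    have h5 : (C : ℝ) * (64 * (J * kap)) ≤ C * r := by
      calc (C : ℝ) * (64 * (J * kap)) = (64 * (kap : ℝ) * C) * J := by ring
        _ ≤ _ := h3
    have h6 : (64 * (J * kap) : ℝ) ≤ r := le_of_mul_le_mul_left h5 (by linarith)
    exact_mod_cast h6
  have hTwF : TwF K L c R r J kap :=
    ⟨hTw, by omega, hout, hcor, hgood, hJ1, hJr, hrR, hRr⟩
  have hΦ : SDn (Ph F c lam) (4 * μ) (4 * M) := Ph_SDn hF c hlam0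
  have hbΦ : ∀ x, lam ^ 2 * b ≤ Ph F c lam x := Ph_ge hb c lam
  have hdepth : ∀ k : ℕ, k ≤ β₁ → (J : ℝ) ^ k ≤ lam ^ 2 - mg (Ph F c lam) 0 0 := by
    intro k hk
    refine le_trans ?_ (hdep c lam hlam0)
    calc (J : ℝ) ^ k ≤ (J : ℝ) ^ β₁ := hJp _ _ hk
      _ ≤ lam := hJl
      _ = 1 * lam := (one_mul _).symm
      _ ≤ (c₀ * lam) * lam := mul_le_mul_of_nonneg_right hcl hlam0.le
      _ = c₀ * lam ^ 2 := by ring
  rcases Nat.eq_zero_or_pos m with rfl | hm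
  · -- the planar case
    have habv : abv K 0 (0 : Fin (0 + 2) → ℤ) = ∅ := by
      unfold abv
      rw [filter_eq_empty_iff]
      rintro x _ ⟨j, hj, _⟩
      omega
    have hem0 : mg (Ph F c lam) 0 (em (0 : Fin (0 + 2) → ℤ)) = mg (Ph F c lam) 0 0 :=
      mg_zero _ _
    obtain ⟨hA, hCD⟩ := hC.agr0 hN hq hb hlam0 hK hδl
    have hJe : 1 ≤ J ^ eE := Nat.one_le_pow _ _ hJ1
    have hJη : 1 / η ≤ (J : ℝ) := by
      have h1 : ⌈1 / η⌉₊ ≤ J := by omega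
      exact (Nat.le_ceil _).trans (by exact_mod_cast h1)
    have hJs : J ≤ 2 * J ^ eE := by
      have h1 : J ^ 1 ≤ J ^ eE := Nat.pow_le_pow_right hJ1 heE
      rw [pow_one] at h1
      omega
    obtain ⟨hC', hD'⟩ := hCD (2 * J ^ eE) (by omega) (by
      have h1 : 1 / η ≤ ((2 * J ^ eE : ℕ) : ℝ) := hJη.trans (by exact_mod_cast hJs)
      have h2 : (0 : ℝ) < ((2 * J ^ eE : ℕ) : ℝ) := by
        have : 0 < 2 * J ^ eE := by omega
        exact_mod_cast this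
      rw [div_le_iff₀ hη] at h1
      rw [div_le_iff₀ h2]
      linarith)
    refine hcore K L c R r J (Ph F c lam) (lam ^ 2) (lam ^ 2 * b) 0 J hTwF hΦ hbΦ (by omega) le_rfl
      ?_ ?_ (hpow β (by omega)) hA hC' hD'
    · rw [habv]
      simp
    · rw [hem0]
      exact hdepth β (by omega)
  · -- the general case
    obtain ⟨h₀, hh1, hh2⟩ := hC.agr1 hN hq hb hlam0 hK hδl
    obtain ⟨K', hK'⟩ : ∃ K', K' = K.filter (fun x => h₀ ≤ x 0) := ⟨_, rfl⟩
    obtain ⟨a, X, hJX, hXJ, habv, hXT, hlev⟩ := hsel (Ph F c lam) K' (lam ^ 2) (lam ^ 2 * b) hΦ hbΦ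
      (by
        intro x hx
        rw [hK', mem_filter] at hx
        exact (hh1 x hx.2).1 hx.1) J (by omega) hJ1 (hdepth β₀ (by omega))
    have ha0 : h₀ ≤ a 0 := by
      have := hlev hm 0 rfl (h₀ + 1) hh2
      omega
    have hX1 : 1 ≤ X := hJ1.trans hJX
    have hX1r : (1 : ℝ) ≤ X := by exact_mod_cast hX1
    have hXr : X ^ β ≤ r := by
      calc X ^ β ≤ (J ^ γ₀) ^ β := Nat.pow_le_pow_left hXJ _
        _ = J ^ (γ₀ * β) := by rw [← pow_mul]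
        _ ≤ r := hpow _ (by omega)
    have habv' : (abv K m a).card ≤ X := by
      refine le_trans (card_le_card ?_) habv
      rw [hK']
      exact abv_filter ha0
    have hXT' : (X : ℝ) ^ β ≤ lam ^ 2 - mg (Ph F c lam) m (em a) :=
      (pow_le_pow_right₀ hX1r (by omega)).trans hXT
    have hXs : 4 + 320 * M + 4 * μ ≤ (X : ℝ) := by
      have h1 : ⌈4 + 320 * M + 4 * μ⌉₊ ≤ X := by omega
      exact (Nat.le_ceil _).trans (by exact_mod_cast h1)
    have hXe : (1 : ℝ) ≤ (X : ℝ) ^ (2 * eE) := one_le_pow₀ hX1r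
    have hM0 : 0 < M := hμ.trans hM
    have hs2 : 4 + 20 * (4 * M) * (((2 * X ^ eE : ℕ) : ℝ)) ^ 2 + 4 * μ ≤
        lam ^ 2 - mg (Ph F c lam) m (em a) := by
      refine le_trans ?_ hXT
      have h1 : (((2 * X ^ eE : ℕ) : ℝ)) ^ 2 = 4 * (X : ℝ) ^ (2 * eE) := by
        push_cast
        rw [mul_pow, ← pow_mul, mul_comm eE 2]
        norm_num
      rw [h1]
      calc 4 + 20 * (4 * M) * (4 * (X : ℝ) ^ (2 * eE)) + 4 * μ
          ≤ (4 + 320 * M + 4 * μ) * (X : ℝ) ^ (2 * eE) := by nlinarith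
        _ ≤ X * (X : ℝ) ^ (2 * eE) := mul_le_mul_of_nonneg_right hXs (by positivity)
        _ = (X : ℝ) ^ (2 * eE + 1) := (pow_succ' _ _).symm
        _ ≤ (X : ℝ) ^ (β + 2 * eE + 2) := pow_le_pow_right₀ hX1r (by omega)
    have hs1 : 4 + 20 * (4 * M) * ((1 : ℕ) : ℝ) ^ 2 + 4 * μ ≤
        lam ^ 2 - mg (Ph F c lam) m (em a) := by
      refine le_trans ?_ hs2
      have h1 : (1 : ℝ) ≤ ((2 * X ^ eE : ℕ) : ℝ) := by
        have : 1 ≤ 2 * X ^ eE := by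
          have := Nat.one_le_pow eE X hX1
          omega
        exact_mod_cast this
      have h2 : ((1 : ℕ) : ℝ) ^ 2 ≤ (((2 * X ^ eE : ℕ) : ℝ)) ^ 2 := by
        rw [Nat.cast_one]
        exact pow_le_pow_left₀ zero_le_one h1 2
      have h3 := mul_le_mul_of_nonneg_left h2 (show (0 : ℝ) ≤ 20 * (4 * M) by linarith)
      linarith
    have hagr : ∀ x : Fin (m + 2) → ℤ, (∀ i : Fin (m + 2), i.1 < m → x i = a i) →
        (x ∈ K ↔ Ph F c lam (em x) ≤ lam ^ 2) := by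
      intro x hx
      refine hh1 x ?_
      rw [hx 0 hm]
      exact ha0
    have hs0 : 1 ≤ 2 * X ^ eE := by
      have := Nat.one_le_pow eE X hX1
      omega
    have hFA : FA.Le (1 : ℕ) := by
      unfold FA Fr.Le
      norm_num
    refine hcore K L c R r J (Ph F c lam) (lam ^ 2) (lam ^ 2 * b) a X hTwF hΦ hbΦ (by omega) hJX
      habv' hXT' hXr ?_ ?_ ?_
    · exact Agr.of_level hΦ (by linarith) (by linarith) hbΦ hFA le_rfl hs1 hagr
    · exact Agr.of_level hΦ (by linarith) (by linarith) hbΦ (FC_le hs0) hs0 hs2 hagr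
    · exact Agr.of_level hΦ (by linarith) (by linarith) hbΦ (FD_le hs0) hs0 hs2 hagr

end Pool.Agent.Lib.MP_8cf263_co
end
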