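import Pool.Agent.Lib.MP_8cf263_co.RsUni
import Pool.Agent.Lib.MP_8cf263_co.RsNorm

section

/-!
# One round spot, file RsDir: a norm with a round spot in normal position

`spot_lin`.  Let `A B = B A = 1`, `A 0 i = u i`, `N q₀ = 1`, `em u ⬝ᵥ x ≤ (em u ⬝ᵥ q₀) N x` for all `x`,
`Pin (N ^ 2) q₀ r μ M`, `0 < r`, `0 < μ`.  Then `N' x = N (rm B x)` with `q' = rm A q₀` is a `Spot`.
`nrm`: `rm_add`, `rm_smul`, `rm_rm`.  `one`: `rm B (rm A q₀) = q₀`.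
`sup`: `(rm A y) 0 = em u ⬝ᵥ y`; with `y = rm B x`, `x = rm A y`: `x 0 = em u ⬝ᵥ y ≤ (em u ⬝ᵥ q₀) N y`.
`pin`: let `C_A`, `C_B ≥ 1` be the constants of `rm_bd` for `A`, `B`; `ρ' = r / (4 √C_B)`,
`μ' = μ / C_A`, `M' = |M| C_B + μ' + 1`.  If `x ∈ Bl q' (4 ρ')` then
`|rm B x - q₀| ^ 2 = |rm B (x - q')| ^ 2 ≤ C_B (4 ρ') ^ 2 = r ^ 2`; and
`y ⬝ᵥ y = rm A (rm B y) ⬝ᵥ .. ≤ C_A (rm B y ⬝ᵥ rm B y)`, `rm B y ⬝ᵥ rm B y ≤ C_B (y ⬝ᵥ y)`.
-/

set_option autoImplicit false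

namespace Pool.Agent.Lib.MP_8cf263_co

variable {m : ℕ} {N : (Fin (m + 2) → ℝ) → ℝ} {μ M : ℝ}

theorem spot_lin (hN : Nrm N) {A B : Matrix (Fin (m + 2)) (Fin (m + 2)) ℤ} (hAB : A * B = 1)
    (hBA : B * A = 1) {u : Fin (m + 2) → ℤ} (hA : ∀ i, A 0 i = u i) {q₀ : Fin (m + 2) → ℝ} {r : ℝ}
    (hr : 0 < r) (hμ : 0 < μ) (h1 : N q₀ = 1) (hu : ∀ x, em u ⬝ᵥ x ≤ (em u ⬝ᵥ q₀) * N x)
    (hp : Pin (fun x => N x ^ 2) q₀ r μ M) :
    ∃ ρ' μ' M' : ℝ, Spot (fun x => N (rm B x)) (rm A q₀) ρ' μ' M' := by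
  obtain ⟨CA, hCA, hA'⟩ := rm_bd A
  obtain ⟨CB, hCB, hB'⟩ := rm_bd B
  have hCA0 : 0 < CA := by linarith
  have hCB0 : 0 < CB := by linarith
  have hz : ∀ y : Fin (m + 2) → ℝ, (rm A y) 0 = em u ⬝ᵥ y := by
    intro y
    have h : (rm A y) 0 = ∑ i, (A.map (fun z : ℤ => (z : ℝ))) 0 i * y i := rfl
    rw [h]
    show _ = ∑ i, em u i * y i
    exact Finset.sum_congr rfl fun i _ => by
      rw [Matrix.map_apply, hA]
      rfl
  have hBAq : rm B (rm A q₀) = q₀ := rm_rm hBA q₀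
  have hnn : ∀ y : Fin (m + 2) → ℝ, 0 ≤ y ⬝ᵥ y := fun y =>
    Finset.sum_nonneg fun i _ => mul_self_nonneg _
  have hs : 0 < Real.sqrt CB := Real.sqrt_pos.2 hCB0
  have hss : Real.sqrt CB ^ 2 = CB := Real.sq_sqrt hCB0.le
  have hball : ∀ x, Bl (rm A q₀) (4 * (r / (4 * Real.sqrt CB))) x → Bl q₀ r (rm B x) := by
    intro x hx
    unfold Bl at hx ⊢
    have e1 : rm B x - q₀ = rm B (x - rm A q₀) := by
      rw [rm_sub, hBAq]
    rw [e1]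
    have e2 : (4 * (r / (4 * Real.sqrt CB))) ^ 2 = r ^ 2 / CB := by
      have e3 : 4 * (r / (4 * Real.sqrt CB)) = r / Real.sqrt CB := by field_simp
      rw [e3, div_pow, hss]
    rw [e2] at hx
    calc rm B (x - rm A q₀) ⬝ᵥ rm B (x - rm A q₀) ≤ CB * ((x - rm A q₀) ⬝ᵥ (x - rm A q₀)) := hB' _
      _ ≤ CB * (r ^ 2 / CB) := mul_le_mul_of_nonneg_left hx hCB0.le
      _ = r ^ 2 := by field_simp
  have hlow : ∀ y : Fin (m + 2) → ℝ, y ⬝ᵥ y ≤ CA * (rm B y ⬝ᵥ rm B y) := by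
    intro y
    have h := hA' (rm B y)
    rwa [rm_rm hAB] at h
  refine ⟨r / (4 * Real.sqrt CB), μ / CA, |M| * CB + μ / CA + 1, ?_, ?_, ?_, ?_, ?_, ?_, ?_⟩
  · refine ⟨fun x => hN.nn _, fun x hx => ?_, fun t x => ?_, fun x y => ?_⟩
    · have h := hN.z _ hx
      have h2 := rm_rm hAB x
      rw [h] at h2
      rw [← h2]
      have h3 := rm_smul A 0 0
      rw [zero_smul, zero_smul] at h3
      exact h3
    · show N (rm B (t • x)) = |t| * N (rm B x)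
      rw [rm_smul]
      exact hN.sm t _
    · show N (rm B (x + y)) ≤ N (rm B x) + N (rm B y)
      rw [rm_add]
      exact hN.tri _ _
  · show N (rm B (rm A q₀)) = 1
    rw [hBAq]
    exact h1
  · intro x
    show x 0 ≤ (rm A q₀) 0 * N (rm B x)
    have h := hu (rm B x)
    rw [← hz, ← hz, rm_rm hAB] at h
    exact h
  · refine ⟨fun x y hx hxy hxy' => ?_, fun x y hx hxy hxy' => ?_⟩
    · have a1 := hball _ hx
      have a2 := hball _ hxy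
      have a3 := hball _ hxy'
      rw [rm_add] at a2
      rw [rm_sub] at a3
      have h := hp.lo _ _ a1 a2 a3
      show 2 * (μ / CA) * (y ⬝ᵥ y) ≤
        N (rm B (x + y)) ^ 2 + N (rm B (x - y)) ^ 2 - 2 * N (rm B x) ^ 2
      rw [rm_add, rm_sub]
      refine le_trans ?_ h
      have h2 : (μ / CA) * (y ⬝ᵥ y) ≤ μ * (rm B y ⬝ᵥ rm B y) := by
        rw [div_mul_eq_mul_div, div_le_iff₀ hCA0]
        have h3 := mul_le_mul_of_nonneg_left (hlow y) hμ.le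
        linarith
      linarith
    · have a1 := hball _ hx
      have a2 := hball _ hxy
      have a3 := hball _ hxy'
      rw [rm_add] at a2
      rw [rm_sub] at a3
      have h := hp.up _ _ a1 a2 a3
      show N (rm B (x + y)) ^ 2 + N (rm B (x - y)) ^ 2 - 2 * N (rm B x) ^ 2 ≤
        2 * (|M| * CB + μ / CA + 1) * (y ⬝ᵥ y)
      rw [rm_add, rm_sub]
      refine le_trans h ?_
      have h2 : M * (rm B y ⬝ᵥ rm B y) ≤ |M| * CB * (y ⬝ᵥ y) := by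
        calc M * (rm B y ⬝ᵥ rm B y) ≤ |M| * (rm B y ⬝ᵥ rm B y) :=
              mul_le_mul_of_nonneg_right (le_abs_self M) (hnn _)
          _ ≤ |M| * (CB * (y ⬝ᵥ y)) := mul_le_mul_of_nonneg_left (hB' y) (abs_nonneg M)
          _ = |M| * CB * (y ⬝ᵥ y) := by ring
      have h3 : 0 ≤ (μ / CA + 1) * (y ⬝ᵥ y) := mul_nonneg (by positivity) (hnn y)
      nlinarith
  · positivity
  · positivity
  · have h2 : 0 ≤ |M| * CB := mul_nonneg (abs_nonneg M) hCB0.le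
    linarith

/-- the three steps together -/
theorem spot_exists (hN : Nrm N) {U : Set (Fin (m + 2) → ℝ)} (hU : IsOpen U) (hne : U.Nonempty)
    (hμ : 0 < μ) (hp : ∀ x y, x ∈ U → x + y ∈ U → x - y ∈ U →
      2 * μ * (y ⬝ᵥ y) ≤ N (x + y) ^ 2 + N (x - y) ^ 2 - 2 * N x ^ 2 ∧
      N (x + y) ^ 2 + N (x - y) ^ 2 - 2 * N x ^ 2 ≤ 2 * M * (y ⬝ᵥ y)) :
    ∃ (A B : Matrix (Fin (m + 2)) (Fin (m + 2)) ℤ) (q' : Fin (m + 2) → ℝ) (ρ' μ' M' : ℝ),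
      A * B = 1 ∧ B * A = 1 ∧ Spot (fun x => N (rm B x)) q' ρ' μ' M' := by
  obtain ⟨q₁, r, hr, h1, h2⟩ := round_pt hN hU hne hp
  obtain ⟨u, q₀, hu, h3, h4, h5⟩ := dir hN hr hμ h1 h2
  obtain ⟨A, B, hAB, hBA, hA⟩ := unimod u hu
  have hball : ∀ x, Bl q₀ r x → Bl q₁ (4 * r) x := by
    intro x hx
    unfold Bl at hx h5 ⊢
    have e1 : x - q₁ = (x - q₀) + (q₀ - q₁) := by abel
    have h6 : 0 ≤ ((x - q₀) - (q₀ - q₁)) ⬝ᵥ ((x - q₀) - (q₀ - q₁)) :=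
      Finset.sum_nonneg fun i _ => mul_self_nonneg _
    rw [e1]
    simp only [add_dotProduct, dotProduct_add, sub_dotProduct, dotProduct_sub] at h6 hx h5 ⊢
    nlinarith
  obtain ⟨ρ', μ', M', h6⟩ := spot_lin (M := M) hN hAB hBA hA hr hμ h3 h4
    ⟨fun x y hx hxy hxy' => h2.lo x y (hball _ hx) (hball _ hxy) (hball _ hxy'),
      fun x y hx hxy hxy' => h2.up x y (hball _ hx) (hball _ hxy) (hball _ hxy')⟩
  exact ⟨A, B, rm A q₀, ρ', μ', M', hAB, hBA, h6⟩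

end Pool.Agent.Lib.MP_8cf263_co
end

section

/-!
# One round spot, file RsMain: the main theorem
-/

set_option autoImplicit false

namespace Pool.Agent.Lib.MP_8cf263_co

open Finset

theorem vs_map {n : ℕ} {A B : Matrix (Fin n) (Fin n) ℤ} (hBA : B * A = 1) (c y : Fin n → ℤ) :
    vs c (B.mulVec y) = B.mulVec (vs (A.mulVec c) y) := by
  have h1 : vs (A.mulVec c) y = (2 : ℤ) • y - A.mulVec c := by
    funext i
    simp [vs]
  have h2 : vs c (B.mulVec y) = (2 : ℤ) • B.mulVec y - c := by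
    funext i
    simp [vs]
  rw [h1, h2, Matrix.mulVec_sub, Matrix.mulVec_smul, Matrix.mulVec_mulVec, hBA, Matrix.one_mulVec]

theorem round_spot (m : ℕ) {N : (Fin (m + 2) → ℝ) → ℝ} (hN : Nrm N)
    {U : Set (Fin (m + 2) → ℝ)} (hU : IsOpen U) (hne : U.Nonempty) {μ M : ℝ} (hμ : 0 < μ)
    (hp : ∀ x y, x ∈ U → x + y ∈ U → x - y ∈ U →
      2 * μ * (y ⬝ᵥ y) ≤ N (x + y) ^ 2 + N (x - y) ^ 2 - 2 * N x ^ 2 ∧
      N (x + y) ^ 2 + N (x - y) ^ 2 - 2 * N x ^ 2 ≤ 2 * M * (y ⬝ᵥ y)) :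
    ∃ lam₀ : ℝ, ∀ lam : ℝ, lam₀ ≤ lam → ∀ (c : Fin (m + 2) → ℤ)
      (K L : Finset (Fin (m + 2) → ℤ)), Tw K L c → (∀ x, x ∈ K ↔ N (em (vs c x)) ≤ lam) →
      K = L := by
  obtain ⟨A, B, q', ρ', μ', M', hAB, hBA, hS⟩ := spot_exists hN hU hne hμ hp
  obtain ⟨lam₀, h⟩ := spot_norm m hS
  refine ⟨lam₀, fun lam hlam c K L hTw hK => ?_⟩
  have hinj : Function.Injective (fun x : Fin (m + 2) → ℤ => A.mulVec x) := by
    intro x y hxy
    have h1 := congrArg B.mulVec hxy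
    simpa [Matrix.mulVec_mulVec, hBA] using h1
  have h1 := h lam hlam (A.mulVec c) _ _ (hTw.map hAB hBA) (by
    intro y
    rw [mem_image, rm_em, ← vs_map hBA, ← hK]
    constructor
    · rintro ⟨x, hx, rfl⟩
      rw [Matrix.mulVec_mulVec, hBA, Matrix.one_mulVec]
      exact hx
    · intro hy
      refine ⟨B.mulVec y, hy, ?_⟩
      rw [Matrix.mulVec_mulVec, hAB, Matrix.one_mulVec])
  exact image_injective hinj h1

end Pool.Agent.Lib.MP_8cf263_co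
end
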