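import Pool.Agent.Lib.MP_8cf263_co.RpDefs
import Pool.Agent.Lib.MP_8cf263_co.RdPoleA
import Pool.Agent.Lib.MP_8cf263_co.Face

section

/-!
# Polytopes, file RpVis: what visible sums say if `K` and `L` differ in few points

`Fv_zero`.  Let `Pr (s - c)` and let `s` not be a sum of two points of `K Δ L`.  Then `Fv K L s = 0`.
Proof.  For `A ∈ {K, L}` the number `r A = #{x ∈ A : s - x ∈ A}` is `(fol A (s - c)).card`: the map
`x ↦ c - x` (or `x ↦ s - x`) does it, since `c - (s - x) = x - (s - c)` (`h.sK`, `h.sL`); compare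
`rp_eq` in file Row.  So `r K = r L` (`h.cnt`).  Let `I = K ∩ L`, `a = #{x ∈ I : s - x ∈ I}`,
`p = #{x ∈ K \ L : s - x ∈ K}`, `q = #{x ∈ L \ K : s - x ∈ K}`.  If `x ∈ K \ L` and `s - x ∈ K` then
`s - x ∈ L`, because otherwise `x + (s - x) = s` is a sum of two points of `K Δ L`; so
`#{x ∈ K \ L : s - x ∈ K} = #{x ∈ K \ L : s - x ∈ I}`, and by the involution `x ↦ s - x` this is
`#{x ∈ I : s - x ∈ K \ L}`.  Hence `r K = a + 2 p` (split `K` into `I` and `K \ L`, twice).  In the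
same way, if `x ∈ L \ K` then `s - x ∈ L` iff `s - x ∈ I` iff `s - x ∈ K`, and `r L = a + 2 q`.
So `p = q`.

`TwF.run0`.  Let `K` and `L` differ in at most `N` points, `e` primitive and not parallel to
`s - c`, coordinates at most `10 R`.  Then there is `t` in any interval of `(N ^ 2 + 1) J` integers with
`Fv K L (s + t • e) = 0`.
Proof.  For `k = 0, ..., N ^ 2` there is `t_k ∈ [t₀ + k J, t₀ + (k + 1) J)` with
`Pr (s - c + t_k • e)` (`TwF.vis`).  The points `s + t_k • e` are different (`e ≠ 0`), and there are at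
most `N ^ 2` sums of two points of `S = (K \ L) ∪ (L \ K)`, `|S| ≤ N`; so for some `k` the point
`s + t_k • e` is not such a sum, and `Fv_zero` applies.

`TwF.sumK`.  Let `(K \ L).card ≤ N`, `y ∈ L`, `w + t e ∈ K` for `0 ≤ t < (N + 1) J`, `e` primitive, not
parallel to `y + w - c`, `|e i| ≤ 10 R`.  Then `y + (w + t e)` is a sum of two points of `K` for some of
these `t`.
Proof.  For `k = 0, ..., N` there is `t_k ∈ [k J, (k + 1) J)` with `Pr (y + w - c + t_k • e)`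
(`TwF.vis`; `2 (y + w - c) i = vs c y i + vs c w i` is at most `5 R + R` in absolute value by `outU`,
`out`).  The `N + 1` different points `w + t_k e` of `K` are not all in `K \ L`; so one of them is in
`L`, and `h.tw.symm.vis` applies to `y` and `w + t_k e`.
-/

set_option autoImplicit false

namespace Pool.Agent.Lib.MP_8cf263_co

open Finset

private theorem rep_fol {n : ℕ} {A : Finset (Fin n → ℤ)} {c : Fin n → ℤ}
    (hA : ∀ x, x ∈ A ↔ c - x ∈ A) (s : Fin n → ℤ) :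
    (A.filter fun x => s - x ∈ A).card = (fol A (s - c)).card := by
  classical
  unfold fol
  refine Finset.card_bij (fun x _ => c - x) ?_ ?_ ?_
  · intro x hx
    rw [mem_filter] at hx ⊢
    refine ⟨(hA x).1 hx.1, ?_⟩
    have h1 : c - x + (s - c) = s - x := by abel
    rw [h1]
    exact hx.2
  · intro x _ y _ hxy
    exact sub_right_injective hxy
  · intro y hy
    rw [mem_filter] at hy
    refine ⟨c - y, ?_, by abel⟩
    rw [mem_filter]
    refine ⟨(hA y).1 hy.1, ?_⟩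
    have h1 : s - (c - y) = y + (s - c) := by abel
    rw [h1]
    exact hy.2

private theorem split_rep {n : ℕ} (A B : Finset (Fin n → ℤ)) (s : Fin n → ℤ)
    (hs : ∀ x ∈ A \ B, s - x ∈ A → s - x ∈ B) :
    (A.filter fun x => s - x ∈ A).card =
      ((A ∩ B).filter fun x => s - x ∈ A ∩ B).card +
        2 * ((A \ B).filter fun x => s - x ∈ A ∩ B).card := by
  classical
  have e1 : (A.filter fun x => s - x ∈ A) =
      (((A ∩ B).filter fun x => s - x ∈ A ∩ B) ∪ ((A ∩ B).filter fun x => s - x ∈ A \ B)) ∪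
        ((A \ B).filter fun x => s - x ∈ A ∩ B) := by
    ext x
    simp only [mem_filter, mem_union, mem_inter, mem_sdiff]
    constructor
    · rintro ⟨h1, h2⟩
      by_cases h3 : x ∈ B
      · by_cases h4 : s - x ∈ B
        · exact Or.inl (Or.inl ⟨⟨h1, h3⟩, h2, h4⟩)
        · exact Or.inl (Or.inr ⟨⟨h1, h3⟩, h2, h4⟩)
      · exact Or.inr ⟨⟨h1, h3⟩, h2, hs x (mem_sdiff.2 ⟨h1, h3⟩) h2⟩
    · rintro ((⟨h1, h2⟩ | ⟨h1, h2⟩) | ⟨h1, h2⟩)
      · exact ⟨h1.1, h2.1⟩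
      · exact ⟨h1.1, h2.1⟩
      · exact ⟨h1.1, h2.1⟩
  have e2 : ((A ∩ B).filter fun x => s - x ∈ A \ B).card =
      ((A \ B).filter fun x => s - x ∈ A ∩ B).card := by
    refine Finset.card_bij (fun x _ => s - x) ?_ ?_ ?_
    · intro x hx
      rw [mem_filter] at hx ⊢
      refine ⟨hx.2, ?_⟩
      rw [sub_sub_cancel]
      exact hx.1
    · intro x _ y _ hxy
      exact sub_right_injective hxy
    · intro y hy
      rw [mem_filter] at hy
      refine ⟨s - y, ?_, sub_sub_cancel _ _⟩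
      rw [mem_filter, sub_sub_cancel]
      exact ⟨hy.2, hy.1⟩
  have d1 : Disjoint ((A ∩ B).filter fun x => s - x ∈ A ∩ B)
      ((A ∩ B).filter fun x => s - x ∈ A \ B) := by
    rw [Finset.disjoint_left]
    intro x hx hx'
    rw [mem_filter, mem_inter] at hx
    rw [mem_filter, mem_sdiff] at hx'
    rw [mem_inter] at hx
    exact hx'.2.2 hx.2.2
  have d2 : Disjoint (((A ∩ B).filter fun x => s - x ∈ A ∩ B) ∪
      ((A ∩ B).filter fun x => s - x ∈ A \ B)) ((A \ B).filter fun x => s - x ∈ A ∩ B) := by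
    rw [Finset.disjoint_left]
    intro x hx hx'
    rw [mem_filter, mem_sdiff] at hx'
    rw [mem_union, mem_filter, mem_filter, mem_inter] at hx
    rcases hx with hx | hx
    · exact hx'.1.2 hx.1.2
    · exact hx'.1.2 hx.1.2
  rw [e1, card_union_of_disjoint d2, card_union_of_disjoint d1, e2]
  ring

theorem Fv_zero {n : ℕ} {K L : Finset (Fin n → ℤ)} {c : Fin n → ℤ} (h : Tw K L c)
    {s : Fin n → ℤ} (hs : Pr (s - c)) (hsum : ∀ x y, Df K L x → Df K L y → x + y ≠ s) :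
    Fv K L s = 0 := by
  classical
  have hcnt := h.cnt (s - c) hs
  rw [← rep_fol h.sK s, ← rep_fol h.sL s] at hcnt
  have h1 : ∀ x ∈ K \ L, s - x ∈ K → s - x ∈ L := by
    intro x hx hx'
    rw [mem_sdiff] at hx
    by_contra hcon
    refine hsum x (s - x) ?_ ?_ (by abel)
    · intro hiff
      exact hx.2 (hiff.1 hx.1)
    · intro hiff
      exact hcon (hiff.1 hx')
  have h2 : ∀ x ∈ L \ K, s - x ∈ L → s - x ∈ K := by
    intro x hx hx'
    rw [mem_sdiff] at hx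
    by_contra hcon
    refine hsum x (s - x) ?_ ?_ (by abel)
    · intro hiff
      exact hx.2 (hiff.2 hx.1)
    · intro hiff
      exact hcon (hiff.2 hx')
  have h2' : ∀ x ∈ L \ K, s - x ∈ K → s - x ∈ L := by
    intro x hx hx'
    rw [mem_sdiff] at hx
    by_contra hcon
    refine hsum x (s - x) ?_ ?_ (by abel)
    · intro hiff
      exact hx.2 (hiff.2 hx.1)
    · intro hiff
      exact hcon (hiff.1 hx')
  have e1 := split_rep K L s h1
  have e2 := split_rep L K s h2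
  rw [inter_comm L K] at e2
  have e3 : ((K \ L).filter fun x => s - x ∈ K) = ((K \ L).filter fun x => s - x ∈ K ∩ L) := by
    refine filter_congr fun x hx => ?_
    rw [mem_inter]
    exact ⟨fun h3 => ⟨h3, h1 x hx h3⟩, fun h3 => h3.1⟩
  have e4 : ((L \ K).filter fun x => s - x ∈ K) = ((L \ K).filter fun x => s - x ∈ K ∩ L) := by
    refine filter_congr fun x hx => ?_
    rw [mem_inter]
    exact ⟨fun h3 => ⟨h3, h2' x hx h3⟩, fun h3 => h3.1⟩
  unfold Fv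
  rw [e3, e4]
  omega

/-- few points of a set on a line of visible points -/
private theorem few_line {n : ℕ} {a e : Fin n → ℤ} (he : Pr e) {P : ℤ → Prop} {J M : ℕ}
    (t₀ : ℤ) (hP : ∀ u : ℤ, ∃ t : ℤ, u ≤ t ∧ t < u + J ∧ P t)
    {S : Finset (Fin n → ℤ)} (hS : S.card ≤ M) :
    ∃ t : ℤ, t₀ ≤ t ∧ t < t₀ + ((M + 1) * J : ℕ) ∧ P t ∧ a + t • e ∉ S := by
  classical
  by_contra hcon
  push Not at hcon
  choose T hT1 hT2 hT3 using hP
  have he0 : e ≠ 0 := he.ne_zero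
  have hlt : ∀ k ∈ range (M + 1), T (t₀ + k * J) < t₀ + ((M + 1) * J : ℕ) ∧
      t₀ ≤ T (t₀ + k * J) := by
    intro k hk
    rw [mem_range] at hk
    have h1 := hT1 (t₀ + k * J)
    have h2 := hT2 (t₀ + k * J)
    have h3 : ((k : ℤ) + 1) * J ≤ ((M : ℤ) + 1) * J := by
      refine mul_le_mul_of_nonneg_right ?_ (Int.natCast_nonneg _)
      have : k + 1 ≤ M + 1 := hk
      exact_mod_cast this
    have h4 : (0 : ℤ) ≤ (k : ℤ) * J := by positivity
    push_cast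
    constructor
    · linarith
    · linarith
  have hmap : ∀ k ∈ range (M + 1), a + T (t₀ + k * J) • e ∈ S := by
    intro k hk
    obtain ⟨h1, h2⟩ := hlt k hk
    exact hcon _ h2 h1 (hT3 _)
  have hinj : Set.InjOn (fun k : ℕ => a + T (t₀ + k * J) • e) (range (M + 1) : Set ℕ) := by
    intro k _ l _ hkl
    have h1 : T (t₀ + k * J) • e = T (t₀ + l * J) • e := add_left_cancel hkl
    have h2 : T (t₀ + k * J) = T (t₀ + l * J) := smul_left_injective ℤ he0 h1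
    have hmono : ∀ k l : ℕ, k < l → T (t₀ + k * J) < T (t₀ + l * J) := by
      intro k l hkl
      have h3 := hT2 (t₀ + k * J)
      have h4 := hT1 (t₀ + l * J)
      have h5 : ((k : ℤ) + 1) * J ≤ (l : ℤ) * J := by
        refine mul_le_mul_of_nonneg_right ?_ (Int.natCast_nonneg _)
        exact_mod_cast hkl
      linarith
    rcases lt_trichotomy k l with h3 | h3 | h3
    · exact absurd h2 (hmono k l h3).ne
    · exact h3
    · exact absurd h2.symm (hmono l k h3).ne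
  have h1 := card_le_card_of_injOn _ hmap hinj
  rw [card_range] at h1
  omega

theorem TwF.run0 {n : ℕ} {K L : Finset (Fin n → ℤ)} {c : Fin n → ℤ} {R r J kap : ℕ}
    (h : TwF K L c R r J kap) {N : ℕ} (hN : (K \ L).card + (L \ K).card ≤ N)
    {s e : Fin n → ℤ} (he : Pr e) (hs : ∀ i, |(s - c) i| ≤ 10 * R) (hee : ∀ i, |e i| ≤ 10 * R)
    (hnc : ∃ i j, (s - c) i * e j - (s - c) j * e i ≠ 0) (t₀ : ℤ) :
    ∃ t : ℤ, t₀ ≤ t ∧ t < t₀ + ((N ^ 2 + 1) * J : ℕ) ∧ Fv K L (s + t • e) = 0 := by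
  classical
  obtain ⟨D, hD⟩ : ∃ D : Finset (Fin n → ℤ), D = (K \ L) ∪ (L \ K) := ⟨_, rfl⟩
  have hDc : D.card ≤ N := by
    rw [hD]
    exact (card_union_le _ _).trans hN
  have hDm : ∀ x, Df K L x → x ∈ D := by
    intro x hx
    rw [hD, mem_union, mem_sdiff, mem_sdiff]
    unfold Df at hx
    tauto
  have hS : (((D ×ˢ D).image fun q => q.1 + q.2)).card ≤ N ^ 2 := by
    refine card_image_le.trans ?_
    rw [card_product, pow_two]
    exact Nat.mul_le_mul hDc hDc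
  obtain ⟨t, h1, h2, h3, h4⟩ := few_line (a := s) he t₀ (h.vis he hs hee hnc) hS
  refine ⟨t, h1, h2, Fv_zero h.tw ?_ ?_⟩
  · have h5 : s + t • e - c = s - c + t • e := by abel
    rw [h5]
    exact h3
  · intro x y hx hy hxy
    apply h4
    rw [mem_image]
    exact ⟨(x, y), mem_product.2 ⟨hDm x hx, hDm y hy⟩, hxy⟩

theorem TwF.sumK {n : ℕ} {K L : Finset (Fin n → ℤ)} {c : Fin n → ℤ} {R r J kap : ℕ}
    (h : TwF K L c R r J kap) {N : ℕ} (hN : (K \ L).card ≤ N) {y w e : Fin n → ℤ} (hy : y ∈ L)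
    (he : Pr e) (hrun : ∀ t : ℤ, 0 ≤ t → t < ((N + 1) * J : ℕ) → w + t • e ∈ K)
    (hee : ∀ i, |e i| ≤ 10 * R) (hnc : ∃ i j, (y + w - c) i * e j - (y + w - c) j * e i ≠ 0) :
    ∃ t : ℤ, 0 ≤ t ∧ t < ((N + 1) * J : ℕ) ∧ ∃ x' ∈ K, ∃ y' ∈ K, x' + y' = y + (w + t • e) := by
  classical
  have hw : w ∈ K := by
    have h1 := hrun 0 le_rfl (by
      have : 0 < (N + 1) * J := Nat.mul_pos (Nat.succ_pos _) h.J1
      exact_mod_cast this)
    rwa [zero_smul, add_zero] at h1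
  have hb : ∀ i, |(y + w - c) i| ≤ 10 * R := by
    intro i
    have h1 := h.outU (mem_union_right _ hy) i
    have h2 := h.out w hw i
    have h3 : 2 * (y + w - c) i = vs c y i + vs c w i := by
      simp only [vs, Pi.add_apply, Pi.sub_apply]
      ring
    have h4 := abs_le.1 h1
    have h5 := abs_le.1 h2
    rw [abs_le]
    constructor <;> linarith [h4.1, h4.2, h5.1, h5.2, (Int.natCast_nonneg R)]
  obtain ⟨t, h1, h2, h3, h4⟩ := few_line (a := w) he 0 (h.vis he hb hee hnc) hN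
  rw [zero_add] at h2
  have h5 : w + t • e ∈ L := by
    by_contra hcon
    exact h4 (mem_sdiff.2 ⟨hrun t h1 h2, hcon⟩)
  obtain ⟨x', hx', y', hy', hxy⟩ := h.tw.symm.vis h3 hy h5 (by abel)
  refine ⟨t, h1, h2, x', hx', y', hy', ?_⟩
  have h6 : x' + y' = (x' + y' - c) + c := by abel
  rw [h6, hxy]
  abel

end Pool.Agent.Lib.MP_8cf263_co
end

section

/-!
# Polytopes, file RpDio: runs of lattice points below a hyperplane with a Diophantine normal

`dio_run`.  Let `φ` be Diophantine, `∑ |φ i| ≤ D`, `0 < δ ≤ 1`, `8 D (ell + 2) ≤ δ Q`, `p` a real point,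
`c`, `s` integer vectors.  Then there are integer vectors `w`, `e`, `e` primitive, `|e i| ≤ Q`, `e` not
parallel to `s + w`, such that for `0 ≤ t ≤ ell` the point `vs c (w + t • e)` satisfies
`φ ⬝ᵥ p - δ ≤ φ ⬝ᵥ vs c (w + t • e) ≤ φ ⬝ᵥ p` and is at distance at most
`3 + 2 Q (2 D ^ 2 Q ^ A + ell + 3)` from `p` (in every coordinate).

Proof.  (1) There is an integer vector `z ≠ 0` with `|z i| ≤ Q` and `|φ ⬝ᵥ em z| ≤ D / Q`: let `i₀ ≠ i₁`
(`2 ≤ n`), and say `|φ i₁| ≤ |φ i₀|`.  `φ i₀ ≠ 0` by `Dio` for `z = Pi.single i₀ 1`.  `2 ≤ Q`.  By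
`Real.exists_int_int_abs_mul_sub_le (φ i₁ / φ i₀)` with `Q - 1 > 0` there are integers `j`, `k`,
`0 < k ≤ Q - 1`, `|k (φ i₁ / φ i₀) - j| ≤ 1 / Q`; `|j| ≤ k + 1 ≤ Q`.  Put `z i₁ = k`, `z i₀ = - j`,
other coordinates `0`: `|φ ⬝ᵥ em z| = |k φ i₁ - j φ i₀| ≤ |φ i₀| / Q ≤ D / Q`.
(2) `z = g • e` with `e` primitive, `0 < g` (`prim_dir`, file Face); `|e i| ≤ |z i| ≤ Q`,
`|φ ⬝ᵥ em e| ≤ D / Q`; after changing the sign of `e` we have `0 ≤ φ ⬝ᵥ em e`.  Let
`η = 2 φ ⬝ᵥ em e`.  By `Dio` `2 ≤ D η Q ^ A`, so `0 < η`, and `(ell + 2) η ≤ 2 D (ell + 2) / Q ≤ δ / 4`.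
(3) Let `w₁ i = round ((p i + c i) / 2)`, so `|vs c w₁ i - p i| ≤ 1`.  If `s + w₁` is not parallel to
`e` (some minor is not `0`) put `w₂ = w₁`.  Otherwise take `i₀` with `e i₀ ≠ 0`, `l ≠ i₀` and
`w₂ = w₁ + Pi.single l 1`: the minor of `s + w₂`, `e` at `l`, `i₀` is `e i₀ ≠ 0`.  In both cases
`|vs c w₂ i - p i| ≤ 3`, so `v = φ ⬝ᵥ em (vs c w₂) - φ ⬝ᵥ p` has `|v| ≤ 3 D` (`dot_le`).
(4) Let `k = ⌊(- δ / 2 - v) / η⌋`, so `- δ / 2 - η < v + k η ≤ - δ / 2`, and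
`|k| ≤ (|v| + δ / 2) / η + 1 ≤ (3 D + 1 / 2) D Q ^ A / 2 + 1 ≤ 2 D ^ 2 Q ^ A + 1`.  Put `w = w₂ + k • e`;
adding a multiple of `e` does not change the minors with `e`.  For `0 ≤ t ≤ ell`:
`φ ⬝ᵥ em (vs c (w + t • e)) - φ ⬝ᵥ p = v + (k + t) η` (`vs_add`, `em_zsmul`) is at least
`- δ / 2 - η ≥ - δ` and at most `- δ / 2 + ell η ≤ 0`; and
`|vs c (w + t • e) i - p i| ≤ 3 + 2 |k + t| Q ≤ 3 + 2 Q (2 D ^ 2 Q ^ A + 1 + ell)`.
-/

set_option autoImplicit false

namespace Pool.Agent.Lib.MP_8cf263_co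

open Finset

private theorem rpd_single {n : ℕ} (φ : Fin n → ℝ) (i : Fin n) (a : ℤ) :
    φ ⬝ᵥ em (Pi.single i a : Fin n → ℤ) = φ i * a := by
  have h : em (Pi.single i a : Fin n → ℤ) = Pi.single i (a : ℝ) := by
    funext k
    by_cases hk : k = i
    · subst hk
      simp [em]
    · simp [em, Pi.single_eq_of_ne hk]
  rw [h, dotProduct_single]

private theorem rpd_em_add {n : ℕ} (x y : Fin n → ℤ) : em (x + y) = em x + em y := by
  funext i
  simp [em]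

/-- a short integer vector with a small product -/
private theorem rpd_z {n : ℕ} (hn : 2 ≤ n) {φ : Fin n → ℝ} {D : ℝ} {A : ℕ}
    (hφ : ∑ i, |φ i| ≤ D) (hdio : Dio φ D A) {Q : ℕ} (hQ : 2 ≤ Q) :
    ∃ z : Fin n → ℤ, z ≠ 0 ∧ (∀ i, |z i| ≤ (Q : ℤ)) ∧ |φ ⬝ᵥ em z| ≤ D / Q := by
  obtain ⟨i₀, i₁, hne, hle⟩ : ∃ i₀ i₁ : Fin n, i₀ ≠ i₁ ∧ |φ i₁| ≤ |φ i₀| := by
    have h01 : (⟨0, by omega⟩ : Fin n) ≠ ⟨1, by omega⟩ := by
      intro h
      have := congrArg Fin.val h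
      simp at this
    rcases le_total |φ ⟨0, by omega⟩| |φ ⟨1, by omega⟩| with h | h
    · exact ⟨⟨1, by omega⟩, ⟨0, by omega⟩, h01.symm, h⟩
    · exact ⟨⟨0, by omega⟩, ⟨1, by omega⟩, h01, h⟩
  have h0 : φ i₀ ≠ 0 := by
    intro h
    have h1 := hdio (Pi.single i₀ 1) (by
      intro h2
      have := congrFun h2 i₀
      simp at this) 1 (by
      intro k
      by_cases hk : k = i₀
      · subst hk
        simp
      · simp [Pi.single_eq_of_ne hk])
    rw [rpd_single, h] at h1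
    simp at h1
    linarith
  have hp0 : 0 < |φ i₀| := abs_pos.2 h0
  obtain ⟨j, k, hk0, hk1, hjk⟩ := Real.exists_int_int_abs_mul_sub_le (φ i₁ / φ i₀)
    (n := Q - 1) (by omega)
  have hQ1 : ((Q - 1 : ℕ) : ℝ) + 1 = Q := by
    have : Q - 1 + 1 = Q := by omega
    exact_mod_cast this
  rw [hQ1] at hjk
  have hQpos : (0 : ℝ) < Q := by
    have : 0 < Q := by omega
    exact_mod_cast this
  have hkQ : k + 1 ≤ (Q : ℤ) := by omega
  have hξ : |φ i₁ / φ i₀| ≤ 1 := by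
    rw [abs_div, div_le_one hp0]
    exact hle
  have hkR : (0 : ℝ) < (k : ℝ) := by exact_mod_cast hk0
  have hj : |j| ≤ (Q : ℤ) := by
    have h1 : |(j : ℝ)| ≤ (k : ℝ) + 1 := by
      have h2 : |(k : ℝ) * (φ i₁ / φ i₀)| ≤ k := by
        rw [abs_mul, abs_of_pos hkR]
        nlinarith
      have h3 : (1 : ℝ) / Q ≤ 1 := by
        rw [div_le_one hQpos]
        have : 1 ≤ Q := by omega
        exact_mod_cast this
      have h4 : (j : ℝ) = (k : ℝ) * (φ i₁ / φ i₀) - ((k : ℝ) * (φ i₁ / φ i₀) - j) := by ring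
      rw [h4]
      refine (abs_sub _ _).trans ?_
      linarith
    have h5 : |j| ≤ k + 1 := by exact_mod_cast h1
    omega
  refine ⟨Pi.single i₁ k + Pi.single i₀ (-j), ?_, ?_, ?_⟩
  · intro h
    have h1 := congrFun h i₁
    rw [Pi.add_apply, Pi.single_eq_same, Pi.single_eq_of_ne hne.symm, add_zero, Pi.zero_apply] at h1
    omega
  · intro i
    rw [Pi.add_apply]
    by_cases h1 : i = i₁
    · subst h1
      rw [Pi.single_eq_same, Pi.single_eq_of_ne hne.symm, add_zero, abs_of_pos hk0]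
      omega
    · rw [Pi.single_eq_of_ne h1, zero_add]
      by_cases h2 : i = i₀
      · subst h2
        rw [Pi.single_eq_same, abs_neg]
        exact hj
      · rw [Pi.single_eq_of_ne h2]
        simp
  · rw [rpd_em_add, dotProduct_add, rpd_single, rpd_single]
    have h1 : φ i₁ * (k : ℝ) + φ i₀ * ((-j : ℤ) : ℝ) =
        φ i₀ * ((k : ℝ) * (φ i₁ / φ i₀) - j) := by
      push_cast
      field_simp
      ring
    rw [h1, abs_mul]
    have h2 : |φ i₀| ≤ D :=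
      (Finset.single_le_sum (f := fun i => |φ i|) (fun i _ => abs_nonneg _)
        (Finset.mem_univ i₀)).trans hφ
    calc |φ i₀| * |(k : ℝ) * (φ i₁ / φ i₀) - j| ≤ |φ i₀| * (1 / Q) :=
          mul_le_mul_of_nonneg_left hjk hp0.le
      _ ≤ D * (1 / Q) := mul_le_mul_of_nonneg_right h2 (by positivity)
      _ = D / Q := by ring

private theorem rpd_e {n : ℕ} (hn : 2 ≤ n) {φ : Fin n → ℝ} {D : ℝ} {A : ℕ}
    (hφ : ∑ i, |φ i| ≤ D) (hdio : Dio φ D A) {Q : ℕ} (hQ : 2 ≤ Q) :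
    ∃ e : Fin n → ℤ, Pr e ∧ e ≠ 0 ∧ (∀ i, |e i| ≤ (Q : ℤ)) ∧ φ ⬝ᵥ em e ≤ D / Q ∧
      0 ≤ φ ⬝ᵥ em e ∧ 1 ≤ D * (φ ⬝ᵥ em e) * (Q : ℝ) ^ A := by
  obtain ⟨z, hz0, hzQ, hz⟩ := rpd_z hn hφ hdio hQ
  obtain ⟨e, hPr, g, hg, hze, -⟩ := prim_dir hz0
  have he0 : e ≠ 0 := by
    intro h
    apply hz0
    rw [hze, h, smul_zero]
  have heQ : ∀ i, |e i| ≤ (Q : ℤ) := by
    intro i
    refine le_trans ?_ (hzQ i)
    rw [hze, Pi.smul_apply, smul_eq_mul, abs_mul, abs_of_pos hg]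
    nlinarith [abs_nonneg (e i)]
  have hee : |φ ⬝ᵥ em e| ≤ D / Q := by
    refine le_trans ?_ hz
    rw [hze, em_zsmul, dotProduct_smul, smul_eq_mul, abs_mul]
    have h1 : (1 : ℝ) ≤ |(g : ℝ)| := by
      have h2 : (1 : ℝ) ≤ (g : ℝ) := by exact_mod_cast hg
      exact h2.trans (le_abs_self _)
    nlinarith [abs_nonneg (φ ⬝ᵥ em e)]
  have hd := hdio e he0 Q heQ
  rcases le_total 0 (φ ⬝ᵥ em e) with h | h
  · rw [abs_of_nonneg h] at hee hd
    exact ⟨e, hPr, he0, heQ, hee, h, hd⟩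
  · rw [abs_of_nonpos h] at hee hd
    refine ⟨-e, ?_, neg_ne_zero.2 he0, ?_, ?_, ?_, ?_⟩
    · intro d hdv
      refine hPr d fun i => ?_
      have h1 := hdv i
      rw [Pi.neg_apply] at h1
      exact (dvd_neg.1 h1)
    · intro i
      rw [Pi.neg_apply, abs_neg]
      exact heQ i
    · rw [em_neg, dotProduct_neg]
      exact hee
    · rw [em_neg, dotProduct_neg]
      linarith
    · rw [em_neg, dotProduct_neg]
      exact hd

private theorem rpd_w {n : ℕ} (hn : 2 ≤ n) {e : Fin n → ℤ} (he : e ≠ 0) (p : Fin n → ℝ)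
    (c s : Fin n → ℤ) : ∃ w : Fin n → ℤ, (∀ i, |((vs c w i : ℤ) : ℝ) - p i| ≤ 3) ∧
      ∃ i j, (s + w) i * e j - (s + w) j * e i ≠ 0 := by
  obtain ⟨w₁, hw₁⟩ : ∃ w₁ : Fin n → ℤ, ∀ i, |((vs c w₁ i : ℤ) : ℝ) - p i| ≤ 1 := by
    refine ⟨fun i => round ((p i + c i) / 2), fun i => ?_⟩
    have h1 := abs_sub_round ((p i + c i) / 2)
    have h2 : ((vs c (fun i => round ((p i + c i) / 2)) i : ℤ) : ℝ) - p i =
        -(2 * ((p i + c i) / 2 - (round ((p i + c i) / 2) : ℤ))) := by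
      simp only [vs]
      push_cast
      ring
    rw [h2, abs_neg, abs_mul, abs_of_pos (by norm_num : (0 : ℝ) < 2)]
    linarith
  by_cases hpar : ∃ i j, (s + w₁) i * e j - (s + w₁) j * e i ≠ 0
  · exact ⟨w₁, fun i => (hw₁ i).trans (by norm_num), hpar⟩
  · push Not at hpar
    obtain ⟨i₀, l, hl, hi₀⟩ := ax hn he
    refine ⟨w₁ + Pi.single l 1, fun i => ?_, l, i₀, ?_⟩
    · have h1 := congrFun (vs_add c w₁ (Pi.single l 1)) i
      simp only [em, Pi.add_apply, Pi.smul_apply, smul_eq_mul] at h1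
      rw [h1]
      have h2 : |((Pi.single l 1 : Fin n → ℤ) i : ℝ)| ≤ 1 := by
        by_cases hk : i = l
        · subst hk
          simp
        · simp [Pi.single_eq_of_ne hk]
      have h3 : ((vs c w₁ i : ℤ) : ℝ) + 2 * ((Pi.single l 1 : Fin n → ℤ) i : ℝ) - p i =
          (((vs c w₁ i : ℤ) : ℝ) - p i) + 2 * ((Pi.single l 1 : Fin n → ℤ) i : ℝ) := by ring
      rw [h3]
      refine (abs_add_le _ _).trans ?_
      rw [abs_mul, abs_of_pos (by norm_num : (0 : ℝ) < 2)]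
      linarith [hw₁ i]
    · have h1 := hpar l i₀
      simp only [Pi.add_apply] at h1 ⊢
      rw [Pi.single_eq_same, Pi.single_eq_of_ne (Ne.symm hl)]
      intro h2
      apply hi₀
      linarith

theorem dio_run {n : ℕ} (hn : 2 ≤ n) {φ : Fin n → ℝ} {D : ℝ} {A : ℕ} (hD : 1 ≤ D)
    (hφ : ∑ i, |φ i| ≤ D) (hdio : Dio φ D A) {δ : ℝ} (hδ : 0 < δ) (hδ1 : δ ≤ 1) {ell Q : ℕ}
    (hQ : 8 * D * (ell + 2) ≤ δ * Q) (p : Fin n → ℝ) (c s : Fin n → ℤ) :
    ∃ w e : Fin n → ℤ, Pr e ∧ (∀ i, |e i| ≤ (Q : ℤ)) ∧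
      (∃ i j, (s + w) i * e j - (s + w) j * e i ≠ 0) ∧
      ∀ t : ℤ, 0 ≤ t → t ≤ ell → φ ⬝ᵥ p - δ ≤ φ ⬝ᵥ em (vs c (w + t • e)) ∧
        φ ⬝ᵥ em (vs c (w + t • e)) ≤ φ ⬝ᵥ p ∧
        ∀ i, |((vs c (w + t • e) i : ℤ) : ℝ) - p i| ≤
          3 + 2 * Q * (2 * D ^ 2 * (Q : ℝ) ^ A + ell + 3) := by
  have hD0 : 0 < D := lt_of_lt_of_le one_pos hD
  have hell : (0 : ℝ) ≤ (ell : ℝ) := Nat.cast_nonneg _
  have hQ0 : (0 : ℝ) ≤ (Q : ℝ) := Nat.cast_nonneg _
  have hQ16 : (16 : ℝ) ≤ (Q : ℝ) := by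
    have h1 : (16 : ℝ) ≤ 8 * D * (ell + 2) := by nlinarith
    nlinarith
  have hQ2 : 2 ≤ Q := by
    have h1 : (2 : ℝ) ≤ (Q : ℝ) := by linarith
    exact_mod_cast h1
  have hQpos : (0 : ℝ) < (Q : ℝ) := by linarith
  obtain ⟨e, hPr, he0, heQ, heD, hen, hed⟩ := rpd_e hn hφ hdio hQ2
  obtain ⟨w₂, hw₂, i₁, j₁, hmin⟩ := rpd_w hn he0 p c s
  obtain ⟨η, hη⟩ : ∃ η, η = 2 * (φ ⬝ᵥ em e) := ⟨_, rfl⟩
  have hQA : (0 : ℝ) < (Q : ℝ) ^ A := by positivity
  have hηd : 2 ≤ D * η * (Q : ℝ) ^ A := by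
    rw [hη]
    linarith
  have hη0 : 0 < η := by
    by_contra hcon
    push Not at hcon
    have h1 : D * η * (Q : ℝ) ^ A ≤ 0 := by
      have h2 : D * η ≤ 0 := mul_nonpos_of_nonneg_of_nonpos hD0.le hcon
      exact mul_nonpos_of_nonpos_of_nonneg h2 hQA.le
    linarith
  have hηs : (ell + 2) * η ≤ δ / 4 := by
    have h1 : η ≤ 2 * (D / Q) := by
      rw [hη]
      linarith
    have h2 : (ell + 2) * η ≤ (ell + 2) * (2 * (D / Q)) :=
      mul_le_mul_of_nonneg_left h1 (by linarith)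
    have h3 : (ell + 2) * (2 * (D / Q)) = (8 * D * (ell + 2)) / (4 * Q) := by
      field_simp
      ring
    have h4 : (8 * D * (ell + 2)) / (4 * Q) ≤ δ / 4 := by
      rw [div_le_div_iff₀ (by positivity) (by norm_num)]
      linarith
    linarith
  obtain ⟨v, hv⟩ : ∃ v, v = φ ⬝ᵥ em (vs c w₂) - φ ⬝ᵥ p := ⟨_, rfl⟩
  have hvD : |v| ≤ D * 3 := by
    have h1 : v = φ ⬝ᵥ (em (vs c w₂) - p) := by
      rw [hv, dotProduct_sub]
    rw [h1]
    refine dot_le hφ (by norm_num) fun i => ?_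
    rw [Pi.sub_apply]
    exact hw₂ i
  obtain ⟨k, hk⟩ : ∃ k : ℤ, k = ⌊(-δ / 2 - v) / η⌋ := ⟨_, rfl⟩
  have hk1 : (k : ℝ) * η ≤ -δ / 2 - v := by
    rw [← le_div_iff₀ hη0, hk]
    exact Int.floor_le _
  have hk2 : -δ / 2 - v < ((k : ℝ) + 1) * η := by
    rw [← div_lt_iff₀ hη0, hk]
    exact Int.lt_floor_add_one _
  have hkb : |(k : ℝ)| ≤ 2 * D ^ 2 * (Q : ℝ) ^ A + 1 := by
    have h1 : |v| ≤ 3 * D := by linarith
    obtain ⟨h2, h3⟩ := abs_le.1 h1
    have h4 : ∀ B : ℝ, 0 ≤ B → B ≤ (7 / 2) * D → B ≤ (2 * D ^ 2 * (Q : ℝ) ^ A) * η := by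
      intro B _ hB
      have h5 : (7 / 2) * D ≤ (7 / 4 * D) * (D * η * (Q : ℝ) ^ A) := by nlinarith
      have h6 : (7 / 4 * D) * (D * η * (Q : ℝ) ^ A) = (7 / 4) * (D ^ 2 * (Q : ℝ) ^ A * η) := by ring
      have h7 : 0 ≤ D ^ 2 * (Q : ℝ) ^ A * η := by positivity
      nlinarith
    rw [abs_le]
    constructor
    · by_contra hcon
      push Not at hcon
      have h5 := h4 (v + δ / 2) 
      have h6 : ((k : ℝ) + 1) * η < -(2 * D ^ 2 * (Q : ℝ) ^ A) * η := by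
        apply mul_lt_mul_of_pos_right _ hη0
        linarith
      have h7 : -δ / 2 - v < -(2 * D ^ 2 * (Q : ℝ) ^ A) * η := lt_trans hk2 h6
      have h8 : 0 ≤ (2 * D ^ 2 * (Q : ℝ) ^ A) * η := by positivity
      have h9 := h5 (by linarith) (by linarith)
      linarith
    · by_contra hcon
      push Not at hcon
      have h6 : (2 * D ^ 2 * (Q : ℝ) ^ A) * η < (k : ℝ) * η := by
        apply mul_lt_mul_of_pos_right _ hη0
        linarith
      have h8 : 0 ≤ (2 * D ^ 2 * (Q : ℝ) ^ A) * η := by positivity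
      have h9 := h4 (-v) (by linarith) (by linarith)
      linarith
  refine ⟨w₂ + k • e, e, hPr, heQ, ⟨i₁, j₁, ?_⟩, ?_⟩
  · intro h
    apply hmin
    simp only [Pi.add_apply, Pi.smul_apply, smul_eq_mul] at h ⊢
    linarith
  · intro t ht0 ht1
    have ht0' : (0 : ℝ) ≤ (t : ℝ) := by exact_mod_cast ht0
    have ht1' : (t : ℝ) ≤ (ell : ℝ) := by exact_mod_cast ht1
    have hem : em (vs c (w₂ + k • e + t • e)) = em (vs c w₂) + (2 * ((k : ℝ) + t)) • em e := by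
      rw [vs_add, vs_add, em_zsmul, em_zsmul, smul_smul, smul_smul, add_assoc, ← add_smul]
      ring_nf
    have hval : φ ⬝ᵥ em (vs c (w₂ + k • e + t • e)) = φ ⬝ᵥ p + (v + ((k : ℝ) + t) * η) := by
      rw [hem, dotProduct_add, dotProduct_smul, smul_eq_mul, hv, hη]
      ring
    have htη0 : 0 ≤ (t : ℝ) * η := mul_nonneg ht0' hη0.le
    have htη1 : (t : ℝ) * η ≤ ell * η := mul_le_mul_of_nonneg_right ht1' hη0.le
    have hη2 : η ≤ δ / 4 := by nlinarith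
    have hη3 : ell * η ≤ δ / 4 := by nlinarith
    refine ⟨?_, ?_, ?_⟩
    · rw [hval]
      nlinarith
    · rw [hval]
      nlinarith
    · intro i
      have h1 := congrFun hem i
      simp only [em, Pi.add_apply, Pi.smul_apply, smul_eq_mul] at h1
      have h2 : ((vs c (w₂ + k • e + t • e) i : ℤ) : ℝ) - p i =
          (((vs c w₂ i : ℤ) : ℝ) - p i) + 2 * ((k : ℝ) + t) * (e i : ℝ) := by
        rw [h1]
        ring
      rw [h2]
      refine (abs_add_le _ _).trans ?_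
      have h3 : |2 * ((k : ℝ) + t) * (e i : ℝ)| ≤
          2 * (2 * D ^ 2 * (Q : ℝ) ^ A + 1 + ell) * Q := by
        rw [abs_mul, abs_mul, abs_of_pos (by norm_num : (0 : ℝ) < 2)]
        have h4 : |(k : ℝ) + t| ≤ 2 * D ^ 2 * (Q : ℝ) ^ A + 1 + ell := by
          refine (abs_add_le _ _).trans ?_
          rw [abs_of_nonneg ht0']
          linarith
        have h5 : |(e i : ℝ)| ≤ (Q : ℝ) := by exact_mod_cast heQ i
        have h6 : 0 ≤ 2 * D ^ 2 * (Q : ℝ) ^ A + 1 + ell := by positivity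
        calc 2 * |(k : ℝ) + t| * |(e i : ℝ)| ≤ 2 * (2 * D ^ 2 * (Q : ℝ) ^ A + 1 + ell) * |(e i : ℝ)| :=
              mul_le_mul_of_nonneg_right (by linarith) (abs_nonneg _)
          _ ≤ 2 * (2 * D ^ 2 * (Q : ℝ) ^ A + 1 + ell) * Q :=
              mul_le_mul_of_nonneg_left h5 (by linarith)
      have h7 := hw₂ i
      have h8 : 3 + 2 * (2 * D ^ 2 * (Q : ℝ) ^ A + 1 + ell) * Q ≤
          3 + 2 * Q * (2 * D ^ 2 * (Q : ℝ) ^ A + ell + 3) := by nlinarith
      linarith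

end Pool.Agent.Lib.MP_8cf263_co
end
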