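import Pool.Agent.Lib.MP_8cf263_co.RsAgrA

/-!
# Round patches, file RtPatA: a convex set which coincides near one direction with a ball of a norm

`Pat N C p ρ η`: the convex set `C` contains the ball `{x : N (x - p) ≤ ρ}` and for every direction
`g` with `|g - e₀| ≤ η`, `e₀ = Pi.single 0 1`, the two sets have the same supremum of `x ↦ g ⬝ᵥ x`.

`Pat.scale`: translate and scale (`N (ρ • y) = ρ N y`, `g ⬝ᵥ (p + ρ • y) = g ⬝ᵥ p + ρ (g ⬝ᵥ y)`; for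
`y` in the new set take `y' = ρ⁻¹ • (y₁ - p)`, where `y₁` is the point for `p + ρ • y`).

`Spot.loc`.  Let `κ = q 0 > 0` (`Spot.pos`), `a`, `b` as in `Nrm.equiv`, `Q = √(q ⬝ᵥ q)`.
For every `y` let `l y` be a support functional at `y` (`Nrm.supp`) and put `P y = (2 N y) • l y` if
`y ≠ q` and `P q = (2 / κ) • e₀`.  Then `N y ^ 2 + P y ⬝ᵥ (z - y) ≤ N z ^ 2` for all `y`, `z` (see the
proofs of `Nrm.sub` and `Spot.strong`), and with the upper bound of `quad` (RsHalve) we have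
`Taylor (fun x => N x ^ 2) P q ρ M` (RsCoco).  `coco` and `Taylor.up` give, for `y₀ ∈ Bl q ρ`,
`|P y₀ - P q| ^ 2 ≤ 4 M (N y₀ ^ 2 - N q ^ 2 - P q ⬝ᵥ (y₀ - q)) ≤ 4 M ^ 2 |y₀ - q| ^ 2`.   (1)
Choose `ρ₁ > 0` with `ρ₁ ≤ ρ`, `ρ₁ (1 + b Q) ≤ ρ` and `κ M ρ₁ (1 + b Q) ≤ η`.
Let `C` satisfy `Pat N C 0 1 η`, `y ∈ C ∩ Bl q ρ₁` and suppose `s = N y > 1`; `y₀ = s⁻¹ • y`, `N y₀ = 1`.
`s - 1 = N y - N q ≤ N (y - q) ≤ b ρ₁` and
`|y₀ - q| ≤ s⁻¹ |y - q| + (1 - s⁻¹) Q ≤ ρ₁ + (s - 1) Q ≤ ρ₁ (1 + b Q)`, so by (1) the vector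
`g = κ • l y₀ = (κ / 2) • P y₀` satisfies `|g - e₀| ≤ (κ / 2) 2 M |y₀ - q| ≤ η` (if `y₀ = q` then
`P y₀ = P q` and `g := e₀`, use `g := (κ / 2) • P y₀` in all cases).  By `Pat.pat` there is `y'` with
`N y' ≤ 1` and `g ⬝ᵥ y ≤ g ⬝ᵥ y' ≤ κ` (`l ⬝ᵥ y' ≤ N y'`, or `y' 0 ≤ q 0` by `Spot.sup` if `y₀ = q`), but
`g ⬝ᵥ y = s (g ⬝ᵥ y₀) = s κ > κ`, a contradiction.

`Spot.patcap`.  Let `ρ₁` be as in `Spot.loc`, `ρ₂ = ρ₁ / 2`.  `Spot N q ρ₂ μ M` holds (`Bl q (4 ρ₂)` is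
contained in `Bl q (4 ρ)`), let `F`, `b`, `δ`, `η'` be as in `Spot.ext` (RsAgrA) for it, so
`Cap N F q ρ₂ δ η'`.  Let `Pat N C 0 1 η` and `|u - e₀| ≤ η'`.
(a) Let `x ∈ C`, `u ⬝ᵥ q - δ ≤ u ⬝ᵥ x`.  Then `x ∈ Bl q ρ₂`: otherwise `D = |x - q| > ρ₂`; let
`t = min 1 (ρ₁ / D)`, `x' = q + t (x - q)`, so `ρ₂ < |x' - q| = min D ρ₁ ≤ ρ₁`.  `q ∈ C` (`inn`, `N q = 1`),
so `x' ∈ C` and `N x' ≤ 1` by `Spot.loc`; `u ⬝ᵥ x' ≥ u ⬝ᵥ q - t δ ≥ u ⬝ᵥ q - δ`, so by `Cap.cap`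
`x' ∈ Bl q ρ₂`, a contradiction.  So `N x ≤ 1` (`Spot.loc`) and `F x = N x ^ 2 ≤ 1`.
(b) Let `F x ≤ 1`, `u ⬝ᵥ q - δ ≤ u ⬝ᵥ x`.  By `Cap.cap` `x ∈ Bl q ρ₂`, so `N x ^ 2 = F x ≤ 1` and `x ∈ C`
by `inn`.
(c) The other statements are those of `Cap.cap`; `F (t • q) = N (t • q) ^ 2 = t ^ 2` on the ball.
-/

set_option autoImplicit false

namespace Pool.Agent.Lib.MP_8cf263_co

/-- `C` is convex, contains the ball of radius `ρ` around `p` and has the same support function in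
all directions near `e₀` -/
structure Pat {m : ℕ} (N : (Fin (m + 2) → ℝ) → ℝ) (C : Set (Fin (m + 2) → ℝ))
    (p : Fin (m + 2) → ℝ) (ρ η : ℝ) : Prop where
  conv : Convex ℝ C
  inn : ∀ x, N (x - p) ≤ ρ → x ∈ C
  pat : ∀ g : Fin (m + 2) → ℝ, (g - Pi.single 0 1) ⬝ᵥ (g - Pi.single 0 1) ≤ η ^ 2 → ∀ x ∈ C,
    ∃ y, N (y - p) ≤ ρ ∧ g ⬝ᵥ x ≤ g ⬝ᵥ y

/-- near the spot the set `C` is the sublevel set `{F ≤ 1}` -/
structure PCap {m : ℕ} (F : (Fin (m + 2) → ℝ) → ℝ) (q : Fin (m + 2) → ℝ)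
    (C : Set (Fin (m + 2) → ℝ)) (δ η : ℝ) : Prop where
  hδ : 0 < δ
  cap : ∀ u : Fin (m + 2) → ℝ, (u - Pi.single 0 1) ⬝ᵥ (u - Pi.single 0 1) ≤ η ^ 2 →
    (∀ x, (x ∈ C ∨ F x ≤ 1) → u ⬝ᵥ q - δ ≤ u ⬝ᵥ x → (x ∈ C ↔ F x ≤ 1)) ∧ δ ≤ u ⬝ᵥ q ∧
    ∀ t : ℝ, u ⬝ᵥ q - δ ≤ t * (u ⬝ᵥ q) → t ≤ 1 → F (t • q) = t ^ 2

variable {m : ℕ} {N : (Fin (m + 2) → ℝ) → ℝ} {q p : Fin (m + 2) → ℝ} {ρ μ M η : ℝ}
  {C : Set (Fin (m + 2) → ℝ)}

private theorem dn0 {n : ℕ} (v : Fin n → ℝ) : 0 ≤ v ⬝ᵥ v :=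
  Finset.sum_nonneg fun _ _ => mul_self_nonneg _

private theorem cs1 {n : ℕ} (a b : Fin n → ℝ) : (a ⬝ᵥ b) ^ 2 ≤ (a ⬝ᵥ a) * (b ⬝ᵥ b) := by
  have h := Finset.sum_mul_sq_le_sq_mul_sq Finset.univ a b
  simpa [dotProduct, sq] using h

private theorem tri1 {n : ℕ} {a b : Fin n → ℝ} {A B : ℝ} (ha : a ⬝ᵥ a ≤ A ^ 2)
    (hb : b ⬝ᵥ b ≤ B ^ 2) (hA : 0 ≤ A) (hB : 0 ≤ B) : (a - b) ⬝ᵥ (a - b) ≤ (A + B) ^ 2 := by
  have h1 := cs1 a b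
  have h2 : (a ⬝ᵥ b) ^ 2 ≤ (A * B) ^ 2 := by
    calc (a ⬝ᵥ b) ^ 2 ≤ (a ⬝ᵥ a) * (b ⬝ᵥ b) := h1
      _ ≤ A ^ 2 * B ^ 2 := mul_le_mul ha hb (dn0 b) (sq_nonneg _)
      _ = (A * B) ^ 2 := by ring
  have h3 : |a ⬝ᵥ b| ≤ A * B := abs_le_of_sq_le_sq h2 (mul_nonneg hA hB)
  have h4 := neg_abs_le (a ⬝ᵥ b)
  simp only [sub_dotProduct, dotProduct_sub]
  rw [dotProduct_comm b a]
  nlinarith

private theorem Bl.mono1 {n : ℕ} {q x : Fin n → ℝ} {r s : ℝ} (hr : 0 ≤ r) (hrs : r ≤ s)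
    (hx : Bl q r x) : Bl q s x := by
  unfold Bl at *
  exact hx.trans (pow_le_pow_left₀ hr hrs 2)

theorem Pat.scale (hN : Nrm N) (h : Pat N C p ρ η) (hρ : 0 < ρ) :
    Pat N {y | p + ρ • y ∈ C} 0 1 η := by
  refine ⟨?_, ?_, ?_⟩
  · intro x hx y hy s t hs ht hst
    have hx' : p + ρ • x ∈ C := hx
    have hy' : p + ρ • y ∈ C := hy
    show p + ρ • (s • x + t • y) ∈ C
    have e : p + ρ • (s • x + t • y) = s • (p + ρ • x) + t • (p + ρ • y) := by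
      have e3 : s • (p + ρ • x) + t • (p + ρ • y) = (s + t) • p + ρ • (s • x + t • y) := by
        module
      rw [e3, hst, one_smul]
    rw [e]
    exact h.conv hx' hy' hs ht hst
  · intro x hx
    rw [sub_zero] at hx
    show p + ρ • x ∈ C
    refine h.inn _ ?_
    rw [add_sub_cancel_left, hN.sm, abs_of_pos hρ]
    nlinarith
  · intro g hg x hx
    obtain ⟨y, hy1, hy2⟩ := h.pat g hg _ hx
    refine ⟨ρ⁻¹ • (y - p), ?_, ?_⟩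
    · rw [sub_zero, hN.sm, abs_of_pos (inv_pos.2 hρ), inv_mul_le_iff₀ hρ, mul_one]
      exact hy1
    · rw [dotProduct_smul, dotProduct_sub, smul_eq_mul]
      rw [dotProduct_add, dotProduct_smul, smul_eq_mul] at hy2
      have h1 : ρ * (g ⬝ᵥ x) ≤ ρ * (ρ⁻¹ * (g ⬝ᵥ y - g ⬝ᵥ p)) := by
        rw [mul_inv_cancel_left₀ hρ.ne']
        linarith
      exact le_of_mul_le_mul_left h1 hρ

theorem Spot.loc (h : Spot N q ρ μ M) (hη : 0 < η) :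
    ∃ ρ₁ : ℝ, 0 < ρ₁ ∧ ρ₁ ≤ ρ ∧ ∀ C : Set (Fin (m + 2) → ℝ), Pat N C 0 1 η →
      ∀ y ∈ C, Bl q ρ₁ y → N y ≤ 1 := by
  have hκ := h.pos
  have hρ := h.hρ
  have hM : 0 < M := h.hμ.trans h.hM
  obtain ⟨κ, hκe⟩ : ∃ κ, κ = q 0 := ⟨_, rfl⟩
  rw [← hκe] at hκ
  obtain ⟨a, b, ha, hb, -, hup⟩ := h.nrm.equiv
  obtain ⟨Q, hQe⟩ : ∃ Q, Q = √(q ⬝ᵥ q) := ⟨_, rfl⟩
  have hQ0 : 0 ≤ Q := by rw [hQe]; exact Real.sqrt_nonneg _
  have hQ2 : Q ^ 2 = q ⬝ᵥ q := by rw [hQe]; exact Real.sq_sqrt (dn0 q)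
  have hex : ∀ y : Fin (m + 2) → ℝ, ∃ P : Fin (m + 2) → ℝ,
      (∀ z, N y ^ 2 + P ⬝ᵥ (z - y) ≤ N z ^ 2) ∧
      (N y = 1 → P ⬝ᵥ y = 2 ∧ ∀ z, P ⬝ᵥ z ≤ 2 * N z) ∧
      (y = q → P = (2 / κ) • (Pi.single 0 1 : Fin (m + 2) → ℝ)) := by
    intro y
    by_cases hy : y = q
    · subst hy
      have hd : ∀ z : Fin (m + 2) → ℝ,
          ((2 / κ) • (Pi.single 0 1 : Fin (m + 2) → ℝ)) ⬝ᵥ z = 2 / κ * z 0 := by
        intro z
        rw [smul_dotProduct, single_one_dotProduct, smul_eq_mul]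
      have hs : ∀ z : Fin (m + 2) → ℝ, z 0 / κ ≤ N z := by
        intro z
        rw [div_le_iff₀ hκ]
        have := h.sup z
        rw [← hκe] at this
        linarith
      refine ⟨(2 / κ) • (Pi.single 0 1 : Fin (m + 2) → ℝ), fun z => ?_, fun _ => ⟨?_, fun z => ?_⟩,
        fun _ => rfl⟩
      · rw [hd, h.one, Pi.sub_apply, ← hκe]
        have h3 : 2 / κ * (z 0 - κ) = 2 * (z 0 / κ) - 2 := by
          field_simp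
        rw [h3]
        have := hs z
        nlinarith [sq_nonneg (N z - 1)]
      · rw [hd, ← hκe]
        field_simp
      · rw [hd]
        have := hs z
        have e : 2 / κ * z 0 = 2 * (z 0 / κ) := by ring
        rw [e]
        linarith
    · obtain ⟨l, hl1, hl2⟩ := h.nrm.supp y
      refine ⟨(2 * N y) • l, fun z => ?_, fun hy1 => ⟨?_, fun z => ?_⟩, fun hy1 => absurd hy1 hy⟩
      · have h1 : ((2 * N y) • l) ⬝ᵥ (z - y) = 2 * N y * (l ⬝ᵥ z) - 2 * N y ^ 2 := by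
          rw [smul_dotProduct, dotProduct_sub, hl1, smul_eq_mul]
          ring
        rw [h1]
        have h2 : 2 * N y * (l ⬝ᵥ z) ≤ 2 * N y * N z :=
          mul_le_mul_of_nonneg_left (hl2 z) (mul_nonneg zero_le_two (h.nrm.nn y))
        nlinarith [sq_nonneg (N z - N y)]
      · rw [smul_dotProduct, hl1, hy1, smul_eq_mul]
        norm_num
      · rw [smul_dotProduct, hy1, smul_eq_mul]
        have := hl2 z
        linarith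
  choose P hP1 hP2 hP3 using hex
  have hT : Taylor (fun x => N x ^ 2) P q ρ M := by
    refine ⟨hρ, hM, fun x y _ _ => hP1 y x, fun x y hx hy => ?_⟩
    exact (quad hρ h.pin hx hy (hP1 y)).2
  have hq : Bl q ρ q := by
    unfold Bl
    rw [sub_self, zero_dotProduct]
    positivity
  have hbQ : 0 < 1 + b * Q := by positivity
  have hmin : 0 < min (ρ / (1 + b * Q)) (η / (κ * M * (1 + b * Q))) :=
    lt_min (by positivity) (by positivity)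
  obtain ⟨ρ₁, hρ₁⟩ : ∃ ρ₁, ρ₁ = min (ρ / (1 + b * Q)) (η / (κ * M * (1 + b * Q))) := ⟨_, rfl⟩
  rw [← hρ₁] at hmin
  have hA : ρ₁ * (1 + b * Q) ≤ ρ := by
    rw [← le_div_iff₀ hbQ, hρ₁]
    exact min_le_left _ _
  have hB : ρ₁ * (κ * M * (1 + b * Q)) ≤ η := by
    rw [← le_div_iff₀ (by positivity), hρ₁]
    exact min_le_right _ _
  have hbQ0 : 0 ≤ b * Q := by positivity
  refine ⟨ρ₁, hmin, by nlinarith, fun C hC y hy hyB => ?_⟩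
  by_contra hcon
  push Not at hcon
  obtain ⟨s, hs⟩ : ∃ s, s = N y := ⟨_, rfl⟩
  rw [← hs] at hcon
  have hs0 : 0 < s := by linarith
  obtain ⟨y₀, hy₀⟩ : ∃ y₀, y₀ = s⁻¹ • y := ⟨_, rfl⟩
  have hN0 : N y₀ = 1 := by
    rw [hy₀, h.nrm.sm, abs_of_pos (inv_pos.2 hs0), ← hs]
    exact inv_mul_cancel₀ hs0.ne'
  have hNq : N (y - q) ≤ b * ρ₁ := by
    refine hup _ _ hmin.le fun i => ?_
    refine abs_le_of_sq_le_sq ?_ hmin.le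
    refine le_trans ?_ hyB
    have h1 : (y - q) i * (y - q) i ≤ (y - q) ⬝ᵥ (y - q) :=
      Finset.single_le_sum (f := fun i => (y - q) i * (y - q) i)
        (fun j _ => mul_self_nonneg _) (Finset.mem_univ i)
    nlinarith
  have hs1 : s - 1 ≤ b * ρ₁ := by
    have h1 := h.nrm.tri (y - q) q
    rw [sub_add_cancel, ← hs, h.one] at h1
    linarith
  have hsi : s⁻¹ ≤ 1 := inv_le_one_of_one_le₀ hcon.le
  have hsi0 : 0 < s⁻¹ := inv_pos.2 hs0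
  have hsi1 : s⁻¹ * s = 1 := inv_mul_cancel₀ hs0.ne'
  have hsi2 : 1 - s⁻¹ ≤ s - 1 := by nlinarith
  have hd : (y₀ - q) ⬝ᵥ (y₀ - q) ≤ (ρ₁ * (1 + b * Q)) ^ 2 := by
    have e : y₀ - q = s⁻¹ • (y - q) - (1 - s⁻¹) • q := by
      rw [hy₀]
      module
    rw [e]
    have h1 : (s⁻¹ • (y - q)) ⬝ᵥ (s⁻¹ • (y - q)) ≤ ρ₁ ^ 2 := by
      rw [smul_dotProduct, dotProduct_smul, smul_eq_mul, smul_eq_mul]
      have h2 := dn0 (y - q)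
      have h3 : (y - q) ⬝ᵥ (y - q) ≤ ρ₁ ^ 2 := hyB
      have h4 : s⁻¹ * ((y - q) ⬝ᵥ (y - q)) ≤ 1 * ((y - q) ⬝ᵥ (y - q)) :=
        mul_le_mul_of_nonneg_right hsi h2
      have h5 : s⁻¹ * (s⁻¹ * ((y - q) ⬝ᵥ (y - q))) ≤ 1 * (s⁻¹ * ((y - q) ⬝ᵥ (y - q))) :=
        mul_le_mul_of_nonneg_right hsi (mul_nonneg hsi0.le h2)
      linarith
    have h2 : ((1 - s⁻¹) • q) ⬝ᵥ ((1 - s⁻¹) • q) ≤ (b * ρ₁ * Q) ^ 2 := by
      rw [smul_dotProduct, dotProduct_smul, smul_eq_mul, smul_eq_mul, ← hQ2]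
      have h3 : 0 ≤ (1 - s⁻¹) * Q := mul_nonneg (by linarith) hQ0
      have h4 : (1 - s⁻¹) * Q ≤ b * ρ₁ * Q := mul_le_mul_of_nonneg_right (by linarith) hQ0
      calc (1 - s⁻¹) * ((1 - s⁻¹) * Q ^ 2) = ((1 - s⁻¹) * Q) ^ 2 := by ring
        _ ≤ (b * ρ₁ * Q) ^ 2 := pow_le_pow_left₀ h3 h4 2
    refine (tri1 h1 h2 hmin.le (by positivity)).trans (le_of_eq ?_)
    ring
  have hy₀B : Bl q ρ y₀ := by
    unfold Bl
    exact hd.trans (pow_le_pow_left₀ (by positivity) hA 2)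
  have hPP : (P y₀ - P q) ⬝ᵥ (P y₀ - P q) ≤ 4 * M ^ 2 * (ρ₁ * (1 + b * Q)) ^ 2 := by
    have h1 := coco hT hq hy₀B
    have h2 := hT.up y₀ q (Bl.mono1 hρ.le (by linarith) hy₀B) (Bl.mono1 hρ.le (by linarith) hq)
    have h3 : N y₀ ^ 2 - N q ^ 2 - P q ⬝ᵥ (y₀ - q) ≤ M * (ρ₁ * (1 + b * Q)) ^ 2 := by
      have h4 := mul_le_mul_of_nonneg_left hd hM.le
      linarith
    have h5 := mul_le_mul_of_nonneg_left h3 (by positivity : 0 ≤ 4 * M)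
    calc _ ≤ _ := h1
      _ ≤ _ := h5
      _ = _ := by ring
  obtain ⟨g, hg⟩ : ∃ g, g = (κ / 2) • P y₀ := ⟨_, rfl⟩
  have hge : g - Pi.single 0 1 = (κ / 2) • (P y₀ - P q) := by
    rw [smul_sub, hP3 q rfl, smul_smul, hg]
    congr 1
    have : κ / 2 * (2 / κ) = 1 := by field_simp
    rw [this, one_smul]
  have hgη : (g - Pi.single 0 1) ⬝ᵥ (g - Pi.single 0 1) ≤ η ^ 2 := by
    rw [hge, smul_dotProduct, dotProduct_smul, smul_eq_mul, smul_eq_mul]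
    have h1 := mul_le_mul_of_nonneg_left hPP (by positivity : 0 ≤ (κ / 2) ^ 2)
    calc κ / 2 * (κ / 2 * ((P y₀ - P q) ⬝ᵥ (P y₀ - P q)))
        = (κ / 2) ^ 2 * ((P y₀ - P q) ⬝ᵥ (P y₀ - P q)) := by ring
      _ ≤ _ := h1
      _ = (ρ₁ * (κ * M * (1 + b * Q))) ^ 2 := by ring
      _ ≤ η ^ 2 := pow_le_pow_left₀ (by positivity) hB 2
  obtain ⟨y', hy1, hy2⟩ := hC.pat g hgη y hy
  rw [sub_zero] at hy1
  obtain ⟨hPa, hPb⟩ := hP2 y₀ hN0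
  have hyy : y = s • y₀ := by
    rw [hy₀, smul_smul, mul_inv_cancel₀ hs0.ne', one_smul]
  have e1 : g ⬝ᵥ y = κ * s := by
    rw [hg, hyy, smul_dotProduct, dotProduct_smul, hPa, smul_eq_mul, smul_eq_mul]
    ring
  have e2 : g ⬝ᵥ y' ≤ κ := by
    rw [hg, smul_dotProduct, smul_eq_mul]
    have h1 := hPb y'
    have h2 : P y₀ ⬝ᵥ y' ≤ 2 := by linarith
    have h3 := mul_le_mul_of_nonneg_left h2 (by positivity : 0 ≤ κ / 2)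
    linarith
  rw [e1] at hy2
  nlinarith

theorem Spot.patcap (h : Spot N q ρ μ M) (hη : 0 < η) :
    ∃ (F : (Fin (m + 2) → ℝ) → ℝ) (b δ η' : ℝ), SDn F μ M ∧ (∀ x, b ≤ F x) ∧ 0 < δ ∧ 0 < η' ∧
      ∀ C : Set (Fin (m + 2) → ℝ), Pat N C 0 1 η → PCap F q C δ η' := by
  obtain ⟨ρ₁, hρ₁, hρρ, hloc⟩ := h.loc hη
  obtain ⟨ρ₂, hρ₂⟩ : ∃ ρ₂, ρ₂ = ρ₁ / 2 := ⟨_, rfl⟩
  have hρ₂0 : 0 < ρ₂ := by linarith
  have hpin : Pin (fun x => N x ^ 2) q (4 * ρ₂) μ M := by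
    have hmon : ∀ x, Bl q (4 * ρ₂) x → Bl q (4 * ρ) x := fun x hx =>
      Bl.mono1 (by linarith) (by linarith) hx
    exact ⟨fun x y h1 h2 h3 => h.pin.lo x y (hmon _ h1) (hmon _ h2) (hmon _ h3),
      fun x y h1 h2 h3 => h.pin.up x y (hmon _ h1) (hmon _ h2) (hmon _ h3)⟩
  have hspot : Spot N q ρ₂ μ M := ⟨h.nrm, h.one, h.sup, hpin, hρ₂0, h.hμ, h.hM⟩
  obtain ⟨F, b, δ, η', hS, hb, hcap⟩ := hspot.ext
  have hδ := hcap.hδ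
  refine ⟨F, b, δ, η', hS, hb, hδ, hcap.hη, fun C hC => ⟨hδ, fun u hu => ?_⟩⟩
  obtain ⟨hA, hB, hCc⟩ := hcap.cap u hu
  have hqC : q ∈ C := hC.inn q (by rw [sub_zero, h.one])
  have hin : ∀ x ∈ C, u ⬝ᵥ q - δ ≤ u ⬝ᵥ x → Bl q ρ₂ x := by
    intro x hx hux
    by_cases hx1 : Bl q ρ₁ x
    · exact hA x (Or.inl (hloc C hC x hx hx1)) hux
    · exfalso
      unfold Bl at hx1
      push Not at hx1
      obtain ⟨D, hD⟩ : ∃ D, D = √((x - q) ⬝ᵥ (x - q)) := ⟨_, rfl⟩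
      have hD0 : 0 ≤ D := by rw [hD]; exact Real.sqrt_nonneg _
      have hD2 : D ^ 2 = (x - q) ⬝ᵥ (x - q) := by rw [hD]; exact Real.sq_sqrt (dn0 _)
      have hDρ : ρ₁ < D := by
        rw [← hD2] at hx1
        exact lt_of_pow_lt_pow_left₀ 2 hD0 hx1
      have hDp : 0 < D := hρ₁.trans hDρ
      obtain ⟨t, ht⟩ : ∃ t, t = ρ₁ / D := ⟨_, rfl⟩
      have ht0 : 0 < t := by rw [ht]; positivity
      have ht1 : t ≤ 1 := by rw [ht]; exact (div_le_one hDp).2 hDρ.le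
      have htD : t * D = ρ₁ := by rw [ht]; exact div_mul_cancel₀ _ hDp.ne'
      obtain ⟨x', hx'⟩ : ∃ x', x' = (1 - t) • q + t • x := ⟨_, rfl⟩
      have hxq : x' - q = t • (x - q) := by
        rw [hx']
        module
      have hxx : (x' - q) ⬝ᵥ (x' - q) = ρ₁ ^ 2 := by
        rw [hxq, smul_dotProduct, dotProduct_smul, ← hD2, smul_eq_mul, smul_eq_mul, ← htD]
        ring
      have hx'C : x' ∈ C := by
        rw [hx']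
        exact hC.conv hqC hx (sub_nonneg.2 ht1) ht0.le (by ring)
      have hNx' : N x' ≤ 1 := hloc C hC x' hx'C hxx.le
      have hux' : u ⬝ᵥ q - δ ≤ u ⬝ᵥ x' := by
        have e : u ⬝ᵥ x' = u ⬝ᵥ q + t * (u ⬝ᵥ x - u ⬝ᵥ q) := by
          rw [hx', dotProduct_add, dotProduct_smul, dotProduct_smul, smul_eq_mul, smul_eq_mul]
          ring
        rw [e]
        have h3 : -δ ≤ u ⬝ᵥ x - u ⬝ᵥ q := by linarith
        have h4 := mul_le_mul_of_nonneg_left h3 ht0.le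
        have h5 := mul_le_mul_of_nonneg_right ht1 hδ.le
        linarith
      have h6 := hA x' (Or.inl hNx') hux'
      unfold Bl at h6
      rw [hxx, hρ₂] at h6
      nlinarith
  refine ⟨fun x hx hux => ⟨fun hxC => ?_, fun hF => ?_⟩, hB, fun t ht ht1 => ?_⟩
  · have h1 := hin x hxC hux
    have h2 := hloc C hC x hxC (Bl.mono1 hρ₂0.le (by linarith) h1)
    rw [hcap.eq x h1]
    exact pow_le_one₀ (h.nrm.nn x) h2
  · have h1 := hA x (Or.inr hF) hux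
    rw [hcap.eq x h1] at hF
    have h2 := h.nrm.nn x
    refine hC.inn x ?_
    rw [sub_zero]
    nlinarith
  · rw [hcap.eq _ (hCc t ht ht1), h.nrm.sm, h.one, mul_one, sq_abs]

end Pool.Agent.Lib.MP_8cf263_co
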