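import Mathlib
import Pool.Agent.Lib.MP_8cf263_co.RpDefs
import Pool.Agent.Lib.MP_8cf263_co.RsHalve
import Pool.Agent.Lib.MP_8cf263_co.Face
import Pool.Agent.Lib.MP_8cf263_co.RsUni
import Pool.Agent.Lib.MP_8cf263_co.RpDio
import Pool.Agent.Lib.MP_8cf263_co.RtPatA

section

/-!
# Polytopes, file RpFin: a bounded polyhedron is the convex hull of a finite set
-/

set_option autoImplicit false

namespace Pool.Agent.Lib.MP_8cf263_co

open Finset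

theorem poly_fin {n : ℕ} {ι : Type} [Fintype ι] (h : ι → Fin n → ℝ) (b : ι → ℝ) {D : ℝ}
    (hbdd : ∀ y : Fin n → ℝ, (∀ l, h l ⬝ᵥ y ≤ b l) → ∀ i, |y i| ≤ D) :
    ∃ P : Finset (Fin n → ℝ), ∀ y, y ∈ convexHull ℝ (P : Set (Fin n → ℝ)) ↔
      ∀ l, h l ⬝ᵥ y ≤ b l := by
  classical
  set Q : Set (Fin n → ℝ) := {y | ∀ l, h l ⬝ᵥ y ≤ b l} with hQ
  have hcont : ∀ l, Continuous fun y : Fin n → ℝ => h l ⬝ᵥ y := by
    intro l
    unfold dotProduct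
    fun_prop
  have hclosed : IsClosed Q := by
    have : Q = ⋂ l, {y | h l ⬝ᵥ y ≤ b l} := by
      ext y
      simp [hQ]
    rw [this]
    exact isClosed_iInter fun l => isClosed_le (hcont l) continuous_const
  have hsub : Q ⊆ Set.Icc (fun _ => -D) (fun _ => D) := by
    intro y hy
    exact ⟨fun i => (abs_le.1 (hbdd y hy i)).1, fun i => (abs_le.1 (hbdd y hy i)).2⟩
  have hcomp : IsCompact Q := isCompact_Icc.of_isClosed_subset hclosed hsub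
  have hconv : Convex ℝ Q := by
    intro x hx y hy s t hs ht hst
    intro l
    rw [dotProduct_add, dotProduct_smul, dotProduct_smul, smul_eq_mul, smul_eq_mul]
    have h1 := mul_le_mul_of_nonneg_left (hx l) hs
    have h2 := mul_le_mul_of_nonneg_left (hy l) ht
    calc s * (h l ⬝ᵥ x) + t * (h l ⬝ᵥ y) ≤ s * b l + t * b l := add_le_add h1 h2
      _ = b l := by rw [← add_mul, hst, one_mul]
  have hinj : Set.InjOn (fun v : Fin n → ℝ => {l | h l ⬝ᵥ v = b l}) (Q.extremePoints ℝ) := by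
    intro v hv v' hv' heq
    by_contra hne
    have hact : ∀ l, h l ⬝ᵥ v = b l ↔ h l ⬝ᵥ v' = b l := by
      intro l
      have := Set.ext_iff.1 heq l
      simpa using this
    have hvQ : v ∈ Q := hv.1
    have hv'Q : v' ∈ Q := hv'.1
    -- a small step
    obtain ⟨ε, hε, hεb⟩ : ∃ ε : ℝ, 0 < ε ∧ ∀ l, h l ⬝ᵥ (v - ε • (v' - v)) ≤ b l := by
      have h1 : ∀ l, ∃ ε : ℝ, 0 < ε ∧ ∀ ε', 0 < ε' → ε' ≤ ε →
          h l ⬝ᵥ (v - ε' • (v' - v)) ≤ b l := by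
        intro l
        by_cases hl : h l ⬝ᵥ v = b l
        · refine ⟨1, one_pos, fun ε' _ _ => ?_⟩
          rw [dotProduct_sub, dotProduct_smul, dotProduct_sub, (hact l).1 hl, hl, sub_self,
            smul_zero, sub_zero]
        · have h2 : h l ⬝ᵥ v < b l := lt_of_le_of_ne (hvQ l) hl
          have hg : 0 < b l - h l ⬝ᵥ v := by linarith
          have habs : 0 < |h l ⬝ᵥ (v' - v)| + 1 := by positivity
          refine ⟨(b l - h l ⬝ᵥ v) / (|h l ⬝ᵥ (v' - v)| + 1), div_pos hg habs,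
            fun ε' h0 hle => ?_⟩
          rw [le_div_iff₀ habs] at hle
          rw [dotProduct_sub, dotProduct_smul, smul_eq_mul]
          have h3 : -(ε' * (h l ⬝ᵥ (v' - v))) ≤ ε' * |h l ⬝ᵥ (v' - v)| := by
            rw [← mul_neg]
            exact mul_le_mul_of_nonneg_left (neg_le_abs _) h0.le
          nlinarith
      choose ε hε0 hε using h1
      by_cases hne : (univ : Finset ι).Nonempty
      · refine ⟨univ.inf' hne ε, ?_, fun l => hε l _ ?_ (Finset.inf'_le _ (mem_univ l))⟩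
        · rw [Finset.lt_inf'_iff]
          exact fun l _ => hε0 l
        · rw [Finset.lt_inf'_iff]
          exact fun l _ => hε0 l
      · refine ⟨1, one_pos, fun l => absurd ⟨l, mem_univ l⟩ hne⟩
    have hseg : v ∈ openSegment ℝ (v - ε • (v' - v)) v' := by
      refine ⟨1 / (1 + ε), ε / (1 + ε), by positivity, by positivity, ?_, ?_⟩
      · field_simp
      · have : (1 + ε) ≠ 0 := by positivity
        funext i
        simp only [Pi.add_apply, Pi.smul_apply, Pi.sub_apply, smul_eq_mul]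
        field_simp
        ring
    have h2 := hv.2 (show v - ε • (v' - v) ∈ Q from hεb) hv'Q hseg
    exact hne (by
      have h3 : v - ε • (v' - v) = v := h2
      have h4 : ε • (v' - v) = 0 := by
        have := sub_eq_self.1 h3
        exact this
      rcases smul_eq_zero.1 h4 with h5 | h5
      · exact absurd h5 hε.ne'
      · exact (sub_eq_zero.1 h5).symm)
  have hfin : (Q.extremePoints ℝ).Finite := Set.Finite.of_finite_image (Set.toFinite _) hinj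
  refine ⟨hfin.toFinset, fun y => ?_⟩
  rw [Set.Finite.coe_toFinset]
  have h1 := closure_convexHull_extremePoints hcomp hconv
  have h2 : IsClosed (convexHull ℝ (Q.extremePoints ℝ)) := hfin.isClosed_convexHull ℝ
  rw [h2.closure_eq] at h1
  rw [h1]
  rfl

end Pool.Agent.Lib.MP_8cf263_co
end

section

/-!
# Polytopes, file RpGrid: a direction in general position, and a free scale

`grid`.  Let `E` be a set of at most `M` nonzero integer vectors, `1 ≤ M`, `0 < θ`.  Then there is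
`u ∈ [0, 1] ^ n` such that `θ |d i| ≤ 2 M |(φ + θ u) ⬝ᵥ em d|` for all `d ∈ E` and all `i`.
Proof.  For `t : Fin n → Fin (M + 1)` let `u_t i = t i / M`.  For `d ∈ E` let `k = k d` be an index with
`|d k|` maximal; `|d k| ≥ 1`.  Call `t` bad for `d` if `2 M |(φ + θ u_t) ⬝ᵥ em d| < θ |d k|`.  If `t`, `t'`
are bad for `d` and agree outside `k` then they are equal: otherwise the two values
`(φ + θ u_t) ⬝ᵥ em d` differ by `θ |t k - t' k| |d k| / M ≥ θ |d k| / M`, while each of them is less than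
`θ |d k| / (2 M)` in absolute value.  So at most `(M + 1) ^ (n - 1)` of the `t` are bad for `d`
(`t ↦ Function.update t k 0` is injective on the bad ones, and there are `(M + 1) ^ (n - 1)` functions
vanishing at `k`; or count by `Fin.insertNthEquiv`/`Fintype.card_le_of_injective` into
`{i // i ≠ k} → Fin (M + 1)`).  Altogether at most `M (M + 1) ^ (n - 1) < (M + 1) ^ n` are bad
(`n ≥ 1` if `E` is not empty), so some `t` is bad for no `d ∈ E`.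

`scale_gap`.  Let `T` be increasing, `A.card ≤ q`.  There is `i ≤ q` such that `d x ≤ T i` or
`T (i + 1) < d x` for all `x ∈ A`.  Proof: otherwise for every `i ≤ q` there is `x_i ∈ A` with
`T i < d x_i ≤ T (i + 1)`; these `q + 1` points are different (the intervals are disjoint).
-/

set_option autoImplicit false

namespace Pool.Agent.Lib.MP_8cf263_co

open Finset

private theorem rpg_max {n : ℕ} (d : Fin n → ℤ) (h : d ≠ 0) :
    ∃ k, d k ≠ 0 ∧ ∀ i, |d i| ≤ |d k| := by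
  obtain ⟨i0, hi0⟩ := Function.ne_iff.mp h
  have : Nonempty (Fin n) := ⟨i0⟩
  obtain ⟨k, hk⟩ := Finite.exists_max (fun i => |d i|)
  refine ⟨k, ?_, hk⟩
  intro hk0
  have h1 := hk i0
  simp only [hk0, abs_zero] at h1
  have h2 : d i0 = 0 := abs_eq_zero.mp (le_antisymm h1 (abs_nonneg _))
  exact hi0 (by simpa using h2)

private theorem rpg_bad {n : ℕ} (φ : Fin n → ℝ) {θ : ℝ} (hθ : 0 < θ) {M : ℕ} (hM1 : 1 ≤ M)
    (d : Fin n → ℤ) (k : Fin n) (hk : d k ≠ 0) (t t' : Fin n → Fin (M + 1))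
    (h1 : 2 * M * |(φ + θ • fun i => ((t i : ℕ) : ℝ) / M) ⬝ᵥ em d| < θ * |((d k : ℤ) : ℝ)|)
    (h2 : 2 * M * |(φ + θ • fun i => ((t' i : ℕ) : ℝ) / M) ⬝ᵥ em d| < θ * |((d k : ℤ) : ℝ)|)
    (hag : ∀ i, i ≠ k → t i = t' i) : t = t' := by
  have hMr : (0 : ℝ) < M := by exact_mod_cast hM1
  by_contra hne
  have hkk : t k ≠ t' k := by
    intro hk'
    apply hne
    funext i
    by_cases hi : i = k
    · rw [hi, hk']
    · exact hag i hi
  have hd : (φ + θ • fun i => ((t i : ℕ) : ℝ) / M) ⬝ᵥ em d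
      - (φ + θ • fun i => ((t' i : ℕ) : ℝ) / M) ⬝ᵥ em d
      = θ * ((((t k : ℕ) : ℝ) - ((t' k : ℕ) : ℝ)) / M) * ((d k : ℤ) : ℝ) := by
    unfold dotProduct
    rw [← Finset.sum_sub_distrib, Finset.sum_eq_single k]
    · simp only [em, Pi.add_apply, Pi.smul_apply, smul_eq_mul]
      ring
    · intro i _ hi
      simp only [em, Pi.add_apply, Pi.smul_apply, smul_eq_mul, hag i hi]
      ring
    · intro h
      exact absurd (Finset.mem_univ k) h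
  have hint : (1 : ℝ) ≤ |((t k : ℕ) : ℝ) - ((t' k : ℕ) : ℝ)| := by
    have h3 : (1 : ℤ) ≤ |((t k : ℕ) : ℤ) - ((t' k : ℕ) : ℤ)| := by
      apply Int.one_le_abs
      intro h4
      apply hkk
      apply Fin.ext
      have h5 : ((t k : ℕ) : ℤ) = ((t' k : ℕ) : ℤ) := by linarith
      exact_mod_cast h5
    exact_mod_cast h3
  have habs : 2 * (M : ℝ) * |(φ + θ • fun i => ((t i : ℕ) : ℝ) / M) ⬝ᵥ em d
      - (φ + θ • fun i => ((t' i : ℕ) : ℝ) / M) ⬝ᵥ em d|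
      = 2 * θ * |((t k : ℕ) : ℝ) - ((t' k : ℕ) : ℝ)| * |((d k : ℤ) : ℝ)| := by
    rw [hd, abs_mul, abs_mul, abs_div, abs_of_pos hθ, abs_of_pos hMr]
    field_simp
  have htri : |(φ + θ • fun i => ((t i : ℕ) : ℝ) / M) ⬝ᵥ em d
      - (φ + θ • fun i => ((t' i : ℕ) : ℝ) / M) ⬝ᵥ em d|
      ≤ |(φ + θ • fun i => ((t i : ℕ) : ℝ) / M) ⬝ᵥ em d|
      + |(φ + θ • fun i => ((t' i : ℕ) : ℝ) / M) ⬝ᵥ em d| := abs_sub _ _
  have hm := mul_le_mul_of_nonneg_left htri (by positivity : (0 : ℝ) ≤ 2 * M)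
  have hdk : 0 ≤ |((d k : ℤ) : ℝ)| := abs_nonneg _
  have h6 : 2 * θ * 1 * |((d k : ℤ) : ℝ)|
      ≤ 2 * θ * |((t k : ℕ) : ℝ) - ((t' k : ℕ) : ℝ)| * |((d k : ℤ) : ℝ)| :=
    mul_le_mul_of_nonneg_right (mul_le_mul_of_nonneg_left hint (by positivity)) hdk
  rw [habs] at hm
  linarith

theorem grid {n : ℕ} (φ : Fin n → ℝ) {θ : ℝ} (hθ : 0 < θ) (E : Finset (Fin n → ℤ))
    (h0 : (0 : Fin n → ℤ) ∉ E) {M : ℕ} (hM : E.card ≤ M) (hM1 : 1 ≤ M) :
    ∃ u : Fin n → ℝ, (∀ i, 0 ≤ u i ∧ u i ≤ 1) ∧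
      ∀ d ∈ E, ∀ i, θ * |((d i : ℤ) : ℝ)| ≤ 2 * M * |(φ + θ • u) ⬝ᵥ em d| := by
  classical
  have hMr : (0 : ℝ) < M := by exact_mod_cast hM1
  have hne : ∀ d : Fin n → ℤ, ∃ k : Option (Fin n), d ≠ 0 → ∃ j, k = some j ∧ d j ≠ 0 ∧
      ∀ i, |d i| ≤ |d j| := by
    intro d
    by_cases hd : d = 0
    · exact ⟨none, fun h => absurd hd h⟩
    · obtain ⟨k, hk⟩ := rpg_max d hd
      exact ⟨some k, fun _ => ⟨k, rfl, hk⟩⟩
  set Bad : (Fin n → ℤ) → Finset (Fin n → Fin (M + 1)) := fun d =>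
    Finset.univ.filter fun t => ∃ k, (∀ i, |d i| ≤ |d k|) ∧
      2 * M * |(φ + θ • fun i => ((t i : ℕ) : ℝ) / M) ⬝ᵥ em d| < θ * |((d k : ℤ) : ℝ)| with hBad
  have hcard : ∀ d ∈ E, (M + 1) * (Bad d).card ≤ (M + 1) ^ n := by
    intro d hd
    have hd0 : d ≠ 0 := fun h => h0 (h ▸ hd)
    obtain ⟨k, hk0, hk⟩ := rpg_max d hd0
    have hmem : ∀ t ∈ Bad d, 2 * M * |(φ + θ • fun i => ((t i : ℕ) : ℝ) / M) ⬝ᵥ em d|
        < θ * |((d k : ℤ) : ℝ)| := by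
      intro t ht
      obtain ⟨k', hk', hlt⟩ := (Finset.mem_filter.mp ht).2
      have h1 : |((d k' : ℤ) : ℝ)| ≤ |((d k : ℤ) : ℝ)| := by exact_mod_cast hk k'
      exact lt_of_lt_of_le hlt (mul_le_mul_of_nonneg_left h1 hθ.le)
    have hinj : Set.InjOn (fun p : Fin (M + 1) × (Fin n → Fin (M + 1)) =>
        Function.update p.2 k p.1)
        (↑(Finset.univ ×ˢ Bad d : Finset (Fin (M + 1) × (Fin n → Fin (M + 1)))) :
          Set (Fin (M + 1) × (Fin n → Fin (M + 1)))) := by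
      rintro ⟨j, t⟩ hp ⟨j', t'⟩ hp' heq
      simp only [Finset.coe_product, Set.mem_prod, Finset.mem_coe] at hp hp'
      have heq' : Function.update t k j = Function.update t' k j' := heq
      have hj : j = j' := by
        have := congrFun heq' k
        simpa using this
      have htt : t = t' := by
        apply rpg_bad φ hθ hM1 d k hk0 t t' (hmem t hp.2) (hmem t' hp'.2)
        intro i hi
        have := congrFun heq' i
        simpa [Function.update_of_ne hi] using this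
      rw [hj, htt]
    have h2 := Finset.card_le_card_of_injOn
      (s := (Finset.univ ×ˢ Bad d : Finset (Fin (M + 1) × (Fin n → Fin (M + 1)))))
      (t := (Finset.univ : Finset (Fin n → Fin (M + 1)))) _
      (fun p _ => Finset.mem_coe.mpr (Finset.mem_univ _)) hinj
    rw [Finset.card_product, Finset.card_univ, Finset.card_univ, Fintype.card_fin,
      Fintype.card_fun, Fintype.card_fin, Fintype.card_fin] at h2
    exact h2
  have hsum : (E.biUnion Bad).card < (Finset.univ : Finset (Fin n → Fin (M + 1))).card := by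
    have h3 : (E.biUnion Bad).card ≤ ∑ d ∈ E, (Bad d).card := Finset.card_biUnion_le
    have h4 : (M + 1) * ∑ d ∈ E, (Bad d).card ≤ M * (M + 1) ^ n := by
      rw [Finset.mul_sum]
      calc ∑ d ∈ E, (M + 1) * (Bad d).card ≤ ∑ _d ∈ E, (M + 1) ^ n := Finset.sum_le_sum hcard
        _ = E.card * (M + 1) ^ n := by rw [Finset.sum_const, smul_eq_mul]
        _ ≤ M * (M + 1) ^ n := Nat.mul_le_mul_right _ hM
    rw [Finset.card_univ, Fintype.card_fun, Fintype.card_fin, Fintype.card_fin]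
    have h5 : 0 < (M + 1) ^ n := pow_pos (Nat.succ_pos M) n
    by_contra hcon
    have h6 : (M + 1) ^ n ≤ ∑ d ∈ E, (Bad d).card := le_trans (not_lt.mp hcon) h3
    have h7 : (M + 1) * (M + 1) ^ n ≤ M * (M + 1) ^ n :=
      le_trans (Nat.mul_le_mul_left _ h6) h4
    have h8 := Nat.le_of_mul_le_mul_right h7 h5
    omega
  obtain ⟨t, _, ht⟩ := Finset.exists_mem_notMem_of_card_lt_card hsum
  refine ⟨fun i => ((t i : ℕ) : ℝ) / M, ?_, ?_⟩
  · intro i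
    refine ⟨by positivity, ?_⟩
    rw [div_le_one hMr]
    have : (t i : ℕ) ≤ M := Nat.lt_succ_iff.mp (t i).2
    exact_mod_cast this
  · intro d hd i
    have hd0 : d ≠ 0 := fun h => h0 (h ▸ hd)
    obtain ⟨k, hk0, hk⟩ := rpg_max d hd0
    have h1 : ¬ (2 * M * |(φ + θ • fun i => ((t i : ℕ) : ℝ) / M) ⬝ᵥ em d|
        < θ * |((d k : ℤ) : ℝ)|) := by
      intro hlt
      apply ht
      rw [Finset.mem_biUnion]
      exact ⟨d, hd, Finset.mem_filter.mpr ⟨Finset.mem_univ _, k, hk, hlt⟩⟩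
    have h2 : |((d i : ℤ) : ℝ)| ≤ |((d k : ℤ) : ℝ)| := by exact_mod_cast hk i
    exact le_trans (mul_le_mul_of_nonneg_left h2 hθ.le) (not_lt.mp h1)

theorem scale_gap {α : Type} (A : Finset α) (d : α → ℕ) (T : ℕ → ℕ) (hT : Monotone T) {q : ℕ}
    (hq : A.card ≤ q) : ∃ i, i ≤ q ∧ ∀ x ∈ A, d x ≤ T i ∨ T (i + 1) < d x := by
  classical
  by_contra hcon
  push Not at hcon
  have hne : A.Nonempty := by
    obtain ⟨x, hx, _⟩ := hcon 0 (Nat.zero_le q)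
    exact ⟨x, hx⟩
  obtain ⟨x0, _⟩ := hne
  have hf : ∀ i, ∃ x, i ≤ q → x ∈ A ∧ T i < d x ∧ d x ≤ T (i + 1) := by
    intro i
    by_cases hi : i ≤ q
    · obtain ⟨x, hx⟩ := hcon i hi
      exact ⟨x, fun _ => hx⟩
    · exact ⟨x0, fun h => absurd h hi⟩
  choose f hf using hf
  have hinj : Set.InjOn f (Finset.range (q + 1) : Set ℕ) := by
    have key : ∀ i j, i ≤ q → j ≤ q → i < j → f i ≠ f j := by
      intro i j hi hj hij he
      have h1 := (hf i hi).2.2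
      have h2 := (hf j hj).2.1
      have h3 : T (i + 1) ≤ T j := hT hij
      rw [he] at h1
      omega
    intro i hi j hj he
    have hi' : i ≤ q := Nat.lt_succ_iff.mp (Finset.mem_range.mp (Finset.mem_coe.mp hi))
    have hj' : j ≤ q := Nat.lt_succ_iff.mp (Finset.mem_range.mp (Finset.mem_coe.mp hj))
    rcases lt_trichotomy i j with h | h | h
    · exact absurd he (key i j hi' hj' h)
    · exact h
    · exact absurd he.symm (key j i hj' hi' h)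
  have h4 := Finset.card_le_card_of_injOn (s := Finset.range (q + 1)) (t := A) f
    (fun i hi => Finset.mem_coe.mpr
      (hf i (Nat.lt_succ_iff.mp (Finset.mem_range.mp (Finset.mem_coe.mp hi)))).1) hinj
  rw [Finset.card_range] at h4
  omega

end Pool.Agent.Lib.MP_8cf263_co
end

section

/-!
# Polytopes, file RpVert: functionals close to a facet normal have their maximum on the facet

`vert`.  Let `Q = {y : h l ⬝ᵥ y ≤ b l for all l}` be the convex hull of the finite set `P`, `g ∈ Q` with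
`h j ⬝ᵥ g = b j`.  Then there is `θ`, `0 < θ ≤ 1`, such that for all `u ∈ [0, 1] ^ n` the functional
`h j + θ u` has its maximum on `Q` at a point `v ∈ Q` with `h j ⬝ᵥ v = b j`.
Proof.  `P` is not empty, and all `p ∈ P` are in `Q`, so `h j ⬝ᵥ p ≤ b j`.  There is `p₁ ∈ P` with
`h j ⬝ᵥ p₁ = b j`: otherwise all `p ∈ P` are in the half-space `h j ⬝ᵥ y ≤ b j - γ` for some `γ > 0`, and
so is the convex hull, which contains `g`.  Let `B > 0` with `|u ⬝ᵥ p| ≤ B` for all `p ∈ P`,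
`u ∈ [0, 1] ^ n` (e.g. `B = 1 + ∑_{p ∈ P} ∑ i, |p i|`), and `γ > 0` such that `h j ⬝ᵥ p ≤ b j - γ` for all
`p ∈ P` with `h j ⬝ᵥ p ≠ b j` (a minimum of finitely many positive numbers, or `1`).  Put
`θ = min 1 (γ / (3 B))`.  Let `v ∈ P` maximise `(h j + θ u) ⬝ᵥ p` over `p ∈ P`.  If `h j ⬝ᵥ v ≠ b j` then
`(h j + θ u) ⬝ᵥ v ≤ b j - γ + θ B < b j - θ B ≤ (h j + θ u) ⬝ᵥ p₁`, a contradiction.  The convex hull of
`P` is contained in the half-space `(h j + θ u) ⬝ᵥ y ≤ (h j + θ u) ⬝ᵥ v` (`convexHull_min`).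
-/

set_option autoImplicit false

namespace Pool.Agent.Lib.MP_8cf263_co

open Finset

private theorem exists_gap {α : Type*} (P : Finset α) (f : α → ℝ) :
    ∃ γ : ℝ, 0 < γ ∧ ∀ p ∈ P, 0 < f p → γ ≤ f p := by
  classical
  induction P using Finset.induction_on with
  | empty => exact ⟨1, one_pos, fun p hp => absurd hp (Finset.notMem_empty p)⟩
  | insert a s _ ih =>
    obtain ⟨γ, hγ, h⟩ := ih
    by_cases ha : 0 < f a
    · refine ⟨min γ (f a), lt_min hγ ha, fun p hp hp0 => ?_⟩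
      rcases Finset.mem_insert.mp hp with rfl | hp
      · exact min_le_right _ _
      · exact (min_le_left _ _).trans (h p hp hp0)
    · refine ⟨γ, hγ, fun p hp hp0 => ?_⟩
      rcases Finset.mem_insert.mp hp with rfl | hp
      · exact absurd hp0 ha
      · exact h p hp hp0

private theorem hull_le {n : ℕ} {P : Finset (Fin n → ℝ)} {φ : Fin n → ℝ} {r : ℝ}
    (h : ∀ p ∈ P, φ ⬝ᵥ p ≤ r) {y : Fin n → ℝ} (hy : y ∈ convexHull ℝ (P : Set (Fin n → ℝ))) :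
    φ ⬝ᵥ y ≤ r := by
  have hc : Convex ℝ {w : Fin n → ℝ | φ ⬝ᵥ w ≤ r} :=
    convex_halfSpace_le ⟨fun a b => dotProduct_add φ a b, fun c a => dotProduct_smul c φ a⟩ r
  exact convexHull_min (s := (P : Set (Fin n → ℝ))) (fun p hp => h p (Finset.mem_coe.mp hp)) hc hy

theorem vert {n : ℕ} {ι : Type} {h : ι → Fin n → ℝ} {b : ι → ℝ} {P : Finset (Fin n → ℝ)}
    (hP : ∀ y, y ∈ convexHull ℝ (P : Set (Fin n → ℝ)) ↔ ∀ l, h l ⬝ᵥ y ≤ b l) {j : ι}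
    {g : Fin n → ℝ} (hg : ∀ l, h l ⬝ᵥ g ≤ b l) (hgj : h j ⬝ᵥ g = b j) :
    ∃ θ : ℝ, 0 < θ ∧ θ ≤ 1 ∧ ∀ u : Fin n → ℝ, (∀ i, 0 ≤ u i ∧ u i ≤ 1) →
      ∃ v : Fin n → ℝ, (∀ l, h l ⬝ᵥ v ≤ b l) ∧ h j ⬝ᵥ v = b j ∧
        ∀ y : Fin n → ℝ, (∀ l, h l ⬝ᵥ y ≤ b l) → (h j + θ • u) ⬝ᵥ y ≤ (h j + θ • u) ⬝ᵥ v := by
  have hgh : g ∈ convexHull ℝ (P : Set (Fin n → ℝ)) := (hP g).2 hg
  have hne : P.Nonempty := by
    have : (convexHull ℝ (P : Set (Fin n → ℝ))).Nonempty := ⟨g, hgh⟩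
    rw [convexHull_nonempty_iff] at this
    exact Finset.coe_nonempty.mp this
  have hPQ : ∀ p ∈ P, ∀ l, h l ⬝ᵥ p ≤ b l := fun p hp =>
    (hP p).1 (subset_convexHull ℝ _ (Finset.mem_coe.mpr hp))
  obtain ⟨γ, hγ, hgap⟩ := exists_gap P fun p => b j - h j ⬝ᵥ p
  have hgap' : ∀ p ∈ P, h j ⬝ᵥ p ≠ b j → h j ⬝ᵥ p ≤ b j - γ := by
    intro p hp hpj
    have h1 : h j ⬝ᵥ p < b j := lt_of_le_of_ne (hPQ p hp j) hpj
    have h2 := hgap p hp (by linarith)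
    linarith
  obtain ⟨p₁, hp₁, hp₁j⟩ : ∃ p ∈ P, h j ⬝ᵥ p = b j := by
    by_contra hcon
    push Not at hcon
    have h1 := hull_le (fun p hp => hgap' p hp (hcon p hp)) hgh
    linarith
  obtain ⟨B, hB, hBb⟩ : ∃ B : ℝ, 0 < B ∧ ∀ u : Fin n → ℝ, (∀ i, 0 ≤ u i ∧ u i ≤ 1) → ∀ p ∈ P,
      |u ⬝ᵥ p| ≤ B := by
    refine ⟨1 + ∑ p ∈ P, ∑ i, |p i|, ?_, ?_⟩
    · have : 0 ≤ ∑ p ∈ P, ∑ i, |p i| :=
        Finset.sum_nonneg fun p _ => Finset.sum_nonneg fun i _ => abs_nonneg _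
      linarith
    · intro u hu p hp
      have h1 : ∑ i, |p i| ≤ ∑ p ∈ P, ∑ i, |p i| :=
        Finset.single_le_sum (f := fun p : Fin n → ℝ => ∑ i, |p i|)
          (fun p _ => Finset.sum_nonneg fun i _ => abs_nonneg _) hp
      have h2 : |u ⬝ᵥ p| ≤ ∑ i, |p i| := by
        unfold dotProduct
        refine (Finset.abs_sum_le_sum_abs _ _).trans (Finset.sum_le_sum fun i _ => ?_)
        rw [abs_mul, abs_of_nonneg (hu i).1]
        exact mul_le_of_le_one_left (abs_nonneg _) (hu i).2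
      linarith
  have hθ0 : 0 < min 1 (γ / (3 * B)) := lt_min one_pos (by positivity)
  have hθB : min 1 (γ / (3 * B)) * B ≤ γ / 3 := by
    calc min 1 (γ / (3 * B)) * B ≤ γ / (3 * B) * B :=
          mul_le_mul_of_nonneg_right (min_le_right _ _) hB.le
      _ = γ / 3 := by field_simp
  refine ⟨min 1 (γ / (3 * B)), hθ0, min_le_left _ _, fun u hu => ?_⟩
  set θ := min 1 (γ / (3 * B)) with hθ
  obtain ⟨v, hv, hvmax⟩ := Finset.exists_max_image P (fun p => (h j + θ • u) ⬝ᵥ p) hne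
  refine ⟨v, hPQ v hv, ?_, fun y hy => hull_le hvmax ((hP y).2 hy)⟩
  by_contra hvj
  have h1 := hgap' v hv hvj
  have h2 := hvmax p₁ hp₁
  simp only [add_dotProduct, smul_dotProduct, smul_eq_mul] at h2
  rw [hp₁j] at h2
  have h3 : θ * (u ⬝ᵥ v) ≤ θ * B :=
    mul_le_mul_of_nonneg_left ((le_abs_self _).trans (hBb u hu v hv)) hθ0.le
  have h4 : -(θ * B) ≤ θ * (u ⬝ᵥ p₁) := by
    have := mul_le_mul_of_nonneg_left (neg_le_of_abs_le (hBb u hu p₁ hp₁)) hθ0.le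
    linarith
  linarith

end Pool.Agent.Lib.MP_8cf263_co
end

section

/-!
# Polytopes, file RpFat: large dilates of polytopes are fat

`pol_pt`.  Let `Pol h b D`, `3 ≤ β`.  Let `kap = ⌈4 D ^ 3⌉₊`.  For every `A` there is `lam₀` such that for
all `lam ≥ lam₀` and all twins `K`, `L`, with `K` the set of lattice points of the dilate, there are
`R`, `r`, `J` with `A ≤ J`, `J ^ β ≤ lam` and `PT K L c R r J kap h b D lam`.

Proof.  Let `k = 2 (β + 1)` and `Ac ≥ A` a natural number with `800 Cg k D ^ 2 ≤ Ac ^ 2`,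
`10 D ^ 3 ≤ Ac`, `20 kap ≤ Ac`, `D ^ 2 (64 kap + 1) ≤ Ac ^ 2` (for instance
`Ac = A + ⌈800 Cg k D ^ 2⌉₊ + ⌈10 D ^ 3⌉₊ + 20 kap + ⌈D ^ 2 (64 kap + 1)⌉₊ + 1`).  Let `τ₀` be from
`exists_J` (file RdJ) for `Ac`, `β`, and `lam₀ = max τ₀ (2 D ^ 2)`; `1 ≤ D`, so `2 ≤ lam`.  `exists_J` gives `J`
with `Ac ≤ J`, `1 ≤ J`, `J ^ β ≤ lam`, `Ac lam ≤ J ^ (β + 1)`.  Let `R = ⌈D lam⌉₊`, `r = ⌊lam / D ^ 2⌋₊`.
`D lam ≤ R ≤ D lam + 1 ≤ 2 D lam`; `r ≤ lam / D ^ 2`, `lam / D ^ 2 - 1 ≤ r`,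
`lam / (2 D ^ 2) ≤ r` (as `2 D ^ 2 ≤ lam`), i.e. `lam ≤ 2 D ^ 2 r`.
- `out`: for `x ∈ K` the point `lam⁻¹ • em (vs c x)` satisfies the inequalities, so by `bdd` its
  coordinates are at most `D`, `|vs c x i| ≤ D lam ≤ R`.
- `core`: if `|vs c x i| ≤ r` then by `dot_le`
  `h j ⬝ᵥ em (vs c x) ≤ D r ≤ lam / D ≤ lam b j` (`b0`: `1 / D ≤ b j`).
- `good`: for `m ≠ 0`, `m ≤ 200 R ^ 2`: `good_of_pow` (file Jac) with `k`:
  `Cg k m ≤ Cg k 200 (2 D lam) ^ 2 = 800 Cg k D ^ 2 lam ^ 2 ≤ (Ac lam) ^ 2 ≤ (J ^ (β + 1)) ^ 2 = J ^ k`.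
- `Jr`: `64 J kap ≤ J (64 kap + 1) - 1 ≤ J Ac ^ 2 / D ^ 2 - 1 ≤ J ^ 3 / D ^ 2 - 1 ≤ lam / D ^ 2 - 1 ≤ r`.
- `rR`: `lam / D ^ 2 ≤ D lam`.
- `Rr`: `R ≤ 2 D lam = 4 D ^ 3 (lam / (2 D ^ 2)) ≤ kap r`.
-/

set_option autoImplicit false

namespace Pool.Agent.Lib.MP_8cf263_co

open Finset

theorem pol_pt {n : ℕ} (hn : 2 ≤ n) {ι : Type} {h : ι → Fin n → ℝ} {b : ι → ℝ} {D : ℝ}
    (hpol : Pol h b D) {β : ℕ} (hβ : 3 ≤ β) : ∃ kap : ℕ, ∀ A : ℕ, ∃ lam₀ : ℝ, ∀ lam : ℝ,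
      lam₀ ≤ lam → ∀ (c : Fin n → ℤ) (K L : Finset (Fin n → ℤ)), Tw K L c →
      (∀ x, x ∈ K ↔ ∀ j, h j ⬝ᵥ em (vs c x) ≤ lam * b j) →
      ∃ R r J : ℕ, A ≤ J ∧ (J : ℝ) ^ β ≤ lam ∧ PT K L c R r J kap h b D lam := by
  have hD1 : 1 ≤ D := hpol.D1
  have hD0 : 0 < D := by linarith
  have hDD : 1 ≤ D ^ 2 := one_le_pow₀ hD1
  have hDp : 0 < D ^ 2 := by positivity
  refine ⟨⌈4 * D ^ 3⌉₊, fun A => ?_⟩
  obtain ⟨kap, hkap⟩ : ∃ kap : ℕ, kap = ⌈4 * D ^ 3⌉₊ := ⟨_, rfl⟩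
  rw [← hkap]
  have hkapD : 4 * D ^ 3 ≤ (kap : ℝ) := by
    rw [hkap]
    exact Nat.le_ceil _
  obtain ⟨k, hk⟩ : ∃ k : ℕ, k = 2 * (β + 1) := ⟨_, rfl⟩
  obtain ⟨a₁, ha₁⟩ : ∃ a : ℕ, a = ⌈800 * (Cg k : ℝ) * D ^ 2⌉₊ := ⟨_, rfl⟩
  obtain ⟨a₂, ha₂⟩ : ∃ a : ℕ, a = ⌈10 * D ^ 3⌉₊ := ⟨_, rfl⟩
  obtain ⟨a₃, ha₃⟩ : ∃ a : ℕ, a = ⌈D ^ 2 * (64 * (kap : ℝ) + 1)⌉₊ := ⟨_, rfl⟩
  obtain ⟨Ac, hAc⟩ : ∃ Ac : ℕ, Ac = A + a₁ + a₂ + 20 * kap + a₃ + 1 := ⟨_, rfl⟩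
  have hAc1 : (1 : ℝ) ≤ Ac := by
    have : 1 ≤ Ac := by omega
    exact_mod_cast this
  have hAc2 : (Ac : ℝ) ≤ (Ac : ℝ) ^ 2 := by nlinarith
  have h800 : 800 * (Cg k : ℝ) * D ^ 2 ≤ (Ac : ℝ) ^ 2 := by
    refine le_trans ?_ hAc2
    have h1 : 800 * (Cg k : ℝ) * D ^ 2 ≤ (a₁ : ℝ) := by
      rw [ha₁]
      exact Nat.le_ceil _
    have h2 : (a₁ : ℝ) ≤ Ac := by
      have : a₁ ≤ Ac := by omega
      exact_mod_cast this
    linarith
  have h10 : 10 * D ^ 3 ≤ (Ac : ℝ) := by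
    have h1 : 10 * D ^ 3 ≤ (a₂ : ℝ) := by
      rw [ha₂]
      exact Nat.le_ceil _
    have h2 : (a₂ : ℝ) ≤ Ac := by
      have : a₂ ≤ Ac := by omega
      exact_mod_cast this
    linarith
  have h64 : D ^ 2 * (64 * (kap : ℝ) + 1) ≤ (Ac : ℝ) ^ 2 := by
    refine le_trans ?_ hAc2
    have h1 : D ^ 2 * (64 * (kap : ℝ) + 1) ≤ (a₃ : ℝ) := by
      rw [ha₃]
      exact Nat.le_ceil _
    have h2 : (a₃ : ℝ) ≤ Ac := by
      have : a₃ ≤ Ac := by omega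
      exact_mod_cast this
    linarith
  obtain ⟨τ₀, hτ⟩ := exists_J Ac β (by omega)
  refine ⟨max τ₀ (2 * D ^ 2), ?_⟩
  intro lam hlam c K L hTw hK
  have hl1 : τ₀ ≤ lam := (le_max_left _ _).trans hlam
  have hl2 : 2 * D ^ 2 ≤ lam := (le_max_right _ _).trans hlam
  have hlam2 : 2 ≤ lam := by linarith
  have hlam0 : 0 < lam := by linarith
  obtain ⟨J, hJA, hJ1, hJl, hJl2⟩ := hτ lam hl1
  have hJr1 : (1 : ℝ) ≤ J := by exact_mod_cast hJ1
  have hJAr : (Ac : ℝ) ≤ J := by exact_mod_cast hJA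
  obtain ⟨R, hR⟩ : ∃ R : ℕ, R = ⌈D * lam⌉₊ := ⟨_, rfl⟩
  obtain ⟨r, hr⟩ : ∃ r : ℕ, r = ⌊lam / D ^ 2⌋₊ := ⟨_, rfl⟩
  have hDl : lam ≤ D * lam := by nlinarith
  have hR1 : D * lam ≤ R := by
    rw [hR]
    exact Nat.le_ceil _
  have hR2 : (R : ℝ) ≤ 2 * D * lam := by
    have h1 : (R : ℝ) < D * lam + 1 := by
      rw [hR]
      exact Nat.ceil_lt_add_one (by positivity)
    have h2 : 2 * D * lam = D * lam + D * lam := by ring
    linarith
  have hr1 : (r : ℝ) ≤ lam / D ^ 2 := by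
    rw [hr]
    exact Nat.floor_le (by positivity)
  have hr2 : lam / D ^ 2 - 1 < r := by
    rw [hr]
    exact Nat.sub_one_lt_floor _
  have hr1' : D ^ 2 * r ≤ lam := by
    rw [le_div_iff₀ hDp] at hr1
    linarith
  have hr2' : lam < D ^ 2 * (r + 1) := by
    have h1 : lam / D ^ 2 < r + 1 := by linarith
    rw [div_lt_iff₀ hDp] at h1
    linarith
  have hr3 : lam ≤ 2 * D ^ 2 * r := by
    have h1 : (1 : ℝ) ≤ r := by
      by_contra hcon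
      push Not at hcon
      have h2 : r = 0 := by
        have : r < 1 := by exact_mod_cast hcon
        omega
      rw [h2] at hr2'
      push_cast at hr2'
      linarith
    have h2 : D ^ 2 * (r + 1) ≤ D ^ 2 * (r + r) := by
      refine mul_le_mul_of_nonneg_left ?_ hDp.le
      linarith
    have h3 : D ^ 2 * ((r : ℝ) + r) = 2 * D ^ 2 * r := by ring
    linarith
  have hJ3 : (J : ℝ) ^ 3 ≤ lam := (pow_le_pow_right₀ hJr1 hβ).trans hJl
  refine ⟨R, r, J, by omega, hJl, ?_⟩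
  have hout : ∀ x ∈ K, ∀ i, |vs c x i| ≤ R := by
    intro x hx i
    have h1 := hpol.bdd (lam⁻¹ • em (vs c x)) (fun l => by
      rw [dotProduct_smul, smul_eq_mul, inv_mul_le_iff₀ hlam0]
      exact (hK x).1 hx l) i
    rw [Pi.smul_apply, smul_eq_mul, abs_mul, abs_of_pos (inv_pos.2 hlam0),
      inv_mul_le_iff₀ hlam0] at h1
    have h2 : |em (vs c x) i| ≤ (R : ℝ) := by
      refine h1.trans ?_
      rw [mul_comm]
      exact hR1
    have h3 : ((|vs c x i| : ℤ) : ℝ) ≤ ((R : ℤ) : ℝ) := by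
      rw [Int.cast_abs]
      push_cast
      exact h2
    exact_mod_cast h3
  have hcore : ∀ x : Fin n → ℤ, (∀ i, |vs c x i| ≤ r) → x ∈ K := by
    intro x hx
    rw [hK]
    intro j
    have h1 : ∀ i, |em (vs c x) i| ≤ (r : ℝ) := by
      intro i
      have h2 : ((|vs c x i| : ℤ) : ℝ) ≤ ((r : ℤ) : ℝ) := by exact_mod_cast hx i
      rw [Int.cast_abs] at h2
      push_cast at h2
      exact h2
    have h2 := dot_le (hpol.hD j) (Nat.cast_nonneg r) h1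
    have h3 : h j ⬝ᵥ em (vs c x) ≤ D * r := (le_abs_self _).trans h2
    have h4 := hpol.b0 j
    have h5 : lam * 1 ≤ lam * (D * b j) := mul_le_mul_of_nonneg_left h4 hlam0.le
    have h6 : D * (D * r) ≤ D * (lam * b j) := by
      calc D * (D * r) = D ^ 2 * r := by ring
        _ ≤ lam := hr1'
        _ ≤ D * (lam * b j) := by linarith
    exact h3.trans (le_of_mul_le_mul_left h6 hD0)
  have hgood : ∀ m : ℕ, m ≠ 0 → m ≤ 200 * R ^ 2 → Good J m := by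
    intro m hm0 hm
    refine good_of_pow (k := k) (by omega) hm0 ?_
    have h1 : (m : ℝ) ≤ 200 * (R : ℝ) ^ 2 := by exact_mod_cast hm
    have h2 : (R : ℝ) ^ 2 ≤ (2 * D * lam) ^ 2 := pow_le_pow_left₀ (Nat.cast_nonneg _) hR2 2
    have h3 : (Cg k : ℝ) * m ≤ (J : ℝ) ^ k := by
      calc (Cg k : ℝ) * m ≤ Cg k * (200 * (2 * D * lam) ^ 2) :=
            mul_le_mul_of_nonneg_left (by linarith) (Nat.cast_nonneg _)
        _ = (800 * (Cg k : ℝ) * D ^ 2) * lam ^ 2 := by ring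
        _ ≤ (Ac : ℝ) ^ 2 * lam ^ 2 := mul_le_mul_of_nonneg_right h800 (sq_nonneg _)
        _ = (Ac * lam) ^ 2 := by ring
        _ ≤ ((J : ℝ) ^ (β + 1)) ^ 2 := pow_le_pow_left₀ (by positivity) hJl2 2
        _ = (J : ℝ) ^ k := by
            rw [← pow_mul, hk]
            congr 1
            ring
    exact_mod_cast h3
  have hJr : 64 * (J * kap) ≤ r := by
    have h1 : D ^ 2 * ((64 * (kap : ℝ) + 1) * J) ≤ lam := by
      calc D ^ 2 * ((64 * (kap : ℝ) + 1) * J) = (D ^ 2 * (64 * (kap : ℝ) + 1)) * J := by ring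
        _ ≤ (Ac : ℝ) ^ 2 * J := mul_le_mul_of_nonneg_right h64 (by linarith)
        _ ≤ (J : ℝ) ^ 2 * J := mul_le_mul_of_nonneg_right
            (pow_le_pow_left₀ (by linarith) hJAr 2) (by linarith)
        _ = (J : ℝ) ^ 3 := by ring
        _ ≤ lam := hJ3
    have h2 : D ^ 2 * ((64 * (kap : ℝ) + 1) * J) < D ^ 2 * (r + 1) := lt_of_le_of_lt h1 hr2'
    have h3 : (64 * (kap : ℝ) + 1) * J < r + 1 := lt_of_mul_lt_mul_left h2 hDp.le
    have h4 : (64 : ℝ) * (J * kap) ≤ r := by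
      have h5 : (64 * (kap : ℝ) + 1) * J = 64 * (J * kap) + J := by ring
      linarith
    exact_mod_cast h4
  have hrR : r ≤ R := by
    have h1 : (r : ℝ) ≤ R := by
      have h2 : (r : ℝ) ≤ D ^ 2 * r := by
        have : (0 : ℝ) ≤ r := Nat.cast_nonneg _
        nlinarith
      linarith
    exact_mod_cast h1
  have hRr : R ≤ kap * r := by
    have h1 : (R : ℝ) ≤ kap * r := by
      calc (R : ℝ) ≤ 2 * D * lam := hR2
        _ ≤ 2 * D * (2 * D ^ 2 * r) := mul_le_mul_of_nonneg_left hr3 (by positivity)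
        _ = (4 * D ^ 3) * r := by ring
        _ ≤ kap * r := mul_le_mul_of_nonneg_right hkapD (Nat.cast_nonneg _)
    exact_mod_cast h1
  exact
    { twf := ⟨hTw, hn, hout, hcore, hgood, hJ1, hJr, hrR, hRr⟩
      pol := hpol
      mem := hK
      lam1 := by linarith
      RD := hR2
      lr := hr3
      JD := h10.trans hJAr
      Jk := by omega }

end Pool.Agent.Lib.MP_8cf263_co
end

section

/-!
# Round patches, file RtDir: a rational direction near the normal of the round spot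

`dir2` is `dir` (RsDirA) with a given support functional `ν` at `q₁` and the additional output that
`u` is close to a positive multiple `t ν`, with any given precision `ε`.  Proof: copy the proof of
`dir` (with its private lemmas `strong1`, `cap1`, ...) with `l = ν`; use `approx` with the minimum of
the number used there and of `ε`.
-/

set_option autoImplicit false

namespace Pool.Agent.Lib.MP_8cf263_co

variable {m : ℕ} {N : (Fin (m + 2) → ℝ) → ℝ} {μ M : ℝ}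

private theorem strong2 (hN : Nrm N) {q₁ l : Fin (m + 2) → ℝ} {r : ℝ} (hr : 0 < r)
    (h1 : N q₁ = 1) (hp : Pin (fun x => N x ^ 2) q₁ (4 * r) μ M) (hl1 : l ⬝ᵥ q₁ = 1)
    (hl : ∀ x, l ⬝ᵥ x ≤ N x) {x : Fin (m + 2) → ℝ} (hx : Bl q₁ (3 * r) x) :
    1 + 2 * (l ⬝ᵥ x - 1) + μ * ((x - q₁) ⬝ᵥ (x - q₁)) ≤ N x ^ 2 := by
  have hq : Bl q₁ (3 * r) q₁ := by
    unfold Bl
    rw [sub_self, zero_dotProduct]
    positivity
  have h2 := (quad hr hp hx hq (p := (2 : ℝ) • l) (by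
    intro z
    show N q₁ ^ 2 + ((2 : ℝ) • l) ⬝ᵥ (z - q₁) ≤ N z ^ 2
    rw [smul_dotProduct, dotProduct_sub, hl1, h1, smul_eq_mul]
    have h3 := hl z
    nlinarith [sq_nonneg (N z - 1)])).1
  have h3 : N q₁ ^ 2 + ((2 : ℝ) • l) ⬝ᵥ (x - q₁) + μ * ((x - q₁) ⬝ᵥ (x - q₁)) ≤ N x ^ 2 := h2
  rw [smul_dotProduct, dotProduct_sub, hl1, h1, smul_eq_mul] at h3
  linarith

private theorem cap2 (hN : Nrm N) {q₁ l : Fin (m + 2) → ℝ} {r : ℝ} (hr : 0 < r) (hμ : 0 < μ)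
    (h1 : N q₁ = 1) (hp : Pin (fun x => N x ^ 2) q₁ (4 * r) μ M) (hl1 : l ⬝ᵥ q₁ = 1)
    (hl : ∀ x, l ⬝ᵥ x ≤ N x) {x : Fin (m + 2) → ℝ} (hx : N x ≤ 1)
    (hlx : 1 - μ * r ^ 2 / 4 ≤ l ⬝ᵥ x) : Bl q₁ r x := by
  by_contra hcon
  unfold Bl at hcon
  rw [not_le] at hcon
  have hD0 : 0 < (x - q₁) ⬝ᵥ (x - q₁) := lt_trans (by positivity) hcon
  obtain ⟨D, hD, hDD⟩ : ∃ D : ℝ, 0 < D ∧ D ^ 2 = (x - q₁) ⬝ᵥ (x - q₁) :=
    ⟨Real.sqrt ((x - q₁) ⬝ᵥ (x - q₁)), Real.sqrt_pos.2 hD0, Real.sq_sqrt hD0.le⟩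
  rw [← hDD] at hcon
  have hrD : r < D := lt_of_pow_lt_pow_left₀ 2 hD.le hcon
  have ht0 : 0 < r / D := div_pos hr hD
  have ht1 : r / D < 1 := (div_lt_one hD).2 hrD
  obtain ⟨t, htt⟩ : ∃ t, t = r / D := ⟨_, rfl⟩
  rw [← htt] at ht0 ht1
  have htD : t * D = r := by
    rw [htt]
    field_simp
  have hx' : N (q₁ + t • (x - q₁)) ≤ 1 := by
    have e : q₁ + t • (x - q₁) = (1 - t) • q₁ + t • x := by
      ext i
      simp only [Pi.sub_apply, Pi.add_apply, Pi.smul_apply, smul_eq_mul]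
      ring
    rw [e]
    refine (hN.tri _ _).trans ?_
    rw [hN.sm, hN.sm, abs_of_pos ht0, abs_of_pos (sub_pos.2 ht1), h1]
    nlinarith
  have e2 : (q₁ + t • (x - q₁) - q₁) ⬝ᵥ (q₁ + t • (x - q₁) - q₁) = r ^ 2 := by
    rw [add_sub_cancel_left, smul_dotProduct, dotProduct_smul, smul_eq_mul, smul_eq_mul, ← hDD,
      ← htD]
    ring
  have hb : Bl q₁ (3 * r) (q₁ + t • (x - q₁)) := by
    unfold Bl
    rw [e2]
    nlinarith [sq_nonneg r]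
  have h3 := strong2 hN hr h1 hp hl1 hl hb
  rw [e2, dotProduct_add, dotProduct_smul, dotProduct_sub, hl1, smul_eq_mul] at h3
  have h4 : N (q₁ + t • (x - q₁)) ^ 2 ≤ 1 := pow_le_one₀ (hN.nn _) hx'
  have h5 : l ⬝ᵥ x ≤ 1 := (hl x).trans hx
  have h6 : 0 < μ * r ^ 2 := by positivity
  nlinarith

theorem dir2 (hN : Nrm N) {q₁ ν : Fin (m + 2) → ℝ} {r ε : ℝ} (hr : 0 < r) (hμ : 0 < μ)
    (h1 : N q₁ = 1) (hp : Pin (fun x => N x ^ 2) q₁ (4 * r) μ M) (hν1 : ν ⬝ᵥ q₁ = 1)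
    (hν : ∀ x, ν ⬝ᵥ x ≤ N x) (hε : 0 < ε) :
    ∃ (u : Fin (m + 2) → ℤ) (t : ℝ) (q₀ : Fin (m + 2) → ℝ), 0 < t ∧ IsCoprime (u 0) (u 1) ∧
      (∀ i, |(u i : ℝ) - t * ν i| ≤ ε * t) ∧ N q₀ = 1 ∧
      (∀ x, em u ⬝ᵥ x ≤ (em u ⬝ᵥ q₀) * N x) ∧ Bl q₁ r q₀ := by
  obtain ⟨a, b, ha, -, hab, -⟩ := hN.equiv
  have hδ : 0 < μ * r ^ 2 / 4 := by positivity
  obtain ⟨δ, hδe⟩ : ∃ δ, δ = μ * r ^ 2 / 4 := ⟨_, rfl⟩
  rw [← hδe] at hδ
  have hm : (0 : ℝ) < (m : ℝ) + 2 := by positivity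
  obtain ⟨η, hηe⟩ : ∃ η, η = δ * a / (2 * ((m : ℝ) + 2)) := ⟨_, rfl⟩
  have hη : 0 < η := by
    rw [hηe]
    positivity
  obtain ⟨u, t, ht, hcop, hut0⟩ := approx ν (lt_min hη hε)
  have hut : ∀ i, |(u i : ℝ) - t * ν i| ≤ η * t := fun i =>
    (hut0 i).trans (mul_le_mul_of_nonneg_right (min_le_left _ _) ht.le)
  have hut2 : ∀ i, |(u i : ℝ) - t * ν i| ≤ ε * t := fun i =>
    (hut0 i).trans (mul_le_mul_of_nonneg_right (min_le_right _ _) ht.le)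
  have hcoord : ∀ x : Fin (m + 2) → ℝ, N x ≤ 1 → ∀ i, |x i| ≤ a⁻¹ := by
    intro x hx i
    rw [← one_div, le_div_iff₀ ha, mul_comm]
    exact (hab x i).trans hx
  have hcomp : IsCompact {x : Fin (m + 2) → ℝ | N x ≤ 1} := by
    refine Metric.isCompact_of_isClosed_isBounded (isClosed_le hN.cont continuous_const) ?_
    refine (Metric.isBounded_closedBall (x := (0 : Fin (m + 2) → ℝ)) (r := a⁻¹)).subset ?_
    intro x hx
    rw [mem_closedBall_zero_iff, pi_norm_le_iff_of_nonneg (inv_pos.2 ha).le]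
    intro i
    rw [Real.norm_eq_abs]
    exact hcoord x hx i
  have hcont : Continuous fun x : Fin (m + 2) → ℝ => em u ⬝ᵥ x := by
    unfold dotProduct
    fun_prop
  obtain ⟨q₀, hq₀, hmax⟩ := hcomp.exists_isMaxOn ⟨q₁, h1.le⟩ hcont.continuousOn
  have hmax' : ∀ x, N x ≤ 1 → em u ⬝ᵥ x ≤ em u ⬝ᵥ q₀ := fun x hx => hmax hx
  have hq₀' : N q₀ ≤ 1 := hq₀
  have hlq : 1 - δ ≤ ν ⬝ᵥ q₀ := by
    have h2 := hmax' q₁ h1.le
    have h3 : ∀ i, (em u i - t * ν i) * (q₀ i - q₁ i) ≤ η * t * (2 * a⁻¹) := by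
      intro i
      have g1 : |em u i - t * ν i| ≤ η * t := hut i
      have g2 : |q₀ i - q₁ i| ≤ 2 * a⁻¹ := by
        have g3 := hcoord q₀ hq₀' i
        have g4 := hcoord q₁ h1.le i
        rw [abs_le] at g3 g4 ⊢
        constructor <;> linarith [g3.1, g3.2, g4.1, g4.2]
      calc (em u i - t * ν i) * (q₀ i - q₁ i) ≤ |(em u i - t * ν i) * (q₀ i - q₁ i)| :=
            le_abs_self _
        _ = |em u i - t * ν i| * |q₀ i - q₁ i| := abs_mul _ _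
        _ ≤ η * t * (2 * a⁻¹) := mul_le_mul g1 g2 (abs_nonneg _) (by positivity)
    have h4 : ∑ i, (em u i - t * ν i) * (q₀ i - q₁ i) ≤ ((m : ℝ) + 2) * (η * t * (2 * a⁻¹)) := by
      refine (Finset.sum_le_sum fun i _ => h3 i).trans ?_
      rw [Finset.sum_const, Finset.card_univ, Fintype.card_fin, nsmul_eq_mul]
      push_cast
      exact le_refl _
    have h5 : ∑ i, (em u i - t * ν i) * (q₀ i - q₁ i) =
        em u ⬝ᵥ q₀ - em u ⬝ᵥ q₁ - t * (ν ⬝ᵥ q₀ - ν ⬝ᵥ q₁) := by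
      unfold dotProduct
      rw [← Finset.sum_sub_distrib, ← Finset.sum_sub_distrib, Finset.mul_sum,
        ← Finset.sum_sub_distrib]
      refine Finset.sum_congr rfl fun i _ => ?_
      ring
    have h6 : ((m : ℝ) + 2) * (η * t * (2 * a⁻¹)) = t * δ := by
      rw [hηe]
      field_simp
    rw [h5, h6, hν1] at h4
    have h7 : t * (1 - δ) ≤ t * (ν ⬝ᵥ q₀) := by linarith
    exact le_of_mul_le_mul_left h7 ht
  have hpos : 0 < em u ⬝ᵥ q₀ := by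
    obtain ⟨i, hi⟩ : ∃ i, u i ≠ 0 := by
      by_contra hcon
      push Not at hcon
      rw [hcon 0, hcon 1] at hcop
      exact not_isCoprime_zero_zero hcop
    have hE : 0 < N (Pi.single i 1) := by
      refine lt_of_le_of_ne (hN.nn _) fun h => ?_
      have h2 := congrFun (hN.z _ h.symm) i
      rw [Pi.single_eq_same, Pi.zero_apply] at h2
      exact one_ne_zero h2
    have hui : (0 : ℝ) < |(u i : ℝ)| := abs_pos.2 (Int.cast_ne_zero.2 hi)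
    have h2 := hmax' (((u i : ℝ) / (|(u i : ℝ)| * N (Pi.single i 1))) • Pi.single i 1) (by
      rw [hN.sm, abs_div, abs_mul, abs_abs, abs_of_pos hE]
      rw [div_mul_eq_mul_div, div_le_one (by positivity)])
    refine lt_of_lt_of_le ?_ h2
    rw [dotProduct_smul, dotProduct_single, smul_eq_mul, mul_one]
    show 0 < (u i : ℝ) / (|(u i : ℝ)| * N (Pi.single i 1)) * (u i : ℝ)
    have h3 : (u i : ℝ) / (|(u i : ℝ)| * N (Pi.single i 1)) * (u i : ℝ) =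
        |(u i : ℝ)| ^ 2 / (|(u i : ℝ)| * N (Pi.single i 1)) := by
      rw [sq_abs]
      ring
    rw [h3]
    positivity
  have hall : ∀ x, em u ⬝ᵥ x ≤ (em u ⬝ᵥ q₀) * N x := by
    intro x
    by_cases hx : x = 0
    · subst hx
      rw [dotProduct_zero]
      exact mul_nonneg hpos.le (hN.nn _)
    · have hNx : 0 < N x := lt_of_le_of_ne (hN.nn x) fun h => hx (hN.z x h.symm)
      have h2 := hmax' ((N x)⁻¹ • x) (by
        rw [hN.sm, abs_of_pos (inv_pos.2 hNx), inv_mul_cancel₀ hNx.ne'])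
      rw [dotProduct_smul, smul_eq_mul, inv_mul_le_iff₀ hNx] at h2
      linarith
  refine ⟨u, t, q₀, ht, hcop, hut2, ?_, hall, ?_⟩
  · refine le_antisymm hq₀' ?_
    have h2 := hall q₀
    by_contra hcon
    push Not at hcon
    nlinarith
  · refine cap2 hN hr hμ h1 hp hν1 hν hq₀' ?_
    rw [← hδe]
    exact hlq

end Pool.Agent.Lib.MP_8cf263_co
end

section

/-!
# Polytopes, file RpBox: boxes close to a vertex

Common hypotheses: `v` is a point of the polytope `{y : h l ⬝ᵥ y ≤ b l for all l}` at which the functional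
`ω` has its maximum, `∑ i, |ω i| ≤ W`, `1 ≤ W`.

`PT.box`.  Let `D ^ 2 (1 + 2 ρ) ≤ lam`.  There is `w` such that `w + z ∈ K` if `|z i| ≤ ρ`, and such that
`2 ω ⬝ᵥ em d ≤ 2 W D ^ 3 (1 + 2 ρ)` if moreover `w + z + d ∈ K`.
Proof.  Let `a = D ^ 2 (1 + 2 ρ) ≤ lam`, `p = (lam - a) • v`, `w i = round ((p i + c i) / 2)`, so
`|vs c w i - p i| ≤ 1` and `|vs c (w + z) i - p i| ≤ 1 + 2 ρ` (`vs_add`).  So
`h l ⬝ᵥ em (vs c (w + z)) ≤ (lam - a) b l + D (1 + 2 ρ) ≤ lam b l` (`dot_le`; `a b l ≥ a / D`, `b0`), and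
`w + z ∈ K` (`H.mem`).  `|v i| ≤ D` (`bdd`), so `|ω ⬝ᵥ v| ≤ W D` (`dot_le`).  If `w + z + d ∈ K`, then by
`PT.sc` (file RpDefs) and `vs_add`
`2 ω ⬝ᵥ em d ≤ lam ω ⬝ᵥ v - ω ⬝ᵥ em (vs c (w + z)) ≤ lam ω ⬝ᵥ v - (lam - a) ω ⬝ᵥ v + W (1 + 2 ρ)
= a ω ⬝ᵥ v + W (1 + 2 ρ) ≤ W D ^ 3 (1 + 2 ρ) + W (1 + 2 ρ) ≤ 2 W D ^ 3 (1 + 2 ρ)`.

`PT.topc`.  Let `K`, `L` differ in at most `N` points, `ρ₀ = (N ^ 2 + 1) J + 1`,
`D ^ 2 (1 + 2 ρ₀) ≤ lam`, and `ω ⬝ᵥ em y ≤ ω ⬝ᵥ em y₀` for all `y ∈ L \ K`.  Then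
`2 ω ⬝ᵥ em (x - y₀) ≤ 2 W D ^ 3 (1 + 2 ρ₀)` for all `x ∈ K \ L`.
Proof.  Take `w` from `PT.box` for `ρ₀`.  `npar_dir` (file RpDefs) for the vector `x + w - c` gives `z`,
`e` with coordinates at most `1`, `e` primitive, `x + w - c + z` not parallel to `e`.  Put
`s = x + w + z`; `2 (s - c) i = vs c x i + vs c (w + z) i` is at most `2 R` in absolute value
(`h.twf.out`).  `TwF.run0` (file RpVis) with `t₀ = 0` gives `0 ≤ t < (N ^ 2 + 1) J` with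
`Fv K L (s + t • e) = 0`.  `|(z + t • e) i| ≤ 1 + t ≤ ρ₀`, so
`s + t • e - x = w + (z + t • e) ∈ K`: the first set in the definition of `Fv K L (s + t • e)` contains
`x`, so the second one contains some `y ∈ L \ K`: `s + t • e - y = w + (z + t • e) + (x - y) ∈ K`, and
`2 ω ⬝ᵥ em (x - y) ≤ 2 W D ^ 3 (1 + 2 ρ₀)`.  Now `ω ⬝ᵥ em y ≤ ω ⬝ᵥ em y₀`.

`PT.count`.  Let moreover `y₀ ∈ L \ K`, `0 < θ`, `0 < M`, and
`θ |y₀ i - y i| ≤ 2 M |ω ⬝ᵥ em (y₀ - y)|` for all `y ∈ L \ K`, `y ≠ y₀`, `D ^ 2 (1 + 2 (ρ + ρ₀)) ≤ lam`,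
`2 M W D ^ 3 (1 + 2 (ρ + ρ₀)) ≤ θ ρ'`.  Then there are at most as many points of `K \ L` at distance
`≤ ρ` from `y₀` as there are points of `L \ K` at distance `≤ ρ'` from `y₀`.
Proof.  Take `w` from `PT.box` for `ρ + ρ₀`, `z`, `e` from `npar_dir` for `y₀ + w - c`,
`s = y₀ + w + z`, `|vs c y₀ i| ≤ 5 R` (`outU`), so `|(s - c) i| ≤ 3 R`, and `t` from `TwF.run0` as above,
`s' = s + t • e`.  If `x ∈ K \ L` is at distance `≤ ρ` from `y₀` then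
`s' - x = w + (z + t • e + (y₀ - x)) ∈ K`, so `x` is in the first set of `Fv K L s'`.  If `y` is in the
second set of `Fv K L s'`, then `s' - y = w + (z + t • e) + (y₀ - y) ∈ K`, so
`0 ≤ 2 ω ⬝ᵥ em (y₀ - y) ≤ 2 W D ^ 3 (1 + 2 (ρ + ρ₀))`, and `θ |y₀ i - y i| ≤ θ ρ'` if `y ≠ y₀`.
The two sets have the same number of elements.
-/

set_option autoImplicit false

namespace Pool.Agent.Lib.MP_8cf263_co

open Finset

variable {n : ℕ} {ι : Type} {K L : Finset (Fin n → ℤ)} {c : Fin n → ℤ} {R r J kap : ℕ}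
  {h : ι → Fin n → ℝ} {b : ι → ℝ} {D lam : ℝ}

private theorem box_round (p : ℝ) (k : ℤ) : |2 * ((round ((p + k) / 2) : ℤ) : ℝ) - k - p| ≤ 1 := by
  have h1 := abs_sub_round ((p + k) / 2)
  rw [abs_le] at h1 ⊢
  constructor <;> linarith [h1.1, h1.2]

private theorem PT.R1 (H : PT K L c R r J kap h b D lam) : (1 : ℤ) ≤ R := by
  have h1 : r ≠ 0 := by
    intro h0
    have h2 := H.lr
    have h3 := H.lam1
    rw [h0] at h2
    norm_num at h2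
    linarith
  have h2 := H.twf.rR
  omega

private theorem abs_zte {z e : Fin n → ℤ} (hz : ∀ i, |z i| ≤ 1) (he : ∀ i, |e i| ≤ 1) {t : ℤ}
    (h0 : 0 ≤ t) {T : ℕ} (ht : t < (T : ℤ)) (i : Fin n) : |(z + t • e) i| ≤ ((T + 1 : ℕ) : ℤ) := by
  have h1 : |(z + t • e) i| ≤ |z i| + |t * e i| := by
    rw [Pi.add_apply, Pi.smul_apply, smul_eq_mul]
    exact abs_add_le _ _
  have h2 : |t * e i| ≤ t := by
    rw [abs_mul, abs_of_nonneg h0]
    exact mul_le_of_le_one_right h0 (he i)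
  have h3 := hz i
  push_cast
  linarith

theorem PT.box (H : PT K L c R r J kap h b D lam) {ω v : Fin n → ℝ} {W : ℝ}
    (hW : ∑ i, |ω i| ≤ W) (hW1 : 1 ≤ W) (hv : ∀ l, h l ⬝ᵥ v ≤ b l)
    (hmax : ∀ y : Fin n → ℝ, (∀ l, h l ⬝ᵥ y ≤ b l) → ω ⬝ᵥ y ≤ ω ⬝ᵥ v) {ρ : ℕ}
    (hρ : D ^ 2 * (1 + 2 * (ρ : ℝ)) ≤ lam) :
    ∃ w : Fin n → ℤ, (∀ z : Fin n → ℤ, (∀ i, |z i| ≤ (ρ : ℤ)) → w + z ∈ K) ∧
      ∀ z d : Fin n → ℤ, (∀ i, |z i| ≤ (ρ : ℤ)) → w + z + d ∈ K →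
        2 * (ω ⬝ᵥ em d) ≤ 2 * (W * D ^ 3 * (1 + 2 * (ρ : ℝ))) := by
  classical
  have hD := H.pol.D1
  have hD0 : 0 < D := by linarith
  set q : ℝ := 1 + 2 * (ρ : ℝ) with hq
  have hq0 : 0 < q := by positivity
  set a : ℝ := D ^ 2 * q with ha
  have hla : 0 ≤ lam - a := by linarith
  have hclose : ∀ z : Fin n → ℤ, (∀ i, |z i| ≤ (ρ : ℤ)) → ∀ i,
      |(em (vs c ((fun i => round (((lam - a) * v i + c i) / 2)) + z)) - (lam - a) • v) i| ≤ q := by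
    intro z hz i
    have h1 := box_round ((lam - a) * v i) (c i)
    have h2 : |((z i : ℤ) : ℝ)| ≤ ρ := by exact_mod_cast hz i
    have h3 : (em (vs c ((fun i => round (((lam - a) * v i + c i) / 2)) + z)) - (lam - a) • v) i =
        (2 * ((round (((lam - a) * v i + c i) / 2) : ℤ) : ℝ) - c i - (lam - a) * v i) +
          2 * ((z i : ℤ) : ℝ) := by
      simp only [em, vs, Pi.add_apply, Pi.sub_apply, Pi.smul_apply, smul_eq_mul]
      push_cast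
      ring
    rw [h3]
    have h4 := abs_add_le (2 * ((round (((lam - a) * v i + c i) / 2) : ℤ) : ℝ) - c i -
      (lam - a) * v i) (2 * ((z i : ℤ) : ℝ))
    have h5 : |2 * ((z i : ℤ) : ℝ)| = 2 * |((z i : ℤ) : ℝ)| := by
      rw [abs_mul, abs_of_pos (by norm_num : (0 : ℝ) < 2)]
    rw [h5] at h4
    linarith
  refine ⟨fun i => round (((lam - a) * v i + c i) / 2), ?_, ?_⟩
  · intro z hz
    rw [H.mem]
    intro l
    have h1 := dot_le (H.pol.hD l) hq0.le (hclose z hz)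
    rw [dotProduct_sub, dotProduct_smul, smul_eq_mul] at h1
    have h2 := (abs_le.1 h1).2
    have h3 := mul_le_mul_of_nonneg_left (hv l) hla
    have h4 := mul_le_mul_of_nonneg_left (H.pol.b0 l) (mul_nonneg hD0.le hq0.le)
    have h5 : D * q * (D * b l) = a * b l := by
      rw [ha]
      ring
    linarith
  · intro z d hz hd
    have h1 := H.sc hmax hd
    rw [vs_add, dotProduct_add, dotProduct_smul, smul_eq_mul] at h1
    have h2 := dot_le hW hq0.le (hclose z hz)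
    rw [dotProduct_sub, dotProduct_smul, smul_eq_mul] at h2
    have h3 := (abs_le.1 h2).1
    have h4 := (abs_le.1 (dot_le hW hD0.le (H.pol.bdd v hv))).2
    have h5 := mul_le_mul_of_nonneg_left h4 (mul_nonneg (sq_nonneg D) hq0.le)
    have h6 : W * q ≤ W * D ^ 3 * q := by
      have h7 : (1 : ℝ) ≤ D ^ 3 := one_le_pow₀ hD
      have h8 : 0 ≤ W * q := by positivity
      nlinarith
    have h7 : D ^ 2 * q * (ω ⬝ᵥ v) = a * (ω ⬝ᵥ v) := by rw [ha]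
    have h8 : D ^ 2 * q * (W * D) = W * D ^ 3 * q := by ring
    rw [h7, h8] at h5
    linarith

theorem PT.topc (H : PT K L c R r J kap h b D lam) {ω v : Fin n → ℝ} {W : ℝ}
    (hW : ∑ i, |ω i| ≤ W) (hW1 : 1 ≤ W) (hv : ∀ l, h l ⬝ᵥ v ≤ b l)
    (hmax : ∀ y : Fin n → ℝ, (∀ l, h l ⬝ᵥ y ≤ b l) → ω ⬝ᵥ y ≤ ω ⬝ᵥ v) {N : ℕ}
    (hN : (K \ L).card + (L \ K).card ≤ N) {y₀ : Fin n → ℤ}
    (htop : ∀ y ∈ L \ K, ω ⬝ᵥ em y ≤ ω ⬝ᵥ em y₀)
    (hlam : D ^ 2 * (1 + 2 * (((N ^ 2 + 1) * J + 1 : ℕ) : ℝ)) ≤ lam) :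
    ∀ x ∈ K \ L, 2 * (ω ⬝ᵥ em (x - y₀)) ≤
      2 * (W * D ^ 3 * (1 + 2 * (((N ^ 2 + 1) * J + 1 : ℕ) : ℝ))) := by
  classical
  intro x hx
  obtain ⟨w, hw1, hw2⟩ := H.box hW hW1 hv hmax hlam
  obtain ⟨z, e, hz, he1, hpe, i, j, hij⟩ := npar_dir H.twf.n2 (x + w - c)
  have hR := H.R1
  have hxK := (mem_sdiff.1 hx).1
  have hsc : x + w + z - c = x + w - c + z := by abel
  have hwz : w + z ∈ K := hw1 z fun i => by
    have h1 := hz i
    push_cast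
    have h2 : (0 : ℤ) ≤ ((N : ℤ) ^ 2 + 1) * J := by positivity
    linarith
  have hs : ∀ i, |(x + w + z - c) i| ≤ 10 * R := by
    intro i
    have h1 := H.twf.out x hxK i
    have h2 := H.twf.out _ hwz i
    have h3 : 2 * (x + w + z - c) i = vs c x i + vs c (w + z) i := by
      simp only [vs, Pi.add_apply, Pi.sub_apply]
      ring
    rw [abs_le] at h1 h2 ⊢
    constructor <;> linarith [h1.1, h1.2, h2.1, h2.2]
  obtain ⟨t, ht0, ht1, hF⟩ := H.twf.run0 hN hpe hs (fun i => (he1 i).trans (by linarith))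
    ⟨i, j, by rw [hsc]; exact hij⟩ 0
  rw [zero_add] at ht1
  have hzt := abs_zte hz he1 ht0 ht1
  have hxm : x ∈ (K \ L).filter fun x' => x + w + z + t • e - x' ∈ K := by
    rw [mem_filter]
    refine ⟨hx, ?_⟩
    have h1 : x + w + z + t • e - x = w + (z + t • e) := by abel
    rw [h1]
    exact hw1 _ hzt
  have hcard : 0 < ((L \ K).filter fun y => x + w + z + t • e - y ∈ K).card := by
    have h1 := card_pos.2 ⟨x, hxm⟩
    unfold Fv at hF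
    omega
  obtain ⟨y, hy⟩ := card_pos.1 hcard
  rw [mem_filter] at hy
  have h1 : x + w + z + t • e - y = w + (z + t • e) + (x - y) := by abel
  have h2 := hw2 (z + t • e) (x - y) hzt (by rw [← h1]; exact hy.2)
  have h3 := htop y hy.1
  have h4 : ω ⬝ᵥ em (x - y) = ω ⬝ᵥ em x - ω ⬝ᵥ em y := by rw [em_sub, dotProduct_sub]
  have h5 : ω ⬝ᵥ em (x - y₀) = ω ⬝ᵥ em x - ω ⬝ᵥ em y₀ := by rw [em_sub, dotProduct_sub]
  rw [h4] at h2
  rw [h5]
  linarith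

theorem PT.count (H : PT K L c R r J kap h b D lam) {ω v : Fin n → ℝ} {W : ℝ}
    (hW : ∑ i, |ω i| ≤ W) (hW1 : 1 ≤ W) (hv : ∀ l, h l ⬝ᵥ v ≤ b l)
    (hmax : ∀ y : Fin n → ℝ, (∀ l, h l ⬝ᵥ y ≤ b l) → ω ⬝ᵥ y ≤ ω ⬝ᵥ v) {N : ℕ}
    (hN : (K \ L).card + (L \ K).card ≤ N) {y₀ : Fin n → ℤ} (hy₀ : y₀ ∈ L \ K)
    (htop : ∀ y ∈ L \ K, ω ⬝ᵥ em y ≤ ω ⬝ᵥ em y₀) {θ M : ℝ} (hθ : 0 < θ) (hM : 0 < M)
    (hgen : ∀ y ∈ L \ K, y ≠ y₀ → ∀ i,
      θ * |((y₀ i - y i : ℤ) : ℝ)| ≤ 2 * M * |ω ⬝ᵥ em (y₀ - y)|)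
    {ρ ρ' : ℕ} (hlam : D ^ 2 * (1 + 2 * ((ρ + ((N ^ 2 + 1) * J + 1) : ℕ) : ℝ)) ≤ lam)
    (hρ' : 2 * M * (W * D ^ 3 * (1 + 2 * ((ρ + ((N ^ 2 + 1) * J + 1) : ℕ) : ℝ))) ≤ θ * ρ') :
    ((K \ L).filter fun x => ∀ i, |x i - y₀ i| ≤ (ρ : ℤ)).card ≤
      ((L \ K).filter fun y => ∀ i, |y i - y₀ i| ≤ (ρ' : ℤ)).card := by
  classical
  obtain ⟨w, hw1, hw2⟩ := H.box hW hW1 hv hmax hlam
  obtain ⟨z, e, hz, he1, hpe, i, j, hij⟩ := npar_dir H.twf.n2 (y₀ + w - c)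
  have hR := H.R1
  have hsc : y₀ + w + z - c = y₀ + w - c + z := by abel
  have hwz : w + z ∈ K := hw1 z fun i => by
    have h1 := hz i
    push_cast
    have h2 : (0 : ℤ) ≤ ((N : ℤ) ^ 2 + 1) * J := by positivity
    have h3 : (0 : ℤ) ≤ ρ := by positivity
    linarith
  have hs : ∀ i, |(y₀ + w + z - c) i| ≤ 10 * R := by
    intro i
    have h1 := H.twf.outU (mem_union_right K (mem_sdiff.1 hy₀).1) i
    have h2 := H.twf.out _ hwz i
    have h3 : 2 * (y₀ + w + z - c) i = vs c y₀ i + vs c (w + z) i := by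
      simp only [vs, Pi.add_apply, Pi.sub_apply]
      ring
    rw [abs_le] at h1 h2 ⊢
    constructor <;> linarith [h1.1, h1.2, h2.1, h2.2]
  obtain ⟨t, ht0, ht1, hF⟩ := H.twf.run0 hN hpe hs (fun i => (he1 i).trans (by linarith))
    ⟨i, j, by rw [hsc]; exact hij⟩ 0
  rw [zero_add] at ht1
  have hzt := abs_zte hz he1 ht0 ht1
  have hcard : ((K \ L).filter fun x => y₀ + w + z + t • e - x ∈ K).card =
      ((L \ K).filter fun y => y₀ + w + z + t • e - y ∈ K).card := by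
    unfold Fv at hF
    omega
  have hsub1 : ((K \ L).filter fun x => ∀ i, |x i - y₀ i| ≤ (ρ : ℤ)) ⊆
      (K \ L).filter fun x => y₀ + w + z + t • e - x ∈ K := by
    intro x hx
    rw [mem_filter] at hx ⊢
    refine ⟨hx.1, ?_⟩
    have h1 : y₀ + w + z + t • e - x = w + (z + t • e + (y₀ - x)) := by abel
    rw [h1]
    refine hw1 _ fun i => ?_
    have h2 := abs_add_le ((z + t • e) i) ((y₀ - x) i)
    have h3 := hzt i
    have h4 : |(y₀ - x) i| ≤ (ρ : ℤ) := by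
      rw [Pi.sub_apply, abs_sub_comm]
      exact hx.2 i
    rw [Pi.add_apply]
    push_cast at h3 ⊢
    linarith
  have hsub2 : ((L \ K).filter fun y => y₀ + w + z + t • e - y ∈ K) ⊆
      (L \ K).filter fun y => ∀ i, |y i - y₀ i| ≤ (ρ' : ℤ) := by
    intro y hy
    rw [mem_filter] at hy ⊢
    refine ⟨hy.1, fun i => ?_⟩
    by_cases hyy : y = y₀
    · rw [hyy, sub_self, abs_zero]
      positivity
    have h1 : y₀ + w + z + t • e - y = w + (z + t • e) + (y₀ - y) := by abel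
    have h2 := hw2 (z + t • e) (y₀ - y) (fun i => (hzt i).trans (by
      push_cast
      have h3 : (0 : ℤ) ≤ ρ := by positivity
      linarith)) (by rw [← h1]; exact hy.2)
    have h3 := htop y hy.1
    have h4 : ω ⬝ᵥ em (y₀ - y) = ω ⬝ᵥ em y₀ - ω ⬝ᵥ em y := by rw [em_sub, dotProduct_sub]
    have h5 : 0 ≤ ω ⬝ᵥ em (y₀ - y) := by rw [h4]; linarith
    have h6 := hgen y hy.1 hyy i
    rw [abs_of_nonneg h5] at h6
    have h7 : θ * |((y₀ i - y i : ℤ) : ℝ)| ≤ θ * ρ' := by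
      refine h6.trans (le_trans ?_ hρ')
      have h8 := mul_le_mul_of_nonneg_left h2 hM.le
      linarith
    have h8 := le_of_mul_le_mul_left h7 hθ
    have h9 : |y₀ i - y i| ≤ (ρ' : ℤ) := by exact_mod_cast h8
    rw [abs_sub_comm]
    exact h9
  calc _ ≤ ((K \ L).filter fun x => y₀ + w + z + t • e - x ∈ K).card := card_le_card hsub1
    _ = ((L \ K).filter fun y => y₀ + w + z + t • e - y ∈ K).card := hcard
    _ ≤ _ := card_le_card hsub2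

end Pool.Agent.Lib.MP_8cf263_co
end

section

/-!
# Polytopes, file RpFinal: an isolated group of points of `K Δ L` close to the top is impossible

Let `v` be a point of the polytope at which `ω` has its maximum, and which is on the facet `j`.  Let
`y₀ ∈ L \ K` be the point with the greatest `ω ⬝ᵥ em y` in `L \ K`; every point of `K \ L` is at most `τ`
higher (`hτ`).  Let every point of `S = K Δ L` be at distance `≤ ρ` or `> t` from `y₀` (`hgap`), `ω` be in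
general position (`hgen`), and `t` be large (`ht1`, `ht2`).  This is impossible.

Proof.  Write `φ = h j`, `ell = (N ^ 2 + 1) J`.  By `hQ` and the definition of `P` we have
`0 ≤ Q`, `6 Q ≤ P`, `3 ≤ P`.  Let `δ = 1 / (D (2 ρ) ^ A)`, `0 < δ ≤ 1`, so `8 D (ell + 2) ≤ δ Q`.
(1) Let `S₀` be the set of the `x ∈ (K \ L) ∪ (L \ K)` at distance `≤ ρ` from `y₀` (all coordinates);
`y₀ ∈ S₀`.  Let `x₀ ∈ S₀` maximise `φ ⬝ᵥ em x` (`Finset.exists_max_image`).  If `x ∈ S₀`, `x ≠ x₀` then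
`|(x₀ - x) i| ≤ 2 ρ`, so by `hdio` `1 ≤ D |φ ⬝ᵥ em (x₀ - x)| (2 ρ) ^ A`, and as
`φ ⬝ᵥ em (x₀ - x) ≥ 0`, `φ ⬝ᵥ em (x₀ - x) ≥ δ`.
(2) Let `g` be the centre of the facet `j` (`H.pol.fc`); `h l ⬝ᵥ g ≤ b l` for all `l`, so `|g i| ≤ D`,
`|v i| ≤ D` (`bdd`).  Let `a = D ^ 2 P ≤ lam`, `p = (lam - a) • v + a • g`.  So `φ ⬝ᵥ p = lam b j`, and
`h l ⬝ᵥ p ≤ (lam - a) b l + a (b l - 1 / D) = lam b l - D P` for `l ≠ j`.
(3) `dio_run` (file RpDio) with `δ`, `ell`, `Q`, `p`, `c` and `s = x₀ - c` gives `w`, `e`.  For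
`0 ≤ t' ≤ ell` the point `w + t' • e` is in `K` (`H.mem`): for `l ≠ j` by `dot_le` and (2), for `j` by
`φ ⬝ᵥ em (vs c (w + t' • e)) ≤ φ ⬝ᵥ p = lam b j`.  `|e i| ≤ Q ≤ 10 R`, since
`6 D ^ 2 Q ≤ D ^ 2 P ≤ lam ≤ 2 D ^ 2 r ≤ 2 D ^ 2 R`.  `2 (x₀ + w - c) i = vs c x₀ i + vs c w i` is at most
`5 R + R` in absolute value (`outU`, `out`).  `x₀ + w - c = s + w` is not parallel to `e`.  So
`TwF.run0` (file RpVis) gives `0 ≤ t' < ell` with `Fv K L (x₀ + w + t' • e) = 0`.  Put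
`s' = x₀ + w + t' • e`; `s' - x₀ = w + t' • e ∈ K`.
(4) Claim: `s' - x ∉ K` if `x ∈ S`, `x ≠ x₀`.  `s' - x = w + t' • e + (x₀ - x)`.
If `x ∈ S₀`: `φ ⬝ᵥ em (vs c (s' - x)) ≥ lam b j - δ + 2 δ > lam b j` (`vs_add`).
Otherwise `t < |x i - y₀ i|` for some `i`, so `x ≠ y₀` and `θ t < 2 M |ω ⬝ᵥ em (y₀ - x)|`.  We have
`0 ≤ ω ⬝ᵥ em (y₀ - x)`: for `x ∈ L \ K` by `htop`; for `x ∈ K \ L` otherwise
`2 M τ ≤ θ t < 2 M ω ⬝ᵥ em (x - y₀) ≤ 2 M τ`.  As `|ω ⬝ᵥ em (x₀ - y₀)| ≤ W ρ` (`dot_le`),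
`2 M ω ⬝ᵥ em (x₀ - x) > θ t - 2 M W ρ ≥ M (3 W D ^ 3 P)`.  Next, `|ω ⬝ᵥ g|, |ω ⬝ᵥ v| ≤ W D`, so
`ω ⬝ᵥ p ≥ lam ω ⬝ᵥ v - 2 a W D`, `ω ⬝ᵥ em (vs c (w + t' • e)) ≥ lam ω ⬝ᵥ v - 2 W D ^ 3 P - W P`, and
`ω ⬝ᵥ em (vs c (s' - x)) > lam ω ⬝ᵥ v - 2 W D ^ 3 P - W P + 3 W D ^ 3 P ≥ lam ω ⬝ᵥ v`; so `s' - x ∉ K` by
`PT.sc`.
(5) So one of the two sets in the definition of `Fv K L s'` is `{x₀}` and the other is empty, and
`Fv K L s'` is `1` or `-1`, a contradiction.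
-/

set_option autoImplicit false

namespace Pool.Agent.Lib.MP_8cf263_co

open Finset

variable {n : ℕ} {ι : Type} {K L : Finset (Fin n → ℤ)} {c : Fin n → ℤ} {R r J kap : ℕ}
  {h : ι → Fin n → ℝ} {b : ι → ℝ} {D lam : ℝ}

theorem PT.final (H : PT K L c R r J kap h b D lam) {ω v : Fin n → ℝ} {W : ℝ}
    (hW : ∑ i, |ω i| ≤ W) (hW1 : 1 ≤ W) (hv : ∀ l, h l ⬝ᵥ v ≤ b l)
    (hmax : ∀ y : Fin n → ℝ, (∀ l, h l ⬝ᵥ y ≤ b l) → ω ⬝ᵥ y ≤ ω ⬝ᵥ v) {N : ℕ}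
    (hN : (K \ L).card + (L \ K).card ≤ N) {y₀ : Fin n → ℤ} (hy₀ : y₀ ∈ L \ K)
    (htop : ∀ y ∈ L \ K, ω ⬝ᵥ em y ≤ ω ⬝ᵥ em y₀) {τ : ℝ}
    (hτ : ∀ x ∈ K \ L, ω ⬝ᵥ em (x - y₀) ≤ τ) {θ M : ℝ} (hθ : 0 < θ) (hM : 0 < M)
    (hgen : ∀ x, Df K L x → x ≠ y₀ → ∀ i,
      θ * |((y₀ i - x i : ℤ) : ℝ)| ≤ 2 * M * |ω ⬝ᵥ em (y₀ - x)|)
    {ρ t : ℕ} (hρ : 1 ≤ ρ)
    (hgap : ∀ x, Df K L x → (∀ i, |x i - y₀ i| ≤ (ρ : ℤ)) ∨ ∃ i, (t : ℤ) < |x i - y₀ i|)
    {j : ι} {A : ℕ} (hdio : Dio (h j) D A) (hjv : h j ⬝ᵥ v = b j) {Q : ℕ}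
    (hQ : 8 * D ^ 2 * (2 * (ρ : ℝ)) ^ A * ((((N ^ 2 + 1) * J : ℕ) : ℝ) + 2) ≤ Q) {P : ℝ}
    (hP : P = 3 + 2 * (Q : ℝ) * (2 * D ^ 2 * (Q : ℝ) ^ A + (((N ^ 2 + 1) * J : ℕ) : ℝ) + 3))
    (hlam : D ^ 2 * P ≤ lam) (ht1 : 2 * M * τ ≤ θ * t)
    (ht2 : M * (3 * W * D ^ 3 * P + 2 * W * ρ) ≤ θ * t) : False := by
  classical
  obtain ⟨ell, hell⟩ : ∃ ell : ℕ, ell = (N ^ 2 + 1) * J := ⟨_, rfl⟩
  rw [← hell] at hQ hP
  have hD1 : 1 ≤ D := H.pol.D1
  have hD0 : 0 < D := lt_of_lt_of_le one_pos hD1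
  have hφ : ∑ i, |h j i| ≤ D := H.pol.hD j
  have hρ' : (1 : ℝ) ≤ ρ := by exact_mod_cast hρ
  have h2ρ : (1 : ℝ) ≤ 2 * (ρ : ℝ) := by linarith
  have hpow : (1 : ℝ) ≤ (2 * (ρ : ℝ)) ^ A := one_le_pow₀ h2ρ
  have hell0 : (0 : ℝ) ≤ (ell : ℝ) := Nat.cast_nonneg _
  have hQ0 : (0 : ℝ) ≤ (Q : ℝ) := Nat.cast_nonneg _
  have hQA : (0 : ℝ) ≤ (Q : ℝ) ^ A := pow_nonneg hQ0 _
  have hDD : (0 : ℝ) ≤ 2 * D ^ 2 * (Q : ℝ) ^ A := by positivity
  have hP6 : 6 * (Q : ℝ) ≤ P := by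
    rw [hP]
    nlinarith
  have hP3 : (3 : ℝ) ≤ P := by
    rw [hP]
    nlinarith
  have hP0 : (0 : ℝ) ≤ P := by linarith
  -- `Q ≤ R`
  have hrR : (r : ℝ) ≤ R := by exact_mod_cast H.twf.rR
  have hQR : (Q : ℝ) ≤ R := by
    have h1 : D ^ 2 * (6 * (Q : ℝ)) ≤ D ^ 2 * (2 * R) := by
      calc D ^ 2 * (6 * (Q : ℝ)) ≤ D ^ 2 * P := mul_le_mul_of_nonneg_left hP6 (by positivity)
        _ ≤ lam := hlam
        _ ≤ 2 * D ^ 2 * r := H.lr
        _ ≤ D ^ 2 * (2 * R) := by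
            have : D ^ 2 * (r : ℝ) ≤ D ^ 2 * R := mul_le_mul_of_nonneg_left hrR (by positivity)
            linarith
    have h2 := le_of_mul_le_mul_left h1 (by positivity)
    linarith
  have hQRn : Q ≤ R := by exact_mod_cast hQR
  -- `δ`
  obtain ⟨δ, hδd⟩ : ∃ δ : ℝ, δ = 1 / (D * (2 * (ρ : ℝ)) ^ A) := ⟨_, rfl⟩
  have hden : 0 < D * (2 * (ρ : ℝ)) ^ A := by positivity
  have hden1 : 1 ≤ D * (2 * (ρ : ℝ)) ^ A := by nlinarith
  have hδ : 0 < δ := by rw [hδd]; positivity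
  have hδ1 : δ ≤ 1 := by
    rw [hδd, div_le_one hden]
    exact hden1
  have hδQ : 8 * D * ((ell : ℝ) + 2) ≤ δ * Q := by
    rw [hδd, one_div, ← div_eq_inv_mul, le_div_iff₀ hden]
    calc 8 * D * ((ell : ℝ) + 2) * (D * (2 * (ρ : ℝ)) ^ A)
        = 8 * D ^ 2 * (2 * (ρ : ℝ)) ^ A * ((ell : ℝ) + 2) := by ring
      _ ≤ Q := hQ
  -- `S₀`, `x₀`
  obtain ⟨S₀, hS₀⟩ : ∃ S₀ : Finset (Fin n → ℤ), S₀ = ((K \ L) ∪ (L \ K)).filter
    (fun x => ∀ i, |x i - y₀ i| ≤ (ρ : ℤ)) := ⟨_, rfl⟩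
  have hmS₀ : ∀ x, x ∈ S₀ ↔ x ∈ (K \ L) ∪ (L \ K) ∧ ∀ i, |x i - y₀ i| ≤ (ρ : ℤ) := by
    intro x
    rw [hS₀, mem_filter]
  have hyS₀ : y₀ ∈ S₀ := by
    rw [hmS₀]
    refine ⟨mem_union_right _ hy₀, fun i => ?_⟩
    rw [sub_self, abs_zero]
    exact Int.natCast_nonneg _
  obtain ⟨x₀, hx₀, hx₀max⟩ := Finset.exists_max_image S₀ (fun x => h j ⬝ᵥ em x) ⟨y₀, hyS₀⟩
  have hx₀' := (hmS₀ x₀).1 hx₀
  have hsep : ∀ x ∈ S₀, x ≠ x₀ → δ ≤ h j ⬝ᵥ em (x₀ - x) := by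
    intro x hx hne
    have h1 := (hmS₀ x).1 hx
    have h2 := hdio (x₀ - x) (sub_ne_zero.2 (Ne.symm hne)) (2 * ρ) (fun i => by
      have h3 := abs_le.1 (h1.2 i)
      have h4 := abs_le.1 (hx₀'.2 i)
      rw [Pi.sub_apply, abs_le]
      push_cast
      constructor <;> linarith [h3.1, h3.2, h4.1, h4.2])
    have h3 : 0 ≤ h j ⬝ᵥ em (x₀ - x) := by
      rw [em_sub, dotProduct_sub]
      have := hx₀max x hx
      linarith
    rw [abs_of_nonneg h3] at h2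
    push_cast at h2
    rw [hδd, div_le_iff₀ hden]
    calc (1 : ℝ) ≤ D * (h j ⬝ᵥ em (x₀ - x)) * (2 * (ρ : ℝ)) ^ A := h2
      _ = h j ⬝ᵥ em (x₀ - x) * (D * (2 * (ρ : ℝ)) ^ A) := by ring
  -- `g`, `p`
  obtain ⟨g, hg1, hg2⟩ := H.pol.fc j
  have hg3 : ∀ l, h l ⬝ᵥ g ≤ b l := by
    intro l
    by_cases hl : l = j
    · rw [hl, hg1]
    · have h1 := hg2 l hl
      have h2 : 0 < 1 / D := by positivity
      linarith
  have hgD : ∀ i, |g i| ≤ D := H.pol.bdd g hg3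
  have hvD : ∀ i, |v i| ≤ D := H.pol.bdd v hv
  obtain ⟨a, ha⟩ : ∃ a : ℝ, a = D ^ 2 * P := ⟨_, rfl⟩
  have ha0 : 0 ≤ a := by rw [ha]; positivity
  have hal : a ≤ lam := by rw [ha]; exact hlam
  obtain ⟨p, hp⟩ : ∃ p : Fin n → ℝ, p = (lam - a) • v + a • g := ⟨_, rfl⟩
  have hdp : ∀ y : Fin n → ℝ, y ⬝ᵥ p = (lam - a) * (y ⬝ᵥ v) + a * (y ⬝ᵥ g) := by
    intro y
    rw [hp, dotProduct_add, dotProduct_smul, dotProduct_smul, smul_eq_mul, smul_eq_mul]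
  have hpj : h j ⬝ᵥ p = lam * b j := by
    rw [hdp, hjv, hg1]
    ring
  have haD : a * (1 / D) = D * P := by
    rw [ha]
    field_simp
  have hpl : ∀ l, l ≠ j → h l ⬝ᵥ p ≤ lam * b l - D * P := by
    intro l hl
    rw [hdp]
    have h1 : (lam - a) * (h l ⬝ᵥ v) ≤ (lam - a) * b l :=
      mul_le_mul_of_nonneg_left (hv l) (by linarith)
    have h2 : a * (h l ⬝ᵥ g) ≤ a * (b l - 1 / D) :=
      mul_le_mul_of_nonneg_left (by linarith [hg2 l hl]) ha0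
    have h3 : a * (b l - 1 / D) = a * b l - D * P := by rw [mul_sub, haD]
    linarith
  -- the run
  obtain ⟨w, e, he, heQ, hnc, hrun⟩ := dio_run H.twf.n2 hD1 hφ hdio hδ hδ1 hδQ p c (x₀ - c)
  have hrun3 : ∀ t' : ℤ, 0 ≤ t' → t' ≤ ell → ∀ i, |(em (vs c (w + t' • e)) - p) i| ≤ P := by
    intro t' h1 h2 i
    have h3 := (hrun t' h1 h2).2.2 i
    rw [hP]
    exact h3
  have hK : ∀ t' : ℤ, 0 ≤ t' → t' ≤ ell → w + t' • e ∈ K := by
    intro t' h1 h2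
    rw [H.mem]
    intro l
    by_cases hl : l = j
    · subst hl
      rw [← hpj]
      exact (hrun t' h1 h2).2.1
    · have h3 := dot_le (H.pol.hD l) hP0 (hrun3 t' h1 h2)
      rw [dotProduct_sub] at h3
      have h4 := (abs_le.1 h3).2
      have h5 := hpl l hl
      linarith
  have hw : w ∈ K := by
    have h1 := hK 0 le_rfl (Int.natCast_nonneg _)
    rwa [zero_smul, add_zero] at h1
  have hx₀U : x₀ ∈ K ∪ L := by
    have h1 := hx₀'.1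
    rw [mem_union, mem_sdiff, mem_sdiff] at h1
    rw [mem_union]
    tauto
  have hs : ∀ i, |(x₀ + w - c) i| ≤ 10 * R := by
    intro i
    have h1 := H.twf.outU hx₀U i
    have h2 := H.twf.out w hw i
    have h3 : 2 * (x₀ + w - c) i = vs c x₀ i + vs c w i := by
      simp only [vs, Pi.add_apply, Pi.sub_apply]
      ring
    have h4 := abs_le.1 h1
    have h5 := abs_le.1 h2
    rw [abs_le]
    constructor <;> linarith [h4.1, h4.2, h5.1, h5.2, (Int.natCast_nonneg R)]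
  have hee : ∀ i, |e i| ≤ 10 * R := by
    intro i
    have h1 := heQ i
    have h2 : (Q : ℤ) ≤ R := by exact_mod_cast hQRn
    linarith [(Int.natCast_nonneg R)]
  have hsc : x₀ - c + w = x₀ + w - c := by abel
  rw [hsc] at hnc
  obtain ⟨t', ht'0, ht'1, hFv⟩ := H.twf.run0 hN he hs hee hnc 0
  rw [← hell, zero_add] at ht'1
  have ht'2 : t' ≤ ell := ht'1.le
  have hin := hK t' ht'0 ht'2
  obtain ⟨s', hs'⟩ : ∃ s' : Fin n → ℤ, s' = x₀ + w + t' • e := ⟨_, rfl⟩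
  rw [← hs'] at hFv
  have hsx : ∀ x, s' - x = (w + t' • e) + (x₀ - x) := by
    intro x
    rw [hs']
    abel
  have hx₀K : s' - x₀ ∈ K := by
    rw [hsx, sub_self, add_zero]
    exact hin
  -- the claim
  have hclaim : ∀ x ∈ (K \ L) ∪ (L \ K), x ≠ x₀ → s' - x ∉ K := by
    intro x hx hne hmem
    by_cases hxS : x ∈ S₀
    · have h1 := (H.mem _).1 hmem j
      rw [hsx, vs_add, dotProduct_add, dotProduct_smul, smul_eq_mul] at h1
      have h2 := (hrun t' ht'0 ht'2).1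
      rw [hpj] at h2
      have h3 := hsep x hxS hne
      linarith
    · have hdf : Df K L x := by
        rw [mem_union, mem_sdiff, mem_sdiff] at hx
        unfold Df
        tauto
      obtain ⟨i, hi⟩ : ∃ i, (t : ℤ) < |x i - y₀ i| := by
        rcases hgap x hdf with h1 | h1
        · exact absurd ((hmS₀ x).2 ⟨hx, h1⟩) hxS
        · exact h1
      have hxy : x ≠ y₀ := by
        rintro rfl
        rw [sub_self, abs_zero] at hi
        have : (0 : ℤ) ≤ t := Int.natCast_nonneg _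
        omega
      have h1 := hgen x hdf hxy i
      have h2 : (t : ℝ) < |((y₀ i - x i : ℤ) : ℝ)| := by
        rw [abs_sub_comm] at hi
        have : ((t : ℤ) : ℝ) < ((|y₀ i - x i| : ℤ) : ℝ) := by exact_mod_cast hi
        rwa [Int.cast_abs, Int.cast_natCast] at this
      have h3 : θ * t < 2 * M * |ω ⬝ᵥ em (y₀ - x)| :=
        lt_of_lt_of_le (mul_lt_mul_of_pos_left h2 hθ) h1
      have h4 : 0 ≤ ω ⬝ᵥ em (y₀ - x) := by
        rw [mem_union] at hx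
        rcases hx with hx | hx
        · by_contra hc
          push Not at hc
          have h5 := hτ x hx
          have h6 : em (x - y₀) = -em (y₀ - x) := by
            rw [← em_neg, neg_sub]
          rw [h6, dotProduct_neg] at h5
          rw [abs_of_neg hc] at h3
          have h7 : 2 * M * -(ω ⬝ᵥ em (y₀ - x)) ≤ 2 * M * τ :=
            mul_le_mul_of_nonneg_left h5 (by positivity)
          linarith
        · have h5 := htop x hx
          rw [em_sub, dotProduct_sub]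
          linarith
      rw [abs_of_nonneg h4] at h3
      have h5 : |ω ⬝ᵥ em (x₀ - y₀)| ≤ W * ρ := by
        refine dot_le hW (Nat.cast_nonneg _) (fun i => ?_)
        have h6 := hx₀'.2 i
        have h7 : ((|x₀ i - y₀ i| : ℤ) : ℝ) ≤ ((ρ : ℤ) : ℝ) := by exact_mod_cast h6
        rw [Int.cast_abs, Int.cast_natCast] at h7
        exact h7
      have h6 : ω ⬝ᵥ em (x₀ - x) = ω ⬝ᵥ em (x₀ - y₀) + ω ⬝ᵥ em (y₀ - x) := by
        rw [em_sub, em_sub, em_sub, dotProduct_sub, dotProduct_sub, dotProduct_sub]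
        ring
      have h7 := (abs_le.1 h5).1
      have h8 : M * (3 * W * D ^ 3 * P) < M * (2 * (ω ⬝ᵥ em (x₀ - x))) := by
        have h9 : M * (-(W * ρ)) ≤ M * (ω ⬝ᵥ em (x₀ - y₀)) :=
          mul_le_mul_of_nonneg_left h7 hM.le
        rw [h6]
        nlinarith
      have h9 := lt_of_mul_lt_mul_left h8 hM.le
      have h10 : |ω ⬝ᵥ g| ≤ W * D := dot_le hW hD0.le hgD
      have h11 : |ω ⬝ᵥ v| ≤ W * D := dot_le hW hD0.le hvD
      have h12 := (abs_le.1 h10).1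
      have h13 := (abs_le.1 h11).2
      have h14 := dot_le hW hP0 (hrun3 t' ht'0 ht'2)
      rw [dotProduct_sub] at h14
      have h15 := (abs_le.1 h14).1
      have h16 := H.sc hmax hmem
      rw [hsx, vs_add, dotProduct_add, dotProduct_smul, smul_eq_mul] at h16
      have h17 := hdp ω
      have h18 : a * (-(2 * (W * D))) ≤ a * (ω ⬝ᵥ g - ω ⬝ᵥ v) :=
        mul_le_mul_of_nonneg_left (by linarith) ha0
      have h19 : a * (2 * (W * D)) = 2 * W * D ^ 3 * P := by rw [ha]; ring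
      have h20 : W * P ≤ W * D ^ 3 * P := by
        have h21 : 1 ≤ D ^ 3 := one_le_pow₀ hD1
        have h22 : W * 1 ≤ W * D ^ 3 := mul_le_mul_of_nonneg_left h21 (by linarith)
        have h23 := mul_le_mul_of_nonneg_right h22 hP0
        linarith
      linarith
  -- end
  unfold Fv at hFv
  have hone : ∀ B : Finset (Fin n → ℤ), B ⊆ (K \ L) ∪ (L \ K) → x₀ ∈ B →
      (B.filter fun x => s' - x ∈ K).card = 1 := by
    intro B hB hxB
    rw [Finset.card_eq_one]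
    refine ⟨x₀, ?_⟩
    ext x
    rw [mem_filter, mem_singleton]
    constructor
    · rintro ⟨h1, h2⟩
      by_contra hc
      exact hclaim x (hB h1) hc h2
    · rintro rfl
      exact ⟨hxB, hx₀K⟩
  have hzero : ∀ B : Finset (Fin n → ℤ), B ⊆ (K \ L) ∪ (L \ K) → x₀ ∉ B →
      (B.filter fun x => s' - x ∈ K).card = 0 := by
    intro B hB hxB
    rw [Finset.card_eq_zero, Finset.filter_eq_empty_iff]
    intro x hx
    refine hclaim x (hB hx) ?_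
    rintro rfl
    exact hxB hx
  rcases mem_union.1 hx₀'.1 with h1 | h1
  · rw [hone _ subset_union_left h1, hzero _ subset_union_right (by
      rw [mem_sdiff] at h1 ⊢
      tauto)] at hFv
    norm_num at hFv
  · rw [hone _ subset_union_right h1, hzero _ subset_union_left (by
      rw [mem_sdiff] at h1 ⊢
      tauto)] at hFv
    norm_num at hFv

end Pool.Agent.Lib.MP_8cf263_co
end

section

/-!
# Polytopes, file RpThin: points of `L` above a facet with a Diophantine normal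

`PT.thin`.  Let `Dio (h j) D A`, `(K \ L).card ≤ N`, `0 < δ ≤ 1`, `8 D ((N + 1) J + 2) ≤ δ Q` and
`D ^ 2 P ≤ lam` with `P = 3 + 2 Q (2 D ^ 2 Q ^ A + (N + 1) J + 3)`.  Then
`h j ⬝ᵥ em (vs c y) ≤ lam * b j + δ` for all `y ∈ L`.
Proof.  Suppose not.  Let `g` be the centre of the facet (`fc`), `p = lam • g`, so
`h j ⬝ᵥ p = lam b j` and `h l ⬝ᵥ p ≤ lam b l - lam / D` for `l ≠ j`.  `dio_run` (file RpDio) with
`ell = (N + 1) J`, `s = y - c` gives `w`, `e`; for `0 ≤ t ≤ ell` the point `w + t • e` is in `K`: for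
`l ≠ j` `h l ⬝ᵥ em (vs c (w + t • e)) ≤ lam b l - lam / D + D P ≤ lam b l` (`dot_le`), for `j` it is
`≤ h j ⬝ᵥ p = lam b j`.  `s + w = y + w - c` is not parallel to `e`; `|e i| ≤ Q ≤ 10 R` because
`6 D ^ 2 Q ≤ D ^ 2 P ≤ lam ≤ 2 D ^ 2 r ≤ 2 D ^ 2 R`.  `TwF.sumK` gives `x', y' ∈ K` with
`x' + y' = y + (w + t • e)` (`t < ell`), so
`2 lam b j ≥ h j ⬝ᵥ em (vs c x') + h j ⬝ᵥ em (vs c y') = h j ⬝ᵥ em (vs c y) + h j ⬝ᵥ em (vs c (w + t • e))
> lam b j + δ + lam b j - δ`, a contradiction.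

`localc`.  Suppose that every `y ∈ L \ K` which is above the facet `j` has `Dio (h j) D A` and
is not higher than `δ` above it, and that `D δ (2 ρ) ^ A < 2`.  Then at most `card ι` points of `L \ K`
are at distance at most `ρ` from `y₀`.
Proof.  For `y ∈ L \ K` choose `j` with `lam b j < h j ⬝ᵥ em (vs c y)` (`H.mem`).  This map is injective
on the set in question: if `y ≠ y'` have the same `j` then `2 |h j ⬝ᵥ em (y - y')| ≤ δ`
(`em (vs c y) - em (vs c y') = 2 em (y - y')`; both values are in `(lam b j, lam b j + δ]`), and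
`|(y - y') i| ≤ 2 ρ`, so `1 ≤ D |h j ⬝ᵥ em (y - y')| (2 ρ) ^ A ≤ D (δ / 2) (2 ρ) ^ A < 1`.
-/

set_option autoImplicit false

namespace Pool.Agent.Lib.MP_8cf263_co

open Finset

variable {n : ℕ} {ι : Type} {K L : Finset (Fin n → ℤ)} {c : Fin n → ℤ} {R r J kap : ℕ}
  {h : ι → Fin n → ℝ} {b : ι → ℝ} {D lam : ℝ}

theorem PT.thin (hn : 2 ≤ n) (H : PT K L c R r J kap h b D lam) {N : ℕ} (hN : (K \ L).card ≤ N)
    {j : ι} {A : ℕ} (hdio : Dio (h j) D A) {δ : ℝ} (hδ : 0 < δ) (hδ1 : δ ≤ 1) {Q : ℕ}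
    (hQ : 8 * D * (((N + 1) * J : ℕ) + 2) ≤ δ * Q)
    (hlam : D ^ 2 * (3 + 2 * Q * (2 * D ^ 2 * (Q : ℝ) ^ A + ((N + 1) * J : ℕ) + 3)) ≤ lam) :
    ∀ y ∈ L, h j ⬝ᵥ em (vs c y) ≤ lam * b j + δ := by
  classical
  intro y hy
  by_contra hcon
  rw [not_le] at hcon
  obtain ⟨g, hg1, hg2⟩ := H.pol.fc j
  have hD1 : 1 ≤ D := H.pol.D1
  have hD0 : 0 < D := lt_of_lt_of_le one_pos hD1
  have hpj : h j ⬝ᵥ (lam • g) = lam * b j := by
    rw [dotProduct_smul, smul_eq_mul, hg1]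
  obtain ⟨w, e, he, heQ, hnc, hrun⟩ := dio_run hn hD1 (H.pol.hD j) hdio hδ hδ1
    (ell := (N + 1) * J) hQ (lam • g) c (y - c)
  set P : ℝ := 3 + 2 * Q * (2 * D ^ 2 * (Q : ℝ) ^ A + ((N + 1) * J : ℕ) + 3) with hP
  have hQ0 : (0 : ℝ) ≤ Q := Nat.cast_nonneg _
  have hA0 : (0 : ℝ) ≤ (Q : ℝ) ^ A := pow_nonneg hQ0 _
  have hell0 : (0 : ℝ) ≤ (((N + 1) * J : ℕ) : ℝ) := Nat.cast_nonneg _
  have hP6 : 6 * (Q : ℝ) ≤ P := by
    have h1 : 0 ≤ 2 * (Q : ℝ) * (2 * D ^ 2 * (Q : ℝ) ^ A + ((N + 1) * J : ℕ)) := by positivity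
    rw [hP]
    linarith
  have hP0 : 0 ≤ P := le_trans (by positivity) hP6
  have hlr : lam ≤ 2 * D ^ 2 * R := by
    have h1 : (r : ℝ) ≤ R := by exact_mod_cast H.twf.rR
    exact le_trans H.lr (mul_le_mul_of_nonneg_left h1 (by positivity))
  have hQR : (Q : ℝ) ≤ R := by
    have h1 : D ^ 2 * (6 * (Q : ℝ)) ≤ D ^ 2 * (2 * R) := by
      calc D ^ 2 * (6 * (Q : ℝ)) ≤ D ^ 2 * P := mul_le_mul_of_nonneg_left hP6 (by positivity)
        _ ≤ lam := hlam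
        _ ≤ 2 * D ^ 2 * R := hlr
        _ = D ^ 2 * (2 * R) := by ring
    have h2 : 6 * (Q : ℝ) ≤ 2 * R := le_of_mul_le_mul_left h1 (by positivity)
    linarith
  have hee : ∀ i, |e i| ≤ 10 * (R : ℤ) := by
    intro i
    have h1 : (Q : ℤ) ≤ R := by exact_mod_cast hQR
    have h2 := heQ i
    have h3 : (0 : ℤ) ≤ R := Int.natCast_nonneg R
    linarith
  have hDP : D * P ≤ lam * (1 / D) := by
    rw [mul_one_div, le_div_iff₀ hD0]
    calc D * P * D = D ^ 2 * P := by ring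
      _ ≤ lam := hlam
  have hK : ∀ t : ℤ, 0 ≤ t → t < (((N + 1) * J : ℕ) : ℤ) → w + t • e ∈ K := by
    intro t ht0 ht1
    obtain ⟨h1, h2, h3⟩ := hrun t ht0 (le_of_lt ht1)
    rw [H.mem]
    intro l
    by_cases hl : l = j
    · rw [hl, ← hpj]
      exact h2
    · have h4 : |h l ⬝ᵥ (em (vs c (w + t • e)) - lam • g)| ≤ D * P := by
        refine dot_le (H.pol.hD l) hP0 fun i => ?_
        exact h3 i
      have h5 : h l ⬝ᵥ em (vs c (w + t • e)) =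
          lam * (h l ⬝ᵥ g) + h l ⬝ᵥ (em (vs c (w + t • e)) - lam • g) := by
        rw [dotProduct_sub, dotProduct_smul, smul_eq_mul]
        ring
      have h6 := hg2 l hl
      have h7 : lam * (h l ⬝ᵥ g + 1 / D) ≤ lam * b l :=
        mul_le_mul_of_nonneg_left h6 (le_trans zero_le_one H.lam1)
      have h8 := (abs_le.1 h4).2
      rw [h5]
      linarith
  have hnc' : ∃ i j, (y + w - c) i * e j - (y + w - c) j * e i ≠ 0 := by
    have h1 : y + w - c = y - c + w := by abel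
    rw [h1]
    exact hnc
  obtain ⟨t, ht0, ht1, x', hx', y', hy', hxy⟩ := H.twf.sumK hN hy he hK hee hnc'
  obtain ⟨h1, h2, h3⟩ := hrun t ht0 (le_of_lt ht1)
  have h4 := (H.mem x').1 hx' j
  have h5 := (H.mem y').1 hy' j
  have h6 : em (vs c x') + em (vs c y') = em (vs c y) + em (vs c (w + t • e)) := by
    funext i
    have h7 := congrFun hxy i
    have h8 : (x' i : ℝ) + y' i = y i + (w + t • e) i := by
      rw [Pi.add_apply, Pi.add_apply] at h7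
      exact_mod_cast h7
    simp only [em, vs, Pi.add_apply] at h8 ⊢
    push_cast at h8 ⊢
    linarith
  have h7 : h j ⬝ᵥ em (vs c x') + h j ⬝ᵥ em (vs c y') =
      h j ⬝ᵥ em (vs c y) + h j ⬝ᵥ em (vs c (w + t • e)) := by
    rw [← dotProduct_add, ← dotProduct_add, h6]
  rw [hpj] at h1
  linarith

theorem PT.localc [Fintype ι] (H : PT K L c R r J kap h b D lam) {A : ℕ} {δ : ℝ} {ρ : ℕ}
    (hthin : ∀ y ∈ L, ∀ j, lam * b j < h j ⬝ᵥ em (vs c y) →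
      Dio (h j) D A ∧ h j ⬝ᵥ em (vs c y) ≤ lam * b j + δ)
    (hsm : D * δ * ((2 * ρ : ℕ) : ℝ) ^ A < 2) (y₀ : Fin n → ℤ) :
    ((L \ K).filter fun y => ∀ i, |y i - y₀ i| ≤ (ρ : ℤ)).card ≤ Fintype.card ι := by
  classical
  have hex : ∀ y : Fin n → ℤ, y ∈ (L \ K).filter (fun y => ∀ i, |y i - y₀ i| ≤ (ρ : ℤ)) →
      ∃ j, lam * b j < h j ⬝ᵥ em (vs c y) := by
    intro y hy
    rw [mem_filter, mem_sdiff, H.mem] at hy
    have h1 := hy.1.2
    rw [not_forall] at h1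
    obtain ⟨j, hj⟩ := h1
    exact ⟨j, not_le.1 hj⟩
  rcases ((L \ K).filter (fun y => ∀ i, |y i - y₀ i| ≤ (ρ : ℤ))).eq_empty_or_nonempty with h0 | hne
  · rw [h0, card_empty]
    exact Nat.zero_le _
  obtain ⟨y₁, hy₁⟩ := hne
  obtain ⟨j₁, _⟩ := hex y₁ hy₁
  set f : (Fin n → ℤ) → ι := fun y =>
    if hy : ∃ j, lam * b j < h j ⬝ᵥ em (vs c y) then hy.choose else j₁ with hf
  have hfs : ∀ y ∈ (L \ K).filter (fun y => ∀ i, |y i - y₀ i| ≤ (ρ : ℤ)),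
      lam * b (f y) < h (f y) ⬝ᵥ em (vs c y) := by
    intro y hy
    have h1 := hex y hy
    have h2 : f y = h1.choose := by
      rw [hf]
      exact dif_pos h1
    rw [h2]
    exact h1.choose_spec
  rw [← Finset.card_univ (α := ι)]
  refine Finset.card_le_card_of_injOn f (fun y _ => mem_univ _) ?_
  intro y hy y' hy' hff
  by_contra hne
  rw [mem_coe] at hy hy'
  have h1 := hfs y hy
  have h2 := hfs y' hy'
  rw [← hff] at h2
  rw [mem_filter, mem_sdiff] at hy hy'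
  obtain ⟨hd, h3⟩ := hthin y hy.1.1 (f y) h1
  obtain ⟨_, h4⟩ := hthin y' hy'.1.1 (f y) h2
  have hz : y - y' ≠ 0 := sub_ne_zero.2 hne
  have hzb : ∀ i, |(y - y') i| ≤ ((2 * ρ : ℕ) : ℤ) := by
    intro i
    have h5 := abs_le.1 (hy.2 i)
    have h6 := abs_le.1 (hy'.2 i)
    rw [Pi.sub_apply, abs_le]
    push_cast
    constructor <;> linarith [h5.1, h5.2, h6.1, h6.2]
  have h5 := hd (y - y') hz (2 * ρ) hzb
  have h6 : 2 * (h (f y) ⬝ᵥ em (y - y')) =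
      h (f y) ⬝ᵥ em (vs c y) - h (f y) ⬝ᵥ em (vs c y') := by
    rw [← dotProduct_sub, ← smul_eq_mul, ← dotProduct_smul]
    congr 1
    funext i
    simp only [em, vs, Pi.sub_apply, Pi.smul_apply, smul_eq_mul]
    push_cast
    ring
  have h7 : |h (f y) ⬝ᵥ em (y - y')| ≤ δ / 2 := by
    rw [abs_le]
    constructor <;> linarith
  have hD0 : 0 ≤ D := le_trans zero_le_one H.pol.D1
  have hA0 : (0 : ℝ) ≤ ((2 * ρ : ℕ) : ℝ) ^ A := pow_nonneg (Nat.cast_nonneg _) _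
  have h8 : D * |h (f y) ⬝ᵥ em (y - y')| * ((2 * ρ : ℕ) : ℝ) ^ A ≤
      D * (δ / 2) * ((2 * ρ : ℕ) : ℝ) ^ A :=
    mul_le_mul_of_nonneg_right (mul_le_mul_of_nonneg_left h7 hD0) hA0
  have h9 : D * (δ / 2) * ((2 * ρ : ℕ) : ℝ) ^ A = D * δ * ((2 * ρ : ℕ) : ℝ) ^ A / 2 := by ring
  linarith

end Pool.Agent.Lib.MP_8cf263_co
end

section

/-!
# Round patches, file RtLin: patches under unimodular maps

`rm_tr`: `g ⬝ᵥ rm A v = rm Aᵀ g ⬝ᵥ v` (`Matrix.dotProduct_mulVec`, `Matrix.vecMul_transpose`, ...).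

`pat_lin`.  Let `C_T ≥ 1` be the constant of `rm_bd` for `Aᵀ` and `η = κ t / (2 √C_T)`, so
`C_T η ^ 2 / t ^ 2 ≤ (κ / 2) ^ 2`.  `conv`: preimage of a convex set under a linear map.  `inn`:
`rm B (x - rm A p) = rm B x - p`.  `pat`: let `|g - e₀| ≤ η` and `ĝ = t⁻¹ • rm Aᵀ g`.
`rm Aᵀ e₀ = em u` (`A 0 i = u i`), so `|ĝ - t⁻¹ • em u| ^ 2 = t⁻² |rm Aᵀ (g - e₀)| ^ 2 ≤ (κ / 2) ^ 2`, and
with `hu` `|ĝ - ν| ≤ κ`.  Let `rm B x ∈ C`.  By the hypothesis on `C` there is `Y` with `N (Y - p) ≤ ρ` and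
`ĝ ⬝ᵥ rm B x ≤ ĝ ⬝ᵥ Y`.  Take `y = rm A Y`: `N (rm B (y - rm A p)) = N (Y - p) ≤ ρ` and
`g ⬝ᵥ x = g ⬝ᵥ rm A (rm B x) = t (ĝ ⬝ᵥ rm B x) ≤ t (ĝ ⬝ᵥ Y) = g ⬝ᵥ y`.
-/

set_option autoImplicit false

namespace Pool.Agent.Lib.MP_8cf263_co

theorem rm_tr {n : ℕ} (A : Matrix (Fin n) (Fin n) ℤ) (g v : Fin n → ℝ) :
    g ⬝ᵥ rm A v = rm A.transpose g ⬝ᵥ v := by
  unfold rm
  rw [Matrix.dotProduct_mulVec, Matrix.transpose_map, Matrix.mulVec_transpose]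

private theorem dnl {n : ℕ} (v : Fin n → ℝ) : 0 ≤ v ⬝ᵥ v :=
  Finset.sum_nonneg fun i _ => mul_self_nonneg _

private theorem rm_e0 {m : ℕ} {A : Matrix (Fin (m + 2)) (Fin (m + 2)) ℤ} {u : Fin (m + 2) → ℤ}
    (hA : ∀ i, A 0 i = u i) : rm A.transpose (Pi.single 0 1) = em u := by
  funext i
  unfold rm
  rw [Matrix.mulVec_single_one]
  simp [em, hA]

theorem pat_lin {m : ℕ} {N : (Fin (m + 2) → ℝ) → ℝ} {A B : Matrix (Fin (m + 2)) (Fin (m + 2)) ℤ}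
    (hAB : A * B = 1) (hBA : B * A = 1) {u : Fin (m + 2) → ℤ} (hA : ∀ i, A 0 i = u i)
    {ν : Fin (m + 2) → ℝ} {κ t : ℝ} (hκ : 0 < κ) (ht : 0 < t)
    (hu : (t⁻¹ • em u - ν) ⬝ᵥ (t⁻¹ • em u - ν) ≤ (κ / 2) ^ 2) :
    ∃ η : ℝ, 0 < η ∧ ∀ (C : Set (Fin (m + 2) → ℝ)) (p : Fin (m + 2) → ℝ) (ρ : ℝ), Convex ℝ C →
      (∀ x, N (x - p) ≤ ρ → x ∈ C) →
      (∀ g : Fin (m + 2) → ℝ, (g - ν) ⬝ᵥ (g - ν) ≤ κ ^ 2 → ∀ x ∈ C,
        ∃ y, N (y - p) ≤ ρ ∧ g ⬝ᵥ x ≤ g ⬝ᵥ y) →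
      Pat (fun x => N (rm B x)) {y | rm B y ∈ C} (rm A p) ρ η := by
  obtain ⟨CT, hCT, hT⟩ := rm_bd A.transpose
  have hs : 0 < √CT := Real.sqrt_pos.2 (by linarith)
  have hs2 : √CT ^ 2 = CT := Real.sq_sqrt (by linarith)
  refine ⟨κ * t / (2 * √CT), by positivity, fun C p ρ hconv hinn hpat => ⟨?_, ?_, ?_⟩⟩
  · exact hconv.is_linear_preimage ⟨rm_add B, fun t y => rm_smul B t y⟩
  · intro x hx
    have e : rm B (x - rm A p) = rm B x - p := by rw [rm_sub, rm_rm hBA]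
    simp only [e] at hx
    exact hinn _ hx
  · intro g hg x hx
    have h1 : rm A.transpose g - em u = rm A.transpose (g - Pi.single 0 1) := by
      rw [rm_sub, rm_e0 hA]
    have h2 := hT (g - Pi.single 0 1)
    have h3 : CT * ((g - Pi.single 0 1) ⬝ᵥ (g - Pi.single 0 1)) ≤ CT * (κ * t / (2 * √CT)) ^ 2 :=
      mul_le_mul_of_nonneg_left hg (by linarith)
    have h4 : CT * (κ * t / (2 * √CT)) ^ 2 = (κ / 2) ^ 2 * t ^ 2 := by
      rw [div_pow, mul_pow 2, hs2]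
      field_simp
    have h5 : (t⁻¹ • (rm A.transpose g - em u)) ⬝ᵥ (t⁻¹ • (rm A.transpose g - em u)) ≤
        (κ / 2) ^ 2 := by
      rw [smul_dotProduct, dotProduct_smul, smul_eq_mul, smul_eq_mul, h1]
      have h6 := h2.trans (h3.trans_eq h4)
      have h7 : t⁻¹ * (t⁻¹ * (rm A.transpose (g - Pi.single 0 1) ⬝ᵥ
          rm A.transpose (g - Pi.single 0 1))) ≤ t⁻¹ * (t⁻¹ * ((κ / 2) ^ 2 * t ^ 2)) :=
        mul_le_mul_of_nonneg_left (mul_le_mul_of_nonneg_left h6 (by positivity)) (by positivity)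
      refine h7.trans_eq ?_
      field_simp
    have h8 : t⁻¹ • rm A.transpose g - ν =
        t⁻¹ • (rm A.transpose g - em u) + (t⁻¹ • em u - ν) := by
      rw [smul_sub]
      abel
    have h9 : (t⁻¹ • rm A.transpose g - ν) ⬝ᵥ (t⁻¹ • rm A.transpose g - ν) ≤ κ ^ 2 := by
      rw [h8]
      generalize t⁻¹ • (rm A.transpose g - em u) = a at *
      generalize t⁻¹ • em u - ν = b at *
      have h10 := dnl (a - b)
      simp only [sub_dotProduct, dotProduct_sub] at h10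
      simp only [add_dotProduct, dotProduct_add]
      have h11 := dotProduct_comm a b
      nlinarith
    obtain ⟨Y, hY1, hY2⟩ := hpat _ h9 _ hx
    refine ⟨rm A Y, ?_, ?_⟩
    · have e : rm B (rm A Y - rm A p) = Y - p := by rw [rm_sub, rm_rm hBA, rm_rm hBA]
      simp only [e]
      exact hY1
    · have e1 : g ⬝ᵥ x = rm A.transpose g ⬝ᵥ rm B x := by rw [← rm_tr, rm_rm hAB]
      rw [e1, rm_tr A g Y]
      rw [smul_dotProduct, smul_dotProduct, smul_eq_mul, smul_eq_mul] at hY2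
      exact le_of_mul_le_mul_left hY2 (by positivity)

end Pool.Agent.Lib.MP_8cf263_co
end
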