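import Pool.Agent.Lib.MP_8cf263_co.RpDio
import Pool.Agent.Lib.MP_8cf263_co.RpFew
import Pool.Agent.Lib.MP_8cf263_co.RtLin
import Pool.Agent.Lib.MP_8cf263_co.RsNorm
import Pool.Agent.Lib.MP_8cf263_co.RtPatA
import Pool.Agent.Lib.MP_8cf263_co.RsMain

section

/-!
# Polytopes, file RpMain: assembly

Large dilates of polytopes whose facet normals are integer vectors or Diophantine vectors are
determined.
-/

set_option autoImplicit false

namespace Pool.Agent.Lib.MP_8cf263_co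

open Finset

/-! ### numerical estimates -/

/-- bounds for the parameters by one large number `B` -/
private structure Bd (B D W θ ell M : ℝ) : Prop where
  B16 : 16 ≤ B
  D1 : 1 ≤ D
  DB : D ≤ B
  W1 : 1 ≤ W
  WB : W ≤ B
  θ0 : 0 < θ
  θ1 : θ ≤ 1
  θB : 1 ≤ θ * B
  l0 : 0 ≤ ell
  lB : ell + 3 ≤ B
  M0 : 0 < M
  MB : M ≤ B

private theorem Bd.D2 {B D W θ ell M : ℝ} (h : Bd B D W θ ell M) : D ^ 2 ≤ B ^ 2 :=
  pow_le_pow_left₀ (by linarith [h.D1]) h.DB 2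

private theorem Bd.D3 {B D W θ ell M : ℝ} (h : Bd B D W θ ell M) : D ^ 3 ≤ B ^ 3 :=
  pow_le_pow_left₀ (by linarith [h.D1]) h.DB 3

private theorem Bd.num_Q {B D W θ ell M ρ : ℝ} {A : ℕ} (h : Bd B D W θ ell M)
    (hρ : B ^ (A + 7) ≤ ρ) : 8 * D ^ 2 * (2 * ρ) ^ A * (ell + 2) ≤ ρ ^ (A + 1) := by
  have hB := h.B16
  have hB0 : 0 < B := by linarith
  have hρ0 : 0 < ρ := lt_of_lt_of_le (by positivity) hρ
  have h1 : 8 * D ^ 2 * 2 ^ A * (ell + 2) ≤ B * B ^ 2 * B ^ A * B := by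
    have h2 : (2 : ℝ) ^ A ≤ B ^ A := pow_le_pow_left₀ (by norm_num) (by linarith) A
    have h3 := h.D2
    have h4 := h.lB
    have h5 := h.l0
    have h6 : 8 * D ^ 2 ≤ B * B ^ 2 :=
      mul_le_mul (by linarith) h3 (by positivity) (by positivity)
    have h7 : 8 * D ^ 2 * 2 ^ A ≤ B * B ^ 2 * B ^ A :=
      mul_le_mul h6 h2 (by positivity) (by positivity)
    exact mul_le_mul h7 (by linarith) (by linarith) (by positivity)
  have h2 : B * B ^ 2 * B ^ A * B = B ^ (A + 4) := by ring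
  have h3 : B ^ (A + 4) ≤ B ^ (A + 7) := pow_le_pow_right₀ (by linarith) (by omega)
  have h4 : 8 * D ^ 2 * 2 ^ A * (ell + 2) ≤ ρ := by
    rw [h2] at h1
    linarith
  calc 8 * D ^ 2 * (2 * ρ) ^ A * (ell + 2) = 8 * D ^ 2 * 2 ^ A * (ell + 2) * ρ ^ A := by
        rw [mul_pow]
        ring
    _ ≤ ρ * ρ ^ A := mul_le_mul_of_nonneg_right h4 (by positivity)
    _ = ρ ^ (A + 1) := by ring

private theorem Bd.num_P {B D W θ ell M Q : ℝ} {A : ℕ} (h : Bd B D W θ ell M) (hQ : 1 ≤ Q) :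
    3 + 2 * Q * (2 * D ^ 2 * Q ^ A + ell + 3) ≤ B ^ 4 * Q ^ (A + 1) := by
  have hB := h.B16
  have hB0 : 0 < B := by linarith
  have hQA : 1 ≤ Q ^ A := one_le_pow₀ hQ
  have hQA1 : 1 ≤ Q ^ (A + 1) := one_le_pow₀ hQ
  have h3 := h.D2
  have h4 := h.lB
  have h1 : 2 * D ^ 2 * Q ^ A + ell + 3 ≤ B ^ 3 * Q ^ A := by
    have h5 : 2 * D ^ 2 * Q ^ A ≤ 2 * B ^ 2 * Q ^ A := by
      apply mul_le_mul_of_nonneg_right _ (by linarith)
      linarith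
    have h6 : ell + 3 ≤ B * Q ^ A := by nlinarith
    have h7 : (2 * B ^ 2 + B) * Q ^ A ≤ B ^ 3 * Q ^ A := by
      apply mul_le_mul_of_nonneg_right _ (by linarith)
      nlinarith
    nlinarith
  have h2 : 2 * Q * (2 * D ^ 2 * Q ^ A + ell + 3) ≤ 2 * Q * (B ^ 3 * Q ^ A) :=
    mul_le_mul_of_nonneg_left h1 (by linarith)
  have h8 : 2 * Q * (B ^ 3 * Q ^ A) = 2 * B ^ 3 * Q ^ (A + 1) := by ring
  rw [h8] at h2
  have h9 : (3 + 2 * B ^ 3) * Q ^ (A + 1) ≤ B ^ 4 * Q ^ (A + 1) := by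
    apply mul_le_mul_of_nonneg_right _ (by linarith)
    have : 16 ^ 3 ≤ B ^ 3 := pow_le_pow_left₀ (by norm_num) hB 3
    nlinarith
  nlinarith

/-- the conditions for one scale `ρ` -/
private theorem Bd.scale {B D W θ ell M ρ P : ℝ} {A : ℕ} (h : Bd B D W θ ell M)
    (hρ : B ^ (A + 7) ≤ ρ)
    (hP : P = 3 + 2 * ρ ^ (A + 1) * (2 * D ^ 2 * (ρ ^ (A + 1)) ^ A + ell + 3)) :
    D ^ 2 * P ≤ ρ ^ ((A + 1) ^ 2 + 2) ∧
    2 * M * (W * D ^ 3 * (1 + 2 * (ell + 1))) ≤ θ * ρ ^ ((A + 1) ^ 2 + 2) ∧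
    M * (3 * W * D ^ 3 * P + 2 * W * ρ) ≤ θ * ρ ^ ((A + 1) ^ 2 + 2) := by
  have hB := h.B16
  have hB0 : 0 < B := by linarith
  have hB1 : 1 ≤ B := by linarith
  have hρB : B ≤ ρ := by
    refine le_trans ?_ hρ
    exact le_self_pow₀ hB1 (by omega)
  have hρ1 : 1 ≤ ρ := by linarith
  have hρ7 : B ^ 7 ≤ ρ := le_trans (pow_le_pow_right₀ hB1 (by omega)) hρ
  have hρ0 : 0 < ρ := by linarith
  have hQ1 : 1 ≤ ρ ^ (A + 1) := one_le_pow₀ hρ1
  have hP1 := h.num_P (A := A) hQ1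
  rw [← hP] at hP1
  have hpw : (ρ ^ (A + 1)) ^ (A + 1) = ρ ^ ((A + 1) ^ 2) := by
    rw [← pow_mul, sq]
  rw [hpw] at hP1
  set Z := ρ ^ ((A + 1) ^ 2) with hZ
  have hZ1 : 1 ≤ Z := one_le_pow₀ hρ1
  have hZρ : ρ ≤ Z := le_self_pow₀ hρ1 (by positivity)
  have hZ2 : ρ ^ ((A + 1) ^ 2 + 2) = Z * ρ ^ 2 := by
    rw [hZ, pow_add]
  rw [hZ2]
  have hP0 : 0 ≤ P := by
    rw [hP]
    have := h.l0
    have := h.D1
    positivity
  have h14 : B ^ 14 ≤ ρ ^ 2 := by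
    have := pow_le_pow_left₀ (by positivity) hρ7 2
    rwa [← pow_mul] at this
  have hD2 := h.D2
  have hD3 := h.D3
  have hD1 := h.D1
  have hW0 : 0 ≤ W := by linarith [h.W1]
  have hθ : ∀ x, 0 ≤ x → x ≤ θ * (B * x) := by
    intro x hx
    have := mul_le_mul_of_nonneg_right h.θB hx
    nlinarith
  refine ⟨?_, ?_, ?_⟩
  · calc D ^ 2 * P ≤ B ^ 2 * (B ^ 4 * Z) := mul_le_mul hD2 hP1 hP0 (by positivity)
      _ = B ^ 6 * Z := by ring
      _ ≤ ρ ^ 2 * Z := by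
        apply mul_le_mul_of_nonneg_right _ (by linarith)
        refine le_trans ?_ h14
        exact pow_le_pow_right₀ hB1 (by omega)
      _ = Z * ρ ^ 2 := by ring
  · have h1 : W * D ^ 3 ≤ B * B ^ 3 := mul_le_mul h.WB hD3 (by positivity) (by positivity)
    have h2 : 1 + 2 * (ell + 1) ≤ 2 * B := by linarith [h.lB]
    have h3 : W * D ^ 3 * (1 + 2 * (ell + 1)) ≤ B * B ^ 3 * (2 * B) :=
      mul_le_mul h1 h2 (by linarith [h.l0]) (by positivity)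
    have h4 : 2 * M * (W * D ^ 3 * (1 + 2 * (ell + 1))) ≤ 2 * B * (B * B ^ 3 * (2 * B)) :=
      mul_le_mul (by linarith [h.MB]) h3 (by
        have := h.l0
        positivity) (by positivity)
    have h5 : 2 * B * (B * B ^ 3 * (2 * B)) ≤ B ^ 7 := by
      have : 2 * B * (B * B ^ 3 * (2 * B)) = 4 * B ^ 6 := by ring
      rw [this]
      have h6 : 0 < B ^ 6 := by positivity
      have : B ^ 7 = B * B ^ 6 := by ring
      rw [this]
      nlinarith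
    have h6 := hθ (B ^ 7) (by positivity)
    have h7 : B * B ^ 7 ≤ Z * ρ ^ 2 := by
      calc B * B ^ 7 = B ^ 8 := by ring
        _ ≤ B ^ 14 := pow_le_pow_right₀ hB1 (by omega)
        _ ≤ ρ ^ 2 := h14
        _ ≤ Z * ρ ^ 2 := by
          apply le_mul_of_one_le_left (by positivity) hZ1
    have h8 := mul_le_mul_of_nonneg_left h7 h.θ0.le
    linarith
  · have h1 : 3 * W * D ^ 3 * P ≤ 3 * B * B ^ 3 * (B ^ 4 * Z) := by
      apply mul_le_mul _ hP1 hP0 (by positivity)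
      apply mul_le_mul _ hD3 (by positivity) (by positivity)
      linarith [h.WB]
    have h2 : 2 * W * ρ ≤ 2 * B * Z :=
      mul_le_mul (by linarith [h.WB]) hZρ (by positivity) (by positivity)
    have h3 : 3 * W * D ^ 3 * P + 2 * W * ρ ≤ B ^ 9 * Z := by
      have h4 : 3 * B * B ^ 3 * (B ^ 4 * Z) = 3 * B ^ 8 * Z := by ring
      have h5 : 2 * B * Z ≤ 2 * B ^ 8 * Z := by
        apply mul_le_mul_of_nonneg_right _ (by linarith)
        have : B ≤ B ^ 8 := le_self_pow₀ hB1 (by norm_num)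
        linarith
      have h6 : 5 * B ^ 8 * Z ≤ B ^ 9 * Z := by
        apply mul_le_mul_of_nonneg_right _ (by linarith)
        have : B ^ 9 = B * B ^ 8 := by ring
        rw [this]
        have : 0 < B ^ 8 := by positivity
        nlinarith
      linarith
    have h4 : M * (3 * W * D ^ 3 * P + 2 * W * ρ) ≤ B * (B ^ 9 * Z) :=
      mul_le_mul h.MB h3 (by positivity) (by positivity)
    have h5 := hθ (B * (B ^ 9 * Z)) (by positivity)
    have h6 : B * (B * (B ^ 9 * Z)) ≤ Z * ρ ^ 2 := by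
      have h7 : B * (B * (B ^ 9 * Z)) = Z * B ^ 11 := by ring
      rw [h7]
      apply mul_le_mul_of_nonneg_left _ (by linarith)
      refine le_trans ?_ h14
      exact pow_le_pow_right₀ hB1 (by omega)
    have h8 := mul_le_mul_of_nonneg_left h6 h.θ0.le
    linarith

/-- the conditions for the greatest scale `Y` -/
private theorem Bd.top {B D W θ ell M Y lam : ℝ} {A : ℕ} (h : Bd B D W θ ell M)
    (hY : B ^ (A + 7) ≤ Y) (hlam : Y ^ ((2 * A + 1) * (A + 1) + 2) ≤ lam) :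
    D ^ 2 * (4 * D ^ 3 + 2 * D * ell) ≤ lam ∧
    D ^ 2 * (1 + 2 * (ell + 1)) ≤ lam ∧
    D ^ 2 * (1 + 2 * (Y + (ell + 1))) ≤ lam ∧
    2 * M * (W * D ^ 3 * (1 + 2 * (Y + (ell + 1)))) ≤ θ * Y ^ 2 ∧
    8 * D * (ell + 2) ≤ 1 / (B * (2 * Y ^ 2) ^ A) * Y ^ (2 * A + 1) ∧
    D ^ 2 * (3 + 2 * Y ^ (2 * A + 1) * (2 * D ^ 2 * (Y ^ (2 * A + 1)) ^ A + ell + 3)) ≤ lam := by
  have hB := h.B16
  have hB0 : 0 < B := by linarith
  have hB1 : 1 ≤ B := by linarith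
  have hYB : B ≤ Y := by
    refine le_trans ?_ hY
    exact le_self_pow₀ hB1 (by omega)
  have hY1 : 1 ≤ Y := by linarith
  have hY7 : B ^ 7 ≤ Y := le_trans (pow_le_pow_right₀ hB1 (by omega)) hY
  have hY0 : 0 < Y := by linarith
  have hYl : Y ^ 2 ≤ lam := by
    refine le_trans ?_ hlam
    exact pow_le_pow_right₀ hY1 (by omega)
  have hD2 := h.D2
  have hD3 := h.D3
  have hD1 := h.D1
  have hDB := h.DB
  have hl0 := h.l0
  have hlB := h.lB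
  have hW0 : 0 ≤ W := by linarith [h.W1]
  have hY2 : Y ≤ Y ^ 2 := le_self_pow₀ hY1 (by norm_num)
  have hB3Y : B ^ 3 * Y ≤ Y ^ 2 := by
    have : B ^ 3 ≤ Y := le_trans (pow_le_pow_right₀ hB1 (by omega)) hY7
    nlinarith
  have hbox : D ^ 2 * (1 + 2 * (Y + (ell + 1))) ≤ B ^ 3 * Y := by
    have h1 : 1 + 2 * (Y + (ell + 1)) ≤ 4 * Y := by linarith
    calc D ^ 2 * (1 + 2 * (Y + (ell + 1))) ≤ B ^ 2 * (4 * Y) :=
          mul_le_mul hD2 h1 (by linarith) (by positivity)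
      _ ≤ B ^ 3 * Y := by
        have h2 : 0 < B ^ 2 * Y := by positivity
        have h3 : B ^ 3 * Y = B * (B ^ 2 * Y) := by ring
        rw [h3]
        nlinarith
  refine ⟨?_, ?_, ?_, ?_, ?_, ?_⟩
  · have h1 : 4 * D ^ 3 + 2 * D * ell ≤ B ^ 4 := by
      have h2 : 2 * D * ell ≤ 2 * B * B := by
        apply mul_le_mul _ (by linarith) hl0 (by positivity)
        linarith
      have h3 : B ^ 4 = B * B ^ 3 := by ring
      have h4 : B ^ 3 = B * (B * B) := by ring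
      have h5 : 0 < B ^ 3 := by positivity
      have h6 : 2 * B * B ≤ B ^ 3 := by
        rw [h4]
        have : 0 < B * B := by positivity
        nlinarith
      rw [h3]
      nlinarith
    calc D ^ 2 * (4 * D ^ 3 + 2 * D * ell) ≤ B ^ 2 * B ^ 4 :=
          mul_le_mul hD2 h1 (by positivity) (by positivity)
      _ = B ^ 6 := by ring
      _ ≤ B ^ 7 := pow_le_pow_right₀ hB1 (by omega)
      _ ≤ lam := by linarith
  · have h1 : D ^ 2 * (1 + 2 * (ell + 1)) ≤ D ^ 2 * (1 + 2 * (Y + (ell + 1))) := by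
      apply mul_le_mul_of_nonneg_left _ (by positivity)
      linarith
    linarith
  · linarith
  · have h1 : W * D ^ 3 ≤ B * B ^ 3 := mul_le_mul h.WB hD3 (by positivity) (by positivity)
    have h2 : 1 + 2 * (Y + (ell + 1)) ≤ 4 * Y := by linarith
    have h3 : W * D ^ 3 * (1 + 2 * (Y + (ell + 1))) ≤ B * B ^ 3 * (4 * Y) :=
      mul_le_mul h1 h2 (by linarith) (by positivity)
    have h4 : 2 * M * (W * D ^ 3 * (1 + 2 * (Y + (ell + 1)))) ≤ 2 * B * (B * B ^ 3 * (4 * Y)) :=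
      mul_le_mul (by linarith [h.MB]) h3 (by
        have : 0 ≤ 1 + 2 * (Y + (ell + 1)) := by linarith
        positivity) (by positivity)
    have h5 : 2 * B * (B * B ^ 3 * (4 * Y)) ≤ B ^ 6 * Y := by
      have h6 : 2 * B * (B * B ^ 3 * (4 * Y)) = 8 * (B ^ 5 * Y) := by ring
      have h7 : B ^ 6 * Y = B * (B ^ 5 * Y) := by ring
      rw [h6, h7]
      have : 0 < B ^ 5 * Y := by positivity
      nlinarith
    have h6 : B ^ 6 * Y ≤ θ * (B * (B ^ 6 * Y)) := by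
      have := mul_le_mul_of_nonneg_right h.θB (show 0 ≤ B ^ 6 * Y by positivity)
      nlinarith
    have h7 : B * (B ^ 6 * Y) ≤ Y ^ 2 := by
      have h8 : B * (B ^ 6 * Y) = B ^ 7 * Y := by ring
      rw [h8]
      nlinarith
    have h8 := mul_le_mul_of_nonneg_left h7 h.θ0.le
    linarith
  · have hpos : 0 < B * (2 * Y ^ 2) ^ A := by positivity
    rw [one_div, inv_mul_eq_div, le_div_iff₀ hpos]
    have h1 : (2 * Y ^ 2) ^ A = 2 ^ A * Y ^ (2 * A) := by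
      rw [mul_pow, ← pow_mul]
    have h2 : (2 : ℝ) ^ A ≤ B ^ A := pow_le_pow_left₀ (by norm_num) (by linarith) A
    have h3 : 8 * D * (ell + 2) * (B * 2 ^ A) ≤ B * B * B * (B * B ^ A) := by
      apply mul_le_mul _ _ (by positivity) (by positivity)
      · apply mul_le_mul _ (by linarith) (by linarith) (by positivity)
        apply mul_le_mul _ hDB (by positivity) (by positivity)
        linarith
      · exact mul_le_mul_of_nonneg_left h2 hB0.le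
    have h4 : B * B * B * (B * B ^ A) = B ^ (A + 4) := by ring
    have h5 : B ^ (A + 4) ≤ Y := le_trans (pow_le_pow_right₀ hB1 (by omega)) hY
    calc 8 * D * (ell + 2) * (B * (2 * Y ^ 2) ^ A)
        = 8 * D * (ell + 2) * (B * 2 ^ A) * Y ^ (2 * A) := by
          rw [h1]
          ring
      _ ≤ Y * Y ^ (2 * A) := by
          apply mul_le_mul_of_nonneg_right _ (by positivity)
          linarith
      _ = Y ^ (2 * A + 1) := by ring
  · have hQ1 : 1 ≤ Y ^ (2 * A + 1) := one_le_pow₀ hY1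
    have h1 := h.num_P (A := A) hQ1
    have h0 : 0 ≤ 3 + 2 * Y ^ (2 * A + 1) * (2 * D ^ 2 * (Y ^ (2 * A + 1)) ^ A + ell + 3) := by
      positivity
    calc D ^ 2 * (3 + 2 * Y ^ (2 * A + 1) * (2 * D ^ 2 * (Y ^ (2 * A + 1)) ^ A + ell + 3))
        ≤ B ^ 2 * (B ^ 4 * (Y ^ (2 * A + 1)) ^ (A + 1)) :=
          mul_le_mul hD2 h1 h0 (by positivity)
      _ = B ^ 6 * Y ^ ((2 * A + 1) * (A + 1)) := by
          rw [← pow_mul]
          ring
      _ ≤ Y ^ 2 * Y ^ ((2 * A + 1) * (A + 1)) := by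
          apply mul_le_mul_of_nonneg_right _ (by positivity)
          have : B ^ 6 ≤ B ^ 7 := pow_le_pow_right₀ hB1 (by omega)
          linarith
      _ = Y ^ ((2 * A + 1) * (A + 1) + 2) := by ring
      _ ≤ lam := hlam

/-- the parameters -/
private theorem bd_mk {n m J : ℕ} {D θ : ℝ} (hJ16 : 16 ≤ J) (hD : 1 ≤ D) (hJD : D + n ≤ J)
    (hJm : m ≤ J) (hθ0 : 0 < θ) (hθ1 : θ ≤ 1) (hJθ : 1 ≤ θ * J) (hm : 1 ≤ m) :
    Bd ((J : ℝ) ^ (4 * n + 7)) D (D + n) θ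
      ((((2 * (m * (2 * J) ^ n)) ^ 2 + 1) * J : ℕ) : ℝ)
      (((2 * (m * (2 * J) ^ n)) ^ 2 : ℕ) : ℝ) := by
  have hJ1 : 1 ≤ J := by omega
  have hJr : (16 : ℝ) ≤ J := by exact_mod_cast hJ16
  have hJB : (J : ℝ) ≤ (J : ℝ) ^ (4 * n + 7) := le_self_pow₀ (by linarith) (by omega)
  have h1 : m * (2 * J) ^ n ≤ J ^ (2 * n + 1) := by
    calc m * (2 * J) ^ n ≤ J * (J * J) ^ n :=
          Nat.mul_le_mul hJm (Nat.pow_le_pow_left (Nat.mul_le_mul_right _ (by omega)) n)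
      _ = J ^ (2 * n + 1) := by
          rw [mul_pow]
          ring
  have h2 : 2 * (m * (2 * J) ^ n) ≤ J ^ (2 * n + 2) := by
    calc 2 * (m * (2 * J) ^ n) ≤ J * J ^ (2 * n + 1) := Nat.mul_le_mul (by omega) h1
      _ = J ^ (2 * n + 2) := by ring
  have h3 : (2 * (m * (2 * J) ^ n)) ^ 2 ≤ J ^ (4 * n + 4) := by
    calc (2 * (m * (2 * J) ^ n)) ^ 2 ≤ (J ^ (2 * n + 2)) ^ 2 := Nat.pow_le_pow_left h2 2
      _ = J ^ (4 * n + 4) := by
          rw [← pow_mul]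
          congr 1
          ring
  have h4 : ((2 * (m * (2 * J) ^ n)) ^ 2 + 1) * J + 3 ≤ J ^ (4 * n + 7) := by
    have h5 : 1 ≤ J ^ (4 * n + 4) := Nat.one_le_pow _ _ hJ1
    have h6 : ((2 * (m * (2 * J) ^ n)) ^ 2 + 1) * J ≤ 2 * J ^ (4 * n + 4) * J :=
      Nat.mul_le_mul_right _ (by omega)
    have h7 : J ^ (4 * n + 7) = J ^ (4 * n + 4) * J * (J * J) := by ring
    rw [h7]
    have h8 : 1 ≤ J ^ (4 * n + 4) * J := Nat.mul_pos h5 hJ1
    have h9 : 16 * 16 ≤ J * J := Nat.mul_le_mul hJ16 hJ16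
    have h10 : J ^ (4 * n + 4) * J * (16 * 16) ≤ J ^ (4 * n + 4) * J * (J * J) :=
      Nat.mul_le_mul_left _ h9
    have h11 : 2 * J ^ (4 * n + 4) * J = 2 * (J ^ (4 * n + 4) * J) := by ring
    omega
  have h5 : (2 * (m * (2 * J) ^ n)) ^ 2 ≤ J ^ (4 * n + 7) :=
    h3.trans (Nat.pow_le_pow_right hJ1 (by omega))
  have hn0 : (0 : ℝ) ≤ n := Nat.cast_nonneg n
  refine ⟨by linarith, hD, by linarith, by linarith, by linarith, hθ0, hθ1, ?_,
    Nat.cast_nonneg _, ?_, ?_, ?_⟩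
  · have := mul_le_mul_of_nonneg_left hJB hθ0.le
    linarith
  · exact_mod_cast h4
  · have h6 : 0 < (2 * (m * (2 * J) ^ n)) ^ 2 := by
      have : 0 < m := hm
      positivity
    exact_mod_cast h6
  · exact_mod_cast h5

private theorem core {n : ℕ} {ι : Type} [Fintype ι] {K L : Finset (Fin n → ℤ)} {c : Fin n → ℤ}
    {R r J kap : ℕ} {h : ι → Fin n → ℝ} {b : ι → ℝ} {D lam : ℝ}
    (H : PT K L c R r J kap h b D lam) {A : ℕ}
    (hfac : ∀ j, (∃ k : Fin n → ℤ, k ≠ 0 ∧ h j = em k) ∨ Dio (h j) D A)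
    {θ : ι → ℝ} (hθ0 : ∀ j, 0 < θ j) (hθ1 : ∀ j, θ j ≤ 1)
    (hvert : ∀ j, ∀ u : Fin n → ℝ, (∀ i, 0 ≤ u i ∧ u i ≤ 1) →
      ∃ v : Fin n → ℝ, (∀ l, h l ⬝ᵥ v ≤ b l) ∧ h j ⬝ᵥ v = b j ∧
        ∀ y : Fin n → ℝ, (∀ l, h l ⬝ᵥ y ≤ b l) →
          (h j + θ j • u) ⬝ᵥ y ≤ (h j + θ j • u) ⬝ᵥ v)
    (hJ16 : 16 ≤ J) (hJD : D + n ≤ J) (hJm : Fintype.card ι ≤ J) (hJθ : ∀ j, 1 ≤ θ j * J)
    (hlam : (J : ℝ) ^ ((4 * n + 7) * (A + 7) *
      ((A + 1) ^ 2 + 2) ^ (2 * Fintype.card ι + 1) * ((2 * A + 1) * (A + 1) + 2)) ≤ lam) :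
    L ⊆ K := by
  classical
  by_contra hcon
  obtain ⟨y₁, hy₁L, hy₁K⟩ := Finset.not_subset.1 hcon
  have hn := H.twf.n2
  have hD1 := H.pol.D1
  have hJ1 : 1 ≤ J := H.twf.J1
  obtain ⟨j, hj⟩ : ∃ j, lam * b j < h j ⬝ᵥ em (vs c y₁) := by
    by_contra hno
    push Not at hno
    exact hy₁K ((H.mem y₁).2 hno)
  have hm : 1 ≤ Fintype.card ι := Fintype.card_pos_iff.2 ⟨j⟩
  obtain ⟨hc1, hc2⟩ := H.cardS
  have hBd := fun j => bd_mk (n := n) hJ16 hD1 hJD hJm (hθ0 j) (hθ1 j) (hJθ j) hm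
  set m := Fintype.card ι with hmdef
  set N := 2 * (m * (2 * J) ^ n) with hNdef
  set B := (J : ℝ) ^ (4 * n + 7) with hB
  set κ := (A + 1) ^ 2 + 2 with hκ
  set a₀ := (4 * n + 7) * (A + 7) with ha₀
  have hN : (K \ L).card + (L \ K).card ≤ N := by omega
  have hyS : y₁ ∈ L \ K := mem_sdiff.2 ⟨hy₁L, hy₁K⟩
  have hN1 : 1 ≤ N := by
    have : 0 < (L \ K).card := card_pos.2 ⟨_, hyS⟩
    omega
  have hNN : N ≤ N ^ 2 := by nlinarith
  have hN' : (K \ L).card ≤ N ^ 2 := by omega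
  -- scales
  set T : ℕ → ℕ := fun i => J ^ (a₀ * κ ^ i) with hT
  have hκ1 : 1 ≤ κ := by omega
  have hTmono : Monotone T := by
    intro i k hik
    exact Nat.pow_le_pow_right hJ1 (Nat.mul_le_mul_left _ (Nat.pow_le_pow_right hκ1 hik))
  have hTsucc : ∀ i, T (i + 1) = T i ^ κ := by
    intro i
    simp only [hT]
    rw [← pow_mul]
    congr 1
    ring
  have hTB : ∀ i, B ^ (A + 7) ≤ (T i : ℝ) := by
    intro i
    have h1 : T 0 ≤ T i := hTmono (Nat.zero_le i)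
    have h2 : B ^ (A + 7) = ((T 0 : ℕ) : ℝ) := by
      simp only [hT, hB, ha₀]
      push_cast
      rw [← pow_mul, pow_zero, mul_one]
    rw [h2]
    exact_mod_cast h1
  have hT1 : ∀ i, 1 ≤ T i := fun i => Nat.one_le_pow _ _ hJ1
  set q := 2 * m with hq
  set Y := T (q + 1) with hY
  have hYlam : (Y : ℝ) ^ ((2 * A + 1) * (A + 1) + 2) ≤ lam := by
    refine le_trans (le_of_eq ?_) hlam
    simp only [hY, hT]
    push_cast
    rw [← pow_mul]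
  have hY1 : (1 : ℝ) ≤ Y := by exact_mod_cast hT1 (q + 1)
  have hellr : ((((N ^ 2 + 1) * J : ℕ) : ℝ)) = ((N : ℝ) ^ 2 + 1) * J := by push_cast; ring
  obtain ⟨htA, htB, htC, htD, htE, htF⟩ := (hBd j).top (hTB (q + 1)) hYlam
  -- integer facets
  have hDio : ∀ y ∈ L, ∀ l, lam * b l < h l ⬝ᵥ em (vs c y) → Dio (h l) D A := by
    intro y hy l hl
    rcases hfac l with ⟨k, hk0, hk⟩ | hk
    · exfalso
      have h1 := H.rat hn hN' hk0 hk (by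
        push_cast
        rw [hellr] at htA
        exact htA) y hy
      linarith
    · exact hk
  -- thin layers
  set δ : ℝ := 1 / (B * (2 * (Y : ℝ) ^ 2) ^ A) with hδ
  have hB16 : 16 ≤ B := (hBd j).B16
  have hδ0 : 0 < δ := by
    rw [hδ]
    positivity
  have hδ1 : δ ≤ 1 := by
    rw [hδ, div_le_one (by positivity)]
    have h1 : (1 : ℝ) ≤ (2 * (Y : ℝ) ^ 2) ^ A := by
      apply one_le_pow₀
      nlinarith
    nlinarith
  have hthin : ∀ y ∈ L, ∀ l, lam * b l < h l ⬝ᵥ em (vs c y) →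
      Dio (h l) D A ∧ h l ⬝ᵥ em (vs c y) ≤ lam * b l + δ := by
    intro y hy l hl
    have hd := hDio y hy l hl
    refine ⟨hd, H.thin hn hN' hd hδ0 hδ1 (Q := Y ^ (2 * A + 1)) ?_ ?_ y hy⟩
    · push_cast at htE ⊢
      exact htE
    · push_cast at htF ⊢
      exact htF
  have hloc := fun y₀ => H.localc (ρ := Y ^ 2) hthin (by
    have h1 : (((2 * Y ^ 2 : ℕ) : ℝ)) = 2 * (Y : ℝ) ^ 2 := by push_cast; ring
    rw [h1, hδ]
    have h2 : 0 < (2 * (Y : ℝ) ^ 2) ^ A := by positivity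
    have h3 : D * (1 / (B * (2 * (Y : ℝ) ^ 2) ^ A)) * (2 * (Y : ℝ) ^ 2) ^ A = D / B := by
      field_simp
    rw [h3, div_lt_iff₀ (by linarith)]
    have := (hBd j).DB
    linarith) y₀
  -- a direction in general position
  set S : Finset (Fin n → ℤ) := (K \ L) ∪ (L \ K) with hS
  have hSc : S.card ≤ N := (card_union_le _ _).trans hN
  have hSD : ∀ x, Df K L x ↔ x ∈ S := by
    intro x
    rw [hS, mem_union, mem_sdiff, mem_sdiff, Df]
    tauto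
  set E : Finset (Fin n → ℤ) := (S.offDiag).image (fun p => p.1 - p.2) with hE
  have hE0 : (0 : Fin n → ℤ) ∉ E := by
    rw [hE, mem_image]
    rintro ⟨p, hp, h0⟩
    rw [mem_offDiag] at hp
    exact hp.2.2 (sub_eq_zero.1 h0)
  have hEc : E.card ≤ N ^ 2 := by
    refine card_image_le.trans ?_
    rw [offDiag_card]
    have : S.card * S.card ≤ N * N := Nat.mul_le_mul hSc hSc
    have h2 : N ^ 2 = N * N := sq N
    omega
  obtain ⟨u, hu, hgrid⟩ := grid (h j) (hθ0 j) E hE0 hEc (Nat.one_le_pow _ _ hN1)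
  obtain ⟨v, hv, hjv, hmax⟩ := hvert j u hu
  set ω := h j + θ j • u with hω
  have hW : ∑ i, |ω i| ≤ D + n := by
    calc ∑ i, |ω i| ≤ ∑ i, (|h j i| + 1) := by
          refine Finset.sum_le_sum fun i _ => ?_
          rw [hω, Pi.add_apply, Pi.smul_apply, smul_eq_mul]
          refine (abs_add_le _ _).trans ?_
          have h1 : |θ j * u i| ≤ 1 := by
            rw [abs_mul, abs_of_pos (hθ0 j), abs_of_nonneg (hu i).1]
            exact mul_le_one₀ (hθ1 j) (hu i).1 (hu i).2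
          linarith
      _ = ∑ i, |h j i| + n := by
          rw [Finset.sum_add_distrib]
          simp
      _ ≤ D + n := by
          have := H.pol.hD j
          linarith
  have hgen : ∀ x ∈ S, ∀ y ∈ S, x ≠ y → ∀ i,
      θ j * |((y i - x i : ℤ) : ℝ)| ≤ 2 * ((N ^ 2 : ℕ) : ℝ) * |ω ⬝ᵥ em (y - x)| := by
    intro x hx y hy hxy i
    have h1 : y - x ∈ E := by
      rw [hE, mem_image]
      exact ⟨(y, x), mem_offDiag.2 ⟨hy, hx, Ne.symm hxy⟩, rfl⟩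
    have := hgrid _ h1 i
    rwa [Pi.sub_apply] at this
  -- the top
  obtain ⟨y₀, hy₀, htop⟩ := Finset.exists_max_image (L \ K) (fun y => ω ⬝ᵥ em y) ⟨_, hyS⟩
  have hy₀S : y₀ ∈ S := mem_union_right _ hy₀
  have hW1 := (hBd j).W1
  have hM0 := (hBd j).M0
  have htopc := H.topc hW hW1 hv hmax hN htop (by
    push_cast at htB ⊢
    exact htB)
  have hcount := H.count hW hW1 hv hmax hN hy₀ htop (hθ0 j) hM0
    (fun y hy hne i => hgen y (mem_union_right _ hy) y₀ hy₀S hne i) (ρ := Y) (ρ' := Y ^ 2)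
    (by
      push_cast at htC ⊢
      exact htC)
    (by
      push_cast at htD ⊢
      exact htD)
  have hc3 := hloc y₀
  -- groups of differences
  set F : Finset (Fin n → ℤ) := ((K \ L).filter fun x => ∀ i, |x i - y₀ i| ≤ (Y : ℤ)) ∪
    ((L \ K).filter fun x => ∀ i, |x i - y₀ i| ≤ (Y : ℤ)) with hF
  have hFc : F.card ≤ q := by
    have h1 : ((L \ K).filter fun x => ∀ i, |x i - y₀ i| ≤ (Y : ℤ)).card ≤
        ((L \ K).filter fun x => ∀ i, |x i - y₀ i| ≤ ((Y ^ 2 : ℕ) : ℤ)).card := by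
      apply card_le_card
      intro x hx
      rw [mem_filter] at hx ⊢
      refine ⟨hx.1, fun i => (hx.2 i).trans ?_⟩
      have : Y ≤ Y ^ 2 := Nat.le_self_pow (by norm_num) Y
      exact_mod_cast this
    have h2 := card_union_le ((K \ L).filter fun x => ∀ i, |x i - y₀ i| ≤ (Y : ℤ))
      ((L \ K).filter fun x => ∀ i, |x i - y₀ i| ≤ (Y : ℤ))
    rw [← hF] at h2
    omega
  obtain ⟨i₀, hi₀, hgap⟩ := scale_gap F (fun x => univ.sup fun i => (x i - y₀ i).natAbs) T hTmono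
    hFc
  have hgap' : ∀ x, Df K L x → (∀ i, |x i - y₀ i| ≤ ((T i₀ : ℕ) : ℤ)) ∨
      ∃ i, ((T i₀ ^ κ : ℕ) : ℤ) < |x i - y₀ i| := by
    intro x hx
    rw [← hTsucc]
    have hxS := (hSD x).1 hx
    by_cases hxF : x ∈ F
    · rcases hgap x hxF with h1 | h1
      · left
        intro i
        have h2 : (x i - y₀ i).natAbs ≤ T i₀ :=
          (Finset.le_sup (f := fun i => (x i - y₀ i).natAbs) (mem_univ i)).trans h1
        rw [Int.abs_eq_natAbs]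
        exact_mod_cast h2
      · right
        rw [Finset.lt_sup_iff] at h1
        obtain ⟨i, -, hi⟩ := h1
        refine ⟨i, ?_⟩
        rw [Int.abs_eq_natAbs]
        exact_mod_cast hi
    · right
      by_contra hno
      push Not at hno
      apply hxF
      have h1 : ∀ i, |x i - y₀ i| ≤ (Y : ℤ) := by
        intro i
        refine (hno i).trans ?_
        have : T (i₀ + 1) ≤ Y := hTmono (by omega)
        exact_mod_cast this
      rw [hF, mem_union, mem_filter, mem_filter]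
      rw [hS, mem_union] at hxS
      rcases hxS with h2 | h2
      · exact Or.inl ⟨h2, h1⟩
      · exact Or.inr ⟨h2, h1⟩
  -- contradiction
  obtain ⟨hsA, hsB, hsC⟩ := (hBd j).scale (A := A) (hTB i₀) rfl
  have hsQ := (hBd j).num_Q (A := A) (hTB i₀)
  have hTl : (((T i₀ ^ κ : ℕ) : ℝ)) ≤ lam := by
    have h1 : T i₀ ^ κ ≤ Y := by
      rw [← hTsucc]
      exact hTmono (by omega)
    have h2 : (((T i₀ ^ κ : ℕ) : ℝ)) ≤ Y := by exact_mod_cast h1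
    refine h2.trans (le_trans ?_ hYlam)
    exact le_self_pow₀ hY1 (by omega)
  have hdj := hDio y₁ hy₁L j hj
  refine H.final hW hW1 hv hmax hN hy₀ htop
    (τ := (D + n) * D ^ 3 * (1 + 2 * ((((N ^ 2 + 1) * J : ℕ) : ℝ) + 1)))
    (fun x hx => ?_) (hθ0 j) hM0
    (fun x hx hne i => hgen x ((hSD x).1 hx) y₀ hy₀S hne i) (hT1 i₀) hgap' hdj hjv
    (Q := T i₀ ^ (A + 1)) (P := 3 + 2 * (T i₀ : ℝ) ^ (A + 1) * (2 * D ^ 2 *
      ((T i₀ : ℝ) ^ (A + 1)) ^ A + (((N ^ 2 + 1) * J : ℕ) : ℝ) + 3)) ?_ ?_ ?_ ?_ ?_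
  · have := htopc x hx
    push_cast at this ⊢
    linarith
  · push_cast at hsQ ⊢
    exact hsQ
  · push_cast
    ring
  · push_cast at hTl
    exact hsA.trans hTl
  · push_cast at hsB ⊢
    exact hsB
  · push_cast at hsC ⊢
    exact hsC

theorem poly_main {n : ℕ} (hn : 2 ≤ n) {ι : Type} [Fintype ι] {h : ι → Fin n → ℝ} {b : ι → ℝ}
    {D : ℝ} {A : ℕ} (hpol : Pol h b D) {P : Finset (Fin n → ℝ)}
    (hP : ∀ y, y ∈ convexHull ℝ (P : Set (Fin n → ℝ)) ↔ ∀ l, h l ⬝ᵥ y ≤ b l)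
    (hfac : ∀ j, (∃ k : Fin n → ℤ, k ≠ 0 ∧ h j = em k) ∨ Dio (h j) D A) :
    ∃ lam₀ : ℝ, ∀ lam : ℝ, lam₀ ≤ lam → ∀ (c : Fin n → ℤ) (K L : Finset (Fin n → ℤ)), Tw K L c →
      (∀ x, x ∈ K ↔ ∀ j, h j ⬝ᵥ em (vs c x) ≤ lam * b j) → K = L := by
  classical
  have hD0 : 0 < D := lt_of_lt_of_le one_pos hpol.D1
  have hv : ∀ j, ∃ θ : ℝ, 0 < θ ∧ θ ≤ 1 ∧ ∀ u : Fin n → ℝ, (∀ i, 0 ≤ u i ∧ u i ≤ 1) →
      ∃ v : Fin n → ℝ, (∀ l, h l ⬝ᵥ v ≤ b l) ∧ h j ⬝ᵥ v = b j ∧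
        ∀ y : Fin n → ℝ, (∀ l, h l ⬝ᵥ y ≤ b l) →
          (h j + θ • u) ⬝ᵥ y ≤ (h j + θ • u) ⬝ᵥ v := by
    intro j
    obtain ⟨g, hg1, hg2⟩ := hpol.fc j
    refine vert hP (fun l => ?_) hg1
    by_cases hl : l = j
    · rw [hl, hg1]
    · have h1 := hg2 l hl
      have h2 : 0 < 1 / D := by positivity
      linarith
  choose θ hθ0 hθ1 hvert using hv
  obtain ⟨kap, hk⟩ := pol_pt hn hpol (β := (4 * n + 7) * (A + 7) *
    ((A + 1) ^ 2 + 2) ^ (2 * Fintype.card ι + 1) * ((2 * A + 1) * (A + 1) + 2)) (by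
      have h1 : 1 ≤ ((A + 1) ^ 2 + 2) ^ (2 * Fintype.card ι + 1) := Nat.one_le_pow _ _ (by omega)
      have h2 : 1 * 1 ≤ (4 * n + 7) * (A + 7) := Nat.mul_le_mul (by omega) (by omega)
      have h3 : 1 * 1 ≤ (4 * n + 7) * (A + 7) * ((A + 1) ^ 2 + 2) ^ (2 * Fintype.card ι + 1) :=
        Nat.mul_le_mul h2 h1
      have h4 : 3 ≤ (2 * A + 1) * (A + 1) + 2 := by nlinarith
      calc 3 ≤ 1 * ((2 * A + 1) * (A + 1) + 2) := by omega
        _ ≤ _ := Nat.mul_le_mul_right _ h3)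
  obtain ⟨lam₀, hlam₀⟩ := hk (16 + ⌈D + n⌉₊ + Fintype.card ι + ∑ j, ⌈(θ j)⁻¹⌉₊)
  refine ⟨lam₀, fun lam hlam c K L hTw hmem => ?_⟩
  obtain ⟨R, r, J, hJ, hJβ, H⟩ := hlam₀ lam hlam c K L hTw hmem
  have hsub : L ⊆ K := by
    refine core H hfac hθ0 hθ1 hvert (by omega) ?_ (by omega) (fun j => ?_) hJβ
    · have h1 : D + n ≤ (⌈D + n⌉₊ : ℝ) := Nat.le_ceil _
      have h2 : ((⌈D + n⌉₊ : ℕ) : ℝ) ≤ J := by
        have : ⌈D + n⌉₊ ≤ J := by omega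
        exact_mod_cast this
      linarith
    · have h1 : (θ j)⁻¹ ≤ (⌈(θ j)⁻¹⌉₊ : ℝ) := Nat.le_ceil _
      have h3 : ⌈(θ j)⁻¹⌉₊ ≤ ∑ j, ⌈(θ j)⁻¹⌉₊ :=
        Finset.single_le_sum (f := fun j => ⌈(θ j)⁻¹⌉₊) (fun _ _ => Nat.zero_le _) (mem_univ j)
      have h2 : ((⌈(θ j)⁻¹⌉₊ : ℕ) : ℝ) ≤ J := by
        have : ⌈(θ j)⁻¹⌉₊ ≤ J := by omega
        exact_mod_cast this
      have h4 : (θ j)⁻¹ ≤ J := h1.trans h2
      have h5 := mul_le_mul_of_nonneg_left h4 (hθ0 j).le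
      rwa [mul_inv_cancel₀ (hθ0 j).ne'] at h5
  exact (Finset.eq_of_subset_of_card_le hsub (le_of_eq hTw.card)).symm

end Pool.Agent.Lib.MP_8cf263_co
end

section

/-!
# One round spot, file RtCap: the theorem for lattice sets with a round cap

`Capp K Φ T η`: for every integer functional `G` in a direction near `e₀` the part of `K` above some
height `h₀` agrees with the sublevel set `{Φ ≤ T}`, and `{Φ ≤ T}` has a real point at height `h₀ + 1`.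

`cap_thm`: fat twins `K`, `L` such that `K` has this property with a function `Φ` with pinched second
differences and of depth `τ`, where the size of `K` is at most `τ ^ k`, are equal (if `K` is large).
-/

set_option autoImplicit false

namespace Pool.Agent.Lib.MP_8cf263_co

open Finset

/-- caps in all directions near `e₀` agree with the sublevel set of `Φ` -/
def Capp {m : ℕ} (K : Finset (Fin (m + 2) → ℤ)) (Φ : (Fin (m + 2) → ℝ) → ℝ) (T η : ℝ) : Prop :=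
  ∀ (s : ℝ) (G : Fin (m + 2) → ℤ), 1 ≤ s →
    (s⁻¹ • em G - Pi.single 0 1) ⬝ᵥ (s⁻¹ • em G - Pi.single 0 1) ≤ η ^ 2 →
    ∃ h₀ : ℤ, (∀ x : Fin (m + 2) → ℤ, h₀ ≤ G ⬝ᵥ x → (x ∈ K ↔ Φ (em x) ≤ T)) ∧
      ∃ z : Fin (m + 2) → ℝ, em G ⬝ᵥ z = h₀ + 1 ∧ Φ z ≤ T

theorem Capp.agr1 {m : ℕ} {K : Finset (Fin (m + 2) → ℤ)} {Φ : (Fin (m + 2) → ℝ) → ℝ} {T η b : ℝ}
    (h : Capp K Φ T η) (hb : ∀ x, b ≤ Φ x) :
    ∃ h₀ : ℤ, (∀ x : Fin (m + 2) → ℤ, h₀ ≤ x 0 → (x ∈ K ↔ Φ (em x) ≤ T)) ∧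
      mg Φ 1 (Function.update 0 0 ((h₀ + 1 : ℤ) : ℝ)) ≤ T := by
  have e1 : em (Pi.single 0 1 : Fin (m + 2) → ℤ) = Pi.single 0 1 := by
    funext i
    by_cases hi : i = 0
    · subst hi
      simp [em]
    · simp [em, hi]
  obtain ⟨h₀, hA, z, hz1, hz2⟩ := h 1 (Pi.single 0 1) le_rfl (by
      rw [e1]
      simp
      positivity)
  refine ⟨h₀, fun x hx => hA x (by simpa [single_dotProduct] using hx), ?_⟩
  refine (mg_self hb (x' := z) fun i hi => ?_).trans hz2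
  have hi0 : i = 0 := Fin.ext (by
    have : i.1 = 0 := by omega
    simpa using this)
  subst hi0
  rw [e1, single_dotProduct, one_mul] at hz1
  rw [hz1]
  simp

private theorem capp_aux {K : Finset (Fin (0 + 2) → ℤ)} {Φ : (Fin (0 + 2) → ℝ) → ℝ} {T η b : ℝ}
    (h : Capp K Φ T η) (hb : ∀ x, b ≤ Φ x) {s : ℝ} (hs : 1 ≤ s)
    (Fm : Fr) (h1 : (s⁻¹ * ((Fm.ep : ℝ) * Fm.q2) - 1) ^ 2 + (s⁻¹ * ((Fm.ep : ℝ) * Fm.q1)) ^ 2 ≤
      η ^ 2) : Agr K Φ T Fm 0 := by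
  obtain ⟨G, hG⟩ : ∃ G : Fin (0 + 2) → ℤ, G = ![Fm.ep * Fm.q2, -(Fm.ep * Fm.q1)] := ⟨_, rfl⟩
  have hG0 : G 0 = Fm.ep * Fm.q2 := by rw [hG]; rfl
  have hG1 : G 1 = -(Fm.ep * Fm.q1) := by rw [hG]; rfl
  have hg : ∀ x : Fin (0 + 2) → ℤ, G ⬝ᵥ x = Fm.g 0 x := by
    intro x
    have e : G ⬝ᵥ x = G 0 * x 0 + G 1 * x 1 := Fin.sum_univ_two _
    have hu : iu 0 = (0 : Fin (0 + 2)) := rfl
    have hv : iv 0 = (1 : Fin (0 + 2)) := rfl
    rw [e, hG0, hG1, Fr.g, hu, hv]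
    ring
  obtain ⟨h₀, hA, z, hz1, hz2⟩ := h s G hs (by
    have e : ∀ v : Fin (0 + 2) → ℝ, v ⬝ᵥ v = v 0 * v 0 + v 1 * v 1 := fun v => Fin.sum_univ_two _
    have e0 : (s⁻¹ • em G - Pi.single 0 1 : Fin (0 + 2) → ℝ) 0 =
        s⁻¹ * ((Fm.ep : ℝ) * Fm.q2) - 1 := by
      simp [em, hG0]
    have e1 : (s⁻¹ • em G - Pi.single 0 1 : Fin (0 + 2) → ℝ) 1 =
        -(s⁻¹ * ((Fm.ep : ℝ) * Fm.q1)) := by
      simp [em, hG1]
    rw [e, e0, e1]
    linarith)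
  refine ⟨h₀ + 1, ?_, fun x _ hx => hA x ?_⟩
  · refine le_trans ?_ hz2
    have hz3 : (Fm.ep : ℝ) * Fm.q2 * z 0 - (Fm.ep : ℝ) * Fm.q1 * z 1 = h₀ + 1 := by
      have e : em G ⬝ᵥ z = em G 0 * z 0 + em G 1 * z 1 := Fin.sum_univ_two _
      rw [← hz1, e]
      simp only [em, hG0, hG1]
      push_cast
      ring
    have hd : (Fm.ep : ℝ) * ((Fm.p1 : ℝ) * Fm.q2 - Fm.p2 * Fm.q1) = 1 := by
      have := Fm.det
      exact_mod_cast this
    have e : em (0 : Fin (0 + 2) → ℤ) + (((h₀ + 1 : ℤ) : ℝ)) • em (Fm.w 0) +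
        ((Fm.ep : ℝ) * (z 1 * Fm.p1 - z 0 * Fm.p2)) • em (Fm.e 0) = z := by
      funext i
      have hw0 : Fm.w 0 0 = Fm.p1 := by
        simp [Fr.w, iu, iv]
      have hw1 : Fm.w 0 1 = Fm.p2 := by
        simp [Fr.w, iu, iv]
      have he0 : Fm.e 0 0 = Fm.q1 := by
        simp [Fr.e, iu, iv]
      have he1 : Fm.e 0 1 = Fm.q2 := by
        simp [Fr.e, iu, iv]
      fin_cases i
      · show ((0 : ℤ) : ℝ) + ((h₀ + 1 : ℤ) : ℝ) * ((Fm.w 0 0 : ℤ) : ℝ) +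
          ((Fm.ep : ℝ) * (z 1 * Fm.p1 - z 0 * Fm.p2)) * ((Fm.e 0 0 : ℤ) : ℝ) = z 0
        rw [hw0, he0]
        push_cast
        linear_combination (-(Fm.p1 : ℝ)) * hz3 + z 0 * hd
      · show ((0 : ℤ) : ℝ) + ((h₀ + 1 : ℤ) : ℝ) * ((Fm.w 0 1 : ℤ) : ℝ) +
          ((Fm.ep : ℝ) * (z 1 * Fm.p1 - z 0 * Fm.p2)) * ((Fm.e 0 1 : ℤ) : ℝ) = z 1
        rw [hw1, he1]
        push_cast
        linear_combination (-(Fm.p2 : ℝ)) * hz3 + z 1 * hd
    have h2 := cm_le (Φ := pl Φ Fm 0) (b := b)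
      (fun x y => hb _) (((h₀ + 1 : ℤ) : ℝ))
      ((Fm.ep : ℝ) * (z 1 * Fm.p1 - z 0 * Fm.p2))
    refine h2.trans (le_of_eq ?_)
    rw [pl, e]
  · rw [hg]
    have : Fm.g 0 (0 : Fin (0 + 2) → ℤ) = 0 := by
      simp [Fr.g]
    rw [this] at hx
    omega

theorem Capp.agr0 {K : Finset (Fin (0 + 2) → ℤ)} {Φ : (Fin (0 + 2) → ℝ) → ℝ} {T η b : ℝ}
    (h : Capp K Φ T η) (hb : ∀ x, b ≤ Φ x) :
    Agr K Φ T FA 0 ∧ ∀ s : ℕ, 1 ≤ s → 1 / (s : ℝ) ≤ η →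
      Agr K Φ T (FC (s : ℤ)) 0 ∧ Agr K Φ T (FD (s : ℤ)) 0 := by
  refine ⟨capp_aux h hb (s := 1) le_rfl FA ?_, fun s hs hsη => ?_⟩
  · simp [FA]
    positivity
  · have hs1 : (1 : ℝ) ≤ (s : ℝ) := by exact_mod_cast hs
    have hs0 : (0 : ℝ) < (s : ℝ) := by linarith
    have h3 : (1 / (s : ℝ)) ^ 2 ≤ η ^ 2 := pow_le_pow_left₀ (by positivity) hsη 2
    have h4 : (s : ℝ)⁻¹ * (s : ℝ) = 1 := inv_mul_cancel₀ hs0.ne'
    have h5 : (s : ℝ)⁻¹ ^ 2 ≤ η ^ 2 := by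
      rw [one_div] at h3
      exact h3
    refine ⟨capp_aux h hb hs1 (FC (s : ℤ)) ?_, capp_aux h hb hs1 (FD (s : ℤ)) ?_⟩
    · simp only [FC]
      push_cast
      rw [one_mul, one_mul, h4, mul_one]
      linarith
    · simp only [FD]
      push_cast
      have e1 : (s : ℝ)⁻¹ * (-1 * -(s : ℝ)) = 1 := by
        linear_combination h4
      rw [e1]
      have e2 : ((s : ℝ)⁻¹ * (-1 * 1)) ^ 2 = (s : ℝ)⁻¹ ^ 2 := by ring
      rw [e2]
      linarith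

theorem cap_thm (m kap k : ℕ) {μ M η : ℝ} (hμ : 0 < μ) (hM : μ ≤ M) (hη : 0 < η) : ∃ τ₀ : ℝ,
    ∀ (K L : Finset (Fin (m + 2) → ℤ)) (c : Fin (m + 2) → ℤ) (R r : ℕ)
      (Φ : (Fin (m + 2) → ℝ) → ℝ) (T b : ℝ), Tw K L c → (∀ x ∈ K, ∀ i, |vs c x i| ≤ R) →
      (∀ x : Fin (m + 2) → ℤ, (∀ i, |vs c x i| ≤ r) → x ∈ K) → r ≤ R → R ≤ kap * r →
      SDn Φ μ M → (∀ x, b ≤ Φ x) → Capp K Φ T η → τ₀ ≤ T - mg Φ 0 0 → τ₀ ≤ r →
      (R : ℝ) ≤ (T - mg Φ 0 0) ^ k → K = L := by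
  obtain ⟨β, eE, X₀, heE, hcore⟩ := spot_core m kap hμ hM
  obtain ⟨β₀, J₀, γ₀, hsel⟩ := select2 (n := m + 2) hμ hM m (by omega) (β + 2 * eE + 2)
  -- the exponent and the size of `J`
  obtain ⟨β₁, hβ₁⟩ : ∃ β₁, β₁ = β₀ + (γ₀ * β + 1) + (β + 1) + 2 := ⟨_, rfl⟩
  obtain ⟨K₁, hK₁⟩ : ∃ K₁, K₁ = (β₁ + 1) * (2 * (k + 1)) := ⟨_, rfl⟩
  obtain ⟨lJ, hJ⟩ := exists_J (J₀ + X₀ + Cg K₁ * 200 + 64 * kap +
    ⌈4 + 80 * M + μ⌉₊ + ⌈1 / η⌉₊ + 2) β₁ (by omega)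
  refine ⟨max lJ (kap + 1), ?_⟩
  intro K L c R r Φ T b hTw hout hcor hrR hRr hΦ hb hcap hτ hτr hRτ
  -- the size `t` of the cap, reduced to `r`
  obtain ⟨τ, hτd⟩ : ∃ τ, τ = T - mg Φ 0 0 := ⟨_, rfl⟩
  rw [← hτd] at hτ hRτ
  obtain ⟨t, ht⟩ : ∃ t : ℝ, t = min τ r := ⟨_, rfl⟩
  have htτ : t ≤ τ := ht ▸ min_le_left _ _
  have htr : t ≤ r := ht ▸ min_le_right _ _
  have ht1 : lJ ≤ t := by
    rw [ht]
    exact le_min ((le_max_left _ _).trans hτ) ((le_max_left _ _).trans hτr)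
  have ht2 : (kap : ℝ) + 1 ≤ t := by
    rw [ht]
    exact le_min ((le_max_right _ _).trans hτ) ((le_max_right _ _).trans hτr)
  have hkap0 : (0 : ℝ) ≤ kap := Nat.cast_nonneg _
  have ht0 : 1 ≤ t := by linarith
  have hRt : (R : ℝ) ≤ t ^ (k + 1) := by
    rcases le_total τ (r : ℝ) with h1 | h1
    · have h2 : t = τ := by rw [ht, min_eq_left h1]
      rw [h2]
      refine hRτ.trans (pow_le_pow_right₀ (by linarith) (by omega))
    · have h2 : t = r := by rw [ht, min_eq_right h1]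
      have h3 : (R : ℝ) ≤ kap * r := by exact_mod_cast hRr
      rw [← h2] at h3
      rcases Nat.eq_zero_or_pos k with hk0 | hk0
      · have h4 : (R : ℝ) ≤ 1 := by
          rw [hk0] at hRτ
          simpa using hRτ
        rw [hk0]
        simp only [zero_add, pow_one]
        linarith
      · calc (R : ℝ) ≤ kap * t := h3
          _ ≤ t * t := mul_le_mul_of_nonneg_right (by linarith) (by linarith)
          _ = t ^ 2 := by ring
          _ ≤ t ^ (k + 1) := pow_le_pow_right₀ ht0 (by omega)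
  obtain ⟨J, hJA, hJ1, hJl, hJl2⟩ := hJ t ht1
  have hJr1 : (1 : ℝ) ≤ J := by exact_mod_cast hJ1
  have hJp : ∀ k l : ℕ, k ≤ l → (J : ℝ) ^ k ≤ (J : ℝ) ^ l := fun k l hkl =>
    pow_le_pow_right₀ hJr1 hkl
  have hgood : ∀ i : ℕ, i ≠ 0 → i ≤ 200 * R ^ 2 → Good J i := by
    intro i hi0 hi
    have hK0 : K₁ ≠ 0 := by
      rw [hK₁]
      positivity
    refine good_of_pow (k := K₁) hK0 hi0 ?_
    have h1 : (i : ℝ) ≤ 200 * (R : ℝ) ^ 2 := by exact_mod_cast hi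
    obtain ⟨A, hA⟩ : ∃ A : ℕ, A = J₀ + X₀ + Cg K₁ * 200 + 64 * kap +
      ⌈4 + 80 * M + μ⌉₊ + ⌈1 / η⌉₊ + 2 := ⟨_, rfl⟩
    rw [← hA] at hJl2
    have hA1 : (1 : ℝ) ≤ A := by
      have : 1 ≤ A := by omega
      exact_mod_cast this
    have hA2 : (Cg K₁ : ℝ) * 200 ≤ A := by
      have h3 : Cg K₁ * 200 ≤ A := by omega
      exact_mod_cast h3
    have h3 : (Cg K₁ : ℝ) * i ≤ (J : ℝ) ^ K₁ := by
      calc (Cg K₁ : ℝ) * i ≤ Cg K₁ * (200 * (R : ℝ) ^ 2) :=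
            mul_le_mul_of_nonneg_left h1 (Nat.cast_nonneg _)
        _ = (Cg K₁ * 200) * (R : ℝ) ^ 2 := by ring
        _ ≤ A * (R : ℝ) ^ 2 := mul_le_mul_of_nonneg_right hA2 (sq_nonneg _)
        _ ≤ A ^ (2 * (k + 1)) * (t ^ (k + 1)) ^ 2 := by
            refine mul_le_mul ?_ (pow_le_pow_left₀ (Nat.cast_nonneg _) hRt 2) (sq_nonneg _)
              (by positivity)
            calc (A : ℝ) = A ^ 1 := (pow_one _).symm
              _ ≤ A ^ (2 * (k + 1)) := pow_le_pow_right₀ hA1 (by omega)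
        _ = (A * t) ^ (2 * (k + 1)) := by
            rw [mul_pow, ← pow_mul]
            congr 2
            ring
        _ ≤ ((J : ℝ) ^ (β₁ + 1)) ^ (2 * (k + 1)) := pow_le_pow_left₀ (by positivity) hJl2 _
        _ = (J : ℝ) ^ K₁ := by rw [← pow_mul, hK₁]
    exact_mod_cast h3
  -- powers of `J` are at most `r`
  have hpow : ∀ i : ℕ, i ≤ β₁ → J ^ i ≤ r := by
    intro i hi
    have h1 : (J : ℝ) ^ i ≤ r := (hJp _ _ hi).trans (hJl.trans htr)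
    exact_mod_cast h1
  have hJr : 64 * (J * kap) ≤ r := by
    have h1 : 64 * kap ≤ J := by omega
    have h2 : J ^ 2 ≤ r := hpow 2 (by omega)
    calc 64 * (J * kap) = J * (64 * kap) := by ring
      _ ≤ J * J := Nat.mul_le_mul_left _ h1
      _ = J ^ 2 := by ring
      _ ≤ r := h2
  have hTwF : TwF K L c R r J kap :=
    ⟨hTw, by omega, hout, hcor, hgood, hJ1, hJr, hrR, hRr⟩
  have hdepth : ∀ i : ℕ, i ≤ β₁ → (J : ℝ) ^ i ≤ T - mg Φ 0 0 := by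
    intro i hi
    rw [← hτd]
    exact (hJp _ _ hi).trans (hJl.trans htτ)
  rcases Nat.eq_zero_or_pos m with rfl | hm
  · -- the planar case
    have habv : abv K 0 (0 : Fin (0 + 2) → ℤ) = ∅ := by
      unfold abv
      rw [filter_eq_empty_iff]
      rintro x _ ⟨j, hj, _⟩
      omega
    have hem0 : mg Φ 0 (em (0 : Fin (0 + 2) → ℤ)) = mg Φ 0 0 := mg_zero _ _
    obtain ⟨hA, hCD⟩ := hcap.agr0 hb
    have hJe : 1 ≤ J ^ eE := Nat.one_le_pow _ _ hJ1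
    have hJη : 1 / η ≤ (J : ℝ) := by
      have h1 : ⌈1 / η⌉₊ ≤ J := by omega
      exact (Nat.le_ceil _).trans (by exact_mod_cast h1)
    have hJs : J ≤ 2 * J ^ eE := by
      have h1 : J ^ 1 ≤ J ^ eE := Nat.pow_le_pow_right hJ1 heE
      rw [pow_one] at h1
      omega
    obtain ⟨hC', hD'⟩ := hCD (2 * J ^ eE) (by omega) (by
      have h1 : 1 / η ≤ ((2 * J ^ eE : ℕ) : ℝ) := hJη.trans (by exact_mod_cast hJs)
      have h2 : (0 : ℝ) < ((2 * J ^ eE : ℕ) : ℝ) := by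
        have : 0 < 2 * J ^ eE := by omega
        exact_mod_cast this
      rw [div_le_iff₀ hη] at h1
      rw [div_le_iff₀ h2]
      linarith)
    refine hcore K L c R r J Φ T b 0 J hTwF hΦ hb (by omega) le_rfl
      ?_ ?_ (hpow β (by omega)) hA hC' hD'
    · rw [habv]
      simp
    · rw [hem0]
      exact hdepth β (by omega)
  · -- the general case
    obtain ⟨h₀, hh1, hh2⟩ := hcap.agr1 hb
    obtain ⟨K', hK'⟩ : ∃ K', K' = K.filter (fun x => h₀ ≤ x 0) := ⟨_, rfl⟩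
    obtain ⟨a, X, hJX, hXJ, habv, hXT, hlev⟩ := hsel Φ K' T b hΦ hb
      (by
        intro x hx
        rw [hK', mem_filter] at hx
        exact (hh1 x hx.2).1 hx.1) J (by omega) hJ1 (hdepth β₀ (by omega))
    have ha0 : h₀ ≤ a 0 := by
      have := hlev hm 0 rfl (h₀ + 1) hh2
      omega
    have hX1 : 1 ≤ X := hJ1.trans hJX
    have hX1r : (1 : ℝ) ≤ X := by exact_mod_cast hX1
    have hXr : X ^ β ≤ r := by
      calc X ^ β ≤ (J ^ γ₀) ^ β := Nat.pow_le_pow_left hXJ _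
        _ = J ^ (γ₀ * β) := by rw [← pow_mul]
        _ ≤ r := hpow _ (by omega)
    have habv' : (abv K m a).card ≤ X := by
      refine le_trans (card_le_card ?_) habv
      rw [hK']
      exact abv_filter ha0
    have hXT' : (X : ℝ) ^ β ≤ T - mg Φ m (em a) :=
      (pow_le_pow_right₀ hX1r (by omega)).trans hXT
    have hXs : 4 + 80 * M + μ ≤ (X : ℝ) := by
      have h1 : ⌈4 + 80 * M + μ⌉₊ ≤ X := by omega
      exact (Nat.le_ceil _).trans (by exact_mod_cast h1)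
    have hXe : (1 : ℝ) ≤ (X : ℝ) ^ (2 * eE) := one_le_pow₀ hX1r
    have hM0 : 0 < M := lt_of_lt_of_le hμ hM
    have hs2 : 4 + 20 * M * (((2 * X ^ eE : ℕ) : ℝ)) ^ 2 + μ ≤ T - mg Φ m (em a) := by
      refine le_trans ?_ hXT
      have h1 : (((2 * X ^ eE : ℕ) : ℝ)) ^ 2 = 4 * (X : ℝ) ^ (2 * eE) := by
        push_cast
        rw [mul_pow, ← pow_mul, mul_comm eE 2]
        norm_num
      rw [h1]
      calc 4 + 20 * M * (4 * (X : ℝ) ^ (2 * eE)) + μ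
          ≤ (4 + 80 * M + μ) * (X : ℝ) ^ (2 * eE) := by nlinarith
        _ ≤ X * (X : ℝ) ^ (2 * eE) := mul_le_mul_of_nonneg_right hXs (by positivity)
        _ = (X : ℝ) ^ (2 * eE + 1) := (pow_succ' _ _).symm
        _ ≤ (X : ℝ) ^ (β + 2 * eE + 2) := pow_le_pow_right₀ hX1r (by omega)
    have hs1 : 4 + 20 * M * ((1 : ℕ) : ℝ) ^ 2 + μ ≤ T - mg Φ m (em a) := by
      refine le_trans ?_ hs2
      have h1 : (1 : ℝ) ≤ ((2 * X ^ eE : ℕ) : ℝ) := by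
        have : 1 ≤ 2 * X ^ eE := by
          have := Nat.one_le_pow eE X hX1
          omega
        exact_mod_cast this
      have h2 : ((1 : ℕ) : ℝ) ^ 2 ≤ (((2 * X ^ eE : ℕ) : ℝ)) ^ 2 := by
        rw [Nat.cast_one]
        exact pow_le_pow_left₀ zero_le_one h1 2
      have h3 := mul_le_mul_of_nonneg_left h2 (show (0 : ℝ) ≤ 20 * M by linarith)
      linarith
    have hagr : ∀ x : Fin (m + 2) → ℤ, (∀ i : Fin (m + 2), i.1 < m → x i = a i) →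
        (x ∈ K ↔ Φ (em x) ≤ T) := by
      intro x hx
      refine hh1 x ?_
      rw [hx 0 hm]
      exact ha0
    have hs0 : 1 ≤ 2 * X ^ eE := by
      have := Nat.one_le_pow eE X hX1
      omega
    have hFA : FA.Le (1 : ℕ) := by
      unfold FA Fr.Le
      norm_num
    refine hcore K L c R r J Φ T b a X hTwF hΦ hb (by omega) hJX
      habv' hXT' hXr ?_ ?_ ?_
    · exact Agr.of_level hΦ hμ hM hb hFA le_rfl hs1 hagr
    · exact Agr.of_level hΦ hμ hM hb (FC_le hs0) hs0 hs2 hagr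
    · exact Agr.of_level hΦ hμ hM hb (FD_le hs0) hs0 hs2 hagr

end Pool.Agent.Lib.MP_8cf263_co
end

section

/-!
# Round patches, file RtPg: caps of the lattice set

`Pg F v ρ x = ρ ^ 2 * F (ρ⁻¹ • (2 • x - v))`; `Pg_SDn`, `Pg_ge` as `Ph_SDn`, `Ph_ge` in RsAgrA.

`PCap.capp`.  (Copy the proof of `Cap.agr` in RsAgrA.)  Let `C' = {y | p + ρ • y ∈ C}`,
`K = {x : em (vs c x) ∈ C}`, `v = em c + p`, `1 ≤ s`, `u = s⁻¹ • em G` with `|u - e₀| ≤ η`,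
`4 ≤ ρ δ ≤ s ρ δ`, `D = u ⬝ᵥ q`.  Put `h = ⌈(s ρ (D - δ) + em G ⬝ᵥ v) / 2⌉`, so
`s ρ (D - δ) ≤ 2 h - em G ⬝ᵥ v < s ρ (D - δ) + 2`.   (1)
(A) Let `h ≤ G ⬝ᵥ x`, `w = ρ⁻¹ • (2 • em x - v) = ρ⁻¹ • (em (vs c x) - p)`, so `p + ρ • w = em (vs c x)` and
`x ∈ K ↔ w ∈ C'`; `Pg F v ρ (em x) ≤ ρ ^ 2 ↔ F w ≤ 1`.
`u ⬝ᵥ w = (2 G ⬝ᵥ x - em G ⬝ᵥ v) / (s ρ) ≥ D - δ` by (1).  So the two statements are equivalent by
`PCap.cap` (if one of them holds).
(B) `t = (2 (h + 1) - em G ⬝ᵥ v) / (s ρ D)`, `z = (1 / 2) • ((ρ t) • q + v)`: `em G ⬝ᵥ z = h + 1`; by (1)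
`D - δ ≤ t D`, `0 ≤ t`, `t ≤ 1`; `Pg F v ρ z = ρ ^ 2 F (t • q) = ρ ^ 2 t ^ 2 ≤ ρ ^ 2`.

`PCap.depth`: as `Cap.depth` (RsAgr): `u = e₀`, `t₁ = 1 - δ / q 0`, `c₀ = 1 - t₁ ^ 2` and
`mg (Pg F v ρ) 0 0 ≤ Pg F v ρ z₁ = ρ ^ 2 t₁ ^ 2` for `z₁ = (1 / 2) • ((ρ t₁) • q + v)`.
-/

set_option autoImplicit false

namespace Pool.Agent.Lib.MP_8cf263_co

/-- the good function -/
noncomputable def Pg {n : ℕ} (F : (Fin n → ℝ) → ℝ) (v : Fin n → ℝ) (ρ : ℝ) (x : Fin n → ℝ) : ℝ :=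
  ρ ^ 2 * F (ρ⁻¹ • ((2 : ℝ) • x - v))

theorem Pg_SDn {n : ℕ} {F : (Fin n → ℝ) → ℝ} {μ M : ℝ} (h : SDn F μ M) (v : Fin n → ℝ) {ρ : ℝ}
    (hρ : 0 < ρ) : SDn (Pg F v ρ) (4 * μ) (4 * M) := by
  have e1 : ∀ x y : Fin n → ℝ, ρ⁻¹ • ((2 : ℝ) • (x + y) - v) =
      ρ⁻¹ • ((2 : ℝ) • x - v) + (2 * ρ⁻¹) • y := by
    intro x y
    funext i
    simp only [Pi.add_apply, Pi.sub_apply, Pi.smul_apply, smul_eq_mul]
    ring
  have e2 : ∀ x y : Fin n → ℝ, ρ⁻¹ • ((2 : ℝ) • (x - y) - v) =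
      ρ⁻¹ • ((2 : ℝ) • x - v) - (2 * ρ⁻¹) • y := by
    intro x y
    funext i
    simp only [Pi.sub_apply, Pi.smul_apply, smul_eq_mul]
    ring
  have e3 : ∀ y : Fin n → ℝ, ρ ^ 2 * (((2 * ρ⁻¹) • y) ⬝ᵥ ((2 * ρ⁻¹) • y)) =
      4 * (y ⬝ᵥ y) := by
    intro y
    rw [smul_dotProduct, dotProduct_smul, smul_eq_mul, smul_eq_mul]
    field_simp
    ring
  constructor
  · intro x y
    have h1 := mul_le_mul_of_nonneg_left (h.lo (ρ⁻¹ • ((2 : ℝ) • x - v)) ((2 * ρ⁻¹) • y))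
      (sq_nonneg ρ)
    have h2 := e3 y
    simp only [Pg, e1, e2]
    linear_combination h1 - 2 * μ * h2
  · intro x y
    have h1 := mul_le_mul_of_nonneg_left (h.up (ρ⁻¹ • ((2 : ℝ) • x - v)) ((2 * ρ⁻¹) • y))
      (sq_nonneg ρ)
    have h2 := e3 y
    simp only [Pg, e1, e2]
    linear_combination h1 + 2 * M * h2

theorem Pg_ge {n : ℕ} {F : (Fin n → ℝ) → ℝ} {b : ℝ} (hb : ∀ x, b ≤ F x) (v : Fin n → ℝ) (ρ : ℝ)
    (x : Fin n → ℝ) : ρ ^ 2 * b ≤ Pg F v ρ x := by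
  exact mul_le_mul_of_nonneg_left (hb _) (sq_nonneg ρ)

theorem PCap.capp {m : ℕ} {F : (Fin (m + 2) → ℝ) → ℝ} {q p : Fin (m + 2) → ℝ} {ρ δ η : ℝ}
    {C : Set (Fin (m + 2) → ℝ)} (h : PCap F q {y | p + ρ • y ∈ C} δ η)
    {K : Finset (Fin (m + 2) → ℤ)} {c : Fin (m + 2) → ℤ} (hρ : 0 < ρ)
    (hK : ∀ x, x ∈ K ↔ em (vs c x) ∈ C) (hsl : 4 ≤ ρ * δ) :
    Capp K (Pg F (em c + p) ρ) (ρ ^ 2) η := by
  intro s G hs hG
  have hs0 : 0 < s := by linarith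
  obtain ⟨u, hu⟩ : ∃ u : Fin (m + 2) → ℝ, u = s⁻¹ • em G := ⟨_, rfl⟩
  rw [← hu] at hG
  obtain ⟨hA, hB, hC⟩ := h.cap u hG
  have hδ := h.hδ
  have hGx : ∀ x : Fin (m + 2) → ℝ, em G ⬝ᵥ x = s * (u ⬝ᵥ x) := by
    intro x
    rw [hu, smul_dotProduct, smul_eq_mul]
    field_simp
  have hGi : ∀ x : Fin (m + 2) → ℤ, em G ⬝ᵥ em x = ((G ⬝ᵥ x : ℤ) : ℝ) := by
    intro x
    simp [em, dotProduct]
  obtain ⟨D, hD⟩ : ∃ D, D = u ⬝ᵥ q := ⟨_, rfl⟩
  rw [← hD] at hA hB hC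
  obtain ⟨v, hv⟩ : ∃ v : Fin (m + 2) → ℝ, v = em c + p := ⟨_, rfl⟩
  rw [← hv]
  obtain ⟨g, hg⟩ : ∃ g : ℝ, g = em G ⬝ᵥ v := ⟨_, rfl⟩
  have hsl0 : 0 < s * ρ := mul_pos hs0 hρ
  have hsl1 : 4 ≤ s * ρ * δ := by
    have h2 : 1 * (ρ * δ) ≤ s * (ρ * δ) := mul_le_mul_of_nonneg_right hs (by positivity)
    linarith
  have hc1 := Int.le_ceil ((s * ρ * (D - δ) + g) / 2)
  have hc2 := Int.ceil_lt_add_one ((s * ρ * (D - δ) + g) / 2)
  obtain ⟨h₀, hh⟩ : ∃ h₀ : ℤ, h₀ = ⌈(s * ρ * (D - δ) + g) / 2⌉ := ⟨_, rfl⟩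
  rw [← hh] at hc1 hc2
  refine ⟨h₀, fun x hx => ?_, ?_⟩
  · obtain ⟨w, hw⟩ : ∃ w, w = ρ⁻¹ • ((2 : ℝ) • em x - v) := ⟨_, rfl⟩
    rw [Pg, ← hw]
    have hpw : p + ρ • w = em (vs c x) := by
      have e : em (vs c x) = (2 : ℝ) • em x - em c := by
        funext i
        simp [em, vs]
      rw [hw, smul_smul, mul_inv_cancel₀ hρ.ne', one_smul, hv, e]
      abel
    have h1 : x ∈ K ↔ w ∈ {y | p + ρ • y ∈ C} := by
      rw [hK, Set.mem_ofPred_eq, hpw]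
    have h2 : ρ ^ 2 * F w ≤ ρ ^ 2 ↔ F w ≤ 1 := by
      have hl2 : 0 < ρ ^ 2 := by positivity
      constructor
      · intro h3
        by_contra h4
        push Not at h4
        nlinarith
      · intro h3
        nlinarith
    rw [h1, h2]
    have h3 : s * ρ * (u ⬝ᵥ w) = 2 * ((G ⬝ᵥ x : ℤ) : ℝ) - g := by
      have e2 : s * (u ⬝ᵥ w) = ρ⁻¹ * (2 * ((G ⬝ᵥ x : ℤ) : ℝ) - g) := by
        rw [← hGx, hw, dotProduct_smul, dotProduct_sub, dotProduct_smul, hGi, smul_eq_mul,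
          smul_eq_mul, hg]
      calc s * ρ * (u ⬝ᵥ w) = ρ * (s * (u ⬝ᵥ w)) := by ring
        _ = 2 * ((G ⬝ᵥ x : ℤ) : ℝ) - g := by
            rw [e2]
            field_simp
    have h4 : D - δ ≤ u ⬝ᵥ w := by
      have hx' : (h₀ : ℝ) ≤ ((G ⬝ᵥ x : ℤ) : ℝ) := by exact_mod_cast hx
      have h5 : s * ρ * (D - δ) ≤ s * ρ * (u ⬝ᵥ w) := by
        rw [h3]
        linarith
      exact le_of_mul_le_mul_left h5 hsl0
    exact ⟨fun h5 => (hA w (Or.inl h5) h4).1 h5, fun h5 => (hA w (Or.inr h5) h4).2 h5⟩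
  · have hD0 : 0 < D := lt_of_lt_of_le hδ hB
    obtain ⟨t, ht⟩ : ∃ t, t = (2 * ((h₀ : ℝ) + 1) - g) / (s * ρ * D) := ⟨_, rfl⟩
    have hsD : 0 < s * ρ * D := mul_pos hsl0 hD0
    have ht1 : t * (s * ρ * D) = 2 * ((h₀ : ℝ) + 1) - g := by
      rw [ht]
      exact div_mul_cancel₀ _ hsD.ne'
    have ht2 : D - δ ≤ t * D := by
      have h5 : s * ρ * (D - δ) ≤ s * ρ * (t * D) := by
        have : s * ρ * (t * D) = t * (s * ρ * D) := by ring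
        rw [this, ht1]
        linarith
      exact le_of_mul_le_mul_left h5 hsl0
    have ht3 : t ≤ 1 := by
      have h5 : t * (s * ρ * D) ≤ 1 * (s * ρ * D) := by
        rw [ht1]
        linarith
      exact le_of_mul_le_mul_right h5 hsD
    have ht0 : 0 ≤ t := by
      have h5 : 0 * D ≤ t * D := by linarith
      exact le_of_mul_le_mul_right h5 hD0
    refine ⟨(1 / 2 : ℝ) • ((ρ * t) • q + v), ?_, ?_⟩
    · rw [dotProduct_smul, dotProduct_add, dotProduct_smul, hGx, ← hD, ← hg, smul_eq_mul,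
        smul_eq_mul]
      linear_combination (1 / 2) * ht1
    · have e : ρ⁻¹ • ((2 : ℝ) • ((1 / 2 : ℝ) • ((ρ * t) • q + v)) - v) = t • q := by
        funext i
        simp only [Pi.add_apply, Pi.sub_apply, Pi.smul_apply, smul_eq_mul]
        field_simp
        ring
      rw [Pg, e, hC t ht2 ht3]
      have h5 : t ^ 2 ≤ 1 := by nlinarith
      have h6 := mul_le_mul_of_nonneg_left h5 (sq_nonneg ρ)
      linarith

theorem PCap.depth {m : ℕ} {F : (Fin (m + 2) → ℝ) → ℝ} {q : Fin (m + 2) → ℝ} {b δ η : ℝ}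
    {C : Set (Fin (m + 2) → ℝ)} (h : PCap F q C δ η) (hb : ∀ x, b ≤ F x) :
    ∃ c₀ : ℝ, 0 < c₀ ∧ ∀ (v : Fin (m + 2) → ℝ) (ρ : ℝ), 0 < ρ →
      c₀ * ρ ^ 2 ≤ ρ ^ 2 - mg (Pg F v ρ) 0 0 := by
  have hδ := h.hδ
  obtain ⟨-, hB, hC⟩ := h.cap (Pi.single 0 1) (by
    simp
    positivity)
  have e1 : (Pi.single 0 1 : Fin (m + 2) → ℝ) ⬝ᵥ q = q 0 := by
    rw [single_dotProduct, one_mul]
  rw [e1] at hB hC
  have hq0 : 0 < q 0 := lt_of_lt_of_le hδ hB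
  obtain ⟨r, hr⟩ : ∃ r, r = δ / q 0 := ⟨_, rfl⟩
  have hr0 : 0 < r := by
    rw [hr]
    positivity
  have hr1 : r ≤ 1 := by
    rw [hr, div_le_one hq0]
    exact hB
  have hrq : r * q 0 = δ := by
    rw [hr]
    exact div_mul_cancel₀ _ hq0.ne'
  have hF := hC (1 - r) (by linarith [hrq]) (by linarith)
  refine ⟨1 - (1 - r) ^ 2, by nlinarith, fun v ρ hρ => ?_⟩
  have hm : mg (Pg F v ρ) 0 0 ≤ Pg F v ρ ((1 / 2 : ℝ) • ((ρ * (1 - r)) • q + v)) :=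
    mg_self (Pg_ge hb v ρ) fun _ hi => absurd hi (Nat.not_lt_zero _)
  have e : ρ⁻¹ • ((2 : ℝ) • ((1 / 2 : ℝ) • ((ρ * (1 - r)) • q + v)) - v) =
      (1 - r) • q := by
    funext i
    simp only [Pi.add_apply, Pi.sub_apply, Pi.smul_apply, smul_eq_mul]
    field_simp
    ring
  rw [Pg, e, hF] at hm
  linarith

end Pool.Agent.Lib.MP_8cf263_co
end

section

/-!
# Round patches, file RtMain: bodies with a small round patch
-/

set_option autoImplicit false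

namespace Pool.Agent.Lib.MP_8cf263_co

open Finset

/-- the unit ball itself -/
theorem Pat.self {m : ℕ} {N : (Fin (m + 2) → ℝ) → ℝ} (hN : Nrm N) (η : ℝ) :
    Pat N {y | N y ≤ 1} 0 1 η := by
  refine ⟨?_, fun x hx => by simpa using hx, fun g _ x hx => ⟨x, by simpa using hx, le_rfl⟩⟩
  intro x hx y hy a b ha hb hab
  have hx' : N x ≤ 1 := hx
  have hy' : N y ≤ 1 := hy
  show N (a • x + b • y) ≤ 1
  refine (hN.tri _ _).trans ?_
  rw [hN.sm, hN.sm, abs_of_nonneg ha, abs_of_nonneg hb]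
  nlinarith

theorem patch_core (m kap k : ℕ) {N : (Fin (m + 2) → ℝ) → ℝ} {q : Fin (m + 2) → ℝ}
    {ρ₀ μ M η C₁ : ℝ} (hS : Spot N q ρ₀ μ M) (hη : 0 < η) (hk : 1 ≤ k) :
    ∃ ρm : ℝ, ∀ (C : Set (Fin (m + 2) → ℝ)) (p : Fin (m + 2) → ℝ) (ρ : ℝ) (R r : ℕ)
      (c : Fin (m + 2) → ℤ) (K L : Finset (Fin (m + 2) → ℤ)), ρm ≤ ρ → ρm ≤ r → Pat N C p ρ η →
      (∀ x, x ∈ K ↔ em (vs c x) ∈ C) → (∀ x ∈ K, ∀ i, |vs c x i| ≤ R) →
      (∀ x : Fin (m + 2) → ℤ, (∀ i, |vs c x i| ≤ r) → x ∈ K) → r ≤ R → R ≤ kap * r →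
      (R : ℝ) ≤ C₁ * ρ ^ k → Tw K L c → K = L := by
  obtain ⟨F, b, δ, η', hF, hb, hδ, hη', hcap⟩ := hS.patcap hη
  have hN := hS.nrm
  have hμ := hS.hμ
  have hM := hS.hM
  obtain ⟨c₀, hc₀, hdep⟩ := (hcap _ (Pat.self hN η)).depth hb
  obtain ⟨τ₀, hmain⟩ := cap_thm m kap k (μ := 4 * μ) (M := 4 * M) (by linarith) (by linarith) hη'
  refine ⟨1 + |τ₀| + (1 + |C₁|) / c₀ + 4 / δ, ?_⟩
  intro C p ρ R r c K L hρ hr hpat hK hout hcor hrR hRr hRρ hTw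
  have h1 : 0 ≤ |τ₀| := abs_nonneg _
  have h2 : 0 ≤ |C₁| := abs_nonneg _
  have h3 : 0 < (1 + |C₁|) / c₀ := by positivity
  have h4 : 0 < 4 / δ := by positivity
  have hρ1 : 1 ≤ ρ := by linarith
  have hρ0 : 0 < ρ := by linarith
  have hρτ : |τ₀| ≤ ρ := by linarith
  have hρc : 1 + |C₁| ≤ c₀ * ρ := by
    have : (1 + |C₁|) / c₀ ≤ ρ := by linarith
    rw [div_le_iff₀ hc₀] at this
    linarith
  have hρδ : 4 ≤ ρ * δ := by
    have : 4 / δ ≤ ρ := by linarith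
    rwa [div_le_iff₀ hδ] at this
  have hT := hdep (em c + p) ρ hρ0
  have hτ1 : ρ ≤ c₀ * ρ ^ 2 := by
    have : 1 * ρ ≤ (c₀ * ρ) * ρ := mul_le_mul_of_nonneg_right (by linarith) hρ0.le
    calc ρ = 1 * ρ := (one_mul _).symm
      _ ≤ (c₀ * ρ) * ρ := this
      _ = c₀ * ρ ^ 2 := by ring
  refine hmain K L c R r (Pg F (em c + p) ρ) (ρ ^ 2) (ρ ^ 2 * b) hTw hout hcor hrR hRr
    (Pg_SDn hF _ hρ0) (Pg_ge hb _ _) ((hcap _ (hpat.scale hN hρ0)).capp hρ0 hK hρδ) ?_ ?_ ?_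
  · exact (le_abs_self _).trans (hρτ.trans (hτ1.trans hT))
  · exact (le_abs_self _).trans (le_trans (by linarith) hr)
  · refine hRρ.trans ?_
    have h5 : (c₀ * ρ ^ 2) ^ k ≤ (ρ ^ 2 - mg (Pg F (em c + p) ρ) 0 0) ^ k :=
      pow_le_pow_left₀ (by positivity) hT k
    refine le_trans ?_ h5
    have h6 : (c₀ * ρ ^ 2) ^ k = (c₀ * ρ) ^ k * ρ ^ k := by
      rw [← mul_pow]
      congr 1
      ring
    rw [h6]
    refine mul_le_mul_of_nonneg_right ?_ (by positivity)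
    calc C₁ ≤ |C₁| := le_abs_self _
      _ ≤ c₀ * ρ := by linarith
      _ = (c₀ * ρ) ^ 1 := (pow_one _).symm
      _ ≤ (c₀ * ρ) ^ k := pow_le_pow_right₀ (by linarith) hk

theorem rm_sup {n : ℕ} (A : Matrix (Fin n) (Fin n) ℤ) :
    ∃ a : ℝ, 1 ≤ a ∧ ∀ (v : Fin n → ℝ) (s : ℝ), (∀ i, |v i| ≤ s) → ∀ i, |rm A v i| ≤ a * s := by
  refine ⟨1 + ∑ i, ∑ j, |(A i j : ℝ)|, ?_, ?_⟩
  · have : 0 ≤ ∑ i, ∑ j, |(A i j : ℝ)| :=
      Finset.sum_nonneg fun i _ => Finset.sum_nonneg fun j _ => abs_nonneg _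
    linarith
  · intro v s hv i
    have hs : 0 ≤ s := (abs_nonneg _).trans (hv i)
    have h1 : |rm A v i| ≤ (∑ j, |(A i j : ℝ)|) * s := by
      have e : rm A v i = ∑ j, (A i j : ℝ) * v j := by
        simp [rm, Matrix.mulVec, dotProduct]
      rw [e, Finset.sum_mul]
      refine (Finset.abs_sum_le_sum_abs _ _).trans (Finset.sum_le_sum fun j _ => ?_)
      rw [abs_mul]
      exact mul_le_mul_of_nonneg_left (hv j) (abs_nonneg _)
    have h2 : ∑ j, |(A i j : ℝ)| ≤ ∑ i, ∑ j, |(A i j : ℝ)| :=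
      Finset.single_le_sum (f := fun i => ∑ j, |(A i j : ℝ)|)
        (fun i _ => Finset.sum_nonneg fun j _ => abs_nonneg _) (Finset.mem_univ i)
    have h3 := mul_le_mul_of_nonneg_right h2 hs
    rw [add_mul, one_mul]
    linarith

theorem patch_thm (m k : ℕ) (hk : 1 ≤ k) {N : (Fin (m + 2) → ℝ) → ℝ} (hN : Nrm N)
    {q₁ ν : Fin (m + 2) → ℝ} {r₀ μ M κ κ₀ : ℝ} (hr₀ : 0 < r₀) (hμ : 0 < μ) (h1 : N q₁ = 1)
    (hp : Pin (fun x => N x ^ 2) q₁ (4 * r₀) μ M) (hν1 : ν ⬝ᵥ q₁ = 1) (hν : ∀ x, ν ⬝ᵥ x ≤ N x)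
    (hκ : 0 < κ) (hκ₀ : 0 < κ₀) :
    ∃ R₀ : ℝ, ∀ (R : ℝ) (C : Set (Fin (m + 2) → ℝ)) (p : Fin (m + 2) → ℝ) (ρ : ℝ), R₀ ≤ R →
      0 < ρ → R ≤ ρ ^ k → Convex ℝ C → (∀ x ∈ C, ∀ i, |x i| ≤ R) →
      (∀ x, (∀ i, |x i| ≤ R / κ₀) → x ∈ C) → (∀ x, N (x - p) ≤ ρ → x ∈ C) →
      (∀ g : Fin (m + 2) → ℝ, (g - ν) ⬝ᵥ (g - ν) ≤ κ ^ 2 → ∀ x ∈ C,
        ∃ y, N (y - p) ≤ ρ ∧ g ⬝ᵥ x ≤ g ⬝ᵥ y) →
      ∀ (c : Fin (m + 2) → ℤ) (K L : Finset (Fin (m + 2) → ℤ)), Tw K L c →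
        (∀ x, x ∈ K ↔ em (vs c x) ∈ C) → K = L := by
  have hm2 : (0 : ℝ) < (m : ℝ) + 2 := by positivity
  obtain ⟨ε, hε⟩ : ∃ ε : ℝ, ε = κ / (2 * ((m : ℝ) + 2)) := ⟨_, rfl⟩
  have hε0 : 0 < ε := by
    rw [hε]
    positivity
  obtain ⟨u, t, q₀, ht, hu, hut, h3, h4, h5⟩ := dir2 hN hr₀ hμ h1 hp hν1 hν hε0
  obtain ⟨A, B, hAB, hBA, hA⟩ := unimod u hu
  have hball : ∀ x, Bl q₀ r₀ x → Bl q₁ (4 * r₀) x := by
    intro x hx
    unfold Bl at hx h5 ⊢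
    have e1 : x - q₁ = (x - q₀) + (q₀ - q₁) := by abel
    have h6 : 0 ≤ ((x - q₀) - (q₀ - q₁)) ⬝ᵥ ((x - q₀) - (q₀ - q₁)) :=
      Finset.sum_nonneg fun i _ => mul_self_nonneg _
    rw [e1]
    simp only [add_dotProduct, dotProduct_add, sub_dotProduct, dotProduct_sub] at h6 hx h5 ⊢
    nlinarith
  obtain ⟨ρ', μ', M', hS⟩ := spot_lin (M := M) hN hAB hBA hA hr₀ hμ h3 h4
    ⟨fun x y hx hxy hxy' => hp.lo x y (hball _ hx) (hball _ hxy) (hball _ hxy'),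
      fun x y hx hxy hxy' => hp.up x y (hball _ hx) (hball _ hxy) (hball _ hxy')⟩
  have hclose : (t⁻¹ • em u - ν) ⬝ᵥ (t⁻¹ • em u - ν) ≤ (κ / 2) ^ 2 := by
    have h6 : ∀ i, (t⁻¹ • em u - ν) i * (t⁻¹ • em u - ν) i ≤ ε ^ 2 := by
      intro i
      have e1 : (t⁻¹ • em u - ν) i = t⁻¹ * ((u i : ℝ) - t * ν i) := by
        simp only [Pi.sub_apply, Pi.smul_apply, smul_eq_mul, em]
        field_simp
      have e2 : |(t⁻¹ • em u - ν) i| ≤ ε := by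
        rw [e1, abs_mul, abs_of_pos (inv_pos.2 ht)]
        calc t⁻¹ * |(u i : ℝ) - t * ν i| ≤ t⁻¹ * (ε * t) :=
              mul_le_mul_of_nonneg_left (hut i) (inv_pos.2 ht).le
          _ = ε := by field_simp
      have e3 := pow_le_pow_left₀ (abs_nonneg _) e2 2
      rw [sq_abs] at e3
      rw [← pow_two]
      exact e3
    have h7 : (t⁻¹ • em u - ν) ⬝ᵥ (t⁻¹ • em u - ν) ≤ ∑ _i : Fin (m + 2), ε ^ 2 :=
      Finset.sum_le_sum fun i _ => h6 i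
    rw [Finset.sum_const, Finset.card_univ, Fintype.card_fin, nsmul_eq_mul] at h7
    refine h7.trans ?_
    push_cast
    rw [hε, div_pow, mul_pow]
    have h8 : ((m : ℝ) + 2) * (κ ^ 2 / (2 ^ 2 * ((m : ℝ) + 2) ^ 2)) =
        (κ / 2) ^ 2 / ((m : ℝ) + 2) := by
      field_simp
    rw [h8]
    exact div_le_self (sq_nonneg _) (by
      have : (0 : ℝ) ≤ m := Nat.cast_nonneg _
      linarith)
  obtain ⟨η, hη, hpat⟩ := pat_lin (N := N) hAB hBA hA hκ ht hclose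
  obtain ⟨aA, haA, hsA⟩ := rm_sup A
  obtain ⟨aB, haB, hsB⟩ := rm_sup B
  obtain ⟨kap, hkap⟩ : ∃ kap : ℕ, kap = ⌈2 * κ₀ * aB * (aA + 1)⌉₊ := ⟨_, rfl⟩
  obtain ⟨ρm, hcore⟩ := patch_core m kap k (C₁ := aA + 1) hS hη hk
  refine ⟨2 * κ₀ * aB * (1 + |ρm|) + 1 + |ρm| ^ k, ?_⟩
  intro R C p ρ hR hρ0 hRρ hCc hCo hCi hCb hCp c K L hTw hK
  have hκaB : 0 < κ₀ * aB := by positivity
  have hρm := abs_nonneg ρm
  have hρk : 0 ≤ |ρm| ^ k := by positivity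
  have h2κ : 0 ≤ 2 * κ₀ * aB * (1 + |ρm|) := by positivity
  have hR1 : 1 ≤ R := by linarith
  have hR0 : 0 < R := by linarith
  have hR2 : 2 * κ₀ * aB * (1 + |ρm|) ≤ R := by linarith
  have hκR : R / κ₀ ≤ R := by
    have h6 := hCo (fun _ => R / κ₀) (hCi _ fun i => by rw [abs_of_pos (by positivity)]) 0
    rwa [abs_of_pos (by positivity)] at h6
  have hRd : 1 + |ρm| ≤ R / (κ₀ * aB) / 2 := by
    rw [le_div_iff₀ (by norm_num), le_div_iff₀ hκaB]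
    linarith
  have hf1 : (⌊R / (κ₀ * aB)⌋₊ : ℝ) ≤ R / (κ₀ * aB) := Nat.floor_le (by positivity)
  have hf2 : R / (κ₀ * aB) - 1 < (⌊R / (κ₀ * aB)⌋₊ : ℝ) := Nat.sub_one_lt_floor _
  have hf3 : R / (κ₀ * aB) / 2 ≤ (⌊R / (κ₀ * aB)⌋₊ : ℝ) := by linarith
  have hg1 : aA * R ≤ (⌈aA * R⌉₊ : ℝ) := Nat.le_ceil _
  have hg2 : (⌈aA * R⌉₊ : ℝ) < aA * R + 1 := Nat.ceil_lt_add_one (by positivity)
  have hg3 : (⌈aA * R⌉₊ : ℝ) ≤ (aA + 1) * R := by linarith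
  have hrR : ⌊R / (κ₀ * aB)⌋₊ ≤ ⌈aA * R⌉₊ := by
    have h6 : R / (κ₀ * aB) ≤ R / κ₀ := by
      refine div_le_div_of_nonneg_left hR0.le hκ₀ ?_
      exact le_mul_of_one_le_right hκ₀.le haB
    have h7 : R ≤ aA * R := le_mul_of_one_le_left hR0.le haA
    have h8 : (⌊R / (κ₀ * aB)⌋₊ : ℝ) ≤ (⌈aA * R⌉₊ : ℝ) := by linarith
    exact_mod_cast h8
  have hRr : ⌈aA * R⌉₊ ≤ kap * ⌊R / (κ₀ * aB)⌋₊ := by
    have h6 : 2 * κ₀ * aB * (aA + 1) ≤ (kap : ℝ) := by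
      rw [hkap]
      exact Nat.le_ceil _
    have h7 : (⌈aA * R⌉₊ : ℝ) ≤ kap * (⌊R / (κ₀ * aB)⌋₊ : ℝ) := by
      calc (⌈aA * R⌉₊ : ℝ) ≤ (aA + 1) * R := hg3
        _ = (2 * κ₀ * aB * (aA + 1)) * (R / (κ₀ * aB) / 2) := by
            field_simp
        _ ≤ kap * (R / (κ₀ * aB) / 2) := mul_le_mul_of_nonneg_right h6 (by positivity)
        _ ≤ kap * (⌊R / (κ₀ * aB)⌋₊ : ℝ) := mul_le_mul_of_nonneg_left hf3 (Nat.cast_nonneg _)
    exact_mod_cast h7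
  have hinj : Function.Injective (fun x : Fin (m + 2) → ℤ => A.mulVec x) := by
    intro x y hxy
    have h1 := congrArg B.mulVec hxy
    simpa [Matrix.mulVec_mulVec, hBA] using h1
  have hK' : ∀ y, y ∈ K.image (fun x => A.mulVec x) ↔
      em (vs (A.mulVec c) y) ∈ {y | rm B y ∈ C} := by
    intro y
    rw [mem_image, Set.mem_setOf_eq, rm_em, ← vs_map hBA, ← hK]
    constructor
    · rintro ⟨x, hx, rfl⟩
      rw [Matrix.mulVec_mulVec, hBA, Matrix.one_mulVec]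
      exact hx
    · intro hy
      refine ⟨B.mulVec y, hy, ?_⟩
      rw [Matrix.mulVec_mulVec, hAB, Matrix.one_mulVec]
  refine image_injective hinj (hcore {y | rm B y ∈ C} (rm A p) ρ ⌈aA * R⌉₊ ⌊R / (κ₀ * aB)⌋₊
    (A.mulVec c) _ _ ?_ ?_ (hpat C p ρ hCc hCb hCp) hK' ?_ ?_ hrR hRr ?_ (hTw.map hAB hBA))
  · refine (le_abs_self _).trans ?_
    by_contra hcon
    push Not at hcon
    have h6 : ρ ^ k ≤ |ρm| ^ k := pow_le_pow_left₀ hρ0.le hcon.le k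
    linarith
  · refine (le_abs_self _).trans ?_
    linarith
  · intro y hy i
    have h6 := (hK' y).1 hy
    have h7 := hsA (rm B (em (vs (A.mulVec c) y))) R (fun i => hCo _ h6 i) i
    rw [rm_rm hAB] at h7
    have h8 : ((|vs (A.mulVec c) y i| : ℤ) : ℝ) = |em (vs (A.mulVec c) y) i| := by
      simp [em]
    have h9 : ((|vs (A.mulVec c) y i| : ℤ) : ℝ) ≤ ((⌈aA * R⌉₊ : ℕ) : ℝ) := by
      rw [h8]
      linarith
    exact_mod_cast h9
  · intro y hy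
    rw [hK', Set.mem_setOf_eq]
    refine hCi _ fun i => ?_
    have h7 := hsB (em (vs (A.mulVec c) y)) (⌊R / (κ₀ * aB)⌋₊ : ℝ) (fun i => by
      have h8 : ((|vs (A.mulVec c) y i| : ℤ) : ℝ) = |em (vs (A.mulVec c) y) i| := by
        simp [em]
      rw [← h8]
      have := hy i
      exact_mod_cast this) i
    refine h7.trans ?_
    calc aB * (⌊R / (κ₀ * aB)⌋₊ : ℝ) ≤ aB * (R / (κ₀ * aB)) :=
          mul_le_mul_of_nonneg_left hf1 (by linarith)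
      _ = R / κ₀ := by field_simp
  · exact hg3.trans (mul_le_mul_of_nonneg_left hRρ (by linarith))

end Pool.Agent.Lib.MP_8cf263_co
end

section

/-!
# Discrete Aleksandrov projection problem: bodies with one small round patch
-/

set_option autoImplicit false

namespace Pool.Agent.Lib.MP_8cf263_co

open Finset

theorem lc_of_convex {n : ℕ} {C : Set (Fin n → ℝ)} (hC : Convex ℝ C) (hs : ∀ x ∈ C, -x ∈ C)
    {K : Finset (Fin n → ℤ)} {c : Fin n → ℤ} (hK : ∀ x, x ∈ K ↔ em (vs c x) ∈ C) :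
    LC K ∧ ∀ x, x ∈ K ↔ c - x ∈ K := by
  have e1 : ∀ x : Fin n → ℤ, em (vs c x) = (2 : ℝ) • em x - em c := by
    intro x
    funext i
    simp [em, vs]
  constructor
  · intro x hx
    rw [hK, e1]
    have hconv : Convex ℝ {z : Fin n → ℝ | (2 : ℝ) • z - em c ∈ C} := by
      intro u hu v hv s t hs ht hst
      simp only [Set.mem_ofPred_eq] at hu hv ⊢
      have e2 : (2 : ℝ) • (s • u + t • v) - em c
          = s • ((2 : ℝ) • u - em c) + t • ((2 : ℝ) • v - em c) := by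
        have e3 : em c = s • em c + t • em c := by rw [← add_smul, hst, one_smul]
        conv_lhs => rw [e3]
        module
      rw [e2]
      exact hC hu hv hs ht hst
    have hsub : convexHull ℝ (em '' (K : Set (Fin n → ℤ))) ⊆
        {z : Fin n → ℝ | (2 : ℝ) • z - em c ∈ C} := by
      refine convexHull_min ?_ hconv
      rintro _ ⟨z, hz, rfl⟩
      simp only [Set.mem_ofPred_eq]
      rw [← e1]
      exact (hK z).1 (by exact_mod_cast hz)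
    exact hsub hx
  · intro x
    rw [hK, hK]
    have e2 : em (vs c (c - x)) = - em (vs c x) := by
      funext i
      simp only [em, vs, Pi.sub_apply, Pi.neg_apply]
      push_cast
      ring
    rw [e2]
    refine ⟨fun h => hs _ h, fun h => ?_⟩
    have := hs _ h
    rwa [neg_neg] at this

private theorem ball_in {n : ℕ} {U : Set (Fin n → ℝ)} (hU : IsOpen U) {q : Fin n → ℝ}
    (hq : q ∈ U) : ∃ r₀ : ℝ, 0 < r₀ ∧ ∀ x, Bl q (4 * r₀) x → x ∈ U := by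
  obtain ⟨δ, hδ, hb⟩ := Metric.isOpen_iff.1 hU q hq
  refine ⟨δ / 8, by positivity, fun x hx => hb ?_⟩
  rw [Metric.mem_ball, dist_pi_lt_iff hδ]
  intro i
  have h1 : (x i - q i) * (x i - q i) ≤ (x - q) ⬝ᵥ (x - q) :=
    Finset.single_le_sum (f := fun j => (x - q) j * (x - q) j)
      (fun j _ => mul_self_nonneg _) (Finset.mem_univ i)
  have h2 : (x i - q i) * (x i - q i) ≤ (4 * (δ / 8)) ^ 2 := h1.trans hx
  rw [Real.dist_eq]
  have h3 : |x i - q i| ≤ 4 * (δ / 8) := by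
    apply abs_le_of_sq_le_sq _ (by positivity)
    calc (x i - q i) ^ 2 = (x i - q i) * (x i - q i) := by ring
      _ ≤ _ := h2
  linarith

theorem round_patch_thm {n : ℕ} (hn : 2 ≤ n) (k : ℕ) (N : (Fin n → ℝ) → ℝ)
    (h0 : ∀ x, N x = 0 → x = 0) (hsm : ∀ (t : ℝ) (x : Fin n → ℝ), N (t • x) = |t| * N x)
    (htri : ∀ x y, N (x + y) ≤ N x + N y)
    (U : Set (Fin n → ℝ)) (hU : IsOpen U) (μ M : ℝ) (hμ : 0 < μ)
    (hp : ∀ x y, x ∈ U → x + y ∈ U → x - y ∈ U →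
      2 * μ * ∑ i, y i ^ 2 ≤ N (x + y) ^ 2 + N (x - y) ^ 2 - 2 * N x ^ 2 ∧
      N (x + y) ^ 2 + N (x - y) ^ 2 - 2 * N x ^ 2 ≤ 2 * M * ∑ i, y i ^ 2)
    (q ν : Fin n → ℝ) (hq : q ∈ U) (hq1 : N q = 1) (hνq : ∑ i, ν i * q i = 1)
    (hν : ∀ x : Fin n → ℝ, ∑ i, ν i * x i ≤ N x) (κ κ₀ : ℝ) (hκ : 0 < κ) (hκ₀ : 0 < κ₀) :
    ∃ R₀ : ℝ, ∀ (R ρ : ℝ) (C : Set (Fin n → ℝ)) (p : Fin n → ℝ), R₀ ≤ R → 0 < ρ → R ≤ ρ ^ k →
      Convex ℝ C → (∀ x ∈ C, -x ∈ C) → (∀ x ∈ C, ∀ i, |x i| ≤ R) →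
      (∀ x : Fin n → ℝ, (∀ i, |x i| ≤ R / κ₀) → x ∈ C) → (∀ x, N (x - p) ≤ ρ → x ∈ C) →
      (∀ g : Fin n → ℝ, ∑ i, (g i - ν i) ^ 2 ≤ κ ^ 2 → ∀ x ∈ C, ∃ y, N (y - p) ≤ ρ ∧
        ∑ i, g i * x i ≤ ∑ i, g i * y i) →
      ∀ (c : Fin n → ℤ) (K L : Finset (Fin n → ℤ)), (∀ x, x ∈ K ↔ em (vs c x) ∈ C) → LC L →
      (∃ c', ∀ x, x ∈ L ↔ c' - x ∈ L) →
      (∀ u : Fin n → ℤ, u ≠ 0 → (K.image (pj u)).card = (L.image (pj u)).card) →
      ∃ v : Fin n → ℤ, L = K.image (fun x => x + v) := by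
  obtain ⟨m, rfl⟩ : ∃ m, n = m + 2 := ⟨n - 2, by omega⟩
  rcases Nat.eq_zero_or_pos k with hk | hk
  · subst hk
    refine ⟨2, fun R ρ C p hR _ hRk => ?_⟩
    rw [pow_zero] at hRk
    linarith
  have hN0 : N 0 = 0 := by
    have := hsm 0 0
    simpa using this
  have hN : Nrm N := by
    refine ⟨fun x => ?_, h0, hsm, htri⟩
    have h1 := htri x ((-1 : ℝ) • x)
    rw [hsm (-1) x, abs_neg, abs_one, one_mul, neg_smul, one_smul, add_neg_cancel, hN0] at h1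
    linarith
  have hdot : ∀ y : Fin (m + 2) → ℝ, ∑ i, y i ^ 2 = y ⬝ᵥ y := by
    intro y
    unfold dotProduct
    refine Finset.sum_congr rfl fun i _ => ?_
    ring
  obtain ⟨r₀, hr₀, hball⟩ := ball_in hU hq
  have hPin : Pin (fun x => N x ^ 2) q (4 * r₀) μ M := by
    refine ⟨fun x y hx h1 h2 => ?_, fun x y hx h1 h2 => ?_⟩
    · have := (hp x y (hball _ hx) (hball _ h1) (hball _ h2)).1
      rwa [hdot] at this
    · have := (hp x y (hball _ hx) (hball _ h1) (hball _ h2)).2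
      rwa [hdot] at this
  obtain ⟨R₀, h⟩ := patch_thm m k hk hN hr₀ hμ hq1 hPin hνq hν hκ hκ₀
  refine ⟨R₀, fun R ρ C p hR hρ hRk hC hs hout hin hpat hsup c K L hK hL hLc hproj => ?_⟩
  obtain ⟨c', hLc⟩ := hLc
  obtain ⟨hKlc, hKc⟩ := lc_of_convex hC hs hK
  refine reduce (by omega) hKlc hL hKc hLc hproj fun L' hTw => ?_
  refine (h R C p ρ hR hρ hRk hC hout hin hpat ?_ c K L' hTw hK).symm
  intro g hg x hx
  refine hsup g ?_ x hx
  have h1 := hdot (g - ν)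
  simp only [Pi.sub_apply] at h1
  rw [h1]
  exact hg

end Pool.Agent.Lib.MP_8cf263_co
end

section

/-!
# Discrete Aleksandrov projection problem: large dilates of polytopes with rational or Diophantine
facet normals
-/

set_option autoImplicit false

namespace Pool.Agent.Lib.MP_8cf263_co

open Finset

private theorem le_mul_of_inv {x S D : ℝ} (hx : 0 < x) (h1 : 1 / x ≤ S) (h2 : S ≤ D) :
    1 ≤ D * x := by
  rw [div_le_iff₀ hx] at h1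
  nlinarith

/-- the two-sided normalised form -/
private theorem dio_core {n : ℕ} (hn : 2 ≤ n) {m : ℕ} (h : Fin m → Fin n → ℝ) (b : Fin m → ℝ)
    (hb : ∀ j, 0 < b j)
    (hfac : ∀ j, ∃ g : Fin n → ℝ, h j ⬝ᵥ g = b j ∧ ∀ l, l ≠ j → |h l ⬝ᵥ g| < b l)
    {ρ : ℝ} (hbd : ∀ y : Fin n → ℝ, (∀ j, |h j ⬝ᵥ y| ≤ b j) → ∀ i, |y i| ≤ ρ)
    (hnorm : ∀ j, (∃ k : Fin n → ℤ, h j = em k) ∨ ∃ (c₀ : ℝ) (A : ℕ), 0 < c₀ ∧
      ∀ z : Fin n → ℤ, z ≠ 0 → c₀ ≤ |h j ⬝ᵥ em z| * (∑ i, |((z i : ℤ) : ℝ)|) ^ A) :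
    ∃ lam₀ : ℝ, ∀ lam : ℝ, lam₀ ≤ lam → ∀ (c : Fin n → ℤ) (K L : Finset (Fin n → ℤ)), Tw K L c →
      (∀ x, x ∈ K ↔ ∀ j, |h j ⬝ᵥ em (vs c x)| ≤ lam * b j) → K = L := by
  classical
  choose g hg1 hg2 using hfac
  have hd : ∀ j, ∃ (c₀ : ℝ) (A : ℕ), 0 < c₀ ∧ ((∃ k : Fin n → ℤ, h j = em k) ∨
      ∀ z : Fin n → ℤ, z ≠ 0 → c₀ ≤ |h j ⬝ᵥ em z| * (∑ i, |((z i : ℤ) : ℝ)|) ^ A) := by
    intro j
    rcases hnorm j with hk | ⟨c₀, A, h0, h1⟩
    · exact ⟨1, 0, one_pos, Or.inl hk⟩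
    · exact ⟨c₀, A, h0, Or.inr h1⟩
  choose c₀ A hc₀ hd using hd
  -- constants
  set D1 := ∑ j, ∑ i, |h j i| with hD1
  set D2 := ∑ j, 1 / b j with hD2
  set D3 := ∑ j, b j with hD3
  set D4 := ∑ j, ∑ l, |1 / (b l - |h l ⬝ᵥ g j|)| with hD4
  set AA := ∑ j, A j with hAA
  set D5 := ∑ j, (n : ℝ) ^ AA / c₀ j with hD5
  have p1 : 0 ≤ D1 := Finset.sum_nonneg fun j _ => Finset.sum_nonneg fun i _ => abs_nonneg _
  have p2 : 0 ≤ D2 := Finset.sum_nonneg fun j _ => (one_div_pos.2 (hb j)).le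
  have p3 : 0 ≤ D3 := Finset.sum_nonneg fun j _ => (hb j).le
  have p4 : 0 ≤ D4 := Finset.sum_nonneg fun j _ => Finset.sum_nonneg fun l _ => abs_nonneg _
  have p5 : 0 ≤ D5 := Finset.sum_nonneg fun j _ => div_nonneg (by positivity) (hc₀ j).le
  set D := 1 + D1 + D2 + D3 + D4 + D5 + |ρ| with hD
  have pr := abs_nonneg ρ
  have q1 : ∀ j, ∑ i, |h j i| ≤ D1 := fun j =>
    Finset.single_le_sum (f := fun j => ∑ i, |h j i|)
      (fun j _ => Finset.sum_nonneg fun i _ => abs_nonneg _) (mem_univ j)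
  have q2 : ∀ j, 1 / b j ≤ D2 := fun j =>
    Finset.single_le_sum (f := fun j => 1 / b j) (fun j _ => (one_div_pos.2 (hb j)).le)
      (mem_univ j)
  have q3 : ∀ j, b j ≤ D3 := fun j =>
    Finset.single_le_sum (f := fun j => b j) (fun j _ => (hb j).le) (mem_univ j)
  have q4 : ∀ j l, |1 / (b l - |h l ⬝ᵥ g j|)| ≤ D4 := fun j l =>
    (Finset.single_le_sum (f := fun l => |1 / (b l - |h l ⬝ᵥ g j|)|) (fun l _ => abs_nonneg _)
      (mem_univ l)).trans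
    (Finset.single_le_sum (f := fun j => ∑ l, |1 / (b l - |h l ⬝ᵥ g j|)|)
      (fun j _ => Finset.sum_nonneg fun l _ => abs_nonneg _) (mem_univ j))
  have q5 : ∀ j, (n : ℝ) ^ AA / c₀ j ≤ D5 := fun j =>
    Finset.single_le_sum (f := fun j => (n : ℝ) ^ AA / c₀ j)
      (fun j _ => div_nonneg (by positivity) (hc₀ j).le) (mem_univ j)
  have hDpos : 0 < D := by linarith
  -- signs
  set sg : Bool → ℝ := fun s => if s then 1 else -1 with hsg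
  have hsg2 : ∀ s, sg s = 1 ∨ sg s = -1 := by
    intro s
    cases s
    · right
      simp [hsg]
    · left
      simp [hsg]
  have hsgabs : ∀ s, |sg s| = 1 := by
    intro s
    rcases hsg2 s with h1 | h1 <;> rw [h1] <;> simp
  set H : Fin m × Bool → Fin n → ℝ := fun p => sg p.2 • h p.1 with hH
  set bb : Fin m × Bool → ℝ := fun p => b p.1 with hbb
  have hHd : ∀ p y, H p ⬝ᵥ y = sg p.2 * (h p.1 ⬝ᵥ y) := by
    intro p y
    rw [hH]
    simp only [smul_dotProduct, smul_eq_mul]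
  have habs : ∀ (y : Fin n → ℝ) (t : ℝ), (∀ p, H p ⬝ᵥ y ≤ t * bb p) ↔
      ∀ j, |h j ⬝ᵥ y| ≤ t * b j := by
    intro y t
    constructor
    · intro h1 j
      rw [abs_le]
      have h2 := h1 (j, true)
      have h3 := h1 (j, false)
      rw [hHd] at h2 h3
      simp only [hsg, hbb, if_true] at h2 h3
      simp at h3
      constructor <;> linarith
    · rintro h1 ⟨j, s⟩
      rw [hHd]
      have h2 := h1 j
      rw [abs_le] at h2
      simp only [hbb]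
      rcases hsg2 s with h3 | h3 <;> rw [h3] <;> linarith
  have habs1 : ∀ (y : Fin n → ℝ), (∀ p, H p ⬝ᵥ y ≤ bb p) ↔ ∀ j, |h j ⬝ᵥ y| ≤ b j := by
    intro y
    have := habs y 1
    simpa using this
  have hpol : Pol H bb D := by
    refine ⟨by linarith, ?_, ?_, ?_, ?_, ?_⟩
    · rintro ⟨j, s⟩
      have h1 : ∑ i, |H (j, s) i| = ∑ i, |h j i| := by
        refine Finset.sum_congr rfl fun i _ => ?_
        rw [hH]
        simp only [Pi.smul_apply, smul_eq_mul]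
        rw [abs_mul, hsgabs, one_mul]
      rw [h1]
      have := q1 j
      linarith
    · rintro ⟨j, s⟩
      exact le_mul_of_inv (hb j) (q2 j) (by linarith)
    · rintro ⟨j, s⟩
      have := q3 j
      show b j ≤ D
      linarith
    · intro y hy i
      have h1 := hbd y ((habs1 y).1 hy) i
      have h2 := le_abs_self ρ
      linarith
    · rintro ⟨j, s⟩
      refine ⟨sg s • g j, ?_, ?_⟩
      · rw [hHd, dotProduct_smul, smul_eq_mul, hg1]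
        rcases hsg2 s with h3 | h3 <;> simp only [h3, hbb] <;> ring
      · rintro ⟨l, s'⟩ hne
        rw [hHd, dotProduct_smul, smul_eq_mul]
        simp only [hbb]
        by_cases hl : l = j
        · subst hl
          have hss : s' ≠ s := by
            intro hs
            exact hne (by rw [hs])
          have hprod : sg s' * sg s = -1 := by
            cases s <;> cases s' <;> simp [hsg] at hss ⊢
          have h1 : sg s' * (sg s * (h l ⬝ᵥ g l)) = -b l := by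
            rw [hg1, ← mul_assoc, hprod]
            ring
          rw [h1]
          have h2 : 1 ≤ D * b l := le_mul_of_inv (hb l) (q2 l) (by linarith)
          have h3 : 1 / D ≤ b l := by
            rw [div_le_iff₀ hDpos]
            linarith
          have := hb l
          linarith
        · have h1 := hg2 j l hl
          have h2 : 0 < b l - |h l ⬝ᵥ g j| := by linarith
          have h3 := q4 j l
          rw [abs_of_pos (one_div_pos.2 h2)] at h3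
          have h4 : 1 ≤ D * (b l - |h l ⬝ᵥ g j|) := le_mul_of_inv h2 h3 (by linarith)
          have h5 : 1 / D ≤ b l - |h l ⬝ᵥ g j| := by
            rw [div_le_iff₀ hDpos]
            linarith
          have h6 : sg s' * (sg s * (h l ⬝ᵥ g j)) ≤ |h l ⬝ᵥ g j| := by
            refine (le_abs_self _).trans ?_
            rw [abs_mul, abs_mul, hsgabs, hsgabs, one_mul, one_mul]
          linarith
  have hfac' : ∀ p : Fin m × Bool, (∃ k : Fin n → ℤ, k ≠ 0 ∧ H p = em k) ∨ Dio (H p) D AA := by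
    rintro ⟨j, s⟩
    rcases hd j with ⟨k, hk⟩ | hk
    · left
      have hk0 : k ≠ 0 := by
        rintro rfl
        have h1 := hg1 j
        have h2 := hb j
        rw [hk] at h1
        have h3 : em (0 : Fin n → ℤ) = 0 := by
          funext i
          simp [em]
        rw [h3, zero_dotProduct] at h1
        linarith
      cases s
      · refine ⟨-k, neg_ne_zero.2 hk0, ?_⟩
        rw [em_neg, ← hk, hH]
        simp [hsg]
      · refine ⟨k, hk0, ?_⟩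
        rw [← hk, hH]
        simp [hsg]
    · right
      intro z hz Q hQ
      have h1 : |H (j, s) ⬝ᵥ em z| = |h j ⬝ᵥ em z| := by
        rw [hHd, abs_mul, hsgabs, one_mul]
      rw [h1]
      have h2 := hk z hz
      set Zs := ∑ i, |((z i : ℤ) : ℝ)| with hZs
      have hZ1 : 1 ≤ Zs := by
        obtain ⟨i, hi⟩ := Function.ne_iff.1 hz
        have h3 : (1 : ℝ) ≤ |((z i : ℤ) : ℝ)| := by
          rw [← Int.cast_abs]
          exact_mod_cast Int.one_le_abs hi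
        exact h3.trans (Finset.single_le_sum (f := fun i => |((z i : ℤ) : ℝ)|)
          (fun i _ => abs_nonneg _) (mem_univ i))
      have hZQ : Zs ≤ n * Q := by
        calc Zs ≤ ∑ _i : Fin n, (Q : ℝ) := by
              refine Finset.sum_le_sum fun i _ => ?_
              rw [← Int.cast_abs]
              exact_mod_cast hQ i
          _ = n * Q := by simp
      have h3 : Zs ^ A j ≤ (n : ℝ) ^ AA * (Q : ℝ) ^ AA := by
        have h4 : A j ≤ AA := Finset.single_le_sum (f := fun j => A j) (fun _ _ => Nat.zero_le _)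
          (mem_univ j)
        calc Zs ^ A j ≤ Zs ^ AA := pow_le_pow_right₀ hZ1 h4
          _ ≤ (n * Q) ^ AA := pow_le_pow_left₀ (by linarith) hZQ _
          _ = _ := mul_pow _ _ _
      have h5 : c₀ j ≤ |h j ⬝ᵥ em z| * ((n : ℝ) ^ AA * (Q : ℝ) ^ AA) :=
        h2.trans (mul_le_mul_of_nonneg_left h3 (abs_nonneg _))
      have h6 : 1 ≤ (n : ℝ) ^ AA / c₀ j * (|h j ⬝ᵥ em z| * (Q : ℝ) ^ AA) := by
        rw [div_mul_eq_mul_div, le_div_iff₀ (hc₀ j), one_mul]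
        calc c₀ j ≤ _ := h5
          _ = _ := by ring
      have h7 : (n : ℝ) ^ AA / c₀ j ≤ D := (q5 j).trans (by linarith)
      have h8 : 0 ≤ |h j ⬝ᵥ em z| * (Q : ℝ) ^ AA := by positivity
      calc 1 ≤ _ := h6
        _ ≤ D * (|h j ⬝ᵥ em z| * (Q : ℝ) ^ AA) := mul_le_mul_of_nonneg_right h7 h8
        _ = _ := by ring
  obtain ⟨P, hP⟩ := poly_fin H bb (D := D) hpol.bdd
  obtain ⟨lam₀, hlam₀⟩ := poly_main hn hpol hP hfac'
  refine ⟨lam₀, fun lam hlam c K L hTw hK => hlam₀ lam hlam c K L hTw fun x => ?_⟩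
  rw [hK x]
  exact (habs _ lam).symm

theorem dio_polytopes {n : ℕ} (hn : 2 ≤ n) {m : ℕ} (h : Fin m → Fin n → ℝ) (b : Fin m → ℝ)
    (hb : ∀ j, 0 < b j)
    (hfac : ∀ j, ∃ g : Fin n → ℝ, h j ⬝ᵥ g = b j ∧ ∀ l, l ≠ j → |h l ⬝ᵥ g| < b l)
    {ρ : ℝ} (hbd : ∀ y : Fin n → ℝ, (∀ j, |h j ⬝ᵥ y| ≤ b j) → ∀ i, |y i| ≤ ρ)
    (hnorm : ∀ j, (∃ (t : ℝ) (k : Fin n → ℤ), h j = t • em k) ∨ ∃ (c₀ : ℝ) (A : ℕ), 0 < c₀ ∧
      ∀ z : Fin n → ℤ, z ≠ 0 → c₀ ≤ |h j ⬝ᵥ em z| * (∑ i, |((z i : ℤ) : ℝ)|) ^ A) :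
    ∃ lam₀ : ℝ, ∀ lam : ℝ, lam₀ ≤ lam → ∀ (c : Fin n → ℤ) (K L : Finset (Fin n → ℤ)),
      (∀ x, x ∈ K ↔ ∀ j, |h j ⬝ᵥ em (vs c x)| ≤ lam * b j) → LC L →
      (∃ c', ∀ x, x ∈ L ↔ c' - x ∈ L) →
      (∀ u : Fin n → ℤ, u ≠ 0 → (K.image (pj u)).card = (L.image (pj u)).card) →
      ∃ v : Fin n → ℤ, L = K.image (fun x => x + v) := by
  classical
  -- normalisation
  have hs : ∀ j, ∃ (s : ℝ) (φ : Fin n → ℝ), 0 < s ∧ h j = s • φ ∧
      ((∃ k : Fin n → ℤ, φ = em k) ∨ ∃ (c₀ : ℝ) (A : ℕ), 0 < c₀ ∧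
      ∀ z : Fin n → ℤ, z ≠ 0 → c₀ ≤ |φ ⬝ᵥ em z| * (∑ i, |((z i : ℤ) : ℝ)|) ^ A) := by
    intro j
    rcases hnorm j with ⟨t, k, hk⟩ | hk
    · rcases lt_trichotomy t 0 with ht | ht | ht
      · refine ⟨-t, em (-k), by linarith, ?_, Or.inl ⟨-k, rfl⟩⟩
        rw [em_neg, hk]
        simp
      · exfalso
        obtain ⟨g, hg, -⟩ := hfac j
        rw [hk, ht, zero_smul, zero_dotProduct] at hg
        have := hb j
        linarith
      · exact ⟨t, em k, ht, hk, Or.inl ⟨k, rfl⟩⟩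
    · exact ⟨1, h j, one_pos, (one_smul _ _).symm, Or.inr hk⟩
  choose s φ hs0 hsφ hφ using hs
  have hdot : ∀ j (y : Fin n → ℝ), h j ⬝ᵥ y = s j * (φ j ⬝ᵥ y) := by
    intro j y
    conv_lhs => rw [hsφ j]
    rw [smul_dotProduct, smul_eq_mul]
  have habs : ∀ j (y : Fin n → ℝ) (t : ℝ), |h j ⬝ᵥ y| ≤ t ↔ |φ j ⬝ᵥ y| ≤ t / s j := by
    intro j y t
    rw [hdot, abs_mul, abs_of_pos (hs0 j), le_div_iff₀ (hs0 j), mul_comm]
  have habs' : ∀ j (y : Fin n → ℝ) (t : ℝ), |h j ⬝ᵥ y| < t ↔ |φ j ⬝ᵥ y| < t / s j := by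
    intro j y t
    rw [hdot, abs_mul, abs_of_pos (hs0 j), lt_div_iff₀ (hs0 j), mul_comm]
  obtain ⟨lam₀, hlam₀⟩ := dio_core hn φ (fun j => b j / s j) (fun j => div_pos (hb j) (hs0 j))
    (fun j => by
      obtain ⟨g, hg1, hg2⟩ := hfac j
      refine ⟨g, ?_, fun l hl => (habs' l g (b l)).1 (hg2 l hl)⟩
      rw [hdot] at hg1
      rw [eq_div_iff (hs0 j).ne', mul_comm]
      exact hg1)
    (ρ := ρ) (fun y hy => hbd y fun j => (habs j y (b j)).2 (hy j)) hφ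
  refine ⟨lam₀, fun lam hlam c K L hK hL hLc hproj => ?_⟩
  obtain ⟨c', hLc⟩ := hLc
  have hK' : ∀ x, x ∈ K ↔ em (vs c x) ∈ {y : Fin n → ℝ | ∀ j, |h j ⬝ᵥ y| ≤ lam * b j} := hK
  obtain ⟨hKlc, hKc⟩ := lc_of_convex (C := {y : Fin n → ℝ | ∀ j, |h j ⬝ᵥ y| ≤ lam * b j})
    (by
      intro x hx y hy p q hp hq hpq j
      rw [dotProduct_add, dotProduct_smul, dotProduct_smul, smul_eq_mul, smul_eq_mul]
      refine (abs_add_le _ _).trans ?_
      rw [abs_mul, abs_mul, abs_of_nonneg hp, abs_of_nonneg hq]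
      have h1 := mul_le_mul_of_nonneg_left (hx j) hp
      have h2 := mul_le_mul_of_nonneg_left (hy j) hq
      have h3 : lam * b j = p * (lam * b j) + q * (lam * b j) := by
        rw [← add_mul, hpq, one_mul]
      linarith)
    (by
      intro x hx j
      rw [dotProduct_neg, abs_neg]
      exact hx j) hK'
  refine reduce hn hKlc hL hKc hLc hproj fun L' hTw => ?_
  refine (hlam₀ lam hlam c K L' hTw fun x => ?_).symm
  rw [hK x]
  refine forall_congr' fun j => ?_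
  rw [habs, mul_div_assoc]

end Pool.Agent.Lib.MP_8cf263_co
end
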