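import Pool.Agent.Lib.MP_8cf263_co.Face

/-!
# Discrete Aleksandrov projection problem: large faces, quantitative form
-/

set_option autoImplicit false

namespace Pool.Agent.Lib.MP_8cf263_co

open Finset

variable {n : ℕ}

/-- the constant -/
noncomputable def CL (n k : ℕ) : ℕ := 4 ^ (2 * n * k + 1) * Cg (2 * n * k) + (2 ^ n + 1) ^ k

theorem exists_J {n k R T : ℕ} (hn : n ≠ 0) (hk : k ≠ 0) (hR : 1 ≤ R) (h : CL n k * R ≤ T ^ k) :
    ∃ J : ℕ, 1 ≤ J ∧ (2 * J) ^ n < T ∧ ∀ m : ℕ, m ≠ 0 → m ≤ 4 * R ^ 2 → Good J m := by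
  classical
  have hex : ∃ j : ℕ, T ≤ (2 * (j + 1)) ^ n := by
    refine ⟨T, ?_⟩
    calc T ≤ 2 * (T + 1) := by omega
      _ = (2 * (T + 1)) ^ 1 := (pow_one _).symm
      _ ≤ (2 * (T + 1)) ^ n := Nat.pow_le_pow_right (by omega) (by omega)
  have hT : 2 ^ n < T := by
    by_contra hcon
    push Not at hcon
    have h1 : T ^ k ≤ (2 ^ n) ^ k := Nat.pow_le_pow_left hcon k
    have h2 : (2 ^ n) ^ k < (2 ^ n + 1) ^ k := Nat.pow_lt_pow_left (by omega) hk
    have h3 : CL n k ≤ CL n k * R := Nat.le_mul_of_pos_right _ hR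
    have h4 : (2 ^ n + 1) ^ k ≤ CL n k := Nat.le_add_left _ _
    omega
  set J := Nat.find hex with hJ
  have hJs : T ≤ (2 * (J + 1)) ^ n := Nat.find_spec hex
  have hJ1 : 1 ≤ J := by
    by_contra hcon
    have h0 : J = 0 := by omega
    rw [h0] at hJs
    have : 2 * (0 + 1) = 2 := by norm_num
    rw [this] at hJs
    omega
  have hlt : (2 * J) ^ n < T := by
    by_contra hcon
    push Not at hcon
    have h1 := Nat.find_min hex (m := J - 1) (by omega)
    apply h1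
    have h2 : J - 1 + 1 = J := by omega
    rwa [h2]
  refine ⟨J, hJ1, hlt, ?_⟩
  intro m hm hmR
  refine good_of_pow (k := 2 * n * k) (by positivity) hm ?_
  have h1 : T ≤ (4 * J) ^ n := hJs.trans (Nat.pow_le_pow_left (by omega) n)
  have h2 : CL n k * R ≤ ((4 * J) ^ n) ^ k := h.trans (Nat.pow_le_pow_left h1 k)
  have h3 : (CL n k * R) ^ 2 ≤ (((4 * J) ^ n) ^ k) ^ 2 := Nat.pow_le_pow_left h2 2
  have h4 : (((4 * J) ^ n) ^ k) ^ 2 = 4 ^ (2 * n * k) * J ^ (2 * n * k) := by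
    rw [← pow_mul, ← pow_mul, mul_pow]
    congr 2 <;> ring
  have h5 : 4 ^ (2 * n * k + 1) * Cg (2 * n * k) ≤ CL n k := Nat.le_add_right _ _
  have h6 : 1 ≤ CL n k := by
    have h61 : 1 ≤ (2 ^ n + 1) ^ k := Nat.one_le_pow _ _ (Nat.succ_pos _)
    exact h61.trans (Nat.le_add_left _ _)
  have h7 : CL n k * R ^ 2 ≤ (CL n k * R) ^ 2 := by
    rw [mul_pow]
    exact Nat.mul_le_mul_right _ (by nlinarith)
  have h8 : 4 ^ (2 * n * k) * (Cg (2 * n * k) * m) ≤ 4 ^ (2 * n * k) * J ^ (2 * n * k) := by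
    calc 4 ^ (2 * n * k) * (Cg (2 * n * k) * m)
        ≤ 4 ^ (2 * n * k) * (Cg (2 * n * k) * (4 * R ^ 2)) := by gcongr
      _ = 4 ^ (2 * n * k + 1) * Cg (2 * n * k) * R ^ 2 := by ring
      _ ≤ CL n k * R ^ 2 := Nat.mul_le_mul_right _ h5
      _ ≤ _ := h7.trans (h3.trans h4.le)
  exact Nat.le_of_mul_le_mul_left h8 (by positivity)

theorem top_ne_single (hn : 2 ≤ n) {V : Finset (Fin n → ℤ)}
    (htop : affineSpan ℝ (em '' (V : Set (Fin n → ℤ))) = ⊤) : ∃ v ∈ V, ∃ v' ∈ V, v ≠ v' := by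
  by_contra hcon
  push Not at hcon
  rcases V.eq_empty_or_nonempty with h0 | ⟨v, hv⟩
  · rw [h0, coe_empty, Set.image_empty, AffineSubspace.span_empty] at htop
    have h1 : (0 : Fin n → ℝ) ∈ (⊤ : AffineSubspace ℝ (Fin n → ℝ)) := AffineSubspace.mem_top _ _ _
    rw [← htop] at h1
    exact AffineSubspace.notMem_bot _ _ _ h1
  · have h1 : em '' (V : Set (Fin n → ℤ)) = {em v} := by
      ext y
      constructor
      · rintro ⟨w, hw, rfl⟩
        rw [hcon v hv w hw]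
        exact Set.mem_singleton _
      · intro hy
        rw [Set.mem_singleton_iff] at hy
        exact ⟨v, hv, hy.symm⟩
    have h2 : em v + (fun _ => 1) ∈ affineSpan ℝ (em '' (V : Set (Fin n → ℤ))) := by
      rw [htop]
      exact AffineSubspace.mem_top _ _ _
    rw [h1, AffineSubspace.mem_affineSpan_singleton] at h2
    have h3 := congrFun h2 ⟨0, by omega⟩
    simp at h3

theorem em_dot (h x : Fin n → ℤ) : em h ⬝ᵥ em x = ((∑ i, h i * x i : ℤ) : ℝ) := by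
  simp only [dotProduct, em]
  push_cast
  rfl

/-- a nonzero vector in the kernel -/
theorem exists_ker (hn : 2 ≤ n) (h : Fin n → ℤ) : ∃ e : Fin n → ℤ, e ≠ 0 ∧ ∑ i, h i * e i = 0 := by
  classical
  set i : Fin n := ⟨0, by omega⟩ with hi
  set j : Fin n := ⟨1, by omega⟩ with hj
  have hij : i ≠ j := by
    rw [hi, hj]
    intro h1
    simp at h1
  have hs : ∀ (k : Fin n) (a : ℤ), ∑ l, h l * (Pi.single k a : Fin n → ℤ) l = h k * a := by
    intro k a
    rw [Finset.sum_eq_single k]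
    · rw [Pi.single_eq_same]
    · intro l _ hl
      rw [Pi.single_eq_of_ne hl, mul_zero]
    · intro hk
      exact absurd (mem_univ _) hk
  by_cases hhj : h j = 0
  · refine ⟨Pi.single j 1, ?_, ?_⟩
    · intro h1
      have := congrFun h1 j
      simp at this
    · rw [hs, hhj, zero_mul]
  · refine ⟨Pi.single i (h j) - Pi.single j (h i), ?_, ?_⟩
    · intro h1
      have h2 := congrFun h1 i
      rw [Pi.sub_apply, Pi.single_eq_same, Pi.single_eq_of_ne hij, Pi.zero_apply, sub_zero] at h2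
      exact hhj h2
    · have h1 : ∀ l, h l * (Pi.single i (h j) - Pi.single j (h i) : Fin n → ℤ) l =
          h l * (Pi.single i (h j) : Fin n → ℤ) l - h l * (Pi.single j (h i) : Fin n → ℤ) l := by
        intro l
        rw [Pi.sub_apply]
        ring
      rw [Finset.sum_congr rfl fun l _ => h1 l, Finset.sum_sub_distrib, hs, hs]
      ring

/-- a set of full dimension is not contained in a hyperplane -/
theorem not_const {K : Finset (Fin n → ℤ)} (h : affineSpan ℝ (em '' (K : Set (Fin n → ℤ))) = ⊤)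
    {f : Fin n → ℝ} {β : ℝ} (hf : ∀ x ∈ K, f ⬝ᵥ em x = β) (y : Fin n → ℝ) : f ⬝ᵥ y = 0 := by
  have h1 : vectorSpan ℝ (em '' (K : Set (Fin n → ℤ))) = ⊤ := by
    rw [← direction_affineSpan, h, AffineSubspace.direction_top]
  have hy : y ∈ vectorSpan ℝ (em '' (K : Set (Fin n → ℤ))) := by
    rw [h1]
    exact Submodule.mem_top
  rw [vectorSpan_def] at hy
  induction hy using Submodule.span_induction with
  | mem z hz =>
    obtain ⟨_, ⟨x, hx, rfl⟩, _, ⟨y, hy, rfl⟩, rfl⟩ := hz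
    show f ⬝ᵥ (em x -ᵥ em y) = 0
    rw [vsub_eq_sub, dotProduct_sub, hf x hx, hf y hy, sub_self]
  | zero => exact dotProduct_zero _
  | add z w _ _ hz hw => rw [dotProduct_add, hz, hw, add_zero]
  | smul a z _ hz => rw [dotProduct_smul, hz, smul_zero]

/-- **Large faces.** -/
theorem large_faces {k : ℕ} (hn : 2 ≤ n) (hk : k ≠ 0) {K L : Finset (Fin n → ℤ)} (hK : LC K)
    (hL : LC L) (htop : affineSpan ℝ (em '' (K : Set (Fin n → ℤ))) = ⊤) {c c' : Fin n → ℤ}
    (hc : ∀ x, x ∈ K ↔ c - x ∈ K) (hc' : ∀ x, x ∈ L ↔ c' - x ∈ L)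
    (hpr : ∀ u : Fin n → ℤ, u ≠ 0 → (K.image (pj u)).card = (L.image (pj u)).card)
    {R T : ℕ} (hR : ∀ x ∈ K, ∀ y ∈ K, ∀ i, |x i - y i| ≤ (R : ℤ)) (hRT : CL n k * R ≤ T ^ k)
    (hsep : ∀ w : Fin n → ℤ, w ∉ K → ∃ (h : Fin n → ℝ) (β : ℝ), (∀ x ∈ K, h ⬝ᵥ em x ≤ β) ∧
      β < h ⬝ᵥ em w ∧
      ∃ F : Finset (Fin n → ℤ), (∀ x ∈ F, x ∈ K ∧ h ⬝ᵥ em x = β) ∧ T ≤ F.card) :
    ∃ v : Fin n → ℤ, L = K.image (fun x => x + v) := by
  classical
  refine reduce hn hK hL hc hc' hpr fun L' hTw => ?_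
  have hRvs : ∀ x ∈ K, ∀ i, |vs c x i| ≤ (R : ℤ) := by
    intro x hx i
    have h1 := hR x hx _ ((hc x).1 hx) i
    have h2 : vs c x i = x i - (c - x) i := by
      simp only [vs, Pi.sub_apply]
      ring
    rw [h2]
    exact h1
  obtain ⟨v1, hv1, v2, hv2, hv12⟩ := top_ne_single hn htop
  have hR1 : 1 ≤ R := by
    by_contra hcon
    apply hv12
    funext i
    have h1 := hR v1 hv1 v2 hv2 i
    have h2 : R = 0 := by omega
    rw [h2, Nat.cast_zero, abs_nonpos_iff, sub_eq_zero] at h1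
    exact h1
  obtain ⟨J, hJ1, hJT, hgood⟩ := exists_J (n := n) (by omega) hk hR1 hRT
  refine face_main hTw hRvs hJ1 hgood ?_
  intro w hw
  obtain ⟨h, β, hmax, hwβ, F, hF, hFT⟩ := hsep w hw
  -- the centre lies below the level `β`
  have hlt : h ⬝ᵥ em c < 2 * β := by
    by_contra hcon
    push Not at hcon
    have h1 : ∀ x ∈ K, h ⬝ᵥ em x = β := by
      intro x hx
      have h2 := hmax x hx
      have h3 := hmax _ ((hc x).1 hx)
      rw [em_sub, dotProduct_sub] at h3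
      linarith
    have h2 := not_const htop h1 (em w)
    have h3 := not_const htop h1 (em v1)
    have h4 := h1 v1 hv1
    linarith
  have hpos : 0 < 2 * β - h ⬝ᵥ em c := by linarith
  have hval : ∀ x : Fin n → ℤ, ((2 * β - h ⬝ᵥ em c)⁻¹ • h) ⬝ᵥ em (vs c x) =
      (2 * (h ⬝ᵥ em x) - h ⬝ᵥ em c) / (2 * β - h ⬝ᵥ em c) := by
    intro x
    rw [smul_dotProduct, em_vs, dotProduct_sub, dotProduct_smul, smul_eq_mul, smul_eq_mul]
    field_simp
  refine ⟨(2 * β - h ⬝ᵥ em c)⁻¹ • h, ?_, ?_, F, ?_, lt_of_lt_of_le hJT hFT⟩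
  · intro x hx
    rw [hval, div_le_one hpos]
    linarith [hmax x hx]
  · rw [hval, one_lt_div hpos]
    linarith
  · intro x hx
    refine ⟨(hF x hx).1, ?_⟩
    rw [hval, (hF x hx).2, div_self hpos.ne']

end Pool.Agent.Lib.MP_8cf263_co
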