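import Pool.Agent.Lib.MP_8cf263_co.Fibre
import Pool.Agent.Lib.MP_8cf263_co.Large

/-!
# Discrete Aleksandrov projection problem: sets all of whose lines in one direction are long, II
-/

set_option autoImplicit false

namespace Pool.Agent.Lib.MP_8cf263_co

open Finset

variable {n : ℕ}

/-- a real functional vanishing on `e` and on none of finitely many vectors -/
theorem exists_generic {e : Fin n → ℤ} (he : Pr e) (D : Finset (Fin n → ℤ))
    (hD : ∀ d ∈ D, ∃ i j, d i * e j ≠ d j * e i) :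
    ∃ f : Fin n → ℝ, f ⬝ᵥ em e = 0 ∧ ∀ d ∈ D, f ⬝ᵥ em d ≠ 0 := by
  classical
  induction D using Finset.induction_on with
  | empty => exact ⟨0, by simp, by simp⟩
  | insert d D hd ih =>
    obtain ⟨f, hf, hfD⟩ := ih fun d' hd' => hD d' (mem_insert_of_mem hd')
    obtain ⟨i, j, hij⟩ := hD d (mem_insert_self _ _)
    -- a functional that does not vanish on `d`
    set g : Fin n → ℝ := Pi.single i (e j : ℝ) - Pi.single j (e i : ℝ) with hg
    have hgval : ∀ x : Fin n → ℤ, g ⬝ᵥ em x = (e j : ℝ) * x i - (e i : ℝ) * x j := by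
      intro x
      rw [hg, sub_dotProduct, single_dotProduct, single_dotProduct]
      rfl
    have hge : g ⬝ᵥ em e = 0 := by
      rw [hgval]
      ring
    have hgd : g ⬝ᵥ em d ≠ 0 := by
      rw [hgval]
      intro h0
      apply hij
      have h1 : (d i : ℝ) * e j = d j * e i := by linarith
      exact_mod_cast h1
    obtain ⟨t, ht⟩ := Infinite.exists_notMem_finset
      (insert 0 ((insert d D).image fun d' => -(f ⬝ᵥ em d') / (g ⬝ᵥ em d')))
    rw [mem_insert, not_or] at ht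
    refine ⟨f + t • g, ?_, ?_⟩
    · rw [add_dotProduct, smul_dotProduct, hf, hge, smul_zero, add_zero]
    · intro d' hd' h0
      rw [add_dotProduct, smul_dotProduct, smul_eq_mul] at h0
      by_cases hgd' : g ⬝ᵥ em d' = 0
      · rw [hgd', mul_zero, add_zero] at h0
        rcases mem_insert.1 hd' with h1 | h1
        · rw [h1] at hgd'
          exact hgd hgd'
        · exact hfD d' h1 h0
      · apply ht.2
        rw [mem_image]
        refine ⟨d', hd', ?_⟩
        rw [div_eq_iff hgd']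
        linarith

/-- a generic functional for the lines meeting `K ∪ L` -/
theorem exists_sep {e : Fin n → ℤ} (he : Pr e) (S : Finset (Fin n → ℤ)) :
    ∃ f : Fin n → ℝ, f ⬝ᵥ em e = 0 ∧ ∀ x ∈ S, ∀ y ∈ S, f ⬝ᵥ em x = f ⬝ᵥ em y →
      ∃ t : ℤ, y = x + t • e := by
  classical
  obtain ⟨f, hf, hfD⟩ := exists_generic he
    (((S ×ˢ S).image fun p => p.2 - p.1).filter fun d => ∃ i j, d i * e j ≠ d j * e i)
    (fun d hd => (mem_filter.1 hd).2)
  refine ⟨f, hf, fun x hx y hy hxy => ?_⟩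
  by_contra hcon
  refine hfD (y - x) ?_ ?_
  · rw [mem_filter, mem_image]
    refine ⟨⟨(x, y), mem_product.2 ⟨hx, hy⟩, rfl⟩, ?_⟩
    by_contra hc2
    push Not at hc2
    obtain ⟨t, ht⟩ := par_of_minors he (d := y - x) hc2
    exact hcon ⟨t, by rw [← ht]; abel⟩
  · rw [em_sub, dotProduct_sub, hxy, sub_self]

theorem Pr.neg {e : Fin n → ℤ} (he : Pr e) : Pr (-e) := by
  intro d hd
  refine he d fun i => ?_
  have := hd i
  rwa [Pi.neg_apply, dvd_neg] at this

/-- **Long lines.** -/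
theorem Tw.lines {K L : Finset (Fin n → ℤ)} {c : Fin n → ℤ} (h : Tw K L c) {e : Fin n → ℤ}
    (he : Pr e) {J : ℕ} (hK1 : Lr K e J) (hK2 : Lr K (-e) J) (hL1 : Lr L e J) (hL2 : Lr L (-e) J)
    (hLK : ∀ y ∈ L, ∃ t : ℤ, y + t • e ∈ K) (hKL : ∀ x ∈ K, ∃ t : ℤ, x + t • e ∈ L)
    (hprim : ∀ x ∈ K, ∀ y ∈ K, (∃ i j, (x + y - c) i * e j ≠ (x + y - c) j * e i) →
      ∀ s : ℤ, ∃ t : ℤ, s ≤ t ∧ t < s + J ∧ Pr (x + y - c + t • e))
    (hnot : ∃ x ∈ K, ∃ i j, vs c x i * e j ≠ vs c x j * e i) : L = K := by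
  classical
  obtain ⟨f, hfe, hfS⟩ := exists_sep he (K ∪ L ∪ (K ∪ L).image fun x => c - x)
  have hSK : ∀ x ∈ K, x ∈ K ∪ L ∪ (K ∪ L).image fun x => c - x := fun x hx =>
    mem_union_left _ (mem_union_left _ hx)
  have hSL : ∀ x ∈ L, x ∈ K ∪ L ∪ (K ∪ L).image fun x => c - x := fun x hx =>
    mem_union_left _ (mem_union_right _ hx)
  have hfe' : f ⬝ᵥ em (-e) = 0 := by
    have h1 : em (-e) = -em e := by
      funext i
      simp [em]
    rw [h1, dotProduct_neg, hfe, neg_zero]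
  have hline : ∀ (x : Fin n → ℤ) (t : ℤ), f ⬝ᵥ em (x + t • e) = f ⬝ᵥ em x := by
    intro x t
    rw [em_add, em_smul_int, dotProduct_add, dotProduct_smul, hfe, smul_zero, add_zero]
  have hneg : ∀ t : ℤ, t • (-e) = (-t) • e := by
    intro t
    rw [smul_neg, neg_smul]
  -- vectors with `f ≠ 0` are not parallel to `e`
  have hfm : ∀ b : Fin n → ℤ, 0 < f ⬝ᵥ em b → ∃ i j, b i * e j ≠ b j * e i := by
    intro b hb
    by_contra hcon
    push Not at hcon
    obtain ⟨t, ht⟩ := par_of_minors he hcon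
    rw [ht, em_smul_int, dotProduct_smul, hfe, smul_zero] at hb
    exact lt_irrefl _ hb
  -- windows for sums of points of `K`
  have hpK : ∀ x ∈ K, ∀ y ∈ K, 0 < f ⬝ᵥ em (x + y - c) →
      ∀ s : ℤ, ∃ t : ℤ, s ≤ t ∧ t < s + J ∧ Pr (x + y - c + t • e) := fun x hx y hy hpos =>
    hprim x hx y hy (hfm _ hpos)
  -- windows for sums of points of `L`
  have hpL : ∀ x ∈ L, ∀ y ∈ L, 0 < f ⬝ᵥ em (x + y - c) →
      ∀ s : ℤ, ∃ t : ℤ, s ≤ t ∧ t < s + J ∧ Pr (x + y - c + t • e) := by
    intro x hx y hy hpos s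
    obtain ⟨t1, ht1⟩ := hLK x hx
    obtain ⟨t2, ht2⟩ := hLK y hy
    have h1 : x + t1 • e + (y + t2 • e) - c = x + y - c + (t1 + t2) • e := by
      rw [add_smul]
      abel
    obtain ⟨t, h2, h3, h4⟩ := hpK _ ht1 _ ht2 (by rw [h1, hline]; exact hpos) (s - (t1 + t2))
    refine ⟨t + (t1 + t2), by omega, by omega, ?_⟩
    have h5 : x + y - c + (t + (t1 + t2)) • e = x + t1 • e + (y + t2 • e) - c + t • e := by
      rw [h1, add_smul t]
      abel
    rw [h5]
    exact h4
  -- reversal of the direction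
  have hrev : ∀ M : Finset (Fin n → ℤ), (∀ x ∈ M, ∀ y ∈ M, 0 < f ⬝ᵥ em (x + y - c) →
      ∀ s : ℤ, ∃ t : ℤ, s ≤ t ∧ t < s + J ∧ Pr (x + y - c + t • e)) →
      ∀ x ∈ M, ∀ y ∈ M, 0 < f ⬝ᵥ em (x + y - c) →
      ∃ t : ℤ, 0 ≤ t ∧ t < J ∧ Pr (x + y - c + t • (-e)) := by
    intro M hM x hx y hy hpos
    obtain ⟨t, h1, h2, h3⟩ := hM x hx y hy hpos (-J + 1)
    refine ⟨-t, by omega, by omega, ?_⟩
    rw [hneg, neg_neg]
    exact h3
  have hfwd : ∀ M : Finset (Fin n → ℤ), (∀ x ∈ M, ∀ y ∈ M, 0 < f ⬝ᵥ em (x + y - c) →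
      ∀ s : ℤ, ∃ t : ℤ, s ≤ t ∧ t < s + J ∧ Pr (x + y - c + t • e)) →
      ∀ x ∈ M, ∀ y ∈ M, 0 < f ⬝ᵥ em (x + y - c) →
      ∃ t : ℤ, 0 ≤ t ∧ t < J ∧ Pr (x + y - c + t • e) := by
    intro M hM x hx y hy hpos
    obtain ⟨t, h1, h2, h3⟩ := hM x hx y hy hpos 0
    exact ⟨t, h1, by omega, h3⟩
  -- position of `K` and `L` relative to the centre
  have hposK : ∃ x ∈ K, f ⬝ᵥ em c < 2 * (f ⬝ᵥ em x) := by
    obtain ⟨x, hx, hxm⟩ := hnot
    have h1 : f ⬝ᵥ em x ≠ f ⬝ᵥ em (c - x) := by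
      intro h1
      obtain ⟨t, ht⟩ := hfS x (hSK x hx) (c - x) (hSK _ ((h.sK x).1 hx)) h1
      obtain ⟨i, j, hij⟩ := hxm
      apply hij
      have h2 : ∀ l, vs c x l = -(t * e l) := by
        intro l
        have h3 := congrFun ht l
        simp only [Pi.sub_apply, Pi.add_apply, Pi.smul_apply, smul_eq_mul] at h3
        simp only [vs]
        linarith
      rw [h2, h2]
      ring
    have h2 : f ⬝ᵥ em (c - x) = f ⬝ᵥ em c - f ⬝ᵥ em x := by
      rw [em_sub, dotProduct_sub]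
    rcases lt_or_gt_of_ne h1 with h3 | h3
    · refine ⟨c - x, (h.sK x).1 hx, ?_⟩
      rw [h2] at h3 ⊢
      linarith
    · refine ⟨x, hx, ?_⟩
      rw [h2] at h3
      linarith
  have hposL : ∃ x ∈ L, f ⬝ᵥ em c < 2 * (f ⬝ᵥ em x) := by
    obtain ⟨x, hx, hxc⟩ := hposK
    obtain ⟨t, ht⟩ := hKL x hx
    exact ⟨_, ht, by rw [hline]; exact hxc⟩
  -- separation of lines
  have hsK : ∀ x ∈ K, ∀ y, y ∈ K ∨ y ∈ L → f ⬝ᵥ em x = f ⬝ᵥ em y → ∃ t : ℤ, y = x + t • e :=
    fun x hx y hy => hfS x (hSK x hx) y (by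
      rcases hy with hy | hy
      · exact hSK y hy
      · exact hSL y hy)
  have hsL : ∀ x ∈ L, ∀ y, y ∈ L ∨ y ∈ K → f ⬝ᵥ em x = f ⬝ᵥ em y → ∃ t : ℤ, y = x + t • e :=
    fun x hx y hy => hfS x (hSL x hx) y (by
      rcases hy with hy | hy
      · exact hSL y hy
      · exact hSK y hy)
  have hflip : ∀ x y : Fin n → ℤ, (∃ t : ℤ, y = x + t • e) → ∃ t : ℤ, y = x + t • (-e) := by
    rintro x y ⟨t, ht⟩
    exact ⟨-t, by rw [hneg, neg_neg]; exact ht⟩
  have hflip' : ∀ (x : Fin n → ℤ) (M : Finset (Fin n → ℤ)), (∃ t : ℤ, x + t • e ∈ M) →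
      ∃ t : ℤ, x + t • (-e) ∈ M := by
    rintro x M ⟨t, ht⟩
    exact ⟨-t, by rw [hneg, neg_neg]; exact ht⟩
  have hene : e ≠ 0 := he.ne_zero
  have hene' : -e ≠ 0 := neg_ne_zero.2 hene
  by_contra hne
  -- the top line of the symmetric difference
  have hΔ : ((K \ L) ∪ (L \ K)).Nonempty := by
    rw [nonempty_iff_ne_empty]
    intro h0
    apply hne
    rw [union_eq_empty, sdiff_eq_empty_iff_subset, sdiff_eq_empty_iff_subset] at h0
    exact subset_antisymm h0.2 h0.1
  obtain ⟨p0, hp0, hp0max⟩ := exists_max_image _ (fun x => f ⬝ᵥ em x) hΔ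
  have htop : ∀ x, f ⬝ᵥ em p0 < f ⬝ᵥ em x → (x ∈ K ↔ x ∈ L) := by
    intro x hx
    by_contra hcon
    have h1 : x ∈ (K \ L) ∪ (L \ K) := by
      rw [mem_union, mem_sdiff, mem_sdiff]
      tauto
    have := hp0max x h1
    linarith
  have hp0K : ∃ t : ℤ, p0 + t • e ∈ K := by
    rw [mem_union, mem_sdiff, mem_sdiff] at hp0
    rcases hp0 with h1 | h1
    · exact ⟨0, by simpa using h1.1⟩
    · exact hLK p0 h1.1
  obtain ⟨t0, ht0⟩ := hp0K
  obtain ⟨s1, hxK, hxKe⟩ := left_end hene ht0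
  set xK := p0 + t0 • e + s1 • e with hxKdef
  obtain ⟨t1, ht1⟩ := hKL xK hxK
  obtain ⟨s2, hxL, hxLe⟩ := left_end hene ht1
  have hxLdef : xK + t1 • e + s2 • e = xK + (t1 + s2) • e := by
    rw [add_smul]
    abel
  rw [hxLdef] at hxL hxLe
  have hfxK : f ⬝ᵥ em xK = f ⬝ᵥ em p0 := by rw [hxKdef, hline, hline]
  rcases lt_trichotomy (t1 + s2) 0 with hlt | heq | hgt
  · -- `L` extends further to the left
    refine h.symm.left hene f hfe hsL hL1 hKL (hfwd L hpL) hposL hxL hxLe ?_ ?_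
    · intro t ht
      have h1 : xK + (t1 + s2) • e + t • e = xK + (t1 + s2 + t) • e := by
        rw [add_smul (t1 + s2)]
        abel
      rw [h1] at ht
      have := h.hK.no_left hxK hxKe ht
      omega
    · intro x hx
      rw [hline, hfxK] at hx
      exact (htop x hx).symm
  · -- the left ends coincide
    rw [heq, zero_smul, add_zero] at hxL hxLe
    obtain ⟨r1, hyK, hyKe⟩ := left_end hene' hxK
    obtain ⟨r2, hyL, hyLe⟩ := left_end hene' hxL
    rw [hneg] at hyK hyKe hyL hyLe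
    rcases lt_trichotomy (-r1) (-r2) with hlt | heq2 | hgt
    · -- `L` extends further to the right
      refine h.symm.left hene' f hfe' (fun x hx y hy hxy => hflip _ _ (hsL x hx y hy hxy)) hL2
        (fun x hx => hflip' x L (hKL x hx)) (hrev L hpL) hposL hyL hyLe ?_ ?_
      · intro t ht
        have h1 : xK + (-r2) • e + t • (-e) = xK + (-r1) • e + (r2 - r1 + t) • (-e) := by
          simp only [smul_neg, neg_smul, add_smul, sub_smul]
          abel
        rw [h1] at ht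
        have := h.hK.no_left hyK hyKe ht
        omega
      · intro x hx
        rw [hline, hfxK] at hx
        exact (htop x hx).symm
    · -- the lines coincide
      rw [mem_union, mem_sdiff, mem_sdiff] at hp0
      have hp0x : p0 = xK + (-(t0 + s1)) • e := by
        rw [hxKdef, neg_smul, add_smul]
        abel
      have hiff : p0 ∈ K ↔ p0 ∈ L := by
        rw [hp0x]
        have hz : xK + (0 : ℤ) • e = xK := by rw [zero_smul, add_zero]
        have hright : ∀ (M : Finset (Fin n → ℤ)), LC M → ∀ r : ℤ, xK + (-r) • e ∈ M →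
            xK + (-r) • e - (-e) ∉ M → ∀ t : ℤ, xK + t • e ∈ M → t ≤ -r := by
          intro M hM r hr hr' t ht
          have h1 : xK + t • e = xK + (-r) • e + (-r - t) • (-e) := by
            simp only [smul_neg, neg_smul, sub_smul]
            abel
          rw [h1] at ht
          have := hM.no_left hr hr' ht
          omega
        constructor
        · intro h1
          have h2 := h.hK.no_left hxK hxKe h1
          have h3 := hright K h.hK r1 hyK hyKe _ h1
          exact h.hL.seg0 (by rw [hz]; exact hxL) hyL h2 (by omega)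
        · intro h1
          have h2 := h.hL.no_left hxL hxLe h1
          have h3 := hright L h.hL r2 hyL hyLe _ h1
          exact h.hK.seg0 (by rw [hz]; exact hxK) hyK h2 (by omega)
      tauto
    · -- `K` extends further to the right
      refine h.left hene' f hfe' (fun x hx y hy hxy => hflip _ _ (hsK x hx y hy hxy)) hK2
        (fun x hx => hflip' x K (hLK x hx)) (hrev K hpK) hposK hyK hyKe ?_ ?_
      · intro t ht
        have h1 : xK + (-r1) • e + t • (-e) = xK + (-r2) • e + (r1 - r2 + t) • (-e) := by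
          simp only [smul_neg, neg_smul, add_smul, sub_smul]
          abel
        rw [h1] at ht
        have := h.hL.no_left hyL hyLe ht
        omega
      · intro x hx
        rw [hline, hfxK] at hx
        exact htop x hx
  · -- `K` extends further to the left
    refine h.left hene f hfe hsK hK1 hLK (hfwd K hpK) hposK hxK hxKe ?_ ?_
    · intro t ht
      have h1 : xK + t • e = xK + (t1 + s2) • e + (t - (t1 + s2)) • e := by
        rw [sub_smul]
        abel
      rw [h1] at ht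
      have := h.hL.no_left hxL hxLe ht
      omega
    · intro x hx
      rw [hfxK] at hx
      exact htop x hx

end Pool.Agent.Lib.MP_8cf263_co
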