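import Pool.Agent.Lib.MP_8cf263_co.Row

/-!
# Discrete Aleksandrov projection problem: arbitrary centres
-/

set_option autoImplicit false

namespace Pool.Agent.Lib.MP_8cf263_co

open Finset

variable {n : ℕ}

theorem LC.comb3 {K : Finset (Fin n → ℤ)} (hK : LC K) {x y w z : Fin n → ℤ} (hx : x ∈ K)
    (hy : y ∈ K) (hw : w ∈ K) {a b d k : ℤ} (ha : 0 ≤ a) (hb : 0 ≤ b) (hd : 0 ≤ d) (hk : 0 < k)
    (hab : a + b + d = k) (h : ∀ i, k * z i = a * x i + b * y i + d * w i) : z ∈ K := by
  apply hK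
  have hmem : ∀ w ∈ K, em w ∈ convexHull ℝ (em '' (K : Set (Fin n → ℤ))) := fun w hw =>
    subset_convexHull ℝ _ ⟨w, hw, rfl⟩
  have hkr : (0 : ℝ) < k := by exact_mod_cast hk
  have har : (0 : ℝ) ≤ a := by exact_mod_cast ha
  have hbr : (0 : ℝ) ≤ b := by exact_mod_cast hb
  have hdr : (0 : ℝ) ≤ d := by exact_mod_cast hd
  have habr : (a : ℝ) + b + d = k := by exact_mod_cast hab
  have h1 := (convex_convexHull ℝ (em '' (K : Set (Fin n → ℤ)))).sum_mem
    (t := (univ : Finset (Fin 3))) (w := ![(a : ℝ) / k, (b : ℝ) / k, (d : ℝ) / k])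
    (z := ![em x, em y, em w]) (by
      intro i _
      fin_cases i
      · exact div_nonneg har hkr.le
      · exact div_nonneg hbr hkr.le
      · exact div_nonneg hdr hkr.le) (by
      rw [Fin.sum_univ_three]
      show (a : ℝ) / k + (b : ℝ) / k + (d : ℝ) / k = 1
      rw [← add_div, ← add_div, habr, div_self hkr.ne']) (by
      intro i _
      fin_cases i
      · exact hmem x hx
      · exact hmem y hy
      · exact hmem w hw)
  rw [Fin.sum_univ_three] at h1
  have h2 : em z = ((a : ℝ) / k) • em x + ((b : ℝ) / k) • em y + ((d : ℝ) / k) • em w := by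
    funext i
    have h3 : (k : ℝ) * z i = a * x i + b * y i + d * w i := by exact_mod_cast h i
    show (z i : ℝ) = (a : ℝ) / k * x i + (b : ℝ) / k * y i + (d : ℝ) / k * w i
    field_simp
    linarith
  rw [h2]
  exact h1

theorem vs_sub (c x : Fin n → ℤ) : vs c (c - x) = -vs c x := by
  funext i
  simp only [vs, Pi.sub_apply, Pi.neg_apply]
  ring

/-- points whose vector from the centre is a combination of those of two points -/
theorem LC.hat {K : Finset (Fin n → ℤ)} (hK : LC K) {c : Fin n → ℤ}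
    (hc : ∀ x, x ∈ K ↔ c - x ∈ K) {x y z : Fin n → ℤ} (hx : x ∈ K) (hy : y ∈ K) {p q k : ℤ}
    (hk : 0 < k) (hpq : |p| + |q| ≤ k) (h : ∀ i, k * vs c z i = p * vs c x i + q * vs c y i) :
    z ∈ K := by
  -- signs
  suffices hsuf : ∀ (x y : Fin n → ℤ) (p q : ℤ), x ∈ K → y ∈ K → 0 ≤ p → 0 ≤ q → p + q ≤ k →
      (∀ i, k * vs c z i = p * vs c x i + q * vs c y i) → z ∈ K by
    rcases le_or_gt 0 p with hp | hp <;> rcases le_or_gt 0 q with hq | hq
    · rw [abs_of_nonneg hp, abs_of_nonneg hq] at hpq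
      exact hsuf x y p q hx hy hp hq hpq h
    · rw [abs_of_nonneg hp, abs_of_neg hq] at hpq
      refine hsuf x (c - y) p (-q) hx ((hc y).1 hy) hp (by omega) hpq ?_
      intro i
      rw [h i, vs_sub, Pi.neg_apply]
      ring
    · rw [abs_of_neg hp, abs_of_nonneg hq] at hpq
      refine hsuf (c - x) y (-p) q ((hc x).1 hx) hy (by omega) hq hpq ?_
      intro i
      rw [h i, vs_sub, Pi.neg_apply]
      ring
    · rw [abs_of_neg hp, abs_of_neg hq] at hpq
      refine hsuf (c - x) (c - y) (-p) (-q) ((hc x).1 hx) ((hc y).1 hy) (by omega) (by omega)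
        hpq ?_
      intro i
      rw [h i, vs_sub, vs_sub, Pi.neg_apply, Pi.neg_apply]
      ring
  intro x y p q hx hy hp hq hpq h
  refine hK.comb3 hx ((hc x).1 hx) hy (a := 2 * p + (k - p - q)) (b := k - p - q) (d := 2 * q)
    (k := 2 * k) (by omega) (by omega) (by omega) (by omega) (by ring) ?_
  intro i
  have h1 := h i
  simp only [vs] at h1
  simp only [Pi.sub_apply]
  linear_combination h1

/-- visible points agree -/
theorem Tw.vis_mem {K L : Finset (Fin n → ℤ)} {c : Fin n → ℤ} (h : Tw K L c) {x : Fin n → ℤ}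
    (hx : Pr (vs c x)) : x ∈ K ↔ x ∈ L := by
  rw [← odd_fol_iff h.sK rfl, h.cnt _ hx, odd_fol_iff h.sL rfl]

/-- a set all of whose points are in the hull of its visible points is determined -/
theorem Tw.eq_of_vis {K L : Finset (Fin n → ℤ)} {c : Fin n → ℤ} (h : Tw K L c)
    (hvis : ∀ x ∈ K, em x ∈ convexHull ℝ (em '' {y : Fin n → ℤ | y ∈ K ∧ Pr (vs c y)})) :
    L = K := by
  have h1 := unique h.hL (v := 0) h.card (fun x hx => by rw [add_zero]; exact h.vis_mem hx) hvis
  rw [h1]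
  simp

/-- the visible point on the ray of a point -/
theorem exists_ray {K : Finset (Fin n → ℤ)} (hK : LC K) {c : Fin n → ℤ}
    (hc : ∀ x, x ∈ K ↔ c - x ∈ K) (hodd : ¬ ∃ z, c = z + z) {x : Fin n → ℤ} (hx : x ∈ K) :
    ∃ w ∈ K, Pr (vs c w) ∧ ∃ m : ℤ, 0 ≤ m ∧ vs c x = (2 * m + 1) • vs c w := by
  have hd : vs c x ≠ 0 := by
    intro h0
    apply hodd
    refine ⟨x, funext fun i => ?_⟩
    have h1 := congrFun h0 i
    simp only [vs, Pi.zero_apply] at h1
    rw [Pi.add_apply]
    linarith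
  obtain ⟨W, hWp, g, hg0, hge, -⟩ := prim_dir hd
  have hgodd : ¬ (2 : ℤ) ∣ g := by
    intro h2
    apply hodd
    have h1 : ∀ i, (2 : ℤ) ∣ c i := by
      intro i
      have h3 := congrFun hge i
      simp only [vs, Pi.smul_apply, smul_eq_mul] at h3
      have h4 : (2 : ℤ) ∣ g * W i := Dvd.dvd.mul_right h2 _
      rw [← h3] at h4
      omega
    choose z hz using h1
    refine ⟨z, funext fun i => ?_⟩
    rw [Pi.add_apply, hz i]
    ring
  obtain ⟨m, hm⟩ : ∃ m : ℤ, g = 2 * m + 1 := ⟨g / 2, by omega⟩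
  have hvy : vs c (x - m • W) = W := by
    funext i
    have h3 := congrFun hge i
    simp only [vs, Pi.smul_apply, smul_eq_mul] at h3
    simp only [vs, Pi.sub_apply, Pi.smul_apply, smul_eq_mul]
    rw [hm] at h3
    linarith
  refine ⟨x - m • W, ?_, by rwa [hvy], m, by omega, by rw [hvy, ← hm]; exact hge⟩
  refine hK.hat hc hx hx (p := 1) (q := 0) (k := g) hg0 (by simp; omega) ?_
  intro i
  rw [hvy, hge, Pi.smul_apply, smul_eq_mul]
  ring

/-- sums of visible direction -/
theorem vs_add (c x y : Fin n → ℤ) (i : Fin n) : 2 * (x + y - c) i = vs c x i + vs c y i := by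
  simp only [vs, Pi.sub_apply, Pi.add_apply]
  ring

theorem ms_vs (c b y : Fin n → ℤ) : 2 * ms (vs c b) (b + y - c) = ms (vs c b) (vs c y) := by
  unfold ms
  rw [Finset.mul_sum]
  refine Finset.sum_congr rfl fun i _ => ?_
  rw [Finset.mul_sum]
  refine Finset.sum_congr rfl fun j _ => ?_
  have h1 := vs_add c b y i
  have h2 := vs_add c b y j
  have h3 : vs c b i * vs c y j - vs c b j * vs c y i =
      2 * (vs c b i * (b + y - c) j - vs c b j * (b + y - c) i) := by
    linear_combination (-(vs c b i)) * h2 + (vs c b j) * h1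
  rw [h3, abs_mul, abs_two]

/-- **Primitive sums.** -/
theorem prim_sum_odd {L : Finset (Fin n → ℤ)} (hL : LC L) {c : Fin n → ℤ}
    (hc : ∀ x, x ∈ L ↔ c - x ∈ L) (hodd : ¬ ∃ z, c = z + z) {b y : Fin n → ℤ} (hb : b ∈ L)
    (hy : y ∈ L) (hby : Npar (vs c b) (vs c y))
    (hmin : ∀ w ∈ L, Npar (vs c b) (vs c w) → ms (vs c b) (vs c y) ≤ ms (vs c b) (vs c w)) :
    Pr (b + y - c) := by
  by_contra hp
  have hpos := ms_pos hby
  have h0 : b + y - c ≠ 0 := by
    intro h
    rw [← ms_vs, h] at hpos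
    have h2 : ms (vs c b) 0 = 0 := by simp [ms]
    omega
  obtain ⟨q, S, hq, hS⟩ := exists_div hp h0
  obtain ⟨w, hw, hwp, m, hm, hmw⟩ := exists_ray hL hc hodd hb
  -- the point with the vector `2 S - w`
  have hvY : vs c (S + b - (m + 1) • vs c w) = (2 : ℤ) • S - vs c w := by
    funext i
    have h1 := congrFun hmw i
    simp only [Pi.smul_apply, smul_eq_mul] at h1
    simp only [vs, Pi.sub_apply, Pi.add_apply, Pi.smul_apply, smul_eq_mul] at h1 ⊢
    linarith
  have hmem : S + b - (m + 1) • vs c w ∈ L := by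
    -- `(2 m + 1) q (2 S - w) = (2 m + 1) (b + y) - q b`
    refine hL.hat hc hb hy (p := (2 * m + 1) - q) (q := 2 * m + 1) (k := (2 * m + 1) * q)
      (by positivity) ?_ ?_
    · rw [abs_of_nonneg (show (0 : ℤ) ≤ 2 * m + 1 by omega)]
      rcases le_or_gt q (2 * m + 1) with h1 | h1
      · rw [abs_of_nonneg (by omega)]
        nlinarith
      · rw [abs_of_neg (by omega)]
        nlinarith
    · intro i
      rw [hvY]
      have h1 := congrFun hmw i
      have h2 := congrFun hS i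
      have h3 := vs_add c b y i
      simp only [Pi.smul_apply, smul_eq_mul] at h1 h2
      simp only [Pi.sub_apply, Pi.smul_apply, smul_eq_mul]
      rw [h2] at h3
      linear_combination (2 * m + 1) * h3 + q * h1
  have hms : q * ms (vs c b) (vs c (S + b - (m + 1) • vs c w)) = ms (vs c b) (vs c y) := by
    have h1 : ms (vs c b) (vs c (S + b - (m + 1) • vs c w)) = 2 * ms (vs c b) S := by
      unfold ms
      rw [Finset.mul_sum]
      refine Finset.sum_congr rfl fun i _ => ?_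
      rw [Finset.mul_sum]
      refine Finset.sum_congr rfl fun j _ => ?_
      rw [hvY, ← abs_two, ← abs_mul]
      congr 1
      have h2 := congrFun hmw i
      have h3 := congrFun hmw j
      simp only [Pi.smul_apply, smul_eq_mul] at h2 h3
      simp only [Pi.sub_apply, Pi.smul_apply, smul_eq_mul]
      rw [h2, h3, abs_two]
      ring
    rw [h1, ← ms_vs, hS, ms_smul, abs_of_nonneg (by omega)]
    ring
  have h3 : 0 < ms (vs c b) (vs c (S + b - (m + 1) • vs c w)) := by
    by_contra hcon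
    have h4 := ms_nonneg (vs c b) (vs c (S + b - (m + 1) • vs c w))
    have h5 : ms (vs c b) (vs c (S + b - (m + 1) • vs c w)) = 0 := by omega
    rw [h5, mul_zero] at hms
    omega
  have h4 := hmin _ hmem (npar_of_ms h3)
  nlinarith

/-- **The row lemma.** -/
theorem Tw.row_odd {K L : Finset (Fin n → ℤ)} {c : Fin n → ℤ} (h : Tw K L c)
    (hodd : ¬ ∃ z, c = z + z) {b y : Fin n → ℤ} (hb : b ∈ L) (hy : y ∈ L)
    (hby : Npar (vs c b) (vs c y)) :
    ∃ x1 ∈ K, ∃ x2 ∈ K, ∃ x3 ∈ K, ∃ x4 ∈ K,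
      (2 : ℤ) • vs c b = vs c x1 + vs c x2 + (vs c x3 + vs c x4) := by
  classical
  obtain ⟨w, hw, hmin⟩ := Finset.exists_min_image (L.filter (fun y => Npar (vs c b) (vs c y)))
    (fun y => ms (vs c b) (vs c y)) ⟨y, mem_filter.2 ⟨hy, hby⟩⟩
  rw [mem_filter] at hw
  have hmin' : ∀ w' ∈ L, Npar (vs c b) (vs c w') →
      ms (vs c b) (vs c w) ≤ ms (vs c b) (vs c w') := fun w' h1 h2 =>
    hmin w' (mem_filter.2 ⟨h1, h2⟩)
  have hwn : c - w ∈ L := (h.sL w).1 hw.1
  have hp1 := prim_sum_odd h.hL h.sL hodd hb hw.1 hw.2 hmin'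
  have hp2 := prim_sum_odd h.hL h.sL hodd hb hwn (by rw [vs_sub]; exact hw.2.neg) (by
    intro w' h1 h2
    rw [vs_sub, ms_neg]
    exact hmin' w' h1 h2)
  obtain ⟨x1, hx1, x2, hx2, h12⟩ := h.symm.vis hp1 hb hw.1 rfl
  obtain ⟨x3, hx3, x4, hx4, h34⟩ := h.symm.vis hp2 hb hwn rfl
  refine ⟨x1, hx1, x2, hx2, x3, hx3, x4, hx4, funext fun i => ?_⟩
  have h1 := congrFun h12 i
  have h2 := congrFun h34 i
  simp only [Pi.sub_apply, Pi.add_apply] at h1 h2
  simp only [Pi.smul_apply, smul_eq_mul, Pi.add_apply, vs]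
  linear_combination (-2) * h1 + (-2) * h2

/-- every line through the centre misses some point -/
def Sph (K : Finset (Fin n → ℤ)) (c : Fin n → ℤ) : Prop :=
  ∀ b : Fin n → ℤ, b ≠ 0 → ∃ x ∈ K, Npar b (vs c x)

theorem Npar.smul {b y : Fin n → ℤ} {m : ℤ} (h : Npar b (m • y)) : Npar b y := by
  apply npar_of_ms
  have h1 := ms_pos h
  rw [ms_smul] at h1
  by_contra hcon
  have h2 : ms b y = 0 := by
    have := ms_nonneg b y
    omega
  rw [h2, mul_zero] at h1
  exact lt_irrefl _ h1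

theorem Tw.sph_odd {K L : Finset (Fin n → ℤ)} {c : Fin n → ℤ} (h : Tw K L c)
    (hodd : ¬ ∃ z, c = z + z) (hK : Sph K c) : Sph L c := by
  intro b hb
  obtain ⟨x, hx, hbx⟩ := hK b hb
  obtain ⟨w, hw, hwp, m, -, hmw⟩ := exists_ray h.hK h.sK hodd hx
  refine ⟨w, (h.vis_mem hwp).1 hw, ?_⟩
  rw [hmw] at hbx
  exact hbx.smul

/-- the values of functionals at most double -/
theorem Tw.double_odd {K L : Finset (Fin n → ℤ)} {c : Fin n → ℤ} (h : Tw K L c)
    (hodd : ¬ ∃ z, c = z + z) (hK : Sph K c) {φ : Fin n → ℤ} {M : ℤ}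
    (hφ : ∀ x ∈ K, φ ⬝ᵥ vs c x ≤ M) {b : Fin n → ℤ} (hb : b ∈ L) : φ ⬝ᵥ vs c b ≤ 2 * M := by
  have hb0 : vs c b ≠ 0 := by
    intro h0
    apply hodd
    refine ⟨b, funext fun i => ?_⟩
    have h1 := congrFun h0 i
    simp only [vs, Pi.zero_apply] at h1
    rw [Pi.add_apply]
    linarith
  obtain ⟨y, hy, hby⟩ := h.sph_odd hodd hK _ hb0
  obtain ⟨x1, h1, x2, h2, x3, h3, x4, h4, h5⟩ := h.row_odd hodd hb hy hby
  have h6 := congrArg (fun z => φ ⬝ᵥ z) h5
  simp only [dotProduct_add, dotProduct_smul, smul_eq_mul] at h6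
  have h7 := hφ x1 h1
  have h8 := hφ x2 h2
  have h9 := hφ x3 h3
  have h10 := hφ x4 h4
  linarith

/-- points on a line through the centre -/
theorem LC.par_mem {K L : Finset (Fin n → ℤ)} (hK : LC K) (hL : LC L) {c : Fin n → ℤ}
    (hcK : ∀ x, x ∈ K ↔ c - x ∈ K) (hcL : ∀ x, x ∈ L ↔ c - x ∈ L) {y b : Fin n → ℤ} (hy : y ∈ K)
    (hb : b ∈ L) (hbK : b ∉ K) (hpar : ¬ Npar (vs c b) (vs c y)) : y ∈ L := by
  unfold Npar at hpar
  push Not at hpar
  have hb0 : vs c b ≠ 0 := by
    intro h0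
    apply hbK
    refine hK.hat hcK hy hy (p := 0) (q := 0) (k := 1) (by norm_num) (by simp) ?_
    intro i
    rw [h0]
    simp
  obtain ⟨i, hi⟩ := Function.ne_iff.1 hb0
  have hi' : vs c b i ≠ 0 := hi
  by_cases hle : |vs c b i| ≤ |vs c y i|
  · -- `b` is in `K`
    exfalso
    apply hbK
    have hpos : 0 < |vs c y i| := (abs_pos.2 hi').trans_le hle
    rcases abs_cases (vs c y i) with ⟨h1, h2⟩ | ⟨h1, h2⟩
    · refine hK.hat hcK hy hy (p := vs c b i) (q := 0) (k := vs c y i) (by omega)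
        (by rw [abs_zero]; omega) ?_
      intro j
      linear_combination (-1) * hpar i j
    · refine hK.hat hcK hy hy (p := -vs c b i) (q := 0) (k := -vs c y i) (by omega)
        (by rw [abs_zero, abs_neg]; omega) ?_
      intro j
      linear_combination hpar i j
  · push Not at hle
    rcases abs_cases (vs c b i) with ⟨h1, h2⟩ | ⟨h1, h2⟩
    · refine hL.hat hcL hb hb (p := vs c y i) (q := 0) (k := vs c b i) (by omega)
        (by rw [abs_zero]; omega) ?_
      intro j
      linear_combination hpar i j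
    · refine hL.hat hcL hb hb (p := -vs c y i) (q := 0) (k := -vs c b i) (by omega)
        (by rw [abs_zero, abs_neg]; omega) ?_
      intro j
      linear_combination (-1) * hpar i j

/-- sets on a line through the centre with equally many points -/
theorem line_eq {K L : Finset (Fin n → ℤ)} (hK : LC K) (hL : LC L) {c : Fin n → ℤ}
    (hcK : ∀ x, x ∈ K ↔ c - x ∈ K) (hcL : ∀ x, x ∈ L ↔ c - x ∈ L) (P : (Fin n → ℤ) → Prop)
    [DecidablePred P] (hP : ∀ x y, P x → P y → ¬ Npar (vs c x) (vs c y))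
    (hcard : (K.filter P).card = (L.filter P).card) : K.filter P = L.filter P := by
  classical
  have h1 : L.filter P ⊆ K.filter P := by
    intro b hb
    by_contra hbK
    rw [mem_filter] at hb hbK
    have hbK' : b ∉ K := fun h => hbK ⟨h, hb.2⟩
    have h2 : K.filter P ⊆ (L.filter P).erase b := by
      intro y hy
      rw [mem_filter] at hy
      rw [mem_erase, mem_filter]
      refine ⟨?_, hK.par_mem hL hcK hcL hy.1 hb.1 hbK' (hP b y hb.2 hy.2), hy.2⟩
      rintro rfl
      exact hbK' hy.1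
    have h3 := card_le_card h2
    rw [card_erase_of_mem (mem_filter.2 hb)] at h3
    have h4 : 0 < (L.filter P).card := card_pos.2 ⟨b, mem_filter.2 hb⟩
    omega
  exact (eq_of_subset_of_card_le h1 hcard.le).symm

end Pool.Agent.Lib.MP_8cf263_co
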