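import Pool.Agent.Lib.MP_8cf263_co.Thin

/-!
# Discrete Aleksandrov projection problem: even sets in few levels of one functional
-/

set_option autoImplicit false

namespace Pool.Agent.Lib.MP_8cf263_co

open Finset

variable {n : ℕ}

/-- representations of `s + c` -/
theorem fol_eq {K : Finset (Fin n → ℤ)} {c : Fin n → ℤ} (hK : ∀ x, x ∈ K ↔ c - x ∈ K)
    (p : Fin n → ℤ) : (K.filter (fun x => p - x ∈ K)).card = (fol K (p - c)).card := by
  classical
  unfold fol
  refine Finset.card_bij (fun x _ => c - x) ?_ ?_ ?_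
  · intro x hx
    rw [mem_filter] at hx ⊢
    refine ⟨(hK x).1 hx.1, ?_⟩
    have h1 : c - x + (p - c) = p - x := by abel
    rw [h1]
    exact hx.2
  · intro x _ y _ hxy
    exact sub_right_injective hxy
  · intro y hy
    rw [mem_filter] at hy
    refine ⟨c - y, ?_, by abel⟩
    rw [mem_filter]
    refine ⟨(hK y).1 hy.1, ?_⟩
    have h1 : p - (c - y) = y + (p - c) := by abel
    rw [h1]
    exact hy.2

theorem Tw.reps {K L : Finset (Fin n → ℤ)} {c : Fin n → ℤ} (h : Tw K L c) {p : Fin n → ℤ}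
    (hp : Pr (p - c)) :
    (K.filter (fun x => p - x ∈ K)).card = (L.filter (fun x => p - x ∈ L)).card := by
  rw [fol_eq h.sK, fol_eq h.sL, h.cnt _ hp]

theorem dot_vs_add (φ c x y : Fin n → ℤ) :
    φ ⬝ᵥ vs c x + φ ⬝ᵥ vs c y = 2 * (φ ⬝ᵥ (x + y - c)) := by
  rw [← dotProduct_add, ← smul_eq_mul, ← dotProduct_smul]
  congr 1
  funext i
  rw [Pi.add_apply, ← vs_add]
  rfl

theorem dot_vs_par (φ c x : Fin n → ℤ) : φ ⬝ᵥ vs c x + φ ⬝ᵥ c = 2 * (φ ⬝ᵥ x) := by
  rw [← dotProduct_add]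
  have h5 : vs c x + c = (2 : ℤ) • x := by
    funext j
    simp only [vs, Pi.add_apply, Pi.smul_apply, smul_eq_mul]
    ring
  rw [h5, dotProduct_smul, smul_eq_mul]

/-- number of points on a level -/
def lv (K : Finset (Fin n → ℤ)) (c φ : Fin n → ℤ) (j : ℤ) : ℕ :=
  (K.filter (fun x => φ ⬝ᵥ vs c x = j)).card

/-- pairs with sum on the level one -/
theorem pairs_eq {K : Finset (Fin n → ℤ)} {c φ : Fin n → ℤ} {M : ℤ}
    (hM : ∀ x ∈ K, |φ ⬝ᵥ vs c x| ≤ M) :
    ((K ×ˢ K).filter (fun q => φ ⬝ᵥ (q.1 + q.2 - c) = 1)).card =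
      ∑ j ∈ Icc (-M) M, lv K c φ j * lv K c φ (2 - j) := by
  classical
  rw [Finset.card_eq_sum_card_fiberwise (f := fun q => φ ⬝ᵥ vs c q.1) (t := Icc (-M) M)]
  · refine Finset.sum_congr rfl fun j _ => ?_
    unfold lv
    rw [← card_product]
    congr 1
    ext ⟨x, y⟩
    simp only [mem_filter, mem_product]
    have h1 := dot_vs_add φ c x y
    constructor
    · rintro ⟨⟨⟨hx, hy⟩, h2⟩, h3⟩
      exact ⟨⟨hx, h3⟩, hy, by omega⟩
    · rintro ⟨⟨hx, h2⟩, hy, h3⟩
      exact ⟨⟨⟨hx, hy⟩, by omega⟩, h2⟩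
  · intro q hq
    rw [mem_coe, mem_filter, mem_product] at hq
    rw [mem_coe, mem_Icc]
    have h1 := hM _ hq.1.1
    rw [abs_le] at h1
    exact h1

theorem Tw.pairs {K L : Finset (Fin n → ℤ)} {c : Fin n → ℤ} (h : Tw K L c) {φ : Fin n → ℤ}
    {M : ℤ} (hK : ∀ x ∈ K, |φ ⬝ᵥ vs c x| ≤ M) (hL : ∀ x ∈ L, |φ ⬝ᵥ vs c x| ≤ M) :
    ∑ j ∈ Icc (-M) M, lv K c φ j * lv K c φ (2 - j) =
      ∑ j ∈ Icc (-M) M, lv L c φ j * lv L c φ (2 - j) := by
  classical
  rw [← pairs_eq hK, ← pairs_eq hL]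
  have key : ∀ C D : Finset (Fin n → ℤ), C ⊆ D →
      ((C ×ˢ C).filter (fun q => φ ⬝ᵥ (q.1 + q.2 - c) = 1)).card =
      ∑ p ∈ ((D ×ˢ D).image (fun q => q.1 + q.2)).filter (fun p => φ ⬝ᵥ (p - c) = 1),
        (C.filter (fun x => p - x ∈ C)).card := by
    intro C D hCD
    rw [Finset.card_eq_sum_card_fiberwise (f := fun q => q.1 + q.2)
      (t := ((D ×ˢ D).image (fun q => q.1 + q.2)).filter (fun p => φ ⬝ᵥ (p - c) = 1))]
    · refine Finset.sum_congr rfl fun p hp => ?_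
      rw [mem_filter] at hp
      refine Finset.card_bij (fun q _ => q.1) ?_ ?_ ?_
      · rintro ⟨x, y⟩ hq
        simp only [mem_filter, mem_product] at hq ⊢
        refine ⟨hq.1.1.1, ?_⟩
        have h1 : p - x = y := by
          rw [← hq.2]
          abel
        rw [h1]
        exact hq.1.1.2
      · rintro ⟨x, y⟩ hq ⟨x', y'⟩ hq' hxx
        simp only [mem_filter, mem_product] at hq hq' hxx
        subst hxx
        have h1 := hq.2.trans hq'.2.symm
        rw [add_left_cancel h1]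
      · intro x hx
        rw [mem_filter] at hx
        refine ⟨(x, p - x), ?_, rfl⟩
        simp only [mem_filter, mem_product]
        have h1 : x + (p - x) = p := by abel
        rw [h1]
        exact ⟨⟨⟨hx.1, hx.2⟩, hp.2⟩, rfl⟩
    · rintro ⟨x, y⟩ hq
      rw [mem_coe, mem_filter, mem_product] at hq
      rw [mem_coe, mem_filter, mem_image]
      exact ⟨⟨(x, y), mem_product.2 ⟨hCD hq.1.1, hCD hq.1.2⟩, rfl⟩, hq.2⟩
  rw [key K (K ∪ L) subset_union_left, key L (K ∪ L) subset_union_right]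
  refine Finset.sum_congr rfl fun p hp => h.reps ?_
  rw [mem_filter] at hp
  exact Pr.of_dot (φ := φ) (by rw [hp.2]; exact isUnit_one)

theorem lv_neg {K : Finset (Fin n → ℤ)} {c : Fin n → ℤ} (hK : ∀ x, x ∈ K ↔ c - x ∈ K)
    (φ : Fin n → ℤ) (j : ℤ) : lv K c φ (-j) = lv K c φ j := by
  unfold lv
  refine Finset.card_bij (fun x _ => c - x) ?_ ?_ ?_
  · intro x hx
    rw [mem_filter] at hx ⊢
    refine ⟨(hK x).1 hx.1, ?_⟩
    rw [vs_sub, dotProduct_neg, hx.2, neg_neg]
  · intro x _ y _ hxy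
    exact sub_right_injective hxy
  · intro y hy
    rw [mem_filter] at hy
    refine ⟨c - y, ?_, by abel⟩
    rw [mem_filter]
    refine ⟨(hK y).1 hy.1, ?_⟩
    rw [vs_sub, dotProduct_neg, hy.2]

/-- the number of points is the sum over the levels -/
theorem card_lv {K : Finset (Fin n → ℤ)} {c φ : Fin n → ℤ} {M : ℤ}
    (hM : ∀ x ∈ K, |φ ⬝ᵥ vs c x| ≤ M) : K.card = ∑ j ∈ Icc (-M) M, lv K c φ j := by
  unfold lv
  refine Finset.card_eq_sum_card_fiberwise fun x hx => ?_
  rw [mem_coe, mem_Icc]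
  exact abs_le.1 (hM x hx)

/-- a point on a level not divisible by odd numbers is visible -/
theorem vis_of_level {K : Finset (Fin n → ℤ)} (hK : LC K) {c : Fin n → ℤ}
    (hc : ∀ x, x ∈ K ↔ c - x ∈ K) (hodd : ¬ ∃ z, c = z + z) {x : Fin n → ℤ} (hx : x ∈ K)
    {φ : Fin n → ℤ} (h : φ ⬝ᵥ vs c x = 1 ∨ φ ⬝ᵥ vs c x = 2 ∨ φ ⬝ᵥ vs c x = 4 ∨
      φ ⬝ᵥ vs c x = 8) : Pr (vs c x) := by
  obtain ⟨w, hw, hwp, m, hm, hmw⟩ := exists_ray hK hc hodd hx
  have h2 : φ ⬝ᵥ vs c x = (2 * m + 1) * (φ ⬝ᵥ vs c w) := by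
    rw [hmw, dotProduct_smul, smul_eq_mul]
  have h3 : 2 * m + 1 ∣ 8 := by
    have h4 : 2 * m + 1 ∣ φ ⬝ᵥ vs c x := ⟨_, h2⟩
    rcases h with h | h | h | h <;> rw [h] at h4
    · exact h4.trans (by norm_num)
    · exact h4.trans (by norm_num)
    · exact h4.trans (by norm_num)
    · exact h4
  have h4 : 2 * m + 1 ≤ 8 := Int.le_of_dvd (by norm_num) h3
  have h5 : m = 0 := by
    have h6 : m ≤ 3 := by omega
    interval_cases m
    · rfl
    · norm_num at h3
    · norm_num at h3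
    · norm_num at h3
  rw [hmw, h5]
  simpa using hwp

/-- cancellation of convolution -/
theorem conv_cancel {P U V : Finset (Fin n → ℤ)} (hP : P.Nonempty)
    (h : ∀ p, (P.filter (fun x => p - x ∈ U)).card = (P.filter (fun x => p - x ∈ V)).card) :
    U = V := by
  classical
  let e : Finset (Fin n → ℤ) → AddMonoidAlgebra ℤ (Fin n → ℤ) := fun A =>
    ∑ x ∈ A, AddMonoidAlgebra.single x 1
  have he : ∀ (A : Finset (Fin n → ℤ)) x, cf x (e A) = if x ∈ A then 1 else 0 := by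
    intro A x
    show cf x (∑ x ∈ A, AddMonoidAlgebra.single x 1) = _
    rw [map_sum]
    simp only [cf_single]
    rw [Finset.sum_ite_eq']
  have hm : ∀ (A : Finset (Fin n → ℤ)) p, cf p (e P * e A) =
      ((P.filter (fun x => p - x ∈ A)).card : ℤ) := by
    intro A p
    show cf p ((∑ x ∈ P, AddMonoidAlgebra.single x 1) * (∑ x ∈ A, AddMonoidAlgebra.single x 1)) = _
    rw [Finset.sum_mul_sum, map_sum, Finset.card_filter, Nat.cast_sum]
    refine Finset.sum_congr rfl fun x _ => ?_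
    rw [map_sum]
    have h1 : ∀ y ∈ A, cf p (AddMonoidAlgebra.single x (1 : ℤ) * AddMonoidAlgebra.single y 1) =
        if y = p - x then 1 else 0 := by
      intro y _
      rw [AddMonoidAlgebra.single_mul_single, one_mul, cf_single]
      have h2 : x + y = p ↔ y = p - x := by
        constructor
        · intro h
          rw [← h]
          abel
        · intro h
          rw [h]
          abel
      simp only [h2]
    rw [Finset.sum_congr rfl h1, Finset.sum_ite_eq']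
    split_ifs <;> rfl
  have h1 : e P * e U = e P * e V := by
    refine cf_ext fun p => ?_
    rw [hm, hm, h p]
  have h2 : e P ≠ 0 := by
    obtain ⟨x, hx⟩ := hP
    intro h3
    have h4 := he P x
    rw [h3, map_zero, if_pos hx] at h4
    exact zero_ne_one h4
  have h3 := mul_left_cancel₀ h2 h1
  ext x
  have h4 := he U x
  rw [h3, he V x] at h4
  by_cases h5 : x ∈ U
  · rw [if_pos h5] at h4
    by_cases h6 : x ∈ V
    · exact ⟨fun _ => h6, fun _ => h5⟩
    · rw [if_neg h6] at h4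
      exact absurd h4 (by norm_num)
  · rw [if_neg h5] at h4
    by_cases h6 : x ∈ V
    · rw [if_pos h6] at h4
      exact absurd h4 (by norm_num)
    · exact ⟨fun h => absurd h h5, fun h => absurd h h6⟩

end Pool.Agent.Lib.MP_8cf263_co
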