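import Pool.Agent.Lib.MP_8cf263_co.Fibres

/-!
# Discrete Aleksandrov projection problem: sets all of whose lines in one direction are long, III
-/

set_option autoImplicit false

namespace Pool.Agent.Lib.MP_8cf263_co

open Finset

variable {n : ℕ}

theorem not_central (hn : 2 ≤ n) {K : Finset (Fin n → ℤ)} {c e : Fin n → ℤ} (he : Pr e)
    (htop : affineSpan ℝ (em '' (K : Set (Fin n → ℤ))) = ⊤) :
    ∃ x ∈ K, ∃ i j, vs c x i * e j ≠ vs c x j * e i := by
  by_contra hcon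
  push Not at hcon
  obtain ⟨g, hg0, hg⟩ := exists_ker hn e
  have hge : em g ⬝ᵥ em e = 0 := by
    rw [em_dot]
    have h1 : ∑ i, g i * e i = ∑ i, e i * g i := sum_congr rfl fun i _ => mul_comm _ _
    rw [h1, hg]
    exact Int.cast_zero
  have h1 : ∀ x ∈ K, em g ⬝ᵥ em x = (em g ⬝ᵥ em c) / 2 := by
    intro x hx
    obtain ⟨t, ht⟩ := par_of_minors he (d := vs c x) (hcon x hx)
    have h2 : em g ⬝ᵥ em (vs c x) = 0 := by
      rw [ht, em_smul_int, dotProduct_smul, hge, smul_zero]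
    rw [em_vs, dotProduct_sub, dotProduct_smul, smul_eq_mul] at h2
    linarith
  have h2 := not_const htop h1 (em g)
  rw [em_dot] at h2
  have h3 := sq_pos hg0
  have h4 : (0 : ℝ) < ((∑ i, g i * g i : ℤ) : ℝ) := by exact_mod_cast h3
  linarith

/-- **Long lines in one direction.** -/
theorem long_fibres {k : ℕ} (hn : 2 ≤ n) (hk : k ≠ 0) {K L : Finset (Fin n → ℤ)} (hK : LC K)
    (hL : LC L) (htop : affineSpan ℝ (em '' (K : Set (Fin n → ℤ))) = ⊤) {c c' : Fin n → ℤ}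
    (hc : ∀ x, x ∈ K ↔ c - x ∈ K) (hc' : ∀ x, x ∈ L ↔ c' - x ∈ L)
    (hpr : ∀ u : Fin n → ℤ, u ≠ 0 → (K.image (pj u)).card = (L.image (pj u)).card)
    {e : Fin n → ℤ} (he : Pr e) {M T : ℕ}
    (hM : ∀ x ∈ K, ∀ y ∈ K, ∀ i j, |(x i - y i) * e j - (x j - y j) * e i| ≤ (M : ℤ))
    (hMT : 4 ^ k * Cg k * M ≤ T ^ k)
    (hT : ∀ x ∈ K, ∃ F : Finset (Fin n → ℤ), (∀ y ∈ F, y ∈ K ∧ ∃ t : ℤ, y = x + t • e) ∧
      T ≤ F.card) :
    ∃ v : Fin n → ℤ, L = K.image (fun x => x + v) := by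
  classical
  refine reduce hn hK hL hc hc' hpr fun L' hTw => ?_
  have hnot := not_central (c := c) hn he htop
  have hene : e ≠ 0 := he.ne_zero
  -- minors of sums
  have hminor : ∀ x ∈ K, ∀ y ∈ K, ∀ i j,
      |(x + y - c) i * e j - (x + y - c) j * e i| ≤ (M : ℤ) := by
    intro x hx y hy i j
    have h1 := hM x hx _ ((hc y).1 hy) i j
    have h2 : (x + y - c) i * e j - (x + y - c) j * e i =
        (x i - (c - y) i) * e j - (x j - (c - y) j) * e i := by
      simp only [Pi.add_apply, Pi.sub_apply]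
      ring
    rw [h2]
    exact h1
  have hvs : ∀ x : Fin n → ℤ, x + x - c = vs c x := by
    intro x
    funext i
    simp only [vs, Pi.sub_apply, Pi.add_apply]
    ring
  -- `M ≥ 1`
  have hM1 : 1 ≤ M := by
    obtain ⟨x, hx, i, j, hij⟩ := hnot
    have h1 := hminor x hx x hx i j
    rw [hvs] at h1
    by_contra hcon
    have h2 : M = 0 := by omega
    rw [h2, Nat.cast_zero, abs_nonpos_iff, sub_eq_zero] at h1
    exact hij h1
  -- `T ≥ 4`
  have hCg : 1 ≤ Cg k := by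
    unfold Cg
    exact Nat.one_le_pow _ _ (by positivity)
  have hT4 : 4 ≤ T := by
    by_contra hcon
    push Not at hcon
    have h1 : T ^ k < 4 ^ k := Nat.pow_lt_pow_left hcon hk
    have h2 : 4 ^ k ≤ 4 ^ k * Cg k * M := by
      rw [mul_assoc]
      exact Nat.le_mul_of_pos_right _ (Nat.mul_pos hCg hM1)
    omega
  set J : ℕ := (T - 1) / 2 with hJ
  have hJ1 : 1 ≤ J := by omega
  have hJT : 2 * J + 1 ≤ T := by omega
  have hgood : ∀ m : ℕ, m ≠ 0 → m ≤ M → Good J m := by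
    intro m hm hmM
    refine good_of_pow hk hm ?_
    have h1 : T ^ k ≤ (4 * J) ^ k := Nat.pow_le_pow_left (by omega) k
    rw [mul_pow] at h1
    have h2 : 4 ^ k * (Cg k * m) ≤ 4 ^ k * J ^ k := by
      calc 4 ^ k * (Cg k * m) ≤ 4 ^ k * (Cg k * M) := by gcongr
        _ = 4 ^ k * Cg k * M := by ring
        _ ≤ _ := hMT.trans h1
    exact Nat.le_of_mul_le_mul_left h2 (by positivity)
  have hprim : ∀ x ∈ K, ∀ y ∈ K, (∃ i j, (x + y - c) i * e j ≠ (x + y - c) j * e i) →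
      ∀ s : ℤ, ∃ t : ℤ, s ≤ t ∧ t < s + J ∧ Pr (x + y - c + t • e) := by
    rintro x hx y hy ⟨i, j, hij⟩ s
    refine exists_prim he (i := i) (j := j) (hgood _ ?_ ?_) s
    · exact Int.natAbs_ne_zero.2 (sub_ne_zero.2 hij)
    · have h1 := hminor x hx y hy i j
      have h2 : (((x + y - c) i * e j - (x + y - c) j * e i).natAbs : ℤ) ≤ (M : ℤ) := by
        rw [Int.natCast_natAbs]
        exact h1
      exact_mod_cast h2
  -- runs in `K`
  have hrunK : Lr K e T := fun x hx hxe t h0 h1 => run_of_card hK hT hx hxe h0 h1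
  have hneg : ∀ t : ℤ, t • (-e) = (-t) • e := by
    intro t
    rw [smul_neg, neg_smul]
  have hrunK' : Lr K (-e) T := fun x hx hxe t h0 h1 => run_of_card hK (fun x hx => by
    obtain ⟨F, hF, hFT⟩ := hT x hx
    refine ⟨F, fun y hy => ⟨(hF y hy).1, ?_⟩, hFT⟩
    obtain ⟨t, ht⟩ := (hF y hy).2
    exact ⟨-t, by rw [hneg, neg_neg]; exact ht⟩) hx hxe h0 h1
  have hmono : ∀ e' : Fin n → ℤ, Lr K e' T → Lr K e' J := fun e' h x hx hxe t h0 h1 =>
    h x hx hxe t h0 (by omega)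
  -- runs in `L` on the lines not passing through the centre
  have hcent : ∀ x ∈ K, (∃ i j, vs c x i * e j ≠ vs c x j * e i) →
      ∃ s : ℤ, ∀ t : ℤ, s ≤ t → t ≤ s + J → x + t • e ∈ L' := by
    intro x hx hxm
    obtain ⟨s, hz, hze⟩ := left_end hene hx
    set z := x + s • e with hzdef
    have hzm : ∃ i j, (z + z - c) i * e j ≠ (z + z - c) j * e i := by
      obtain ⟨i, j, hij⟩ := hxm
      refine ⟨i, j, fun h1 => hij ?_⟩
      rw [hvs] at h1
      simp only [vs, hzdef, Pi.add_apply, Pi.smul_apply, smul_eq_mul] at h1 ⊢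
      linear_combination h1
    have hrun := hTw.run (x := z) (e := e) (J := J) (α := 0) (β := (T : ℤ) - 1)
      (fun t h0 h1 => hrunK z hz hze t h0 (by omega)) (hprim z hz z hz hzm)
    refine ⟨s + (J / 2 : ℕ), fun t h0 h1 => ?_⟩
    have h2 : x + t • e = z + (t - s) • e := by
      rw [hzdef, sub_smul]
      abel
    rw [h2]
    exact hrun _ (by omega) (by omega)
  -- runs in `L` on all lines meeting `K`
  have hall : ∀ x ∈ K, ∃ s : ℤ, ∀ t : ℤ, s ≤ t → t < s + J → x + t • e ∈ L' := by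
    intro x hx
    by_cases hxm : ∃ i j, vs c x i * e j ≠ vs c x j * e i
    · obtain ⟨s, hs⟩ := hcent x hx hxm
      exact ⟨s, fun t h0 h1 => hs t h0 h1.le⟩
    · push Not at hxm
      obtain ⟨γ, hγ⟩ := par_of_minors he (d := vs c x) hxm
      obtain ⟨z, hz, hzm⟩ := hnot
      obtain ⟨s, hs⟩ := hcent z hz hzm
      obtain ⟨r, hr1, hr2⟩ : ∃ r : ℤ, -(J : ℤ) ≤ γ + 2 * r ∧ γ + 2 * r ≤ -(J : ℤ) + 1 :=
        ⟨(-(J : ℤ) - γ + 1) / 2, by omega, by omega⟩
      refine ⟨r, fun t h0 h1 => ?_⟩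
      -- two points of `L` with midpoint `x + t e`
      obtain ⟨t1, t2, h11, h12, h21, h22, h3⟩ : ∃ t1 t2 : ℤ, s ≤ t1 ∧ t1 ≤ s + J ∧ s ≤ t2 ∧
          t2 ≤ s + J ∧ t1 - t2 = γ + 2 * t := by
        rcases le_total 0 (γ + 2 * t) with h4 | h4
        · exact ⟨s + J, s + J - (γ + 2 * t), by omega, by omega, by omega, by omega, by ring⟩
        · exact ⟨s + J + (γ + 2 * t), s + J, by omega, by omega, by omega, by omega, by ring⟩
      have h4 := hs t1 h11 h12
      have h5 := (hTw.sL _).1 (hs t2 h21 h22)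
      refine hTw.hL.comb h4 h5 (a := 1) (b := 1) (k := 2) (by norm_num) (by norm_num)
        (by norm_num) (by norm_num) ?_
      intro i
      have h6 := congrFun hγ i
      simp only [vs, Pi.smul_apply, smul_eq_mul] at h6
      simp only [Pi.add_apply, Pi.sub_apply, Pi.smul_apply, smul_eq_mul]
      linear_combination h6 - (e i) * h3
  have hKL : ∀ x ∈ K, ∃ t : ℤ, x + t • e ∈ L' := by
    intro x hx
    obtain ⟨s, hs⟩ := hall x hx
    exact ⟨s, hs s le_rfl (by omega)⟩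
  -- equal shadows
  have hLK : ∀ y ∈ L', ∃ t : ℤ, y + t • e ∈ K := by
    have hsub : K.image (pj e) ⊆ L'.image (pj e) := by
      intro z hz
      obtain ⟨x, hx, rfl⟩ := mem_image.1 hz
      obtain ⟨t, ht⟩ := hKL x hx
      refine mem_image.2 ⟨_, ht, ?_⟩
      exact (pj_eq he).2 ⟨t, rfl⟩
    have heq := eq_of_subset_of_card_le hsub (hTw.proj he).ge
    intro y hy
    have h1 : pj e y ∈ K.image (pj e) := by
      rw [heq]
      exact mem_image_of_mem _ hy
    obtain ⟨x, hx, hxy⟩ := mem_image.1 h1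
    obtain ⟨t, ht⟩ := (pj_eq he).1 hxy
    exact ⟨t, by rw [← ht]; exact hx⟩
  have hallL : ∀ y ∈ L', ∃ s : ℤ, ∀ t : ℤ, s ≤ t → t < s + J → y + t • e ∈ L' := by
    intro y hy
    obtain ⟨t, ht⟩ := hLK y hy
    obtain ⟨s, hs⟩ := hall _ ht
    refine ⟨s + t, fun r h0 h1 => ?_⟩
    have h2 : y + r • e = y + t • e + (r - t) • e := by
      rw [sub_smul]
      abel
    rw [h2]
    exact hs _ (by omega) (by omega)
  have hL1 : Lr L' e J := Lr.of_runs hTw.hL hJ1 hallL
  have hL2 : Lr L' (-e) J := by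
    refine Lr.of_runs hTw.hL hJ1 fun y hy => ?_
    obtain ⟨s, hs⟩ := hallL y hy
    refine ⟨-s - J + 1, fun t h0 h1 => ?_⟩
    rw [hneg]
    exact hs _ (by omega) (by omega)
  exact hTw.lines he (hmono _ hrunK) (hmono _ hrunK') hL1 hL2 hLK hKL hprim hnot

end Pool.Agent.Lib.MP_8cf263_co
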