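import Pool.Agent.Lib.MP_8cf263_co.Large

/-!
# Discrete Aleksandrov projection problem: dilates of polytopes with rational facet directions
-/

set_option autoImplicit false

namespace Pool.Agent.Lib.MP_8cf263_co

open Finset Filter Topology

variable {n : ℕ}

/-- generator of the ideal of values of an integer functional -/
theorem exists_gen {h : Fin n → ℤ} (hh : h ≠ 0) :
    ∃ (d : ℤ) (a : Fin n → ℤ), 0 < d ∧ ∑ i, h i * a i = d ∧ ∀ x : Fin n → ℤ, d ∣ ∑ i, h i * x i := by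
  obtain ⟨i0, hi0⟩ := Function.ne_iff.1 hh
  rw [Pi.zero_apply] at hi0
  obtain ⟨d, hd⟩ := (IsPrincipalIdealRing.principal (Ideal.span (Set.range h))).principal
  have hd' : Ideal.span (Set.range h) = Ideal.span {d} := hd
  have hdvd : ∀ i, d ∣ h i := by
    intro i
    have h1 : h i ∈ Ideal.span (Set.range h) := Ideal.subset_span ⟨i, rfl⟩
    rw [hd'] at h1
    exact Ideal.mem_span_singleton.1 h1
  have hd0 : d ≠ 0 := by
    intro h0
    apply hi0
    have h1 := hdvd i0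
    rw [h0] at h1
    exact zero_dvd_iff.1 h1
  have hmem : d ∈ Ideal.span (Set.range h) := by
    rw [hd']
    exact Ideal.mem_span_singleton_self d
  obtain ⟨a, ha⟩ := (Ideal.mem_span_range_iff_exists_fun).1 hmem
  have hall : ∀ x : Fin n → ℤ, d ∣ ∑ i, h i * x i := fun x =>
    Finset.dvd_sum fun i _ => Dvd.dvd.mul_right (hdvd i) _
  rcases lt_or_gt_of_ne hd0 with hneg | hpos
  · refine ⟨-d, fun i => -a i, by linarith, ?_, fun x => (neg_dvd).2 (hall x)⟩
    rw [← ha, ← Finset.sum_neg_distrib]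
    exact Finset.sum_congr rfl fun i _ => by ring
  · refine ⟨d, a, hpos, ?_, hall⟩
    rw [← ha]
    exact Finset.sum_congr rfl fun i _ => by ring

theorem ev_sqrt (A B ε : ℝ) (hε : 0 < ε) : ∀ᶠ N : ℝ in atTop, A + √N * B ≤ N * ε := by
  have h1 : Tendsto (fun N : ℝ => √N) atTop atTop := Real.tendsto_sqrt_atTop
  filter_upwards [h1.eventually_ge_atTop ((|A| + |B|) / ε), h1.eventually_ge_atTop 1,
    eventually_ge_atTop 0] with N h2 h3 h4
  have h5 : |A| + |B| ≤ √N * ε := by rwa [div_le_iff₀ hε] at h2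
  have h6 : √N * √N = N := Real.mul_self_sqrt h4
  calc A + √N * B ≤ √N * |A| + √N * |B| := by
        have h7 : A ≤ √N * |A| := (le_abs_self A).trans (le_mul_of_one_le_left (abs_nonneg A) h3)
        have h8 : √N * B ≤ √N * |B| := mul_le_mul_of_nonneg_left (le_abs_self B) (by linarith)
        linarith
    _ = √N * (|A| + |B|) := by ring
    _ ≤ √N * (√N * ε) := mul_le_mul_of_nonneg_left h5 (by linarith)
    _ = N * ε := by rw [← mul_assoc, h6]

theorem abs_dot_le (h : Fin n → ℝ) (y : Fin n → ℝ) {B : ℝ} (hy : ∀ i, |y i| ≤ B) :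
    |h ⬝ᵥ y| ≤ (∑ i, |h i|) * B := by
  unfold dotProduct
  calc |∑ i, h i * y i| ≤ ∑ i, |h i * y i| := Finset.abs_sum_le_sum_abs _ _
    _ ≤ ∑ i, |h i| * B := Finset.sum_le_sum fun i _ => by
        rw [abs_mul]
        exact mul_le_mul_of_nonneg_left (hy i) (abs_nonneg _)
    _ = (∑ i, |h i|) * B := (Finset.sum_mul _ _ _).symm

/-- the top face in a facet direction -/
theorem top_face (hn : 2 ≤ n) {m : ℕ} (h : Fin m → Fin n → ℤ) (b : Fin m → ℝ) (hb : ∀ j, 0 < b j)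
    (j : Fin m) (g : Fin n → ℝ) (hg : em (h j) ⬝ᵥ g = b j)
    (hgi : ∀ i, i ≠ j → |em (h i) ⬝ᵥ g| < b i) :
    ∀ᶠ N : ℝ in atTop, ∀ c : Fin n → ℤ, ∃ ν : ℝ, 0 < ν ∧ ν ≤ 2 * N * b j ∧
      (∀ x : Fin n → ℤ, em (h j) ⬝ᵥ em (vs c x) ≤ 2 * N * b j → em (h j) ⬝ᵥ em (vs c x) ≤ ν) ∧
      ∃ z e : Fin n → ℤ, e ≠ 0 ∧ ∀ t : ℕ, (t : ℝ) ≤ √N →
        em (h j) ⬝ᵥ em (vs c (z + (t : ℤ) • e)) = ν ∧
        ∀ i, |em (h i) ⬝ᵥ em (vs c (z + (t : ℤ) • e))| ≤ 2 * N * b i := by
  have hhj : h j ≠ 0 := by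
    intro h0
    have h1 := hb j
    rw [← hg, h0] at h1
    have h2 : em (0 : Fin n → ℤ) = 0 := by
      funext i
      simp [em]
    rw [h2, zero_dotProduct] at h1
    exact lt_irrefl _ h1
  obtain ⟨d, a, hd, ha, hdvd⟩ := exists_gen hhj
  obtain ⟨e, he0, he⟩ := exists_ker hn (h j)
  have hdr : (0 : ℝ) < d := by exact_mod_cast hd
  set S : Fin m → ℝ := fun i => ∑ l, |em (h i) l| with hS
  have hS0 : ∀ i, 0 ≤ S i := fun i => Finset.sum_nonneg fun l _ => abs_nonneg _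
  set A1 : ℝ := ∑ l, |em a l| with hA1
  set E1 : ℝ := ∑ l, |em e l| with hE1
  have hA1l : ∀ l, |em a l| ≤ A1 := fun l =>
    Finset.single_le_sum (f := fun l => |em a l|) (fun _ _ => abs_nonneg _) (mem_univ l)
  have hE1l : ∀ l, |em e l| ≤ E1 := fun l =>
    Finset.single_le_sum (f := fun l => |em e l|) (fun _ _ => abs_nonneg _) (mem_univ l)
  have hA10 : 0 ≤ A1 := Finset.sum_nonneg fun l _ => abs_nonneg _
  have hE10 : 0 ≤ E1 := Finset.sum_nonneg fun l _ => abs_nonneg _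
  set B2 : ℝ := 1 + (1 + S j) * A1 with hB2
  have hev : ∀ᶠ N : ℝ in atTop, ∀ i, i ≠ j →
      S i * B2 + √N * (S i * E1) ≤ N * (b i - |em (h i) ⬝ᵥ g|) := by
    rw [Filter.eventually_all]
    intro i
    by_cases hi : i = j
    · exact Filter.Eventually.of_forall fun N h1 => absurd hi h1
    · have h1 : 0 < b i - |em (h i) ⬝ᵥ g| := by linarith [hgi i hi]
      filter_upwards [ev_sqrt (S i * B2) (S i * E1) _ h1] with N h2 _
      exact h2
  filter_upwards [hev, eventually_ge_atTop 0, eventually_ge_atTop ((d : ℝ) / b j)] with N hN hN0 hNd c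
  have hNb : (d : ℝ) ≤ N * b j := by rwa [div_le_iff₀ (hb j)] at hNd
  -- the top level
  set G : Fin n → ℝ := N • g + (1 / 2 : ℝ) • em c with hG
  have hjG : em (h j) ⬝ᵥ G = N * b j + (1 / 2) * (em (h j) ⬝ᵥ em c) := by
    rw [hG, dotProduct_add, dotProduct_smul, dotProduct_smul, hg, smul_eq_mul, smul_eq_mul]
  set q : ℤ := ⌊(em (h j) ⬝ᵥ G) / d⌋ with hq
  have hq1 : (q : ℝ) * d ≤ em (h j) ⬝ᵥ G := by
    have := Int.floor_le ((em (h j) ⬝ᵥ G) / d)
    rwa [le_div_iff₀ hdr] at this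
  have hq2 : em (h j) ⬝ᵥ G < (q + 1) * d := by
    have := Int.lt_floor_add_one ((em (h j) ⬝ᵥ G) / d)
    rwa [div_lt_iff₀ hdr] at this
  -- rounding
  set z1 : Fin n → ℤ := fun l => ⌊G l⌋ with hz1
  have hz1G : ∀ l, |em z1 l - G l| ≤ 1 := by
    intro l
    have h1 := Int.floor_le (G l)
    have h2 := Int.lt_floor_add_one (G l)
    rw [abs_le]
    constructor
    · show -1 ≤ ((⌊G l⌋ : ℤ) : ℝ) - G l
      linarith
    · show ((⌊G l⌋ : ℤ) : ℝ) - G l ≤ 1
      linarith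
  obtain ⟨r, hr⟩ := hdvd z1
  have hrr : em (h j) ⬝ᵥ em z1 = (d : ℝ) * r := by
    rw [em_dot, hr]
    push_cast
    rfl
  have hdiff : |(d : ℝ) * r - em (h j) ⬝ᵥ G| ≤ S j := by
    rw [← hrr, ← dotProduct_sub]
    have h1 := abs_dot_le (em (h j)) (em z1 - G) (B := 1) (fun l => hz1G l)
    rw [mul_one] at h1
    exact h1
  have hqr : |((q - r : ℤ) : ℝ)| ≤ 1 + S j := by
    have h1 : |(d : ℝ) * ((q - r : ℤ) : ℝ)| ≤ d + S j := by
      have h2 : (d : ℝ) * ((q - r : ℤ) : ℝ) = ((q : ℝ) * d - em (h j) ⬝ᵥ G) -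
          ((d : ℝ) * r - em (h j) ⬝ᵥ G) := by
        push_cast
        ring
      rw [h2]
      refine (abs_sub _ _).trans ?_
      have h3 : |(q : ℝ) * d - em (h j) ⬝ᵥ G| ≤ d := by
        rw [abs_le]
        constructor <;> linarith
      linarith
    rw [abs_mul, abs_of_pos hdr] at h1
    have h4 : (1 : ℝ) ≤ d := by exact_mod_cast hd
    have h5 : (d : ℝ) * |((q - r : ℤ) : ℝ)| ≤ d * (1 + S j) := by
      have := mul_le_mul_of_nonneg_right h4 (hS0 j)
      linarith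
    exact le_of_mul_le_mul_left h5 hdr
  set z : Fin n → ℤ := z1 + (q - r) • a with hz
  have hzG : ∀ l, |em z l - G l| ≤ B2 := by
    intro l
    have h1 : em z l - G l = (em z1 l - G l) + ((q - r : ℤ) : ℝ) * em a l := by
      rw [hz, em_add, em_smul_int, Pi.add_apply, Pi.smul_apply, smul_eq_mul]
      ring
    rw [h1]
    refine (abs_add_le _ _).trans ?_
    rw [abs_mul]
    have h2 := mul_le_mul hqr (hA1l l) (abs_nonneg _) (by linarith [hS0 j])
    have h3 := hz1G l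
    linarith
  have hjz : em (h j) ⬝ᵥ em z = (d : ℝ) * q := by
    rw [hz, em_add, em_smul_int, dotProduct_add, dotProduct_smul, hrr, em_dot (h j) a, ha,
      smul_eq_mul]
    push_cast
    ring
  have hje : em (h j) ⬝ᵥ em e = 0 := by
    rw [em_dot, he]
    exact Int.cast_zero
  have hval : ∀ t : ℕ, em (h j) ⬝ᵥ em (vs c (z + (t : ℤ) • e)) =
      2 * ((d : ℝ) * q) - em (h j) ⬝ᵥ em c := by
    intro t
    rw [em_vs, em_add, em_smul_int, dotProduct_sub, dotProduct_smul, dotProduct_add,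
      dotProduct_smul, hje, hjz, smul_zero, add_zero, smul_eq_mul]
  have hν1 : 2 * ((d : ℝ) * q) - em (h j) ⬝ᵥ em c ≤ 2 * N * b j := by
    rw [hjG] at hq1
    linarith
  have hν0 : 0 < 2 * ((d : ℝ) * q) - em (h j) ⬝ᵥ em c := by
    rw [hjG] at hq2
    linarith
  refine ⟨2 * ((d : ℝ) * q) - em (h j) ⬝ᵥ em c, hν0, hν1, ?_, z, e, he0, ?_⟩
  · intro x hx
    obtain ⟨s, hs⟩ := hdvd x
    have hxs : em (h j) ⬝ᵥ em x = (d : ℝ) * s := by
      rw [em_dot, hs]
      push_cast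
      rfl
    rw [em_vs, dotProduct_sub, dotProduct_smul, smul_eq_mul, hxs] at hx ⊢
    have h1 : (d : ℝ) * s ≤ em (h j) ⬝ᵥ G := by
      rw [hjG]
      linarith
    have h2 : (s : ℝ) < q + 1 := by
      have h3 : (d : ℝ) * s < d * (q + 1) := by linarith
      exact lt_of_mul_lt_mul_left h3 hdr.le
    have h3 : s ≤ q := by
      have h4 : s < q + 1 := by exact_mod_cast h2
      omega
    have h4 : (s : ℝ) ≤ q := by exact_mod_cast h3
    have h5 := mul_le_mul_of_nonneg_left h4 hdr.le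
    linarith
  · intro t ht
    refine ⟨hval t, fun i => ?_⟩
    by_cases hi : i = j
    · rw [hi, hval, abs_le]
      constructor
      · linarith
      · exact hν1
    · have h1 := hN i hi
      have h2 : em (vs c (z + (t : ℤ) • e)) = (2 * N) • g +
          ((2 : ℝ) • (em z - G) + (2 * (t : ℝ)) • em e) := by
        rw [em_vs, em_add, em_smul_int, hG]
        push_cast
        module
      rw [h2, dotProduct_add, dotProduct_smul, smul_eq_mul]
      have h3 : |em (h i) ⬝ᵥ ((2 : ℝ) • (em z - G) + (2 * (t : ℝ)) • em e)| ≤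
          S i * (2 * B2 + 2 * √N * E1) := by
        refine abs_dot_le _ _ fun l => ?_
        rw [Pi.add_apply, Pi.smul_apply, Pi.smul_apply, Pi.sub_apply, smul_eq_mul, smul_eq_mul]
        refine (abs_add_le _ _).trans ?_
        rw [abs_mul, abs_two, abs_mul, abs_of_nonneg (by positivity : (0 : ℝ) ≤ 2 * (t : ℝ))]
        have h4 := hzG l
        have h5 : 2 * (t : ℝ) * |em e l| ≤ 2 * √N * E1 :=
          mul_le_mul (by linarith) (hE1l l) (abs_nonneg _) (by positivity)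
        linarith
      have h6 := abs_add_le (2 * N * (em (h i) ⬝ᵥ g))
        (em (h i) ⬝ᵥ ((2 : ℝ) • (em z - G) + (2 * (t : ℝ)) • em e))
      have h7 : |2 * N * (em (h i) ⬝ᵥ g)| = 2 * N * |em (h i) ⬝ᵥ g| := by
        rw [abs_mul, abs_of_nonneg (by positivity : (0 : ℝ) ≤ 2 * N)]
      rw [h7] at h6
      have h8 : S i * (2 * B2 + 2 * √N * E1) = 2 * (S i * B2 + √N * (S i * E1)) := by ring
      rw [h8] at h3
      linarith

end Pool.Agent.Lib.MP_8cf263_co
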