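import Pool.Agent.Lib.MP_8cf263_co.RdLevel

/-!
# Round sets, file RdShallow: the shallow case with exponents

`shallow`.  Let `A = (θ + 1) (m + 2)`, `g = (A + 1) (m + 2) + 1`, `q = 2 g + 1`, and let `X₂` be an
integer `≥ 4, 4 / μ`.
Proof.  Put `ρ = X ^ θ`.  `4 (T - mg Φ m (em p)) ≤ 4 X ^ θ ≤ μ X ^ (2 θ) = μ ρ ^ 2`, since
`μ X ^ θ ≥ μ X ≥ 4` (`1 ≤ θ`).  `ρ + 1 ≤ X ^ (θ + 1)`, so `(ρ + 1) ^ (m + 2) ≤ X ^ A` and
`2 (ρ + 1) ^ (m + 2) + 1 ≤ X ^ (A + 1) ≤ X ^ q ≤ r`.  By `level_le` the level of `p` in `K ∪ L` has at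
most `G = (ρ + 1) ^ (m + 2) + ((ρ + 1) ^ (m + 2) + J + 2) ^ (m + 2)` elements, and
`G ≤ X ^ A + (X ^ A + X + 2) ^ (m + 2) ≤ X ^ A + (X ^ (A + 1)) ^ (m + 2) ≤ X ^ g`
(`X ^ A + X + 2 ≤ 3 X ^ A ≤ X ^ (A + 1)`, `A ≥ 1`).  `skew` gives `M₀` with
`M₀ ≤ G ^ 2 + 1 ≤ X ^ (2 g) + 1 ≤ X ^ q`.
-/

set_option autoImplicit false

namespace Pool.Agent.Lib.MP_8cf263_co

open Finset

private theorem shallow_num {X θ m J : ℕ} (hX : 4 ≤ X) (hJ : J ≤ X) (hθ : 1 ≤ θ) :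
    2 * (X ^ θ + 1) ^ (m + 2) + 1 ≤ X ^ (2 * (((θ + 1) * (m + 2) + 1) * (m + 2) + 1) + 1) ∧
    (X ^ θ + 1) ^ (m + 2) + ((X ^ θ + 1) ^ (m + 2) + J + 2) ^ (m + 2) ≤
      X ^ (((θ + 1) * (m + 2) + 1) * (m + 2) + 1) := by
  set A : ℕ := (θ + 1) * (m + 2) with hA
  have hXpos : 0 < X := by omega
  have hX1 : 1 ≤ X := hXpos
  have hA1 : 1 ≤ A := by
    rw [hA]
    exact Nat.mul_pos (by omega) (by omega)
  have h1 : X ^ θ + 1 ≤ X ^ (θ + 1) := by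
    have h := Nat.one_le_pow θ X hXpos
    rw [pow_succ]
    nlinarith
  have h2 : (X ^ θ + 1) ^ (m + 2) ≤ X ^ A := by
    rw [hA, pow_mul]
    exact Nat.pow_le_pow_left h1 _
  have hXA : X ≤ X ^ A := by
    calc X = X ^ 1 := (pow_one X).symm
      _ ≤ X ^ A := Nat.pow_le_pow_right hXpos hA1
  constructor
  · calc 2 * (X ^ θ + 1) ^ (m + 2) + 1 ≤ 2 * X ^ A + 1 := by omega
      _ ≤ X ^ (A + 1) := by
          rw [pow_succ]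
          nlinarith
      _ ≤ X ^ (2 * ((A + 1) * (m + 2) + 1) + 1) := by
          refine Nat.pow_le_pow_right hXpos ?_
          nlinarith
  · have h3 : (X ^ θ + 1) ^ (m + 2) + J + 2 ≤ X ^ (A + 1) := by
      rw [pow_succ X A]
      nlinarith
    have h4 : ((X ^ θ + 1) ^ (m + 2) + J + 2) ^ (m + 2) ≤ X ^ ((A + 1) * (m + 2)) := by
      rw [pow_mul]
      exact Nat.pow_le_pow_left h3 _
    have h5 : X ^ A ≤ X ^ ((A + 1) * (m + 2)) := by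
      refine Nat.pow_le_pow_right hXpos ?_
      nlinarith
    calc (X ^ θ + 1) ^ (m + 2) + ((X ^ θ + 1) ^ (m + 2) + J + 2) ^ (m + 2)
        ≤ X ^ ((A + 1) * (m + 2)) + X ^ ((A + 1) * (m + 2)) := by omega
      _ ≤ X ^ ((A + 1) * (m + 2) + 1) := by
          rw [pow_succ]
          have := Nat.one_le_pow ((A + 1) * (m + 2)) X hXpos
          nlinarith

theorem shallow (m kap θ : ℕ) (hθ : 1 ≤ θ) {μ M : ℝ} (hμ : 0 < μ) : ∃ q X₂ : ℕ,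
    ∀ (K L : Finset (Fin (m + 2) → ℤ)) (c : Fin (m + 2) → ℤ) (R r J : ℕ)
      (Φ : (Fin (m + 2) → ℝ) → ℝ) (T b : ℝ) (p : Fin (m + 2) → ℤ) (X : ℕ),
      TwF K L c R r J kap → SDn Φ μ M → (∀ x, b ≤ Φ x) → (∀ x, x ∈ K ↔ Φ (em x) ≤ T) →
      X₂ ≤ X → J ≤ X → X ^ q ≤ r → T - mg Φ m (em p) < (X : ℝ) ^ θ →
      ∃ M₀ : ℕ, 1 ≤ M₀ ∧ M₀ ≤ X ^ q ∧
        ∀ x ∈ (K ∪ L).filter (fun x => ∀ i : Fin (m + 2), i.1 < m → x i = p i), ∀ t : ℤ,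
          x + t • (FC M₀).e m ∈ (K ∪ L).filter (fun x => ∀ i : Fin (m + 2), i.1 < m → x i = p i) →
          t = 0 := by
  obtain ⟨X₂, hX₂⟩ := exists_nat_ge (max 4 (4 / μ))
  refine ⟨2 * (((θ + 1) * (m + 2) + 1) * (m + 2) + 1) + 1, X₂, ?_⟩
  intro K L c R r J Φ T b p X h hΦ hb hK hX hJ hr hT
  have hX4R : (4 : ℝ) ≤ X := (le_max_left _ _).trans (hX₂.trans (by exact_mod_cast hX))
  have hXμ : 4 / μ ≤ (X : ℝ) := (le_max_right _ _).trans (hX₂.trans (by exact_mod_cast hX))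
  have hX4 : 4 ≤ X := by exact_mod_cast hX4R
  obtain ⟨hn1, hn2⟩ := shallow_num (m := m) hX4 hJ hθ
  have hμX : 4 ≤ μ * X := by
    have := (div_le_iff₀ hμ).1 hXμ
    linarith
  have hpow : (X : ℝ) ≤ (X : ℝ) ^ θ := by
    calc (X : ℝ) = (X : ℝ) ^ 1 := (pow_one _).symm
      _ ≤ (X : ℝ) ^ θ := pow_le_pow_right₀ (by linarith) hθ
  have hρ : 4 * (T - mg Φ m (em p)) ≤ μ * (((X ^ θ : ℕ) : ℕ) : ℝ) ^ 2 := by
    push_cast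
    have h1 : 4 ≤ μ * (X : ℝ) ^ θ := hμX.trans (mul_le_mul_of_nonneg_left hpow hμ.le)
    have h2 : (0 : ℝ) ≤ (X : ℝ) ^ θ := by positivity
    have h3 : 4 * (X : ℝ) ^ θ ≤ μ * (X : ℝ) ^ θ * (X : ℝ) ^ θ := mul_le_mul_of_nonneg_right h1 h2
    nlinarith
  have hlev := level_le h hΦ hμ hb hK p hρ (hn1.trans hr)
  obtain ⟨M₀, hM1, hM2, hM3⟩ := skew
    ((K ∪ L).filter (fun x => ∀ i : Fin (m + 2), i.1 < m → x i = p i)) (hlev.trans hn2)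
  refine ⟨M₀, hM1, hM2.trans ?_, hM3⟩
  set g : ℕ := ((θ + 1) * (m + 2) + 1) * (m + 2) + 1 with hg
  have hXpos : 0 < X := by omega
  have h1 := Nat.one_le_pow (2 * g) X hXpos
  rw [← pow_mul, mul_comm g 2, pow_succ]
  nlinarith

end Pool.Agent.Lib.MP_8cf263_co
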