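import Pool.Agent.Lib.MP_8cf263_co.RdLines
import Pool.Agent.Lib.MP_8cf263_co.RdTop

/-!
# Round sets, file RdTiny: the highest level of `K Δ L` cannot be shallow

`tinyC`.  Let `p ∈ K Δ L` with `hmax` and let `M₀ ≥ 1` be such that `x, x + t • e` in the level of `p` in
`K ∪ L` implies `t = 0`, `e = (FC M₀).e m`.  If there is a pole for the frame `FC M₀` (`N > 10 M₀ R`)
we get a contradiction.
Proof.  Take `p'` from `top_point` (`Q = M₀`, `FC_le`).  By `TwF.lines` with `Q = ∅`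
`Cl K L e p' (Wq .. 0)`.  `Cl.memK`, `Cl.memL` give `t`, `t'` with `p' + t • e ∈ K \ L` and
`p' + t' • e ∈ L \ K`; both are in the level of `p` in `K ∪ L` (`Fr.low_e`), so by hypothesis
`t' - t = 0`, a contradiction.
-/

set_option autoImplicit false

namespace Pool.Agent.Lib.MP_8cf263_co

open Finset

variable {m : ℕ} {K L : Finset (Fin (m + 2) → ℤ)} {c : Fin (m + 2) → ℤ} {R r J kap : ℕ}

theorem tinyC (h : TwF K L c R r J kap) {M₀ : ℕ} (hM₀ : 1 ≤ M₀) {N : ℤ}
    (hN : 10 * M₀ * R < N) {p : Fin (m + 2) → ℤ} (hp : Df K L p)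
    (hmax : ∀ x, Df K L x → ¬ ∃ j : Fin (m + 2), j.1 < m ∧ (∀ i : Fin (m + 2), i < j → x i = p i) ∧
      p j < x j)
    (hsk : ∀ x ∈ (K ∪ L).filter (fun x => ∀ i : Fin (m + 2), i.1 < m → x i = p i), ∀ t : ℤ,
      x + t • (FC M₀).e m ∈ (K ∪ L).filter (fun x => ∀ i : Fin (m + 2), i.1 < m → x i = p i) →
      t = 0)
    {a : Fin (m + 2) → ℤ} {E ell : ℕ}
    (hP : Pole K L c (lfh m N (FC M₀)) ((FC M₀).e m) a E ell)
    (hee : ∀ i, |(FC M₀).e m i| * (64 * (kap * J : ℕ)) ≤ r)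
    (hell : 6 * Wq E J (JJ kap J) 2 + 2 ≤ ell) : False := by
  obtain ⟨p', hp', hlev, hmx, hc⟩ := top_point h (FC_le hM₀) hM₀ hN hp hmax
  have hcl : Cl K L ((FC M₀).e m) p' (Wq E J (JJ kap J) 0) := by
    refine h.lines hP hee hell 0 (by norm_num) p' ∅ rfl hp' hc ?_ ?_ ?_
    · intro x hx
      exact absurd hx (Finset.notMem_empty x)
    · intro x hx
      exact absurd hx (by simp)
    · intro x hx hlt
      exact absurd hlt (not_lt.2 (hmx x hx))
  obtain ⟨t, ht1, ht2⟩ := hcl.memK hp'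
  obtain ⟨t', ht3, _⟩ := hcl.memL hp'
  have hmem : ∀ s : ℤ, p' + s • (FC M₀).e m ∈ K ∪ L → p' + s • (FC M₀).e m ∈
      (K ∪ L).filter (fun x => ∀ i : Fin (m + 2), i.1 < m → x i = p i) := by
    intro s hs
    rw [Finset.mem_filter]
    refine ⟨hs, fun i hi => ?_⟩
    rw [Pi.add_apply, Pi.smul_apply, Fr.low_e _ hi, smul_zero, add_zero]
    exact hlev i hi
  have h1 := hsk _ (hmem t (Finset.mem_union_left _ ht1)) (t' - t) (by
    have h2 : p' + t • (FC M₀).e m + (t' - t) • (FC M₀).e m = p' + t' • (FC M₀).e m := by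
      rw [add_assoc, ← add_smul]
      congr 2
      ring
    rw [h2]
    exact hmem t' (Finset.mem_union_right _ ht3))
  have h3 : t' = t := by linarith
  rw [h3] at ht3
  exact ht2 ht3

end Pool.Agent.Lib.MP_8cf263_co
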