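import Pool.Agent.Lib.MP_8cf263_co.RdDeep
import Pool.Agent.Lib.MP_8cf263_co.RdShallow
import Pool.Agent.Lib.MP_8cf263_co.RdTiny
import Pool.Agent.Lib.MP_8cf263_co.RdPole

/-!
# Round sets, file RdCore: the main argument
-/

set_option autoImplicit false

namespace Pool.Agent.Lib.MP_8cf263_co

open Finset

theorem core_thm (m kap C : ℕ) {μ M : ℝ} (hμ : 0 < μ) (hM : μ ≤ M) : ∃ β₁ J₁ : ℕ,
    ∀ (K L : Finset (Fin (m + 2) → ℤ)) (c : Fin (m + 2) → ℤ) (R r J : ℕ)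
      (Φ : (Fin (m + 2) → ℝ) → ℝ) (T b : ℝ), TwF K L c R r J kap → SDn Φ μ M → (∀ x, b ≤ Φ x) →
      (∀ x, x ∈ K ↔ Φ (em x) ≤ T) → J₁ ≤ J → (J : ℝ) ^ β₁ ≤ T - mg Φ 0 0 →
      T - mg Φ 0 0 ≤ C * (r : ℝ) ^ 2 → K = L := by
  obtain ⟨βA, eE, XA, HA⟩ := pole m 0 kap hμ hM
  obtain ⟨θ, X₁, hθ, HD⟩ := deep m kap eE hμ hM
  obtain ⟨q, X₂, HS⟩ := shallow m kap θ hθ (M := M) hμ
  obtain ⟨βB, eB, XB, HB⟩ := pole m q kap hμ hM
  obtain ⟨β₀, J₀, HSel⟩ := select (n := m + 2) hμ hM m (by omega) (2 * (βA + βB + q) + 1)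
  refine ⟨β₀, J₀ + XA + X₁ + X₂ + XB + C + 1, ?_⟩
  intro K L c R r J Φ T b h hΦ hb hK hJ hτ hr
  by_contra hne
  obtain ⟨a, X, hJX, habv, hX⟩ := HSel Φ K T b hΦ hb hK J (by omega) hτ
  obtain ⟨p, hp, hmax⟩ := exists_hmax h hne
  have hX1 : 1 ≤ X := by omega
  have hX1r : (1 : ℝ) ≤ X := by exact_mod_cast hX1
  have hCX : (C : ℝ) ≤ X := by
    have : C ≤ X := by omega
    exact_mod_cast this
  -- `X ^ (βA + βB + q) ≤ r`
  have hXr : X ^ (βA + βB + q) ≤ r := by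
    have h1 : (X : ℝ) ^ (2 * (βA + βB + q) + 1) ≤ X * (r : ℝ) ^ 2 := by
      refine hX.trans (le_trans (sub_le_sub_left (mg_mono hb m 0 (em a)) T) (hr.trans ?_))
      exact mul_le_mul_of_nonneg_right hCX (sq_nonneg _)
    have h2 : ((X : ℝ) ^ (βA + βB + q)) ^ 2 ≤ (r : ℝ) ^ 2 := by
      have h3 : (X : ℝ) ^ (2 * (βA + βB + q) + 1) = X * ((X : ℝ) ^ (βA + βB + q)) ^ 2 := by
        rw [← pow_mul]
        ring
      rw [h3] at h1
      exact le_of_mul_le_mul_left h1 (by linarith)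
    have h4 : (X : ℝ) ^ (βA + βB + q) ≤ r := by
      exact (pow_le_pow_iff_left₀ (by positivity) (by positivity) (by norm_num)).1 h2
    exact_mod_cast h4
  have hXle : ∀ k l : ℕ, k ≤ l → X ^ k ≤ X ^ l := fun k l hkl => Nat.pow_le_pow_right hX1 hkl
  have hXleR : ∀ k l : ℕ, k ≤ l → (X : ℝ) ^ k ≤ (X : ℝ) ^ l := fun k l hkl =>
    pow_le_pow_right₀ hX1r hkl
  -- the frames of the columns and rows
  have hN : (10 : ℤ) * (X ^ q : ℕ) * R < 10 * (X ^ q : ℕ) * R + 1 := by omega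
  have hXq : 1 ≤ X ^ q := Nat.one_le_pow _ _ hX1
  set N : ℤ := 10 * (X ^ q : ℕ) * R + 1 with hNdef
  have hN1 : (10 : ℤ) * (1 : ℕ) * R < N := by
    have h1 : (10 : ℤ) * (1 : ℕ) * R ≤ 10 * (X ^ q : ℕ) * R := by
      refine mul_le_mul_of_nonneg_right ?_ (by positivity)
      have : ((1 : ℕ) : ℤ) ≤ (X ^ q : ℕ) := by exact_mod_cast hXq
      linarith
    omega
  have hN2 : (10 : ℤ) * R < N := by
    have : (10 : ℤ) * (1 : ℕ) * R = 10 * R := by push_cast; ring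
    omega
  obtain ⟨aA, EA, lA, hPA, hlA, hWA, heA⟩ := HA K L c R r J Φ T b a X FA 1 N h hΦ hb hK (by omega)
    hJX habv ((hXleR _ _ (by omega)).trans hX) ((hXle _ _ (by omega)).trans hXr) FA_le le_rfl
    (by simp) hN1
  obtain ⟨aB, EB, lB, hPB, hlB, hWB, heB⟩ := HA K L c R r J Φ T b a X FB 1 N h hΦ hb hK (by omega)
    hJX habv ((hXleR _ _ (by omega)).trans hX) ((hXle _ _ (by omega)).trans hXr) FB_le le_rfl
    (by simp) hN1
  rcases le_or_gt ((X : ℝ) ^ θ) (T - mg Φ m (em p)) with hcase | hcase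
  · exact HD K L c R r J Φ T b N p aA aB X EA lA EB lB h hΦ hb hK hN2 hp hmax (by omega) hPA hlA
      hWA heA hPB hlB hWB heB hcase
  · obtain ⟨M₀, hM₀, hM₀X, hsk⟩ := HS K L c R r J Φ T b p X h hΦ hb hK (by omega) hJX
      ((hXle _ _ (by omega)).trans hXr) hcase
    have hN3 : (10 : ℤ) * (M₀ : ℕ) * R < N := by
      have h1 : (10 : ℤ) * (M₀ : ℕ) * R ≤ 10 * (X ^ q : ℕ) * R := by
        refine mul_le_mul_of_nonneg_right ?_ (by positivity)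
        have : ((M₀ : ℕ) : ℤ) ≤ (X ^ q : ℕ) := by exact_mod_cast hM₀X
        linarith
      omega
    obtain ⟨aC, EC, lC, hPC, hlC, hWC, heC⟩ := HB K L c R r J Φ T b a X (FC M₀) M₀ N h hΦ hb hK
      (by omega) hJX habv ((hXleR _ _ (by omega)).trans hX) ((hXle _ _ (by omega)).trans hXr)
      (FC_le hM₀) hM₀ hM₀X hN3
    exact tinyC h hM₀ hN3 hp hmax hsk hPC heC hlC

end Pool.Agent.Lib.MP_8cf263_co
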