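import Pool.Agent.Lib.MP_8cf263_co.RdDefs

/-!
# Round sets, file RdFat: large round lattice sets are fat

`SDn.near`: if `b ≤ Φ` and `Φ z₀ ≤ b + 1` then `Φ (z₀ + v) ≤ b + 2 + 2 M (v ⬝ᵥ v)`
(`h.up z₀ v` and `b ≤ Φ (z₀ - v)`).

`SDn.pair`: if `Φ x ≤ T`, `Φ y ≤ T` then `μ (x i - y i) ^ 2 ≤ 4 (T - b)` (`h.lo` at the midpoint with
`v = (1/2) • (x - y)`; `v ⬝ᵥ v ≥ v i ^ 2`).

`fat`.  Let `τ = T - b`, `R = ⌈2 √(τ / μ)⌉₊`, `r = ⌊√((τ - 2) / (2 M n))⌋₊ - 1`, `S = √(τ / (4 M n))`,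
`C` an integer `≥ 16 M n, 1800 / μ`, `kap` an integer `≥ 12 √(M n / μ)`, and `τ₀` so large that for
`τ ≥ τ₀` we have `τ ≥ 4`, `τ ≥ μ` and `S ≥ 4` (`τ₀ = 4 + μ + 64 M n`).
(1) `x ∈ K` implies `c - x ∈ K`, so by `SDn.pair` `μ (vs c x i) ^ 2 ≤ 4 τ`
(`em x i - em (c - x) i = vs c x i`), and `|vs c x i| ≤ 2 √(τ / μ) ≤ R`.
(2) Let `|vs c x i| ≤ r` for all `i`.  Put `d i = round (z₀ i - x i)`, `y = x + d`, `y' = y - vs c x`.
Then `|y i - z₀ i| ≤ 1 / 2` and `|y' i - z₀ i| ≤ r + 1 / 2`, and for both of them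
`v ⬝ᵥ v ≤ n (r + 1) ^ 2 ≤ (τ - 2) / (2 M)`, so by `SDn.near` `Φ ≤ T`, i.e. `y, y' ∈ K`.  Now
`c - y' = x - d ∈ K` and `x` is the midpoint of `x + d` and `x - d`, so `x ∈ K` (`LC.comb` with
`a = b = 1`, `k = 2`).  (`r + 1 ≤ ⌊√((τ - 2) / (2 M n))⌋` because this number is at least `1`.)
(3) `(τ - 2) / (2 M n) ≥ τ / (4 M n) = S ^ 2`, so `r ≥ S - 2 ≥ S / 2` and `r ^ 2 ≥ τ / (16 M n)`,
`τ ≤ C r ^ 2`.  `R ≤ 2 √(τ / μ) + 1 ≤ 3 √(τ / μ)`, so `200 R ^ 2 ≤ 1800 τ / μ ≤ C τ` and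
`R ≤ 3 √(4 M n / μ) S ≤ 12 √(M n / μ) r ≤ kap r`.  `r ≤ √(τ / (2 M n)) ≤ √(τ / μ) ≤ R`.
-/

set_option autoImplicit false

namespace Pool.Agent.Lib.MP_8cf263_co

open Finset

variable {n : ℕ} {Φ : (Fin n → ℝ) → ℝ} {μ M b T : ℝ}

theorem SDn.near (h : SDn Φ μ M) (hb : ∀ x, b ≤ Φ x) {z₀ : Fin n → ℝ} (h0 : Φ z₀ ≤ b + 1)
    (v : Fin n → ℝ) : Φ (z₀ + v) ≤ b + 2 + 2 * M * (v ⬝ᵥ v) := by
  have h1 := h.up z₀ v
  have h2 := hb (z₀ - v)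
  linarith

theorem SDn.pair (h : SDn Φ μ M) (hμ : 0 ≤ μ) (hb : ∀ x, b ≤ Φ x) {x y : Fin n → ℝ} (hx : Φ x ≤ T)
    (hy : Φ y ≤ T) (i : Fin n) : μ * (x i - y i) ^ 2 ≤ 4 * (T - b) := by
  have hlo := h.lo ((1 / 2 : ℝ) • (x + y)) ((1 / 2 : ℝ) • (x - y))
  have e1 : (1 / 2 : ℝ) • (x + y) + (1 / 2 : ℝ) • (x - y) = x := by
    funext i
    simp only [Pi.add_apply, Pi.smul_apply, Pi.sub_apply, smul_eq_mul]
    ring
  have e2 : (1 / 2 : ℝ) • (x + y) - (1 / 2 : ℝ) • (x - y) = y := by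
    funext i
    simp only [Pi.add_apply, Pi.smul_apply, Pi.sub_apply, smul_eq_mul]
    ring
  rw [e1, e2] at hlo
  have hz := hb ((1 / 2 : ℝ) • (x + y))
  have hv : (((1 / 2 : ℝ) • (x - y)) i) ^ 2 ≤ ((1 / 2 : ℝ) • (x - y)) ⬝ᵥ ((1 / 2 : ℝ) • (x - y)) := by
    have h1 : ((1 / 2 : ℝ) • (x - y)) i * ((1 / 2 : ℝ) • (x - y)) i ≤
        ∑ i, ((1 / 2 : ℝ) • (x - y)) i * ((1 / 2 : ℝ) • (x - y)) i :=
      Finset.single_le_sum (f := fun i => ((1 / 2 : ℝ) • (x - y)) i * ((1 / 2 : ℝ) • (x - y)) i)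
        (fun i _ => mul_self_nonneg _) (Finset.mem_univ i)
    rw [pow_two]
    exact h1
  have h4 : ((1 / 2 : ℝ) • (x - y)) i = (x i - y i) / 2 := by
    simp only [Pi.smul_apply, Pi.sub_apply, smul_eq_mul]
    ring
  rw [h4] at hv
  have hv' := mul_le_mul_of_nonneg_left hv (mul_nonneg (by norm_num : (0 : ℝ) ≤ 2) hμ)
  nlinarith [hv', hlo, hz, hx, hy]

private theorem fat_dot (v : Fin n → ℝ) {ρ : ℝ} (hv : ∀ i, |v i| ≤ ρ) :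
    v ⬝ᵥ v ≤ n * ρ ^ 2 := by
  have h1 : v ⬝ᵥ v ≤ ∑ _i : Fin n, ρ ^ 2 := by
    refine Finset.sum_le_sum fun i _ => ?_
    have h2 : v i * v i = |v i| ^ 2 := by rw [sq_abs, pow_two]
    rw [h2]
    exact pow_le_pow_left₀ (abs_nonneg _) (hv i) 2
  refine h1.trans (le_of_eq ?_)
  rw [Finset.sum_const, Finset.card_univ, Fintype.card_fin, nsmul_eq_mul]

/-- the core -/
private theorem fat_core {K : Finset (Fin n → ℤ)} {c : Fin n → ℤ} (h : SDn Φ μ M) (hM : 0 ≤ M)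
    (hb : ∀ x, b ≤ Φ x) {z₀ : Fin n → ℝ} (h0 : Φ z₀ ≤ b + 1) (hK : ∀ x, x ∈ K ↔ Φ (em x) ≤ T)
    (hLC : LC K) (hsym : ∀ x, x ∈ K ↔ c - x ∈ K) {r : ℕ}
    (hr : 2 * M * (n * ((r : ℝ) + 1) ^ 2) ≤ T - b - 2) {x : Fin n → ℤ}
    (hx : ∀ i, |vs c x i| ≤ r) : x ∈ K := by
  have key : ∀ y : Fin n → ℤ, (∀ i, |(y i : ℝ) - z₀ i| ≤ (r : ℝ) + 1) → y ∈ K := by
    intro y hy
    rw [hK]
    have h1 := h.near hb h0 (em y - z₀)
    rw [add_sub_cancel] at h1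
    have h2 : (em y - z₀) ⬝ᵥ (em y - z₀) ≤ n * ((r : ℝ) + 1) ^ 2 := fat_dot _ fun i => hy i
    have h3 := mul_le_mul_of_nonneg_left h2 (mul_nonneg (by norm_num : (0 : ℝ) ≤ 2) hM)
    linarith
  let d : Fin n → ℤ := fun i => round (z₀ i - x i)
  have hd : ∀ i, |z₀ i - x i - d i| ≤ 1 / 2 := fun i => abs_sub_round _
  have hr0 : (0 : ℝ) ≤ r := Nat.cast_nonneg r
  have hy : x + d ∈ K := by
    refine key _ fun i => ?_
    have h1 : ((x + d) i : ℝ) - z₀ i = -(z₀ i - x i - d i) := by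
      rw [Pi.add_apply]
      push_cast
      ring
    rw [h1, abs_neg]
    have := hd i
    linarith
  have hy' : c - (x - d) ∈ K := by
    refine key _ fun i => ?_
    have h1 : ((c - (x - d)) i : ℝ) - z₀ i = -(z₀ i - x i - d i) - ((vs c x i : ℤ) : ℝ) := by
      rw [Pi.sub_apply, Pi.sub_apply, vs]
      push_cast
      ring
    rw [h1]
    have h2 : |((vs c x i : ℤ) : ℝ)| ≤ r := by
      have := hx i
      exact_mod_cast this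
    have h3 := hd i
    have h4 := abs_sub (-(z₀ i - x i - d i)) ((vs c x i : ℤ) : ℝ)
    rw [abs_neg] at h4
    linarith
  have hy2 : x - d ∈ K := (hsym _).2 hy'
  refine hLC.comb hy hy2 (a := 1) (b := 1) (k := 2) (by norm_num) (by norm_num) (by norm_num)
    (by norm_num) fun i => ?_
  rw [Pi.add_apply, Pi.sub_apply]
  ring

theorem fat (n : ℕ) (hn : 1 ≤ n) {μ M : ℝ} (hμ : 0 < μ) (hM : μ ≤ M) : ∃ (kap C : ℕ) (τ₀ : ℝ),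
    ∀ (K : Finset (Fin n → ℤ)) (c : Fin n → ℤ) (Φ : (Fin n → ℝ) → ℝ) (T b : ℝ), SDn Φ μ M →
      (∀ x, b ≤ Φ x) → (∃ z₀, Φ z₀ ≤ b + 1) → (∀ x, x ∈ K ↔ Φ (em x) ≤ T) → LC K →
      (∀ x, x ∈ K ↔ c - x ∈ K) → τ₀ ≤ T - b →
      ∃ R r : ℕ, (∀ x ∈ K, ∀ i, |vs c x i| ≤ R) ∧
        (∀ x : Fin n → ℤ, (∀ i, |vs c x i| ≤ r) → x ∈ K) ∧ r ≤ R ∧ R ≤ kap * r ∧
        T - b ≤ C * (r : ℝ) ^ 2 ∧ 200 * (R : ℝ) ^ 2 ≤ C * (T - b) := by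
  have hM0 : 0 < M := lt_of_lt_of_le hμ hM
  have hn1 : (1 : ℝ) ≤ n := by exact_mod_cast hn
  have hMn : M ≤ M * n := le_mul_of_one_le_right hM0.le hn1
  have hMn0 : 0 < M * n := lt_of_lt_of_le hM0 hMn
  refine ⟨⌈144 * (M * n) / μ⌉₊, ⌈16 * (M * n) + 1800 / μ⌉₊, 4 + μ + 64 * (M * n), ?_⟩
  intro K c Φ T b h hb hz hK hLC hsym hτ
  obtain ⟨z₀, h0⟩ := hz
  set τ := T - b with hτdef
  have hkap : 144 * (M * n) / μ ≤ (⌈144 * (M * n) / μ⌉₊ : ℝ) := Nat.le_ceil _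
  have hC : 16 * (M * n) + 1800 / μ ≤ (⌈16 * (M * n) + 1800 / μ⌉₊ : ℝ) := Nat.le_ceil _
  have h1800 : 0 < 1800 / μ := by positivity
  have hτ4 : 4 ≤ τ := by linarith
  have hτμ : μ ≤ τ := by linarith
  have hτn : 64 * (M * n) ≤ τ := by linarith
  -- `A`
  have hA2 : (Real.sqrt (τ / μ)) ^ 2 = τ / μ := Real.sq_sqrt (by positivity)
  have hA1 : 1 ≤ Real.sqrt (τ / μ) := by
    rw [Real.one_le_sqrt, le_div_iff₀ hμ]
    linarith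
  -- `B`
  have hB0 : 0 ≤ (τ - 2) / (2 * (M * n)) := by
    apply div_nonneg <;> linarith
  have hB2 : (Real.sqrt ((τ - 2) / (2 * (M * n)))) ^ 2 = (τ - 2) / (2 * (M * n)) :=
    Real.sq_sqrt hB0
  set A := Real.sqrt (τ / μ) with hA
  set B := Real.sqrt ((τ - 2) / (2 * (M * n))) with hB
  have hB4 : 4 ≤ B := by
    rw [hB]
    apply Real.le_sqrt_of_sq_le
    rw [le_div_iff₀ (by positivity)]
    linarith
  have hBA : B ≤ A := by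
    rw [hA, hB]
    apply Real.sqrt_le_sqrt
    rw [div_le_div_iff₀ (by positivity) hμ]
    nlinarith
  -- `R`, `r`
  have hR1 : 2 * A ≤ (⌈2 * A⌉₊ : ℝ) := Nat.le_ceil _
  have hR2 : (⌈2 * A⌉₊ : ℝ) < 2 * A + 1 := Nat.ceil_lt_add_one (by linarith)
  have hfl : 1 ≤ ⌊B⌋₊ := by
    apply Nat.le_floor
    push_cast
    linarith
  have hr1 : (((⌊B⌋₊ - 1 : ℕ) : ℝ)) + 1 ≤ B := by
    rw [Nat.cast_sub hfl]
    have := Nat.floor_le (show 0 ≤ B by linarith)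
    push_cast
    linarith
  have hr2 : B - 2 < (((⌊B⌋₊ - 1 : ℕ) : ℝ)) := by
    rw [Nat.cast_sub hfl]
    have := Nat.sub_one_lt_floor B
    push_cast
    linarith
  set R := ⌈2 * A⌉₊
  set r := ⌊B⌋₊ - 1
  have hr0 : (0 : ℝ) ≤ r := Nat.cast_nonneg r
  have hR3 : (R : ℝ) ≤ 3 * A := by linarith
  have hr3 : B / 2 ≤ r := by linarith
  have hBτ : τ / (4 * (M * n)) ≤ B ^ 2 := by
    rw [hB2, div_le_div_iff₀ (by positivity) (by positivity)]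
    nlinarith
  have hrτ : τ ≤ 16 * (M * n) * (r : ℝ) ^ 2 := by
    have h1 : (B / 2) ^ 2 ≤ (r : ℝ) ^ 2 := pow_le_pow_left₀ (by linarith) hr3 2
    rw [div_le_iff₀ (by positivity)] at hBτ
    nlinarith
  have hRτ : (R : ℝ) ^ 2 * μ ≤ 9 * τ := by
    have h1 : (R : ℝ) ^ 2 ≤ (3 * A) ^ 2 := pow_le_pow_left₀ (Nat.cast_nonneg _) hR3 2
    have h2 : (3 * A) ^ 2 * μ = 9 * τ := by
      rw [mul_pow, hA2]
      field_simp
      norm_num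
    have h3 := mul_le_mul_of_nonneg_right h1 hμ.le
    linarith
  refine ⟨R, r, ?_, ?_, ?_, ?_, ?_, ?_⟩
  · intro x hx i
    have hx' := (hsym x).1 hx
    have h1 := h.pair hμ.le hb ((hK x).1 hx) ((hK _).1 hx') i
    have h2 : em x i - em (c - x) i = ((vs c x i : ℤ) : ℝ) := by
      simp only [em, vs, Pi.sub_apply]
      push_cast
      ring
    rw [h2] at h1
    have h3 : |((vs c x i : ℤ) : ℝ)| ≤ 2 * A := by
      apply abs_le_of_sq_le_sq _ (by linarith)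
      rw [mul_pow, hA2]
      have h4 : ((vs c x i : ℤ) : ℝ) ^ 2 ≤ 4 * τ / μ := by
        rw [le_div_iff₀ hμ]
        linarith
      refine h4.trans (le_of_eq ?_)
      ring
    have h5 : |((vs c x i : ℤ) : ℝ)| ≤ (R : ℝ) := h3.trans hR1
    exact_mod_cast h5
  · intro x hx
    refine fat_core h hM0.le hb h0 hK hLC hsym ?_ hx
    have h1 : ((r : ℝ) + 1) ^ 2 ≤ B ^ 2 := pow_le_pow_left₀ (by linarith) hr1 2
    rw [hB2, le_div_iff₀ (by positivity)] at h1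
    calc 2 * M * (n * ((r : ℝ) + 1) ^ 2) = ((r : ℝ) + 1) ^ 2 * (2 * (M * n)) := by ring
      _ ≤ τ - 2 := h1
  · have h1 : (r : ℝ) ≤ R := by linarith
    exact_mod_cast h1
  · have h1 : (R : ℝ) ^ 2 ≤ (⌈144 * (M * n) / μ⌉₊ * r) ^ 2 := by
      have h2 : (R : ℝ) ^ 2 ≤ 144 * (M * n) / μ * (r : ℝ) ^ 2 := by
        rw [div_mul_eq_mul_div, le_div_iff₀ hμ]
        nlinarith
      have h3 : 1 ≤ 144 * (M * n) / μ := by
        rw [le_div_iff₀ hμ]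
        nlinarith
      have h4 : 144 * (M * n) / μ ≤ ((⌈144 * (M * n) / μ⌉₊ : ℕ) : ℝ) ^ 2 := by nlinarith
      have h5 := mul_le_mul_of_nonneg_right h4 (sq_nonneg (r : ℝ))
      calc (R : ℝ) ^ 2 ≤ 144 * (M * n) / μ * (r : ℝ) ^ 2 := h2
        _ ≤ _ := h5
        _ = _ := by ring
    have h2 : (R : ℝ) ≤ ((⌈144 * (M * n) / μ⌉₊ : ℕ) : ℝ) * r :=
      le_of_sq_le_sq h1 (by positivity)
    exact_mod_cast h2
  · refine hrτ.trans ?_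
    apply mul_le_mul_of_nonneg_right _ (sq_nonneg _)
    linarith
  · have h1 : 200 * (R : ℝ) ^ 2 ≤ 1800 / μ * τ := by
      rw [div_mul_eq_mul_div, le_div_iff₀ hμ]
      nlinarith
    refine h1.trans ?_
    apply mul_le_mul_of_nonneg_right _ (by linarith)
    linarith

end Pool.Agent.Lib.MP_8cf263_co
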