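import Pool.Agent.Lib.MP_8cf263_co.RdSelect
import Pool.Agent.Lib.MP_8cf263_co.RdCount
import Pool.Agent.Lib.MP_8cf263_co.RdFr

/-!
# Round sets, file RdLevel: a shallow level has few points; a skew direction

`level_le`.  Let `4 (T - mg Φ m (em p)) ≤ μ ρ ^ 2`, `G₁ = (ρ + 1) ^ (m + 2)`, `2 G₁ + 1 ≤ r`.  The
level of `p` in `K ∪ L` has at most `G₁ + (G₁ + J + 2) ^ (m + 2)` points.
Proof.  The level of `p` in `K` has at most `G₁` points by `level_card` (RdSelect).  Not all `i < m`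
satisfy `2 p i = c i`: otherwise let `h₀ i = p i` for `i.1 < m` and `h₀ i = (c i + 1) / 2` for the
other `i`; `|vs c h₀ i| ≤ 1`, and the points `h₀ + s • Pi.single (iu m) 1`, `0 ≤ s ≤ G₁`, satisfy
`|vs c (..) i| ≤ 1 + 2 G₁ ≤ r`, so they are `G₁ + 1` points of `K` in the level of `p`.  So
`TwF.countLev` (RdCount, `k = m`) bounds the level of `p` in `L` by `(G₁ + J + 2) ^ (m + 2)`.

`skew`.  Let `S` be a finite set of points in the level of `p`, `|S| ≤ G`.  There is `M₀ : ℕ`,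
`1 ≤ M₀ ≤ G ^ 2 + 1`, such that `x ∈ S`, `x + t • (FC M₀).e m ∈ S` implies `t = 0`.
Proof.  `(FC M₀).e m = Pi.single (iu m) 1 + Pi.single (iv m) M₀`.  Suppose that for every `M₀` in
`Icc 1 (G ^ 2 + 1)` there are `x, y ∈ S` and `t ≠ 0` with `y = x + t • (FC M₀).e m`; then
`y (iu m) - x (iu m) = t` and `y (iv m) - x (iv m) = t M₀`, so `M₀` is determined by the pair
`(x, y) ∈ S ×ˢ S` and `G ^ 2 + 1 ≤ |S| ^ 2 ≤ G ^ 2` (`Finset.card_le_card_of_injOn`), a
contradiction.
-/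

set_option autoImplicit false

namespace Pool.Agent.Lib.MP_8cf263_co

open Finset

variable {m : ℕ} {K L : Finset (Fin (m + 2) → ℤ)} {c : Fin (m + 2) → ℤ} {R r J kap : ℕ}

private theorem lev_iv_ne_iu (m : ℕ) : iv m ≠ iu m := by
  intro h
  have := congrArg Fin.val h
  simp [iv, iu] at this

private theorem lev_e_iu (M : ℤ) (m : ℕ) : (FC M).e m (iu m) = 1 := by
  simp [Fr.e, FC, (lev_iv_ne_iu m).symm]

private theorem lev_e_iv (M : ℤ) (m : ℕ) : (FC M).e m (iv m) = M := by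
  simp [Fr.e, FC, lev_iv_ne_iu m]

theorem level_le (h : TwF K L c R r J kap) {Φ : (Fin (m + 2) → ℝ) → ℝ} {μ M b T : ℝ}
    (hΦ : SDn Φ μ M) (hμ : 0 < μ) (hb : ∀ x, b ≤ Φ x)
    (hK : ∀ x, x ∈ K ↔ Φ (em x) ≤ T) (p : Fin (m + 2) → ℤ) {ρ : ℕ}
    (hρ : 4 * (T - mg Φ m (em p)) ≤ μ * (ρ : ℝ) ^ 2) (hr : 2 * (ρ + 1) ^ (m + 2) + 1 ≤ r) :
    ((K ∪ L).filter (fun x => ∀ i : Fin (m + 2), i.1 < m → x i = p i)).card ≤
      (ρ + 1) ^ (m + 2) + ((ρ + 1) ^ (m + 2) + J + 2) ^ (m + 2) := by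
  classical
  have hKS : (K.filter (fun x => ∀ i : Fin (m + 2), i.1 < m → x i = p i)).card ≤
      (ρ + 1) ^ (m + 2) := by
    refine level_card hΦ hμ hb (T := T) (k := m) (p := p) _ (fun x hx => ?_) hρ
    rw [mem_filter] at hx
    exact ⟨(hK x).1 hx.1, hx.2⟩
  have hc : ∃ i : Fin (m + 2), i.1 < m ∧ 2 * p i ≠ c i := by
    by_contra hcon
    push Not at hcon
    obtain ⟨h₀, hh₀⟩ : ∃ h₀ : Fin (m + 2) → ℤ, h₀ = fun i => if i.1 < m then p i else (c i + 1) / 2 :=
      ⟨_, rfl⟩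
    have hlow : ∀ i : Fin (m + 2), i.1 < m → h₀ i = p i := by
      intro i hi
      rw [hh₀]
      simp only [hi, if_true]
    have hvs : ∀ i, 0 ≤ vs c h₀ i ∧ vs c h₀ i ≤ 1 := by
      intro i
      by_cases hi : i.1 < m
      · have h1 := hlow i hi
        have h2 := hcon i hi
        simp only [vs]
        rw [h1, h2]
        constructor <;> linarith
      · have h1 : h₀ i = (c i + 1) / 2 := by
          rw [hh₀]
          simp only [hi, if_false]
        simp only [vs]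
        rw [h1]
        omega
    have hmem : ∀ s : ℕ, s ∈ range ((ρ + 1) ^ (m + 2) + 1) →
        h₀ + (s : ℤ) • (Pi.single (iu m) 1 : Fin (m + 2) → ℤ) ∈
          K.filter (fun x => ∀ i : Fin (m + 2), i.1 < m → x i = p i) := by
      intro s hs
      rw [mem_range] at hs
      rw [mem_filter]
      constructor
      · apply h.core
        intro i
        have h1 := hvs i
        have hsr : 2 * (s : ℤ) + 1 ≤ r := by
          have : 2 * s + 1 ≤ r := by omega
          exact_mod_cast this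
        by_cases hi : i = iu m
        · have h2 : vs c (h₀ + (s : ℤ) • (Pi.single (iu m) 1 : Fin (m + 2) → ℤ)) i =
              vs c h₀ i + 2 * s := by
            simp only [vs, Pi.add_apply, Pi.smul_apply, smul_eq_mul]
            rw [hi, Pi.single_eq_same]
            ring
          rw [h2, abs_le]
          have : (0 : ℤ) ≤ s := by positivity
          constructor <;> linarith
        · have h2 : vs c (h₀ + (s : ℤ) • (Pi.single (iu m) 1 : Fin (m + 2) → ℤ)) i =
              vs c h₀ i := by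
            simp only [vs, Pi.add_apply, Pi.smul_apply, smul_eq_mul]
            rw [Pi.single_eq_of_ne hi]
            ring
          rw [h2, abs_le]
          have : (0 : ℤ) ≤ s := by positivity
          constructor <;> linarith
      · intro i hi
        have hne : i ≠ iu m := by
          intro he
          have := congrArg Fin.val he
          simp [iu] at this
          omega
        simp only [Pi.add_apply, Pi.smul_apply, smul_eq_mul]
        rw [Pi.single_eq_of_ne hne, mul_zero, add_zero]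
        exact hlow i hi
    have hinj : Set.InjOn (fun s : ℕ => h₀ + (s : ℤ) • (Pi.single (iu m) 1 : Fin (m + 2) → ℤ))
        (range ((ρ + 1) ^ (m + 2) + 1) : Set ℕ) := by
      intro s _ s' _ hss
      have h1 := congrFun hss (iu m)
      simp only [Pi.add_apply, Pi.smul_apply, smul_eq_mul, Pi.single_eq_same, mul_one,
        add_right_inj] at h1
      exact_mod_cast h1
    have h2 := card_le_card_of_injOn _ hmem hinj
    rw [card_range] at h2
    omega
  have hLS := h.countLev hc hKS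
  rw [filter_union]
  exact (card_union_le _ _).trans (Nat.add_le_add hKS hLS)

theorem skew (S : Finset (Fin (m + 2) → ℤ)) {G : ℕ} (hS : S.card ≤ G) :
    ∃ M₀ : ℕ, 1 ≤ M₀ ∧ M₀ ≤ G ^ 2 + 1 ∧
      ∀ x ∈ S, ∀ t : ℤ, x + t • (FC M₀).e m ∈ S → t = 0 := by
  classical
  by_contra hcon
  push Not at hcon
  have hch : ∀ M₀ : ℕ, ∃ (x : Fin (m + 2) → ℤ) (t : ℤ), 1 ≤ M₀ → M₀ ≤ G ^ 2 + 1 →
      x ∈ S ∧ x + t • (FC M₀).e m ∈ S ∧ t ≠ 0 := by
    intro M₀
    by_cases h1 : 1 ≤ M₀ ∧ M₀ ≤ G ^ 2 + 1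
    · obtain ⟨x, hx, t, ht, ht0⟩ := hcon M₀ h1.1 h1.2
      exact ⟨x, t, fun _ _ => ⟨hx, ht, ht0⟩⟩
    · exact ⟨0, 0, fun h2 h3 => absurd ⟨h2, h3⟩ h1⟩
  choose x t hxt using hch
  have hmem : ∀ M₀ ∈ Icc 1 (G ^ 2 + 1), (x M₀, x M₀ + t M₀ • (FC M₀).e m) ∈ S ×ˢ S := by
    intro M₀ hM
    rw [Finset.mem_Icc] at hM
    obtain ⟨h1, h2, _⟩ := hxt M₀ hM.1 hM.2
    exact mem_product.2 ⟨h1, h2⟩
  have hinj : Set.InjOn (fun M₀ : ℕ => (x M₀, x M₀ + t M₀ • (FC M₀).e m))
      (Icc 1 (G ^ 2 + 1) : Set ℕ) := by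
    intro M₀ hM M₁ hM' heq
    have hM2 := Finset.mem_Icc.1 (Finset.mem_coe.1 hM)
    obtain ⟨_, _, ht0⟩ := hxt M₀ hM2.1 hM2.2
    simp only [Prod.mk.injEq] at heq
    obtain ⟨hx, hy⟩ := heq
    have h1 := congrFun hy (iu m)
    have h2 := congrFun hy (iv m)
    simp only [Pi.add_apply, Pi.smul_apply, smul_eq_mul, lev_e_iu, lev_e_iv, hx, mul_one,
      add_right_inj] at h1 h2
    rw [← h1] at h2
    have h3 := mul_left_cancel₀ ht0 h2
    exact_mod_cast h3
  have h2 := card_le_card_of_injOn _ hmem hinj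
  rw [Nat.card_Icc, card_product] at h2
  have h3 : S.card * S.card ≤ G * G := Nat.mul_le_mul hS hS
  have h4 : G ^ 2 = G * G := sq G
  rw [h4] at h2
  omega

end Pool.Agent.Lib.MP_8cf263_co
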