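import Pool.Agent.Lib.MP_8cf263_co.RdCore
import Pool.Agent.Lib.MP_8cf263_co.RdFat
import Pool.Agent.Lib.MP_8cf263_co.RdJ
import Pool.Agent.Lib.MP_8cf263_co.Jac

/-!
# Round sets, file RdMain: large round lattice sets are determined
-/

set_option autoImplicit false

namespace Pool.Agent.Lib.MP_8cf263_co

open Finset

theorem round_main (m : ℕ) {μ M : ℝ} (hμ : 0 < μ) (hM : μ ≤ M) : ∃ τ₀ : ℝ,
    ∀ (K L : Finset (Fin (m + 2) → ℤ)) (c : Fin (m + 2) → ℤ) (Φ : (Fin (m + 2) → ℝ) → ℝ)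
      (T b : ℝ) (x₀ : Fin (m + 2) → ℝ), Tw K L c → SDn Φ μ M → (∀ x, b ≤ Φ x) →
      (∀ x, x ∈ K ↔ Φ (em x) ≤ T) → Φ x₀ + τ₀ ≤ T → K = L := by
  obtain ⟨kap, C, τf, HF⟩ := fat (m + 2) (by omega) hμ hM
  obtain ⟨β₁, J₁, HC⟩ := core_thm m kap C hμ hM
  obtain ⟨τJ, HJ⟩ := exists_J (J₁ + Cg (β₁ + 4) * C + 4096 * kap ^ 2 * C) (β₁ + 3) (by omega)
  refine ⟨max τf τJ, ?_⟩
  intro K L c Φ T b x₀ hTw hΦ hb hK hx₀
  set B : ℝ := mg Φ 0 0 with hB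
  have hB1 : ∀ x, B ≤ Φ x := fun x => mg_self hb (fun i hi => absurd hi (Nat.not_lt_zero _))
  obtain ⟨z₀, -, hz₀⟩ := mg_near (Φ := Φ) 0 0 (ε := 1) one_pos
  have hτ : max τf τJ ≤ T - B := by
    have := hB1 x₀
    linarith
  obtain ⟨R, r, hout, hcore, hrR, hRr, hCr, hR⟩ := HF K c Φ T B hΦ hB1 ⟨z₀, hz₀.le⟩ hK hTw.hK
    hTw.sK ((le_max_left _ _).trans hτ)
  obtain ⟨J, hJA, hJ1, hJτ, hAτ⟩ := HJ (T - B) ((le_max_right _ _).trans hτ)
  have hJr1 : (1 : ℝ) ≤ J := by exact_mod_cast hJ1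
  have hτ1 : (1 : ℝ) ≤ T - B := (one_le_pow₀ hJr1).trans hJτ
  have hJge : (J₁ + Cg (β₁ + 4) * C + 4096 * kap ^ 2 * C : ℕ) ≤ (J : ℝ) := by exact_mod_cast hJA
  have hCpos : 1 ≤ C := by
    rcases Nat.eq_zero_or_pos C with h0 | h0
    · rw [h0] at hCr
      norm_num at hCr
      linarith
    · exact h0
  have hCr0 : (1 : ℝ) ≤ C := by exact_mod_cast hCpos
  have hgood : ∀ k : ℕ, k ≠ 0 → k ≤ 200 * R ^ 2 → Good J k := by
    intro k hk0 hk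
    refine good_of_pow (k := β₁ + 4) (by omega) hk0 ?_
    have h1 : (k : ℝ) ≤ C * (T - B) := by
      have h2 : (k : ℝ) ≤ 200 * (R : ℝ) ^ 2 := by exact_mod_cast hk
      exact h2.trans hR
    have h2 : (Cg (β₁ + 4) : ℝ) * k ≤ (J : ℝ) ^ (β₁ + 4) := by
      calc (Cg (β₁ + 4) : ℝ) * k ≤ Cg (β₁ + 4) * (C * (T - B)) :=
            mul_le_mul_of_nonneg_left h1 (Nat.cast_nonneg _)
        _ = (Cg (β₁ + 4) * C) * (T - B) := by ring
        _ ≤ ((J₁ + Cg (β₁ + 4) * C + 4096 * kap ^ 2 * C : ℕ) : ℝ) * (T - B) := by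
            refine mul_le_mul_of_nonneg_right ?_ (by linarith)
            push_cast
            have : (0 : ℝ) ≤ J₁ := Nat.cast_nonneg _
            have : (0 : ℝ) ≤ 4096 * (kap : ℝ) ^ 2 * C := by positivity
            linarith
        _ ≤ (J : ℝ) ^ (β₁ + 3 + 1) := hAτ
    exact_mod_cast h2
  have hJr : 64 * (J * kap) ≤ r := by
    have h1 : (J : ℝ) ^ 3 ≤ C * (r : ℝ) ^ 2 := by
      refine le_trans (pow_le_pow_right₀ hJr1 (by omega)) (hJτ.trans hCr)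
    have h2 : (4096 * (kap : ℝ) ^ 2 * C) * (J : ℝ) ^ 2 ≤ (J : ℝ) ^ 3 := by
      have h3 : (4096 * (kap : ℝ) ^ 2 * C) ≤ J := by
        refine le_trans ?_ hJge
        push_cast
        have : (0 : ℝ) ≤ J₁ := Nat.cast_nonneg _
        have : (0 : ℝ) ≤ (Cg (β₁ + 4) : ℝ) * C := by positivity
        linarith
      have h4 : (J : ℝ) ^ 3 = J * (J : ℝ) ^ 2 := by ring
      rw [h4]
      exact mul_le_mul_of_nonneg_right h3 (sq_nonneg _)
    have h5 : (C : ℝ) * (64 * (J * kap) : ℝ) ^ 2 ≤ C * (r : ℝ) ^ 2 := by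
      refine le_trans (le_of_eq ?_) (h2.trans h1)
      ring
    have h6 : ((64 * (J * kap) : ℝ)) ^ 2 ≤ (r : ℝ) ^ 2 := le_of_mul_le_mul_left h5 (by linarith)
    have h7 : (64 * (J * kap) : ℝ) ≤ r :=
      (pow_le_pow_iff_left₀ (by positivity) (by positivity) (by norm_num)).1 h6
    exact_mod_cast h7
  have hTwF : TwF K L c R r J kap :=
    ⟨hTw, by omega, hout, hcore, hgood, hJ1, hJr, hrR, hRr⟩
  refine HC K L c R r J Φ T B hTwF hΦ hB1 hK (by omega) ?_ hCr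
  exact (pow_le_pow_right₀ hJr1 (by omega)).trans hJτ

end Pool.Agent.Lib.MP_8cf263_co
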