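import Pool.Agent.Lib.MP_8cf263_co.RsMain

/-!
# Discrete Aleksandrov projection problem: bodies with one round spot
-/

set_option autoImplicit false

namespace Pool.Agent.Lib.MP_8cf263_co

open Finset

theorem round_spot_thm {n : ℕ} (hn : 2 ≤ n) (N : (Fin n → ℝ) → ℝ)
    (h0 : ∀ x, N x = 0 → x = 0) (hsm : ∀ (t : ℝ) (x : Fin n → ℝ), N (t • x) = |t| * N x)
    (htri : ∀ x y, N (x + y) ≤ N x + N y)
    (U : Set (Fin n → ℝ)) (hU : IsOpen U) (hne : U.Nonempty) (μ M : ℝ) (hμ : 0 < μ)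
    (hp : ∀ x y, x ∈ U → x + y ∈ U → x - y ∈ U →
      2 * μ * ∑ i, y i ^ 2 ≤ N (x + y) ^ 2 + N (x - y) ^ 2 - 2 * N x ^ 2 ∧
      N (x + y) ^ 2 + N (x - y) ^ 2 - 2 * N x ^ 2 ≤ 2 * M * ∑ i, y i ^ 2) :
    ∃ lam₀ : ℝ, ∀ lam : ℝ, lam₀ ≤ lam → ∀ (c : Fin n → ℤ) (K L : Finset (Fin n → ℤ)),
      (∀ x, x ∈ K ↔ N (em (vs c x)) ≤ lam) → LC L → (∃ c', ∀ x, x ∈ L ↔ c' - x ∈ L) →
      (∀ u : Fin n → ℤ, u ≠ 0 → (K.image (pj u)).card = (L.image (pj u)).card) →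
      ∃ v : Fin n → ℤ, L = K.image (fun x => x + v) := by
  obtain ⟨m, rfl⟩ : ∃ m, n = m + 2 := ⟨n - 2, by omega⟩
  have hN0 : N 0 = 0 := by
    have := hsm 0 0
    simpa using this
  have hN : Nrm N := by
    refine ⟨fun x => ?_, h0, hsm, htri⟩
    have h1 := htri x ((-1 : ℝ) • x)
    rw [hsm (-1) x, abs_neg, abs_one, one_mul, neg_smul, one_smul, add_neg_cancel, hN0] at h1
    linarith
  have hdot : ∀ y : Fin (m + 2) → ℝ, ∑ i, y i ^ 2 = y ⬝ᵥ y := by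
    intro y
    unfold dotProduct
    refine Finset.sum_congr rfl fun i _ => ?_
    ring
  obtain ⟨lam₀, h⟩ := round_spot m hN hU hne (μ := μ) (M := M) hμ (by
    intro x y hx h1 h2
    have h3 := hp x y hx h1 h2
    rwa [hdot] at h3)
  refine ⟨lam₀, fun lam hlam c K L hK hL hLc hproj => ?_⟩
  obtain ⟨c', hLc⟩ := hLc
  obtain ⟨hKlc, hKc⟩ := hN.lc hK
  exact reduce (by omega) hKlc hL hKc hLc hproj fun L' hTw => (h lam hlam c K L' hTw hK).symm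

end Pool.Agent.Lib.MP_8cf263_co
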