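import Pool.Agent.Lib.MP_8cf263_co.Width2

/-!
# Discrete Aleksandrov projection problem: sets of small width, final form
-/

set_option autoImplicit false

namespace Pool.Agent.Lib.MP_8cf263_co

open Finset

variable {n : ℕ}

/-- the common kernel of `n - 1` independent functionals is a line -/
theorem ker_line {Φ : Fin (n - 1) → Fin n → ℤ} (hn : 1 ≤ n)
    (hΦ : LinearIndependent ℝ (fun j => em (Φ j))) {x y : Fin n → ℤ} (hx : ∀ j, Φ j ⬝ᵥ x = 0)
    (hy : ∀ j, Φ j ⬝ᵥ y = 0) : ¬ Npar x y := by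
  classical
  let A : Matrix (Fin (n - 1)) (Fin n) ℝ := Matrix.of fun j => em (Φ j)
  have hrow : A.row = fun j => em (Φ j) := rfl
  have hrank : Module.finrank ℝ (LinearMap.range A.mulVecLin) = n - 1 := by
    have h1 : A.rank = n - 1 := by
      rw [Matrix.rank_eq_finrank_span_row, hrow, finrank_span_eq_card hΦ, Fintype.card_fin]
    exact h1
  have hker : Module.finrank ℝ (LinearMap.ker A.mulVecLin) ≤ 1 := by
    have h1 := A.mulVecLin.finrank_range_add_finrank_ker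
    rw [hrank, Module.finrank_fintype_fun_eq_card, Fintype.card_fin] at h1
    omega
  obtain ⟨v, hv⟩ := finrank_le_one_iff.1 hker
  have hmem : ∀ z : Fin n → ℤ, (∀ j, Φ j ⬝ᵥ z = 0) → em z ∈ LinearMap.ker A.mulVecLin := by
    intro z hz
    rw [LinearMap.mem_ker, Matrix.mulVecLin_apply]
    funext j
    show em (Φ j) ⬝ᵥ em z = 0
    rw [em_dot]
    exact_mod_cast hz j
  obtain ⟨a, ha⟩ := hv ⟨em x, hmem x hx⟩
  obtain ⟨b, hb⟩ := hv ⟨em y, hmem y hy⟩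
  have ha' : a • (v : Fin n → ℝ) = em x := congrArg Subtype.val ha
  have hb' : b • (v : Fin n → ℝ) = em y := congrArg Subtype.val hb
  unfold Npar
  push Not
  intro i j
  have h1 : ∀ i, (x i : ℝ) = a * (v : Fin n → ℝ) i := fun i => (congrFun ha' i).symm
  have h2 : ∀ i, (y i : ℝ) = b * (v : Fin n → ℝ) i := fun i => (congrFun hb' i).symm
  have h3 : ((x i * y j - x j * y i : ℤ) : ℝ) = 0 := by
    push_cast
    rw [h1, h1, h2, h2]
    ring
  exact_mod_cast h3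

/-- widths -/
theorem abs_of_width {K : Finset (Fin n → ℤ)} {c : Fin n → ℤ} (hc : ∀ x, x ∈ K ↔ c - x ∈ K)
    {φ : Fin n → ℤ} {w : ℤ} (h : ∀ x ∈ K, ∀ y ∈ K, ∑ i, φ i * (x i - y i) ≤ w) :
    ∀ x ∈ K, |φ ⬝ᵥ vs c x| ≤ w := by
  intro x hx
  have h1 : ∑ i, φ i * (x i - (c - x) i) = φ ⬝ᵥ vs c x := by
    unfold dotProduct
    refine Finset.sum_congr rfl fun i _ => ?_
    simp only [vs, Pi.sub_apply]
    ring
  have h2 : ∑ i, φ i * ((c - x) i - x i) = -(φ ⬝ᵥ vs c x) := by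
    unfold dotProduct
    rw [← Finset.sum_neg_distrib]
    refine Finset.sum_congr rfl fun i _ => ?_
    simp only [vs, Pi.sub_apply]
    ring
  have h3 := h x hx _ ((hc x).1 hx)
  have h4 := h _ ((hc x).1 hx) x hx
  rw [h1] at h3
  rw [h2] at h4
  rw [abs_le]
  constructor <;> linarith

/-- a set of full dimension is not contained in the central level of a functional -/
theorem Sph.exists_level {K : Finset (Fin n → ℤ)} {c : Fin n → ℤ}
    (htop : affineSpan ℝ (em '' (K : Set (Fin n → ℤ))) = ⊤) {φ : Fin n → ℤ} (hφ : φ ≠ 0) :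
    ∃ x ∈ K, φ ⬝ᵥ vs c x ≠ 0 := by
  by_contra hcon
  push Not at hcon
  have h1 : ∀ x ∈ K, em φ ⬝ᵥ em x = (em φ ⬝ᵥ em c) / 2 := by
    intro x hx
    have h2 : em φ ⬝ᵥ em (vs c x) = 0 := by
      rw [em_dot]
      exact_mod_cast hcon x hx
    rw [em_vs, dotProduct_sub, dotProduct_smul, smul_eq_mul] at h2
    linarith
  have h2 := not_const htop h1 (em φ)
  rw [em_dot] at h2
  have h3 := sq_pos hφ
  have h4 : (0 : ℝ) < ((∑ i, φ i * φ i : ℤ) : ℝ) := by exact_mod_cast h3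
  linarith

theorem not_two {K : Finset (Fin n → ℤ)} (hK : LC K) {c : Fin n → ℤ}
    (hc : ∀ x, x ∈ K ↔ c - x ∈ K) (he : Even K.card) (hne : K.Nonempty) :
    ¬ ∃ z, c = z + z := by
  rintro ⟨z, hz⟩
  exact not_two_smul hK hc he hne z hz

theorem even_of_not_two {K : Finset (Fin n → ℤ)} {c : Fin n → ℤ}
    (hc : ∀ x, x ∈ K ↔ c - x ∈ K) (h : ¬ ∃ z, c = z + z) : Even K.card := by
  classical
  refine even_card_of_inv (fun x => c - x) (fun x hx => (hc x).1 hx) (fun x _ => by abel)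
    (fun x _ hx => h ⟨x, ?_⟩)
  have h2 : c = c - x + x := by abel
  have h3 : c - x = x := hx
  rw [h3] at h2
  exact h2

/-- **Even sets of width at most three.** -/
theorem Tw.even_three {K L : Finset (Fin n → ℤ)} {c : Fin n → ℤ} (h : Tw K L c)
    (hodd : ¬ ∃ z, c = z + z) (hK : Sph K c)
    (htop : affineSpan ℝ (em '' (K : Set (Fin n → ℤ))) = ⊤) {φ : Fin n → ℤ} (hφ0 : φ ≠ 0)
    (hφ : ∀ x ∈ K, |φ ⬝ᵥ vs c x| ≤ 3) : L = K := by
  rcases Int.even_or_odd (φ ⬝ᵥ c) with hpar | hpar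
  · have hpo : ∀ x, Even (φ ⬝ᵥ vs c x) := by
      intro x
      have h1 := dot_vs_par φ c x
      rw [Int.even_iff] at hpar ⊢
      omega
    refine h.width_four hodd hK hpar (fun x hx => (hφ x hx).trans (by norm_num)) ?_
    obtain ⟨x, hx, hx0⟩ := Sph.exists_level (c := c) htop hφ0
    have h1 := hφ x hx
    have h2 := hpo x
    rw [abs_le] at h1
    rw [Int.even_iff] at h2
    have h3 : φ ⬝ᵥ vs c x = 2 ∨ φ ⬝ᵥ vs c x = -2 := by omega
    rcases h3 with h3 | h3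
    · exact ⟨x, hx, h3⟩
    · refine ⟨c - x, (h.sK x).1 hx, ?_⟩
      rw [vs_sub, dotProduct_neg, h3]
      norm_num
  · exact h.width_three hodd hK hpar hφ

/-- **Sets of small width.** -/
theorem small_width (hn : 2 ≤ n) {K L : Finset (Fin n → ℤ)} (hK : LC K) (hL : LC L)
    (htop : affineSpan ℝ (em '' (K : Set (Fin n → ℤ))) = ⊤) {c c' : Fin n → ℤ}
    (hc : ∀ x, x ∈ K ↔ c - x ∈ K) (hc' : ∀ x, x ∈ L ↔ c' - x ∈ L)
    (hpr : ∀ u : Fin n → ℤ, u ≠ 0 → (K.image (pj u)).card = (L.image (pj u)).card)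
    (hyp : (∃ Φ : Fin (n - 1) → Fin n → ℤ, LinearIndependent ℝ (fun j => em (Φ j)) ∧
        ∀ j, ∀ x ∈ K, ∀ y ∈ K, ∑ i, Φ j i * (x i - y i) ≤ 2) ∨
      (∀ x ∈ K, em x ∈ convexHull ℝ (em '' {v : Fin n → ℤ | v ∈ K ∧ ∃ φ : Fin n → ℤ,
        (∀ x ∈ K, ∀ y ∈ K, ∑ i, φ i * (x i - y i) ≤ 2) ∧ ∑ i, φ i * (2 * v i - c i) ≠ 0})) ∨
      (Even K.card ∧ ∃ φ : Fin n → ℤ, φ ≠ 0 ∧
        ∀ x ∈ K, ∀ y ∈ K, ∑ i, φ i * (x i - y i) ≤ 3) ∨
      (Even K.card ∧ ∃ φ : Fin n → ℤ, (∀ x ∈ K, ∀ y ∈ K, ∑ i, φ i * (x i - y i) ≤ 4) ∧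
        ∃ x ∈ K, ∑ i, φ i * (2 * x i - c i) = 2)) :
    ∃ v : Fin n → ℤ, L = K.image (fun x => x + v) := by
  classical
  refine reduce hn hK hL hc hc' hpr fun L' hTw => ?_
  have hS : Sph K c := Sph.of_top hn htop
  have hne : K.Nonempty := by
    obtain ⟨v, hv, -⟩ := top_ne_single hn htop
    exact ⟨v, hv⟩
  have hthn : ∀ φ : Fin n → ℤ, (∀ x ∈ K, ∀ y ∈ K, ∑ i, φ i * (x i - y i) ≤ 2) → Thn K c φ :=
    fun φ h => abs_of_width hc h
  rcases hyp with ⟨Φ, hΦ, hw⟩ | hhull | ⟨hev, φ, hφ0, hw⟩ | ⟨hev, φ, hw, x, hx, hx2⟩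
  · exact hTw.line hS Φ (fun j => hthn _ (hw j)) fun x y hx hy => ker_line (by omega) hΦ hx hy
  · refine hTw.hull hS fun x hx => ?_
    refine convexHull_mono (Set.image_mono ?_) (hhull x hx)
    rintro v ⟨hv, φ, h1, h2⟩
    exact ⟨hv, φ, hthn φ h1, h2⟩
  · exact hTw.even_three (not_two hK hc hev hne) hS htop hφ0 (abs_of_width hc hw)
  · have hodd := not_two hK hc hev hne
    have hφ := abs_of_width hc hw
    have hx2' : φ ⬝ᵥ vs c x = 2 := hx2
    have hpar : Even (φ ⬝ᵥ c) := by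
      have h1 := dot_vs_par φ c x
      rw [Int.even_iff]
      omega
    exact hTw.width_four hodd hS hpar hφ ⟨x, hx, hx2'⟩

end Pool.Agent.Lib.MP_8cf263_co
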