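import Pool.Agent.Lib.MP_8cf263_co.Adic
import Pool.Agent.Lib.MP_8cf263_co.Hat
import Pool.Agent.Lib.MP_8cf263_co.Large

/-!
# Discrete Aleksandrov projection problem: sets in three consecutive levels of several functionals
-/

set_option autoImplicit false

namespace Pool.Agent.Lib.MP_8cf263_co

open Finset

variable {n : ℕ}

/-- the values of functionals modulo two -/
def kp {ι : Type} (Φ : ι → Fin n → ℤ) : (Fin n → ℤ) →+ (ι → ZMod 2) :=
  AddMonoidHom.mk' (fun x i => ((Φ i ⬝ᵥ x : ℤ) : ZMod 2)) (fun x y => by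
    funext i
    rw [Pi.add_apply, dotProduct_add, Int.cast_add])

theorem kp_apply {ι : Type} (Φ : ι → Fin n → ℤ) (x : Fin n → ℤ) (i : ι) :
    kp Φ x i = ((Φ i ⬝ᵥ x : ℤ) : ZMod 2) := rfl

/-- **Central sections.** -/
theorem Tw.thin {A B : Finset (Fin n → ℤ)} (h : Tw A B 0) (hA : Spr A) {ι : Type} [Fintype ι]
    [DecidableEq ι] (Φ : ι → Fin n → ℤ) (hΦ : ∀ i, ∀ x ∈ A, |Φ i ⬝ᵥ x| ≤ 1) :
    (A.filter (fun x => ∀ i, Φ i ⬝ᵥ x = 0)).card = (B.filter (fun x => ∀ i, Φ i ⬝ᵥ x = 0)).card ∧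
      (A.filter (fun x => ∀ i, Φ i ⬝ᵥ x = 0) = B.filter (fun x => ∀ i, Φ i ⬝ᵥ x = 0) →
        A = B) := by
  rcases A.eq_empty_or_nonempty with hemp | hne
  · have hB : B = ∅ := by
      rw [← card_eq_zero, ← h.card, hemp, card_empty]
    rw [hemp, hB]
    exact ⟨rfl, fun _ => rfl⟩
  have hBne : B.Nonempty := by
    rw [← card_pos, ← h.card]
    exact card_pos.2 hne
  have hA0 := zero_mem h.hK h.sK hne
  have hB0 := zero_mem h.hL h.sL hBne
  have hΦB : ∀ i, ∀ x ∈ B, |Φ i ⬝ᵥ x| ≤ 1 := fun i => h.three hA (hΦ i)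
  have hG : ∀ g : ι → ZMod 2, g + g = 0 := by
    intro g
    funext i
    exact CharTwo.add_self_eq_zero (g i)
  -- multiplicities outside the kernel
  have hrp : ∀ s, kp Φ s ≠ 0 → rp A s = rp B s := by
    intro s hs
    obtain ⟨i, hi⟩ := Function.ne_iff.1 hs
    rw [kp_apply, Pi.zero_apply] at hi
    have hodd : ¬ (2 : ℤ) ∣ Φ i ⬝ᵥ s := by
      intro h1
      exact hi ((ZMod.intCast_zmod_eq_zero_iff_dvd _ 2).2 h1)
    have key : |Φ i ⬝ᵥ s| ≤ 2 → rp A s = rp B s := by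
      intro h1
      apply h.rp_eq
      refine Pr.of_dot (φ := Φ i) (Int.isUnit_iff.2 ?_)
      rw [abs_le] at h1
      omega
    have key2 : ∀ C : Finset (Fin n → ℤ), (∀ x ∈ C, |Φ i ⬝ᵥ x| ≤ 1) → 0 < rp C s →
        |Φ i ⬝ᵥ s| ≤ 2 := by
      intro C hC hpos
      obtain ⟨x, hx, y, hy, rfl⟩ := exists_of_rp_pos hpos
      rw [dotProduct_add]
      have h1 := hC x hx
      have h2 := hC y hy
      rw [abs_le] at h1 h2 ⊢
      omega
    rcases Nat.eq_zero_or_pos (rp A s) with h1 | h1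
    · rcases Nat.eq_zero_or_pos (rp B s) with h2 | h2
      · rw [h1, h2]
      · exact key (key2 B (hΦB i) h2)
    · exact key (key2 A (hΦ i) h1)
  -- the kernel
  have hker : ∀ C : Finset (Fin n → ℤ), (∀ i, ∀ x ∈ C, |Φ i ⬝ᵥ x| ≤ 1) → ∀ x ∈ C,
      (kp Φ x = 0 ↔ ∀ i, Φ i ⬝ᵥ x = 0) := by
    intro C hC x hx
    constructor
    · intro h1 i
      have h2 := congrFun h1 i
      rw [kp_apply, Pi.zero_apply, ZMod.intCast_zmod_eq_zero_iff_dvd] at h2
      have h3 := hC i x hx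
      rw [abs_le] at h3
      have h4 : (2 : ℤ) ∣ Φ i ⬝ᵥ x := h2
      omega
    · intro h1
      funext i
      rw [kp_apply, h1 i]
      rfl
  have hfil : ∀ C : Finset (Fin n → ℤ), (∀ i, ∀ x ∈ C, |Φ i ⬝ᵥ x| ≤ 1) →
      C.filter (fun x => kp Φ x = 0) = C.filter (fun x => ∀ i, Φ i ⬝ᵥ x = 0) := by
    intro C hC
    exact filter_congr (hker C hC)
  refine ⟨?_, fun heq => ?_⟩
  · have h1 := cn_eq (kp Φ) hG (fun x hx => h.neg hx) (fun x hx => h.symm.neg hx) hA0 hB0 h.card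
      hrp 0
    unfold cn at h1
    rwa [hfil A hΦ, hfil B hΦB] at h1
  · refine adic (kp Φ) hG (fun x hx => h.neg hx) (fun x hx => h.symm.neg hx) hA0 hB0 h.card hrp ?_
    intro x hx
    rw [← hfil A hΦ, ← hfil B hΦB] at heq
    constructor
    · intro hxA
      have h1 : x ∈ A.filter (fun x => kp Φ x = 0) := mem_filter.2 ⟨hxA, hx⟩
      rw [heq] at h1
      exact (mem_filter.1 h1).1
    · intro hxB
      have h1 : x ∈ B.filter (fun x => kp Φ x = 0) := mem_filter.2 ⟨hxB, hx⟩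
      rw [← heq] at h1
      exact (mem_filter.1 h1).1

/-- functionals of width at most two -/
def Thn (K : Finset (Fin n → ℤ)) (c φ : Fin n → ℤ) : Prop := ∀ x ∈ K, |φ ⬝ᵥ vs c x| ≤ 2

theorem vs_zero (x : Fin n → ℤ) : vs 0 x = (2 : ℤ) • x := by
  funext i
  simp [vs]

theorem npar_two {x y : Fin n → ℤ} : Npar (vs 0 x) (vs 0 y) ↔ Npar x y := by
  unfold Npar
  simp only [vs_zero, Pi.smul_apply, smul_eq_mul]
  refine exists_congr fun i => exists_congr fun j => ?_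
  have h1 : 2 * x i * (2 * y j) - 2 * x j * (2 * y i) = 4 * (x i * y j - x j * y i) := by ring
  rw [h1]
  constructor
  · intro h h2
    exact h (by rw [h2, mul_zero])
  · intro h
    exact mul_ne_zero (by norm_num) h

/-- lattice centre, functionals whose common kernel is a line -/
theorem Tw.thin_line {A B : Finset (Fin n → ℤ)} (h : Tw A B 0) (hA : Spr A) {ι : Type} [Fintype ι]
    [DecidableEq ι] (Φ : ι → Fin n → ℤ) (hΦ : ∀ i, ∀ x ∈ A, |Φ i ⬝ᵥ x| ≤ 1)
    (hker : ∀ x y, (∀ i, Φ i ⬝ᵥ x = 0) → (∀ i, Φ i ⬝ᵥ y = 0) → ¬ Npar x y) : A = B := by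
  obtain ⟨h1, h2⟩ := h.thin hA Φ hΦ
  apply h2
  refine line_eq h.hK h.hL h.sK h.sL _ ?_ h1
  intro x y hx hy hxy
  exact hker x y hx hy (npar_two.1 hxy)

/-- lattice centre, all vertices on thin strips -/
theorem Tw.thin_hull {A B : Finset (Fin n → ℤ)} (h : Tw A B 0) (hA : Spr A)
    (hhull : ∀ x ∈ A, em x ∈ convexHull ℝ (em '' {v : Fin n → ℤ | v ∈ A ∧ ∃ φ : Fin n → ℤ,
      (∀ a ∈ A, |φ ⬝ᵥ a| ≤ 1) ∧ φ ⬝ᵥ v ≠ 0})) : A = B := by
  classical
  have hch : ∀ v : {v // v ∈ A}, ∃ φ : Fin n → ℤ, (∀ a ∈ A, |φ ⬝ᵥ a| ≤ 1) ∧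
      ((∃ ψ : Fin n → ℤ, (∀ a ∈ A, |ψ ⬝ᵥ a| ≤ 1) ∧ ψ ⬝ᵥ v.1 ≠ 0) → φ ⬝ᵥ v.1 ≠ 0) := by
    intro v
    by_cases hv : ∃ ψ : Fin n → ℤ, (∀ a ∈ A, |ψ ⬝ᵥ a| ≤ 1) ∧ ψ ⬝ᵥ v.1 ≠ 0
    · obtain ⟨ψ, h1, h2⟩ := hv
      exact ⟨ψ, h1, fun _ => h2⟩
    · exact ⟨0, fun a _ => by simp, fun h1 => absurd h1 hv⟩
  choose Φ hΦ hΦ2 using hch
  obtain ⟨h1, h2⟩ := h.thin hA Φ hΦ
  apply h2
  refine eq_of_subset_of_card_le ?_ h1.ge
  intro z hz
  rw [mem_filter] at hz ⊢
  refine ⟨?_, hz.2⟩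
  apply h.hL
  have h3 : convexHull ℝ (em '' {v : Fin n → ℤ | v ∈ A ∧ ∃ φ : Fin n → ℤ,
      (∀ a ∈ A, |φ ⬝ᵥ a| ≤ 1) ∧ φ ⬝ᵥ v ≠ 0}) ⊆
      (fun p : Fin n → ℝ => (1 / 2 : ℝ) • p + (1 / 2 : ℝ) • em z) ⁻¹'
        (convexHull ℝ (em '' (B : Set (Fin n → ℤ)))) := by
    apply convexHull_min
    · rintro _ ⟨v, ⟨hv, hφ⟩, rfl⟩
      have h4 := hΦ2 ⟨v, hv⟩ hφ
      have h5 := hΦ ⟨v, hv⟩ v hv
      have h6 := hz.2 ⟨v, hv⟩
      have h7 : Pr (v + z) := by
        refine Pr.of_dot (φ := Φ ⟨v, hv⟩) (Int.isUnit_iff.2 ?_)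
        rw [dotProduct_add, h6, add_zero]
        rw [abs_le] at h5
        simp only at h4
        omega
      obtain ⟨x, hx, y, hy, hxy⟩ := h.sum hv hz.1 h7
      have h8 : (1 / 2 : ℝ) • em v + (1 / 2 : ℝ) • em z =
          (1 / 2 : ℝ) • em x + (1 / 2 : ℝ) • em y := by
        rw [← smul_add, ← smul_add, ← em_add, ← em_add, hxy]
      show (1 / 2 : ℝ) • em v + (1 / 2 : ℝ) • em z ∈ convexHull ℝ (em '' (B : Set (Fin n → ℤ)))
      rw [h8]
      have h9 : em x ∈ convexHull ℝ (em '' (B : Set (Fin n → ℤ))) :=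
        subset_convexHull ℝ _ ⟨x, hx, rfl⟩
      have h10 : em y ∈ convexHull ℝ (em '' (B : Set (Fin n → ℤ))) :=
        subset_convexHull ℝ _ ⟨y, hy, rfl⟩
      exact (convex_convexHull ℝ _) h9 h10 (by norm_num) (by norm_num) (by norm_num)
    · intro p hp q hq a b ha hb hab
      have h4 := (convex_convexHull ℝ (em '' (B : Set (Fin n → ℤ)))) hp hq ha hb hab
      have h5 : a • ((1 / 2 : ℝ) • p + (1 / 2 : ℝ) • em z) +
          b • ((1 / 2 : ℝ) • q + (1 / 2 : ℝ) • em z) =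
          (1 / 2 : ℝ) • (a • p + b • q) + (1 / 2 : ℝ) • em z := by
        obtain rfl : b = 1 - a := by linarith
        module
      show (1 / 2 : ℝ) • (a • p + b • q) + (1 / 2 : ℝ) • em z ∈
        convexHull ℝ (em '' (B : Set (Fin n → ℤ)))
      rw [← h5]
      exact h4
  have h4 := h3 (hhull z hz.1)
  have h5 : (1 / 2 : ℝ) • em z + (1 / 2 : ℝ) • em z = em z := by
    rw [← add_smul]
    norm_num
  have h6 : (1 / 2 : ℝ) • em z + (1 / 2 : ℝ) • em z ∈
    convexHull ℝ (em '' (B : Set (Fin n → ℤ))) := h4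
  rwa [h5] at h6

/-- translation to the origin -/
theorem LC.shift {K : Finset (Fin n → ℤ)} (hK : LC K) (v : Fin n → ℤ) :
    LC (K.image (fun y => y - v)) := by
  classical
  intro x hx
  rw [mem_shift]
  apply hK
  rw [em_add]
  have h2 : convexHull ℝ (em '' ((K.image (fun y => y - v) : Finset (Fin n → ℤ)) :
      Set (Fin n → ℤ))) ⊆
      (fun p => p + em v) ⁻¹' (convexHull ℝ (em '' (K : Set (Fin n → ℤ)))) := by
    apply convexHull_min
    · rintro _ ⟨y, hy, rfl⟩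
      rw [mem_coe, mem_shift] at hy
      show em y + em v ∈ convexHull ℝ (em '' (K : Set (Fin n → ℤ)))
      rw [← em_add]
      exact subset_convexHull ℝ _ ⟨y + v, hy, rfl⟩
    · exact (convex_convexHull ℝ _).translate_preimage_left _
  exact h2 hx

theorem Tw.shift {K L : Finset (Fin n → ℤ)} {z : Fin n → ℤ} (h : Tw K L (z + z)) :
    Tw (K.image (fun y => y - z)) (L.image (fun y => y - z)) 0 := by
  classical
  have hinj : Function.Injective (fun y : Fin n → ℤ => y - z) := sub_left_injective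
  have hsym : ∀ C : Finset (Fin n → ℤ), (∀ x, x ∈ C ↔ z + z - x ∈ C) →
      ∀ x, x ∈ C.image (fun y => y - z) ↔ 0 - x ∈ C.image (fun y => y - z) := by
    intro C hC x
    rw [mem_shift, mem_shift, hC (x + z)]
    have h1 : z + z - (x + z) = 0 - x + z := by abel
    rw [h1]
  have hfol : ∀ (C : Finset (Fin n → ℤ)) (u : Fin n → ℤ),
      (fol (C.image (fun y => y - z)) u).card = (fol C u).card := by
    intro C u
    have h1 : fol (C.image (fun y => y - z)) u = (fol C u).image (fun y => y - z) := by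
      ext x
      rw [fol, mem_filter, mem_shift, mem_shift, mem_shift, fol, mem_filter]
      have h2 : x + u + z = x + z + u := by abel
      rw [h2]
    rw [h1, card_image_of_injective _ hinj]
  refine ⟨h.hK.shift z, h.hL.shift z, hsym K h.sK, hsym L h.sL, ?_, fun u hu => ?_⟩
  · rw [card_image_of_injective _ hinj, card_image_of_injective _ hinj, h.card]
  · rw [hfol, hfol, h.cnt u hu]

theorem vs_two (z x : Fin n → ℤ) : vs (z + z) (x + z) = (2 : ℤ) • x := by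
  funext i
  simp only [vs, Pi.add_apply, Pi.smul_apply, smul_eq_mul]
  ring

theorem Sph.shift {K : Finset (Fin n → ℤ)} {z : Fin n → ℤ} (h : Sph K (z + z)) :
    Spr (K.image (fun y => y - z)) := by
  classical
  intro b hb
  obtain ⟨x, hx, hbx⟩ := h b hb
  refine ⟨x - z, mem_image.2 ⟨x, hx, rfl⟩, ?_⟩
  have h1 : vs (z + z) x = (2 : ℤ) • (x - z) := by
    rw [← vs_two, sub_add_cancel]
  rw [h1] at hbx
  exact hbx.smul

theorem thin_shift {K : Finset (Fin n → ℤ)} {z φ : Fin n → ℤ} (h : Thn K (z + z) φ) :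
    ∀ a ∈ K.image (fun y => y - z), |φ ⬝ᵥ a| ≤ 1 := by
  classical
  intro a ha
  rw [mem_shift] at ha
  have h1 := h _ ha
  rw [vs_two, dotProduct_smul, smul_eq_mul, abs_mul, abs_two] at h1
  omega

theorem Sph.of_top (hn : 2 ≤ n) {K : Finset (Fin n → ℤ)} {c : Fin n → ℤ}
    (htop : affineSpan ℝ (em '' (K : Set (Fin n → ℤ))) = ⊤) : Sph K c := by
  intro b hb
  by_contra hcon
  push Not at hcon
  unfold Npar at hcon
  push Not at hcon
  obtain ⟨g, hg0, hg⟩ := exists_ker hn b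
  have hgb : g ⬝ᵥ b = 0 := by
    rw [dotProduct, ← hg]
    exact sum_congr rfl fun i _ => mul_comm _ _
  obtain ⟨i, hi⟩ := Function.ne_iff.1 hb
  have hi' : b i ≠ 0 := hi
  have h1 : ∀ x ∈ K, em g ⬝ᵥ em x = (em g ⬝ᵥ em c) / 2 := by
    intro x hx
    have h2 : g ⬝ᵥ vs c x = 0 := by
      have h3 : b i * (g ⬝ᵥ vs c x) = vs c x i * (g ⬝ᵥ b) := by
        unfold dotProduct
        rw [Finset.mul_sum, Finset.mul_sum]
        refine sum_congr rfl fun j _ => ?_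
        have h4 := hcon x hx i j
        linear_combination (g j) * h4
      rw [hgb, mul_zero] at h3
      exact (mul_eq_zero.1 h3).resolve_left hi'
    have h5 : em g ⬝ᵥ em (vs c x) = 0 := by
      rw [em_dot]
      exact_mod_cast h2
    rw [em_vs, dotProduct_sub, dotProduct_smul, smul_eq_mul] at h5
    linarith
  have h2 := not_const htop h1 (em g)
  rw [em_dot] at h2
  have h3 := sq_pos hg0
  have h4 : (0 : ℝ) < ((∑ i, g i * g i : ℤ) : ℝ) := by exact_mod_cast h3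
  linarith

/-- **All vertices on thin strips.** -/
theorem Tw.hull {K L : Finset (Fin n → ℤ)} {c : Fin n → ℤ} (h : Tw K L c) (hK : Sph K c)
    (hhull : ∀ x ∈ K, em x ∈ convexHull ℝ (em '' {v : Fin n → ℤ | v ∈ K ∧ ∃ φ : Fin n → ℤ,
      Thn K c φ ∧ φ ⬝ᵥ vs c v ≠ 0})) : L = K := by
  classical
  by_cases hc : ∃ z, c = z + z
  · obtain ⟨z, rfl⟩ := hc
    have h1 := h.shift.thin_hull hK.shift (by
      intro x hx
      rw [mem_shift] at hx
      have h2 := hhull _ hx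
      rw [em_add] at h2
      have h3 : convexHull ℝ (em '' {v : Fin n → ℤ | v ∈ K ∧ ∃ φ : Fin n → ℤ,
          Thn K (z + z) φ ∧ φ ⬝ᵥ vs (z + z) v ≠ 0}) ⊆
          (fun p => p + (-em z)) ⁻¹' (convexHull ℝ (em '' {v : Fin n → ℤ |
            v ∈ K.image (fun y => y - z) ∧ ∃ φ : Fin n → ℤ,
            (∀ a ∈ K.image (fun y => y - z), |φ ⬝ᵥ a| ≤ 1) ∧ φ ⬝ᵥ v ≠ 0})) := by
        apply convexHull_min
        · rintro _ ⟨v, ⟨hv, φ, hφ, hφv⟩, rfl⟩
          show em v + (-em z) ∈ convexHull ℝ (em '' {v : Fin n → ℤ |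
            v ∈ K.image (fun y => y - z) ∧ ∃ φ : Fin n → ℤ,
            (∀ a ∈ K.image (fun y => y - z), |φ ⬝ᵥ a| ≤ 1) ∧ φ ⬝ᵥ v ≠ 0})
          rw [← sub_eq_add_neg, ← em_sub]
          refine subset_convexHull ℝ _ ⟨v - z, ⟨mem_image.2 ⟨v, hv, rfl⟩, φ, thin_shift hφ, ?_⟩, rfl⟩
          intro h4
          apply hφv
          have h5 : vs (z + z) v = (2 : ℤ) • (v - z) := by rw [← vs_two, sub_add_cancel]
          rw [h5, dotProduct_smul, h4, smul_zero]
        · exact (convex_convexHull ℝ _).translate_preimage_left _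
      have h4 := h3 h2
      have h5 : em x + em z + (-em z) ∈ convexHull ℝ (em '' {v : Fin n → ℤ |
            v ∈ K.image (fun y => y - z) ∧ ∃ φ : Fin n → ℤ,
            (∀ a ∈ K.image (fun y => y - z), |φ ⬝ᵥ a| ≤ 1) ∧ φ ⬝ᵥ v ≠ 0}) := h4
      rwa [add_neg_cancel_right] at h5)
    exact (image_injective sub_left_injective h1).symm
  · refine h.eq_of_vis fun x hx => ?_
    refine convexHull_mono (Set.image_mono ?_) (hhull x hx)
    rintro v ⟨hv, φ, hφ, hφv⟩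
    refine ⟨hv, ?_⟩
    obtain ⟨w, hw, hwp, m, hm, hmw⟩ := exists_ray h.hK h.sK hc hv
    have h1 := hφ v hv
    have h2 : φ ⬝ᵥ vs c v = (2 * m + 1) * (φ ⬝ᵥ vs c w) := by
      rw [hmw, dotProduct_smul, smul_eq_mul]
    have h3 : φ ⬝ᵥ vs c w ≠ 0 := by
      intro h4
      rw [h4, mul_zero] at h2
      exact hφv h2
    have h4 : m = 0 := by
      rw [h2, abs_mul, abs_of_nonneg (show (0 : ℤ) ≤ 2 * m + 1 by omega)] at h1
      have h5 : 1 ≤ |φ ⬝ᵥ vs c w| := Int.one_le_abs h3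
      by_contra h6
      have h7 : 1 ≤ m := by omega
      nlinarith
    rw [hmw, h4]
    simpa using hwp

/-- **Thin in independent directions.** -/
theorem Tw.line {K L : Finset (Fin n → ℤ)} {c : Fin n → ℤ} (h : Tw K L c) (hK : Sph K c)
    {ι : Type} [Fintype ι] [DecidableEq ι] (Φ : ι → Fin n → ℤ) (hΦ : ∀ i, Thn K c (Φ i))
    (hker : ∀ x y, (∀ i, Φ i ⬝ᵥ x = 0) → (∀ i, Φ i ⬝ᵥ y = 0) → ¬ Npar x y) : L = K := by
  classical
  by_cases hc : ∃ z, c = z + z
  · obtain ⟨z, rfl⟩ := hc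
    have h1 := h.shift.thin_line hK.shift Φ (fun i => thin_shift (hΦ i)) hker
    exact (image_injective sub_left_injective h1).symm
  · -- points outside the line are visible
    have hKv : ∀ x ∈ K, ∀ i, Φ i ⬝ᵥ vs c x ≠ 0 → x ∈ L := by
      intro x hx i hi
      obtain ⟨w, hw, hwp, m, hm, hmw⟩ := exists_ray h.hK h.sK hc hx
      have h1 := hΦ i x hx
      have h2 : Φ i ⬝ᵥ vs c x = (2 * m + 1) * (Φ i ⬝ᵥ vs c w) := by
        rw [hmw, dotProduct_smul, smul_eq_mul]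
      have h3 : Φ i ⬝ᵥ vs c w ≠ 0 := by
        intro h4
        rw [h4, mul_zero] at h2
        exact hi h2
      have h4 : m = 0 := by
        rw [h2, abs_mul, abs_of_nonneg (show (0 : ℤ) ≤ 2 * m + 1 by omega)] at h1
        have h5 : 1 ≤ |Φ i ⬝ᵥ vs c w| := Int.one_le_abs h3
        by_contra h6
        have h7 : 1 ≤ m := by omega
        nlinarith
      refine (h.vis_mem ?_).1 hx
      rw [hmw, h4]
      simpa using hwp
    have hLv : ∀ x ∈ L, ∀ i, Φ i ⬝ᵥ vs c x ≠ 0 → x ∈ K := by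
      intro x hx i hi
      obtain ⟨w, hw, hwp, m, hm, hmw⟩ := exists_ray h.hL h.sL hc hx
      have hwK : w ∈ K := (h.vis_mem hwp).2 hw
      have h2 : Φ i ⬝ᵥ vs c x = (2 * m + 1) * (Φ i ⬝ᵥ vs c w) := by
        rw [hmw, dotProduct_smul, smul_eq_mul]
      have h3 : Φ i ⬝ᵥ vs c w ≠ 0 := by
        intro h4
        rw [h4, mul_zero] at h2
        exact hi h2
      have hpar : ∀ y : Fin n → ℤ, (2 : ℤ) ∣ Φ i ⬝ᵥ vs c y + Φ i ⬝ᵥ c := by
        intro y
        have h4 : Φ i ⬝ᵥ vs c y + Φ i ⬝ᵥ c = 2 * (Φ i ⬝ᵥ y) := by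
          rw [← dotProduct_add]
          have h5 : vs c y + c = (2 : ℤ) • y := by
            funext j
            simp only [vs, Pi.add_apply, Pi.smul_apply, smul_eq_mul]
            ring
          rw [h5, dotProduct_smul, smul_eq_mul]
        exact ⟨_, h4⟩
      have hdb : ∀ M : ℤ, (∀ y ∈ K, |Φ i ⬝ᵥ vs c y| ≤ M) → |Φ i ⬝ᵥ vs c x| ≤ 2 * M := by
        intro M hM
        rw [abs_le]
        have h5 := h.double_odd hc hK (φ := Φ i) (M := M) (fun y hy => (abs_le.1 (hM y hy)).2) hx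
        have h6 := h.double_odd hc hK (φ := Φ i) (M := M) (fun y hy => (abs_le.1 (hM y hy)).2)
          ((h.sL x).1 hx)
        rw [vs_sub, dotProduct_neg] at h6
        constructor <;> omega
      have h4 : m = 0 := by
        by_contra hm0
        have hm1 : 1 ≤ m := by omega
        have h5 := Int.one_le_abs h3
        have h6 : |Φ i ⬝ᵥ vs c x| = (2 * m + 1) * |Φ i ⬝ᵥ vs c w| := by
          rw [h2, abs_mul, abs_of_nonneg (show (0 : ℤ) ≤ 2 * m + 1 by omega)]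
        rcases Int.emod_two_eq_zero_or_one (Φ i ⬝ᵥ c) with hev | hod
        · have h7 := hdb 2 (hΦ i)
          have h8 := hpar w
          have h9 : 2 ≤ |Φ i ⬝ᵥ vs c w| := by
            rcases abs_cases (Φ i ⬝ᵥ vs c w) with ⟨h10, h11⟩ | ⟨h10, h11⟩ <;> omega
          nlinarith
        · have h7 := hdb 1 (fun y hy => by
            have h8 := hΦ i y hy
            have h9 := hpar y
            rw [abs_le] at h8 ⊢
            omega)
          nlinarith
      refine (h.vis_mem ?_).2 hx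
      rw [hmw, h4]
      simpa using hwp
    -- the line
    have hoff : K.filter (fun x => ¬ ∀ i, Φ i ⬝ᵥ vs c x = 0) =
        L.filter (fun x => ¬ ∀ i, Φ i ⬝ᵥ vs c x = 0) := by
      ext x
      rw [mem_filter, mem_filter]
      constructor
      · rintro ⟨hx, hx'⟩
        obtain ⟨i, hi⟩ := not_forall.1 hx'
        exact ⟨hKv x hx i hi, hx'⟩
      · rintro ⟨hx, hx'⟩
        obtain ⟨i, hi⟩ := not_forall.1 hx'
        exact ⟨hLv x hx i hi, hx'⟩
    have hcard : (K.filter (fun x => ∀ i, Φ i ⬝ᵥ vs c x = 0)).card =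
        (L.filter (fun x => ∀ i, Φ i ⬝ᵥ vs c x = 0)).card := by
      have h1 := card_filter_add_card_filter_not (s := K) (fun x => ∀ i, Φ i ⬝ᵥ vs c x = 0)
      have h2 := card_filter_add_card_filter_not (s := L) (fun x => ∀ i, Φ i ⬝ᵥ vs c x = 0)
      rw [hoff, h.card] at h1
      omega
    have hon := line_eq h.hK h.hL h.sK h.sL (fun x => ∀ i, Φ i ⬝ᵥ vs c x = 0)
      (fun x y hx hy => hker _ _ hx hy) hcard
    have h1 := filter_union_filter_not_eq (fun x => ∀ i, Φ i ⬝ᵥ vs c x = 0) K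
    have h2 := filter_union_filter_not_eq (fun x => ∀ i, Φ i ⬝ᵥ vs c x = 0) L
    rw [← h1, ← h2, hon, hoff]

end Pool.Agent.Lib.MP_8cf263_co
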