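import Pool.Agent.Lib.MP_8cf263_co.Levels

/-!
# Discrete Aleksandrov projection problem: even sets of small width
-/

set_option autoImplicit false

namespace Pool.Agent.Lib.MP_8cf263_co

open Finset

variable {n : ℕ}

/-- absolute values of functionals at most double -/
theorem Tw.double_abs {K L : Finset (Fin n → ℤ)} {c : Fin n → ℤ} (h : Tw K L c)
    (hodd : ¬ ∃ z, c = z + z) (hK : Sph K c) {φ : Fin n → ℤ} {M : ℤ}
    (hφ : ∀ x ∈ K, |φ ⬝ᵥ vs c x| ≤ M) {b : Fin n → ℤ} (hb : b ∈ L) :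
    |φ ⬝ᵥ vs c b| ≤ 2 * M := by
  rw [abs_le]
  have h5 := h.double_odd hodd hK (φ := φ) (M := M) (fun y hy => (abs_le.1 (hφ y hy)).2) hb
  have h6 := h.double_odd hodd hK (φ := φ) (M := M) (fun y hy => (abs_le.1 (hφ y hy)).2)
    ((h.sL b).1 hb)
  rw [vs_sub, dotProduct_neg] at h6
  constructor <;> omega

/-- sums of large value are not primitive -/
theorem Tw.large {K L : Finset (Fin n → ℤ)} {c : Fin n → ℤ} (h : Tw K L c) {φ : Fin n → ℤ} {M : ℤ}
    (hφ : ∀ x ∈ K, |φ ⬝ᵥ vs c x| ≤ M) {x y : Fin n → ℤ} (hx : x ∈ L) (hy : y ∈ L)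
    (hxy : M < φ ⬝ᵥ (x + y - c)) : ¬ Pr (x + y - c) := by
  intro hp
  obtain ⟨x', hx', y', hy', h1⟩ := h.symm.vis hp hx hy rfl
  have h2 := dot_vs_add φ c x' y'
  have h3 := (abs_le.1 (hφ x' hx')).2
  have h4 := (abs_le.1 (hφ y' hy')).2
  rw [h1] at h2
  omega

/-- divisibility of vectors that are not primitive -/
theorem dvd_of_not_pr {s φ : Fin n → ℤ} (hs : ¬ Pr s) {v : ℤ} (hv : φ ⬝ᵥ s = v) (h0 : v ≠ 0)
    {d : ℤ} (hd : ∀ q : ℤ, 2 ≤ q → q ∣ v → d ∣ q) : ∀ i, d ∣ s i := by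
  have hs0 : s ≠ 0 := by
    rintro rfl
    rw [dotProduct_zero] at hv
    exact h0 hv.symm
  obtain ⟨q, Y, hq, hY⟩ := exists_div hs hs0
  intro i
  have h1 : d ∣ q := hd q hq ⟨φ ⬝ᵥ Y, by rw [← hv, hY, dotProduct_smul, smul_eq_mul]⟩
  rw [hY, Pi.smul_apply, smul_eq_mul]
  exact Dvd.dvd.mul_right h1 _

/-- descent by midpoints -/
theorem LC.descent {L : Finset (Fin n → ℤ)} (hL : LC L) {w : Fin n → ℤ} (hw : w ∈ L)
    (P : (Fin n → ℤ) → Prop) (hP : ∀ y ∈ L, P y → (∀ i, (2 : ℤ) ∣ y i - w i) ∧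
      ∀ z, z + z = y + w → P z) {y : Fin n → ℤ} (hy : y ∈ L) (hPy : P y) : y = w := by
  classical
  by_contra hne
  obtain ⟨u, hu, hmin⟩ := Finset.exists_min_image (L.filter (fun y => P y ∧ y ≠ w))
    (fun y => ∑ i, |y i - w i|) ⟨y, mem_filter.2 ⟨hy, hPy, hne⟩⟩
  rw [mem_filter] at hu
  obtain ⟨huL, huP, hune⟩ := hu
  obtain ⟨h1, h2⟩ := hP u huL huP
  choose k hk using h1
  have hz : (fun i => w i + k i) + (fun i => w i + k i) = u + w := by
    funext i
    simp only [Pi.add_apply]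
    have := hk i
    linarith
  have hzL : (fun i => w i + k i) ∈ L := by
    refine hL.comb huL hw (a := 1) (b := 1) (k := 2) (by norm_num) (by norm_num)
      (by norm_num) (by norm_num) ?_
    intro i
    have := hk i
    linarith
  have hzne : (fun i => w i + k i) ≠ w := by
    intro h3
    apply hune
    funext i
    have h4 : w i + k i = w i := congrFun h3 i
    have h5 := hk i
    have h6 : k i = 0 := by linarith
    rw [h6] at h5
    linarith
  have h3 : ∑ i, |u i - w i| ≤ ∑ i, |(w i + k i) - w i| :=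
    hmin _ (mem_filter.2 ⟨hzL, h2 _ hz, hzne⟩)
  have h4 : ∑ i, |u i - w i| = 2 * ∑ i, |(w i + k i) - w i| := by
    rw [Finset.mul_sum]
    refine Finset.sum_congr rfl fun i _ => ?_
    rw [hk i, add_sub_cancel_left, abs_mul, abs_two]
  have h5 : 0 < ∑ i, |(w i + k i) - w i| := by
    obtain ⟨i, hi⟩ := Function.ne_iff.1 hzne
    exact Finset.sum_pos' (fun _ _ => abs_nonneg _) ⟨i, mem_univ _, abs_pos.2 (sub_ne_zero.2 hi)⟩
  linarith

/-- the level one and two points agree -/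
theorem Tw.level_eq {K L : Finset (Fin n → ℤ)} {c : Fin n → ℤ} (h : Tw K L c)
    (hodd : ¬ ∃ z, c = z + z) (φ : Fin n → ℤ) {j : ℤ} (hj : j = 1 ∨ j = 2 ∨ j = 4 ∨ j = 8) :
    K.filter (fun x => φ ⬝ᵥ vs c x = j) = L.filter (fun x => φ ⬝ᵥ vs c x = j) := by
  ext x
  rw [mem_filter, mem_filter]
  constructor
  · rintro ⟨hx, hx'⟩
    exact ⟨(h.vis_mem (vis_of_level h.hK h.sK hodd hx (φ := φ) (by rw [hx']; exact hj))).1 hx, hx'⟩
  · rintro ⟨hx, hx'⟩
    exact ⟨(h.vis_mem (vis_of_level h.hL h.sL hodd hx (φ := φ) (by rw [hx']; exact hj))).2 hx, hx'⟩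

/-- **Odd levels.** -/
theorem Tw.bound_three {K L : Finset (Fin n → ℤ)} {c : Fin n → ℤ} (h : Tw K L c)
    (hodd : ¬ ∃ z, c = z + z) (hK : Sph K c) {φ : Fin n → ℤ} (hpar : Odd (φ ⬝ᵥ c))
    (hφ : ∀ x ∈ K, |φ ⬝ᵥ vs c x| ≤ 3) : ∀ x ∈ L, |φ ⬝ᵥ vs c x| ≤ 3 := by
  classical
  have hpo : ∀ x, Odd (φ ⬝ᵥ vs c x) := by
    intro x
    have h1 := dot_vs_par φ c x
    rw [Int.odd_iff] at hpar ⊢
    omega
  have hL6 : ∀ x ∈ L, |φ ⬝ᵥ vs c x| ≤ 5 := by
    intro x hx
    have h1 := h.double_abs hodd hK hφ hx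
    have h2 := hpo x
    rw [Int.odd_iff] at h2
    rw [abs_le] at h1 ⊢
    omega
  by_contra hcon
  push Not at hcon
  obtain ⟨b₀, hb₀, hb₀'⟩ := hcon
  -- a point on the level five
  obtain ⟨b, hb, hb5⟩ : ∃ b ∈ L, φ ⬝ᵥ vs c b = 5 := by
    have h1 := hL6 b₀ hb₀
    have h2 := hpo b₀
    rw [Int.odd_iff] at h2
    rcases abs_cases (φ ⬝ᵥ vs c b₀) with ⟨h3, h4⟩ | ⟨h3, h4⟩
    · exact ⟨b₀, hb₀, by omega⟩
    · refine ⟨c - b₀, (h.sL b₀).1 hb₀, ?_⟩
      rw [vs_sub, dotProduct_neg]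
      omega
  -- points on the level five are five times a visible vector
  have hfive : ∀ b ∈ L, φ ⬝ᵥ vs c b = 5 → ∃ w ∈ L, Pr (vs c w) ∧ φ ⬝ᵥ vs c w = 1 ∧
      b = w + (2 : ℤ) • vs c w := by
    intro b hb hb5
    obtain ⟨w, hw, hwp, m, hm, hmw⟩ := exists_ray h.hL h.sL hodd hb
    have h2 : (2 * m + 1) * (φ ⬝ᵥ vs c w) = 5 := by
      rw [← hb5, hmw, dotProduct_smul, smul_eq_mul]
    have h3 : 2 * m + 1 ∣ 5 := ⟨_, h2.symm⟩
    have h4 : 2 * m + 1 ≤ 5 := Int.le_of_dvd (by norm_num) h3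
    have h5 : m = 2 := by
      have h6 : m ≤ 2 := by omega
      interval_cases m
      · exfalso
        have h7 : Pr (vs c b) := by
          rw [hmw]
          simpa using hwp
        have h8 := (h.vis_mem h7).2 hb
        have h9 := (abs_le.1 (hφ b h8)).2
        omega
      · norm_num at h3
      · rfl
    subst h5
    refine ⟨w, hw, hwp, by omega, funext fun i => ?_⟩
    have h6 := congrFun hmw i
    simp only [vs, Pi.smul_apply, smul_eq_mul] at h6
    simp only [vs, Pi.add_apply, Pi.smul_apply, smul_eq_mul]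
    linarith
  obtain ⟨w, hw, hwp, hw1, hbw⟩ := hfive b hb hb5
  -- the point with three times the vector
  have h3L : ∀ w ∈ L, φ ⬝ᵥ vs c w = 1 → w + (2 : ℤ) • vs c w ∈ L →
      w + vs c w ∈ L ∧ φ ⬝ᵥ vs c (w + vs c w) = 3 := by
    intro w hw hw1 hb
    constructor
    · refine h.hL.comb hw hb (a := 1) (b := 1) (k := 2) (by norm_num) (by norm_num)
        (by norm_num) (by norm_num) ?_
      intro i
      simp only [Pi.add_apply, Pi.smul_apply, smul_eq_mul]
      ring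
    · have h1 : vs c (w + vs c w) = (3 : ℤ) • vs c w := by
        funext i
        simp only [vs, Pi.add_apply, Pi.smul_apply, smul_eq_mul]
        ring
      rw [h1, dotProduct_smul, hw1, smul_eq_mul]
      norm_num
  obtain ⟨hw3, hw33⟩ := h3L w hw hw1 (hbw ▸ hb)
  have hvw : ∀ i, c i = 2 * w i - vs c w i := fun i => by
    simp only [vs]
    ring
  -- the level three
  have hL3 : ∀ y ∈ L, φ ⬝ᵥ vs c y = 3 → y = w + vs c w := by
    intro y hy hy3
    refine h.hL.descent hw3 (fun y => φ ⬝ᵥ vs c y = 3) ?_ hy hy3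
    intro y hy hy3
    have h1 : φ ⬝ᵥ (b + y - c) = 4 := by
      have := dot_vs_add φ c b y
      omega
    have h2 := h.large hφ hb hy (by omega)
    have h3 := dvd_of_not_pr h2 h1 (by norm_num) (d := 2) (by
      intro q hq hq4
      have h4 : q ≤ 4 := Int.le_of_dvd (by norm_num) hq4
      interval_cases q
      · norm_num
      · norm_num at hq4
      · norm_num)
    constructor
    · intro i
      have h4 := h3 i
      rw [hbw] at h4
      simp only [Pi.sub_apply, Pi.add_apply, Pi.smul_apply, smul_eq_mul] at h4 ⊢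
      have h5 := hvw i
      omega
    · intro z hz
      have h4 := dot_vs_add φ c y (w + vs c w)
      have h5 := dot_vs_add φ c z z
      rw [hz, ← h4, hy3, hw33] at h5
      omega
  -- the level five
  have hL5 : ∀ y ∈ L, φ ⬝ᵥ vs c y = 5 → y = b := by
    intro y hy hy5
    obtain ⟨w', hw', hwp', hw1', hyw⟩ := hfive y hy hy5
    obtain ⟨h1, h2⟩ := h3L w' hw' hw1' (hyw ▸ hy)
    have h3 := hL3 _ h1 h2
    have h4 : w' = w := by
      funext i
      have h5 := congrFun h3 i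
      simp only [vs, Pi.add_apply] at h5
      omega
    rw [hyw, h4, hbw]
  -- the level one has two points
  have hKL1 := h.level_eq hodd φ (j := 1) (Or.inl rfl)
  have hlv1 : lv K c φ 1 = lv L c φ 1 := by
    unfold lv
    rw [hKL1]
  have hlv3 : lv L c φ 3 = 1 := by
    unfold lv
    rw [card_eq_one]
    refine ⟨w + vs c w, ?_⟩
    ext y
    rw [mem_filter, mem_singleton]
    constructor
    · rintro ⟨h1, h2⟩
      exact hL3 y h1 h2
    · rintro rfl
      exact ⟨hw3, hw33⟩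
  have hlv5 : lv L c φ 5 = 1 := by
    unfold lv
    rw [card_eq_one]
    refine ⟨b, ?_⟩
    ext y
    rw [mem_filter, mem_singleton]
    constructor
    · rintro ⟨h1, h2⟩
      exact hL5 y h1 h2
    · rintro rfl
      exact ⟨hb, hb5⟩
  have hlv1' : 1 < lv L c φ 1 := by
    obtain ⟨y, hy, hyw⟩ := h.sph_odd hodd hK (vs c w) hwp.ne_zero
    have hself : ∀ t : ℤ, ¬ Npar (vs c w) (t • vs c w) := by
      intro t
      unfold Npar
      push Not
      intro i j
      simp only [Pi.smul_apply, smul_eq_mul]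
      ring
    have h3' : vs c (w + vs c w) = (3 : ℤ) • vs c w := by
      funext i
      simp only [vs, Pi.add_apply, Pi.smul_apply, smul_eq_mul]
      ring
    have h5' : vs c b = (5 : ℤ) • vs c w := by
      rw [hbw]
      funext i
      simp only [vs, Pi.add_apply, Pi.smul_apply, smul_eq_mul]
      ring
    have key : ∀ y ∈ L, Npar (vs c w) (vs c y) → 0 < φ ⬝ᵥ vs c y → 1 < lv L c φ 1 := by
      intro y hy hyw hpos
      have h1 := (abs_le.1 (hL6 y hy)).2
      have h2 := hpo y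
      rw [Int.odd_iff] at h2
      have h3 : φ ⬝ᵥ vs c y = 1 ∨ φ ⬝ᵥ vs c y = 3 ∨ φ ⬝ᵥ vs c y = 5 := by omega
      rcases h3 with h3 | h3 | h3
      · refine one_lt_card.2 ⟨w, mem_filter.2 ⟨hw, hw1⟩, y, mem_filter.2 ⟨hy, h3⟩, ?_⟩
        rintro rfl
        exact hself 1 (by rwa [one_smul])
      · rw [hL3 y hy h3, h3'] at hyw
        exact absurd hyw (hself 3)
      · rw [hL5 y hy h3, h5'] at hyw
        exact absurd hyw (hself 5)
    rcases lt_or_ge 0 (φ ⬝ᵥ vs c y) with h1 | h1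
    · exact key y hy hyw h1
    · refine key (c - y) ((h.sL y).1 hy) ?_ ?_
      · rw [vs_sub]
        exact hyw.neg
      · rw [vs_sub, dotProduct_neg]
        have h2 := hpo y
        rw [Int.odd_iff] at h2
        omega
  -- levels that are empty
  have hev : ∀ (C : Finset (Fin n → ℤ)) (j : ℤ), ¬ Odd j → lv C c φ j = 0 := by
    intro C j hj
    unfold lv
    rw [card_eq_zero, filter_eq_empty_iff]
    rintro x _ hx
    exact hj (hx ▸ hpo x)
  have hK5 : lv K c φ 5 = 0 := by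
    unfold lv
    rw [card_eq_zero, filter_eq_empty_iff]
    intro x hx hx5
    have := (abs_le.1 (hφ x hx)).2
    omega
  have hbig : ∀ (C : Finset (Fin n → ℤ)), (∀ x ∈ C, |φ ⬝ᵥ vs c x| ≤ 5) → lv C c φ 7 = 0 := by
    intro C hC
    unfold lv
    rw [card_eq_zero, filter_eq_empty_iff]
    intro x hx hx5
    have := (abs_le.1 (hC x hx)).2
    omega
  have hφ5 : ∀ x ∈ K, |φ ⬝ᵥ vs c x| ≤ 5 := fun x hx => (hφ x hx).trans (by norm_num)
  have hpairs := h.pairs hφ5 hL6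
  have hIcc : Icc (-5 : ℤ) 5 = {-5, -4, -3, -2, -1, 0, 1, 2, 3, 4, 5} := by decide
  have hsum : ∀ C : Finset (Fin n → ℤ), (∀ x, x ∈ C ↔ c - x ∈ C) → (∀ x ∈ C, |φ ⬝ᵥ vs c x| ≤ 5) →
      ∑ j ∈ Icc (-5 : ℤ) 5, lv C c φ j * lv C c φ (2 - j) =
      2 * (lv C c φ 3 * lv C c φ 5) + 2 * (lv C c φ 1 * lv C c φ 3) + lv C c φ 1 * lv C c φ 1 := by
    intro C hC hC5
    have e0 := hev C 0 (by decide)
    have e2 := hev C 2 (by decide)
    have e4 := hev C 4 (by decide)
    have m1 := lv_neg hC φ 1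
    have m2 := lv_neg hC φ 2
    have m3 := lv_neg hC φ 3
    have m4 := lv_neg hC φ 4
    have m5 := lv_neg hC φ 5
    have b7 := hbig C hC5
    rw [hIcc]
    repeat rw [Finset.sum_insert (by decide)]
    rw [Finset.sum_singleton]
    norm_num
    rw [m1, m2, m3, m4, m5, e0, e2, e4, b7]
    ring
  rw [hsum K h.sK hφ5, hsum L h.sL hL6, hK5, hlv3, hlv5, hlv1] at hpairs
  set a := lv L c φ 1 with ha
  set k := lv K c φ 3 with hk
  have h1 : a * k = a + 1 := by
    have : 2 * (a * k) = 2 * (a + 1) := by linarith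
    omega
  have h2 : a ∣ 1 := (Nat.dvd_add_right (dvd_refl a)).1 ⟨k, h1.symm⟩
  have h3 : a ≤ 1 := Nat.le_of_dvd (by norm_num) h2
  omega

end Pool.Agent.Lib.MP_8cf263_co
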