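import Pool.Agent.Lib.MP_8cf263_co.Width

/-!
# Discrete Aleksandrov projection problem: even sets of small width, II
-/

set_option autoImplicit false

namespace Pool.Agent.Lib.MP_8cf263_co

open Finset

variable {n : ℕ}

/-- **Even levels.** -/
theorem Tw.bound_four {K L : Finset (Fin n → ℤ)} {c : Fin n → ℤ} (h : Tw K L c)
    (hodd : ¬ ∃ z, c = z + z) (hK : Sph K c) {φ : Fin n → ℤ} (hpar : Even (φ ⬝ᵥ c))
    (hφ : ∀ x ∈ K, |φ ⬝ᵥ vs c x| ≤ 4) : ∀ x ∈ L, |φ ⬝ᵥ vs c x| ≤ 4 := by
  classical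
  have hpo : ∀ x, Even (φ ⬝ᵥ vs c x) := by
    intro x
    have h1 := dot_vs_par φ c x
    rw [Int.even_iff] at hpar ⊢
    omega
  -- invisible points of `L` outside `K`
  have hinv : ∀ b ∈ L, 4 < φ ⬝ᵥ vs c b → φ ⬝ᵥ vs c b = 6 ∧ ∃ w ∈ L, φ ⬝ᵥ vs c w = 2 ∧
      b = w + vs c w := by
    intro b hb hb4
    have h1 := (abs_le.1 (h.double_abs hodd hK hφ hb)).2
    have h2 := hpo b
    rw [Int.even_iff] at h2
    have h3 : φ ⬝ᵥ vs c b = 6 ∨ φ ⬝ᵥ vs c b = 8 := by omega
    have hnv : ¬ Pr (vs c b) := by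
      intro h4
      have h5 := (abs_le.1 (hφ b ((h.vis_mem h4).2 hb))).2
      omega
    rcases h3 with h3 | h3
    swap
    · exact absurd (vis_of_level h.hL h.sL hodd hb (φ := φ) (Or.inr (Or.inr (Or.inr h3)))) hnv
    refine ⟨h3, ?_⟩
    obtain ⟨w, hw, hwp, m, hm, hmw⟩ := exists_ray h.hL h.sL hodd hb
    have h4 : (2 * m + 1) * (φ ⬝ᵥ vs c w) = 6 := by
      rw [← h3, hmw, dotProduct_smul, smul_eq_mul]
    have h5 : 2 * m + 1 ∣ 6 := ⟨_, h4.symm⟩
    have h6 : 2 * m + 1 ≤ 6 := Int.le_of_dvd (by norm_num) h5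
    have h7 : m = 1 := by
      have h8 : m ≤ 2 := by omega
      interval_cases m
      · exfalso
        apply hnv
        rw [hmw]
        simpa using hwp
      · rfl
      · norm_num at h5
    subst h7
    refine ⟨w, hw, by omega, funext fun i => ?_⟩
    have h6 := congrFun hmw i
    simp only [vs, Pi.smul_apply, smul_eq_mul] at h6
    simp only [vs, Pi.add_apply]
    linarith
  by_contra hcon
  push Not at hcon
  obtain ⟨b₀, hb₀, hb₀'⟩ := hcon
  obtain ⟨b, hb, hb6⟩ : ∃ b ∈ L, φ ⬝ᵥ vs c b = 6 := by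
    rcases abs_cases (φ ⬝ᵥ vs c b₀) with ⟨h3, h4⟩ | ⟨h3, h4⟩
    · exact ⟨b₀, hb₀, (hinv b₀ hb₀ (by omega)).1⟩
    · refine ⟨c - b₀, (h.sL b₀).1 hb₀, (hinv _ ((h.sL b₀).1 hb₀) ?_).1⟩
      rw [vs_sub, dotProduct_neg]
      omega
  have hL6 : ∀ x ∈ L, |φ ⬝ᵥ vs c x| ≤ 6 := by
    intro x hx
    rw [abs_le]
    constructor
    · by_contra h1
      have h2 := (hinv _ ((h.sL x).1 hx) (by
        rw [vs_sub, dotProduct_neg]
        omega)).1
      rw [vs_sub, dotProduct_neg] at h2
      omega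
    · by_contra h1
      have h2 := (hinv x hx (by omega)).1
      omega
  have hbK : b ∉ K := by
    intro h1
    have h2 := (abs_le.1 (hφ b h1)).2
    omega
  obtain ⟨-, w, hw, hw2, hbw⟩ := hinv b hb (by omega)
  have hvw : ∀ i, c i = 2 * w i - vs c w i := fun i => by
    simp only [vs]
    ring
  have hKL2 := h.level_eq hodd φ (j := 2) (Or.inr (Or.inl rfl))
  have hKL4 := h.level_eq hodd φ (j := 4) (Or.inr (Or.inr (Or.inl rfl)))
  -- the level two
  have hL2 : ∀ y ∈ L, φ ⬝ᵥ vs c y = 2 → y = w := by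
    intro y hy hy2
    refine h.hL.descent hw (fun y => φ ⬝ᵥ vs c y = 2) ?_ hy hy2
    intro y hy hy2
    have h1 : φ ⬝ᵥ (b + y - c) = 4 := by
      have := dot_vs_add φ c b y
      omega
    have h2 : ¬ Pr (b + y - c) := by
      intro hp
      have h3 := h.reps (p := b + y) hp
      have h4 : K.filter (fun x => b + y - x ∈ K) ⊆
          (L.filter (fun x => b + y - x ∈ L)).erase b := by
        intro x hx
        rw [mem_filter] at hx
        obtain ⟨hx, hx'⟩ := hx
        have h5 := dot_vs_add φ c x (b + y - x)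
        have h6 : x + (b + y - x) - c = b + y - c := by abel
        rw [h6, h1] at h5
        have h7 := (abs_le.1 (hφ x hx)).2
        have h8 := (abs_le.1 (hφ _ hx')).2
        have h9 : x ∈ L.filter (fun x => φ ⬝ᵥ vs c x = 4) := by
          rw [← hKL4, mem_filter]
          exact ⟨hx, by omega⟩
        have h10 : b + y - x ∈ L.filter (fun x => φ ⬝ᵥ vs c x = 4) := by
          rw [← hKL4, mem_filter]
          exact ⟨hx', by omega⟩
        rw [mem_erase, mem_filter]
        refine ⟨?_, (mem_filter.1 h9).1, (mem_filter.1 h10).1⟩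
        rintro rfl
        exact hbK hx
      have h5 := card_le_card h4
      have h6 : b ∈ L.filter (fun x => b + y - x ∈ L) := by
        rw [mem_filter, add_sub_cancel_left]
        exact ⟨hb, hy⟩
      rw [card_erase_of_mem h6, h3] at h5
      have h7 : 0 < (L.filter (fun x => b + y - x ∈ L)).card := card_pos.2 ⟨b, h6⟩
      omega
    have h3 := dvd_of_not_pr h2 h1 (by norm_num) (d := 2) (by
      intro q hq hq4
      have h4 : q ≤ 4 := Int.le_of_dvd (by norm_num) hq4
      interval_cases q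
      · norm_num
      · norm_num at hq4
      · norm_num)
    constructor
    · intro i
      have h4 := h3 i
      rw [hbw] at h4
      simp only [Pi.sub_apply, Pi.add_apply] at h4 ⊢
      have h5 := hvw i
      omega
    · intro z hz
      have h4 := dot_vs_add φ c y w
      have h5 := dot_vs_add φ c z z
      rw [hz, ← h4, hy2, hw2] at h5
      omega
  -- the level six
  have hL6' : ∀ y ∈ L, φ ⬝ᵥ vs c y = 6 → y = b := by
    intro y hy hy6
    obtain ⟨-, w', hw', hw2', hyw⟩ := hinv y hy (by omega)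
    rw [hyw, hL2 w' hw' hw2', hbw]
  have hlv2 : lv L c φ 2 = 1 := by
    unfold lv
    rw [card_eq_one]
    refine ⟨w, ?_⟩
    ext y
    rw [mem_filter, mem_singleton]
    constructor
    · rintro ⟨h1, h2⟩
      exact hL2 y h1 h2
    · rintro rfl
      exact ⟨hw, hw2⟩
  have hlv6 : lv L c φ 6 = 1 := by
    unfold lv
    rw [card_eq_one]
    refine ⟨b, ?_⟩
    ext y
    rw [mem_filter, mem_singleton]
    constructor
    · rintro ⟨h1, h2⟩
      exact hL6' y h1 h2
    · rintro rfl
      exact ⟨hb, hb6⟩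
  have hlvK2 : lv K c φ 2 = 1 := by
    rw [← hlv2]
    unfold lv
    rw [hKL2]
  have hlv4 : lv K c φ 4 = lv L c φ 4 := by
    unfold lv
    rw [hKL4]
  have hev : ∀ (C : Finset (Fin n → ℤ)) (j : ℤ), ¬ Even j → lv C c φ j = 0 := by
    intro C j hj
    unfold lv
    rw [card_eq_zero, filter_eq_empty_iff]
    rintro x _ hx
    exact hj (hx ▸ hpo x)
  have hbig : ∀ (C : Finset (Fin n → ℤ)), (∀ x ∈ C, |φ ⬝ᵥ vs c x| ≤ 6) → lv C c φ 8 = 0 := by
    intro C hC
    unfold lv
    rw [card_eq_zero, filter_eq_empty_iff]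
    intro x hx hx5
    have := (abs_le.1 (hC x hx)).2
    omega
  have hK6 : lv K c φ 6 = 0 := by
    unfold lv
    rw [card_eq_zero, filter_eq_empty_iff]
    intro x hx hx5
    have := (abs_le.1 (hφ x hx)).2
    omega
  have hφ6 : ∀ x ∈ K, |φ ⬝ᵥ vs c x| ≤ 6 := fun x hx => (hφ x hx).trans (by norm_num)
  have hpairs := h.pairs hφ6 hL6
  have hIcc : Icc (-6 : ℤ) 6 = {-6, -5, -4, -3, -2, -1, 0, 1, 2, 3, 4, 5, 6} := by decide
  have hsum : ∀ C : Finset (Fin n → ℤ), (∀ x, x ∈ C ↔ c - x ∈ C) → (∀ x ∈ C, |φ ⬝ᵥ vs c x| ≤ 6) →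
      ∑ j ∈ Icc (-6 : ℤ) 6, lv C c φ j * lv C c φ (2 - j) =
      2 * (lv C c φ 4 * lv C c φ 6) + 2 * (lv C c φ 2 * lv C c φ 4) +
        2 * (lv C c φ 0 * lv C c φ 2) := by
    intro C hC hC6
    have e1 := hev C 1 (by decide)
    have e3 := hev C 3 (by decide)
    have e5 := hev C 5 (by decide)
    have m1 := lv_neg hC φ 1
    have m2 := lv_neg hC φ 2
    have m3 := lv_neg hC φ 3
    have m4 := lv_neg hC φ 4
    have m5 := lv_neg hC φ 5
    have m6 := lv_neg hC φ 6
    have b8 := hbig C hC6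
    rw [hIcc]
    repeat rw [Finset.sum_insert (by decide)]
    rw [Finset.sum_singleton]
    norm_num
    rw [m1, m2, m3, m4, m5, m6, e1, e3, e5, b8]
    ring
  have hcard : ∀ C : Finset (Fin n → ℤ), (∀ x, x ∈ C ↔ c - x ∈ C) →
      (∀ x ∈ C, |φ ⬝ᵥ vs c x| ≤ 6) →
      C.card = 2 * lv C c φ 6 + 2 * lv C c φ 4 + 2 * lv C c φ 2 + lv C c φ 0 := by
    intro C hC hC6
    have e1 := hev C 1 (by decide)
    have e3 := hev C 3 (by decide)
    have e5 := hev C 5 (by decide)
    have m1 := lv_neg hC φ 1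
    have m2 := lv_neg hC φ 2
    have m3 := lv_neg hC φ 3
    have m4 := lv_neg hC φ 4
    have m5 := lv_neg hC φ 5
    have m6 := lv_neg hC φ 6
    rw [card_lv hC6, hIcc]
    repeat rw [Finset.sum_insert (by decide)]
    rw [Finset.sum_singleton, m1, m2, m3, m4, m5, m6, e1, e3, e5]
    ring
  rw [hsum K h.sK hφ6, hsum L h.sL hL6, hK6, hlv2, hlv6, hlvK2, hlv4] at hpairs
  have hc1 := hcard K h.sK hφ6
  have hc2 := hcard L h.sL hL6
  rw [hK6, hlvK2, hlv4] at hc1
  rw [hlv6, hlv2] at hc2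
  have hcc := h.card
  have h42 : lv L c φ 4 = 2 := by omega
  -- the two points of the level four
  unfold lv at h42
  obtain ⟨y₁, y₂, hne, h12⟩ := card_eq_two.1 h42
  have hy₁ : y₁ ∈ L.filter (fun x => φ ⬝ᵥ vs c x = 4) := by
    rw [h12]
    exact mem_insert_self _ _
  have hy₂ : y₂ ∈ L.filter (fun x => φ ⬝ᵥ vs c x = 4) := by
    rw [h12]
    exact mem_insert_of_mem (mem_singleton_self _)
  rw [mem_filter] at hy₁ hy₂
  have hfive : ∀ y ∈ L, φ ⬝ᵥ vs c y = 4 → ∀ i, (5 : ℤ) ∣ (b + y - c) i := by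
    intro y hy hy4
    have h1 : φ ⬝ᵥ (b + y - c) = 5 := by
      have := dot_vs_add φ c b y
      omega
    refine dvd_of_not_pr (h.large hφ hb hy (by omega)) h1 (by norm_num) (d := 5) ?_
    intro q hq hq5
    have h4 : q ≤ 5 := Int.le_of_dvd (by norm_num) hq5
    interval_cases q
    · norm_num at hq5
    · norm_num at hq5
    · norm_num at hq5
    · norm_num
  have hd : ∀ i, (5 : ℤ) ∣ y₁ i - y₂ i := by
    intro i
    have h1 := hfive y₁ hy₁.1 hy₁.2 i
    have h2 := hfive y₂ hy₂.1 hy₂.2 i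
    have h3 := dvd_sub h1 h2
    have h4 : (b + y₁ - c) i - (b + y₂ - c) i = y₁ i - y₂ i := by
      simp only [Pi.sub_apply, Pi.add_apply]
      ring
    rwa [h4] at h3
  choose k hk using hd
  have hy₃ : (fun i => y₂ i + k i) ∈ L := by
    refine h.hL.comb hy₁.1 hy₂.1 (a := 1) (b := 4) (k := 5) (by norm_num) (by norm_num)
      (by norm_num) (by norm_num) ?_
    intro i
    have := hk i
    linarith
  have hy₃' : φ ⬝ᵥ vs c (fun i => y₂ i + k i) = 4 := by
    have h1 : (5 : ℤ) • vs c (fun i => y₂ i + k i) = vs c y₁ + (4 : ℤ) • vs c y₂ := by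
      funext i
      simp only [vs, Pi.smul_apply, Pi.add_apply, smul_eq_mul]
      have := hk i
      linarith
    have h2 := congrArg (fun v => φ ⬝ᵥ v) h1
    simp only [dotProduct_add, dotProduct_smul, smul_eq_mul, hy₁.2, hy₂.2] at h2
    omega
  have h1 : (fun i => y₂ i + k i) ∈ L.filter (fun x => φ ⬝ᵥ vs c x = 4) :=
    mem_filter.2 ⟨hy₃, hy₃'⟩
  rw [h12, mem_insert, mem_singleton] at h1
  apply hne
  rcases h1 with h1 | h1
  · funext i
    have h2 : y₂ i + k i = y₁ i := congrFun h1 i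
    have h3 := hk i
    omega
  · funext i
    have h2 : y₂ i + k i = y₂ i := congrFun h1 i
    have h3 := hk i
    omega

/-- **Width one or three.** -/
theorem Tw.width_three {K L : Finset (Fin n → ℤ)} {c : Fin n → ℤ} (h : Tw K L c)
    (hodd : ¬ ∃ z, c = z + z) (hK : Sph K c) {φ : Fin n → ℤ} (hpar : Odd (φ ⬝ᵥ c))
    (hφ : ∀ x ∈ K, |φ ⬝ᵥ vs c x| ≤ 3) : L = K := by
  classical
  have hφL := h.bound_three hodd hK hpar hφ
  have hpo : ∀ x, Odd (φ ⬝ᵥ vs c x) := by
    intro x
    have h1 := dot_vs_par φ c x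
    rw [Int.odd_iff] at hpar ⊢
    omega
  have h1 := h.level_eq hodd φ (j := 1) (Or.inl rfl)
  -- points on the level minus one
  have hm1 : K.filter (fun x => φ ⬝ᵥ vs c x = -1) = L.filter (fun x => φ ⬝ᵥ vs c x = -1) := by
    have key : ∀ C D : Finset (Fin n → ℤ), (∀ x, x ∈ C ↔ c - x ∈ C) → (∀ x, x ∈ D ↔ c - x ∈ D) →
        C.filter (fun x => φ ⬝ᵥ vs c x = 1) = D.filter (fun x => φ ⬝ᵥ vs c x = 1) →
        ∀ x ∈ C, φ ⬝ᵥ vs c x = -1 → x ∈ D := by
      intro C D hC hD hCD x hx hx1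
      have h2 : c - x ∈ C.filter (fun x => φ ⬝ᵥ vs c x = 1) := by
        rw [mem_filter, vs_sub, dotProduct_neg, hx1]
        exact ⟨(hC x).1 hx, by norm_num⟩
      rw [hCD, mem_filter] at h2
      exact (hD x).2 h2.1
    ext x
    rw [mem_filter, mem_filter]
    constructor
    · rintro ⟨hx, hx'⟩
      exact ⟨key K L h.sK h.sL h1 x hx hx', hx'⟩
    · rintro ⟨hx, hx'⟩
      exact ⟨key L K h.sL h.sK h1.symm x hx hx', hx'⟩
  -- the level three
  have h3 : K.filter (fun x => φ ⬝ᵥ vs c x = 3) = L.filter (fun x => φ ⬝ᵥ vs c x = 3) := by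
    rcases (K.filter (fun x => φ ⬝ᵥ vs c x = -1)).eq_empty_or_nonempty with he | hne
    · -- then there are no invisible points
      have key : ∀ C D : Finset (Fin n → ℤ), Tw C D c →
          C.filter (fun x => φ ⬝ᵥ vs c x = -1) = ∅ → ∀ x ∈ C, φ ⬝ᵥ vs c x = 3 → x ∈ D := by
        intro C D hT hemp x hx hx3
        obtain ⟨w, hw, hwp, m, hm, hmw⟩ := exists_ray hT.hK hT.sK hodd hx
        have h2 : (2 * m + 1) * (φ ⬝ᵥ vs c w) = 3 := by
          rw [← hx3, hmw, dotProduct_smul, smul_eq_mul]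
        have h4 : 2 * m + 1 ∣ 3 := ⟨_, h2.symm⟩
        have h5 : 2 * m + 1 ≤ 3 := Int.le_of_dvd (by norm_num) h4
        have h6 : m ≤ 1 := by omega
        interval_cases m
        · refine (hT.vis_mem ?_).1 hx
          rw [hmw]
          simpa using hwp
        · exfalso
          have h7 : c - w ∈ C.filter (fun x => φ ⬝ᵥ vs c x = -1) := by
            rw [mem_filter, vs_sub, dotProduct_neg]
            exact ⟨(hT.sK w).1 hw, by omega⟩
          rw [hemp] at h7
          exact notMem_empty _ h7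
      ext x
      rw [mem_filter, mem_filter]
      constructor
      · rintro ⟨hx, hx'⟩
        exact ⟨key K L h he x hx hx', hx'⟩
      · rintro ⟨hx, hx'⟩
        exact ⟨key L K h.symm (by rw [← hm1, he]) x hx hx', hx'⟩
    · refine conv_cancel hne fun p => ?_
      by_cases hp : φ ⬝ᵥ (p - c) = 1
      · -- count the representations
        have hreps := h.reps (p := p) (Pr.of_dot (φ := φ) (by rw [hp]; exact isUnit_one))
        have key : ∀ C : Finset (Fin n → ℤ), (∀ x ∈ C, |φ ⬝ᵥ vs c x| ≤ 3) →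
            (C.filter (fun x => p - x ∈ C)).card =
            2 * ((C.filter (fun x => φ ⬝ᵥ vs c x = -1)).filter
              (fun x => p - x ∈ C.filter (fun x => φ ⬝ᵥ vs c x = 3))).card +
            ((C.filter (fun x => φ ⬝ᵥ vs c x = 1)).filter
              (fun x => p - x ∈ C.filter (fun x => φ ⬝ᵥ vs c x = 1))).card := by
          intro C hC
          have hval : ∀ x, φ ⬝ᵥ vs c x + φ ⬝ᵥ vs c (p - x) = 2 := by
            intro x
            have h5 := dot_vs_add φ c x (p - x)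
            have h6 : x + (p - x) - c = p - c := by abel
            rw [h6, hp] at h5
            omega
          have hsplit : C.filter (fun x => p - x ∈ C) =
              ((C.filter (fun x => φ ⬝ᵥ vs c x = -1)).filter
                (fun x => p - x ∈ C.filter (fun x => φ ⬝ᵥ vs c x = 3)) ∪
              ((C.filter (fun x => φ ⬝ᵥ vs c x = -1)).filter
                (fun x => p - x ∈ C.filter (fun x => φ ⬝ᵥ vs c x = 3))).image (fun x => p - x)) ∪
              (C.filter (fun x => φ ⬝ᵥ vs c x = 1)).filter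
                (fun x => p - x ∈ C.filter (fun x => φ ⬝ᵥ vs c x = 1)) := by
            ext x
            simp only [mem_union, mem_image, mem_filter]
            constructor
            · rintro ⟨hx, hx'⟩
              have h5 := hval x
              have h6 := hC x hx
              have h7 := hC _ hx'
              have h8 := hpo x
              rw [Int.odd_iff] at h8
              rw [abs_le] at h6 h7
              have h9 : φ ⬝ᵥ vs c x = -1 ∨ φ ⬝ᵥ vs c x = 1 ∨ φ ⬝ᵥ vs c x = 3 := by omega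
              rcases h9 with h9 | h9 | h9
              · exact Or.inl (Or.inl ⟨⟨hx, h9⟩, hx', by omega⟩)
              · exact Or.inr ⟨⟨hx, h9⟩, hx', by omega⟩
              · refine Or.inl (Or.inr ⟨p - x, ⟨⟨hx', by omega⟩, ?_⟩, by abel⟩)
                rw [sub_sub_cancel]
                exact ⟨hx, h9⟩
            · rintro ((⟨⟨hx, -⟩, hx', -⟩ | ⟨y, ⟨⟨hy, -⟩, hy', -⟩, rfl⟩) | ⟨⟨hx, -⟩, hx', -⟩)
              · exact ⟨hx, hx'⟩
              · rw [sub_sub_cancel]
                exact ⟨hy', hy⟩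
              · exact ⟨hx, hx'⟩
          rw [hsplit, card_union_of_disjoint, card_union_of_disjoint,
            card_image_of_injective _ sub_right_injective]
          · ring
          · rw [disjoint_left]
            intro x hx hx'
            simp only [mem_image, mem_filter] at hx hx'
            obtain ⟨y, ⟨⟨-, hy1⟩, -, hy3⟩, rfl⟩ := hx'
            have h5 := hx.1.2
            omega
          · rw [disjoint_left]
            intro x hx hx'
            simp only [mem_union, mem_image, mem_filter] at hx hx'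
            have h5 := hx'.1.2
            rcases hx with hx | ⟨y, ⟨⟨-, hy1⟩, -, hy3⟩, rfl⟩
            · have h6 := hx.1.2
              omega
            · omega
        rw [key K hφ, key L hφL, ← h1, ← hm1] at hreps
        omega
      · -- no representations
        have key : ∀ C : Finset (Fin n → ℤ), (K.filter (fun x => φ ⬝ᵥ vs c x = -1)).filter
            (fun x => p - x ∈ C.filter (fun x => φ ⬝ᵥ vs c x = 3)) = ∅ := by
          intro C
          rw [filter_eq_empty_iff]
          intro x hx hx'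
          rw [mem_filter] at hx hx'
          apply hp
          have h5 := dot_vs_add φ c x (p - x)
          have h6 : x + (p - x) - c = p - c := by abel
          rw [h6] at h5
          omega
        rw [key, key]
  -- all levels agree
  have key : ∀ C D : Finset (Fin n → ℤ), (∀ x, x ∈ C ↔ c - x ∈ C) → (∀ x, x ∈ D ↔ c - x ∈ D) →
      (∀ x ∈ C, |φ ⬝ᵥ vs c x| ≤ 3) →
      C.filter (fun x => φ ⬝ᵥ vs c x = 1) = D.filter (fun x => φ ⬝ᵥ vs c x = 1) →
      C.filter (fun x => φ ⬝ᵥ vs c x = 3) = D.filter (fun x => φ ⬝ᵥ vs c x = 3) → C ⊆ D := by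
    intro C D hC hD hC3 hCD1 hCD3
    have hpos : ∀ x ∈ C, 0 < φ ⬝ᵥ vs c x → x ∈ D := by
      intro x hx hx0
      have h5 := (abs_le.1 (hC3 x hx)).2
      have h6 := hpo x
      rw [Int.odd_iff] at h6
      have h7 : φ ⬝ᵥ vs c x = 1 ∨ φ ⬝ᵥ vs c x = 3 := by omega
      rcases h7 with h7 | h7
      · have h8 : x ∈ C.filter (fun x => φ ⬝ᵥ vs c x = 1) := mem_filter.2 ⟨hx, h7⟩
        rw [hCD1, mem_filter] at h8
        exact h8.1
      · have h8 : x ∈ C.filter (fun x => φ ⬝ᵥ vs c x = 3) := mem_filter.2 ⟨hx, h7⟩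
        rw [hCD3, mem_filter] at h8
        exact h8.1
    intro x hx
    rcases lt_or_ge 0 (φ ⬝ᵥ vs c x) with h5 | h5
    · exact hpos x hx h5
    · rw [hD x]
      refine hpos _ ((hC x).1 hx) ?_
      rw [vs_sub, dotProduct_neg]
      have h6 := hpo x
      rw [Int.odd_iff] at h6
      omega
  exact Finset.Subset.antisymm (key L K h.sL h.sK hφL h1.symm h3.symm)
    (key K L h.sK h.sL hφ h1 h3)

/-- **Width two or four.** -/
theorem Tw.width_four {K L : Finset (Fin n → ℤ)} {c : Fin n → ℤ} (h : Tw K L c)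
    (hodd : ¬ ∃ z, c = z + z) (hK : Sph K c) {φ : Fin n → ℤ} (hpar : Even (φ ⬝ᵥ c))
    (hφ : ∀ x ∈ K, |φ ⬝ᵥ vs c x| ≤ 4) (hne : ∃ x ∈ K, φ ⬝ᵥ vs c x = 2) : L = K := by
  classical
  have hφL := h.bound_four hodd hK hpar hφ
  have hpo : ∀ x, Even (φ ⬝ᵥ vs c x) := by
    intro x
    have h1 := dot_vs_par φ c x
    rw [Int.even_iff] at hpar ⊢
    omega
  have h2 := h.level_eq hodd φ (j := 2) (Or.inr (Or.inl rfl))
  have h4 := h.level_eq hodd φ (j := 4) (Or.inr (Or.inr (Or.inl rfl)))
  have hneg : ∀ j : ℤ, K.filter (fun x => φ ⬝ᵥ vs c x = j) = L.filter (fun x => φ ⬝ᵥ vs c x = j) →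
      K.filter (fun x => φ ⬝ᵥ vs c x = -j) = L.filter (fun x => φ ⬝ᵥ vs c x = -j) := by
    intro j hj
    have key : ∀ C D : Finset (Fin n → ℤ), (∀ x, x ∈ C ↔ c - x ∈ C) → (∀ x, x ∈ D ↔ c - x ∈ D) →
        C.filter (fun x => φ ⬝ᵥ vs c x = j) = D.filter (fun x => φ ⬝ᵥ vs c x = j) →
        ∀ x ∈ C, φ ⬝ᵥ vs c x = -j → x ∈ D := by
      intro C D hC hD hCD x hx hx1
      have h2 : c - x ∈ C.filter (fun x => φ ⬝ᵥ vs c x = j) := by
        rw [mem_filter, vs_sub, dotProduct_neg, hx1]
        exact ⟨(hC x).1 hx, by ring⟩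
      rw [hCD, mem_filter] at h2
      exact (hD x).2 h2.1
    ext x
    rw [mem_filter, mem_filter]
    constructor
    · rintro ⟨hx, hx'⟩
      exact ⟨key K L h.sK h.sL hj x hx hx', hx'⟩
    · rintro ⟨hx, hx'⟩
      exact ⟨key L K h.sL h.sK hj.symm x hx hx', hx'⟩
  have hm2 := hneg 2 h2
  have hm4 := hneg 4 h4
  -- the level zero
  have h0 : K.filter (fun x => φ ⬝ᵥ vs c x = 0) = L.filter (fun x => φ ⬝ᵥ vs c x = 0) := by
    have hP : (K.filter (fun x => φ ⬝ᵥ vs c x = 2)).Nonempty := by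
      obtain ⟨x, hx, hx2⟩ := hne
      exact ⟨x, mem_filter.2 ⟨hx, hx2⟩⟩
    refine conv_cancel hP fun p => ?_
    by_cases hp : φ ⬝ᵥ (p - c) = 1
    · have hreps := h.reps (p := p) (Pr.of_dot (φ := φ) (by rw [hp]; exact isUnit_one))
      have key : ∀ C : Finset (Fin n → ℤ), (∀ x ∈ C, |φ ⬝ᵥ vs c x| ≤ 4) →
          (C.filter (fun x => p - x ∈ C)).card =
          2 * ((C.filter (fun x => φ ⬝ᵥ vs c x = 2)).filter
            (fun x => p - x ∈ C.filter (fun x => φ ⬝ᵥ vs c x = 0))).card +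
          2 * ((C.filter (fun x => φ ⬝ᵥ vs c x = 4)).filter
            (fun x => p - x ∈ C.filter (fun x => φ ⬝ᵥ vs c x = -2))).card := by
        intro C hC
        have hval : ∀ x, φ ⬝ᵥ vs c x + φ ⬝ᵥ vs c (p - x) = 2 := by
          intro x
          have h5 := dot_vs_add φ c x (p - x)
          have h6 : x + (p - x) - c = p - c := by abel
          rw [h6, hp] at h5
          omega
        have hsplit : C.filter (fun x => p - x ∈ C) =
            ((C.filter (fun x => φ ⬝ᵥ vs c x = 2)).filter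
              (fun x => p - x ∈ C.filter (fun x => φ ⬝ᵥ vs c x = 0)) ∪
            ((C.filter (fun x => φ ⬝ᵥ vs c x = 2)).filter
              (fun x => p - x ∈ C.filter (fun x => φ ⬝ᵥ vs c x = 0))).image (fun x => p - x)) ∪
            ((C.filter (fun x => φ ⬝ᵥ vs c x = 4)).filter
              (fun x => p - x ∈ C.filter (fun x => φ ⬝ᵥ vs c x = -2)) ∪
            ((C.filter (fun x => φ ⬝ᵥ vs c x = 4)).filter
              (fun x => p - x ∈ C.filter (fun x => φ ⬝ᵥ vs c x = -2))).image (fun x => p - x)) := by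
          ext x
          simp only [mem_union, mem_image, mem_filter]
          constructor
          · rintro ⟨hx, hx'⟩
            have h5 := hval x
            have h6 := hC x hx
            have h7 := hC _ hx'
            have h8 := hpo x
            rw [Int.even_iff] at h8
            rw [abs_le] at h6 h7
            have h9 : φ ⬝ᵥ vs c x = -2 ∨ φ ⬝ᵥ vs c x = 0 ∨ φ ⬝ᵥ vs c x = 2 ∨
                φ ⬝ᵥ vs c x = 4 := by omega
            rcases h9 with h9 | h9 | h9 | h9
            · refine Or.inr (Or.inr ⟨p - x, ⟨⟨hx', by omega⟩, ?_⟩, by abel⟩)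
              rw [sub_sub_cancel]
              exact ⟨hx, h9⟩
            · refine Or.inl (Or.inr ⟨p - x, ⟨⟨hx', by omega⟩, ?_⟩, by abel⟩)
              rw [sub_sub_cancel]
              exact ⟨hx, h9⟩
            · exact Or.inl (Or.inl ⟨⟨hx, h9⟩, hx', by omega⟩)
            · exact Or.inr (Or.inl ⟨⟨hx, h9⟩, hx', by omega⟩)
          · rintro ((⟨⟨hx, -⟩, hx', -⟩ | ⟨y, ⟨⟨hy, -⟩, hy', -⟩, rfl⟩) |
              (⟨⟨hx, -⟩, hx', -⟩ | ⟨y, ⟨⟨hy, -⟩, hy', -⟩, rfl⟩))
            · exact ⟨hx, hx'⟩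
            · rw [sub_sub_cancel]
              exact ⟨hy', hy⟩
            · exact ⟨hx, hx'⟩
            · rw [sub_sub_cancel]
              exact ⟨hy', hy⟩
        rw [hsplit, card_union_of_disjoint, card_union_of_disjoint, card_union_of_disjoint,
          card_image_of_injective _ sub_right_injective,
          card_image_of_injective _ sub_right_injective]
        · ring
        · rw [disjoint_left]
          intro x hx hx'
          simp only [mem_image, mem_filter] at hx hx'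
          obtain ⟨y, ⟨⟨-, hy1⟩, -, hy3⟩, rfl⟩ := hx'
          have h5 := hx.1.2
          omega
        · rw [disjoint_left]
          intro x hx hx'
          simp only [mem_image, mem_filter] at hx hx'
          obtain ⟨y, ⟨⟨-, hy1⟩, -, hy3⟩, rfl⟩ := hx'
          have h5 := hx.1.2
          omega
        · rw [disjoint_left]
          intro x hx hx'
          simp only [mem_union, mem_image, mem_filter] at hx hx'
          rcases hx with hx | ⟨y, ⟨⟨-, hy1⟩, -, hy3⟩, rfl⟩
          · have h5 := hx.1.2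
            rcases hx' with hx' | ⟨y, ⟨⟨-, hy1⟩, -, hy3⟩, rfl⟩
            · have h6 := hx'.1.2
              omega
            · omega
          · rcases hx' with hx' | ⟨z, ⟨⟨-, hz1⟩, -, hz3⟩, hz⟩
            · have h6 := hx'.1.2
              omega
            · rw [← hz] at hy3
              omega
      rw [key K hφ, key L hφL, ← h2, ← h4, ← hm2] at hreps
      omega
    · have key : ∀ C : Finset (Fin n → ℤ), (K.filter (fun x => φ ⬝ᵥ vs c x = 2)).filter
          (fun x => p - x ∈ C.filter (fun x => φ ⬝ᵥ vs c x = 0)) = ∅ := by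
        intro C
        rw [filter_eq_empty_iff]
        intro x hx hx'
        rw [mem_filter] at hx hx'
        apply hp
        have h5 := dot_vs_add φ c x (p - x)
        have h6 : x + (p - x) - c = p - c := by abel
        rw [h6] at h5
        omega
      rw [key, key]
  have key : ∀ C D : Finset (Fin n → ℤ), (∀ x ∈ C, |φ ⬝ᵥ vs c x| ≤ 4) →
      C.filter (fun x => φ ⬝ᵥ vs c x = 0) = D.filter (fun x => φ ⬝ᵥ vs c x = 0) →
      C.filter (fun x => φ ⬝ᵥ vs c x = 2) = D.filter (fun x => φ ⬝ᵥ vs c x = 2) →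
      C.filter (fun x => φ ⬝ᵥ vs c x = 4) = D.filter (fun x => φ ⬝ᵥ vs c x = 4) →
      C.filter (fun x => φ ⬝ᵥ vs c x = -2) = D.filter (fun x => φ ⬝ᵥ vs c x = -2) →
      C.filter (fun x => φ ⬝ᵥ vs c x = -4) = D.filter (fun x => φ ⬝ᵥ vs c x = -4) → C ⊆ D := by
    intro C D hC e0 e2 e4 em2 em4 x hx
    have h5 := hC x hx
    rw [abs_le] at h5
    have h6 := hpo x
    rw [Int.even_iff] at h6
    have h7 : φ ⬝ᵥ vs c x = 0 ∨ φ ⬝ᵥ vs c x = 2 ∨ φ ⬝ᵥ vs c x = 4 ∨ φ ⬝ᵥ vs c x = -2 ∨
        φ ⬝ᵥ vs c x = -4 := by omega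
    have h8 : ∀ j : ℤ, C.filter (fun x => φ ⬝ᵥ vs c x = j) = D.filter (fun x => φ ⬝ᵥ vs c x = j) →
        φ ⬝ᵥ vs c x = j → x ∈ D := by
      intro j hj hxj
      have h9 : x ∈ C.filter (fun x => φ ⬝ᵥ vs c x = j) := mem_filter.2 ⟨hx, hxj⟩
      rw [hj, mem_filter] at h9
      exact h9.1
    rcases h7 with h7 | h7 | h7 | h7 | h7
    · exact h8 _ e0 h7
    · exact h8 _ e2 h7
    · exact h8 _ e4 h7
    · exact h8 _ em2 h7
    · exact h8 _ em4 h7
  exact Finset.Subset.antisymm (key L K hφL h0.symm h2.symm h4.symm hm2.symm hm4.symm)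
    (key K L hφ h0 h2 h4 hm2 hm4)

end Pool.Agent.Lib.MP_8cf263_co
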